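import Pool.Agent.VRC.Targets2
import Pool.Agent.CRF.P_FAE

set_option autoImplicit false

/-!
# VRC, target RAC: almost sure almost everywhere convergence
-/

namespace Pool.Agent.VRC

open MeasureTheory FourierTransform Set Filter Topology
open scoped ENNReal NNReal
open Pool.Agent.MBS (E ex)
open Pool.Agent.CAR (e1)
open Pool.Agent.CRN (IN)
open Pool.Agent.CRF (jn tl T_FSP T_FRT Mx)
open Pool.Agent.CRF.FAE_

namespace RAC_

/-! ### the limit in `L²` -/

variable {n : ℕ}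

/-- the part of `G` outside the ball of radius `R` -/
noncomputable def ou (G : E n → ℂ) (R : ℝ) : E n → ℂ := {ξ : E n | R < ‖ξ‖}.indicator G

theorem ou_sq (G : E n → ℂ) (R : ℝ) (ξ : E n) : ‖ou G R ξ‖ₑ ^ 2 ≤ ‖G ξ‖ₑ ^ 2 := by
  unfold ou
  by_cases h : ξ ∈ {ξ : E n | R < ‖ξ‖}
  · rw [indicator_of_mem h]
  · rw [indicator_of_notMem h]
    simp

/-- Plancherel for the shell `R < ‖ξ‖ ≤ R'` -/
theorem shell {G : E n → ℂ} (hG : Measurable G) (h2 : ∫⁻ ξ, ‖G ξ‖ₑ ^ 2 ≠ ⊤) {R R' : ℝ}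
    (hR : R ≤ R') :
    ∫⁻ x, ‖BI G R x - BI G R' x‖ₑ ^ 2 ≤ ∫⁻ ξ, ‖ou G R ξ‖ₑ ^ 2 := by
  set s : Set (E n) := Metric.closedBall (0 : E n) R' \ Metric.closedBall (0 : E n) R with hs
  have hsm : MeasurableSet s :=
    Metric.isClosed_closedBall.measurableSet.diff Metric.isClosed_closedBall.measurableSet
  have hsub : s ⊆ Metric.closedBall (0 : E n) R' := sdiff_subset
  set h : E n → ℂ := s.indicator G with hh
  have hI : Integrable h := ((intOn hG h2 R').mono_set hsub).integrable_indicator hsm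
  have hh2 : ∀ ξ, ‖h ξ‖ₑ ^ 2 ≤ ‖ou G R ξ‖ₑ ^ 2 := by
    intro ξ
    by_cases hξ : ξ ∈ s
    · have h3 : ξ ∈ {ξ : E n | R < ‖ξ‖} := by
        have := hξ.2
        rw [mem_closedBall_zero_iff, not_le] at this
        exact this
      simp only [hh, ou, indicator_of_mem hξ, indicator_of_mem h3, le_refl]
    · simp only [hh, indicator_of_notMem hξ]
      simp
  have hL : MemLp h 2 := memLp_of_lint (hG.indicator hsm).aestronglyMeasurable
    (ne_top_of_le_ne_top h2 (lintegral_mono fun ξ => (hh2 ξ).trans (ou_sq G R ξ)))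
  have e : ∀ x, IN h x = BI G R' x - BI G R x := by
    intro x
    unfold BI
    rw [← setIntegral_sdiff Metric.isClosed_closedBall.measurableSet (intEx (intOn hG h2 R') x)
      (Metric.closedBall_subset_closedBall hR), ← integral_indicator hsm]
    unfold IN
    refine integral_congr_ae (ae_of_all _ fun ξ => ?_)
    by_cases hξ : ξ ∈ s
    · simp only [hh, indicator_of_mem hξ]
    · simp only [hh, indicator_of_notMem hξ, zero_mul]
  calc ∫⁻ x, ‖BI G R x - BI G R' x‖ₑ ^ 2 = ∫⁻ x, ‖IN h x‖ₑ ^ 2 := by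
        refine lintegral_congr fun x => ?_
        rw [e, ← enorm_neg, neg_sub]
    _ = ∫⁻ ξ, ‖h ξ‖ₑ ^ 2 := plancherelIN hI hL
    _ ≤ _ := lintegral_mono hh2

theorem l2part {G : E n → ℂ} (hG : Measurable G) (h2 : ∫⁻ ξ, ‖G ξ‖ₑ ^ 2 ≠ ⊤)
    (hc : ∀ᵐ x, ∃ l : ℂ, Tendsto (fun R : ℝ => BI G R x) atTop (𝓝 l)) :
    ∃ F : E n → ℂ, MemLp F 2 ∧
      Tendsto (fun R : ℝ => ∫⁻ x, ‖BI G R x - F x‖ₑ ^ 2) atTop (𝓝 0) ∧
      ∀ᵐ x, Tendsto (fun R : ℝ => BI G R x) atTop (𝓝 (F x)) := by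
  classical
  let F : E n → ℂ := fun x =>
    if h : ∃ l : ℂ, Tendsto (fun R : ℝ => BI G R x) atTop (𝓝 l) then h.choose else 0
  have hF : ∀ᵐ x, Tendsto (fun R : ℝ => BI G R x) atTop (𝓝 (F x)) := by
    filter_upwards [hc] with x hx
    have : F x = hx.choose := dif_pos hx
    rw [this]
    exact hx.choose_spec
  have hFm : AEStronglyMeasurable F volume := by
    refine aestronglyMeasurable_of_tendsto_ae atTop (f := fun (N : ℕ) x => BI G N x)
      (fun N => (BI_cont (intOn hG h2 N)).aestronglyMeasurable) ?_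
    filter_upwards [hF] with x hx
    exact hx.comp tendsto_natCast_atTop_atTop
  have key : ∀ R : ℝ, ∫⁻ x, ‖BI G R x - F x‖ₑ ^ 2 ≤ ∫⁻ ξ, ‖ou G R ξ‖ₑ ^ 2 := by
    intro R
    have hm : ∀ N : ℕ, Measurable (fun x => ‖BI G R x - BI G N x‖ₑ ^ 2) := fun N =>
      (((BI_cont (intOn hG h2 R)).measurable.sub
        (BI_cont (intOn hG h2 N)).measurable).enorm).pow_const 2
    calc ∫⁻ x, ‖BI G R x - F x‖ₑ ^ 2
        = ∫⁻ x, liminf (fun N : ℕ => ‖BI G R x - BI G N x‖ₑ ^ 2) atTop := by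
          refine lintegral_congr_ae ?_
          filter_upwards [hF] with x hx
          have h3 : Tendsto (fun N : ℕ => ‖BI G R x - BI G N x‖ₑ ^ 2) atTop
              (𝓝 (‖BI G R x - F x‖ₑ ^ 2)) :=
            ENNReal.Tendsto.pow ((tendsto_const_nhds.sub
              (hx.comp tendsto_natCast_atTop_atTop)).enorm)
          exact h3.liminf_eq.symm
      _ ≤ liminf (fun N : ℕ => ∫⁻ x, ‖BI G R x - BI G N x‖ₑ ^ 2) atTop :=
          lintegral_liminf_le hm
      _ ≤ liminf (fun _ : ℕ => ∫⁻ ξ, ‖ou G R ξ‖ₑ ^ 2) atTop := by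
          refine liminf_le_liminf ?_
          filter_upwards [eventually_ge_atTop ⌈R⌉₊] with N hN
          exact shell hG h2 (Nat.ceil_le.1 hN)
      _ = _ := liminf_const _
  refine ⟨F, ?_, ?_, hF⟩
  · refine memLp_of_lint hFm ?_
    have h3 := key (-1)
    have h4 : ∀ x, BI G (-1) x = 0 := by
      intro x
      unfold BI
      rw [Metric.closedBall_eq_empty.2 (by norm_num : (-1 : ℝ) < 0)]
      simp
    simp only [h4, zero_sub, enorm_neg] at h3
    exact ne_top_of_le_ne_top h2 (h3.trans (lintegral_mono fun ξ => ou_sq G (-1) ξ))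
  · have h5 : Tendsto (fun N : ℕ => ∫⁻ ξ, ‖tr G N ξ‖ₑ ^ 2) atTop (𝓝 0) := by
      have := tr_lim (W := fun _ : E n => (1 : ℝ≥0∞)) measurable_const hG (by simpa using h2)
      simpa using this
    have h6 : Tendsto (fun R : ℝ => ∫⁻ ξ, ‖tr G ⌊R⌋₊ ξ‖ₑ ^ 2) atTop (𝓝 0) :=
      h5.comp tendsto_nat_floor_atTop
    refine tendsto_of_tendsto_of_tendsto_of_le_of_le' tendsto_const_nhds h6
      (Eventually.of_forall fun _ => zero_le) ?_
    filter_upwards [eventually_ge_atTop (0 : ℝ)] with R hR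
    refine (key R).trans (lintegral_mono fun ξ => ?_)
    unfold ou tr
    by_cases h7 : ξ ∈ {ξ : E n | R < ‖ξ‖}
    · have h8 : ξ ∈ {ξ : E n | ((⌊R⌋₊ : ℕ) : ℝ) < ‖ξ‖} := lt_of_le_of_lt (Nat.floor_le hR) h7
      rw [indicator_of_mem h7, indicator_of_mem h8]
    · rw [indicator_of_notMem h7]
      simp

/-! ### rational radii -/

/-- the maximal function over the rational radii -/
noncomputable def Mq (G : E n → ℂ) (x : E n) : ℝ≥0∞ :=
  ⨆ q : {q : ℚ // 0 < (q : ℝ)}, ‖BI G ((q : ℚ) : ℝ) x‖ₑ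

theorem Mx_le {G : E n → ℂ} (hG : ∀ R, IntegrableOn G (Metric.closedBall (0 : E n) R)) (x : E n) :
    Mx G x ≤ Mq G x := by
  unfold Mx
  refine iSup₂_le fun R hR => ?_
  obtain ⟨u, hu1, hu2, hu3⟩ := Real.exists_seq_rat_strictAnti_tendsto R
  have hanti : Antitone fun j => Metric.closedBall (0 : E n) (u j : ℝ) := by
    intro i j hij
    exact Metric.closedBall_subset_closedBall (by exact_mod_cast hu1.antitone hij)
  have hI : ⋂ j, Metric.closedBall (0 : E n) (u j : ℝ) = Metric.closedBall (0 : E n) R := by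
    ext ξ
    simp only [mem_iInter, mem_closedBall_zero_iff]
    constructor
    · intro h
      exact ge_of_tendsto' hu3 h
    · intro h j
      exact h.trans (hu2 j).le
  have h1 := tendsto_setIntegral_of_antitone (μ := (volume : Measure (E n)))
    (s := fun j => Metric.closedBall (0 : E n) (u j : ℝ)) (f := fun ξ => G ξ * ex x ξ)
    (fun j => Metric.isClosed_closedBall.measurableSet) hanti ⟨0, intEx (hG _) x⟩
  rw [hI] at h1
  refine le_of_tendsto' h1.enorm fun j => ?_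
  exact le_iSup (fun q : {q : ℚ // 0 < (q : ℝ)} => ‖BI G ((q : ℚ) : ℝ) x‖ₑ)
    ⟨u j, hR.trans (hu2 j)⟩

theorem Mq_le (G : E n → ℂ) (x : E n) : Mq G x ≤ Mx G x := by
  unfold Mq
  refine iSup_le fun q => ?_
  unfold Mx
  exact le_iSup₂ (f := fun (R : ℝ) (_ : 0 < R) => ‖BI G R x‖ₑ) ((q : ℚ) : ℝ) q.2

/-! ### the random multiplier -/

variable {k : ℝ} {Q : ℕ → Set (E n)} {w : ℕ → E n} {Ω : Type} [MeasurableSpace Ω]
  {P : Measure Ω} {ε : ℕ → Ω → ℝ}

omit [MeasurableSpace Ω] in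
theorem rm_hasSum (hQ : Cells n k Q w) (ω : Ω) (ξ : E n) :
    HasSum (fun i => (Q i).indicator (fun _ => (ε i ω : ℂ)) ξ) (rm Q ε ω ξ) := by
  have h : Summable (fun i => (Q i).indicator (fun _ => (ε i ω : ℂ)) ξ) := by
    by_cases h : ∃ i, ξ ∈ Q i
    · obtain ⟨i, hi⟩ := h
      refine (hasSum_single i fun j hj => ?_).summable
      exact indicator_of_notMem (fun hj' => Set.disjoint_left.1 (hQ.disj j i hj) hj' hi) _
    · push Not at h
      have e : (fun i => (Q i).indicator (fun _ => (ε i ω : ℂ)) ξ) = fun _ => 0 := by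
        funext i
        exact indicator_of_notMem (h i) _
      rw [e]
      exact summable_zero
  exact h.hasSum

omit [MeasurableSpace Ω] in
theorem rm_norm (hQ : Cells n k Q w) {ω : Ω} (hω : ∀ i, |ε i ω| ≤ 1) (ξ : E n) :
    ‖rm Q ε ω ξ‖ ≤ 1 := by
  by_cases h : ∃ i, ξ ∈ Q i
  · obtain ⟨i, hi⟩ := h
    have h1 : rm Q ε ω ξ = ε i ω := by
      unfold rm
      rw [tsum_eq_single i fun j hj => ?_, indicator_of_mem hi]
      exact indicator_of_notMem (fun hj' => Set.disjoint_left.1 (hQ.disj j i hj) hj' hi) _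
    rw [h1, Complex.norm_real]
    exact hω i
  · push Not at h
    have h1 : rm Q ε ω ξ = 0 := by
      unfold rm
      have e : (fun i => (Q i).indicator (fun _ => (ε i ω : ℂ)) ξ) = fun _ => 0 := by
        funext i
        exact indicator_of_notMem (h i) _
      rw [e, tsum_zero]
    rw [h1, norm_zero]
    exact zero_le_one

theorem rm_meas2 (hQ : Cells n k Q w) (hS : Sgn P ε) :
    Measurable (fun p : Ω × E n => rm Q ε p.1 p.2) := by
  refine measurable_of_tendsto_metrizable (f := fun (N : ℕ) (p : Ω × E n) =>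
    ∑ i ∈ Finset.range N, (Q i).indicator (fun _ => (ε i p.1 : ℂ)) p.2) (fun N => ?_) ?_
  · refine Finset.measurable_sum _ fun i _ => ?_
    have e : (fun p : Ω × E n => (Q i).indicator (fun _ => (ε i p.1 : ℂ)) p.2) =
        (Prod.snd ⁻¹' Q i).indicator (fun p => (ε i p.1 : ℂ)) := by
      funext p
      by_cases h : p.2 ∈ Q i
      · rw [indicator_of_mem h, indicator_of_mem (show p ∈ Prod.snd ⁻¹' Q i from h)]
      · rw [indicator_of_notMem h, indicator_of_notMem (show p ∉ Prod.snd ⁻¹' Q i from h)]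
    rw [e]
    exact (Complex.measurable_ofReal.comp ((hS.meas i).comp measurable_fst)).indicator
      (measurable_snd (hQ.meas i))
  · rw [tendsto_pi_nhds]
    intro p
    exact (rm_hasSum hQ p.1 p.2).tendsto_sum_nat

theorem sgn_ae (hS : Sgn P ε) : ∀ᵐ ω ∂P, ∀ i, |ε i ω| ≤ 1 := by
  have := hS.prob
  rw [ae_all_iff]
  intro i
  have hm1 : MeasurableSet {ω | ε i ω = 1} := hS.meas i (measurableSet_singleton 1)
  have hm2 : MeasurableSet {ω | ε i ω = -1} := hS.meas i (measurableSet_singleton (-1))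
  have hd : Disjoint {ω | ε i ω = 1} {ω | ε i ω = -1} := by
    rw [Set.disjoint_left]
    intro ω h1 h2
    have h3 : ε i ω = 1 := h1
    have h4 : ε i ω = -1 := h2
    linarith
  have h1 : P ({ω | ε i ω = 1} ∪ {ω | ε i ω = -1}) = 1 := by
    rw [measure_union hd hm2, hS.pos i, hS.neg i]
    exact ENNReal.add_halves 1
  have h2 := (mem_ae_iff_prob_eq_one (hm1.union hm2)).2 h1
  filter_upwards [h2] with ω hω
  rcases hω with h | h
  · have h3 : ε i ω = 1 := h
    rw [h3]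
    simp
  · have h3 : ε i ω = -1 := h
    rw [h3]
    simp

theorem ex_meas3 : Measurable (fun z : (Ω × E n) × E n => ex z.1.2 z.2) := by
  have b1 : Measurable (fun p : E n × E n => ex p.1 p.2) :=
    Pool.Agent.MBS.ex_continuous.measurable
  have b2 : Measurable (fun z : (Ω × E n) × E n => ((z.1.2, z.2) : E n × E n)) :=
    (measurable_snd.comp measurable_fst).prodMk measurable_snd
  have e3 : (fun z : (Ω × E n) × E n => ex z.1.2 z.2) = (fun p : E n × E n => ex p.1 p.2) ∘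
      (fun z : (Ω × E n) × E n => ((z.1.2, z.2) : E n × E n)) := by
    funext z
    simp only [Function.comp]
  rw [e3]
  exact b1.comp b2

/-- joint measurability of the ball integrals -/
theorem BI_meas (hQ : Cells n k Q w) (hS : Sgn P ε) {g : E n → ℂ} (hg : Measurable g) (R : ℝ) :
    Measurable (fun p : Ω × E n => BI (fun ξ => rm Q ε p.1 ξ * g ξ) R p.2) := by
  have h1 : StronglyMeasurable (Function.uncurry fun (p : Ω × E n) (ξ : E n) =>
      rm Q ε p.1 ξ * g ξ * ex p.2 ξ) := by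
    apply Measurable.stronglyMeasurable
    have a1 : Measurable (fun z : (Ω × E n) × E n => rm Q ε z.1.1 z.2) :=
      (rm_meas2 hQ hS).comp ((measurable_fst.comp measurable_fst).prodMk measurable_snd)
    have a2 : Measurable (fun z : (Ω × E n) × E n => g z.2) := hg.comp measurable_snd
    exact (a1.mul a2).mul ex_meas3
  exact (h1.integral_prod_right (ν := volume.restrict (Metric.closedBall (0 : E n) R))).measurable

theorem Mq_meas (hQ : Cells n k Q w) (hS : Sgn P ε) {g : E n → ℂ} (hg : Measurable g) :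
    Measurable (fun p : Ω × E n => Mq (fun ξ => rm Q ε p.1 ξ * g ξ) p.2) := by
  unfold Mq
  exact Measurable.iSup fun q => (BI_meas hQ hS hg _).enorm

omit [MeasurableSpace Ω] in
theorem tr_rm (g : E n → ℂ) (N : ℕ) (ω : Ω) :
    tr (fun ξ => rm Q ε ω ξ * g ξ) N = fun ξ => rm Q ε ω ξ * tr g N ξ := by
  funext ξ
  unfold tr
  by_cases h : ξ ∈ {ξ : E n | (N : ℝ) < ‖ξ‖}
  · rw [indicator_of_mem h, indicator_of_mem h]
  · rw [indicator_of_notMem h, indicator_of_notMem h, mul_zero]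

/-- frequently small -/
theorem freq_of_liminf {a : ℕ → ℝ≥0∞} (h : liminf (fun N => a N ^ 2) atTop = 0) (m : ℕ) :
    ∃ᶠ N in atTop, a N ≤ lv m := by
  intro hcon
  have h1 : ∀ᶠ N in atTop, lv m ^ 2 ≤ a N ^ 2 := by
    filter_upwards [hcon] with N hN
    exact pow_le_pow_left₀ zero_le (not_le.1 hN).le 2
  have h2 : lv m ^ 2 ≤ liminf (fun N => a N ^ 2) atTop := le_liminf_of_le (by isBoundedDefault) h1
  rw [h] at h2
  have h3 := le_antisymm h2 bot_le
  exact lv_pos m ((pow_eq_zero_iff two_ne_zero).1 h3)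

end RAC_

open RAC_ in
/-- RAC -/
theorem p_RAC (h1 : T_RC1) : T_RAC := by
  intro n k hn hk Q w g Ω _ P ε hQ hg h2 hS
  have := hS.prob
  obtain ⟨C, hC⟩ := h1 n k hn hk
  have hmax : ∀ x0 : E n, ∀ᵐ ω ∂P, ∀ᵐ x ∂(volume.restrict (Metric.closedBall x0 1)),
      ∀ m : ℕ, ∃ᶠ N : ℕ in atTop, Mq (fun ξ => rm Q ε ω ξ * tr g N ξ) x ≤ lv m := by
    intro x0
    set μ : Measure (E n) := volume.restrict (Metric.closedBall x0 1) with hμ
    have hm : ∀ N : ℕ, Measurable (fun p : Ω × E n =>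
        Mq (fun ξ => rm Q ε p.1 ξ * tr g N ξ) p.2 ^ 2) := fun N =>
      (Mq_meas hQ hS (tr_meas hg N)).pow_const 2
    have hJ : ∀ N : ℕ, ∫⁻ p, Mq (fun ξ => rm Q ε p.1 ξ * tr g N ξ) p.2 ^ 2 ∂(P.prod μ) ≤
        C * ∫⁻ ξ, ‖tr g N ξ‖ₑ ^ 2 := by
      intro N
      rw [lintegral_prod _ (hm N).aemeasurable]
      refine le_trans ?_ (hC Q w (tr g N) x0 Ω P ε hQ (tr_meas hg N)
        (ne_top_of_le_ne_top h2 (lintegral_mono fun ξ => tr_enorm_sq g N ξ)) hS)
      refine lintegral_mono fun ω => lintegral_mono fun x => ?_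
      exact pow_le_pow_left₀ zero_le (Mq_le _ x) 2
    have hlim : Tendsto (fun N : ℕ =>
        ∫⁻ p, Mq (fun ξ => rm Q ε p.1 ξ * tr g N ξ) p.2 ^ 2 ∂(P.prod μ)) atTop (𝓝 0) := by
      have h5 : Tendsto (fun N : ℕ => ∫⁻ ξ, ‖tr g N ξ‖ₑ ^ 2) atTop (𝓝 0) := by
        have := tr_lim (W := fun _ : E n => (1 : ℝ≥0∞)) measurable_const hg (by simpa using h2)
        simpa using this
      have h6 := ENNReal.Tendsto.const_mul h5 (Or.inr (ENNReal.coe_ne_top (r := C)))
      rw [mul_zero] at h6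
      exact tendsto_of_tendsto_of_tendsto_of_le_of_le tendsto_const_nhds h6
        (fun _ => zero_le) hJ
    have hfat : ∫⁻ p, liminf (fun N : ℕ =>
        Mq (fun ξ => rm Q ε p.1 ξ * tr g N ξ) p.2 ^ 2) atTop ∂(P.prod μ) = 0 := by
      refine le_antisymm ?_ zero_le
      refine le_trans (lintegral_liminf_le hm) ?_
      rw [hlim.liminf_eq]
    rw [lintegral_eq_zero_iff (Measurable.liminf hm)] at hfat
    have h7 := Measure.ae_ae_of_ae_prod hfat
    filter_upwards [h7] with ω hω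
    filter_upwards [hω] with x hx m
    exact freq_of_liminf hx m
  have hall : ∀ᵐ ω ∂P, ∀ j : ℕ,
      ∀ᵐ x ∂(volume.restrict (Metric.closedBall (TopologicalSpace.denseSeq (E n) j) 1)),
      ∀ m : ℕ, ∃ᶠ N : ℕ in atTop, Mq (fun ξ => rm Q ε ω ξ * tr g N ξ) x ≤ lv m :=
    ae_all_iff.2 fun j => hmax _
  filter_upwards [hall, sgn_ae hS] with ω hω hε
  set G : E n → ℂ := fun ξ => rm Q ε ω ξ * g ξ with hG
  have hGm : Measurable G :=
    ((rm_meas2 hQ hS).comp (measurable_const.prodMk measurable_id)).mul hg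
  have hG2 : ∫⁻ ξ, ‖G ξ‖ₑ ^ 2 ≠ ⊤ := by
    refine ne_top_of_le_ne_top h2 (lintegral_mono fun ξ => ?_)
    refine pow_le_pow_left₀ zero_le ?_ 2
    rw [← ofReal_norm, ← ofReal_norm]
    apply ENNReal.ofReal_le_ofReal
    rw [hG]
    simp only [norm_mul]
    calc ‖rm Q ε ω ξ‖ * ‖g ξ‖ ≤ 1 * ‖g ξ‖ :=
          mul_le_mul_of_nonneg_right (rm_norm hQ hε ξ) (norm_nonneg _)
      _ = _ := one_mul _
  have hx : ∀ᵐ x, ∀ m : ℕ, ∃ᶠ N : ℕ in atTop, Mx (tr G N) x ≤ lv m := by
    have h8 : ∀ j : ℕ, ∀ᵐ x ∂(volume : Measure (E n)),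
        x ∈ Metric.closedBall (TopologicalSpace.denseSeq (E n) j) 1 →
        ∀ m : ℕ, ∃ᶠ N : ℕ in atTop, Mq (fun ξ => rm Q ε ω ξ * tr g N ξ) x ≤ lv m := fun j =>
      (ae_restrict_iff' Metric.isClosed_closedBall.measurableSet).1 (hω j)
    filter_upwards [ae_all_iff.2 h8] with x hx
    obtain ⟨j, hj⟩ := (TopologicalSpace.denseRange_denseSeq (E n)).exists_dist_lt x one_pos
    intro m
    refine (hx j (by rw [Metric.mem_closedBall]; exact hj.le) m).mono fun N hN => ?_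
    have h9 : tr G N = fun ξ => rm Q ε ω ξ * tr g N ξ := tr_rm g N ω
    have h10 : ∀ R, IntegrableOn (tr G N) (Metric.closedBall (0 : E n) R) := fun R =>
      intOn (tr_meas hGm N)
        (ne_top_of_le_ne_top hG2 (lintegral_mono fun ξ => tr_enorm_sq G N ξ)) R
    refine (Mx_le h10 x).trans ?_
    rw [h9]
    exact hN
  exact l2part hGm hG2 (by
    filter_upwards [hx] with x hx'
    exact conv_of_freq hGm hG2 hx')

end Pool.Agent.VRC
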