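import Pool.Agent.VRC.Targets2

set_option autoImplicit false

/-!
# CHN: chaining
-/

namespace Pool.Agent.VRC

open MeasureTheory FourierTransform Set Filter Topology
open scoped ENNReal NNReal

namespace CHN_

/-- squared distance -/
noncomputable def DD (n : ℕ) (X : ℕ → ℕ → ℂ) (j k : ℕ) : ℝ :=
  ∑ i ∈ Finset.range n, ‖X i j - X i k‖ ^ 2

theorem DD_nonneg (n : ℕ) (X : ℕ → ℕ → ℂ) (j k : ℕ) : 0 ≤ DD n X j k :=
  Finset.sum_nonneg fun _ _ => by positivity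

theorem DD_comm (n : ℕ) (X : ℕ → ℕ → ℂ) (j k : ℕ) : DD n X j k = DD n X k j := by
  unfold DD
  refine Finset.sum_congr rfl fun i _ => ?_
  rw [norm_sub_rev]

theorem var_DD {n M : ℕ} {X : ℕ → ℕ → ℂ} {v : ℕ → ℝ}
    (h : ∀ i < n, ∀ (l : ℕ) (t : ℕ → ℕ), Monotone t → (∀ r, t r ≤ M) →
      ∑ r ∈ Finset.range l, ‖X i (t (r + 1)) - X i (t r)‖ ^ 4 ≤ v i ^ 4)
    (l : ℕ) (t : ℕ → ℕ) (ht : Monotone t) (htM : ∀ r, t r ≤ M) :
    ∑ r ∈ Finset.range l, DD n X (t (r + 1)) (t r) ^ 2 ≤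
      (∑ i ∈ Finset.range n, v i ^ 2) ^ 2 := by
  have h1 : ∀ i < n, ∀ i' < n, ∑ r ∈ Finset.range l, ‖X i (t (r + 1)) - X i (t r)‖ ^ 2 *
      ‖X i' (t (r + 1)) - X i' (t r)‖ ^ 2 ≤ v i ^ 2 * v i' ^ 2 := by
    intro i hi i' hi'
    have h2 := Finset.sum_mul_sq_le_sq_mul_sq (Finset.range l)
      (fun r => ‖X i (t (r + 1)) - X i (t r)‖ ^ 2) (fun r => ‖X i' (t (r + 1)) - X i' (t r)‖ ^ 2)
    have h3 : ∑ r ∈ Finset.range l, (‖X i (t (r + 1)) - X i (t r)‖ ^ 2) ^ 2 ≤ v i ^ 4 := by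
      refine le_trans (le_of_eq ?_) (h i hi l t ht htM)
      exact Finset.sum_congr rfl fun r _ => by ring
    have h4 : ∑ r ∈ Finset.range l, (‖X i' (t (r + 1)) - X i' (t r)‖ ^ 2) ^ 2 ≤ v i' ^ 4 := by
      refine le_trans (le_of_eq ?_) (h i' hi' l t ht htM)
      exact Finset.sum_congr rfl fun r _ => by ring
    refine le_of_sq_le_sq ?_ (by positivity)
    calc _ ≤ _ := h2
      _ ≤ v i ^ 4 * v i' ^ 4 := mul_le_mul h3 h4 (Finset.sum_nonneg fun _ _ => by positivity)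
          (by positivity)
      _ = (v i ^ 2 * v i' ^ 2) ^ 2 := by ring
  calc ∑ r ∈ Finset.range l, DD n X (t (r + 1)) (t r) ^ 2
      = ∑ r ∈ Finset.range l, ∑ i ∈ Finset.range n, ∑ i' ∈ Finset.range n,
        ‖X i (t (r + 1)) - X i (t r)‖ ^ 2 * ‖X i' (t (r + 1)) - X i' (t r)‖ ^ 2 := by
        refine Finset.sum_congr rfl fun r _ => ?_
        unfold DD
        rw [sq, Finset.sum_mul_sum]
    _ = ∑ i ∈ Finset.range n, ∑ i' ∈ Finset.range n, ∑ r ∈ Finset.range l,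
        ‖X i (t (r + 1)) - X i (t r)‖ ^ 2 * ‖X i' (t (r + 1)) - X i' (t r)‖ ^ 2 := by
        rw [Finset.sum_comm]
        refine Finset.sum_congr rfl fun i _ => ?_
        rw [Finset.sum_comm]
    _ ≤ ∑ i ∈ Finset.range n, ∑ i' ∈ Finset.range n, v i ^ 2 * v i' ^ 2 :=
        Finset.sum_le_sum fun i hi => Finset.sum_le_sum fun i' hi' =>
          h1 i (Finset.mem_range.1 hi) i' (Finset.mem_range.1 hi')
    _ = (∑ i ∈ Finset.range n, v i ^ 2) ^ 2 := by rw [sq, Finset.sum_mul_sum]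

/-- the sums along monotone sequences -/
def SS (d : ℕ → ℕ → ℝ) (j : ℕ) : Set ℝ :=
  {s | ∃ (l : ℕ) (t : ℕ → ℕ), Monotone t ∧ (∀ r, t r ≤ j) ∧
    s = ∑ r ∈ Finset.range l, d (t (r + 1)) (t r)}

theorem exists_G {M : ℕ} {c : ℝ} {d : ℕ → ℕ → ℝ} (hd : ∀ j k, 0 ≤ d j k)
    (h : ∀ (l : ℕ) (t : ℕ → ℕ), Monotone t → (∀ r, t r ≤ M) →
      ∑ r ∈ Finset.range l, d (t (r + 1)) (t r) ≤ c) :
    ∃ G : ℕ → ℝ, (∀ j ≤ M, 0 ≤ G j ∧ G j ≤ c) ∧
      ∀ j k, j ≤ k → k ≤ M → d k j ≤ G k - G j := by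
  have hb : ∀ j ≤ M, ∀ s ∈ SS d j, s ≤ c := by
    rintro j hj s ⟨l, t, ht, htj, rfl⟩
    exact h l t ht fun r => (htj r).trans hj
  have h0 : ∀ j, (0 : ℝ) ∈ SS d j := fun j =>
    ⟨0, fun _ => 0, monotone_const, fun _ => Nat.zero_le _, by simp⟩
  refine ⟨fun j => sSup (SS d j), fun j hj => ⟨le_csSup ⟨c, hb j hj⟩ (h0 j),
    csSup_le ⟨0, h0 j⟩ (hb j hj)⟩, fun j k hjk hk => ?_⟩
  have h1 : sSup (SS d j) ≤ sSup (SS d k) - d k j := by
    refine csSup_le ⟨0, h0 j⟩ ?_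
    rintro s ⟨l, t, ht, htj, rfl⟩
    rw [le_sub_iff_add_le]
    have hmono : Monotone (fun r => if r ≤ l then t r else if r = l + 1 then j else k) := by
      intro a b hab
      show (if a ≤ l then t a else if a = l + 1 then j else k) ≤
        (if b ≤ l then t b else if b = l + 1 then j else k)
      have e1 := ht hab
      have e2 := htj a
      split_ifs <;> omega
    refine le_trans ?_ (le_csSup ⟨c, hb k hk⟩ ⟨l + 2, fun r => if r ≤ l then t r else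
      if r = l + 1 then j else k, hmono, ?_, rfl⟩)
    · rw [Finset.sum_range_succ, Finset.sum_range_succ]
      have e1 : ∑ r ∈ Finset.range l, d (if r + 1 ≤ l then t (r + 1) else
          if r + 1 = l + 1 then j else k) (if r ≤ l then t r else if r = l + 1 then j else k) =
          ∑ r ∈ Finset.range l, d (t (r + 1)) (t r) := by
        refine Finset.sum_congr rfl fun r hr => ?_
        have hr' := Finset.mem_range.1 hr
        rw [if_pos (by omega), if_pos (by omega)]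
      have e2 : (if l + 1 + 1 ≤ l then t (l + 1 + 1) else if l + 1 + 1 = l + 1 then j else k) =
          k := by rw [if_neg (by omega), if_neg (by omega)]
      have e3 : (if l + 1 ≤ l then t (l + 1) else if l + 1 = l + 1 then j else k) = j := by
        rw [if_neg (by omega), if_pos rfl]
      show _ ≤ ∑ r ∈ Finset.range l, d (if r + 1 ≤ l then t (r + 1) else
          if r + 1 = l + 1 then j else k) (if r ≤ l then t r else if r = l + 1 then j else k) +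
          d (if l + 1 ≤ l then t (l + 1) else if l + 1 = l + 1 then j else k)
            (if l ≤ l then t l else if l = l + 1 then j else k) +
          d (if l + 1 + 1 ≤ l then t (l + 1 + 1) else if l + 1 + 1 = l + 1 then j else k)
            (if l + 1 ≤ l then t (l + 1) else if l + 1 = l + 1 then j else k)
      rw [e1, e2, e3]
      have e4 := hd j (if l ≤ l then t l else if l = l + 1 then j else k)
      linarith
    · intro r
      show (if r ≤ l then t r else if r = l + 1 then j else k) ≤ k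
      have e2 := htj r
      split_ifs <;> omega
  linarith

/-- the levels -/
noncomputable def lev (G : ℕ → ℝ) (c : ℝ) (k j : ℕ) : ℕ := ⌊16 ^ k * (G j / (2 * c))⌋₊

theorem lev_div (G : ℕ → ℝ) (c : ℝ) (k j : ℕ) : lev G c k j = lev G c (k + 1) j / 16 := by
  unfold lev
  rw [show (16 : ℕ) = ((16 : ℕ)) from rfl, ← Nat.floor_div_natCast]
  congr 1
  push_cast
  rw [pow_succ]
  ring

theorem lev_lt {G : ℕ → ℝ} {c : ℝ} (hc : 0 < c) {j : ℕ} (h0 : 0 ≤ G j) (h1 : G j ≤ c)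
    (k : ℕ) : lev G c k j < 16 ^ k := by
  unfold lev
  have h2 : G j / (2 * c) < 1 := by
    rw [div_lt_one (by positivity)]
    linarith
  have h3 : (0 : ℝ) ≤ 16 ^ k * (G j / (2 * c)) := by positivity
  rw [Nat.floor_lt h3]
  push_cast
  have h4 : (0 : ℝ) < 16 ^ k := by positivity
  nlinarith

theorem lev_dist {G : ℕ → ℝ} {c : ℝ} (hc : 0 < c) {i j : ℕ} (hi : 0 ≤ G i) (hj : 0 ≤ G j)
    {k : ℕ} (h : lev G c k i = lev G c k j) : |G i - G j| ≤ 2 * c / 16 ^ k := by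
  unfold lev at h
  have h4 : (0 : ℝ) < 16 ^ k := by positivity
  have a1 := Nat.floor_le (show (0 : ℝ) ≤ 16 ^ k * (G i / (2 * c)) by positivity)
  have a2 := Nat.lt_floor_add_one (16 ^ k * (G i / (2 * c)))
  have b1 := Nat.floor_le (show (0 : ℝ) ≤ 16 ^ k * (G j / (2 * c)) by positivity)
  have b2 := Nat.lt_floor_add_one (16 ^ k * (G j / (2 * c)))
  rw [h] at a1 a2
  have h5 : |16 ^ k * (G i / (2 * c)) - 16 ^ k * (G j / (2 * c))| ≤ 1 := by
    rw [abs_le]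
    constructor <;> linarith
  have h6 : 16 ^ k * (G i / (2 * c)) - 16 ^ k * (G j / (2 * c)) =
      (16 ^ k / (2 * c)) * (G i - G j) := by ring
  rw [h6, abs_mul, abs_of_pos (by positivity)] at h5
  rw [le_div_iff₀ h4]
  have h7 : 16 ^ k / (2 * c) * |G i - G j| * (2 * c) ≤ 1 * (2 * c) :=
    mul_le_mul_of_nonneg_right h5 (by positivity)
  have h8 : 16 ^ k / (2 * c) * |G i - G j| * (2 * c) = |G i - G j| * 16 ^ k := by
    field_simp
  linarith

open Classical in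
/-- representative of a level -/
noncomputable def rp (M : ℕ) (f : ℕ → ℕ) (c : ℕ) : ℕ :=
  if h : ∃ j, j ≤ M ∧ f j = c then Nat.find h else 0

theorem rp_spec {M : ℕ} {f : ℕ → ℕ} {j : ℕ} (hj : j ≤ M) :
    rp M f (f j) ≤ M ∧ f (rp M f (f j)) = f j := by
  classical
  have h : ∃ i, i ≤ M ∧ f i = f j := ⟨j, hj, rfl⟩
  unfold rp
  rw [dif_pos h]
  exact Nat.find_spec h

theorem rp_zero {M : ℕ} {f : ℕ → ℕ} {c : ℕ} (h : f 0 = c) : rp M f c = 0 := by
  classical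
  have h1 : ∃ i, i ≤ M ∧ f i = c := ⟨0, Nat.zero_le _, h⟩
  unfold rp
  rw [dif_pos h1, Nat.find_eq_zero]
  exact ⟨Nat.zero_le _, h⟩

theorem geo_le {q : ℝ} (h0 : 0 ≤ q) (h1 : q < 1) (K : ℕ) :
    ∑ k ∈ Finset.range K, q ^ k ≤ (1 - q)⁻¹ := by
  rw [geom_sum_eq h1.ne]
  have h2 : 0 < 1 - q := by linarith
  have h3 : 0 ≤ q ^ K := by positivity
  rw [← neg_sub 1 q, ← neg_sub 1 (q ^ K), neg_div_neg_eq, div_le_iff₀ h2,
    inv_mul_cancel₀ h2.ne']
  linarith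

theorem chain (S : ℕ → ℂ) (π : ℕ → ℕ) (K : ℕ) (h0 : S (π 0) = 0) :
    ‖S (π K)‖ ^ 2 ≤
      8 * ∑ k ∈ Finset.range K, (8 / 7 : ℝ) ^ k * ‖S (π (k + 1)) - S (π k)‖ ^ 2 := by
  have h1 : S (π K) = ∑ k ∈ Finset.range K, (S (π (k + 1)) - S (π k)) := by
    rw [Finset.sum_range_sub (fun k => S (π k)), h0, sub_zero]
  have h2 : ‖S (π K)‖ ≤ ∑ k ∈ Finset.range K, ‖S (π (k + 1)) - S (π k)‖ := by
    rw [h1]
    exact norm_sum_le _ _
  have h3 : (∑ k ∈ Finset.range K, ‖S (π (k + 1)) - S (π k)‖) ^ 2 ≤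
      (∑ k ∈ Finset.range K, (7 / 8 : ℝ) ^ k) *
        ∑ k ∈ Finset.range K, (8 / 7 : ℝ) ^ k * ‖S (π (k + 1)) - S (π k)‖ ^ 2 := by
    refine Finset.sum_sq_le_sum_mul_sum_of_sq_le_mul _ (fun k _ => by positivity)
      (fun k _ => by positivity) fun k _ => ?_
    rw [← mul_assoc, ← mul_pow]
    norm_num
  have h4 : ∑ k ∈ Finset.range K, (7 / 8 : ℝ) ^ k ≤ 8 := by
    refine (geo_le (by norm_num) (by norm_num) K).trans ?_
    norm_num
  calc ‖S (π K)‖ ^ 2 ≤ (∑ k ∈ Finset.range K, ‖S (π (k + 1)) - S (π k)‖) ^ 2 := by gcongr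
    _ ≤ _ := h3
    _ ≤ _ := mul_le_mul_of_nonneg_right h4 (Finset.sum_nonneg fun _ _ => by positivity)

theorem young {a s : ℝ} (hs : 0 < s) : a ^ 2 ≤ s + (s ^ 2)⁻¹ * a ^ 6 := by
  have h0 : 0 ≤ (s ^ 2)⁻¹ * a ^ 6 := by positivity
  rcases le_total (a ^ 2) s with h | h
  · linarith
  · have h1 : s ^ 2 ≤ (a ^ 2) ^ 2 := by gcongr
    have h2 : a ^ 2 ≤ (s ^ 2)⁻¹ * a ^ 6 := by
      rw [← div_eq_inv_mul, le_div_iff₀ (by positivity)]
      calc a ^ 2 * s ^ 2 ≤ a ^ 2 * (a ^ 2) ^ 2 := by gcongr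
        _ = a ^ 6 := by ring
    linarith

theorem sup_sq_le {M : ℕ} (a : ℕ → ℝ≥0∞) (F : ℝ≥0∞) (h : ∀ j ≤ M, a j ^ 2 ≤ F) :
    (⨆ (j : ℕ) (_ : j ≤ M), a j) ^ 2 ≤ F := by
  have h1 : (⨆ (j : ℕ) (_ : j ≤ M), a j) ≤ F ^ (1 / 2 : ℝ) := by
    refine iSup_le fun j => iSup_le fun hj => ?_
    calc a j = (a j ^ 2) ^ (1 / 2 : ℝ) := by
          rw [← ENNReal.rpow_natCast, ← ENNReal.rpow_mul]
          norm_num
      _ ≤ F ^ (1 / 2 : ℝ) := ENNReal.rpow_le_rpow (h j hj) (by norm_num)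
  calc (⨆ (j : ℕ) (_ : j ≤ M), a j) ^ 2 ≤ (F ^ (1 / 2 : ℝ)) ^ 2 := by gcongr
    _ = F := by
        rw [← ENNReal.rpow_natCast, ← ENNReal.rpow_mul]
        norm_num

/-- the deterministic part: nets, given the level function -/
theorem nets {n M : ℕ} {X : ℕ → ℕ → ℂ} {W : ℝ} (hW : 0 < W)
    (h : ∀ (l : ℕ) (t : ℕ → ℕ), Monotone t → (∀ r, t r ≤ M) →
      ∑ r ∈ Finset.range l, DD n X (t (r + 1)) (t r) ^ 2 ≤ W ^ 2) :
    ∃ (π : ℕ → ℕ → ℕ) (K : ℕ) (α β : ℕ → ℕ → ℕ),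
      (∀ j ≤ M, π 0 j = 0 ∧ DD n X j (π K j) = 0) ∧
      (∀ k, ∀ j ≤ M, ∃ c < 16 ^ (k + 1), π (k + 1) j = α k c ∧ π k j = β k c) ∧
      ∀ k c, DD n X (α k c) (β k c) ≤ 2 * W / 4 ^ k := by
  classical
  obtain ⟨G, hG, hGd⟩ := exists_G (d := fun j k => DD n X j k ^ 2) (c := W ^ 2)
    (fun j k => sq_nonneg _) h
  have hW2 : (0 : ℝ) < W ^ 2 := by positivity
  have hdist : ∀ k, ∀ i ≤ M, ∀ j ≤ M, lev G (W ^ 2) k i = lev G (W ^ 2) k j →
      DD n X i j ≤ 2 * W / 4 ^ k := by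
    have key : ∀ k, ∀ i ≤ M, ∀ j ≤ M, i ≤ j → lev G (W ^ 2) k i = lev G (W ^ 2) k j →
        DD n X j i ≤ 2 * W / 4 ^ k := by
      intro k i hi j hj hij hl
      have h1 := hGd i j hij hj
      have h2 := lev_dist hW2 (hG i hi).1 (hG j hj).1 hl
      have h3 : G j - G i ≤ 2 * W ^ 2 / 16 ^ k := by
        have := neg_abs_le (G i - G j)
        linarith
      refine le_of_sq_le_sq ?_ (by positivity)
      calc DD n X j i ^ 2 ≤ 2 * W ^ 2 / 16 ^ k := h1.trans h3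
        _ ≤ 4 * W ^ 2 / 16 ^ k := by gcongr; norm_num
        _ = (2 * W / 4 ^ k) ^ 2 := by
            rw [div_pow, mul_pow, ← pow_mul, mul_comm k 2, pow_mul]
            norm_num
    intro k i hi j hj hl
    rcases le_total i j with hij | hij
    · rw [DD_comm]
      exact key k i hi j hj hij hl
    · exact key k j hj i hi hij hl.symm
  have hzero : lev G (W ^ 2) 0 0 = 0 := by
    have := lev_lt hW2 (hG 0 (Nat.zero_le _)).1 (hG 0 (Nat.zero_le _)).2 0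
    simpa using this
  -- large level
  obtain ⟨K, hK⟩ : ∃ K : ℕ, ∀ p ∈ (Finset.range (M + 1)) ×ˢ (Finset.range (M + 1)),
      lev G (W ^ 2) K p.1 = lev G (W ^ 2) K p.2 → DD n X p.1 p.2 = 0 := by
    have hev : ∀ᶠ K : ℕ in atTop, ∀ p ∈ (Finset.range (M + 1)) ×ˢ (Finset.range (M + 1)),
        lev G (W ^ 2) K p.1 = lev G (W ^ 2) K p.2 → DD n X p.1 p.2 = 0 := by
      rw [Filter.eventually_all_finset]
      rintro ⟨i, j⟩ hp
      rw [Finset.mem_product, Finset.mem_range, Finset.mem_range] at hp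
      obtain ⟨hi, hj⟩ := hp
      dsimp only at hi hj
      rcases (DD_nonneg n X i j).eq_or_lt with h0 | h0
      · exact Eventually.of_forall fun K _ => h0.symm
      · have ht : Tendsto (fun K : ℕ => 2 * W / (4 : ℝ) ^ K) atTop (𝓝 0) := by
          refine Tendsto.div_atTop tendsto_const_nhds ?_
          exact tendsto_pow_atTop_atTop_of_one_lt (by norm_num)
        filter_upwards [ht.eventually (gt_mem_nhds h0)] with K hK hl
        have := hdist K i (by omega) j (by omega) hl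
        exact absurd (this.trans_lt hK) (lt_irrefl _)
    exact hev.exists
  refine ⟨fun k j => rp M (lev G (W ^ 2) k) (lev G (W ^ 2) k j), K,
    fun k c => if ∃ j, j ≤ M ∧ lev G (W ^ 2) (k + 1) j = c then
      rp M (lev G (W ^ 2) (k + 1)) c else 0,
    fun k c => if ∃ j, j ≤ M ∧ lev G (W ^ 2) (k + 1) j = c then
      rp M (lev G (W ^ 2) k) (c / 16) else 0, ?_, ?_, ?_⟩
  · intro j hj
    constructor
    · refine rp_zero ?_
      have h1 := lev_lt hW2 (hG j hj).1 (hG j hj).2 0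
      rw [hzero]
      rw [pow_zero] at h1
      omega
    · have h1 := rp_spec (f := lev G (W ^ 2) K) hj
      exact hK (j, rp M (lev G (W ^ 2) K) (lev G (W ^ 2) K j))
        (Finset.mem_product.2 ⟨Finset.mem_range.2 (Nat.lt_succ_of_le hj),
          Finset.mem_range.2 (Nat.lt_succ_of_le h1.1)⟩) h1.2.symm
  · intro k j hj
    refine ⟨lev G (W ^ 2) (k + 1) j, lev_lt hW2 (hG j hj).1 (hG j hj).2 (k + 1), ?_, ?_⟩
    · dsimp only
      rw [if_pos ⟨j, hj, rfl⟩]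
    · dsimp only
      rw [if_pos ⟨j, hj, rfl⟩, ← lev_div]
  · intro k c
    dsimp only
    by_cases hc : ∃ j, j ≤ M ∧ lev G (W ^ 2) (k + 1) j = c
    · rw [if_pos hc, if_pos hc]
      obtain ⟨j, hj, rfl⟩ := hc
      have h1 := rp_spec (f := lev G (W ^ 2) (k + 1)) hj
      have h2 := rp_spec (f := lev G (W ^ 2) k) hj
      rw [← lev_div]
      refine hdist k _ h1.1 _ h2.1 ?_
      rw [h2.2, lev_div, h1.2, ← lev_div]
    · rw [if_neg hc, if_neg hc]
      have : DD n X 0 0 = 0 := by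
        unfold DD
        simp
      rw [this]
      positivity

/-- zero distance -/
theorem eq_of_DD {n : ℕ} {X : ℕ → ℕ → ℂ} {j k : ℕ} (h : DD n X j k = 0) (i : ℕ) (hi : i < n) :
    X i j = X i k := by
  unfold DD at h
  rw [Finset.sum_eq_zero_iff_of_nonneg (fun _ _ => by positivity)] at h
  have h1 := h i (Finset.mem_range.2 hi)
  have h2 : ‖X i j - X i k‖ = 0 := by simpa using h1
  exact sub_eq_zero.1 (norm_eq_zero.1 h2)

/-- the pointwise bound -/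
theorem pointwise {n M : ℕ} {X : ℕ → ℕ → ℂ} {W : ℝ} (hW : 0 < W) (hX : ∀ i, X i 0 = 0)
    {π : ℕ → ℕ → ℕ} {K : ℕ} {α β : ℕ → ℕ → ℕ}
    (h1 : ∀ j ≤ M, π 0 j = 0 ∧ DD n X j (π K j) = 0)
    (h2 : ∀ k, ∀ j ≤ M, ∃ c < 16 ^ (k + 1), π (k + 1) j = α k c ∧ π k j = β k c)
    (e : ℕ → ℂ) (j : ℕ) (hj : j ≤ M) :
    ‖∑ i ∈ Finset.range n, e i * X i j‖ ^ 2 ≤
      ∑ k ∈ Finset.range K, (8 * (8 / 7 : ℝ) ^ k * ((3 / 4) ^ k * W) +
        8 * (8 / 7 : ℝ) ^ k * (((3 / 4) ^ k * W) ^ 2)⁻¹ *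
          ∑ c ∈ Finset.range (16 ^ (k + 1)),
            ‖∑ i ∈ Finset.range n, e i * (X i (α k c) - X i (β k c))‖ ^ 6) := by
  have e1 : ∑ i ∈ Finset.range n, e i * X i j = ∑ i ∈ Finset.range n, e i * X i (π K j) :=
    Finset.sum_congr rfl fun i hi => by
      rw [eq_of_DD (h1 j hj).2 i (Finset.mem_range.1 hi)]
  have e2 := chain (fun m => ∑ i ∈ Finset.range n, e i * X i m) (fun k => π k j) K (by
    rw [(h1 j hj).1]
    exact Finset.sum_eq_zero fun i _ => by rw [hX i, mul_zero])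
  rw [e1]
  refine e2.trans ?_
  rw [Finset.mul_sum]
  refine Finset.sum_le_sum fun k _ => ?_
  obtain ⟨c, hc, ha, hb⟩ := h2 k j hj
  have e3 : ∑ i ∈ Finset.range n, e i * X i (π (k + 1) j) -
      ∑ i ∈ Finset.range n, e i * X i (π k j) =
      ∑ i ∈ Finset.range n, e i * (X i (α k c) - X i (β k c)) := by
    rw [ha, hb, ← Finset.sum_sub_distrib]
    exact Finset.sum_congr rfl fun i _ => by ring
  have hs : (0 : ℝ) < (3 / 4) ^ k * W := by positivity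
  have e4 := young (a := ‖∑ i ∈ Finset.range n, e i * (X i (α k c) - X i (β k c))‖) hs
  have e5 : ‖∑ i ∈ Finset.range n, e i * (X i (α k c) - X i (β k c))‖ ^ 6 ≤
      ∑ c ∈ Finset.range (16 ^ (k + 1)),
        ‖∑ i ∈ Finset.range n, e i * (X i (α k c) - X i (β k c))‖ ^ 6 :=
    Finset.single_le_sum
      (f := fun c => ‖∑ i ∈ Finset.range n, e i * (X i (α k c) - X i (β k c))‖ ^ 6)
      (fun _ _ => by positivity) (Finset.mem_range.2 hc)
  show 8 * ((8 / 7 : ℝ) ^ k * ‖∑ i ∈ Finset.range n, e i * X i (π (k + 1) j) -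
      ∑ i ∈ Finset.range n, e i * X i (π k j)‖ ^ 2) ≤ _
  rw [e3]
  have h8 : (0 : ℝ) ≤ 8 * (8 / 7 : ℝ) ^ k := by positivity
  calc 8 * ((8 / 7 : ℝ) ^ k *
        ‖∑ i ∈ Finset.range n, e i * (X i (α k c) - X i (β k c))‖ ^ 2)
      = 8 * (8 / 7 : ℝ) ^ k *
        ‖∑ i ∈ Finset.range n, e i * (X i (α k c) - X i (β k c))‖ ^ 2 := by ring
    _ ≤ 8 * (8 / 7 : ℝ) ^ k * ((3 / 4) ^ k * W + (((3 / 4) ^ k * W) ^ 2)⁻¹ *
          ∑ c ∈ Finset.range (16 ^ (k + 1)),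
            ‖∑ i ∈ Finset.range n, e i * (X i (α k c) - X i (β k c))‖ ^ 6) := by
        refine mul_le_mul_of_nonneg_left (e4.trans ?_) h8
        gcongr
    _ = _ := by ring

/-- the numbers -/
theorem total_le {W C : ℝ} (hW : 0 ≤ W) (hC : 0 ≤ C) (K : ℕ) :
    ∑ k ∈ Finset.range K, (8 * (8 / 7 : ℝ) ^ k * ((3 / 4) ^ k * W) +
        8 * (8 / 7 : ℝ) ^ k * (((3 / 4) ^ k * W) ^ 2)⁻¹ *
          (16 ^ (k + 1) * (C * (2 * W / 4 ^ k) ^ 3))) ≤ (56 * (1 + 128 * C)) * W := by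
  have h1 : ∀ k ∈ Finset.range K, (8 * (8 / 7 : ℝ) ^ k * ((3 / 4) ^ k * W) +
        8 * (8 / 7 : ℝ) ^ k * (((3 / 4) ^ k * W) ^ 2)⁻¹ *
          (16 ^ (k + 1) * (C * (2 * W / 4 ^ k) ^ 3))) ≤
        8 * (1 + 128 * C) * W * (6 / 7 : ℝ) ^ k := by
    intro k _
    rcases hW.eq_or_lt with h0 | h0
    · rw [← h0]
      simp
    · have e1 : 8 * (8 / 7 : ℝ) ^ k * ((3 / 4) ^ k * W) = 8 * W * (6 / 7 : ℝ) ^ k := by
        have : (6 / 7 : ℝ) ^ k = (8 / 7) ^ k * (3 / 4) ^ k := by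
          rw [← mul_pow]
          norm_num
        rw [this]
        ring
      have e2 : 8 * (8 / 7 : ℝ) ^ k * (((3 / 4) ^ k * W) ^ 2)⁻¹ *
          (16 ^ (k + 1) * (C * (2 * W / 4 ^ k) ^ 3)) = 1024 * C * W * (32 / 63 : ℝ) ^ k := by
        have e3 : (32 / 63 : ℝ) ^ k = (8 / 7) ^ k * 16 ^ k / (((3 / 4) ^ k) ^ 2 * (4 ^ k) ^ 3) := by
          have e0 : (32 / 63 : ℝ) = (8 / 7) * 16 / ((3 / 4) ^ 2 * 4 ^ 3) := by norm_num
          rw [e0, div_pow, mul_pow, mul_pow, pow_right_comm (3 / 4 : ℝ) 2 k,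
            pow_right_comm (4 : ℝ) 3 k]
        rw [e3, pow_succ (16 : ℝ) k]
        field_simp
        ring
      have e4 : (32 / 63 : ℝ) ^ k ≤ (6 / 7 : ℝ) ^ k :=
        pow_le_pow_left₀ (by norm_num) (by norm_num) k
      rw [e1, e2]
      have e5 : 1024 * C * W * (32 / 63 : ℝ) ^ k ≤ 1024 * C * W * (6 / 7 : ℝ) ^ k :=
        mul_le_mul_of_nonneg_left e4 (by positivity)
      calc _ ≤ 8 * W * (6 / 7 : ℝ) ^ k + 1024 * C * W * (6 / 7 : ℝ) ^ k := by linarith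
        _ = _ := by ring
  refine (Finset.sum_le_sum h1).trans ?_
  rw [← Finset.mul_sum]
  have h2 := geo_le (q := (6 / 7 : ℝ)) (by norm_num) (by norm_num) K
  have h3 : ((1 - 6 / 7 : ℝ))⁻¹ = 7 := by norm_num
  rw [h3] at h2
  calc 8 * (1 + 128 * C) * W * ∑ i ∈ Finset.range K, (6 / 7 : ℝ) ^ i
      ≤ 8 * (1 + 128 * C) * W * 7 := mul_le_mul_of_nonneg_left h2 (by positivity)
    _ = (56 * (1 + 128 * C)) * W := by ring

end CHN_

open CHN_ in
/-- **CHN** -/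
theorem p_CHN (h1 : T_CHK) : T_CHN := by
  obtain ⟨C, hC⟩ := h1
  refine ⟨56 * (1 + 128 * C), fun Ω _ P ε hε n M X V hX hV => ?_⟩
  have := hε.prob
  by_cases htop : ∑ i ∈ Finset.range n, V i ^ 2 = ⊤
  · rw [htop, ENNReal.mul_top]
    · exact le_top
    · simp
  have hVt : ∀ i < n, V i ≠ ⊤ := by
    intro i hi h
    apply htop
    rw [ENNReal.sum_eq_top]
    exact ⟨i, Finset.mem_range.2 hi, by rw [h]; simp⟩
  -- real version
  have hVr : ∀ i < n, ∀ (l : ℕ) (t : ℕ → ℕ), Monotone t → (∀ r, t r ≤ M) →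
      ∑ r ∈ Finset.range l, ‖X i (t (r + 1)) - X i (t r)‖ ^ 4 ≤ (V i).toReal ^ 4 := by
    intro i hi l t ht htM
    have h2 := hV i hi l t ht htM
    have h3 := ENNReal.toReal_mono (ENNReal.pow_ne_top (hVt i hi)) h2
    rw [ENNReal.toReal_pow, ENNReal.toReal_sum
      (fun r _ => ENNReal.pow_ne_top enorm_ne_top)] at h3
    simpa [ENNReal.toReal_pow, toReal_enorm] using h3
  set W : ℝ := ∑ i ∈ Finset.range n, (V i).toReal ^ 2 with hWdef
  have hW0 : 0 ≤ W := Finset.sum_nonneg fun _ _ => by positivity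
  have hWe : ENNReal.ofReal W = ∑ i ∈ Finset.range n, V i ^ 2 := by
    rw [hWdef, ENNReal.ofReal_sum_of_nonneg (fun _ _ => by positivity)]
    refine Finset.sum_congr rfl fun i hi => ?_
    rw [ENNReal.ofReal_pow ENNReal.toReal_nonneg,
      ENNReal.ofReal_toReal (hVt i (Finset.mem_range.1 hi))]
  have hvar := var_DD hVr
  rcases hW0.eq_or_lt with hW | hW
  · -- everything vanishes
    have hz : ∀ j ≤ M, ∀ i < n, X i j = 0 := by
      intro j hj i hi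
      have h2 := hvar 1 (fun r => if r = 0 then 0 else j) (by
        intro a b hab
        show (if a = 0 then 0 else j) ≤ (if b = 0 then 0 else j)
        split_ifs <;> omega) (by
        intro r
        show (if r = 0 then 0 else j) ≤ M
        split_ifs <;> omega)
      rw [← hWdef, ← hW] at h2
      simp only [Finset.sum_range_one, zero_add, if_pos, one_ne_zero, if_false] at h2
      have h3 : DD n X j 0 = 0 := by
        have h4 : DD n X j 0 ^ 2 ≤ 0 := by simpa using h2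
        exact pow_eq_zero_iff (two_ne_zero) |>.1 (le_antisymm h4 (sq_nonneg _))
      rw [eq_of_DD h3 i hi, hX i]
    have h5 : ∀ ω, (⨆ (j : ℕ) (_ : j ≤ M),
        ‖∑ i ∈ Finset.range n, (ε i ω : ℂ) * X i j‖ₑ) ^ 2 ≤ 0 := by
      intro ω
      refine sup_sq_le _ _ fun j hj => ?_
      rw [Finset.sum_eq_zero fun i hi => by rw [hz j hj i (Finset.mem_range.1 hi), mul_zero]]
      simp
    calc ∫⁻ ω, (⨆ (j : ℕ) (_ : j ≤ M),
        ‖∑ i ∈ Finset.range n, (ε i ω : ℂ) * X i j‖ₑ) ^ 2 ∂P ≤ ∫⁻ _, 0 ∂P := lintegral_mono h5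
      _ = 0 := by simp
      _ ≤ _ := zero_le
  obtain ⟨π, K, α, β, g1, g2, g3⟩ := nets hW hvar
  -- the pointwise bound in `[0, ∞]`
  have hpt : ∀ ω, (⨆ (j : ℕ) (_ : j ≤ M),
      ‖∑ i ∈ Finset.range n, (ε i ω : ℂ) * X i j‖ₑ) ^ 2 ≤
      ∑ k ∈ Finset.range K, (ENNReal.ofReal (8 * (8 / 7 : ℝ) ^ k * ((3 / 4) ^ k * W)) +
        ENNReal.ofReal (8 * (8 / 7 : ℝ) ^ k * (((3 / 4) ^ k * W) ^ 2)⁻¹) *
          ∑ c ∈ Finset.range (16 ^ (k + 1)),
            ‖∑ i ∈ Finset.range n, (ε i ω : ℂ) * (X i (α k c) - X i (β k c))‖ₑ ^ 6) := by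
    intro ω
    refine sup_sq_le _ _ fun j hj => ?_
    have h2 := pointwise hW hX g1 g2 (fun i => (ε i ω : ℂ)) j hj
    have h3 : ‖∑ i ∈ Finset.range n, (ε i ω : ℂ) * X i j‖ₑ ^ 2 =
        ENNReal.ofReal (‖∑ i ∈ Finset.range n, (ε i ω : ℂ) * X i j‖ ^ 2) := by
      rw [ENNReal.ofReal_pow (norm_nonneg _), ofReal_norm]
    rw [h3]
    refine (ENNReal.ofReal_le_ofReal h2).trans (le_of_eq ?_)
    rw [ENNReal.ofReal_sum_of_nonneg (fun k _ => by positivity)]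
    refine Finset.sum_congr rfl fun k _ => ?_
    rw [ENNReal.ofReal_add (by positivity) (by positivity),
      ENNReal.ofReal_mul (p := 8 * (8 / 7 : ℝ) ^ k * (((3 / 4) ^ k * W) ^ 2)⁻¹) (by positivity),
      ENNReal.ofReal_sum_of_nonneg (fun k _ => by positivity)]
    congr 2
    refine Finset.sum_congr rfl fun c _ => ?_
    rw [ENNReal.ofReal_pow (norm_nonneg _), ofReal_norm]
  have hmeas : ∀ k c, Measurable (fun ω =>
      ‖∑ i ∈ Finset.range n, (ε i ω : ℂ) * (X i (α k c) - X i (β k c))‖ₑ ^ 6) := by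
    intro k c
    refine (Measurable.enorm ?_).pow_const 6
    refine Finset.measurable_fun_sum _ fun i _ => ?_
    exact (Complex.measurable_ofReal.comp (hε.meas i)).mul_const _
  have hchk : ∀ k c, ∫⁻ ω,
      ‖∑ i ∈ Finset.range n, (ε i ω : ℂ) * (X i (α k c) - X i (β k c))‖ₑ ^ 6 ∂P ≤
      ENNReal.ofReal ((C : ℝ) * (2 * W / 4 ^ k) ^ 3) := by
    intro k c
    refine (hC Ω P ε hε n (fun i => X i (α k c) - X i (β k c))).trans ?_
    have h2 : ∑ i ∈ Finset.range n, ‖X i (α k c) - X i (β k c)‖ₑ ^ 2 =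
        ENNReal.ofReal (DD n X (α k c) (β k c)) := by
      unfold DD
      rw [ENNReal.ofReal_sum_of_nonneg (fun _ _ => by positivity)]
      refine Finset.sum_congr rfl fun i _ => ?_
      rw [ENNReal.ofReal_pow (norm_nonneg _), ofReal_norm]
    rw [h2, ENNReal.ofReal_mul (by positivity), ENNReal.ofReal_coe_nnreal,
      ENNReal.ofReal_pow (by positivity)]
    gcongr
    exact g3 k c
  calc ∫⁻ ω, (⨆ (j : ℕ) (_ : j ≤ M),
      ‖∑ i ∈ Finset.range n, (ε i ω : ℂ) * X i j‖ₑ) ^ 2 ∂P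
      ≤ ∫⁻ ω, ∑ k ∈ Finset.range K,
        (ENNReal.ofReal (8 * (8 / 7 : ℝ) ^ k * ((3 / 4) ^ k * W)) +
        ENNReal.ofReal (8 * (8 / 7 : ℝ) ^ k * (((3 / 4) ^ k * W) ^ 2)⁻¹) *
          ∑ c ∈ Finset.range (16 ^ (k + 1)),
            ‖∑ i ∈ Finset.range n, (ε i ω : ℂ) * (X i (α k c) - X i (β k c))‖ₑ ^ 6) ∂P :=
        lintegral_mono hpt
    _ = ∑ k ∈ Finset.range K,
        (ENNReal.ofReal (8 * (8 / 7 : ℝ) ^ k * ((3 / 4) ^ k * W)) +
        ENNReal.ofReal (8 * (8 / 7 : ℝ) ^ k * (((3 / 4) ^ k * W) ^ 2)⁻¹) *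
          ∑ c ∈ Finset.range (16 ^ (k + 1)), ∫⁻ ω,
            ‖∑ i ∈ Finset.range n, (ε i ω : ℂ) * (X i (α k c) - X i (β k c))‖ₑ ^ 6 ∂P) := by
        rw [lintegral_finsetSum _ (fun k _ =>
          ((Finset.measurable_fun_sum _ fun c _ => hmeas k c).const_mul _).const_add _)]
        refine Finset.sum_congr rfl fun k _ => ?_
        rw [lintegral_add_left measurable_const, lintegral_const, measure_univ, mul_one,
          lintegral_const_mul _ (Finset.measurable_fun_sum _ fun c _ => hmeas k c),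
          lintegral_finsetSum _ (fun c _ => hmeas k c)]
    _ ≤ ∑ k ∈ Finset.range K,
        (ENNReal.ofReal (8 * (8 / 7 : ℝ) ^ k * ((3 / 4) ^ k * W)) +
        ENNReal.ofReal (8 * (8 / 7 : ℝ) ^ k * (((3 / 4) ^ k * W) ^ 2)⁻¹) *
          ∑ _c ∈ Finset.range (16 ^ (k + 1)), ENNReal.ofReal ((C : ℝ) * (2 * W / 4 ^ k) ^ 3)) := by
        gcongr with k _ c _
        exact hchk k c
    _ = ENNReal.ofReal (∑ k ∈ Finset.range K, (8 * (8 / 7 : ℝ) ^ k * ((3 / 4) ^ k * W) +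
        8 * (8 / 7 : ℝ) ^ k * (((3 / 4) ^ k * W) ^ 2)⁻¹ *
          (16 ^ (k + 1) * ((C : ℝ) * (2 * W / 4 ^ k) ^ 3)))) := by
        rw [ENNReal.ofReal_sum_of_nonneg (fun k _ => by positivity)]
        refine Finset.sum_congr rfl fun k _ => ?_
        rw [ENNReal.ofReal_add (by positivity) (by positivity),
          ENNReal.ofReal_mul (p := 8 * (8 / 7 : ℝ) ^ k * (((3 / 4) ^ k * W) ^ 2)⁻¹)
            (by positivity), Finset.sum_const, Finset.card_range, nsmul_eq_mul,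
          ENNReal.ofReal_mul (p := (16 : ℝ) ^ (k + 1)) (by positivity)]
        congr 3
        rw [ENNReal.ofReal_pow (by norm_num)]
        push_cast
        norm_num
    _ ≤ ENNReal.ofReal ((56 * (1 + 128 * (C : ℝ))) * W) :=
        ENNReal.ofReal_le_ofReal (total_le hW.le C.2 K)
    _ = ((56 * (1 + 128 * C) : ℝ≥0) : ℝ≥0∞) * ∑ i ∈ Finset.range n, V i ^ 2 := by
        rw [ENNReal.ofReal_mul (by positivity), hWe]
        congr 1
        rw [← ENNReal.ofReal_coe_nnreal]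
        congr 1

end Pool.Agent.VRC
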