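import Pool.Agent.VRC.Targets4
import Pool.Agent.CRR.Targets2

set_option autoImplicit false

/-!
# VRC, seventh part: radii with few values on the spheres about the origin (all `f ∈ L²`)

If `R(x)` takes on every sphere `|x| = r` at most `N` values (which may depend on `r`), up to `A/|x|`, then
`‖S_{R(x)} f‖ ≤ C N^(1/4) log(2+A) ‖f‖` for every `f`.
-/

namespace Pool.Agent.VRC

open MeasureTheory FourierTransform Set Filter Topology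
open scoped ENNReal NNReal ComplexConjugate
open Pool.Agent.MBS (E ex S)
open Pool.Agent.CRN (sg SH S1 Nice T_POLN T_DSN)
open Pool.Agent.CRR (EB pn co)

/-- the 4-variation in the radius of the ball partial sums with values in `L²` of the sphere of radius `r` -/
noncomputable def VS {n : ℕ} (f : E n → ℂ) (r : ℝ) : ℝ≥0∞ :=
  ⨆ (L : ℕ) (N : ℕ → ℝ) (_ : Monotone N), (∑ j ∈ Finset.range L,
    (∫⁻ θ, ‖S f (N (j + 1)) (r • (θ : E n)) - S f (N j) (r • (θ : E n))‖ₑ ^ 2 ∂(sg n)) ^ 2) ^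
      (1 / 4 : ℝ)

/-- **RAV** (90 min; from HAV, CRR.EIG, CRR.GM, CRN.POLN, CRN.DSN): see `CRR/P_RAD.lean` (same proof with the 4-variation).
For an eigen-system `Y K` of EIG and a monotone `N` (`S f R = 0` for `R ≤ 0`: only `N ≥ 0` matters, and `N 0 = 0` may be
added): `∫ (S f (N (j+1)) - S f (N j))(rθ) conj (Y m θ) dσ = ∫_{N j}^{N (j+1)} co (Y m) (𝓕 f) ρ r dρ`, and by Minkowski
(`ℓ²` in `j` of sums over `m`) `(∑_j (∑_m |c_{j,m}|²)²)^{1/2} ≤ ∑_m (∑_j |c_{j,m}|⁴)^{1/2} ≤ ∑_m (r^{-(n-2)/2} (2πr)^{-1} V4o(..)(u))²`, as in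
P_RAD (`int_log`), HAV for each `m`, GM. `K → ∞`: `pn (Y K)` increases to the `L²(σ)` norm (EIG); measurability: rational `N`
and continuity in the radii. -/
def T_RAV : Prop := ∀ n : ℕ, 2 ≤ n → ∃ C : ℝ≥0, ∀ f : E n → ℂ, Nice f →
  ∫⁻ r in Ioi (0 : ℝ), VS f r ^ 2 * ENNReal.ofReal (r ^ (n - 1)) ≤ C * ∫⁻ x, ‖f x‖ₑ ^ 2

/-- **NVD** (60 min). Rademacher–Menshov with the 4-variation, for fixed `r`. Sort the values `R 0, ..., R (M-1)` (`R j > 0`):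
`0 = t_0 ≤ t_1 ≤ ... ≤ t_M`, let `2^s ≥ M` (put `t_i = t_M` for `i > M`) and `X_i = S f (t_i) (r ·) ∈ L²(σ)`, `X_0 = 0`. Binary
expansion: `sup_i |X_i| ≤ ∑_{l ≤ s} (∑_b |X_{(b+1) 2^l} - X_{b 2^l}|²)^{1/2}` (`b < 2^{s-l}`) pointwise; the `L²(σ)` norm of the `l`-th
term is at most `(2^{s-l})^{1/4} (∑_b ‖·‖⁴)^{1/4} ≤ 2^{(s-l)/4} VS f r`; the sum over `l` is at most `8 · 2^{s/4} VS f r`, and
`2^s ≤ 2 M`. -/
def T_NVD : Prop := ∃ C : ℝ≥0, ∀ (n M : ℕ) (f : E n → ℂ) (r : ℝ) (R : ℕ → ℝ), 2 ≤ n → 1 ≤ M →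
  Nice f → (∀ j, 0 < R j) →
    ∫⁻ θ, (⨆ (j : ℕ) (_ : j < M), ‖S f (R j) (r • (θ : E n))‖ₑ) ^ 2 ∂(sg n) ≤
      C * ENNReal.ofReal (Real.sqrt M) * VS f r ^ 2

/-- **NVF** (60 min; from RAV, NVD, CRR.OSC, CRN.POLN): the final theorem. POLN for `x ↦ sup_{j<M} |S f (ρ j ‖x‖) x|²`
(measurable: `S f R x` is jointly continuous for `R > 0`), NVD, RAV; and `|S f (R x) x| ≤
sup_{j<M} |S f (ρ j ‖x‖) x| + osc`, OSC for the oscillation over `|R-R'| ≤ A/‖x‖`. -/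
def T_NVF : Prop := ∀ n : ℕ, 2 ≤ n → ∃ C : ℝ≥0, ∀ (M : ℕ) (A : ℝ) (f : E n → ℂ) (ρ : ℕ → ℝ → ℝ)
  (R : E n → ℝ), 1 ≤ M → 0 ≤ A → Nice f → (∀ j, Measurable (ρ j)) → (∀ j t, 0 < ρ j t) →
  Measurable R → (∀ x, 0 < R x) → (∀ x, x ≠ 0 → ∃ j < M, |R x - ρ j ‖x‖| ≤ A / ‖x‖) →
    ∫⁻ x, ‖S f (R x) x‖ₑ ^ 2 ≤
      C * ENNReal.ofReal (Real.sqrt M * Real.log (2 + A) ^ 2) * ∫⁻ x, ‖f x‖ₑ ^ 2

end Pool.Agent.VRC
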