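import Pool.Agent.VRC.Targets3
import Pool.Agent.CRR.Targets

set_option autoImplicit false

/-!
# VRC, fourth part: the variation norm theorem for the Hankel transform, uniformly in the order

`V^4` version of `Pool/Agent/CRR` (targets `T_DCAR` ... `T_HANK` there; the landed proofs are
`Pool/Agent/CRR/P_DCAR.lean` etc.). `M_k = λ_k δ_k²`, `σ_k = si ν k`, `w_k = ww ν k` as in CRR.
-/

namespace Pool.Agent.VRC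

open MeasureTheory FourierTransform Set Filter Topology
open scoped ENNReal NNReal
open Pool.Agent.CAR (e1)
open Pool.Agent.CRR (Ph StripD FS FA fh NN HH NSol kap aa de la si ww xc band)

/-- 4-variation of an interval function -/
noncomputable def V4o (F : ℝ → ℝ → ℂ) : ℝ≥0∞ :=
  ⨆ (L : ℕ) (N : ℕ → ℝ) (_ : Monotone N),
    (∑ j ∈ Finset.range L, ‖F (N j) (N (j + 1))‖ₑ ^ 4) ^ (1 / 4 : ℝ)

/-- 4-variation of a sequence -/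
noncomputable def V4s (z : ℕ → ℂ) : ℝ≥0∞ :=
  ⨆ (L : ℕ) (t : ℕ → ℕ) (_ : Monotone t),
    (∑ r ∈ Finset.range L, ‖z (t (r + 1)) - z (t r)‖ₑ ^ 4) ^ (1 / 4 : ℝ)

/-- partial integrals on the window `(i w, (i+1) w]` at the frequency `X` -/
noncomputable def NF (w : ℝ) (h : ℝ → ℂ) (i : ℤ) (X : ℝ) (a b : ℝ) : ℂ :=
  ∫ v in Ioc a b ∩ Ioc (i * w) ((i + 1) * w), h v * e1 (X * v)

/-- their 4-variation -/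
noncomputable def NV (w : ℝ) (h : ℝ → ℂ) (i : ℤ) (X : ℝ) : ℝ≥0∞ := V4o (NF w h i X)

/-! ### calculus -/

/-- **VCO** (60 min): calculus for `V4o`. (1), (2): Minkowski in `ℓ⁴` (finite sums; integral form: with `A⁴ = ∑ (∫ f_j)⁴ =
∫ ∑ f_j (∫ f_j)³ ≤ A³ ∫ (∑ f_j⁴)^(1/4)`). (4) `ℓ⁴ ≤ ℓ¹`, disjoint intervals. (5) for fixed `L`, `N`. -/
def T_VCO : Prop :=
  (∀ (F : ℝ → ℝ → ℂ) (G : ℕ → ℝ → ℝ → ℂ),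
    (∀ a b, a ≤ b → ‖F a b‖ₑ ≤ ∑' i, ‖G i a b‖ₑ) → V4o F ≤ ∑' i, V4o (G i)) ∧
  (∀ (α : Type) [MeasurableSpace α] (μ : Measure α) (F : ℝ → ℝ → ℂ) (G : α → ℝ → ℝ → ℂ),
    (∀ a b, a ≤ b → AEMeasurable (fun s => G s a b) μ) →
    (∀ a b, a ≤ b → ‖F a b‖ₑ ≤ ∫⁻ s, ‖G s a b‖ₑ ∂μ) → V4o F ≤ ∫⁻ s, V4o (G s) ∂μ) ∧
  (∀ (F : ℝ → ℝ → ℂ) (a b : ℝ), a ≤ b → ‖F a b‖ₑ ≤ V4o F) ∧
  (∀ (F : ℝ → ℝ → ℂ) (f : ℝ → ℝ≥0∞), Measurable f →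
    (∀ a b, a ≤ b → ‖F a b‖ₑ ≤ ∫⁻ v in Ioc a b, f v) → V4o F ≤ ∫⁻ v, f v) ∧
  (∀ (F : ℝ → ℝ → ℂ) (G : ℕ → ℝ → ℝ → ℂ),
    (∀ a b, a ≤ b → Tendsto (fun n => G n a b) atTop (𝓝 (F a b))) →
    V4o F ≤ liminf (fun n => V4o (G n)) atTop) ∧
  (∀ (F G : ℝ → ℝ → ℂ) (c : ℝ≥0∞), (∀ a b, a ≤ b → ‖F a b‖ₑ ≤ c * ‖G a b‖ₑ) →
    V4o F ≤ c * V4o G) ∧
  (∀ (F G K : ℝ → ℝ → ℂ), (∀ a b, a ≤ b → ‖F a b‖ₑ ≤ ‖G a b‖ₑ + ‖K a b‖ₑ) →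
    V4o F ≤ V4o G + V4o K)

/-- **VCS** (60 min): calculus for `V4s`. (4) `‖z b - z a‖ ≤ ‖z a‖ + ‖z b‖` and `ℓ⁴ ≤ ℓ²` (in a monotone sequence `t` equal
neighbours do not contribute, so every value is used at most twice). (7) Abel summation: `z b - z a = m (b-1) (y b - y a) -
∑_{a ≤ i < b-1} (m (i+1) - m i) (y (i+1) - y a)`; with `i*` the index of the maximum of `|y i - y a|`, `a ≤ i ≤ b`:
`|z b - z a| ≤ (K + K') |y i* - y a|`, and the intervals `[a, i*]` do not overlap. -/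
def T_VCS : Prop :=
  (∀ (z : ℕ → ℂ) (y : ℕ → ℕ → ℂ),
    (∀ a b, a ≤ b → ‖z b - z a‖ₑ ≤ ∑' i, ‖y i b - y i a‖ₑ) → V4s z ≤ ∑' i, V4s (y i)) ∧
  (∀ (α : Type) [MeasurableSpace α] (μ : Measure α) (z : ℕ → ℂ) (y : α → ℕ → ℂ),
    (∀ a, AEMeasurable (fun s => y s a) μ) →
    (∀ a b, a ≤ b → ‖z b - z a‖ₑ ≤ ∫⁻ s, ‖y s b - y s a‖ₑ ∂μ) → V4s z ≤ ∫⁻ s, V4s (y s) ∂μ) ∧
  (∀ (z : ℕ → ℂ) (a b : ℕ), a ≤ b → ‖z b - z a‖ₑ ≤ V4s z) ∧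
  (∀ z : ℕ → ℂ, V4s z ≤ 2 * (∑' n, ‖z n‖ₑ ^ 2) ^ (1 / 2 : ℝ)) ∧
  (∀ (z : ℕ → ℂ) (y : ℕ → ℕ → ℂ), (∀ a, Tendsto (fun n => y n a) atTop (𝓝 (z a))) →
    V4s z ≤ liminf (fun n => V4s (y n)) atTop) ∧
  (∀ (z y : ℕ → ℂ) (c : ℝ≥0∞), (∀ a b, a ≤ b → ‖z b - z a‖ₑ ≤ c * ‖y b - y a‖ₑ) →
    V4s z ≤ c * V4s y) ∧
  (∀ (z y m : ℕ → ℂ) (K K' : ℝ≥0∞),
    (∀ a b, a ≤ b → z b - z a = ∑ i ∈ Finset.Ico a b, m i * (y (i + 1) - y i)) →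
    (∀ i, ‖m i‖ₑ ≤ K) → ∑' i, ‖m (i + 1) - m i‖ₑ ≤ K' → V4s z ≤ (K + K') * V4s y) ∧
  (∀ (z : ℕ → ℂ) (F : ℝ → ℝ → ℂ) (N : ℕ → ℝ), Monotone N →
    (∀ a b, a ≤ b → z b - z a = F (N a) (N b)) → V4s z ≤ V4o F) ∧
  (∀ z : ℕ → ℂ, V4s z ≤ ∑' n, ‖z (n + 1) - z n‖ₑ) ∧
  (∀ (z y x : ℕ → ℂ), (∀ a b, a ≤ b → ‖z b - z a‖ₑ ≤ ‖y b - y a‖ₑ + ‖x b - x a‖ₑ) →
    V4s z ≤ V4s y + V4s x)

/-- **VCM** (30 min): measurability (rational monotone sequences; only `N 0, ..., N L` matter; continuity). -/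
def T_VCM : Prop :=
  (∀ (α : Type) [MeasurableSpace α] (F : α → ℝ → ℝ → ℂ),
    (∀ a b, Measurable (fun u => F u a b)) →
    (∀ u, Continuous (fun p : ℝ × ℝ => F u p.1 p.2)) → Measurable (fun u => V4o (F u))) ∧
  (∀ (α : Type) [MeasurableSpace α] (z : α → ℕ → ℂ), (∀ n, Measurable (fun u => z u n)) →
    Measurable (fun u => V4s (z u)))

/-! ### one strip -/

/-- **DCV** (60 min; from VC4, VCS): discrete frequencies with gaps, see `CRR/P_DCAR.lean`. `g' = min(g, 1/(4w))`,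
`κ(t) = (1/g') ∫_0^{g'} e1(tτ) dτ`, `|κ(t)| ≥ 1/5` for `|t| ≤ w`, `h = Σ_{i<N} a_i g'^{-1} 1_{[η_i, η_i+g')}`: the differences of the
partial sums are `κ(t)^{-1}` times `∫_{Ico (η_j) (η_j')} h e1`, so `V4s ≤ 5 VC h t`; `∫ VC² ≤ C ∫ |h|² = C Σ |a_i|²/g'`. -/
def T_DCV : Prop := ∀ A : ℝ, 1 ≤ A → ∃ C : ℝ≥0, ∀ (w g : ℝ) (N : ℕ) (η : ℕ → ℝ)
  (a : ℕ → ℂ), 0 < w → 0 < g → 1 / A ≤ w * g → (∀ i, η i + g ≤ η (i + 1)) →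
    ∫⁻ t in Icc (-w) w, V4s (fun j => ∑ i ∈ Finset.range (min j N), a i * e1 (t * η i)) ^ 2 ≤
      C * ENNReal.ofReal w * ∑ i ∈ Finset.range N, ‖a i‖ₑ ^ 2

/-- **ACV** (60 min; from DCV, VCS (7)): see `CRR/P_ACR.lean`. -/
def T_ACV : Prop := ∀ A : ℝ, 1 ≤ A → ∃ C : ℝ≥0, ∀ (lam d w : ℝ) (Θ Θ1 Θ2 : ℝ → ℝ)
  (s x y : ℝ) (N : ℕ) (a : ℕ → ℂ), Ph A lam d Θ Θ1 Θ2 → 0 < lam → 0 < d → 0 < w →
  1 / A ≤ w ^ 2 * lam → w ^ 2 * lam ≤ 1 → (N : ℝ) * w ≤ 2 * d → (s = 1 ∨ s = -1) →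
    ∫⁻ u in Icc x (x + w), V4s (fun j =>
      ∑ i ∈ Finset.range (min j N), a i * e1 (s * Θ (u + (y + i * w)))) ^ 2 ≤
      C * ENNReal.ofReal w * ∑ i ∈ Finset.range N, ‖a i‖ₑ ^ 2

/-- **WIV** (45 min; from CRL.ABL): inside a window, local form; see `CRR/P_WIN.lean` (the integration by parts there is
against `∫_{(V1,V]} h(v) e1(Xv) dv`, `V ∈ [V1,V2]`). Second part: for a monotone `N` in the window choose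
`V_j ∈ [N j, N (j+1)]` where the supremum is attained up to a factor `2`: the intervals `(N j, V_j]` are disjoint. -/
def T_WIV : Prop := ∀ A : ℝ, 1 ≤ A → ∃ C : ℝ≥0, ∀ (lam d w : ℝ)
  (Θ Θ1 Θ2 : ℝ → ℝ) (s u : ℝ) (i : ℤ) (b b' h : ℝ → ℂ), Ph A lam d Θ Θ1 Θ2 →
  0 < lam → 0 < d → 0 < w → w ≤ d → w ^ 2 * lam ≤ 1 → (s = 1 ∨ s = -1) → Continuous h →
  (∀ V1 V2 : ℝ, i * w ≤ V1 → V1 ≤ V2 → V2 ≤ (i + 1) * w →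
    (∀ x ∈ Icc (u + V1) (u + V2), HasDerivAt b (b' x) x ∧ ‖b x‖ ≤ A ∧ ‖b' x‖ ≤ A / w) →
    ContinuousOn b' (Icc (u + V1) (u + V2)) →
    ‖∫ v in Ioc V1 V2, e1 (s * Θ (u + v)) * b (u + v) * h v‖ₑ ≤
      C * ⨆ V ∈ Icc V1 V2, ‖∫ v in Ioc V1 V, h v * e1 (s * Θ1 (u + i * w) * v)‖ₑ) ∧
  (∀ (L : ℕ) (N : ℕ → ℝ), Monotone N → i * w ≤ N 0 → N L ≤ (i + 1) * w →
    (∀ x ∈ Icc (u + N 0) (u + N L), HasDerivAt b (b' x) x ∧ ‖b x‖ ≤ A ∧ ‖b' x‖ ≤ A / w) →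
    ContinuousOn b' (Icc (u + N 0) (u + N L)) →
    (∑ j ∈ Finset.range L,
      ‖∫ v in Ioc (N j) (N (j + 1)), e1 (s * Θ (u + v)) * b (u + v) * h v‖ₑ ^ 4) ^ (1 / 4 : ℝ) ≤
      C * NV w h i (s * Θ1 (u + i * w)))

/-- **VCV** (120 min; from WIV, ACV, VCO, VCS, VCM): one strip, see `CRR/P_VCR.lean` (same splitting). For `u ∈ U_p` and a
monotone sequence `N` the increments are of three kinds: inside one window, or a first piece + full windows + a last piece.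
The incomplete pieces (and the at most 6 windows not in `I_p`): in each window they form non-overlapping
intervals, WIV (second part) with `b` and `c`: `ℓ⁴` over all of them is at most
`C √lam (Σ_i (NV w h i X + NV w h i (-X))⁴)^{1/4} ≤ C √lam (Σ_i NV²)^{1/2}`. The full windows: `V4s` of the sequence
`j ↦ Σ_{i<j} (window i)` over `i ∈ I_p`, and as in `P_VCR`: `b(u+v) = b(u+y_i) + ∫ b'`: the second part is absolutely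
summable (`V4s ≤ Σ |increments|`, `≤ (A/d) w C NV` each, `≤ 2d/w` indices), the first with Abel (VCS (7)) and
`V4s (Σ_{i<j} e1(Θ(u+y_i)) A_i(u)) ≤ V4s (.. A_i(u')) + ∫_{U_p} V4s (.. A_i'(s)) ds` (VCS (2)), ACV for fixed `u'`, `s`, and
`|A_i(u)| ≤ C NV w h i X`, `|A_i'(u)| ≤ (C/w) NV` (`NN ≤ NV`). (iii) as there. -/
def T_VCV : Prop := ∀ A : ℝ, 1 ≤ A → ∃ C : ℝ≥0, ∀ (a d lam w : ℝ) (κ h : ℝ → ℂ),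
  0 < d → 0 < lam → StripD A a d lam κ → 0 < w → w ≤ d / 32 → 1 / A ≤ w ^ 2 * lam →
  w ^ 2 * lam ≤ 1 → Continuous h →
    ∫⁻ u, V4o (FS κ a d h u) ^ 2 ≤
      C * ∑' i : ℤ, ∫⁻ X in {X : ℝ | lam * d / A ≤ |X| ∧ |X| ≤ A * (lam * d)}, NV w h i X ^ 2

/-! ### decay -/

/-- **OFV** (90 min; from `Pool.Agent.CRR.T_OFD`): far frequencies. `F(v) = e1(Xv) Q_X(v)`, `F' = e1(Xv) h(v)` as in
`CRR/P_OFD.lean`. The square function `V2² = sup Σ_j |F(N (j+1)) - F(N j)|²` over monotone `N` in the window `W`: for every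
`τ > 0` intervals of length `≤ τ` contribute at most `τ ∫_W |h|²`; if `|I| > τ`, `I = [a,b]`:
`|F(a)|² + |F(b)|² ≤ 4 τ^{-1} ∫_I |F|² + 2 τ ∫_I |F'|²`. With `τ = 1/D`, sum over the windows and Plancherel
(`‖Q_X‖ ≤ ‖H‖/D`): `Σ_i V2² ≤ C D^{-1} ‖H‖²`. And `NV² ≤ C NN · V2` (`Σ |Δ|⁴ ≤ (max |Δ|)² Σ |Δ|²`, `|Δ| ≤ 2 NN`), so by
Cauchy–Schwarz in `(i, X)` and `T_OFD` the bound. -/
def T_OFV : Prop := ∃ C : ℝ≥0, ∀ (w D G : ℝ) (Om : Set ℝ) (H : ℝ → ℂ), 0 < w → 0 < D → 0 ≤ G →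
  MeasurableSet Om → HH H → (∀ X ∈ Om, ∀ s, H s ≠ 0 → D ≤ |s + X| ∧ |s| ≤ G * |s + X|) →
    ∑' i : ℤ, ∫⁻ X in Om, NV w (fh H) i X ^ 2 ≤
      C * volume Om * ENNReal.ofReal (Real.sqrt (((w * D ^ 2)⁻¹ + G * D⁻¹) * D⁻¹)) *
        ∫⁻ s, ‖H s‖ₑ ^ 2

/-- **DIV** (45 min; from VC4): for each window VC4 with `g = fh H` on the window (bounded, so in `L¹ ∩ L²`; `Ioc` and `Ico`
agree a.e.): `NV w (fh H) i X ≤ VC g X`; sum over `i`, Plancherel. See `CRR/P_DIA.lean`. -/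
def T_DIV : Prop := ∃ C : ℝ≥0, ∀ (w : ℝ) (H : ℝ → ℂ), 0 < w → HH H →
  ∑' i : ℤ, ∫⁻ X : ℝ, NV w (fh H) i X ^ 2 ≤ C * ∫⁻ s, ‖H s‖ₑ ^ 2

/-- **DEV** (75 min; from CRR.SEQ, OFV, DIV): decay between strip and band, see `CRR/P_DEC.lean`.
`Ω = {σ_k/A ≤ |X| ≤ Aσ_k}`, `|Ω| ≤ 4Aσ_k`, `w_k⁻¹/σ_k = 4 M_k^{-1/2}`. If `j < k` and `σ_j ≤ σ_k/(2A)`: OFV with `D = σ_k/(2A)`,
`G = 2Aσ_j/σ_k`: total `≤ C (M_k^{-1/2} + σ_j/σ_k)^{1/2}`, `M_k ≥ (5/4)^{k-j}`, `σ_j/σ_k ≤ (5/7)^{k-j}`, and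
`(4/5)^{1/4} ≤ 19/20`. If `k < j` and `σ_{j-1} ≥ 2Aσ_k`: `D = σ_{j-1}/2`, `G = 2`: `≤ C σ_k/σ_{j-1} ≤ C (5/7)^{j-1-k}`
(`w_k σ_{j-1} ≥ w_k σ_k ≥ 3`). Otherwise `|k-j| ≤ C(A)`: DIV. -/
def T_DEV : Prop := ∀ A : ℝ, 1 ≤ A → ∃ C : ℝ≥0, ∀ (ν : ℝ) (k j : ℕ) (H : ℝ → ℂ), 0 ≤ ν →
  HH H → (∀ s, H s ≠ 0 → s ∈ band ν j) →
    ∑' i : ℤ, ∫⁻ X in {X : ℝ | si ν k / A ≤ |X| ∧ |X| ≤ A * si ν k}, NV (ww ν k) (fh H) i X ^ 2 ≤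
      C * ENNReal.ofReal ((19 / 20) ^ (k - j + (j - k))) * ∫⁻ s, ‖H s‖ₑ ^ 2

/-- **SDV** (45 min; from CRR.SEQ, CRR.PHS, VCV, DEV): see `CRR/P_SD.lean`. -/
def T_SDV : Prop := ∃ C : ℝ≥0, ∀ (ν : ℝ) (J J' : ℝ → ℝ) (k j : ℕ) (H : ℝ → ℂ), 0 ≤ ν →
  NSol ν J J' → HH H → (∀ s, H s ≠ 0 → s ∈ band ν j) →
    ∫⁻ u, V4o (FS (kap J) (aa ν k) (de ν k) (fh H) u) ^ 2 ≤
      C * ENNReal.ofReal ((19 / 20) ^ (k - j + (j - k))) * ∫⁻ s, ‖H s‖ₑ ^ 2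

/-! ### summation over the strips -/

/-- **PAV** (60 min; from CRR.SEQ, SDV, VCO, VCM): see `CRR/P_PART.lean`; `V4o` is subadditive. -/
def T_PAV : Prop := ∃ C : ℝ≥0, ∀ (ν : ℝ) (J J' : ℝ → ℝ) (H : ℝ → ℂ), 0 ≤ ν →
  NSol ν J J' → HH H →
    ∫⁻ u, ∑' k : ℕ, V4o (FS (kap J) (aa ν k) (de ν k) (fh H) u) ^ 2 ≤ C * ∫⁻ s, ‖H s‖ₑ ^ 2

/-- **TAV** (90 min; from CRR.SEQ, CRR.T_SD and CRR.T_MUL (both without the hypothesis T_CARLS), VC4, VCS, VCM): sums of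
whole strips, see `CRR/P_TAIL.lean` (same three terms). First term: `V4s` of `n ↦ ∫_{|s|<σ_{n-1}} H m e1(-us) ds` (`0` for `n = 0`):
the sum over `s ≥ 0` and `s < 0` (reflect), each `≤ VC` of a function in `L¹ ∩ L²` (`|m| ≤ C`), VCS (8) with `N 0 = 0`,
`N (n+1) = σ_n`. The second and third term `B_n`: `V4s ≤ 2 (Σ_n |B_n|²)^{1/2}` (VCS (4)), and
`Σ_n |B_n|² ≤ C Σ_{j<k} (k-j) q^{-(k-j)/2} |F_k[H_j]|²` (each pair `j < k` occurs for `k - j` values of `n`), `q = 9/10`: integrate (SD). -/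
def T_TAV : Prop := ∃ C : ℝ≥0, ∀ (ν : ℝ) (J J' : ℝ → ℝ) (H : ℝ → ℂ), 0 ≤ ν →
  NSol ν J J' → HH H →
    ∫⁻ u, V4s (fun n => ∑ k ∈ Finset.range n, FA (kap J) (aa ν k) (de ν k) (fh H) u) ^ 2 ≤
      C * ∫⁻ s, ‖H s‖ₑ ^ 2

/-- **HIV** (90 min; from CRR.SEQ, PAV, TAV): the oscillatory region, see `CRR/P_HI.lean`. For `V_0 ≤ ... ≤ V_L` let `k_j` be the
strip which contains `max (u+V_j) xc` (nondecreasing). The `j`-th increment is at most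
`|FS_{k_j}(V_j,V_{j+1})| + |FS_{k_{j+1}}(V_j,V_{j+1})| + |T_{k_{j+1}} - T_{k_j+1}|` (the last if `k_j < k_{j+1}`), `T_n = Σ_{k<n} FA_k`.
`ℓ⁴` over `j`: the first two are at most `(Σ_k V4o(FS_k)⁴)^{1/4}`, the last at most `V4s T` (`k_j + 1 ≤ k_{j+1} < k_{j+1} + 1`). -/
def T_HIV : Prop := ∃ C : ℝ≥0, ∀ (ν : ℝ) (J J' : ℝ → ℝ) (H : ℝ → ℂ), 0 ≤ ν →
  NSol ν J J' → HH H →
    ∫⁻ u, V4o (fun V1 V2 => ∫ v in Ioc V1 V2 ∩ {v | xc ν ≤ u + v}, kap J (u + v) * fh H v) ^ 2 ≤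
      C * ∫⁻ s, ‖H s‖ₑ ^ 2

/-- **HAV** (90 min; from CRR.LOW, HIV, VCO, VCM): the variation norm theorem for the Hankel transform, uniformly in the
order, see `CRR/P_HANK.lean`. `x = u+v < xc`: `V4o ≤ ∫ |κ(u+v)| 1_{u+v<xc} |g(v)| dv` (VCO (4)), Young. `u+v ≥ xc`: HIV and
approximation of `g` by `fh H_n`, `H_n` Schwartz, VCO (5), Fatou. -/
def T_HAV : Prop := ∃ C : ℝ≥0, ∀ (ν : ℝ) (J J' : ℝ → ℝ) (g : ℝ → ℂ), 0 ≤ ν →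
  NSol ν J J' → Measurable g →
    ∫⁻ u, V4o (fun V1 V2 => ∫ v in Ioc V1 V2, kap J (u + v) * g v) ^ 2 ≤ C * ∫⁻ v, ‖g v‖ₑ ^ 2

end Pool.Agent.VRC
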