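import Pool.Agent.VRC.Targets
import Pool.Agent.CAR.P_AVBS

set_option autoImplicit false

/-!
# VAVB: averages of the model operators
-/

namespace Pool.Agent.VRC

open MeasureTheory Set ComplexConjugate Filter Topology
open scoped ENNReal NNReal
open Pool.Agent.CAR

namespace VAVB_

open Pool.Agent.CAR.AVB_

/-! ### Fubini -/

theorem bd1 {f : ℝ → ℂ} {M : ℝ} (h : ∀ v, ‖f v‖ ≤ M) : ‖∫ v in (0 : ℝ)..1, f v‖ ≤ M := by
  have := intervalIntegral.norm_integral_le_of_norm_le_const (a := (0 : ℝ)) (b := 1)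
    (f := f) (fun v _ => h v)
  simpa using this

theorem swap3 (F : ℝ → ℝ → ℝ → ℂ) (D : ℝ → ℝ)
    (hm : Measurable (fun p : (ℝ × ℝ) × ℝ => F p.1.1 p.1.2 p.2)) (hi : Integrable D)
    (hM : ∀ θ v x, ‖F θ v x‖ ≤ D x) :
    ∫ x, ∫ θ in (0 : ℝ)..1, ∫ v in (0 : ℝ)..1, F θ v x =
      ∫ θ in (0 : ℝ)..1, ∫ v in (0 : ℝ)..1, ∫ x, F θ v x := by
  have hm2 : Measurable (fun p : ℝ × ℝ => ∫ v in (0 : ℝ)..1, F p.1 v p.2) := by
    simp_rw [intervalIntegral.integral_of_le (zero_le_one (α := ℝ))]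
    have h1 : Measurable (fun q : (ℝ × ℝ) × ℝ => F q.1.1 q.2 q.1.2) :=
      hm.comp (((measurable_fst.comp measurable_fst).prodMk measurable_snd).prodMk
        (measurable_snd.comp measurable_fst))
    exact h1.stronglyMeasurable.integral_prod_right'.measurable
  have hb2 : ∀ θ x, ‖∫ v in (0 : ℝ)..1, F θ v x‖ ≤ D x := fun θ x => bd1 fun v => hM θ v x
  rw [← intervalIntegral_integral_swap]
  · refine intervalIntegral.integral_congr fun θ _ => ?_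
    show ∫ x, ∫ v in (0 : ℝ)..1, F θ v x = _
    rw [← intervalIntegral_integral_swap]
    refine Integrable.mono' (g := fun p : ℝ × ℝ => D p.2) ?_ ?_
      (Eventually.of_forall fun p => hM θ p.1 p.2)
    · rw [Set.uIoc_of_le (zero_le_one (α := ℝ))]
      exact hi.comp_snd _
    · have hp : Measurable (fun p : ℝ × ℝ => ((θ, p.1), p.2)) :=
        (measurable_const.prodMk measurable_fst).prodMk measurable_snd
      have h := hm.comp hp
      exact h.aestronglyMeasurable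
  · refine Integrable.mono' (g := fun p : ℝ × ℝ => D p.2) ?_ ?_
      (Eventually.of_forall fun p => hb2 p.1 p.2)
    · rw [Set.uIoc_of_le (zero_le_one (α := ℝ))]
      exact hi.comp_snd _
    · exact hm2.aestronglyMeasurable

theorem meas_int (F : ℝ → ℝ → ℝ → ℂ)
    (hm : Measurable (fun p : (ℝ × ℝ) × ℝ => F p.1.1 p.1.2 p.2)) :
    Measurable (fun x => ∫ θ in (0 : ℝ)..1, ∫ v in (0 : ℝ)..1, F θ v x) := by
  have hm2 : Measurable (fun p' : ℝ × ℝ => ∫ v in (0 : ℝ)..1, F p'.2 v p'.1) := by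
    simp_rw [intervalIntegral.integral_of_le (zero_le_one (α := ℝ))]
    have h1 : Measurable (fun q' : (ℝ × ℝ) × ℝ => F q'.1.2 q'.2 q'.1.1) :=
      hm.comp (((measurable_snd.comp measurable_fst).prodMk measurable_snd).prodMk
        (measurable_fst.comp measurable_fst))
    exact h1.stronglyMeasurable.integral_prod_right'.measurable
  simp_rw [intervalIntegral.integral_of_le (zero_le_one (α := ℝ))] at hm2 ⊢
  exact hm2.stronglyMeasurable.integral_prod_right'.measurable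

theorem intv_of_bd {f : ℝ → ℂ} {M : ℝ} (hm : Measurable f) (hb : ∀ x, ‖f x‖ ≤ M) :
    IntervalIntegrable f volume 0 1 :=
  IntervalIntegrable.mono_fun' (g := fun _ => M) intervalIntegrable_const
    hm.aestronglyMeasurable (Eventually.of_forall hb)

theorem sum_swap {ι : Type*} (S : Finset ι) (F : ι → ℝ → ℝ → ℂ) (M : ι → ℝ)
    (hm : ∀ i ∈ S, Measurable (fun p : ℝ × ℝ => F i p.1 p.2))
    (hb : ∀ i ∈ S, ∀ θ v, ‖F i θ v‖ ≤ M i) :
    ∫ θ in (0 : ℝ)..1, ∫ v in (0 : ℝ)..1, ∑ i ∈ S, F i θ v =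
      ∑ i ∈ S, ∫ θ in (0 : ℝ)..1, ∫ v in (0 : ℝ)..1, F i θ v := by
  have h1 : ∀ θ : ℝ, ∫ v in (0 : ℝ)..1, ∑ i ∈ S, F i θ v =
      ∑ i ∈ S, ∫ v in (0 : ℝ)..1, F i θ v := by
    intro θ
    refine intervalIntegral.integral_finsetSum fun i hi => ?_
    exact intv_of_bd ((hm i hi).comp (measurable_const.prodMk measurable_id))
      (fun v => hb i hi θ v)
  simp_rw [h1]
  refine intervalIntegral.integral_finsetSum fun i hi => ?_
  refine intv_of_bd (M := M i) ?_ ?_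
  · simp_rw [intervalIntegral.integral_of_le (zero_le_one (α := ℝ))]
    exact (hm i hi).stronglyMeasurable.integral_prod_right'.measurable
  · intro θ
    exact bd1 fun v => hb i hi θ v

/-! ### the data -/

theorem a_le {L : ℕ} {a : ℕ → ℝ → ℂ} {h : ℝ} {E : Set ℝ} (hA : AB L a h E) {j : ℕ}
    (hj : j < L) (x : ℝ) : ‖a j x‖ ≤ h * E.indicator (fun _ => (1 : ℝ)) x := by
  by_cases hx : x ∈ E
  · rw [indicator_of_mem hx, mul_one]
    have h1 : ‖a j x‖ ^ (4 / 3 : ℝ) ≤ h ^ (4 / 3 : ℝ) := by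
      refine le_trans ?_ (hA.bd x)
      exact Finset.single_le_sum (f := fun j => ‖a j x‖ ^ (4 / 3 : ℝ))
        (fun i _ => by positivity) (Finset.mem_range.2 hj)
    exact (Real.rpow_le_rpow_iff (norm_nonneg _) hA.h0 (by norm_num)).1 h1
  · rw [indicator_of_notMem hx, hA.z j hj x hx, norm_zero, mul_zero]

theorem meas_A {L : ℕ} {p q : ℕ → ℝ → ℝ} (hP : PQ L p q) (k : ℤ) (j : ℕ) :
    MeasurableSet {y | 5 / 4 ≤ (2 : ℝ) ^ k * (p j y - q j y)} :=
  measurableSet_le measurable_const (measurable_const.mul ((hP.mp j).sub (hP.mq j)))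

theorem meas_Act {L : ℕ} {p q : ℕ → ℝ → ℝ} (hP : PQ L p q) (s : Tile) (j : ℕ) :
    MeasurableSet (Act p q s j) :=
  ((hP.mp j) (measurableSet_dy _ _)).inter (meas_A hP s.k j)

theorem pq_shift {L : ℕ} {p q : ℕ → ℝ → ℝ} (hP : PQ L p q) (c : ℝ) :
    PQ L (fun j y => p j y - c) (fun j y => q j y - c) where
  mp j := (hP.mp j).sub_const _
  mq j := (hP.mq j).sub_const _
  le j hj x := by have := hP.le j hj x; linarith
  ord i hi j hj hij x := by have := hP.ord i hi j hj hij x; linarith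

theorem ab_shift {L : ℕ} {a : ℕ → ℝ → ℂ} {h : ℝ} {E : Set ℝ} (hA : AB L a h E) (c : ℝ) :
    AB L (fun j y => a j y * e1 (c * y)) h E where
  ma j := (hA.ma j).mul (cont_e1.measurable.comp (measurable_const.mul measurable_id))
  mE := hA.mE
  fE := hA.fE
  h0 := hA.h0
  bd x := by
    simp only [norm_mul, norm_e1, mul_one]
    exact hA.bd x
  z j hj x hx := by rw [hA.z j hj x hx, zero_mul]

theorem na_shift (L : ℕ) (a : ℕ → ℝ → ℂ) (c : ℝ) :
    na L (fun j y => a j y * e1 (c * y)) = na L a := by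
  unfold na amp
  simp only [norm_mul, norm_e1, mul_one]

theorem gg_shift {g : ℝ → ℂ} (hG : GG2 g) (c : ℝ) : GG2 (fun ξ => g (ξ + c)) where
  mg := hG.mg.comp (measurable_id.add_const _)
  ig := hG.ig.comp_add_right _
  sg := hG.sg.comp_add_right _

theorem n2_shift' (g : ℝ → ℂ) (c : ℝ) : n2 (fun ξ => g (ξ + c)) = n2 g := by
  unfold n2
  rw [integral_add_right_eq_self (fun ξ => ‖g ξ‖ ^ 2) c]

theorem int_E {E : Set ℝ} (mE : MeasurableSet E) (fE : volume E ≠ ⊤) (M : ℝ) :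
    Integrable (fun x => M * E.indicator (fun _ => (1 : ℝ)) x) := by
  refine Integrable.const_mul ?_ M
  rw [integrable_indicator_iff mE]
  exact integrableOn_const fE

/-! ### the pieces -/

/-- one piece of the integrand -/
noncomputable def Pc (ρ : ℝ → ℝ) (g : ℝ → ℂ) (p q : ℕ → ℝ → ℝ) (a : ℕ → ℝ → ℂ) (K n : ℕ)
    (i : ℕ × ℤ) (θ v x : ℝ) : ℂ :=
  {y | 5 / 4 ≤ (2 : ℝ) ^ i.2 * (p i.1 y - q i.1 y)}.indicator (a i.1) x *
    ∑ l ∈ Finset.Icc (-(n : ℤ)) n, ∑ m ∈ Finset.Icc (-(n : ℤ)) n,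
      co (pkf ρ v) (fun ξ => g (ξ + 2 ^ K * θ)) ⟨i.2, l, m⟩ * (e1 (2 ^ K * θ * x) *
        fx (pk ρ v) ⟨i.2, l, m⟩ x) *
        (Tile.up ⟨i.2, l, m⟩).indicator (fun _ => (1 : ℂ)) (p i.1 x - 2 ^ K * θ)

/-- the integrand -/
noncomputable def VH (ρ : ℝ → ℝ) (g : ℝ → ℂ) (L : ℕ) (p q : ℕ → ℝ → ℝ) (a : ℕ → ℝ → ℂ)
    (K n : ℕ) (θ v x : ℝ) : ℂ :=
  ∑ s ∈ Sn K n, co (pkf ρ v) (fun ξ => g (ξ + 2 ^ K * θ)) s *
    (vc L (fun j y => p j y - 2 ^ K * θ) (fun j y => q j y - 2 ^ K * θ)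
      (fun j y => a j y * e1 (2 ^ K * θ * y)) s x * fx (pk ρ v) s x)

theorem pt_id (p q : ℕ → ℝ → ℝ) (a : ℕ → ℝ → ℂ) (c : ℝ) (s : Tile) (j : ℕ) (x : ℝ)
    (z w : ℂ) :
    {y | 5 / 4 ≤ (2 : ℝ) ^ s.k * (p j y - q j y)}.indicator (a j) x *
      (z * (e1 (c * x) * w) * s.up.indicator (fun _ => (1 : ℂ)) (p j x - c)) =
    z * ((Act (fun j y => p j y - c) (fun j y => q j y - c) s j).indicator
      (fun y => a j y * e1 (c * y)) x * w) := by
  by_cases h1 : 5 / 4 ≤ (2 : ℝ) ^ s.k * (p j x - q j x)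
  · by_cases h2 : p j x - c ∈ s.up
    · have h3 : x ∈ Act (fun j y => p j y - c) (fun j y => q j y - c) s j := by
        refine ⟨h2, ?_⟩
        show 5 / 4 ≤ (2 : ℝ) ^ s.k * (p j x - c - (q j x - c))
        have : p j x - c - (q j x - c) = p j x - q j x := by ring
        rw [this]
        exact h1
      rw [indicator_of_mem (by exact h1), indicator_of_mem h2, indicator_of_mem h3]
      ring
    · have h3 : x ∉ Act (fun j y => p j y - c) (fun j y => q j y - c) s j := fun h => h2 h.1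
      rw [indicator_of_notMem h2, indicator_of_notMem h3]
      ring
  · have h3 : x ∉ Act (fun j y => p j y - c) (fun j y => q j y - c) s j := by
      rintro ⟨_, h⟩
      apply h1
      have h4 : 5 / 4 ≤ (2 : ℝ) ^ s.k * (p j x - c - (q j x - c)) := h
      have : p j x - c - (q j x - c) = p j x - q j x := by ring
      rwa [this] at h4
    rw [indicator_of_notMem (by exact h1), indicator_of_notMem h3]
    ring

theorem sum_Pc (ρ : ℝ → ℝ) (g : ℝ → ℂ) (L : ℕ) (p q : ℕ → ℝ → ℝ) (a : ℕ → ℝ → ℂ)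
    (K n : ℕ) (θ v x : ℝ) :
    ∑ i ∈ Finset.range L ×ˢ Finset.Icc (-(K : ℤ)) K, Pc ρ g p q a K n i θ v x =
      VH ρ g L p q a K n θ v x := by
  rw [Finset.sum_product, Finset.sum_comm]
  unfold VH
  rw [sum_Sn]
  refine Finset.sum_congr rfl fun k _ => ?_
  unfold Pc vc
  simp only [Finset.mul_sum, Finset.sum_mul]
  rw [Finset.sum_comm]
  refine Finset.sum_congr rfl fun l _ => ?_
  rw [Finset.sum_comm]
  refine Finset.sum_congr rfl fun m _ => ?_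
  refine Finset.sum_congr rfl fun j _ => ?_
  exact pt_id p q a (2 ^ K * θ) ⟨k, l, m⟩ j x _ _

theorem int_Pc (ρ : ℝ → ℝ) (g : ℝ → ℂ) (p q : ℕ → ℝ → ℝ) (a : ℕ → ℝ → ℂ) (K n j : ℕ)
    (k : ℤ) (x : ℝ) :
    ∫ θ in (0 : ℝ)..1, ∫ v in (0 : ℝ)..1, Pc ρ g p q a K n (j, k) θ v x =
      a j x * {y | 5 / 4 ≤ (2 : ℝ) ^ k * (p j y - q j y)}.indicator
        (fun y => Yk ρ g K n k (p j y) y) x := by
  unfold Pc
  have h1 : ∀ c : ℂ, ∀ F : ℝ → ℝ → ℂ, ∫ θ in (0 : ℝ)..1, ∫ v in (0 : ℝ)..1, c * F θ v =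
      c * ∫ θ in (0 : ℝ)..1, ∫ v in (0 : ℝ)..1, F θ v := by
    intro c F
    rw [← intervalIntegral.integral_const_mul]
    refine intervalIntegral.integral_congr fun θ _ => ?_
    exact intervalIntegral.integral_const_mul _ _
  rw [h1]
  by_cases h : x ∈ {y | 5 / 4 ≤ (2 : ℝ) ^ k * (p j y - q j y)}
  · rw [indicator_of_mem h, indicator_of_mem h]
    rfl
  · rw [indicator_of_notMem (by exact h), indicator_of_notMem h, zero_mul, mul_zero]

section

variable {A : ℝ} {ρ : ℝ → ℝ} (hB : Bmp A ρ) {g : ℝ → ℂ} (hG : GG2 g) {L : ℕ}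
  {p q : ℕ → ℝ → ℝ} {a : ℕ → ℝ → ℂ} {h : ℝ} {E : Set ℝ} (hP : PQ L p q) (hA : AB L a h E)
include hB hG hP hA

theorem meas_Pc (K n : ℕ) (i : ℕ × ℤ) :
    Measurable (fun p' : (ℝ × ℝ) × ℝ => Pc ρ g p q a K n i p'.1.1 p'.1.2 p'.2) := by
  have hb : Measurable (fun p' : (ℝ × ℝ) × ℝ =>
      {y | 5 / 4 ≤ (2 : ℝ) ^ i.2 * (p i.1 y - q i.1 y)}.indicator (a i.1) p'.2) :=
    ((hA.ma i.1).indicator (meas_A hP i.2 i.1)).comp measurable_snd
  suffices hs : ∀ s : Tile, Measurable (fun p' : (ℝ × ℝ) × ℝ =>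
      co (pkf ρ p'.1.2) (fun ξ => g (ξ + 2 ^ K * p'.1.1)) s *
      (e1 (2 ^ K * p'.1.1 * p'.2) * fx (pk ρ p'.1.2) s p'.2) *
        s.up.indicator (fun _ => (1 : ℂ)) (p i.1 p'.2 - 2 ^ K * p'.1.1)) by
    have h := hb.mul (Finset.measurable_fun_sum (Finset.Icc (-(n : ℤ)) n) fun l _ =>
      Finset.measurable_fun_sum (Finset.Icc (-(n : ℤ)) n) fun m _ => hs ⟨i.2, l, m⟩)
    exact h
  intro s
  have hf : Measurable (fun p : (ℝ × ℝ) × ℝ => p.1) := measurable_fst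
  have h1 := (meas_co hB hG.mg (2 ^ K) s).comp hf
  have hp : Measurable (fun q : (ℝ × ℝ) × ℝ => (q.1.2, q.2)) :=
    (measurable_snd.comp measurable_fst).prodMk measurable_snd
  have h2 := (meas_fx hB s).comp hp
  have hq : Measurable (fun p : (ℝ × ℝ) × ℝ => 2 ^ K * p.1.1 * p.2) :=
    (measurable_const.mul (measurable_fst.comp measurable_fst)).mul measurable_snd
  have h3 := cont_e1.measurable.comp hq
  have h4 : Measurable (fun p' : (ℝ × ℝ) × ℝ =>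
      s.up.indicator (fun _ => (1 : ℂ)) (p i.1 p'.2 - 2 ^ K * p'.1.1)) := by
    have h5 : Measurable (s.up.indicator (fun _ : ℝ => (1 : ℂ))) :=
      measurable_const.indicator (measurableSet_dy _ _)
    have h6 : Measurable (fun p' : (ℝ × ℝ) × ℝ => p i.1 p'.2) := (hP.mp i.1).comp measurable_snd
    have h7 : Measurable (fun p' : (ℝ × ℝ) × ℝ => 2 ^ K * p'.1.1) :=
      measurable_const.mul (measurable_fst.comp measurable_fst)
    have h8 := h5.comp (h6.sub h7)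
    exact h8
  have h9 := (h1.mul (h3.mul h2)).mul h4
  exact h9

theorem Pc_bd (K n : ℕ) (i : ℕ × ℤ) (hi : i.1 < L) : ∃ M : ℝ, ∀ θ v x,
    ‖Pc ρ g p q a K n i θ v x‖ ≤ M * E.indicator (fun _ => (1 : ℝ)) x := by
  refine ⟨(∑ _l ∈ Finset.Icc (-(n : ℤ)) n, ∑ _m ∈ Finset.Icc (-(n : ℤ)) n,
    (Real.sqrt ((2 : ℝ) ^ i.2) * A * ∫ ξ, ‖g ξ‖) * ((Real.sqrt ((2 : ℝ) ^ i.2))⁻¹ * A)) * h,
    fun θ v x => ?_⟩
  have hApos := A_pos hB
  have hg0 : 0 ≤ ∫ ξ, ‖g ξ‖ := integral_nonneg fun _ => norm_nonneg _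
  have hS : ‖∑ l ∈ Finset.Icc (-(n : ℤ)) n, ∑ m ∈ Finset.Icc (-(n : ℤ)) n,
      co (pkf ρ v) (fun ξ => g (ξ + 2 ^ K * θ)) ⟨i.2, l, m⟩ * (e1 (2 ^ K * θ * x) *
        fx (pk ρ v) ⟨i.2, l, m⟩ x) *
        (Tile.up ⟨i.2, l, m⟩).indicator (fun _ => (1 : ℂ)) (p i.1 x - 2 ^ K * θ)‖ ≤
      ∑ _l ∈ Finset.Icc (-(n : ℤ)) n, ∑ _m ∈ Finset.Icc (-(n : ℤ)) n,
        (Real.sqrt ((2 : ℝ) ^ i.2) * A * ∫ ξ, ‖g ξ‖) * ((Real.sqrt ((2 : ℝ) ^ i.2))⁻¹ * A) := by
    refine (norm_sum_le _ _).trans (Finset.sum_le_sum fun l _ => ?_)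
    refine (norm_sum_le _ _).trans (Finset.sum_le_sum fun m _ => ?_)
    rw [norm_mul, norm_mul, norm_mul, norm_e1, one_mul]
    have h1 : ‖(Tile.up ⟨i.2, l, m⟩).indicator (fun _ => (1 : ℂ)) (p i.1 x - 2 ^ K * θ)‖ ≤
        1 := by
      by_cases h : p i.1 x - 2 ^ K * θ ∈ Tile.up ⟨i.2, l, m⟩
      · rw [indicator_of_mem h, norm_one]
      · rw [indicator_of_notMem h, norm_zero]; exact zero_le_one
    have h2 : ‖co (pkf ρ v) (fun ξ => g (ξ + 2 ^ K * θ)) ⟨i.2, l, m⟩‖ *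
        ‖fx (pk ρ v) ⟨i.2, l, m⟩ x‖ ≤
        (Real.sqrt ((2 : ℝ) ^ i.2) * A * ∫ ξ, ‖g ξ‖) * ((Real.sqrt ((2 : ℝ) ^ i.2))⁻¹ * A) :=
      mul_le_mul (co_bd' hB v _ ⟨i.2, l, m⟩ hG.ig) (fx_bd hB v ⟨i.2, l, m⟩ x) (norm_nonneg _)
        ((norm_nonneg _).trans (co_bd' hB v 0 ⟨i.2, l, m⟩ hG.ig))
    calc _ ≤ ‖co (pkf ρ v) (fun ξ => g (ξ + 2 ^ K * θ)) ⟨i.2, l, m⟩‖ *
          ‖fx (pk ρ v) ⟨i.2, l, m⟩ x‖ * 1 :=
          mul_le_mul_of_nonneg_left h1 (by positivity)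
      _ ≤ _ := by rw [mul_one]; exact h2
  have hI : ‖{y | 5 / 4 ≤ (2 : ℝ) ^ i.2 * (p i.1 y - q i.1 y)}.indicator (a i.1) x‖ ≤
      h * E.indicator (fun _ => (1 : ℝ)) x :=
    (norm_indicator_le_norm_self _ _).trans (a_le hA hi x)
  unfold Pc
  rw [norm_mul]
  refine (mul_le_mul hI hS (norm_nonneg _) ((norm_nonneg _).trans hI)).trans (le_of_eq ?_)
  ring

theorem VH_bd (K n : ℕ) : ∃ M : ℝ, ∀ θ v x, ‖VH ρ g L p q a K n θ v x‖ ≤
    M * E.indicator (fun _ => (1 : ℝ)) x := by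
  have hex : ∀ i : ℕ × ℤ, ∃ M : ℝ, i.1 < L → ∀ θ v x,
      ‖Pc ρ g p q a K n i θ v x‖ ≤ M * E.indicator (fun _ => (1 : ℝ)) x := by
    intro i
    by_cases hi : i.1 < L
    · obtain ⟨M, hM⟩ := Pc_bd hB hG hP hA K n i hi
      exact ⟨M, fun _ => hM⟩
    · exact ⟨0, fun h => absurd h hi⟩
  choose M hM using hex
  refine ⟨∑ i ∈ Finset.range L ×ˢ Finset.Icc (-(K : ℤ)) K, M i, fun θ v x => ?_⟩
  rw [← sum_Pc, Finset.sum_mul]
  refine (norm_sum_le _ _).trans (Finset.sum_le_sum fun i hi => ?_)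
  rw [Finset.mem_product] at hi
  exact hM i (Finset.mem_range.1 hi.1) θ v x

theorem meas_VH (K n : ℕ) :
    Measurable (fun p' : (ℝ × ℝ) × ℝ => VH ρ g L p q a K n p'.1.1 p'.1.2 p'.2) := by
  simp_rw [← sum_Pc]
  exact Finset.measurable_fun_sum _ fun i _ => meas_Pc hB hG hP hA K n i

theorem pt_eq (K n : ℕ) (x : ℝ) :
    ∑ j ∈ Finset.range L, a j x * ∑ k ∈ Finset.Icc (-(K : ℤ)) K,
      {y | 5 / 4 ≤ (2 : ℝ) ^ k * (p j y - q j y)}.indicator
        (fun y => Yk ρ g K n k (p j y) y) x =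
      ∫ θ in (0 : ℝ)..1, ∫ v in (0 : ℝ)..1, VH ρ g L p q a K n θ v x := by
  have hex : ∀ i : ℕ × ℤ, ∃ M : ℝ, i.1 < L → ∀ θ v,
      ‖Pc ρ g p q a K n i θ v x‖ ≤ M := by
    intro i
    by_cases hi : i.1 < L
    · obtain ⟨M, hM⟩ := Pc_bd hB hG hP hA K n i hi
      exact ⟨M * E.indicator (fun _ => (1 : ℝ)) x, fun _ θ v => hM θ v x⟩
    · exact ⟨0, fun h => absurd h hi⟩
  choose M hM using hex
  simp_rw [← sum_Pc]
  rw [sum_swap _ (fun i θ v => Pc ρ g p q a K n i θ v x) M]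
  · rw [Finset.sum_product]
    refine Finset.sum_congr rfl fun j _ => ?_
    rw [Finset.mul_sum]
    refine Finset.sum_congr rfl fun k _ => ?_
    exact (int_Pc ρ g p q a K n j k x).symm
  · intro i _
    have hp : Measurable (fun p' : ℝ × ℝ => ((p'.1, p'.2), x)) :=
      (measurable_fst.prodMk measurable_snd).prodMk measurable_const
    exact (meas_Pc hB hG hP hA K n i).comp hp
  · intro i hi
    rw [Finset.mem_product] at hi
    exact hM i (Finset.mem_range.1 hi.1)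

theorem int_vc (s : Tile) (v : ℝ) : Integrable (fun x => vc L p q a s x * fx (pk ρ v) s x) := by
  have hApos := A_pos hB
  have hm : Measurable (vc L p q a s) := by
    unfold vc
    exact Finset.measurable_fun_sum _ fun j _ => (hA.ma j).indicator (meas_Act hP s j)
  have hp : Measurable (fun x : ℝ => (v, x)) := measurable_const.prodMk measurable_id
  have hf := (meas_fx hB s).comp hp
  refine Integrable.mono' (int_E hA.mE hA.fE ((L * h) * ((Real.sqrt ((2 : ℝ) ^ s.k))⁻¹ * A)))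
    (hm.mul hf).aestronglyMeasurable (Eventually.of_forall fun x => ?_)
  rw [norm_mul]
  have h1 : ‖vc L p q a s x‖ ≤ (L * h) * E.indicator (fun _ => (1 : ℝ)) x := by
    unfold vc
    refine (norm_sum_le _ _).trans ?_
    have h2 : ∀ j ∈ Finset.range L, ‖(Act p q s j).indicator (a j) x‖ ≤
        h * E.indicator (fun _ => (1 : ℝ)) x := fun j hj =>
      (norm_indicator_le_norm_self _ _).trans (a_le hA (Finset.mem_range.1 hj) x)
    refine (Finset.sum_le_sum h2).trans (le_of_eq ?_)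
    rw [Finset.sum_const, Finset.card_range, nsmul_eq_mul]
    ring
  have h3 : 0 ≤ (L * h) * E.indicator (fun _ => (1 : ℝ)) x := (norm_nonneg _).trans h1
  calc ‖vc L p q a s x‖ * ‖fx (pk ρ v) s x‖ ≤ ((L * h) * E.indicator (fun _ => (1 : ℝ)) x) *
        ((Real.sqrt ((2 : ℝ) ^ s.k))⁻¹ * A) :=
        mul_le_mul h1 (fx_bd hB v s x) (norm_nonneg _) h3
    _ = (L * h) * ((Real.sqrt ((2 : ℝ) ^ s.k))⁻¹ * A) * E.indicator (fun _ => (1 : ℝ)) x := by
        ring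

theorem int_VH (K n : ℕ) (θ v : ℝ) : ∫ x, VH ρ g L p q a K n θ v x =
    ∑ s ∈ Sn K n, co (pkf ρ v) (fun ξ => g (ξ + 2 ^ K * θ)) s *
      vav (pk ρ v) L (fun j y => p j y - 2 ^ K * θ) (fun j y => q j y - 2 ^ K * θ)
        (fun j y => a j y * e1 (2 ^ K * θ * y)) s := by
  unfold VH
  rw [integral_finsetSum]
  · refine Finset.sum_congr rfl fun s _ => ?_
    rw [integral_const_mul]
    rfl
  · intro s _
    exact (int_vc hB (gg_shift hG (2 ^ K * θ)) (pq_shift hP (2 ^ K * θ))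
      (ab_shift hA (2 ^ K * θ)) s v).const_mul _

theorem bound {C : ℝ} (hC : ∀ φ Φ g : ℝ → ℂ, WPk A φ Φ → GG2 g →
    ∀ (L : ℕ) (p q : ℕ → ℝ → ℝ) (a : ℕ → ℝ → ℂ) (h : ℝ) (E : Set ℝ), PQ L p q → AB L a h E →
    ∀ S : Finset Tile,
      ∑ s ∈ S, ‖co Φ g s‖ * ‖vav φ L p q a s‖ ≤ C * n2 g * na L a) (K n : ℕ) :
    ‖∫ x, ∑ j ∈ Finset.range L, a j x * ∑ k ∈ Finset.Icc (-(K : ℤ)) K,
      {y | 5 / 4 ≤ (2 : ℝ) ^ k * (p j y - q j y)}.indicator
        (fun y => Yk ρ g K n k (p j y) y) x‖ ≤ C * n2 g * na L a := by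
  obtain ⟨M, hM⟩ := VH_bd hB hG hP hA K n
  simp_rw [pt_eq hB hG hP hA]
  rw [swap3 _ (fun x => M * E.indicator (fun _ => (1 : ℝ)) x) (meas_VH hB hG hP hA K n)
    (int_E hA.mE hA.fE M) hM]
  have h1 : ∀ θ : ℝ, ∀ v ∈ Set.uIoc (0 : ℝ) 1, ‖∫ x, VH ρ g L p q a K n θ v x‖ ≤
      C * n2 g * na L a := by
    intro θ v hv
    rw [Set.uIoc_of_le zero_le_one] at hv
    rw [int_VH hB hG hP hA]
    refine (norm_sum_le _ _).trans ?_
    have h2 := hC (pk ρ v) (pkf ρ v) _ (hB.wp v ⟨hv.1.le, hv.2⟩)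
      (gg_shift hG (2 ^ K * θ)) L _ _ _ h E (pq_shift hP (2 ^ K * θ))
      (ab_shift hA (2 ^ K * θ)) (Sn K n)
    rw [n2_shift', na_shift] at h2
    refine le_trans (le_of_eq ?_) h2
    exact Finset.sum_congr rfl fun s _ => norm_mul _ _
  have h3 : ∀ θ ∈ Set.uIoc (0 : ℝ) 1, ‖∫ v in (0 : ℝ)..1, ∫ x, VH ρ g L p q a K n θ v x‖ ≤
      C * n2 g * na L a := by
    intro θ _
    have := intervalIntegral.norm_integral_le_of_norm_le_const (a := (0 : ℝ)) (b := 1)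
      (f := fun v => ∫ x, VH ρ g L p q a K n θ v x) (fun v hv => h1 θ v hv)
    simpa using this
  have := intervalIntegral.norm_integral_le_of_norm_le_const (a := (0 : ℝ)) (b := 1)
    (f := fun θ => ∫ v in (0 : ℝ)..1, ∫ x, VH ρ g L p q a K n θ v x) h3
  simpa using this

theorem meas_Y' (K n : ℕ) : Measurable (fun x => ∑ j ∈ Finset.range L, a j x *
    ∑ k ∈ Finset.Icc (-(K : ℤ)) K, {y | 5 / 4 ≤ (2 : ℝ) ^ k * (p j y - q j y)}.indicator
        (fun y => Yk ρ g K n k (p j y) y) x) := by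
  have heq : (fun x => ∑ j ∈ Finset.range L, a j x *
      ∑ k ∈ Finset.Icc (-(K : ℤ)) K, {y | 5 / 4 ≤ (2 : ℝ) ^ k * (p j y - q j y)}.indicator
        (fun y => Yk ρ g K n k (p j y) y) x) =
      fun x => ∫ θ in (0 : ℝ)..1, ∫ v in (0 : ℝ)..1, VH ρ g L p q a K n θ v x :=
    funext fun x => pt_eq hB hG hP hA K n x
  rw [heq]
  exact meas_int _ (meas_VH hB hG hP hA K n)

end

end VAVB_

open VAVB_ in
theorem p_VAVB (h1 : T_VMODS) (h2 : T_VYN) : T_VAVB := by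
  intro A ρ hB
  obtain ⟨C, hC0, hC⟩ := h1 A
  refine ⟨C, hC0, ?_⟩
  intro g L p q a h E hG hP hA K
  have hY := fun (k : ℤ) (ha : -(K : ℤ) ≤ k) (hb : k ≤ K) => h2 A ρ hB g hG.mg hG.ig K k ha hb
  choose! Cy hCy using hY
  have hCy0 : ∀ k ∈ Finset.Icc (-(K : ℤ)) K, 0 ≤ Cy k := by
    intro k hk
    rw [Finset.mem_Icc] at hk
    exact (norm_nonneg _).trans ((hCy k hk.1 hk.2).1 0 0 0)
  have hlim : Tendsto (fun n => ∫ x, ∑ j ∈ Finset.range L, a j x *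
      ∑ k ∈ Finset.Icc (-(K : ℤ)) K, {y | 5 / 4 ≤ (2 : ℝ) ^ k * (p j y - q j y)}.indicator
        (fun y => Yk ρ g K n k (p j y) y) x) atTop
      (𝓝 (∫ x, ∑ j ∈ Finset.range L, a j x * ∑ k ∈ Finset.Icc (-(K : ℤ)) K,
        {y | 5 / 4 ≤ (2 : ℝ) ^ k * (p j y - q j y)}.indicator
        (fun y => ∫ ξ, g ξ * (Bt ρ ((2 : ℝ) ^ k) (p j y - ξ) : ℂ) * e1 (y * ξ)) x)) := by
    refine tendsto_integral_of_dominated_convergence
      (fun x => (L * (h * ∑ k ∈ Finset.Icc (-(K : ℤ)) K, Cy k)) *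
        E.indicator (fun _ => (1 : ℝ)) x) ?_ (int_E hA.mE hA.fE _) ?_ ?_
    · intro n
      exact (meas_Y' hB hG hP hA K n).aestronglyMeasurable
    · intro n
      refine Eventually.of_forall fun x => ?_
      refine (norm_sum_le _ _).trans ?_
      have h3 : ∀ j ∈ Finset.range L, ‖a j x * ∑ k ∈ Finset.Icc (-(K : ℤ)) K,
          {y | 5 / 4 ≤ (2 : ℝ) ^ k * (p j y - q j y)}.indicator
          (fun y => Yk ρ g K n k (p j y) y) x‖ ≤
          h * E.indicator (fun _ => (1 : ℝ)) x * ∑ k ∈ Finset.Icc (-(K : ℤ)) K, Cy k := by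
        intro j hj
        rw [norm_mul]
        have h4 := a_le hA (Finset.mem_range.1 hj) x
        refine mul_le_mul h4 ?_ (norm_nonneg _) ((norm_nonneg _).trans h4)
        refine (norm_sum_le _ _).trans (Finset.sum_le_sum fun k hk => ?_)
        refine (norm_indicator_le_norm_self _ _).trans ?_
        rw [Finset.mem_Icc] at hk
        exact (hCy k hk.1 hk.2).1 n (p j x) x
      refine (Finset.sum_le_sum h3).trans (le_of_eq ?_)
      rw [Finset.sum_const, Finset.card_range, nsmul_eq_mul]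
      ring
    · refine Eventually.of_forall fun x => ?_
      refine tendsto_finsetSum _ fun j _ => ?_
      refine Tendsto.const_mul _ ?_
      refine tendsto_finsetSum _ fun k hk => ?_
      rw [Finset.mem_Icc] at hk
      by_cases hx : x ∈ {y | 5 / 4 ≤ (2 : ℝ) ^ k * (p j y - q j y)}
      · simp only [indicator_of_mem hx]
        exact (hCy k hk.1 hk.2).2 (p j x) x
      · simp only [indicator_of_notMem hx]
        exact tendsto_const_nhds
  exact le_of_tendsto hlim.norm (Eventually.of_forall fun n => bound hB hG hP hA hC K n)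

end Pool.Agent.VRC
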