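import Pool.Agent.VRC.Targets
import Pool.Agent.CAR.P_AVG

set_option autoImplicit false

/-!
# VRC, target VAVG: summation over stopping intervals
-/

namespace Pool.Agent.VRC

open MeasureTheory Set
open scoped ENNReal NNReal
open Pool.Agent.CAR

namespace VAVG_

open Pool.Agent.CAR.AVG_ in
theorem lint0 {κ : ℝ → ℤ} (hκ : ∀ x y, y ∈ Jx κ x → κ y = κ x) (h : ℝ → ℝ≥0∞) :
    ∫⁻ x, h x = ∑' p, ∫⁻ x in cell κ p, h x := by
  have := lint hκ MeasurableSet.univ h
  simpa using this

theorem hoelder {S : Set ℝ} {w : ℝ → ℝ≥0∞} (hw : Measurable w) {Q : ℝ≥0∞}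
    (h : ∫⁻ y in S, w y ≤ Q * volume S) :
    ∫⁻ y in S, w y ^ (3 / 4 : ℝ) ≤ Q ^ (3 / 4 : ℝ) * volume S := by
  have h1 := ENNReal.lintegral_mul_le_Lp_mul_Lq (volume.restrict S)
    (p := (4 / 3 : ℝ)) (q := 4) (by
      rw [Real.holderConjugate_iff]; norm_num)
    (f := fun y => w y ^ (3 / 4 : ℝ)) (g := fun _ => 1)
    (hw.pow_const _).aemeasurable aemeasurable_const
  have e1 : ∀ y, (w y ^ (3 / 4 : ℝ)) ^ (4 / 3 : ℝ) = w y := fun y => by
    rw [← ENNReal.rpow_mul]; norm_num
  simp only [Pi.mul_apply, mul_one, e1, ENNReal.one_rpow, lintegral_const,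
    Measure.restrict_apply MeasurableSet.univ, univ_inter, one_mul] at h1
  refine h1.trans ?_
  calc (∫⁻ y in S, w y) ^ (1 / (4 / 3) : ℝ) * volume S ^ (1 / 4 : ℝ)
      ≤ (Q * volume S) ^ (1 / (4 / 3) : ℝ) * volume S ^ (1 / 4 : ℝ) := by gcongr
    _ = Q ^ (3 / 4 : ℝ) * volume S := by
        rw [ENNReal.mul_rpow_of_nonneg _ _ (by norm_num), mul_assoc,
          ← ENNReal.rpow_add_of_nonneg _ _ (by norm_num) (by norm_num)]
        norm_num

end VAVG_

open VAVG_ Pool.Agent.CAR.AVG_ in
theorem p_VAVG : T_VAVG := by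
  intro κ _ hκ W Q w h H hW _ hw hh hH h1 h2 h3
  rw [lint0 hκ, lint hκ hW, ← ENNReal.tsum_mul_left]
  apply ENNReal.tsum_le_tsum
  intro p
  rcases (cell κ p).eq_empty_or_nonempty with he | ⟨y0, hc0⟩
  · rw [he]; simp
  · obtain ⟨e1, e2⟩ := cell_eq hκ hc0
    have hJ : ∀ x ∈ cell κ p, Jx κ x = cell κ p := fun x hx => by
      rw [(cell_eq hκ hx).2, e1]
    have hm := measurableSet_cell hκ p
    by_cases h0 : ∀ y ∈ cell κ p, w y = 0
    · have h5 : ∫⁻ x in cell κ p, h x = 0 := by
        rw [setLIntegral_congr_fun (g := fun _ => 0) hm]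
        · simp
        · intro y hy
          have := h2 y0 y (by rw [hJ y0 hc0]; exact hy)
          rw [h0 y hy, ENNReal.zero_rpow_of_pos (by norm_num), zero_mul] at this
          exact le_antisymm this zero_le
      rw [h5]; exact zero_le
    · push Not at h0
      obtain ⟨y1, hy1, hw1⟩ := h0
      have hsub : cell κ p ⊆ W := fun x hx => h3 x y1 (by rw [hJ x hx]; exact hy1) hw1
      rw [inter_eq_self_of_subset_right hsub]
      have hv0 : volume (cell κ p) ≠ 0 := by
        rw [e1, volume_dy]; simp; positivity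
      have hvt : volume (cell κ p) ≠ ⊤ := by
        rw [e1, volume_dy]; exact ENNReal.ofReal_ne_top
      have g1 : ∀ x ∈ cell κ p, ∫⁻ y in cell κ p, h y ≤
          Q ^ (3 / 4 : ℝ) * volume (cell κ p) * H x := by
        intro x hx
        calc ∫⁻ y in cell κ p, h y ≤ ∫⁻ y in cell κ p, w y ^ (3 / 4 : ℝ) * H x := by
              apply setLIntegral_mono' hm
              intro y hy
              exact h2 x y (by rw [hJ x hx]; exact hy)
          _ = (∫⁻ y in cell κ p, w y ^ (3 / 4 : ℝ)) * H x :=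
              lintegral_mul_const _ (hw.pow_const _)
          _ ≤ _ := by
              gcongr
              apply hoelder hw
              have := h1 y0
              rwa [hJ y0 hc0] at this
      have g2 : (∫⁻ y in cell κ p, h y) * volume (cell κ p) ≤
          (Q ^ (3 / 4 : ℝ) * ∫⁻ x in cell κ p, H x) * volume (cell κ p) := by
        calc (∫⁻ y in cell κ p, h y) * volume (cell κ p)
            = ∫⁻ x in cell κ p, (∫⁻ y in cell κ p, h y) := by rw [setLIntegral_const]
          _ ≤ ∫⁻ x in cell κ p, Q ^ (3 / 4 : ℝ) * volume (cell κ p) * H x :=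
              setLIntegral_mono' hm g1
          _ = Q ^ (3 / 4 : ℝ) * volume (cell κ p) * ∫⁻ x in cell κ p, H x :=
              lintegral_const_mul _ hH
          _ = _ := by ring
      exact (ENNReal.mul_le_mul_iff_left hv0 hvt).1 g2

end Pool.Agent.VRC
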