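import Pool.Agent.VRC.Targets

set_option autoImplicit false

/-!
# VRC, target VBAS: basic facts
-/

namespace Pool.Agent.VRC

open MeasureTheory Set ComplexConjugate
open scoped ENNReal NNReal
open Pool.Agent.CAR

namespace VBAS_

variable {L : ℕ} {p q : ℕ → ℝ → ℝ} {a : ℕ → ℝ → ℂ} {h : ℝ} {E : Set ℝ}

lemma lt_of_act {s : Tile} {i j : ℕ} {x : ℝ} (hi : p i x ∈ s.up) (hj : x ∈ Act p q s j) :
    q j x < p i x := by
  obtain ⟨h1, h2⟩ := hj
  have hk := two_zpow_pos s.k
  have e : (2 : ℝ) ^ s.k * (2 : ℝ) ^ (-s.k - 1) = 1 / 2 := by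
    rw [← zpow_add₀ (by norm_num)]
    have : s.k + (-s.k - 1) = -1 := by ring
    rw [this]
    norm_num
  have hi1 := hi.1
  have hj2 := h1.2
  have h3 : (2 : ℝ) ^ s.k * (p j x - p i x) < 1 / 2 := by
    have h4 : p j x - p i x < (2 : ℝ) ^ (-s.k - 1) := by
      have : (2 : ℝ) ^ (-s.k - 1) * (((2 * s.m + 1 : ℤ) : ℝ) + 1) -
          (2 : ℝ) ^ (-s.k - 1) * ((2 * s.m + 1 : ℤ) : ℝ) = (2 : ℝ) ^ (-s.k - 1) := by ring
      linarith
    calc (2 : ℝ) ^ s.k * (p j x - p i x) < (2 : ℝ) ^ s.k * (2 : ℝ) ^ (-s.k - 1) :=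
          mul_lt_mul_of_pos_left h4 hk
      _ = 1 / 2 := e
  by_contra hn
  push Not at hn
  have h5 : (2 : ℝ) ^ s.k * (p i x - q j x) ≤ 0 :=
    mul_nonpos_of_nonneg_of_nonpos hk.le (by linarith)
  have h6 : (2 : ℝ) ^ s.k * (p j x - q j x) =
      (2 : ℝ) ^ s.k * (p j x - p i x) + (2 : ℝ) ^ s.k * (p i x - q j x) := by ring
  linarith

lemma uniq (hP : PQ L p q) {s : Tile} {i j : ℕ} {x : ℝ} (hi : i < L) (hj : j < L)
    (h1 : x ∈ Act p q s i) (h2 : x ∈ Act p q s j) : i = j := by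
  rcases lt_trichotomy i j with h | h | h
  · have h3 := lt_of_act h1.1 h2
    have h4 := hP.ord i hi j hj h x
    linarith
  · exact h
  · have h3 := lt_of_act h2.1 h1
    have h4 := hP.ord j hj i hi h x
    linarith

lemma term_nonneg (U : Set ℝ) (j : ℕ) (x : ℝ) :
    0 ≤ (p j ⁻¹' U).indicator (fun y => ‖a j y‖ ^ (4 / 3 : ℝ)) x :=
  indicator_nonneg (fun y _ => Real.rpow_nonneg (norm_nonneg _) _) x

lemma vm_nonneg (U : Set ℝ) (x : ℝ) : 0 ≤ vm L p a U x :=
  Finset.sum_nonneg fun j _ => term_nonneg U j x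

lemma vc_le (hP : PQ L p q) (s : Tile) (x : ℝ) :
    ‖vc L p q a s x‖ ^ (4 / 3 : ℝ) ≤ vm L p a s.up x := by
  by_cases hex : ∃ j < L, x ∈ Act p q s j
  · obtain ⟨j, hj, hx⟩ := hex
    have e : vc L p q a s x = a j x := by
      unfold vc
      rw [Finset.sum_eq_single j]
      · exact indicator_of_mem hx _
      · intro i hi hij
        refine indicator_of_notMem (fun h1 => hij ?_) _
        exact uniq hP (Finset.mem_range.1 hi) hj h1 hx
      · intro h1
        exact absurd (Finset.mem_range.2 hj) h1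
    rw [e]
    unfold vm
    refine le_trans (le_of_eq ?_) (Finset.single_le_sum (fun i _ => term_nonneg s.up i x)
      (Finset.mem_range.2 hj))
    have hm : x ∈ p j ⁻¹' s.up := hx.1
    rw [indicator_of_mem hm]
  · push Not at hex
    have e : vc L p q a s x = 0 := by
      unfold vc
      refine Finset.sum_eq_zero fun j hj => ?_
      exact indicator_of_notMem (hex j (Finset.mem_range.1 hj)) _
    rw [e, norm_zero, Real.zero_rpow (by norm_num)]
    exact vm_nonneg _ _

lemma vm_mono {U V : Set ℝ} (x : ℝ) (h : U ⊆ V) : vm L p a U x ≤ vm L p a V x := by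
  unfold vm
  refine Finset.sum_le_sum fun j _ => ?_
  exact indicator_le_indicator_of_subset (preimage_mono h)
    (fun y => Real.rpow_nonneg (norm_nonneg _) _) x

lemma vm_le (hA : AB L a h E) (U : Set ℝ) (x : ℝ) : vm L p a U x ≤ h ^ (4 / 3 : ℝ) := by
  refine le_trans ?_ (hA.bd x)
  unfold vm
  refine Finset.sum_le_sum fun j _ => ?_
  by_cases hx : x ∈ p j ⁻¹' U
  · rw [indicator_of_mem hx]
  · rw [indicator_of_notMem hx]
    exact Real.rpow_nonneg (norm_nonneg _) _

lemma vm_zero (hA : AB L a h E) (U : Set ℝ) (x : ℝ) (hx : x ∉ E) : vm L p a U x = 0 := by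
  unfold vm
  refine Finset.sum_eq_zero fun j hj => ?_
  by_cases hm : x ∈ p j ⁻¹' U
  · rw [indicator_of_mem hm, hA.z j (Finset.mem_range.1 hj) x hx, norm_zero,
      Real.zero_rpow (by norm_num)]
  · rw [indicator_of_notMem hm]

lemma meas_up (s : Tile) : MeasurableSet s.up := measurableSet_Ico

lemma meas_act (hP : PQ L p q) (s : Tile) (j : ℕ) : MeasurableSet (Act p q s j) := by
  have h1 : MeasurableSet (p j ⁻¹' s.up) := hP.mp j (meas_up s)
  have h2 : MeasurableSet {x | 5 / 4 ≤ (2 : ℝ) ^ s.k * (p j x - q j x)} :=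
    measurableSet_le measurable_const (((hP.mp j).sub (hP.mq j)).const_mul _)
  exact h1.inter h2

lemma sum_le (I : Finset Tile) (U : Tile → Set ℝ) (V : Set ℝ) (x : ℝ)
    (hd : ∀ s ∈ I, ∀ t ∈ I, s ≠ t → Disjoint (U s) (U t)) (hV : ∀ s ∈ I, U s ⊆ V) :
    ∑ s ∈ I, vm L p a (U s) x ≤ vm L p a V x := by
  unfold vm
  rw [Finset.sum_comm]
  refine Finset.sum_le_sum fun j _ => ?_
  by_cases hex : ∃ s ∈ I, x ∈ p j ⁻¹' U s
  · obtain ⟨s, hs, hx⟩ := hex
    rw [Finset.sum_eq_single s]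
    · have hxV : x ∈ p j ⁻¹' V := hV s hs hx
      rw [indicator_of_mem hx, indicator_of_mem hxV]
    · intro t ht hts
      refine indicator_of_notMem (fun h1 => ?_) _
      exact Set.disjoint_left.1 (hd t ht s hs hts) h1 hx
    · intro h1
      exact absurd hs h1
  · push Not at hex
    rw [Finset.sum_eq_zero fun s hs => indicator_of_notMem (hex s hs) _]
    exact term_nonneg V j x

end VBAS_

open VBAS_ in
theorem p_VBAS : T_VBAS := by
  intro L p q a h E hP hA
  refine ⟨fun s i j x hi hj h1 h2 => uniq hP hi hj h1 h2, fun s x => vc_le hP s x,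
    fun U V x hUV => vm_mono x hUV,
    fun U x => ⟨vm_nonneg U x, vm_le hA U x, fun hx => vm_zero hA U x hx⟩, fun s => ?_,
    fun U hU => ?_, fun I U V x hd hV => sum_le I U V x hd hV⟩
  · unfold vc
    exact Finset.measurable_fun_sum _ fun j _ => (hA.ma j).indicator (meas_act hP s j)
  · unfold vm
    exact Finset.measurable_fun_sum _ fun j _ =>
      (((hA.ma j).norm.pow_const _).indicator (hP.mp j hU))

end Pool.Agent.VRC
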