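import Pool.Agent.VRC.Targets
import Pool.Agent.CAR.P_CARL

set_option autoImplicit false

/-!
# VRC: the linearised theorem by absorption (VCAR)
-/

namespace Pool.Agent.VRC

open MeasureTheory Set ComplexConjugate Filter Topology
open scoped ENNReal NNReal
open Pool.Agent.CAR

namespace VCAR_

/-- the truncated Fourier integral -/
noncomputable def II (g : ℝ → ℂ) (a b x : ℝ) : ℂ := ∫ ξ in Ico a b, g ξ * e1 (x * ξ)

theorem int_g {g : ℝ → ℂ} (hg : GG2 g) {φ : ℝ → ℝ} (hφ : Measurable φ) {D : ℝ}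
    (hD : ∀ ξ, |φ ξ| ≤ D) (x : ℝ) : Integrable (fun ξ => g ξ * (φ ξ : ℂ) * e1 (x * ξ)) := by
  refine (hg.ig.norm.mul_const D).mono' ?_ (ae_of_all _ fun ξ => ?_)
  · have h1 : Measurable (fun ξ => e1 (x * ξ)) :=
      (LIM_.cont_e1.comp (continuous_const.mul continuous_id)).measurable
    exact ((hg.mg.mul (Complex.measurable_ofReal.comp hφ)).mul h1).aestronglyMeasurable
  · rw [norm_mul, norm_mul, LIM_.norm_e1, mul_one, Complex.norm_real, Real.norm_eq_abs]
    exact mul_le_mul_of_nonneg_left (hD ξ) (norm_nonneg _)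

theorem int_g1 {g : ℝ → ℂ} (hg : GG2 g) (x : ℝ) : Integrable (fun ξ => g ξ * e1 (x * ξ)) := by
  have h := int_g hg (φ := fun _ => 1) measurable_const (D := 1) (fun _ => by simp) x
  simpa using h

theorem norm_II {g : ℝ → ℂ} (hg : GG2 g) (a b x : ℝ) : ‖II g a b x‖ ≤ ∫ ξ, ‖g ξ‖ := by
  unfold II
  refine (norm_integral_le_integral_norm _).trans ?_
  have h1 : ∀ ξ, ‖g ξ * e1 (x * ξ)‖ = ‖g ξ‖ := fun ξ => by
    rw [norm_mul, LIM_.norm_e1, mul_one]
  simp only [h1]
  exact setIntegral_le_integral hg.ig.norm (ae_of_all _ fun ξ => norm_nonneg _)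

/-! ### the multiplier -/

theorem cont_B {ρ : ℝ → ℝ} (h : Continuous ρ) : Continuous (fun w : ℝ => Bt ρ 1 w) :=
  (LIM_.cont_Bt h).comp (continuous_const.prodMk continuous_id)

theorem supp_B {A : ℝ} {ρ : ℝ → ℝ} (h : Bmp A ρ) {w : ℝ} (hw : w ∉ Icc (1 / 8 : ℝ) (7 / 8)) :
    Bt ρ 1 w = 0 := by
  unfold Bt
  have h1 : ∀ u ∈ Set.uIcc (1 / 2 : ℝ) 1, ρ (u - 1 * w) ^ 2 = 0 := by
    intro u hu
    rw [Set.uIcc_of_le (by norm_num)] at hu
    have h2 : ρ (u - 1 * w) = 0 := by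
      by_contra hne
      have h3 := h.supp _ hne
      apply hw
      constructor
      · linarith [h3.2, hu.1]
      · linarith [h3.1, hu.2]
    rw [h2]
    norm_num
  rw [intervalIntegral.integral_congr (g := fun _ => (0 : ℝ)) h1]
  simp

theorem meas_f {ρ : ℝ → ℝ} (h : Continuous ρ) : Measurable (fun w : ℝ => Bt ρ 1 w / w) :=
  (cont_B h).measurable.div measurable_id

theorem int_f {A : ℝ} {ρ : ℝ → ℝ} (h : Bmp A ρ) : Integrable (fun w : ℝ => Bt ρ 1 w / w) := by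
  have hs : Function.support (fun w : ℝ => Bt ρ 1 w / w) ⊆ Icc (1 / 8 : ℝ) (7 / 8) := by
    intro w hw
    by_contra hne
    apply hw
    show Bt ρ 1 w / w = 0
    rw [supp_B h hne, zero_div]
  rw [← integrableOn_iff_integrable_of_support_subset hs]
  refine ContinuousOn.integrableOn_Icc ?_
  refine (cont_B h.cont).continuousOn.div continuousOn_id ?_
  intro w hw
  have h1 := hw.1
  have h2 : (0 : ℝ) < w := by linarith
  exact h2.ne'

theorem Gm_bdd {A : ℝ} {ρ : ℝ → ℝ} (h : Bmp A ρ) : ∃ D : ℝ, 0 ≤ D ∧ ∀ z, |Gm ρ z| ≤ D := by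
  have hlog : 0 < Real.log 2 := Real.log_pos (by norm_num)
  have h0 : 0 ≤ ∫ w, ‖Bt ρ 1 w / w‖ := integral_nonneg fun _ => norm_nonneg _
  refine ⟨(∫ w, ‖Bt ρ 1 w / w‖) / Real.log 2, by positivity, fun z => ?_⟩
  unfold Gm
  split_ifs with hz
  · rw [abs_div, abs_of_pos hlog]
    refine div_le_div_of_nonneg_right ?_ hlog.le
    rw [← Real.norm_eq_abs]
    refine (norm_integral_le_integral_norm _).trans ?_
    exact setIntegral_le_integral (int_f h).norm (ae_of_all _ fun ξ => norm_nonneg _)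
  · rw [abs_zero]
    positivity

theorem Gm_meas {ρ : ℝ → ℝ} (h : Continuous ρ) : Measurable (Gm ρ) := by
  have hS : MeasurableSet {r : ℝ × ℝ | 5 / 4 * r.1 < r.2} :=
    measurableSet_lt (measurable_const.mul measurable_fst) measurable_snd
  have h1 : StronglyMeasurable (fun r : ℝ × ℝ =>
      {r : ℝ × ℝ | 5 / 4 * r.1 < r.2}.indicator (fun r => Bt ρ 1 r.2 / r.2) r) :=
    (((meas_f h).comp measurable_snd).indicator hS).stronglyMeasurable
  have h2 := h1.integral_prod_right' (ν := (volume : Measure ℝ))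
  have h3 : (fun z : ℝ => ∫ w in Ioi (5 / 4 * z), Bt ρ 1 w / w) = fun z : ℝ =>
      ∫ w, {r : ℝ × ℝ | 5 / 4 * r.1 < r.2}.indicator (fun r => Bt ρ 1 r.2 / r.2) (z, w) := by
    funext z
    rw [← integral_indicator measurableSet_Ioi]
    rfl
  have h4 : Measurable (fun z : ℝ => ∫ w in Ioi (5 / 4 * z), Bt ρ 1 w / w) := by
    rw [h3]
    exact h2.measurable
  unfold Gm
  exact Measurable.ite (measurableSet_lt measurable_const measurable_id) (h4.div_const _)
    measurable_const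

/-! ### the pointwise identity -/

theorem point {A : ℝ} {ρ : ℝ → ℝ} {c : ℝ} (hB : Bmp A ρ)
    (hi : IntegrableOn (bp ρ) (Ioo 0 1)) (h0 : ∫ w in Ioo (0 : ℝ) 1, bp ρ w = 0)
    (hid : ∀ z : ℝ, (Ioo (0 : ℝ) 1).indicator (fun _ => c) z - Gm ρ z - Gm ρ (1 - z) =
      ∫ w in Ioo (0 : ℝ) 1 ∩ Iio z, bp ρ w) {g : ℝ → ℂ} (hg : GG2 g) {p q : ℝ} (hpq : q ≤ p)
    (x : ℝ) : (c : ℂ) * II g q p x =
      (∫ ξ, g ξ * (Gm ρ ((p - ξ) / (p - q)) : ℂ) * e1 (x * ξ)) +
      (∫ ξ, g ξ * (Gm ρ ((ξ - q) / (p - q)) : ℂ) * e1 (x * ξ)) +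
      ∫ w in Ioo (0 : ℝ) 1, (bp ρ w : ℂ) * II g q (p - w * (p - q)) x := by
  obtain ⟨D, hD0, hD⟩ := Gm_bdd hB
  rcases eq_or_lt_of_le hpq with rfl | hlt
  · have hG0 : Gm ρ 0 = 0 := by
      unfold Gm
      simp
    simp [II, hG0]
  have hd : 0 < p - q := by linarith
  have i1 := int_g hg (φ := fun ξ => Gm ρ ((p - ξ) / (p - q)))
    ((Gm_meas hB.cont).comp ((measurable_const.sub measurable_id).div_const _)) (fun ξ => hD _) x
  have i2 := int_g hg (φ := fun ξ => Gm ρ ((ξ - q) / (p - q)))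
    ((Gm_meas hB.cont).comp ((measurable_id.sub measurable_const).div_const _)) (fun ξ => hD _) x
  -- the third term
  have hG := int_g1 hg x
  have hbc : Integrable (fun w => (bp ρ w : ℂ)) (volume.restrict (Ioo (0 : ℝ) 1)) := hi.ofReal
  have hS : MeasurableSet {r : ℝ × ℝ | r.2 < p - r.1 * (p - q)} :=
    measurableSet_lt measurable_snd
      (measurable_const.sub (measurable_fst.mul measurable_const))
  have hprod : Integrable (Function.uncurry fun w ξ : ℝ =>
      {r : ℝ × ℝ | r.2 < p - r.1 * (p - q)}.indicator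
        (fun r => (bp ρ r.1 : ℂ) * (g r.2 * e1 (x * r.2))) (w, ξ))
      ((volume.restrict (Ioo (0 : ℝ) 1)).prod volume) := by
    exact (hbc.mul_prod hG).indicator hS
  have hsw := integral_integral_swap hprod
  have e1' : ∀ w ∈ Ioo (0 : ℝ) 1, (bp ρ w : ℂ) * II g q (p - w * (p - q)) x =
      (∫ ξ, {r : ℝ × ℝ | r.2 < p - r.1 * (p - q)}.indicator
        (fun r => (bp ρ r.1 : ℂ) * (g r.2 * e1 (x * r.2))) (w, ξ)) -
      (bp ρ w : ℂ) * ∫ ξ in Iio q, g ξ * e1 (x * ξ) := by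
    intro w hw
    have hqw : q ≤ p - w * (p - q) := by nlinarith [hw.2]
    have h1 : (∫ ξ, {r : ℝ × ℝ | r.2 < p - r.1 * (p - q)}.indicator
        (fun r => (bp ρ r.1 : ℂ) * (g r.2 * e1 (x * r.2))) (w, ξ)) =
        (bp ρ w : ℂ) * ∫ ξ in Iio (p - w * (p - q)), g ξ * e1 (x * ξ) := by
      rw [← integral_const_mul, ← integral_indicator measurableSet_Iio]
      rfl
    have h2 : (∫ ξ in Iio (p - w * (p - q)), g ξ * e1 (x * ξ)) =
        (∫ ξ in Iio q, g ξ * e1 (x * ξ)) + II g q (p - w * (p - q)) x := by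
      unfold II
      rw [← setIntegral_union (by
          rw [Set.disjoint_left]
          intro y hy hy'
          exact absurd hy'.1 (not_le.2 hy)) measurableSet_Ico hG.integrableOn hG.integrableOn,
        Iio_union_Ico_eq_Iio hqw]
    rw [h1, h2]
    ring
  have i3 : Integrable (fun w => ∫ ξ, {r : ℝ × ℝ | r.2 < p - r.1 * (p - q)}.indicator
        (fun r => (bp ρ r.1 : ℂ) * (g r.2 * e1 (x * r.2))) (w, ξ))
        (volume.restrict (Ioo (0 : ℝ) 1)) := hprod.integral_prod_left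
  have e2 : (∫ w in Ioo (0 : ℝ) 1, (bp ρ w : ℂ) * II g q (p - w * (p - q)) x) =
      ∫ ξ, ∫ w in Ioo (0 : ℝ) 1, {r : ℝ × ℝ | r.2 < p - r.1 * (p - q)}.indicator
        (fun r => (bp ρ r.1 : ℂ) * (g r.2 * e1 (x * r.2))) (w, ξ) := by
    rw [setIntegral_congr_fun measurableSet_Ioo e1', integral_sub i3 (hbc.mul_const _),
      integral_mul_const, integral_complex_ofReal, h0, hsw]
    simp
  have e3 : ∀ ξ, (∫ w in Ioo (0 : ℝ) 1, {r : ℝ × ℝ | r.2 < p - r.1 * (p - q)}.indicator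
        (fun r => (bp ρ r.1 : ℂ) * (g r.2 * e1 (x * r.2))) (w, ξ)) =
        ((∫ w in Ioo (0 : ℝ) 1 ∩ Iio ((p - ξ) / (p - q)), bp ρ w : ℝ) : ℂ) *
          (g ξ * e1 (x * ξ)) := by
    intro ξ
    rw [← integral_complex_ofReal, ← integral_mul_const, ← integral_indicator
      (measurableSet_Ioo.inter measurableSet_Iio), ← integral_indicator measurableSet_Ioo]
    refine integral_congr_ae (ae_of_all _ fun w => ?_)
    have hiff : ξ < p - w * (p - q) ↔ w < (p - ξ) / (p - q) := by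
      rw [lt_div_iff₀ hd]
      constructor <;> intro h <;> linarith
    by_cases hw : w ∈ Ioo (0 : ℝ) 1
    · by_cases hw2 : w < (p - ξ) / (p - q)
      · have h1 : (w, ξ) ∈ {r : ℝ × ℝ | r.2 < p - r.1 * (p - q)} := hiff.2 hw2
        have h2 : w ∈ Ioo (0 : ℝ) 1 ∩ Iio ((p - ξ) / (p - q)) := ⟨hw, hw2⟩
        simp only [indicator_of_mem hw, indicator_of_mem h1, indicator_of_mem h2]
      · have h1 : (w, ξ) ∉ {r : ℝ × ℝ | r.2 < p - r.1 * (p - q)} := fun h => hw2 (hiff.1 h)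
        have h2 : w ∉ Ioo (0 : ℝ) 1 ∩ Iio ((p - ξ) / (p - q)) := fun h => hw2 h.2
        simp only [indicator_of_mem hw, indicator_of_notMem h1, indicator_of_notMem h2]
    · have h2 : w ∉ Ioo (0 : ℝ) 1 ∩ Iio ((p - ξ) / (p - q)) := fun h => hw h.1
      simp only [indicator_of_notMem hw, indicator_of_notMem h2]
  have i4 : Integrable (fun ξ => ((∫ w in Ioo (0 : ℝ) 1 ∩ Iio ((p - ξ) / (p - q)), bp ρ w : ℝ) :
      ℂ) * (g ξ * e1 (x * ξ))) := by
    have := hprod.swap.integral_prod_left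
    refine this.congr (ae_of_all _ fun ξ => ?_)
    exact e3 ξ
  have i12 : Integrable (fun ξ => g ξ * (Gm ρ ((p - ξ) / (p - q)) : ℂ) * e1 (x * ξ) +
      g ξ * (Gm ρ ((ξ - q) / (p - q)) : ℂ) * e1 (x * ξ)) := i1.add i2
  rw [e2, integral_congr_ae (ae_of_all _ e3), ← integral_add i1 i2, ← integral_add i12 i4]
  unfold II
  rw [integral_Ico_eq_integral_Ioo, ← integral_const_mul, ← integral_indicator measurableSet_Ioo]
  refine integral_congr_ae (ae_of_all _ fun ξ => ?_)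
  have h5 := hid ((p - ξ) / (p - q))
  have h6 : 1 - (p - ξ) / (p - q) = (ξ - q) / (p - q) := by
    field_simp
    ring
  rw [h6] at h5
  simp only
  rw [← h5]
  by_cases hξ : ξ ∈ Ioo q p
  · have h7 : (p - ξ) / (p - q) ∈ Ioo (0 : ℝ) 1 := by
      constructor
      · exact div_pos (by linarith [hξ.2]) hd
      · rw [div_lt_one hd]
        linarith [hξ.1]
    rw [indicator_of_mem hξ, indicator_of_mem h7]
    push_cast
    ring
  · have h7 : (p - ξ) / (p - q) ∉ Ioo (0 : ℝ) 1 := by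
      intro h8
      apply hξ
      have h9 := h8.1
      have h10 := h8.2
      rw [div_lt_one hd] at h10
      rw [lt_div_iff₀ hd] at h9
      constructor <;> linarith
    rw [indicator_of_notMem hξ, indicator_of_notMem h7]
    push_cast
    ring

/-! ### the weights -/

theorem a_le {L : ℕ} {a : ℕ → ℝ → ℂ} {h : ℝ} {E : Set ℝ} (hA : AB L a h E) {j : ℕ} (hj : j < L)
    (x : ℝ) : ‖a j x‖ ≤ h := by
  have h1 := hA.bd x
  have h2 : ‖a j x‖ ^ (4 / 3 : ℝ) ≤ ∑ j ∈ Finset.range L, ‖a j x‖ ^ (4 / 3 : ℝ) :=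
    Finset.single_le_sum (f := fun j => ‖a j x‖ ^ (4 / 3 : ℝ))
      (fun i _ => Real.rpow_nonneg (norm_nonneg _) _) (Finset.mem_range.2 hj)
  exact (Real.rpow_le_rpow_iff (norm_nonneg _) hA.h0 (by norm_num)).1 (h2.trans h1)

theorem a_amp {L : ℕ} {a : ℕ → ℝ → ℂ} {j : ℕ} (hj : j < L) (x : ℝ) : ‖a j x‖ ≤ amp L a x := by
  have h2 : ‖a j x‖ ^ (4 / 3 : ℝ) ≤ ∑ j ∈ Finset.range L, ‖a j x‖ ^ (4 / 3 : ℝ) :=
    Finset.single_le_sum (f := fun j => ‖a j x‖ ^ (4 / 3 : ℝ))
      (fun i _ => Real.rpow_nonneg (norm_nonneg _) _) (Finset.mem_range.2 hj)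
  have h3 := Real.rpow_le_rpow (Real.rpow_nonneg (norm_nonneg _) _) h2
    (by norm_num : (0 : ℝ) ≤ 3 / 4)
  rw [← Real.rpow_mul (norm_nonneg _)] at h3
  norm_num at h3
  exact h3

theorem amp_nn {L : ℕ} {a : ℕ → ℝ → ℂ} (x : ℝ) : 0 ≤ amp L a x :=
  Real.rpow_nonneg (Finset.sum_nonneg fun _ _ => Real.rpow_nonneg (norm_nonneg _) _) _

theorem amp_le {L : ℕ} {a : ℕ → ℝ → ℂ} {h : ℝ} {E : Set ℝ} (hA : AB L a h E) (x : ℝ) :
    amp L a x ≤ E.indicator (fun _ => h) x := by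
  by_cases hx : x ∈ E
  · rw [indicator_of_mem hx]
    have h3 := Real.rpow_le_rpow (Finset.sum_nonneg fun i _ =>
      Real.rpow_nonneg (norm_nonneg _) _) (hA.bd x) (by norm_num : (0 : ℝ) ≤ 3 / 4)
    rw [← Real.rpow_mul hA.h0] at h3
    norm_num at h3
    exact h3
  · rw [indicator_of_notMem hx]
    unfold amp
    rw [Finset.sum_eq_zero, Real.zero_rpow (by norm_num)]
    intro j hj
    rw [hA.z j (Finset.mem_range.1 hj) x hx, norm_zero, Real.zero_rpow (by norm_num)]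

theorem ind_int {E : Set ℝ} (hE : MeasurableSet E) (hf : volume E ≠ ⊤) (h : ℝ) :
    Integrable (E.indicator (fun _ : ℝ => h)) :=
  (integrable_indicator_iff hE).2 (integrableOn_const hf)

theorem a_int {L : ℕ} {a : ℕ → ℝ → ℂ} {h : ℝ} {E : Set ℝ} (hA : AB L a h E) {j : ℕ}
    (hj : j < L) : Integrable (a j) := by
  refine (ind_int hA.mE hA.fE h).mono' (hA.ma j).aestronglyMeasurable (ae_of_all _ fun x => ?_)
  exact (a_amp hj x).trans (amp_le hA x)

theorem amp_sq_int {L : ℕ} {a : ℕ → ℝ → ℂ} {h : ℝ} {E : Set ℝ} (hA : AB L a h E) :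
    Integrable (fun x => amp L a x ^ 2) := by
  refine (ind_int hA.mE hA.fE (h ^ 2)).mono' ?_ (ae_of_all _ fun x => ?_)
  · have h1 : Measurable (fun x => amp L a x) := by
      unfold amp
      exact (Finset.measurable_sum _ fun j _ => (hA.ma j).norm.pow_const _).pow_const _
    exact (h1.pow_const 2).aestronglyMeasurable
  · rw [Real.norm_eq_abs, abs_of_nonneg (sq_nonneg _)]
    have h1 := pow_le_pow_left₀ (amp_nn x) (amp_le hA x) 2
    refine h1.trans (le_of_eq ?_)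
    by_cases hx : x ∈ E
    · simp only [indicator_of_mem hx]
    · simp only [indicator_of_notMem hx]
      norm_num

theorem n2_le {L : ℕ} {a : ℕ → ℝ → ℂ} {h : ℝ} {E : Set ℝ} (hA : AB L a h E) {j : ℕ}
    (hj : j < L) : n2 (a j) ≤ na L a := by
  unfold n2 na
  refine Real.sqrt_le_sqrt ?_
  refine integral_mono_of_nonneg (ae_of_all _ fun x => sq_nonneg _) (amp_sq_int hA)
    (ae_of_all _ fun x => ?_)
  exact pow_le_pow_left₀ (norm_nonneg _) (a_amp hj x) 2

/-- the estimate with the constant `Θ` -/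
def Bd (L : ℕ) (Θ : ℝ) : Prop := ∀ (g : ℝ → ℂ) (p q : ℕ → ℝ → ℝ) (a : ℕ → ℝ → ℂ) (h : ℝ)
  (E : Set ℝ), GG2 g → PQ L p q → AB L a h E →
    ‖∫ x, ∑ j ∈ Finset.range L, a j x * II g (q j x) (p j x) x‖ ≤ Θ * n2 g * na L a

/-! ### measurability -/

theorem meas_II {α : Type} [MeasurableSpace α] {g : ℝ → ℂ} (hg : GG2 g) {u v w : α → ℝ}
    (hu : Measurable u) (hv : Measurable v) (hw : Measurable w) :
    StronglyMeasurable (fun z => II g (u z) (v z) (w z)) := by
  have hS : MeasurableSet {r : α × ℝ | u r.1 ≤ r.2 ∧ r.2 < v r.1} :=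
    (measurableSet_le (hu.comp measurable_fst) measurable_snd).inter
      (measurableSet_lt measurable_snd (hv.comp measurable_fst))
  have h0 : Measurable (fun r : α × ℝ => g r.2 * e1 (w r.1 * r.2)) :=
    (hg.mg.comp measurable_snd).mul
      (LIM_.cont_e1.measurable.comp ((hw.comp measurable_fst).mul measurable_snd))
  have h1 : StronglyMeasurable (fun r : α × ℝ =>
      {r : α × ℝ | u r.1 ≤ r.2 ∧ r.2 < v r.1}.indicator
        (fun r => g r.2 * e1 (w r.1 * r.2)) r) := (h0.indicator hS).stronglyMeasurable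
  have h2 := h1.integral_prod_right' (ν := (volume : Measure ℝ))
  have h3 : (fun z => II g (u z) (v z) (w z)) = fun z : α =>
      ∫ ξ, {r : α × ℝ | u r.1 ≤ r.2 ∧ r.2 < v r.1}.indicator
        (fun r => g r.2 * e1 (w r.1 * r.2)) (z, ξ) := by
    funext z
    unfold II
    rw [← integral_indicator measurableSet_Ico]
    rfl
  rw [h3]
  exact h2

theorem meas_M {g : ℝ → ℂ} (hg : GG2 g) {φ : ℝ × ℝ → ℝ} (hφ : Measurable φ) :
    StronglyMeasurable (fun x : ℝ => ∫ ξ, g ξ * (φ (x, ξ) : ℂ) * e1 (x * ξ)) := by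
  have h1 : StronglyMeasurable (fun r : ℝ × ℝ => g r.2 * (φ r : ℂ) * e1 (r.1 * r.2)) :=
    (((hg.mg.comp measurable_snd).mul (Complex.measurable_ofReal.comp hφ)).mul
      (LIM_.cont_e1.measurable.comp (measurable_fst.mul measurable_snd))).stronglyMeasurable
  exact h1.integral_prod_right' (ν := (volume : Measure ℝ))

theorem norm_M {g : ℝ → ℂ} (hg : GG2 g) {φ : ℝ → ℝ} {D : ℝ} (hD : ∀ ξ, |φ ξ| ≤ D) (x : ℝ) :
    ‖∫ ξ, g ξ * (φ ξ : ℂ) * e1 (x * ξ)‖ ≤ (∫ ξ, ‖g ξ‖) * D := by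
  refine (norm_integral_le_of_norm_le (hg.ig.norm.mul_const D) (ae_of_all _ fun ξ => ?_)).trans
    (le_of_eq (integral_mul_const _ _))
  rw [norm_mul, norm_mul, LIM_.norm_e1, mul_one, Complex.norm_real, Real.norm_eq_abs]
  exact mul_le_mul_of_nonneg_left (hD ξ) (norm_nonneg _)

theorem int_sum {L : ℕ} {a : ℕ → ℝ → ℂ} {h : ℝ} {E : Set ℝ} (hA : AB L a h E)
    {F : ℕ → ℝ → ℂ} (hF : ∀ j, StronglyMeasurable (F j)) {D : ℝ} (hD : ∀ j x, ‖F j x‖ ≤ D) :
    Integrable (fun x => ∑ j ∈ Finset.range L, a j x * F j x) := by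
  refine integrable_finsetSum _ fun j hj => ?_
  refine ((a_int hA (Finset.mem_range.1 hj)).norm.mul_const D).mono'
    ((hA.ma j).aestronglyMeasurable.mul (hF j).aestronglyMeasurable) (ae_of_all _ fun x => ?_)
  rw [norm_mul]
  exact mul_le_mul_of_nonneg_left (hD j x) (norm_nonneg _)

/-! ### the a priori bound -/

theorem start {C : ℝ} (hC : 0 < C) (hL : ∀ (g b : ℝ → ℂ) (N : ℝ → ℝ) (E : Set ℝ), Dat g b N E →
    ‖∫ x, b x * ∫ ξ in Iio (N x), g ξ * e1 (x * ξ)‖ ≤ C * n2 g * n2 b) (L : ℕ) :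
    Bd L (2 * L * C) := by
  intro g p q a h E hg hPQ hA
  have hn2 : 0 ≤ n2 g := Real.sqrt_nonneg _
  -- one term
  have one : ∀ (N : ℝ → ℝ) (j : ℕ), Measurable N → j < L →
      ‖∫ x, a j x * ∫ ξ in Iio (N x), g ξ * e1 (x * ξ)‖ ≤ C * n2 g * na L a := by
    intro N j hN hj
    rcases eq_or_lt_of_le hA.h0 with h0 | h0
    · have h1 : ∀ x, a j x = 0 := by
        intro x
        have h2 := a_le hA hj x
        rw [← h0] at h2
        exact norm_le_zero_iff.1 h2
      simp only [h1, zero_mul, integral_zero, norm_zero]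
      have : 0 ≤ na L a := Real.sqrt_nonneg _
      positivity
    · have hb : Dat g (fun x => ((h⁻¹ : ℝ) : ℂ) * a j x) N E := by
        refine ⟨hg.mg, hg.ig, hg.sg, (hA.ma j).const_mul _, ?_, ?_, hN, hA.mE, hA.fE⟩
        · intro x _
          rw [norm_mul, Complex.norm_real, Real.norm_eq_abs, abs_of_pos (inv_pos.2 h0),
            inv_mul_le_iff₀ h0, mul_one]
          exact a_le hA hj x
        · intro x hx
          rw [hA.z j hj x hx, mul_zero]
      have h1 := hL g _ N E hb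
      have h2 : (∫ x, ((h⁻¹ : ℝ) : ℂ) * a j x * ∫ ξ in Iio (N x), g ξ * e1 (x * ξ)) =
          ((h⁻¹ : ℝ) : ℂ) * ∫ x, a j x * ∫ ξ in Iio (N x), g ξ * e1 (x * ξ) := by
        rw [← integral_const_mul]
        exact integral_congr_ae (ae_of_all _ fun x => mul_assoc _ _ _)
      have h3 : n2 (fun x => ((h⁻¹ : ℝ) : ℂ) * a j x) = h⁻¹ * n2 (a j) := by
        unfold n2
        have h4 : ∀ x, ‖((h⁻¹ : ℝ) : ℂ) * a j x‖ ^ 2 = h⁻¹ ^ 2 * ‖a j x‖ ^ 2 := by
          intro x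
          rw [norm_mul, Complex.norm_real, Real.norm_eq_abs, abs_of_pos (inv_pos.2 h0), mul_pow]
        simp only [h4]
        rw [integral_const_mul, Real.sqrt_mul (sq_nonneg _), Real.sqrt_sq (inv_pos.2 h0).le]
      rw [h2, h3, norm_mul, Complex.norm_real, Real.norm_eq_abs, abs_of_pos (inv_pos.2 h0)] at h1
      have h5 : h⁻¹ * ‖∫ x, a j x * ∫ ξ in Iio (N x), g ξ * e1 (x * ξ)‖ ≤
          h⁻¹ * (C * n2 g * n2 (a j)) := by
        refine h1.trans (le_of_eq ?_)
        ring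
      have h6 := le_of_mul_le_mul_left h5 (inv_pos.2 h0)
      exact h6.trans (mul_le_mul_of_nonneg_left (n2_le hA hj) (by positivity))
  -- measurability of the half line integrals
  have hmI : ∀ N : ℝ → ℝ, Measurable N →
      StronglyMeasurable (fun x : ℝ => ∫ ξ in Iio (N x), g ξ * e1 (x * ξ)) := by
    intro N hN
    have hS : MeasurableSet {r : ℝ × ℝ | r.2 < N r.1} :=
      measurableSet_lt measurable_snd (hN.comp measurable_fst)
    have h0 : Measurable (fun r : ℝ × ℝ => g r.2 * e1 (r.1 * r.2)) :=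
      (hg.mg.comp measurable_snd).mul
        (LIM_.cont_e1.measurable.comp (measurable_fst.mul measurable_snd))
    have h1 : StronglyMeasurable (fun r : ℝ × ℝ => {r : ℝ × ℝ | r.2 < N r.1}.indicator
        (fun r => g r.2 * e1 (r.1 * r.2)) r) := (h0.indicator hS).stronglyMeasurable
    have h2 := h1.integral_prod_right' (ν := (volume : Measure ℝ))
    have h3 : (fun x : ℝ => ∫ ξ in Iio (N x), g ξ * e1 (x * ξ)) = fun x : ℝ =>
        ∫ ξ, {r : ℝ × ℝ | r.2 < N r.1}.indicator (fun r => g r.2 * e1 (r.1 * r.2)) (x, ξ) := by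
      funext z
      rw [← integral_indicator measurableSet_Iio]
      rfl
    rw [h3]
    exact h2
  have hnI : ∀ (N : ℝ → ℝ) (x : ℝ), ‖∫ ξ in Iio (N x), g ξ * e1 (x * ξ)‖ ≤ ∫ ξ, ‖g ξ‖ := by
    intro N x
    refine (norm_integral_le_integral_norm _).trans ?_
    have h1 : ∀ ξ, ‖g ξ * e1 (x * ξ)‖ = ‖g ξ‖ := fun ξ => by
      rw [norm_mul, LIM_.norm_e1, mul_one]
    simp only [h1]
    exact setIntegral_le_integral hg.ig.norm (ae_of_all _ fun ξ => norm_nonneg _)
  have hiI : ∀ (N : ℝ → ℝ) (j : ℕ), Measurable N → j < L →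
      Integrable (fun x => a j x * ∫ ξ in Iio (N x), g ξ * e1 (x * ξ)) := by
    intro N j hN hj
    refine ((a_int hA hj).norm.mul_const (∫ ξ, ‖g ξ‖)).mono'
      ((hA.ma j).aestronglyMeasurable.mul (hmI N hN).aestronglyMeasurable)
      (ae_of_all _ fun x => ?_)
    rw [norm_mul]
    exact mul_le_mul_of_nonneg_left (hnI N x) (norm_nonneg _)
  have hsplit : ∀ j < L, ∀ x, a j x * II g (q j x) (p j x) x =
      a j x * (∫ ξ in Iio (p j x), g ξ * e1 (x * ξ)) -
      a j x * ∫ ξ in Iio (q j x), g ξ * e1 (x * ξ) := by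
    intro j hj x
    have hG := int_g1 hg x
    have h2 : (∫ ξ in Iio (p j x), g ξ * e1 (x * ξ)) =
        (∫ ξ in Iio (q j x), g ξ * e1 (x * ξ)) + II g (q j x) (p j x) x := by
      unfold II
      rw [← setIntegral_union (by
          rw [Set.disjoint_left]
          intro y hy hy'
          exact absurd hy'.1 (not_le.2 hy)) measurableSet_Ico hG.integrableOn hG.integrableOn,
        Iio_union_Ico_eq_Iio (hPQ.le j hj x)]
    rw [h2]
    ring
  have h1 : (∫ x, ∑ j ∈ Finset.range L, a j x * II g (q j x) (p j x) x) =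
      ∑ j ∈ Finset.range L, ((∫ x, a j x * ∫ ξ in Iio (p j x), g ξ * e1 (x * ξ)) -
        ∫ x, a j x * ∫ ξ in Iio (q j x), g ξ * e1 (x * ξ)) := by
    rw [integral_finsetSum]
    · refine Finset.sum_congr rfl fun j hj => ?_
      have hj' := Finset.mem_range.1 hj
      rw [← integral_sub (hiI _ j (hPQ.mp j) hj') (hiI _ j (hPQ.mq j) hj')]
      exact integral_congr_ae (ae_of_all _ fun x => hsplit j hj' x)
    · intro j hj
      have hj' := Finset.mem_range.1 hj
      refine ((hiI _ j (hPQ.mp j) hj').sub (hiI _ j (hPQ.mq j) hj')).congr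
        (ae_of_all _ fun x => ?_)
      exact (hsplit j hj' x).symm
  rw [h1]
  refine (norm_sum_le _ _).trans ?_
  have h2 : ∀ j ∈ Finset.range L, ‖(∫ x, a j x * ∫ ξ in Iio (p j x), g ξ * e1 (x * ξ)) -
        ∫ x, a j x * ∫ ξ in Iio (q j x), g ξ * e1 (x * ξ)‖ ≤ 2 * (C * n2 g * na L a) := by
    intro j hj
    have hj' := Finset.mem_range.1 hj
    refine (norm_sub_le _ _).trans ?_
    have h3 := one _ j (hPQ.mp j) hj'
    have h4 := one _ j (hPQ.mq j) hj'
    linarith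
  refine (Finset.sum_le_sum h2).trans (le_of_eq ?_)
  rw [Finset.sum_const, Finset.card_range, nsmul_eq_mul]
  ring

/-! ### the absorption -/

theorem step {A : ℝ} {ρ : ℝ → ℝ} {c C₁ Θ : ℝ} (hB : Bmp A ρ) (hc : 0 < c) (hΘ : 0 ≤ Θ)
    (hi : IntegrableOn (bp ρ) (Ioo 0 1)) (h34 : ∫ w in Ioo (0 : ℝ) 1, |bp ρ w| ≤ 3 / 4 * c)
    (h0 : ∫ w in Ioo (0 : ℝ) 1, bp ρ w = 0)
    (hid : ∀ z : ℝ, (Ioo (0 : ℝ) 1).indicator (fun _ => c) z - Gm ρ z - Gm ρ (1 - z) =
      ∫ w in Ioo (0 : ℝ) 1 ∩ Iio z, bp ρ w)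
    (hR1 : RB1 ρ C₁) (hR2 : RB2 ρ C₁) {L : ℕ} (hL : Bd L Θ) :
    Bd L (2 * C₁ / c + 3 / 4 * Θ) := by
  intro g p q a h E hg hPQ hA
  obtain ⟨D, hD0, hD⟩ := Gm_bdd hB
  have hX : 0 ≤ n2 g * na L a := mul_nonneg (Real.sqrt_nonneg _) (Real.sqrt_nonneg _)
  obtain ⟨G1, hG1⟩ : ∃ G1 : ℝ, G1 = ∫ ξ, ‖g ξ‖ := ⟨_, rfl⟩
  have hG10 : 0 ≤ G1 := by
    rw [hG1]
    exact integral_nonneg fun _ => norm_nonneg _
  -- the three parts
  obtain ⟨U, hU⟩ : ∃ U : ℕ → ℝ → ℂ, U = fun j x =>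
    ∫ ξ, g ξ * (Gm ρ ((p j x - ξ) / (p j x - q j x)) : ℂ) * e1 (x * ξ) := ⟨_, rfl⟩
  obtain ⟨V, hV⟩ : ∃ V : ℕ → ℝ → ℂ, V = fun j x =>
    ∫ ξ, g ξ * (Gm ρ ((ξ - q j x) / (p j x - q j x)) : ℂ) * e1 (x * ξ) := ⟨_, rfl⟩
  obtain ⟨K, hK⟩ : ∃ K : ℕ → ℝ → ℝ → ℂ, K = fun j x w =>
    II g (q j x) (p j x - w * (p j x - q j x)) x := ⟨_, rfl⟩
  obtain ⟨W, hW⟩ : ∃ W : ℕ → ℝ → ℂ, W = fun j x =>
    ∫ w in Ioo (0 : ℝ) 1, (bp ρ w : ℂ) * K j x w := ⟨_, rfl⟩
  have mU : ∀ j, StronglyMeasurable (U j) := by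
    intro j
    rw [hU]
    exact meas_M hg (φ := fun r => Gm ρ ((p j r.1 - r.2) / (p j r.1 - q j r.1)))
      ((Gm_meas hB.cont).comp ((((hPQ.mp j).comp measurable_fst).sub measurable_snd).div
        (((hPQ.mp j).comp measurable_fst).sub ((hPQ.mq j).comp measurable_fst))))
  have mV : ∀ j, StronglyMeasurable (V j) := by
    intro j
    rw [hV]
    exact meas_M hg (φ := fun r => Gm ρ ((r.2 - q j r.1) / (p j r.1 - q j r.1)))
      ((Gm_meas hB.cont).comp ((measurable_snd.sub ((hPQ.mq j).comp measurable_fst)).div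
        (((hPQ.mp j).comp measurable_fst).sub ((hPQ.mq j).comp measurable_fst))))
  have mK : ∀ j, StronglyMeasurable (fun r : ℝ × ℝ => K j r.1 r.2) := by
    intro j
    rw [hK]
    exact meas_II hg ((hPQ.mq j).comp measurable_fst)
      (((hPQ.mp j).comp measurable_fst).sub (measurable_snd.mul
        (((hPQ.mp j).comp measurable_fst).sub ((hPQ.mq j).comp measurable_fst)))) measurable_fst
  have bU : ∀ j x, ‖U j x‖ ≤ G1 * D := by
    intro j x
    rw [hU, hG1]
    exact norm_M hg (fun ξ => hD _) x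
  have bV : ∀ j x, ‖V j x‖ ≤ G1 * D := by
    intro j x
    rw [hV, hG1]
    exact norm_M hg (fun ξ => hD _) x
  have bK : ∀ j x w, ‖K j x w‖ ≤ G1 := by
    intro j x w
    rw [hK, hG1]
    exact norm_II hg _ _ _
  have hbc : Integrable (fun w => (bp ρ w : ℂ)) (volume.restrict (Ioo (0 : ℝ) 1)) := hi.ofReal
  have iF : ∀ j < L, Integrable (fun r : ℝ × ℝ => a j r.1 * ((bp ρ r.2 : ℂ) * K j r.1 r.2))
      (volume.prod (volume.restrict (Ioo (0 : ℝ) 1))) := by
    intro j hj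
    have h1 : Integrable (fun r : ℝ × ℝ => ‖a j r.1‖ * (‖(bp ρ r.2 : ℂ)‖ * G1))
        (volume.prod (volume.restrict (Ioo (0 : ℝ) 1))) :=
      (a_int hA hj).norm.mul_prod (hbc.norm.mul_const G1)
    refine h1.mono' ?_ (ae_of_all _ fun r => ?_)
    · have m1 : AEStronglyMeasurable (fun r : ℝ × ℝ => a j r.1)
          (volume.prod (volume.restrict (Ioo (0 : ℝ) 1))) :=
        ((hA.ma j).comp measurable_fst).aestronglyMeasurable
      have m2 : AEStronglyMeasurable (fun r : ℝ × ℝ => (bp ρ r.2 : ℂ))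
          (volume.prod (volume.restrict (Ioo (0 : ℝ) 1))) := hbc.aestronglyMeasurable.comp_snd
      exact m1.mul (m2.mul (mK j).aestronglyMeasurable)
    · rw [norm_mul, norm_mul]
      exact mul_le_mul_of_nonneg_left (mul_le_mul_of_nonneg_left (bK j _ _) (norm_nonneg _))
        (norm_nonneg _)
  have iS : Integrable (Function.uncurry fun x w : ℝ =>
      ∑ j ∈ Finset.range L, a j x * ((bp ρ w : ℂ) * K j x w))
      (volume.prod (volume.restrict (Ioo (0 : ℝ) 1))) := by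
    exact integrable_finsetSum _ fun j hj => iF j (Finset.mem_range.1 hj)
  -- the identity
  have hident : ∀ x, (c : ℂ) * ∑ j ∈ Finset.range L, a j x * II g (q j x) (p j x) x =
      (∑ j ∈ Finset.range L, a j x * U j x) + (∑ j ∈ Finset.range L, a j x * V j x) +
      ∫ w in Ioo (0 : ℝ) 1, ∑ j ∈ Finset.range L, a j x * ((bp ρ w : ℂ) * K j x w) := by
    intro x
    have hiw : ∀ j, Integrable (fun w => (bp ρ w : ℂ) * K j x w)
        (volume.restrict (Ioo (0 : ℝ) 1)) := by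
      intro j
      have m1 : Measurable (fun w => K j x w) :=
        (mK j).measurable.comp (measurable_const.prodMk measurable_id)
      refine (hbc.norm.mul_const G1).mono'
        (hbc.aestronglyMeasurable.mul m1.aestronglyMeasurable) (ae_of_all _ fun w => ?_)
      rw [norm_mul]
      exact mul_le_mul_of_nonneg_left (bK j _ _) (norm_nonneg _)
    rw [integral_finsetSum _ (fun j _ => (hiw j).const_mul _), Finset.mul_sum,
      ← Finset.sum_add_distrib, ← Finset.sum_add_distrib]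
    refine Finset.sum_congr rfl fun j hj => ?_
    have h1 := point hB hi h0 hid hg (hPQ.le j (Finset.mem_range.1 hj) x) x
    rw [integral_const_mul, mul_left_comm, h1]
    rw [hU, hV, hK]
    ring
  have iU : Integrable (fun x => ∑ j ∈ Finset.range L, a j x * U j x) := int_sum hA mU bU
  have iV : Integrable (fun x => ∑ j ∈ Finset.range L, a j x * V j x) := int_sum hA mV bV
  have iW : Integrable (fun x => ∫ w in Ioo (0 : ℝ) 1,
      ∑ j ∈ Finset.range L, a j x * ((bp ρ w : ℂ) * K j x w)) := iS.integral_prod_left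
  have hsw := integral_integral_swap iS
  have iUV : Integrable (fun x => (∑ j ∈ Finset.range L, a j x * U j x) +
      ∑ j ∈ Finset.range L, a j x * V j x) := iU.add iV
  have htot : (c : ℂ) * ∫ x, ∑ j ∈ Finset.range L, a j x * II g (q j x) (p j x) x =
      (∫ x, ∑ j ∈ Finset.range L, a j x * U j x) + (∫ x, ∑ j ∈ Finset.range L, a j x * V j x) +
      ∫ w in Ioo (0 : ℝ) 1, ∫ x, ∑ j ∈ Finset.range L, a j x * ((bp ρ w : ℂ) * K j x w) := by
    rw [← hsw, ← integral_add iU iV, ← integral_add iUV iW, ← integral_const_mul]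
    exact integral_congr_ae (ae_of_all _ hident)
  have hJU : ‖∫ x, ∑ j ∈ Finset.range L, a j x * U j x‖ ≤ C₁ * n2 g * na L a := by
    rw [hU]
    exact hR1 g L p q a h E hg hPQ hA
  have hJV : ‖∫ x, ∑ j ∈ Finset.range L, a j x * V j x‖ ≤ C₁ * n2 g * na L a := by
    rw [hV]
    exact hR2 g L p q a h E hg hPQ hA
  have hJW : ‖∫ w in Ioo (0 : ℝ) 1, ∫ x, ∑ j ∈ Finset.range L,
      a j x * ((bp ρ w : ℂ) * K j x w)‖ ≤ 3 / 4 * c * (Θ * n2 g * na L a) := by
    have h1 : ∀ w ∈ Ioo (0 : ℝ) 1, ‖∫ x, ∑ j ∈ Finset.range L,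
        a j x * ((bp ρ w : ℂ) * K j x w)‖ ≤ |bp ρ w| * (Θ * n2 g * na L a) := by
      intro w hw
      have h2 : (∫ x, ∑ j ∈ Finset.range L, a j x * ((bp ρ w : ℂ) * K j x w)) =
          (bp ρ w : ℂ) * ∫ x, ∑ j ∈ Finset.range L, a j x *
            II g (q j x) (p j x - w * (p j x - q j x)) x := by
        rw [← integral_const_mul]
        refine integral_congr_ae (ae_of_all _ fun x => ?_)
        simp only
        rw [Finset.mul_sum]
        refine Finset.sum_congr rfl fun j _ => ?_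
        rw [hK]
        ring
      have hPQ' : PQ L (fun j x => p j x - w * (p j x - q j x)) q := by
        refine ⟨fun j => (hPQ.mp j).sub (measurable_const.mul ((hPQ.mp j).sub (hPQ.mq j))),
          hPQ.mq, ?_, ?_⟩
        · intro j hj x
          have := hPQ.le j hj x
          nlinarith [hw.2]
        · intro i hi j hj hij x
          have h3 := hPQ.ord i hi j hj hij x
          have h4 := hPQ.le i hi x
          nlinarith [hw.1]
      rw [h2, norm_mul, Complex.norm_real, Real.norm_eq_abs]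
      exact mul_le_mul_of_nonneg_left (hL g _ q a h E hg hPQ' hA) (abs_nonneg _)
    have hint : Integrable (fun w => |bp ρ w| * (Θ * n2 g * na L a))
        (volume.restrict (Ioo (0 : ℝ) 1)) := (Integrable.abs hi).mul_const _
    refine (norm_integral_le_of_norm_le hint ?_).trans ?_
    · exact (ae_restrict_iff' measurableSet_Ioo).2 (ae_of_all _ h1)
    · rw [integral_mul_const]
      refine mul_le_mul_of_nonneg_right h34 ?_
      rw [mul_assoc]
      exact mul_nonneg hΘ hX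
  have hfin : c * ‖∫ x, ∑ j ∈ Finset.range L, a j x * II g (q j x) (p j x) x‖ ≤
      c * ((2 * C₁ / c + 3 / 4 * Θ) * n2 g * na L a) := by
    have h1 : c * ‖∫ x, ∑ j ∈ Finset.range L, a j x * II g (q j x) (p j x) x‖ =
        ‖(c : ℂ) * ∫ x, ∑ j ∈ Finset.range L, a j x * II g (q j x) (p j x) x‖ := by
      rw [norm_mul, Complex.norm_real, Real.norm_eq_abs, abs_of_pos hc]
    rw [h1, htot]
    refine (norm_add₃_le).trans ?_
    have h2 : c * ((2 * C₁ / c + 3 / 4 * Θ) * n2 g * na L a) =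
        C₁ * n2 g * na L a + C₁ * n2 g * na L a + 3 / 4 * c * (Θ * n2 g * na L a) := by
      field_simp
      ring
    rw [h2]
    exact add_le_add (add_le_add hJU hJV) hJW
  exact le_of_mul_le_mul_left hfin hc

end VCAR_

open VCAR_ in
theorem p_VCAR (h1 : T_VLIM) (h2 : T_VREF) (h3 : T_VGB) : T_VCAR := by
  obtain ⟨A, ρ, c, hB, hc, hi, h34, h0, hid⟩ := h3
  obtain ⟨C₁, hC₁, hR1⟩ := h1 A ρ hB
  have hR2 := h2 ρ C₁ hR1
  obtain ⟨C₀, hC₀, hL⟩ := p_LIMS p_WPEX (p_SCKS (p_AVBS q_MODS q_YN)) p_BT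
  refine ⟨8 * C₁ / c, by positivity, ?_⟩
  intro g L p q a h E hg hPQ hA
  have key : ∀ k : ℕ, Bd L (8 * C₁ / c + (3 / 4 : ℝ) ^ k * (2 * L * C₀)) := by
    intro k
    induction k with
    | zero =>
      intro g p q a h E hg hPQ hA
      refine (start hC₀ hL L g p q a h E hg hPQ hA).trans ?_
      have hX : 0 ≤ n2 g * na L a := mul_nonneg (Real.sqrt_nonneg _) (Real.sqrt_nonneg _)
      have hY : 0 ≤ 8 * C₁ / c := by positivity
      have hZ : (8 * C₁ / c + (3 / 4 : ℝ) ^ 0 * (2 * L * C₀)) * n2 g * na L a =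
          8 * C₁ / c * (n2 g * na L a) + 2 * L * C₀ * n2 g * na L a := by
        rw [pow_zero]
        ring
      rw [hZ]
      exact le_add_of_nonneg_left (mul_nonneg hY hX)
    | succ k ih =>
      have h5 := step hB hc (by positivity) hi h34 h0 hid hR1 hR2 ih
      have h6 : 2 * C₁ / c + 3 / 4 * (8 * C₁ / c + (3 / 4 : ℝ) ^ k * (2 * L * C₀)) =
          8 * C₁ / c + (3 / 4 : ℝ) ^ (k + 1) * (2 * L * C₀) := by
        rw [pow_succ]
        ring
      rwa [h6] at h5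
  have hlim : Tendsto (fun k : ℕ => (8 * C₁ / c + (3 / 4 : ℝ) ^ k * (2 * L * C₀)) * n2 g *
      na L a) atTop (𝓝 ((8 * C₁ / c + 0 * (2 * L * C₀)) * n2 g * na L a)) :=
    ((tendsto_const_nhds.add ((tendsto_pow_atTop_nhds_zero_of_lt_one (by norm_num)
      (by norm_num)).mul_const _)).mul_const _).mul_const _
  rw [zero_mul, add_zero] at hlim
  exact ge_of_tendsto' hlim fun k => key k g p q a h E hg hPQ hA

end Pool.Agent.VRC
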