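import Pool.Agent.VRC.Targets4
import Pool.Agent.CRR.P_DCAR

set_option autoImplicit false

/-!
# Block DCV: discrete frequencies with gaps, 4-variation
-/

namespace Pool.Agent.VRC

open MeasureTheory FourierTransform Set Filter Topology
open scoped ENNReal NNReal
open Pool.Agent.CAR (e1)

namespace DCV_

open Pool.Agent.CRR.DCAR_

theorem int_part {γ : ℝ} (hγ : 0 < γ) (N : ℕ) {η : ℕ → ℝ} (a : ℕ → ℂ)
    (hη : ∀ i, η i + γ ≤ η (i + 1)) (t : ℝ) (p q : ℕ) (hq : q ≤ N) :
    ∫ r in Ioc (η p) (η q), hh γ N η a r * e1 (t * r) =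
      kk γ t * ∑ i ∈ Finset.Ico p q, a i * e1 (t * η i) := by
  have hm : Monotone η := monotone_nat_of_le_succ fun n => by linarith [hη n]
  have hcont : Continuous (fun r : ℝ => e1 (t * r)) :=
    e1_continuous.comp (by fun_prop)
  have h0 : ∀ r : ℝ, hh γ N η a r * e1 (t * r) = ∑ i ∈ Finset.range N,
      (Ioc (η i) (η i + γ)).indicator (fun r => (a i * ((γ⁻¹ : ℝ) : ℂ)) * e1 (t * r)) r := by
    intro r
    unfold hh
    rw [Finset.sum_mul]
    refine Finset.sum_congr rfl fun i _ => ?_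
    by_cases h : r ∈ Ioc (η i) (η i + γ)
    · rw [indicator_of_mem h, indicator_of_mem h]
    · rw [indicator_of_notMem h, indicator_of_notMem h, zero_mul]
  have hI : ∀ i, IntegrableOn (fun r : ℝ => (a i * ((γ⁻¹ : ℝ) : ℂ)) * e1 (t * r))
      (Ioc (η i) (η i + γ)) := fun i =>
    ((continuous_const.mul hcont).integrableOn_Icc).mono_set Ioc_subset_Icc_self
  rw [show (∫ r in Ioc (η p) (η q), hh γ N η a r * e1 (t * r)) =
      ∫ r in Ioc (η p) (η q), ∑ i ∈ Finset.range N,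
      (Ioc (η i) (η i + γ)).indicator (fun r => (a i * ((γ⁻¹ : ℝ) : ℂ)) * e1 (t * r)) r from
    integral_congr_ae (ae_of_all _ h0)]
  rw [integral_finsetSum _ fun i _ =>
    ((integrable_indicator_iff measurableSet_Ioc).2 (hI i)).integrableOn]
  have h1 : ∀ i, ∫ r in Ioc (η p) (η q), (Ioc (η i) (η i + γ)).indicator
      (fun r => (a i * ((γ⁻¹ : ℝ) : ℂ)) * e1 (t * r)) r =
      if p ≤ i ∧ i < q then kk γ t * (a i * e1 (t * η i)) else 0 := by
    intro i
    rw [setIntegral_indicator measurableSet_Ioc]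
    split_ifs with hi
    · have h2 : Ioc (η p) (η q) ∩ Ioc (η i) (η i + γ) = Ioc (η i) (η i + γ) := by
        refine inter_eq_self_of_subset_right fun r hr => ⟨?_, ?_⟩
        · exact lt_of_le_of_lt (hm hi.1) hr.1
        · exact hr.2.trans (eta_mono hγ.le hη hi.2)
      rw [h2, integral_const_mul]
      have h3 := int_shift γ t (η i) hγ
      have h4 : ∫ r in Ioc (η i) (η i + γ), e1 (t * r) =
          ∫ r in Ioc (η i) (η i + γ), e1 (1 * (r * t)) := by
        refine integral_congr_ae (ae_of_all _ fun r => ?_)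
        change e1 (t * r) = e1 (1 * (r * t))
        congr 1
        ring
      rw [h4, h3]
      unfold kk
      ring
    · have h2 : Ioc (η p) (η q) ∩ Ioc (η i) (η i + γ) = ∅ := by
        rw [Ioc_inter_Ioc, Ioc_eq_empty]
        rw [not_lt]
        by_cases hp : p ≤ i
        · have hqi : q ≤ i := by
            by_contra hcon
            exact hi ⟨hp, by omega⟩
          calc min (η q) (η i + γ) ≤ η q := min_le_left _ _
            _ ≤ η i := hm hqi
            _ ≤ max (η p) (η i) := le_max_right _ _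
        · calc min (η q) (η i + γ) ≤ η i + γ := min_le_right _ _
            _ ≤ η p := eta_mono hγ.le hη (by omega)
            _ ≤ max (η p) (η i) := le_max_left _ _
      rw [h2]
      simp
  rw [Finset.sum_congr rfl fun i _ => h1 i, ← Finset.sum_filter, Finset.mul_sum]
  refine Finset.sum_congr ?_ fun _ _ => rfl
  ext i
  simp only [Finset.mem_filter, Finset.mem_range, Finset.mem_Ico]
  omega

theorem gg (γ : ℝ) (N : ℕ) (η : ℕ → ℝ) (a : ℕ → ℂ) : GG2 (hh γ N η a) := by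
  have hL : ∀ p : ℝ≥0∞, MemLp (hh γ N η a) p := by
    intro p
    have h1 : MemLp (fun v => ∑ i ∈ Finset.range N, (Ioc (η i) (η i + γ)).indicator
        (fun _ => a i * ((γ⁻¹ : ℝ) : ℂ)) v) p := by
      refine memLp_finsetSum _ fun i _ => ?_
      refine memLp_indicator_const p measurableSet_Ioc _ (Or.inr ?_)
      rw [Real.volume_Ioc]
      exact ENNReal.ofReal_ne_top
    exact h1
  refine ⟨hh_meas γ N η a, memLp_one_iff_integrable.1 (hL 1), ?_⟩
  exact (memLp_two_iff_integrable_sq_norm (hh_meas γ N η a).aestronglyMeasurable).1 (hL 2)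

theorem diff {N : ℕ} (b : ℕ → ℂ) {j k : ℕ} (hjk : j ≤ k) :
    ∑ i ∈ Finset.range (min k N), b i - ∑ i ∈ Finset.range (min j N), b i =
      ∑ i ∈ Finset.Ico (min j N) (min k N), b i := by
  rw [Finset.sum_Ico_eq_sub _ (min_le_min_right N hjk)]

theorem v4_le {γ w : ℝ} (hγ : 0 < γ) (hγw : γ * w ≤ 1 / 8) (N : ℕ) {η : ℕ → ℝ} (a : ℕ → ℂ)
    (hη : ∀ i, η i + γ ≤ η (i + 1)) {t : ℝ} (ht : |t| ≤ w) :
    V4s (fun j => ∑ i ∈ Finset.range (min j N), a i * e1 (t * η i)) ≤
      2 * VC (hh γ N η a) t := by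
  have hm : Monotone η := monotone_nat_of_le_succ fun n => by linarith [hη n]
  have hk := kk_lower hγ hγw ht
  have key : ∀ j k : ℕ, j ≤ k →
      ‖∑ i ∈ Finset.range (min k N), a i * e1 (t * η i) -
        ∑ i ∈ Finset.range (min j N), a i * e1 (t * η i)‖ₑ ≤
      2 * ‖∫ ξ in Ico (η (min j N)) (η (min k N)), hh γ N η a ξ * e1 (t * ξ)‖ₑ := by
    intro j k hjk
    rw [diff (fun i => a i * e1 (t * η i)) hjk, integral_Ico_eq_integral_Ioo,
      ← integral_Ioc_eq_integral_Ioo, int_part hγ N a hη t _ _ (min_le_right _ _)]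
    rw [← ofReal_norm, ← ofReal_norm, norm_mul,
      show (2 : ℝ≥0∞) = ENNReal.ofReal 2 by simp, ← ENNReal.ofReal_mul (by norm_num)]
    refine ENNReal.ofReal_le_ofReal ?_
    nlinarith [norm_nonneg (∑ i ∈ Finset.Ico (min j N) (min k N), a i * e1 (t * η i))]
  unfold V4s
  refine iSup_le fun L => iSup_le fun s => iSup_le fun hs => ?_
  have hmono : Monotone (fun r => η (min (s r) N)) := fun x y hxy =>
    hm (min_le_min_right N (hs hxy))
  have h1 : ∑ r ∈ Finset.range L,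
      ‖∑ i ∈ Finset.range (min (s (r + 1)) N), a i * e1 (t * η i) -
        ∑ i ∈ Finset.range (min (s r) N), a i * e1 (t * η i)‖ₑ ^ 4 ≤
      2 ^ (4 : ℝ) * ∑ r ∈ Finset.range L,
        ‖∫ ξ in Ico (η (min (s r) N)) (η (min (s (r + 1)) N)),
          hh γ N η a ξ * e1 (t * ξ)‖ₑ ^ 4 := by
    rw [Finset.mul_sum]
    refine Finset.sum_le_sum fun r _ => ?_
    have h2 := key (s r) (s (r + 1)) (hs (Nat.le_succ r))
    calc _ ≤ (2 * ‖∫ ξ in Ico (η (min (s r) N)) (η (min (s (r + 1)) N)),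
          hh γ N η a ξ * e1 (t * ξ)‖ₑ) ^ 4 := pow_le_pow_left' h2 4
      _ = _ := by
          rw [mul_pow]
          congr 1
          norm_num [← ENNReal.rpow_natCast]
  calc (∑ r ∈ Finset.range L,
      ‖∑ i ∈ Finset.range (min (s (r + 1)) N), a i * e1 (t * η i) -
        ∑ i ∈ Finset.range (min (s r) N), a i * e1 (t * η i)‖ₑ ^ 4) ^ (1 / 4 : ℝ)
      ≤ (2 ^ (4 : ℝ) * ∑ r ∈ Finset.range L,
        ‖∫ ξ in Ico (η (min (s r) N)) (η (min (s (r + 1)) N)),
          hh γ N η a ξ * e1 (t * ξ)‖ₑ ^ 4) ^ (1 / 4 : ℝ) :=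
        ENNReal.rpow_le_rpow h1 (by norm_num)
    _ = 2 * (∑ r ∈ Finset.range L,
        ‖∫ ξ in Ico (η (min (s r) N)) (η (min (s (r + 1)) N)),
          hh γ N η a ξ * e1 (t * ξ)‖ₑ ^ 4) ^ (1 / 4 : ℝ) := by
        rw [ENNReal.mul_rpow_of_nonneg _ _ (by norm_num), ← ENNReal.rpow_mul]
        norm_num
    _ ≤ 2 * VC (hh γ N η a) t := by
        refine mul_le_mul_right ?_ 2
        exact le_iSup_of_le L (le_iSup_of_le (fun r => η (min (s r) N))
          (le_iSup_of_le hmono le_rfl))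

end DCV_

open DCV_ Pool.Agent.CRR.DCAR_ in
/-- **DCV**: discrete frequencies with gaps -/
theorem p_DCV (h1 : T_VC4) (h2 : T_VCS) : T_DCV := by
  intro A hA
  obtain ⟨C₀, hC₀⟩ := h1
  refine ⟨4 * C₀ * (A.toNNReal + 8), fun w g N η a hw hg hwg hη => ?_⟩
  set γ : ℝ := min g (1 / (8 * w)) with hγdef
  have hγ : 0 < γ := lt_min hg (by positivity)
  have hγg : γ ≤ g := min_le_left _ _
  have hγw : γ * w ≤ 1 / 8 := by
    have : γ ≤ 1 / (8 * w) := min_le_right _ _
    calc γ * w ≤ 1 / (8 * w) * w := mul_le_mul_of_nonneg_right this hw.le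
      _ = 1 / 8 := by field_simp
  have hη' : ∀ i, η i + γ ≤ η (i + 1) := fun i => by linarith [hη i]
  have hinv : γ⁻¹ ≤ (A + 8) * w := by
    rw [inv_le_iff_one_le_mul₀ hγ, hγdef]
    rcases le_total g (1 / (8 * w)) with h | h
    · rw [min_eq_left h]
      have h2 : 1 ≤ A * (w * g) := by
        have := mul_le_mul_of_nonneg_left hwg (by linarith : (0 : ℝ) ≤ A)
        rwa [mul_one_div_cancel (by linarith)] at this
      nlinarith [mul_pos hw hg]
    · rw [min_eq_right h]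
      have h2 : (A + 8) * w * (1 / (8 * w)) = (A + 8) / 8 := by
        field_simp
      rw [h2]
      linarith
  have hb : ∀ t ∈ Icc (-w) w,
      V4s (fun j => ∑ i ∈ Finset.range (min j N), a i * e1 (t * η i)) ^ 2 ≤
      4 * VC (hh γ N η a) t ^ 2 := by
    intro t ht
    calc _ ≤ (2 * VC (hh γ N η a) t) ^ 2 :=
          pow_le_pow_left' (v4_le hγ hγw N a hη' (abs_le.2 ⟨ht.1, ht.2⟩)) 2
      _ = _ := by
          rw [mul_pow]
          norm_num
  calc ∫⁻ t in Icc (-w) w,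
        V4s (fun j => ∑ i ∈ Finset.range (min j N), a i * e1 (t * η i)) ^ 2
      ≤ ∫⁻ t in Icc (-w) w, 4 * VC (hh γ N η a) t ^ 2 :=
        setLIntegral_mono' measurableSet_Icc hb
    _ ≤ ∫⁻ t, 4 * VC (hh γ N η a) t ^ 2 :=
        lintegral_mono' Measure.restrict_le_self le_rfl
    _ = 4 * ∫⁻ t, VC (hh γ N η a) t ^ 2 :=
        lintegral_const_mul' _ _ (by norm_num)
    _ ≤ 4 * (C₀ * ∫⁻ r, ‖hh γ N η a r‖ₑ ^ 2) := by
        gcongr
        exact hC₀ (hh γ N η a) (gg γ N η a)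
    _ ≤ 4 * (C₀ * (ENNReal.ofReal γ⁻¹ * ∑ i ∈ Finset.range N, ‖a i‖ₑ ^ 2)) := by
        gcongr
        have := hh_sq hγ N a hη' univ
        rwa [Measure.restrict_univ] at this
    _ ≤ 4 * (C₀ * (ENNReal.ofReal ((A + 8) * w) * ∑ i ∈ Finset.range N, ‖a i‖ₑ ^ 2)) := by
        gcongr
    _ = _ := by
        rw [ENNReal.ofReal_mul (by linarith), ENNReal.ofReal_add (by linarith) (by norm_num)]
        push_cast
        rw [show ENNReal.ofReal A = (A.toNNReal : ℝ≥0∞) from rfl,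
          show ENNReal.ofReal 8 = 8 by simp]
        ring

end Pool.Agent.VRC
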