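import Pool.Agent.VRC.Targets4
import Pool.Agent.CRR.P_DIA

set_option autoImplicit false

/-!
# VRC, target DIV: the diagonal case
-/

namespace Pool.Agent.VRC

open MeasureTheory FourierTransform Set Filter Topology
open scoped ENNReal NNReal
open Pool.Agent.CAR (e1)
open Pool.Agent.CRR (Ph StripD FS FA fh NN HH NSol kap aa de la si ww xc band)
open Pool.Agent.CRR.DIA_ (fh_cont fh_planch)

namespace DIV_

theorem NF_eq (w : ℝ) (h : ℝ → ℂ) (i : ℤ) (X a b : ℝ) :
    NF w h i X a b = ∫ ξ in Ico a b,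
      (Ioc (i * w) ((i + 1) * w)).indicator h ξ * e1 (X * ξ) := by
  unfold NF
  have h1 : (fun r => (Ioc (i * w) ((i + 1) * w)).indicator h r * e1 (X * r)) =
      (Ioc (i * w) ((i + 1) * w)).indicator (fun r => h r * e1 (X * r)) := by
    funext r
    by_cases hr : r ∈ Ioc (i * w) ((i + 1) * w)
    · rw [indicator_of_mem hr, indicator_of_mem hr]
    · rw [indicator_of_notMem hr, indicator_of_notMem hr, zero_mul]
  rw [integral_Ico_eq_integral_Ioo, ← integral_Ioc_eq_integral_Ioo, h1,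
    setIntegral_indicator measurableSet_Ioc]

theorem NV_eq (w : ℝ) (h : ℝ → ℂ) (i : ℤ) (X : ℝ) :
    NV w h i X = VC ((Ioc (i * w) ((i + 1) * w)).indicator h) X := by
  unfold NV V4o VC
  simp only [NF_eq]

theorem GG2_window {f : ℝ → ℂ} (hf : Continuous f) (a b : ℝ) :
    GG2 ((Ioc a b).indicator f) where
  mg := hf.measurable.indicator measurableSet_Ioc
  ig := (hf.integrableOn_Ioc : IntegrableOn f (Ioc a b)).integrable_indicator measurableSet_Ioc
  sg := by
    have h1 : (fun ξ => ‖(Ioc a b).indicator f ξ‖ ^ 2) =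
        (Ioc a b).indicator (fun ξ => ‖f ξ‖ ^ 2) := by
      funext r
      by_cases hr : r ∈ Ioc a b
      · rw [indicator_of_mem hr, indicator_of_mem hr]
      · rw [indicator_of_notMem hr, indicator_of_notMem hr]
        simp
    rw [h1]
    have h2 : Continuous (fun ξ => ‖f ξ‖ ^ 2) := (hf.norm).pow 2
    exact (h2.integrableOn_Ioc :
      IntegrableOn (fun ξ => ‖f ξ‖ ^ 2) (Ioc a b)).integrable_indicator measurableSet_Ioc

end DIV_

open DIV_ in
theorem p_DIV (h1 : T_VC4) : T_DIV := by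
  obtain ⟨C, hR⟩ := h1
  refine ⟨C, ?_⟩
  intro w H hw hH
  have hfc : Continuous (fh H) := fh_cont hH.int
  have hwin : ∀ i : ℤ, ∫⁻ X : ℝ, NV w (fh H) i X ^ 2 ≤
      C * ∫⁻ v in Ioc (i • w) ((i + 1) • w), ‖fh H v‖ₑ ^ 2 := by
    intro i
    have hG : GG2 ((Ioc (i * w) ((i + 1) * w)).indicator (fh H)) :=
      GG2_window hfc _ _
    have h2 := hR _ hG
    simp only [← NV_eq] at h2
    refine h2.trans (mul_le_mul_right ?_ _)
    have h3 : (fun r => ‖(Ioc (i * w) ((i + 1) * w)).indicator (fh H) r‖ₑ ^ 2) =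
        (Ioc (i * w) ((i + 1) * w)).indicator (fun r => ‖fh H r‖ₑ ^ 2) := by
      funext r
      by_cases hr : r ∈ Ioc (i * w) ((i + 1) * w)
      · rw [indicator_of_mem hr, indicator_of_mem hr]
      · rw [indicator_of_notMem hr, indicator_of_notMem hr]
        simp
    have h4 : Ioc (i • w) ((i + 1) • w) = Ioc (i * w) ((i + 1) * w) := by
      rw [zsmul_eq_mul, zsmul_eq_mul]
      push_cast
      rfl
    rw [h3, h4, ← lintegral_indicator measurableSet_Ioc]
  calc ∑' i : ℤ, ∫⁻ X : ℝ, NV w (fh H) i X ^ 2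
      ≤ ∑' i : ℤ, C * ∫⁻ v in Ioc (i • w) ((i + 1) • w), ‖fh H v‖ₑ ^ 2 :=
        ENNReal.tsum_le_tsum hwin
    _ = C * ∑' i : ℤ, ∫⁻ v in Ioc (i • w) ((i + 1) • w), ‖fh H v‖ₑ ^ 2 :=
        ENNReal.tsum_mul_left
    _ = C * ∫⁻ v in ⋃ i : ℤ, Ioc (i • w) ((i + 1) • w), ‖fh H v‖ₑ ^ 2 := by
        rw [lintegral_iUnion (fun i => measurableSet_Ioc) (pairwise_disjoint_Ioc_zsmul w)]
    _ ≤ C * ∫⁻ v, ‖fh H v‖ₑ ^ 2 := by
        gcongr
        exact Measure.restrict_le_self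
    _ = C * ∫⁻ s, ‖H s‖ₑ ^ 2 := by rw [fh_planch hH]

end Pool.Agent.VRC
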