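import Pool.Agent.VRC.Targets4
import Pool.Agent.CRR.P_HANK

set_option autoImplicit false

/-!
# VRC: the variation norm theorem for the Hankel transform, uniformly in the order (target HAV)
-/

namespace Pool.Agent.VRC

open MeasureTheory FourierTransform Set Filter Topology
open scoped ENNReal NNReal ComplexConjugate
open Pool.Agent.CAR (e1)
open Pool.Agent.CRR (Ph StripD FS FA fh NN HH NSol kap aa de la si ww xc band)
open Pool.Agent.CRR.HANK_ (T T_cont T_int T_sub_le set_meas two le_sqrt cs schur approx kap_cont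
  KK KK_meas lint_eq bdd_loc)

namespace HAV_

variable {κ : ℝ → ℂ} {c : ℝ} {g : ℝ → ℂ}

/-- the variation in the oscillatory region -/
noncomputable def TV (κ : ℝ → ℂ) (c : ℝ) (g : ℝ → ℂ) (u : ℝ) : ℝ≥0∞ := V4o (T κ c g u)

theorem TV_meas (hκ : Continuous κ) (hg : MemLp g 2 volume) : Measurable (TV κ c g) := by
  refine LowerSemicontinuous.measurable ?_
  refine lowerSemicontinuous_iSup fun L => lowerSemicontinuous_iSup fun N =>
    lowerSemicontinuous_iSup fun hN => ?_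
  refine Continuous.lowerSemicontinuous ?_
  refine ENNReal.continuous_rpow_const.comp (continuous_finsetSum _ fun j _ => ?_)
  exact (ENNReal.continuous_pow 4).comp (T_cont hκ hg (N j) (N (j + 1))).enorm

theorem sq_liminf (x : ℕ → ℝ≥0∞) : (liminf x atTop) ^ 2 = liminf (fun n => x n ^ 2) atTop := by
  have h := Monotone.map_liminf_of_continuousAt (F := atTop) (f := fun y : ℝ≥0∞ => y ^ 2)
    (fun a b hab => by
      have : a ^ 2 ≤ b ^ 2 := by gcongr
      exact this) x (ENNReal.continuous_pow 2).continuousAt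
  exact h

theorem limit (hV : T_VCO) (hκ : Continuous κ) (hg : MemLp g 2 volume) (C : ℝ≥0)
    {G : ℕ → ℝ → ℂ} (hG : ∀ n, MemLp (G n) 2 volume)
    (hlim : Tendsto (fun n => ∫⁻ v, ‖g v - G n v‖ₑ ^ 2) atTop (𝓝 0))
    (hb : ∀ n, ∫⁻ u, TV κ c (G n) u ^ 2 ≤ C * ∫⁻ v, ‖G n v‖ₑ ^ 2) :
    ∫⁻ u, TV κ c g u ^ 2 ≤ 2 * C * ∫⁻ v, ‖g v‖ₑ ^ 2 := by
  have h1 : ∀ u, TV κ c g u ^ 2 ≤ liminf (fun n => TV κ c (G n) u ^ 2) atTop := by
    intro u
    rw [← sq_liminf]
    gcongr
    refine hV.2.2.2.2.1 _ _ fun V1 V2 _ => ?_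
    obtain ⟨M, hM, hMb⟩ := T_sub_le (c := c) hκ u V1 V2
    rw [tendsto_iff_edist_tendsto_0]
    have h2 : Tendsto (fun n => M * ∫⁻ v, ‖g v - G n v‖ₑ ^ 2) atTop (𝓝 0) := by
      have := ENNReal.Tendsto.const_mul (a := M) hlim (Or.inr hM)
      rwa [mul_zero] at this
    have h3 : Tendsto (fun n => (M * ∫⁻ v, ‖g v - G n v‖ₑ ^ 2) ^ (1 / (2 : ℝ))) atTop (𝓝 0) := by
      have := h2.ennrpow_const (1 / (2 : ℝ))
      rwa [ENNReal.zero_rpow_of_pos (by norm_num)] at this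
    refine tendsto_of_tendsto_of_tendsto_of_le_of_le tendsto_const_nhds h3
      (fun n => zero_le) fun n => ?_
    refine le_sqrt ?_
    rw [edist_comm, edist_eq_enorm_sub]
    exact hMb g (G n) hg (hG n)
  calc ∫⁻ u, TV κ c g u ^ 2
      ≤ ∫⁻ u, liminf (fun n => TV κ c (G n) u ^ 2) atTop := lintegral_mono h1
    _ ≤ liminf (fun n => ∫⁻ u, TV κ c (G n) u ^ 2) atTop :=
        lintegral_liminf_le fun n => (TV_meas hκ (hG n)).pow_const 2
    _ ≤ liminf (fun n => C * (2 * (∫⁻ v, ‖g v‖ₑ ^ 2) +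
        2 * (∫⁻ v, ‖g v - G n v‖ₑ ^ 2))) atTop := by
        refine liminf_le_liminf (Eventually.of_forall fun n => (hb n).trans ?_)
        gcongr
        rw [← lintegral_const_mul', ← lintegral_const_mul', ← lintegral_add_left']
        · refine lintegral_mono fun v => ?_
          refine le_trans ?_ (two _ _)
          gcongr
          calc ‖G n v‖ₑ = ‖g v - (g v - G n v)‖ₑ := by congr 1; ring
            _ ≤ ‖g v‖ₑ + ‖g v - G n v‖ₑ := enorm_sub_le
        · exact (hg.aestronglyMeasurable.enorm.pow_const 2).const_mul 2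
        · norm_num
        · norm_num
    _ = C * (2 * (∫⁻ v, ‖g v‖ₑ ^ 2) + 2 * 0) := by
        refine Tendsto.liminf_eq ?_
        refine ENNReal.Tendsto.const_mul ?_ (Or.inr ENNReal.coe_ne_top)
        refine Tendsto.const_add _ ?_
        exact ENNReal.Tendsto.const_mul hlim (Or.inr (by norm_num))
    _ = _ := by ring

theorem int_loc (hκ : Continuous κ) (hg : MemLp g 2 volume) (u V1 V2 : ℝ) :
    IntegrableOn (fun v => κ (u + v) * g v) (Ioc V1 V2) := by
  obtain ⟨M, hM0, hM⟩ := bdd_loc hκ (u + V1) (u + V2)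
  have hgi : IntegrableOn g (Ioc V1 V2) :=
    (hg.restrict (Ioc V1 V2)).integrable (by norm_num)
  refine hgi.bdd_mul (c := M)
    (hκ.comp (continuous_const.add continuous_id)).aestronglyMeasurable ?_
  rw [ae_restrict_iff' measurableSet_Ioc]
  refine Eventually.of_forall fun v hv => hM _ ⟨?_, ?_⟩
  · linarith [hv.1]
  · linarith [hv.2]

theorem point (hV : T_VCO) (hκ : Continuous κ) (hgm : Measurable g) (hg : MemLp g 2 volume)
    (c u : ℝ) :
    V4o (fun V1 V2 => ∫ v in Ioc V1 V2, κ (u + v) * g v) ≤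
      TV κ c g u + ∫⁻ v, KK κ c (u + v) * ‖g v‖ₑ := by
  have hms : MeasurableSet {v | c ≤ u + v} :=
    measurableSet_le measurable_const (measurable_const_add u)
  refine (hV.2.2.2.2.2.2 _ (T κ c g u)
    (fun V1 V2 => ∫ v in Ioc V1 V2 \ {v | c ≤ u + v}, κ (u + v) * g v) fun a b _ => ?_).trans ?_
  · rw [← integral_inter_add_sdiff hms (int_loc hκ hg u a b)]
    exact enorm_add_le _ _
  · refine add_le_add le_rfl ?_
    refine hV.2.2.2.1 _ _ ?_ fun a b _ => ?_
    · exact ((KK_meas hκ c).comp (measurable_const_add u)).mul hgm.enorm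
    · refine (enorm_integral_le_lintegral_enorm _).trans ?_
      rw [← lintegral_indicator (measurableSet_Ioc.diff hms), ← lintegral_indicator
        measurableSet_Ioc]
      refine lintegral_mono fun v => ?_
      by_cases hv : v ∈ Ioc a b \ {v | c ≤ u + v}
      · rw [indicator_of_mem hv, indicator_of_mem hv.1, enorm_mul]
        unfold KK
        rw [indicator_of_mem]
        have hv2 : ¬ c ≤ u + v := hv.2
        exact (not_le.1 hv2).le
      · rw [indicator_of_notMem hv]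
        exact zero_le

end HAV_

open HAV_ in
/-- HAV. -/
theorem p_HAV (h1 : Pool.Agent.CRR.T_LOW) (h2 : T_HIV) (h3 : T_VCO) (_h4 : T_VCM) : T_HAV := by
  obtain ⟨C1, hC1⟩ := h1
  obtain ⟨C2, hC2⟩ := h2
  refine ⟨2 * C1 ^ 2 + 4 * C2 + 1, fun ν J J' g hν hJ hg => ?_⟩
  have hκ := kap_cont hJ.sol
  by_cases hfin : ∫⁻ v, ‖g v‖ₑ ^ 2 = ⊤
  · rw [hfin, ENNReal.mul_top]
    · exact le_top
    · push_cast
      positivity
  have hgL : MemLp g 2 volume := by
    refine ⟨hg.aestronglyMeasurable, ?_⟩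
    rw [lint_eq] at hfin
    exact lt_top_iff_ne_top.2 fun h0 => hfin (by rw [h0]; simp)
  obtain ⟨G, hG, hlim⟩ := approx hgL
  have hT : ∫⁻ u, TV (kap J) (xc ν) g u ^ 2 ≤ 2 * C2 * ∫⁻ v, ‖g v‖ₑ ^ 2 := by
    refine limit h3 hκ hgL C2 (fun n => (hG n).1) hlim fun n => ?_
    obtain ⟨H, hH, hH1, hH2⟩ := (hG n).2
    have := hC2 ν J J' H hν hJ hH
    rw [hH1, hH2] at this
    exact this
  have hS : ∫⁻ u, (∫⁻ v, KK (kap J) (xc ν) (u + v) * ‖g v‖ₑ) ^ 2 ≤
      C1 ^ 2 * ∫⁻ v, ‖g v‖ₑ ^ 2 := by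
    refine (schur (KK_meas hκ (xc ν)) hg.enorm).trans ?_
    gcongr
    unfold KK
    rw [lintegral_indicator measurableSet_Iic]
    exact hC1 ν J J' hν hJ
  have hm : Measurable fun u => ∫⁻ v, KK (kap J) (xc ν) (u + v) * ‖g v‖ₑ := by
    refine Measurable.lintegral_prod_right'
      (f := fun p : ℝ × ℝ => KK (kap J) (xc ν) (p.1 + p.2) * ‖g p.2‖ₑ) ?_
    exact ((KK_meas hκ (xc ν)).comp (measurable_fst.add measurable_snd)).mul
      (hg.comp measurable_snd).enorm
  calc ∫⁻ u, V4o (fun V1 V2 => ∫ v in Ioc V1 V2, kap J (u + v) * g v) ^ 2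
      ≤ ∫⁻ u, (2 * (∫⁻ v, KK (kap J) (xc ν) (u + v) * ‖g v‖ₑ) ^ 2 +
          2 * TV (kap J) (xc ν) g u ^ 2) := by
        refine lintegral_mono fun u => le_trans ?_ (two _ _)
        gcongr
        rw [add_comm]
        exact point h3 hκ hg hgL (xc ν) u
    _ = 2 * (∫⁻ u, (∫⁻ v, KK (kap J) (xc ν) (u + v) * ‖g v‖ₑ) ^ 2) +
          2 * (∫⁻ u, TV (kap J) (xc ν) g u ^ 2) := by
        rw [lintegral_add_left ((hm.pow_const 2).const_mul 2),
          lintegral_const_mul' _ _ (by norm_num), lintegral_const_mul' _ _ (by norm_num)]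
    _ ≤ 2 * (C1 ^ 2 * ∫⁻ v, ‖g v‖ₑ ^ 2) + 2 * (2 * C2 * ∫⁻ v, ‖g v‖ₑ ^ 2) := by
        gcongr
    _ = ((2 * C1 ^ 2 + 4 * C2 : ℝ≥0) : ℝ≥0∞) * ∫⁻ v, ‖g v‖ₑ ^ 2 := by
        push_cast
        ring
    _ ≤ _ := by
        refine mul_le_mul_left (ENNReal.coe_le_coe.2 ?_) _
        exact le_self_add

end Pool.Agent.VRC
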