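import Pool.Agent.VRC.Targets4
import Pool.Agent.CRR.P_HI

set_option autoImplicit false

/-!
# VRC: HIV: the oscillatory region, variation norm
-/

namespace Pool.Agent.VRC

open MeasureTheory FourierTransform Set Filter Topology
open scoped ENNReal NNReal
open Pool.Agent.CAR (e1)
open Pool.Agent.CRR (Ph StripD FS FA fh NN HH NSol kap aa de la si ww xc band)

namespace HIV_

/-- first index beyond a point -/
lemma exists_index {a : ℕ → ℝ} (hinf : Tendsto a atTop atTop) :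
    ∃ n : ℝ → ℕ, Monotone n ∧ ∀ x, x < a (n x) ∧ ∀ k < n x, a k ≤ x := by
  classical
  have hex : ∀ x : ℝ, ∃ n, x < a n := fun x => (hinf.eventually_gt_atTop x).exists
  have h1 : ∀ x, x < a (Nat.find (hex x)) := fun x => Nat.find_spec (hex x)
  have h2 : ∀ x, ∀ k < Nat.find (hex x), a k ≤ x := fun x k hk =>
    not_lt.1 (Nat.find_min (hex x) hk)
  refine ⟨fun x => Nat.find (hex x), ?_, fun x => ⟨h1 x, h2 x⟩⟩
  intro x y hxy
  by_contra hlt
  rw [not_le] at hlt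
  have := h2 x _ hlt
  have := h1 y
  linarith

/-- the pointwise bound for one increment -/
lemma pw2 {κ h : ℝ → ℂ} (hκ : Continuous κ) (hh : Continuous h) {a d : ℕ → ℝ}
    (had : ∀ k, a (k + 1) = a k + d k) (hd : ∀ k, 0 < d k) {n1 n2 : ℕ} (h12 : n1 ≤ n2)
    {u V1 V2 : ℝ} (hn1 : u + V1 < a n1) (hn1' : ∀ k < n1, a k ≤ u + V1) (hn2 : u + V2 < a n2)
    (hn2' : ∀ k < n2, a k ≤ u + V2) :
      ‖∫ v in Ioc V1 V2 ∩ {v | a 0 ≤ u + v}, κ (u + v) * h v‖ₑ ≤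
      ‖FS κ (a (n1 - 1)) (d (n1 - 1)) h u V1 V2‖ₑ + ‖FS κ (a (n2 - 1)) (d (n2 - 1)) h u V1 V2‖ₑ +
        ‖∑ k ∈ Finset.range (max n1 (n2 - 1)), FA κ (a k) (d k) h u -
          ∑ k ∈ Finset.range n1, FA κ (a k) (d k) h u‖ₑ := by
  have hmono : StrictMono a := strictMono_nat_of_lt_succ fun k => by rw [had]; linarith [hd k]
  have hset : Ioc V1 V2 ∩ {v | a 0 ≤ u + v} = Ioc V1 V2 ∩ {v | u + v ∈ Ico (a 0) (a n2)} := by
    ext v
    simp only [mem_inter_iff, mem_Ioc, mem_ofPred_eq, mem_Ico]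
    constructor
    · rintro ⟨⟨h1, h2⟩, h3⟩
      exact ⟨⟨h1, h2⟩, h3, by linarith⟩
    · rintro ⟨⟨h1, h2⟩, h3, _⟩
      exact ⟨⟨h1, h2⟩, h3⟩
  rw [hset, Pool.Agent.CRR.HI_.decomp hκ hh had hd]
  rcases Nat.eq_zero_or_pos n2 with h0 | h0
  · subst h0
    simp
  obtain ⟨m2, rfl⟩ : ∃ m, n2 = m + 1 := ⟨n2 - 1, by omega⟩
  rw [Finset.sum_range_succ, Nat.add_sub_cancel]
  have hzero : ∀ k, k + 1 < n1 → FS κ (a k) (d k) h u V1 V2 = 0 := fun k hk =>
    Pool.Agent.CRR.HI_.fs_left (by rw [← had]; exact hn1' _ hk)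
  have hfull : ∀ k, n1 ≤ k → k < m2 → FS κ (a k) (d k) h u V1 V2 = FA κ (a k) (d k) h u := by
    intro k hk hk'
    refine Pool.Agent.CRR.HI_.fs_full (lt_of_lt_of_le hn1 (hmono.monotone hk)) ?_
    rw [← had]
    exact hn2' _ (by omega)
  rcases le_or_gt n1 m2 with h1 | h1
  · rw [max_eq_right h1]
    have hsplit : ∑ k ∈ Finset.range m2, FS κ (a k) (d k) h u V1 V2 =
        ∑ k ∈ Finset.range n1, FS κ (a k) (d k) h u V1 V2 +
          (∑ k ∈ Finset.range m2, FA κ (a k) (d k) h u -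
            ∑ k ∈ Finset.range n1, FA κ (a k) (d k) h u) := by
      rw [← Finset.sum_range_add_sum_Ico _ h1, ← Finset.sum_Ico_eq_sub _ h1]
      congr 1
      refine Finset.sum_congr rfl fun k hk => ?_
      rw [Finset.mem_Ico] at hk
      exact hfull k hk.1 hk.2
    have hfirst : ‖∑ k ∈ Finset.range n1, FS κ (a k) (d k) h u V1 V2‖ₑ ≤
        ‖FS κ (a (n1 - 1)) (d (n1 - 1)) h u V1 V2‖ₑ := by
      rcases Nat.eq_zero_or_pos n1 with h2 | h2
      · subst h2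
        simp
      · obtain ⟨m, rfl⟩ : ∃ m, n1 = m + 1 := ⟨n1 - 1, by omega⟩
        rw [Finset.sum_range_succ, Finset.sum_eq_zero, zero_add]
        · simp
        · intro k hk
          rw [Finset.mem_range] at hk
          exact hzero k (by omega)
    rw [hsplit]
    calc ‖∑ k ∈ Finset.range n1, FS κ (a k) (d k) h u V1 V2 +
          (∑ k ∈ Finset.range m2, FA κ (a k) (d k) h u -
            ∑ k ∈ Finset.range n1, FA κ (a k) (d k) h u) + FS κ (a m2) (d m2) h u V1 V2‖ₑ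
        ≤ ‖∑ k ∈ Finset.range n1, FS κ (a k) (d k) h u V1 V2 +
          (∑ k ∈ Finset.range m2, FA κ (a k) (d k) h u -
            ∑ k ∈ Finset.range n1, FA κ (a k) (d k) h u)‖ₑ +
            ‖FS κ (a m2) (d m2) h u V1 V2‖ₑ := enorm_add_le _ _
      _ ≤ (‖∑ k ∈ Finset.range n1, FS κ (a k) (d k) h u V1 V2‖ₑ +
          ‖∑ k ∈ Finset.range m2, FA κ (a k) (d k) h u -
            ∑ k ∈ Finset.range n1, FA κ (a k) (d k) h u‖ₑ) +
            ‖FS κ (a m2) (d m2) h u V1 V2‖ₑ := by gcongr; exact enorm_add_le _ _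
      _ ≤ (‖FS κ (a (n1 - 1)) (d (n1 - 1)) h u V1 V2‖ₑ +
          ‖∑ k ∈ Finset.range m2, FA κ (a k) (d k) h u -
            ∑ k ∈ Finset.range n1, FA κ (a k) (d k) h u‖ₑ) +
            ‖FS κ (a m2) (d m2) h u V1 V2‖ₑ := by gcongr
      _ = _ := by ring
  · -- `n1 = m2 + 1`: only the strip `m2` meets the interval
    rw [Finset.sum_eq_zero, zero_add]
    · exact le_add_right (le_add_left le_rfl)
    · intro k hk
      rw [Finset.mem_range] at hk
      exact hzero k (by omega)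

lemma fourth (x y z : ℝ≥0∞) : (x + y + z) ^ 4 ≤ 64 * (x ^ 4 + y ^ 4 + z ^ 4) := by
  have hsq := Pool.Agent.CRR.HI_.sq2
  have h1 : (x + y + z) ^ 2 ≤ 4 * (x ^ 2 + y ^ 2 + z ^ 2) := by
    calc (x + y + z) ^ 2 ≤ 2 * ((x + y) ^ 2 + z ^ 2) := hsq _ _
      _ ≤ 2 * (2 * (x ^ 2 + y ^ 2) + 2 * z ^ 2) := by
          gcongr
          · exact hsq _ _
          · exact le_mul_of_one_le_left (zero_le) (by norm_num)
      _ = _ := by ring
  calc (x + y + z) ^ 4 = ((x + y + z) ^ 2) ^ 2 := by ring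
    _ ≤ (4 * (x ^ 2 + y ^ 2 + z ^ 2)) ^ 2 := by gcongr
    _ = 16 * (x ^ 2 + y ^ 2 + z ^ 2) ^ 2 := by ring
    _ ≤ 16 * (2 * ((x ^ 2 + y ^ 2) ^ 2 + (z ^ 2) ^ 2)) := by gcongr; exact hsq _ _
    _ ≤ 16 * (2 * (2 * ((x ^ 2) ^ 2 + (y ^ 2) ^ 2) + 2 * (z ^ 2) ^ 2)) := by
        gcongr
        · exact hsq _ _
        · exact le_mul_of_one_le_left (zero_le) (by norm_num)
    _ = _ := by ring

lemma tsum4 (f : ℕ → ℝ≥0∞) : ∑' k, f k ^ 4 ≤ (∑' k, f k ^ 2) ^ 2 := by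
  calc ∑' k, f k ^ 4 ≤ ∑' k, f k ^ 2 * ∑' i, f i ^ 2 := by
        refine ENNReal.tsum_le_tsum fun k => ?_
        calc f k ^ 4 = f k ^ 2 * f k ^ 2 := by ring
          _ ≤ _ := by
            gcongr
            exact ENNReal.le_tsum (f := fun i => f i ^ 2) k
    _ = _ := by rw [ENNReal.tsum_mul_right, sq]

lemma rp4 (x y : ℝ≥0∞) : x ^ (1 / 4 : ℝ) ≤ y ↔ x ≤ y ^ 4 := by
  rw [one_div, ENNReal.rpow_inv_le_iff (by norm_num)]
  norm_num

/-- upper bound for `V4o` -/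
lemma v4o_sq_le {F : ℝ → ℝ → ℂ} {B : ℝ≥0∞}
    (h : ∀ (L : ℕ) (N : ℕ → ℝ), Monotone N →
      ∑ j ∈ Finset.range L, ‖F (N j) (N (j + 1))‖ₑ ^ 4 ≤ B ^ 2) : V4o F ^ 2 ≤ B := by
  have h1 : V4o F ≤ B ^ (1 / 2 : ℝ) := by
    unfold V4o
    refine iSup_le fun L => iSup_le fun N => iSup_le fun hN => ?_
    rw [rp4]
    refine (h L N hN).trans (le_of_eq ?_)
    rw [← ENNReal.rpow_natCast, ← ENNReal.rpow_natCast, ← ENNReal.rpow_mul]
    congr 1
    norm_num
  calc V4o F ^ 2 ≤ (B ^ (1 / 2 : ℝ)) ^ 2 := by gcongr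
    _ = B := by
      rw [← ENNReal.rpow_natCast, ← ENNReal.rpow_mul]
      norm_num

lemma le_v4o (F : ℝ → ℝ → ℂ) (L : ℕ) {N : ℕ → ℝ} (hN : Monotone N) :
    ∑ j ∈ Finset.range L, ‖F (N j) (N (j + 1))‖ₑ ^ 4 ≤ V4o F ^ 4 := by
  rw [← rp4]
  unfold V4o
  exact le_iSup_of_le L (le_iSup_of_le N (le_iSup_of_le hN le_rfl))

lemma le_v4s (z : ℕ → ℂ) (L : ℕ) {t : ℕ → ℕ} (ht : Monotone t) :
    ∑ r ∈ Finset.range L, ‖z (t (r + 1)) - z (t r)‖ₑ ^ 4 ≤ V4s z ^ 4 := by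
  rw [← rp4]
  unfold V4s
  exact le_iSup_of_le L (le_iSup_of_le t (le_iSup_of_le ht le_rfl))

/-- every second term -/
lemma even_sum (g : ℕ → ℝ≥0∞) (L : ℕ) :
    ∑ j ∈ Finset.range L, g (2 * j) ≤ ∑ r ∈ Finset.range (2 * L), g r := by
  induction L with
  | zero => simp
  | succ L ih =>
    rw [Finset.sum_range_succ, show 2 * (L + 1) = 2 * L + 1 + 1 by ring, Finset.sum_range_succ,
      Finset.sum_range_succ]
    calc _ ≤ ∑ r ∈ Finset.range (2 * L), g r + g (2 * L) := by gcongr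
      _ ≤ _ := le_self_add

/-- the sequence of the end points -/
lemma tail_bound (z : ℕ → ℂ) (L : ℕ) {n : ℕ → ℕ} (hn : Monotone n) :
    ∑ j ∈ Finset.range L, ‖z (max (n j) (n (j + 1) - 1)) - z (n j)‖ₑ ^ 4 ≤ V4s z ^ 4 := by
  set t : ℕ → ℕ := fun r => if r % 2 = 0 then n (r / 2) else max (n (r / 2)) (n (r / 2 + 1) - 1)
    with ht
  have e0 : ∀ j, t (2 * j) = n j := by
    intro j
    simp only [ht]
    rw [if_pos (by omega)]
    congr 1
    omega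
  have e1 : ∀ j, t (2 * j + 1) = max (n j) (n (j + 1) - 1) := by
    intro j
    simp only [ht]
    rw [if_neg (by omega)]
    have : (2 * j + 1) / 2 = j := by omega
    rw [this]
  have hmon : Monotone t := by
    refine monotone_nat_of_le_succ fun r => ?_
    rcases Nat.even_or_odd' r with ⟨q, rfl | rfl⟩
    · rw [e0, e1]
      exact le_max_left _ _
    · rw [e1, show 2 * q + 1 + 1 = 2 * (q + 1) by ring, e0]
      have := hn (Nat.le_succ q)
      exact max_le this (Nat.sub_le _ _)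
  have h1 := le_v4s z (2 * L) hmon
  refine le_trans ?_ h1
  have h2 := even_sum (fun r => ‖z (t (r + 1)) - z (t r)‖ₑ ^ 4) L
  refine le_trans (le_of_eq ?_) h2
  refine Finset.sum_congr rfl fun j _ => ?_
  simp only [e0, e1]

/-- measurability of the variation of a sequence -/
lemma v4s_meas {α : Type*} [MeasurableSpace α] {z : α → ℕ → ℂ}
    (hz : ∀ n, Measurable (fun u => z u n)) : Measurable (fun u => V4s (z u)) := by
  have h1 : ∀ u, V4s (z u) = ⨆ (L : ℕ) (s : Fin (L + 1) → ℕ)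
      (_ : Monotone fun r : ℕ => s ⟨min r L, by omega⟩),
      (∑ r ∈ Finset.range L, ‖z u (s ⟨min (r + 1) L, by omega⟩) -
        z u (s ⟨min r L, by omega⟩)‖ₑ ^ 4) ^ (1 / 4 : ℝ) := by
    intro u
    unfold V4s
    refine le_antisymm ?_ ?_
    · refine iSup_le fun L => iSup_le fun t => iSup_le fun ht => ?_
      refine le_iSup_of_le L (le_iSup_of_le (fun i => t i) (le_iSup_of_le ?_ ?_))
      · intro r r' hr
        exact ht (min_le_min_right L hr)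
      · refine le_of_eq ?_
        congr 1
        refine Finset.sum_congr rfl fun r hr => ?_
        rw [Finset.mem_range] at hr
        simp only
        rw [min_eq_left (by omega : r + 1 ≤ L), min_eq_left hr.le]
    · refine iSup_le fun L => iSup_le fun s => iSup_le fun hs => ?_
      exact le_iSup_of_le L (le_iSup_of_le (fun r : ℕ => s ⟨min r L, by omega⟩)
        (le_iSup_of_le hs le_rfl))
  simp only [h1]
  refine Measurable.iSup fun L => Measurable.iSup fun s => Measurable.iSup fun _ => ?_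
  refine Measurable.pow_const ?_ _
  refine Finset.measurable_sum _ fun r _ => ?_
  exact (((hz _).sub (hz _)).enorm).pow_const 4

end HIV_

open HIV_

theorem p_HIV (h1 : Pool.Agent.CRR.T_SEQ) (h2 : T_PAV) (h3 : T_TAV) : T_HIV := by
  obtain ⟨C2, hC2⟩ := h2
  obtain ⟨C3, hC3⟩ := h3
  refine ⟨12 * C2 + 12 * C3, fun ν J J' H hν hN hH => ?_⟩
  obtain ⟨-, hinf, hk⟩ := h1 ν hν
  have had : ∀ k, aa ν (k + 1) = aa ν k + de ν k := fun k => (hk k).2.2.2.1
  have hd : ∀ k, 0 < de ν k := fun k => (hk k).2.1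
  have hκ := Pool.Agent.CRR.HI_.kap_cont hN.sol
  have hh := Pool.Agent.CRR.HI_.fh_cont hH.int
  have e2 := hC2 ν J J' H hν hN hH
  have e3 := hC3 ν J J' H hν hN hH
  obtain ⟨n, hnm, hn⟩ := exists_index hinf
  set G : ℕ → ℝ → ℝ → ℝ → ℂ := fun k u => FS (kap J) (aa ν k) (de ν k) (fh H) u with hG
  set S : ℝ → ℝ≥0∞ := fun u => ∑' k : ℕ, V4o (G k u) ^ 2 with hS
  set z : ℝ → ℕ → ℂ := fun u n => ∑ k ∈ Finset.range n, FA (kap J) (aa ν k) (de ν k) (fh H) u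
    with hz
  have hzm : Measurable (fun u => V4s (z u)) := by
    refine v4s_meas fun n => ?_
    exact Finset.measurable_sum _ fun k _ => Pool.Agent.CRR.HI_.fa_meas hκ hh _ _
  have hpt : ∀ u, V4o (fun V1 V2 => ∫ v in Ioc V1 V2 ∩ {v | xc ν ≤ u + v},
      kap J (u + v) * fh H v) ^ 2 ≤ 12 * S u + 12 * V4s (z u) ^ 2 := by
    intro u
    refine v4o_sq_le fun L N hN' => ?_
    have hnj : Monotone (fun j => n (u + N j)) := fun i j hij =>
      hnm (by have := hN' hij; linarith)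
    have hb : ∀ j, ‖∫ v in Ioc (N j) (N (j + 1)) ∩ {v | xc ν ≤ u + v},
        kap J (u + v) * fh H v‖ₑ ^ 4 ≤
        64 * (∑' k, ‖G k u (N j) (N (j + 1))‖ₑ ^ 4 + ∑' k, ‖G k u (N j) (N (j + 1))‖ₑ ^ 4 +
          ‖z u (max (n (u + N j)) (n (u + N (j + 1)) - 1)) - z u (n (u + N j))‖ₑ ^ 4) := by
      intro j
      have hp := pw2 hκ hh had hd (hnj (Nat.le_succ j)) (hn (u + N j)).1 (hn (u + N j)).2
        (hn (u + N (j + 1))).1 (hn (u + N (j + 1))).2
      have hle : ∀ m, ‖G m u (N j) (N (j + 1))‖ₑ ^ 4 ≤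
          ∑' k, ‖G k u (N j) (N (j + 1))‖ₑ ^ 4 := fun m =>
        ENNReal.le_tsum (f := fun k => ‖G k u (N j) (N (j + 1))‖ₑ ^ 4) m
      calc _ ≤ _ := pow_le_pow_left' hp 4
        _ ≤ _ := fourth _ _ _
        _ ≤ _ := by
          gcongr
          · exact hle _
          · exact hle _
    have hsum : ∑ j ∈ Finset.range L, ∑' k, ‖G k u (N j) (N (j + 1))‖ₑ ^ 4 ≤ S u ^ 2 := by
      rw [← Summable.tsum_finsetSum fun _ _ => ENNReal.summable]
      refine le_trans (ENNReal.tsum_le_tsum fun k => le_v4o (G k u) L hN') ?_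
      exact tsum4 fun k => V4o (G k u)
    have htail := tail_bound (z u) L hnj
    calc _ ≤ ∑ j ∈ Finset.range L, 64 * (∑' k, ‖G k u (N j) (N (j + 1))‖ₑ ^ 4 +
          ∑' k, ‖G k u (N j) (N (j + 1))‖ₑ ^ 4 +
          ‖z u (max (n (u + N j)) (n (u + N (j + 1)) - 1)) - z u (n (u + N j))‖ₑ ^ 4) :=
          Finset.sum_le_sum fun j _ => hb j
      _ = 64 * (∑ j ∈ Finset.range L, ∑' k, ‖G k u (N j) (N (j + 1))‖ₑ ^ 4 +
          ∑ j ∈ Finset.range L, ∑' k, ‖G k u (N j) (N (j + 1))‖ₑ ^ 4 +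
          ∑ j ∈ Finset.range L,
            ‖z u (max (n (u + N j)) (n (u + N (j + 1)) - 1)) - z u (n (u + N j))‖ₑ ^ 4) := by
          rw [← Finset.mul_sum, Finset.sum_add_distrib, Finset.sum_add_distrib]
      _ ≤ 64 * (S u ^ 2 + S u ^ 2 + V4s (z u) ^ 4) := by gcongr
      _ ≤ 144 * (S u ^ 2 + V4s (z u) ^ 4 + 2 * (S u * V4s (z u) ^ 2)) := by
          calc 64 * (S u ^ 2 + S u ^ 2 + V4s (z u) ^ 4)
              ≤ 64 * (S u ^ 2 + S u ^ 2 + V4s (z u) ^ 4) +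
                (16 * S u ^ 2 + 80 * V4s (z u) ^ 4 + 288 * (S u * V4s (z u) ^ 2)) :=
                le_self_add
            _ = _ := by ring
      _ = _ := by ring
  calc _ ≤ ∫⁻ u, (12 * S u + 12 * V4s (z u) ^ 2) := lintegral_mono hpt
    _ = (∫⁻ u, 12 * S u) + ∫⁻ u, 12 * V4s (z u) ^ 2 :=
        lintegral_add_right _ ((hzm.pow_const 2).const_mul 12)
    _ = 12 * (∫⁻ u, S u) + 12 * ∫⁻ u, V4s (z u) ^ 2 := by
        rw [lintegral_const_mul' _ _ (by norm_num), lintegral_const_mul' _ _ (by norm_num)]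
    _ ≤ 12 * (C2 * ∫⁻ s, ‖H s‖ₑ ^ 2) + 12 * (C3 * ∫⁻ s, ‖H s‖ₑ ^ 2) := by gcongr
    _ = _ := by push_cast; ring

end Pool.Agent.VRC
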