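import Pool.Agent.VRC.Targets

set_option autoImplicit false

/-!
# VRC: the 4-variation of the dyadic averages (VJM)
-/

namespace Pool.Agent.VRC

open MeasureTheory Set ComplexConjugate Filter Topology
open scoped ENNReal NNReal
open Pool.Agent.CAR

namespace VJM_

theorem sum_pow_four {ι : Type*} (a : ι → ℝ≥0∞) : ∑' i, a i ^ 4 ≤ (∑' i, a i) ^ 4 := by
  set S := ∑' i, a i with hS
  calc ∑' i, a i ^ 4 ≤ ∑' i, a i * S ^ 3 := by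
        refine ENNReal.tsum_le_tsum fun i => ?_
        rw [pow_succ' (a i) 3]
        gcongr
        exact ENNReal.le_tsum i
    _ = S ^ 4 := by
        rw [ENNReal.tsum_mul_right, ← hS]
        ring

theorem count_le (z : ℤ → ℂ) (m M : ℤ) (lam : ℝ≥0∞) (P : Finset (ℤ × ℤ))
    (h1 : ∀ c ∈ P, m ≤ c.1 ∧ c.1 ≤ c.2 ∧ c.2 ≤ M)
    (h2 : ∀ c ∈ P, ∀ d ∈ P, c ≠ d → c.2 ≤ d.1 ∨ d.2 ≤ c.1) :
    ∑ c ∈ P, (if lam ≤ ‖z c.2 - z c.1‖ₑ then (1 : ℝ≥0∞) else 0) ≤ NJ z m M lam := by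
  classical
  rw [← Finset.sum_filter, Finset.sum_const, nsmul_one]
  unfold NJ
  refine le_iSup₂_of_le (P.filter fun c => lam ≤ ‖z c.2 - z c.1‖ₑ) ⟨?_, ?_⟩ le_rfl
  · intro c hc
    rw [Finset.mem_filter] at hc
    obtain ⟨a, b, d⟩ := h1 c hc.1
    exact ⟨a, b, d, hc.2⟩
  · intro c hc d hd hne
    exact h2 c (Finset.mem_filter.mp hc).1 d (Finset.mem_filter.mp hd).1 hne

theorem single {e0 x : ℝ≥0∞} (h0 : e0 ≠ 0) (ht : e0 ≠ ⊤) (hx : x ≠ ⊤) :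
    x ^ 4 ≤ ∑' i : ℤ, (2 * ((2 : ℝ≥0∞) ^ i * e0)) ^ 4 *
      (if (2 : ℝ≥0∞) ^ i * e0 ≤ x then (1 : ℝ≥0∞) else 0) := by
  rcases eq_or_ne x 0 with h | h
  · rw [h, zero_pow (by norm_num)]
    exact zero_le
  · obtain ⟨n, hn1, hn2⟩ := ENNReal.exists_mem_Ico_zpow (x := x / e0) (y := 2)
      (ENNReal.div_ne_zero.mpr ⟨h, ht⟩) (ENNReal.div_ne_top hx h0) (by norm_num) (by norm_num)
    have h1 : (2 : ℝ≥0∞) ^ n * e0 ≤ x := by
      rwa [ENNReal.le_div_iff_mul_le (Or.inl h0) (Or.inl ht)] at hn1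
    have h2 : x ≤ 2 * ((2 : ℝ≥0∞) ^ n * e0) := by
      have h3 := hn2.le
      rw [ENNReal.div_le_iff_le_mul (Or.inl h0) (Or.inl ht)] at h3
      refine h3.trans (le_of_eq ?_)
      rw [ENNReal.zpow_add (by norm_num) (by norm_num), zpow_one]
      ring
    refine le_trans ?_ (ENNReal.le_tsum n)
    rw [if_pos h1, mul_one]
    gcongr

theorem V4_le (z : ℤ → ℂ) (m M : ℤ) {e0 : ℝ≥0∞} (h0 : e0 ≠ 0) (ht : e0 ≠ ⊤) :
    V4 z m M ≤ ∑' i : ℤ, 2 * ((2 : ℝ≥0∞) ^ i * e0) *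
      NJ z m M ((2 : ℝ≥0∞) ^ i * e0) ^ (1 / 4 : ℝ) := by
  unfold V4
  refine iSup₂_le fun P hP => ?_
  set a : ℤ → ℝ≥0∞ := fun i => 2 * ((2 : ℝ≥0∞) ^ i * e0) *
    NJ z m M ((2 : ℝ≥0∞) ^ i * e0) ^ (1 / 4 : ℝ) with ha
  have h1 : ∑ c ∈ P, ‖z c.2 - z c.1‖ₑ ^ 4 ≤ ∑' i, a i ^ 4 := by
    calc ∑ c ∈ P, ‖z c.2 - z c.1‖ₑ ^ 4
        ≤ ∑ c ∈ P, ∑' i : ℤ, (2 * ((2 : ℝ≥0∞) ^ i * e0)) ^ 4 *
          (if (2 : ℝ≥0∞) ^ i * e0 ≤ ‖z c.2 - z c.1‖ₑ then (1 : ℝ≥0∞) else 0) :=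
          Finset.sum_le_sum fun c _ => single h0 ht enorm_ne_top
      _ = ∑' i : ℤ, ∑ c ∈ P, (2 * ((2 : ℝ≥0∞) ^ i * e0)) ^ 4 *
          (if (2 : ℝ≥0∞) ^ i * e0 ≤ ‖z c.2 - z c.1‖ₑ then (1 : ℝ≥0∞) else 0) :=
          (Summable.tsum_finsetSum fun _ _ => ENNReal.summable).symm
      _ ≤ ∑' i, a i ^ 4 := by
          refine ENNReal.tsum_le_tsum fun i => ?_
          have h3 : (NJ z m M ((2 : ℝ≥0∞) ^ i * e0) ^ (1 / 4 : ℝ)) ^ 4 =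
              NJ z m M ((2 : ℝ≥0∞) ^ i * e0) := by
            rw [← ENNReal.rpow_natCast, ← ENNReal.rpow_mul]
            norm_num
          have h4 : a i ^ 4 = (2 * ((2 : ℝ≥0∞) ^ i * e0)) ^ 4 *
              NJ z m M ((2 : ℝ≥0∞) ^ i * e0) := by
            simp only [ha]
            rw [mul_pow (2 * ((2 : ℝ≥0∞) ^ i * e0)), h3]
          rw [← Finset.mul_sum, h4]
          exact mul_le_mul_right (count_le z m M _ P hP.1 hP.2) _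
  calc (∑ c ∈ P, ‖z c.2 - z c.1‖ₑ ^ 4) ^ (1 / 4 : ℝ)
      ≤ ((∑' i, a i) ^ 4) ^ (1 / 4 : ℝ) :=
        ENNReal.rpow_le_rpow (h1.trans (sum_pow_four a)) (by norm_num)
    _ = ∑' i, a i := by
        rw [← ENNReal.rpow_natCast, ← ENNReal.rpow_mul]
        norm_num

theorem NJ_rpow_le (z : ℤ → ℂ) (m M : ℤ) (lam : ℝ≥0∞) :
    NJ z m M lam ^ (1 / 4 : ℝ) ≤ NJ z m M lam := by
  rcases eq_or_ne (NJ z m M lam) 0 with h | h
  · rw [h, ENNReal.zero_rpow_of_pos (by norm_num)]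
  · have h1 : 1 ≤ NJ z m M lam := by
      by_contra hlt
      push Not at hlt
      refine h ?_
      unfold NJ at hlt ⊢
      refine le_antisymm (iSup₂_le fun P hP => ?_) zero_le
      have h2 : (P.card : ℝ≥0∞) < 1 := lt_of_le_of_lt (le_iSup₂_of_le P hP le_rfl) hlt
      have h3 : P.card < 1 := by exact_mod_cast h2
      have h4 : P.card = 0 := by omega
      rw [h4]
      simp
    calc NJ z m M lam ^ (1 / 4 : ℝ) ≤ NJ z m M lam ^ (1 : ℝ) :=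
          ENNReal.rpow_le_rpow_of_exponent_le h1 (by norm_num)
      _ = _ := ENNReal.rpow_one _

theorem meas_da (H : ℝ → ℂ) (k : ℤ) : Measurable (da H k) := by
  unfold da
  refine measurable_const.mul ?_
  exact (Measurable.of_discrete (f := fun l : ℤ => ∫ y in dy k l, H y)).comp
    (Int.measurable_floor.comp (measurable_const.mul measurable_id))

theorem meas_NJ (H : ℝ → ℂ) (m M : ℤ) (lam : ℝ≥0∞) :
    Measurable fun x => NJ (fun k => da H k x) m M lam := by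
  unfold NJ
  refine Measurable.iSup fun P => ?_
  have hset : MeasurableSet {x : ℝ | (∀ c ∈ P, m ≤ c.1 ∧ c.1 ≤ c.2 ∧ c.2 ≤ M ∧
      lam ≤ ‖da H c.2 x - da H c.1 x‖ₑ) ∧
      ∀ c ∈ P, ∀ d ∈ P, c ≠ d → c.2 ≤ d.1 ∨ d.2 ≤ c.1} := by
    refine MeasurableSet.inter ?_ (MeasurableSet.const _)
    have e : {x : ℝ | ∀ c ∈ P, m ≤ c.1 ∧ c.1 ≤ c.2 ∧ c.2 ≤ M ∧
        lam ≤ ‖da H c.2 x - da H c.1 x‖ₑ} = ⋂ c ∈ P, {x : ℝ | m ≤ c.1 ∧ c.1 ≤ c.2 ∧ c.2 ≤ M ∧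
        lam ≤ ‖da H c.2 x - da H c.1 x‖ₑ} := by
      ext x
      simp
    change MeasurableSet {x : ℝ | ∀ c ∈ P, m ≤ c.1 ∧ c.1 ≤ c.2 ∧ c.2 ≤ M ∧
        lam ≤ ‖da H c.2 x - da H c.1 x‖ₑ}
    rw [e]
    refine Finset.measurableSet_biInter _ fun c _ => ?_
    refine (MeasurableSet.const (m ≤ c.1)).inter ((MeasurableSet.const (c.1 ≤ c.2)).inter
      ((MeasurableSet.const (c.2 ≤ M)).inter ?_))
    exact measurableSet_le measurable_const ((meas_da H c.2).sub (meas_da H c.1)).enorm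
  have e : (fun x => ⨆ (_ : (∀ c ∈ P, m ≤ c.1 ∧ c.1 ≤ c.2 ∧ c.2 ≤ M ∧
      lam ≤ ‖da H c.2 x - da H c.1 x‖ₑ) ∧
      ∀ c ∈ P, ∀ d ∈ P, c ≠ d → c.2 ≤ d.1 ∨ d.2 ≤ c.1), (P.card : ℝ≥0∞)) =
      {x : ℝ | (∀ c ∈ P, m ≤ c.1 ∧ c.1 ≤ c.2 ∧ c.2 ≤ M ∧
      lam ≤ ‖da H c.2 x - da H c.1 x‖ₑ) ∧
      ∀ c ∈ P, ∀ d ∈ P, c ≠ d → c.2 ≤ d.1 ∨ d.2 ≤ c.1}.indicator
        (fun _ => (P.card : ℝ≥0∞)) := by
    funext x
    by_cases hx : (∀ c ∈ P, m ≤ c.1 ∧ c.1 ≤ c.2 ∧ c.2 ≤ M ∧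
      lam ≤ ‖da H c.2 x - da H c.1 x‖ₑ) ∧
      ∀ c ∈ P, ∀ d ∈ P, c ≠ d → c.2 ≤ d.1 ∨ d.2 ≤ c.1
    · rw [indicator_of_mem (by exact hx), iSup_pos hx]
    · rw [indicator_of_notMem (by exact hx), iSup_neg hx]
      rfl
  rw [e]
  exact measurable_const.indicator hset

theorem holder {g : ℝ → ℝ≥0∞} (hg : Measurable g) (W : Set ℝ) :
    ∫⁻ x in W, g x ^ (1 / 4 : ℝ) ≤ volume W ^ (3 / 4 : ℝ) * (∫⁻ x, g x) ^ (1 / 4 : ℝ) := by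
  have hpq : (4 / 3 : ℝ).HolderConjugate 4 := by
    rw [Real.holderConjugate_iff]
    norm_num
  have h := ENNReal.lintegral_mul_le_Lp_mul_Lq (volume.restrict W) hpq
    (f := fun _ => (1 : ℝ≥0∞)) (g := fun x => g x ^ (1 / 4 : ℝ)) aemeasurable_const
    (hg.pow_const _).aemeasurable
  have e1 : ∫⁻ x in W, ((fun _ : ℝ => (1 : ℝ≥0∞)) * (fun y : ℝ => g y ^ (1 / 4 : ℝ)) :
      ℝ → ℝ≥0∞) x = ∫⁻ x in W, g x ^ (1 / 4 : ℝ) := by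
    refine lintegral_congr fun x => ?_
    rw [Pi.mul_apply, one_mul]
  have e2 : (∫⁻ _ in W, (1 : ℝ≥0∞) ^ (4 / 3 : ℝ)) ^ (1 / (4 / 3 : ℝ)) =
      volume W ^ (3 / 4 : ℝ) := by
    rw [ENNReal.one_rpow, setLIntegral_const, one_mul]
    norm_num
  have e3 : (∫⁻ x in W, (g x ^ (1 / 4 : ℝ)) ^ (4 : ℝ)) ^ (1 / (4 : ℝ)) ≤
      (∫⁻ x, g x) ^ (1 / 4 : ℝ) := by
    refine ENNReal.rpow_le_rpow ?_ (by norm_num)
    refine (setLIntegral_le_lintegral _ _).trans (le_of_eq ?_)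
    refine lintegral_congr fun x => ?_
    rw [← ENNReal.rpow_mul]
    norm_num
  rw [e1, e2] at h
  refine h.trans ?_
  gcongr

/-- the ratio -/
noncomputable def q : ℝ≥0 := (2 : ℝ≥0) ^ (-(1 / 2) : ℝ)

theorem q_lt : q < 1 := NNReal.rpow_lt_one_of_one_lt_of_neg (by norm_num) (by norm_num)

theorem sum_q : ∑' i : ℤ, ((q ^ i.natAbs : ℝ≥0) : ℝ≥0∞) ≠ ⊤ := by
  rw [ENNReal.tsum_coe_ne_top_iff_summable]
  rw [← NNReal.summable_coe]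
  have h1 : Summable fun n : ℕ => (q : ℝ) ^ n :=
    summable_geometric_of_lt_one q.2 (by exact_mod_cast q_lt)
  refine Summable.of_nat_of_neg ?_ ?_
  · simpa using h1
  · simpa using h1

theorem q_coe : (q : ℝ≥0∞) = (2 : ℝ≥0∞) ^ (-(1 / 2) : ℝ) := by
  unfold q
  rw [ENNReal.coe_rpow_of_ne_zero (by norm_num)]
  norm_num

/-- negative scales -/
theorem q_neg {i : ℤ} (hi : i < 0) : ((2 : ℝ≥0∞) ^ i) ^ (1 / 2 : ℝ) = (q : ℝ≥0∞) ^ i.natAbs := by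
  rw [q_coe, ← ENNReal.rpow_intCast, ← ENNReal.rpow_mul, ← ENNReal.rpow_natCast,
    ← ENNReal.rpow_mul]
  congr 1
  have : ((i.natAbs : ℕ) : ℝ) = -(i : ℝ) := by
    have h : ((i.natAbs : ℕ) : ℤ) = -i := by omega
    rw [← Int.cast_neg, ← h, Int.cast_natCast]
  rw [this]
  ring

/-- nonnegative scales -/
theorem q_pos {i : ℤ} (hi : 0 ≤ i) : ((2 : ℝ≥0∞) ^ i)⁻¹ ≤ (q : ℝ≥0∞) ^ i.natAbs := by
  rw [q_coe, ← ENNReal.rpow_intCast, ← ENNReal.rpow_neg, ← ENNReal.rpow_natCast,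
    ← ENNReal.rpow_mul]
  refine ENNReal.rpow_le_rpow_of_exponent_le (by norm_num) ?_
  have : ((i.natAbs : ℕ) : ℝ) = (i : ℝ) := by
    have h : ((i.natAbs : ℕ) : ℤ) = i := by omega
    conv_rhs => rw [← h]
    rw [Int.cast_natCast]
  rw [this]
  have : (0 : ℝ) ≤ i := by exact_mod_cast hi
  linarith

/-- one scale -/
theorem scale (h1 : T_VJ1) {H : ℝ → ℂ} (m M : ℤ) {W : Set ℝ} (hH : Measurable H)
    (hI : Integrable H) {e0 : ℝ≥0∞} (h0 : e0 ≠ 0) (ht : e0 ≠ ⊤)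
    (he : ∫⁻ x, ‖H x‖ₑ ^ 2 = e0 ^ 2 * volume W) (i : ℤ) :
    ∫⁻ x in W, 2 * ((2 : ℝ≥0∞) ^ i * e0) *
      NJ (fun k => da H k x) m M ((2 : ℝ≥0∞) ^ i * e0) ^ (1 / 4 : ℝ) ≤
      8 * (q : ℝ≥0∞) ^ i.natAbs * (e0 * volume W) := by
  set t : ℝ≥0∞ := (2 : ℝ≥0∞) ^ i with htd
  have ht0 : t ≠ 0 := (ENNReal.zpow_pos (by norm_num) (by norm_num) i).ne'
  have htt : t ≠ ⊤ := (ENNReal.zpow_lt_top (by norm_num) (by norm_num) i).ne
  set V := volume W with hV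
  have hl0 : 0 < t * e0 := by
    rw [pos_iff_ne_zero]
    exact mul_ne_zero ht0 h0
  have hX := h1 H m M (t * e0) hH hI hl0 (ENNReal.mul_ne_top htt ht)
  set X := ∫⁻ x, NJ (fun k => da H k x) m M (t * e0) with hXd
  have hX' : X ≤ 4 * (t⁻¹ ^ 2 * V) := by
    rw [he, ENNReal.mul_le_iff_le_inv (pow_ne_zero 2 hl0.ne')
      (ENNReal.pow_ne_top (ENNReal.mul_ne_top htt ht))] at hX
    refine hX.trans (le_of_eq ?_)
    have e1 : ((t * e0) ^ 2)⁻¹ = t⁻¹ ^ 2 * (e0⁻¹) ^ 2 := by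
      rw [mul_pow, ENNReal.mul_inv (Or.inl (pow_ne_zero 2 ht0)) (Or.inl (ENNReal.pow_ne_top htt)),
        ENNReal.inv_pow, ENNReal.inv_pow]
    rw [e1]
    calc t⁻¹ ^ 2 * e0⁻¹ ^ 2 * (4 * (e0 ^ 2 * V)) = 4 * (t⁻¹ ^ 2 * V) * (e0⁻¹ * e0) ^ 2 := by ring
      _ = 4 * (t⁻¹ ^ 2 * V) := by rw [ENNReal.inv_mul_cancel h0 ht, one_pow, mul_one]
  have hm : Measurable fun x => NJ (fun k => da H k x) m M (t * e0) := meas_NJ H m M _
  rw [lintegral_const_mul _ (hm.pow_const _)]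
  rcases lt_or_ge i 0 with hi | hi
  · have h2 := holder hm W
    rw [← hXd, ← hV] at h2
    have h3 : X ^ (1 / 4 : ℝ) ≤ 4 * ((t ^ (1 / 2 : ℝ))⁻¹ * V ^ (1 / 4 : ℝ)) := by
      refine (ENNReal.rpow_le_rpow hX' (by norm_num)).trans ?_
      rw [ENNReal.mul_rpow_of_nonneg _ _ (by norm_num), ENNReal.mul_rpow_of_nonneg _ _
        (by norm_num)]
      have e1 : (t⁻¹ ^ 2) ^ (1 / 4 : ℝ) = (t ^ (1 / 2 : ℝ))⁻¹ := by
        rw [← ENNReal.rpow_natCast, ← ENNReal.rpow_mul, ← ENNReal.inv_rpow]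
        norm_num
      have e2 : (4 : ℝ≥0∞) ^ (1 / 4 : ℝ) ≤ 4 := by
        calc (4 : ℝ≥0∞) ^ (1 / 4 : ℝ) ≤ 4 ^ (1 : ℝ) :=
              ENNReal.rpow_le_rpow_of_exponent_le (by norm_num) (by norm_num)
          _ = 4 := ENNReal.rpow_one _
      rw [e1]
      gcongr
    have hth : t ^ (1 / 2 : ℝ) = (q : ℝ≥0∞) ^ i.natAbs := q_neg hi
    have hs0 : t ^ (1 / 2 : ℝ) ≠ 0 := by
      rw [Ne, ENNReal.rpow_eq_zero_iff]
      rintro (⟨h, -⟩ | ⟨h, -⟩)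
      · exact ht0 h
      · exact htt h
    have hst : t ^ (1 / 2 : ℝ) ≠ ⊤ := ENNReal.rpow_ne_top_of_nonneg (by norm_num) htt
    have htsq : t = t ^ (1 / 2 : ℝ) * t ^ (1 / 2 : ℝ) := by
      rw [← ENNReal.rpow_add _ _ ht0 htt]
      norm_num
    have hts : t * (t ^ (1 / 2 : ℝ))⁻¹ = t ^ (1 / 2 : ℝ) := by
      calc t * (t ^ (1 / 2 : ℝ))⁻¹ = t ^ (1 / 2 : ℝ) * t ^ (1 / 2 : ℝ) * (t ^ (1 / 2 : ℝ))⁻¹ := by
            rw [← htsq]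
        _ = t ^ (1 / 2 : ℝ) := by rw [mul_assoc, ENNReal.mul_inv_cancel hs0 hst, mul_one]
    rw [← hth]
    calc 2 * (t * e0) * ∫⁻ x in W, NJ (fun k => da H k x) m M (t * e0) ^ (1 / 4 : ℝ)
        ≤ 2 * (t * e0) * (V ^ (3 / 4 : ℝ) * (4 * ((t ^ (1 / 2 : ℝ))⁻¹ * V ^ (1 / 4 : ℝ)))) := by
          gcongr
          exact h2.trans (by gcongr)
      _ = 8 * (t * (t ^ (1 / 2 : ℝ))⁻¹) * (e0 * (V ^ (3 / 4 : ℝ) * V ^ (1 / 4 : ℝ))) := by ring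
      _ = 8 * t ^ (1 / 2 : ℝ) * (e0 * V) := by
          rw [hts, ← ENNReal.rpow_add_of_nonneg _ _ (by norm_num) (by norm_num)]
          norm_num
  · have h2 : ∫⁻ x in W, NJ (fun k => da H k x) m M (t * e0) ^ (1 / 4 : ℝ) ≤ X :=
      (lintegral_mono fun x => NJ_rpow_le _ m M _).trans (setLIntegral_le_lintegral _ _)
    have hq := q_pos hi
    rw [← htd] at hq
    calc 2 * (t * e0) * ∫⁻ x in W, NJ (fun k => da H k x) m M (t * e0) ^ (1 / 4 : ℝ)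
        ≤ 2 * (t * e0) * (4 * (t⁻¹ ^ 2 * V)) := by
          gcongr
          exact h2.trans hX'
      _ = 8 * t⁻¹ * (e0 * V) * (t * t⁻¹) := by ring
      _ = 8 * t⁻¹ * (e0 * V) := by rw [ENNReal.mul_inv_cancel ht0 htt, mul_one]
      _ ≤ 8 * (q : ℝ≥0∞) ^ i.natAbs * (e0 * V) := by gcongr

theorem V4_zero (m M : ℤ) : V4 (fun _ => (0 : ℂ)) m M = 0 := by
  unfold V4
  refine le_antisymm (iSup₂_le fun P _ => ?_) zero_le
  simp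

end VJM_

open VJM_ in
/-- the 4-variation of the dyadic averages -/
theorem p_VJM (h1 : T_VJ1) : T_VJM := by
  set S : ℝ≥0∞ := ∑' i : ℤ, ((q ^ i.natAbs : ℝ≥0) : ℝ≥0∞) with hS
  have hSt : S ≠ ⊤ := sum_q
  refine ⟨(8 * S).toNNReal + 1, fun H m M W hH hI hW hWt => ?_⟩
  have hC : (((8 * S).toNNReal + 1 : ℝ≥0) : ℝ≥0∞) = 8 * S + 1 := by
    rw [ENNReal.coe_add, ENNReal.coe_toNNReal (ENNReal.mul_ne_top (by norm_num) hSt),
      ENNReal.coe_one]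
  rw [hC]
  set V := volume W with hV
  set h2 := ∫⁻ x, ‖H x‖ₑ ^ 2 with hh2
  rcases eq_or_ne V 0 with hV0 | hV0
  · have : volume.restrict W = 0 := Measure.restrict_eq_zero.mpr hV0
    rw [this, lintegral_zero_measure]
    exact zero_le
  rcases eq_or_ne h2 0 with h20 | h20
  · have e1 : ∀ᵐ x, H x = 0 := by
      rw [hh2, lintegral_eq_zero_iff (by fun_prop)] at h20
      filter_upwards [h20] with x hx
      simpa using hx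
    have e2 : ∀ (k : ℤ) (x : ℝ), da H k x = 0 := by
      intro k x
      unfold da
      have e4 : ∫ y in dy k ⌊(2 : ℝ) ^ (-k) * x⌋, H y = 0 :=
        (integral_congr_ae (g := fun _ => (0 : ℂ)) (ae_restrict_of_ae e1)).trans (by simp)
      rw [e4, mul_zero]
    have e3 : ∫⁻ x in W, V4 (fun k => da H k x) m M = 0 := by
      simp only [e2, V4_zero, lintegral_zero]
    rw [e3]
    exact zero_le
  rcases eq_or_ne h2 ⊤ with h2t | h2t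
  · rw [h2t, ENNReal.top_rpow_of_pos (by norm_num), ENNReal.mul_top]
    · exact le_top
    · refine mul_ne_zero ?_ ?_
      · exact (one_pos.trans_le le_add_self).ne'
      · rw [Ne, ENNReal.rpow_eq_zero_iff]
        rintro (⟨h, -⟩ | ⟨h, -⟩)
        · exact hV0 h
        · exact hWt h
  set e0 : ℝ≥0∞ := (h2 / V) ^ (1 / 2 : ℝ) with he0
  have hd0 : h2 / V ≠ 0 := ENNReal.div_ne_zero.mpr ⟨h20, hWt⟩
  have hdt : h2 / V ≠ ⊤ := ENNReal.div_ne_top h2t hV0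
  have he00 : e0 ≠ 0 := by
    rw [he0, Ne, ENNReal.rpow_eq_zero_iff]
    rintro (⟨h, -⟩ | ⟨h, -⟩)
    · exact hd0 h
    · exact hdt h
  have he0t : e0 ≠ ⊤ := ENNReal.rpow_ne_top_of_nonneg (by norm_num) hdt
  have hesq : h2 = e0 ^ 2 * V := by
    rw [he0, ← ENNReal.rpow_natCast, ← ENNReal.rpow_mul]
    norm_num
    rw [ENNReal.div_mul_cancel hV0 hWt]
  have heV : e0 * V = V ^ (1 / 2 : ℝ) * h2 ^ (1 / 2 : ℝ) := by
    rw [hesq, ENNReal.mul_rpow_of_nonneg _ _ (by norm_num), ← ENNReal.rpow_natCast e0,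
      ← ENNReal.rpow_mul]
    have e1 : V = V ^ (1 / 2 : ℝ) * V ^ (1 / 2 : ℝ) := by
      rw [← ENNReal.rpow_add _ _ hV0 hWt]
      norm_num
    have e2 : ((2 : ℕ) : ℝ) * (1 / 2) = 1 := by norm_num
    rw [e2, ENNReal.rpow_one]
    conv_lhs => rw [e1]
    ring
  calc ∫⁻ x in W, V4 (fun k => da H k x) m M
      ≤ ∫⁻ x in W, ∑' i : ℤ, 2 * ((2 : ℝ≥0∞) ^ i * e0) *
        NJ (fun k => da H k x) m M ((2 : ℝ≥0∞) ^ i * e0) ^ (1 / 4 : ℝ) :=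
        lintegral_mono fun x => V4_le _ m M he00 he0t
    _ = ∑' i : ℤ, ∫⁻ x in W, 2 * ((2 : ℝ≥0∞) ^ i * e0) *
        NJ (fun k => da H k x) m M ((2 : ℝ≥0∞) ^ i * e0) ^ (1 / 4 : ℝ) :=
        lintegral_tsum fun i => (((meas_NJ H m M _).pow_const _).const_mul _).aemeasurable
    _ ≤ ∑' i : ℤ, 8 * (q : ℝ≥0∞) ^ i.natAbs * (e0 * V) :=
        ENNReal.tsum_le_tsum fun i => scale h1 m M hH hI he00 he0t hesq i
    _ = 8 * S * (e0 * V) := by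
        rw [ENNReal.tsum_mul_right, ENNReal.tsum_mul_left, hS]
        simp only [ENNReal.coe_pow]
    _ ≤ (8 * S + 1) * (e0 * V) := by
        gcongr
        exact le_self_add
    _ = (8 * S + 1) * V ^ (1 / 2 : ℝ) * h2 ^ (1 / 2 : ℝ) := by rw [heV, mul_assoc]

end Pool.Agent.VRC
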