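import Pool.Agent.VRC.Targets
import Pool.Agent.CAR.MASS

/-!
# VRC, target VMASS (helper66): the mass lemma
-/

set_option autoImplicit false

namespace Pool.Agent.VRC

open MeasureTheory Set ComplexConjugate Filter Topology
open scoped ENNReal NNReal
open Pool.Agent.CAR

namespace VMASS_

open Pool.Agent.CAR.MASS (TLE_trans TLE_k TLE_eq bal bal_eq volume_bal measurableSet_bal
  wt_le_tsum measurable_wt wt_nonneg wt_le_one finite_above measurableSet_om)

/-- the weights of disjoint frequency intervals add up to at most the indicator of `E` -/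
def Spl (f : Tile → ℝ → ℝ≥0∞) (E : Set ℝ) : Prop :=
  ∀ (I : Finset Tile) (x : ℝ), (∀ s ∈ I, ∀ t ∈ I, s ≠ t → Disjoint s.om t.om) →
    ∑ s ∈ I, f s x ≤ E.indicator (fun _ => 1) x

/-- the weight of `u` in the ball of radius `2 ^ j` -/
noncomputable def pm (f : Tile → ℝ → ℝ≥0∞) (j : ℕ) (u : Tile) : ℝ≥0∞ :=
  ∫⁻ x in bal u (2 ^ j), f u x

/-- density of a tile -/
noncomputable def dens (f : Tile → ℝ → ℝ≥0∞) (u : Tile) : ℝ :=
  (2 : ℝ) ^ (-u.k) * (∫⁻ x, ENNReal.ofReal (wt 8 (u.u x)) * f u x).toReal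

theorem Spl.one {f : Tile → ℝ → ℝ≥0∞} {E : Set ℝ} (hs : Spl f E) (u : Tile) (x : ℝ) :
    f u x ≤ E.indicator (fun _ => 1) x := by
  have h := hs {u} x (by
    intro s hs t ht hne
    rw [Finset.mem_singleton] at hs ht
    exact absurd (hs.trans ht.symm) hne)
  rwa [Finset.sum_singleton] at h

theorem dens_le {f : Tile → ℝ → ℝ≥0∞} {E : Set ℝ} (hE : MeasurableSet E) (hfE : volume E ≠ ⊤)
    (hs : Spl f E) (u : Tile) : dens f u ≤ (2 : ℝ) ^ (-u.k) * vol E := by
  rw [dens]
  apply mul_le_mul_of_nonneg_left _ (two_zpow_pos _).le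
  rw [vol]
  apply ENNReal.toReal_mono hfE
  calc ∫⁻ x, ENNReal.ofReal (wt 8 (u.u x)) * f u x
      ≤ ∫⁻ x, E.indicator (fun _ => 1) x := by
        apply lintegral_mono
        intro x
        calc ENNReal.ofReal (wt 8 (u.u x)) * f u x ≤ 1 * E.indicator (fun _ => 1) x := by
              refine mul_le_mul' ?_ (hs.one u x)
              rw [← ENNReal.ofReal_one]
              exact ENNReal.ofReal_le_ofReal (wt_le_one _ _)
          _ = _ := one_mul _
    _ = volume E := by rw [lintegral_indicator_const hE, one_mul]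

/-- the count -/
theorem count {f : Tile → ℝ → ℝ≥0∞} (hf : ∀ u, Measurable (f u)) {mu : ℝ} (hmu : 0 < mu)
    {u : Tile} (h : mu / 4 < dens f u) :
    ∃ j : ℕ, ENNReal.ofReal (1 / 2048 * 4 ^ j * mu * (2 : ℝ) ^ u.k) < pm f j u := by
  by_contra hcon
  push Not at hcon
  have hk := two_zpow_pos u.k
  have key : ∫⁻ x, ENNReal.ofReal (wt 8 (u.u x)) * f u x ≤
      ENNReal.ofReal (mu / 4 * (2 : ℝ) ^ u.k) := by
    calc ∫⁻ x, ENNReal.ofReal (wt 8 (u.u x)) * f u x
        ≤ ∫⁻ x, ∑' j : ℕ, ENNReal.ofReal (256 * ((2 : ℝ) ^ (8 * j))⁻¹) *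
            (bal u (2 ^ j)).indicator (f u) x := by
          apply lintegral_mono
          intro x
          calc ENNReal.ofReal (wt 8 (u.u x)) * f u x
              ≤ (∑' j : ℕ, ENNReal.ofReal (256 * ((2 : ℝ) ^ (8 * j))⁻¹) *
                (if |u.u x| < 2 ^ j then 1 else 0)) * f u x :=
                mul_le_mul' (wt_le_tsum _) le_rfl
            _ = ∑' j : ℕ, ENNReal.ofReal (256 * ((2 : ℝ) ^ (8 * j))⁻¹) *
                (bal u (2 ^ j)).indicator (f u) x := by
                rw [← ENNReal.tsum_mul_right]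
                congr 1
                ext j
                rw [mul_assoc]
                congr 1
                by_cases hx : |u.u x| < 2 ^ j
                · rw [if_pos hx, one_mul, indicator_of_mem (show x ∈ bal u (2 ^ j) from hx)]
                · rw [if_neg hx, zero_mul, indicator_of_notMem (show x ∉ bal u (2 ^ j) from hx)]
      _ = ∑' j : ℕ, ENNReal.ofReal (256 * ((2 : ℝ) ^ (8 * j))⁻¹) * pm f j u := by
          rw [lintegral_tsum fun j =>
            (((hf u).indicator (measurableSet_bal u (2 ^ j))).const_mul _).aemeasurable]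
          congr 1
          ext j
          rw [lintegral_const_mul' _ _ ENNReal.ofReal_ne_top,
            lintegral_indicator (measurableSet_bal u _), pm]
      _ ≤ ∑' j : ℕ, ENNReal.ofReal (256 * ((2 : ℝ) ^ (8 * j))⁻¹) *
            ENNReal.ofReal (1 / 2048 * 4 ^ j * mu * (2 : ℝ) ^ u.k) := by
          apply ENNReal.tsum_le_tsum
          intro j
          exact mul_le_mul_right (hcon j) _
      _ = ∑' j : ℕ, ENNReal.ofReal (1 / 8 * mu * (2 : ℝ) ^ u.k * (1 / 64) ^ j) := by
          congr 1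
          ext j
          rw [← ENNReal.ofReal_mul (by positivity)]
          congr 1
          have e1 : (2 : ℝ) ^ (8 * j) = 256 ^ j := by rw [pow_mul]; norm_num
          have e2 : (1 / 64 : ℝ) ^ j = (256 ^ j)⁻¹ * 4 ^ j := by
            rw [← inv_pow, ← mul_pow]; norm_num
          rw [e1, e2]; ring
      _ = ENNReal.ofReal (∑' j : ℕ, 1 / 8 * mu * (2 : ℝ) ^ u.k * (1 / 64) ^ j) := by
          rw [ENNReal.ofReal_tsum_of_nonneg]
          · intro j; positivity
          · exact (summable_geometric_of_lt_one (by norm_num) (by norm_num)).mul_left _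
      _ ≤ ENNReal.ofReal (mu / 4 * (2 : ℝ) ^ u.k) := by
          apply ENNReal.ofReal_le_ofReal
          rw [tsum_mul_left, tsum_geometric_of_lt_one (by norm_num) (by norm_num)]
          have : 0 < mu * (2 : ℝ) ^ u.k := by positivity
          norm_num
          nlinarith
  have h2 : dens f u ≤ mu / 4 := by
    rw [dens]
    have h3 := ENNReal.toReal_mono ENNReal.ofReal_ne_top key
    rw [ENNReal.toReal_ofReal (by positivity)] at h3
    calc (2 : ℝ) ^ (-u.k) * _ ≤ (2 : ℝ) ^ (-u.k) * (mu / 4 * (2 : ℝ) ^ u.k) :=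
          mul_le_mul_of_nonneg_left h3 (two_zpow_pos _).le
      _ = mu / 4 := by
          have := two_zpow_neg_mul u.k
          linear_combination (mu / 4) * this
  linarith

/-- the packing bound for one `j` -/
theorem pack {f : Tile → ℝ → ℝ≥0∞} {E : Set ℝ} (hE : MeasurableSet E) (hfE : volume E ≠ ⊤)
    (hf : ∀ u, Measurable (f u)) (hs : Spl f E) {mu : ℝ} (hmu : 0 < mu) (j : ℕ)
    (U : Finset Tile)
    (hinc : ∀ u ∈ U, ∀ v ∈ U, TLE u v → v = u)
    (hU : ∀ u ∈ U, ENNReal.ofReal (1 / 2048 * 4 ^ j * mu * (2 : ℝ) ^ u.k) < pm f j u) :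
    ∑ u ∈ U, (2 : ℝ) ^ u.k ≤ 12288 * (1 / 2) ^ j * vol E / mu := by
  classical
  -- Vitali selection
  obtain ⟨K, hK⟩ : ∃ K : ℝ, ∀ a ∈ (U : Set Tile), (2 : ℝ) ^ a.k ≤ K := by
    refine ⟨∑ u ∈ U, (2 : ℝ) ^ u.k, fun a ha => ?_⟩
    exact Finset.single_le_sum (f := fun u : Tile => (2 : ℝ) ^ u.k)
      (fun i _ => (two_zpow_pos _).le) (Finset.mem_coe.1 ha)
  obtain ⟨V, hVU, hVd, hVc⟩ := Vitali.exists_disjoint_subfamily_covering_enlargement
    (fun u : Tile => bal u (2 ^ j) ×ˢ u.om) (U : Set Tile) (fun u : Tile => (2 : ℝ) ^ u.k)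
    (3 / 2) (by norm_num) (fun a _ => (two_zpow_pos _).le) K hK (by
      intro a _
      refine ⟨((2 : ℝ) ^ a.k * a.l, (2 : ℝ) ^ (-a.k) * a.m), ?_, left_mem_dy _ _⟩
      have := two_zpow_neg_mul a.k
      simp only [bal, mem_ofPred_eq, Tile.u]
      rw [← mul_assoc, this, one_mul, sub_self, abs_zero]
      positivity)
  have hVf : V.Finite := U.finite_toSet.subset hVU
  set W : Finset Tile := hVf.toFinset with hW
  have hWU : ∀ v ∈ W, v ∈ U := fun v hv => Finset.mem_coe.1 (hVU (by simpa [hW] using hv))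
  -- assignment
  have hass : ∀ u ∈ U, ∃ v ∈ W, ((bal u (2 ^ j) ×ˢ u.om) ∩ (bal v (2 ^ j) ×ˢ v.om)).Nonempty ∧
      u.k ≤ v.k := by
    intro u hu
    obtain ⟨v, hv, h1, h2⟩ := hVc u (Finset.mem_coe.2 hu)
    refine ⟨v, by simpa [hW] using hv, h1, ?_⟩
    by_contra hk
    push Not at hk
    have h3 : (2 : ℝ) ^ (v.k + 1) ≤ (2 : ℝ) ^ u.k := two_zpow_le (by omega)
    rw [two_zpow_succ] at h3
    have := two_zpow_pos v.k
    linarith
  choose! a ha1 ha2 using hass
  -- sum over one fibre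
  have hfib : ∀ v ∈ W, ∑ u ∈ U.filter (fun u => a u = v), (2 : ℝ) ^ u.k ≤
      6 * 2 ^ j * (2 : ℝ) ^ v.k := by
    intro v hv
    have hsub : ∀ u ∈ U.filter (fun u => a u = v), u.I ⊆ bal v (3 * 2 ^ j) := by
      intro u hu x hx
      rw [Finset.mem_filter] at hu
      obtain ⟨⟨⟨x0, y0⟩, ⟨h1, _⟩, ⟨h2, _⟩⟩, hk⟩ := ha2 u hu.1
      rw [hu.2] at h2 hk
      simp only [bal, mem_ofPred_eq] at h1 h2 ⊢
      have hx' := mem_I.1 hx
      have e1 : v.u x = v.u x0 + (2 : ℝ) ^ (-v.k) * (2 : ℝ) ^ u.k * (u.u x - u.u x0) := by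
        have := two_zpow_mul_neg u.k
        simp only [Tile.u]
        linear_combination (-(2 : ℝ) ^ (-v.k) * (x - x0)) * this
      have e2 : 0 < (2 : ℝ) ^ (-v.k) * (2 : ℝ) ^ u.k := by
        have := two_zpow_pos u.k
        have := two_zpow_pos (-v.k)
        positivity
      have e3 : (2 : ℝ) ^ (-v.k) * (2 : ℝ) ^ u.k ≤ 1 := by
        have h5 := two_zpow_neg_mul v.k
        have h6 := two_zpow_le hk
        have h7 := two_zpow_pos (-v.k)
        nlinarith
      have e4 : |u.u x - u.u x0| < 1 + 2 ^ j := by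
        rw [abs_lt] at h1 ⊢
        constructor <;> linarith [hx'.1, hx'.2, h1.1, h1.2]
      have e5 : |(2 : ℝ) ^ (-v.k) * (2 : ℝ) ^ u.k * (u.u x - u.u x0)| < 1 + 2 ^ j := by
        rw [abs_mul, abs_of_pos e2]
        nlinarith [abs_nonneg (u.u x - u.u x0)]
      have e6 : (1 : ℝ) ≤ 2 ^ j := one_le_pow₀ (by norm_num)
      rw [e1]
      have := abs_add_le (v.u x0) ((2 : ℝ) ^ (-v.k) * (2 : ℝ) ^ u.k * (u.u x - u.u x0))
      linarith
    have hdis : Set.PairwiseDisjoint (U.filter (fun u => a u = v) : Set Tile) Tile.I := by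
      have aux : ∀ u ∈ U, ∀ w ∈ U, a u = v → a w = v → u.k ≤ w.k → u ≠ w →
          Disjoint u.I w.I := by
        intro u hu w hw hau haw hk hne
        rcases I_nest (s := u) (t := w) hk with h | h
        · exfalso
          apply hne
          obtain ⟨⟨⟨x0, y0⟩, ⟨_, h1⟩, ⟨_, h2⟩⟩, hk1⟩ := ha2 u hu
          obtain ⟨⟨⟨x1, y1⟩, ⟨_, h3⟩, ⟨_, h4⟩⟩, hk2⟩ := ha2 w hw
          rw [hau] at h2 hk1
          rw [haw] at h4 hk2
          have g1 : v.om ⊆ u.om := om_sub hk1 h1 h2
          have g2 : v.om ⊆ w.om := om_sub hk2 h3 h4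
          have g3 : w.om ⊆ u.om := om_sub hk (g1 h2) (g2 h2)
          exact (hinc u hu w hw ⟨h, g3⟩).symm
        · exact h
      intro u hu w hw hne
      simp only [Finset.coe_filter, mem_ofPred_eq] at hu hw
      rcases le_total u.k w.k with hk | hk
      · exact aux u hu.1 w hw.1 hu.2 hw.2 hk hne
      · exact (aux w hw.1 u hu.1 hw.2 hu.2 hk hne.symm).symm
    have hm : volume (⋃ u ∈ U.filter (fun u => a u = v), u.I) =
        ∑ u ∈ U.filter (fun u => a u = v), volume u.I :=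
      measure_biUnion_finset hdis (fun u _ => measurableSet_dy _ _)
    have hle : volume (⋃ u ∈ U.filter (fun u => a u = v), u.I) ≤ volume (bal v (3 * 2 ^ j)) :=
      measure_mono (iUnion₂_subset hsub)
    rw [hm, volume_bal] at hle
    have e : ∑ u ∈ U.filter (fun u => a u = v), volume u.I =
        ENNReal.ofReal (∑ u ∈ U.filter (fun u => a u = v), (2 : ℝ) ^ u.k) := by
      rw [ENNReal.ofReal_sum_of_nonneg (fun i _ => (two_zpow_pos _).le)]
      exact Finset.sum_congr rfl fun u _ => volume_dy _ _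
    rw [e, ENNReal.ofReal_le_ofReal_iff (by have := two_zpow_pos v.k; positivity)] at hle
    calc _ ≤ _ := hle
      _ = _ := by ring
  -- the disjoint parts
  have hpt : ∀ x, ∑ v ∈ W, (bal v (2 ^ j)).indicator (f v) x ≤ E.indicator (fun _ => 1) x := by
    intro x
    have e : ∑ v ∈ W, (bal v (2 ^ j)).indicator (f v) x =
        ∑ v ∈ W.filter (fun v => x ∈ bal v (2 ^ j)), f v x := by
      rw [Finset.sum_filter]
      exact Finset.sum_congr rfl fun v _ => by rw [indicator_apply]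
    rw [e]
    refine hs _ x fun u hu w hw hne => ?_
    rw [Finset.mem_filter] at hu hw
    have h1 := hVd (by simpa [hW] using hu.1) (by simpa [hW] using hw.1) hne
    rw [Function.onFun] at h1
    rw [Set.disjoint_left]
    intro y hy hy'
    have q1 : (x, y) ∈ bal u (2 ^ j) ×ˢ u.om := ⟨hu.2, hy⟩
    have q2 : (x, y) ∈ bal w (2 ^ j) ×ˢ w.om := ⟨hw.2, hy'⟩
    exact Set.disjoint_left.1 h1 q1 q2
  have hsumW : ENNReal.ofReal (∑ v ∈ W, 1 / 2048 * 4 ^ j * mu * (2 : ℝ) ^ v.k) ≤ volume E := by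
    rw [ENNReal.ofReal_sum_of_nonneg (fun i _ => by have := two_zpow_pos i.k; positivity)]
    calc ∑ v ∈ W, ENNReal.ofReal (1 / 2048 * 4 ^ j * mu * (2 : ℝ) ^ v.k)
        ≤ ∑ v ∈ W, pm f j v := Finset.sum_le_sum fun v hv => (hU v (hWU v hv)).le
      _ = ∑ v ∈ W, ∫⁻ x, (bal v (2 ^ j)).indicator (f v) x := by
          refine Finset.sum_congr rfl fun v _ => ?_
          rw [pm, lintegral_indicator (measurableSet_bal v _)]
      _ = ∫⁻ x, ∑ v ∈ W, (bal v (2 ^ j)).indicator (f v) x := by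
          rw [lintegral_finsetSum]
          exact fun v _ => (hf v).indicator (measurableSet_bal v _)
      _ ≤ ∫⁻ x, E.indicator (fun _ => 1) x := lintegral_mono hpt
      _ = volume E := by rw [lintegral_indicator_const hE, one_mul]
  rw [ENNReal.ofReal_le_iff_le_toReal hfE, ← Finset.mul_sum] at hsumW
  rw [← vol] at hsumW
  have h4 : (0 : ℝ) < 4 ^ j := by positivity
  have h2 : (0 : ℝ) < 2 ^ j := by positivity
  have h24 : (4 : ℝ) ^ j = 2 ^ j * 2 ^ j := by rw [← mul_pow]; norm_num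
  have hV : ∑ v ∈ W, (2 : ℝ) ^ v.k ≤ 2048 * vol E / (4 ^ j * mu) := by
    rw [le_div_iff₀ (by positivity)]
    nlinarith
  calc ∑ u ∈ U, (2 : ℝ) ^ u.k
      = ∑ v ∈ W, ∑ u ∈ U.filter (fun u => a u = v), (2 : ℝ) ^ u.k :=
        (Finset.sum_fiberwise_of_maps_to (fun u hu => ha1 u hu) _).symm
    _ ≤ ∑ v ∈ W, 6 * 2 ^ j * (2 : ℝ) ^ v.k := Finset.sum_le_sum hfib
    _ = 6 * 2 ^ j * ∑ v ∈ W, (2 : ℝ) ^ v.k := by rw [Finset.mul_sum]
    _ ≤ 6 * 2 ^ j * (2048 * vol E / (4 ^ j * mu)) := by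
        apply mul_le_mul_of_nonneg_left hV; positivity
    _ = 12288 * (1 / 2) ^ j * vol E / mu := by
        rw [h24, one_div, inv_pow]; field_simp; ring

/-- **MASS**: the mass lemma -/
theorem mass {f : Tile → ℝ → ℝ≥0∞} {E : Set ℝ} (hE : MeasurableSet E) (hfE : volume E ≠ ⊤)
    (hf : ∀ u, Measurable (f u)) (hs : Spl f E) {mu : ℝ} (hmu : 0 < mu) (S : Finset Tile) :
    ∃ U : Finset Tile, ∑ u ∈ U, (2 : ℝ) ^ u.k ≤ 24576 * vol E / mu ∧
      ∀ s ∈ S, (∀ u ∈ U, ¬ TLE s u) → ∀ u, TLE s u → dens f u ≤ mu / 4 := by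
  classical
  -- an upper bound for the scales
  obtain ⟨K, hK⟩ : ∃ K : ℤ, ∀ u : Tile, mu / 4 < dens f u → u.k ≤ K := by
    obtain ⟨n, hn⟩ := pow_unbounded_of_one_lt (vol E / (mu / 4)) (one_lt_two (α := ℝ))
    refine ⟨n, fun u hu => ?_⟩
    by_contra hk
    push Not at hk
    have h1 := lt_of_lt_of_le hu (dens_le hE hfE hs u)
    have h2 := two_zpow_lt hk
    rw [zpow_natCast] at h2
    have h3 := two_zpow_neg_mul u.k
    have h4 := two_zpow_pos u.k
    have h5 := two_zpow_pos (-u.k)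
    rw [div_lt_iff₀ (by positivity)] at hn
    have h6 : mu / 4 * (2 : ℝ) ^ u.k < vol E := by
      calc mu / 4 * (2 : ℝ) ^ u.k < (2 : ℝ) ^ (-u.k) * vol E * (2 : ℝ) ^ u.k :=
            mul_lt_mul_of_pos_right h1 h4
        _ = vol E := by linear_combination (vol E) * h3
    nlinarith
  have hPf : {u : Tile | mu / 4 < dens f u ∧ ∃ s ∈ S, TLE s u}.Finite := by
    refine (Set.Finite.biUnion S.finite_toSet (fun s _ => finite_above s K)).subset ?_
    rintro u ⟨h1, s, hs, h2⟩
    exact mem_biUnion (Finset.mem_coe.2 hs) ⟨h2, hK u h1⟩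
  set P : Finset Tile := hPf.toFinset with hP
  have memP : ∀ u, u ∈ P ↔ (mu / 4 < dens f u ∧ ∃ s ∈ S, TLE s u) := fun u => by simp [hP]
  set U : Finset Tile := P.filter (fun u => ∀ w ∈ P, TLE u w → w = u) with hU
  refine ⟨U, ?_, ?_⟩
  · -- the sum
    have hj : ∀ u ∈ U, ∃ j : ℕ, ENNReal.ofReal (1 / 2048 * 4 ^ j * mu * (2 : ℝ) ^ u.k) <
        pm f j u := fun u hu =>
      count hf hmu ((memP u).1 (Finset.mem_filter.1 hu).1).1
    choose! j hj using hj
    have hinc : ∀ u ∈ U, ∀ v ∈ U, TLE u v → v = u := fun u hu v hv h =>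
      (Finset.mem_filter.1 hu).2 v (Finset.mem_filter.1 hv).1 h
    have hvol : 0 ≤ vol E := ENNReal.toReal_nonneg
    calc ∑ u ∈ U, (2 : ℝ) ^ u.k
        = ∑ i ∈ U.image j, ∑ u ∈ U.filter (fun u => j u = i), (2 : ℝ) ^ u.k :=
          (Finset.sum_fiberwise_of_maps_to (fun u hu => Finset.mem_image_of_mem _ hu) _).symm
      _ ≤ ∑ i ∈ U.image j, 12288 * (1 / 2) ^ i * vol E / mu := by
          apply Finset.sum_le_sum
          intro i _
          apply pack hE hfE hf hs hmu i
          · intro u hu v hv h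
            exact hinc u (Finset.mem_filter.1 hu).1 v (Finset.mem_filter.1 hv).1 h
          · intro u hu
            rw [Finset.mem_filter] at hu
            rw [← hu.2]
            exact hj u hu.1
      _ = (∑ i ∈ U.image j, (1 / 2 : ℝ) ^ i) * (12288 * vol E / mu) := by
          rw [Finset.sum_mul]
          apply Finset.sum_congr rfl
          intro i _
          ring
      _ ≤ 2 * (12288 * vol E / mu) := by
          apply mul_le_mul_of_nonneg_right _ (by positivity)
          calc ∑ i ∈ U.image j, (1 / 2 : ℝ) ^ i ≤ ∑' i : ℕ, (1 / 2 : ℝ) ^ i :=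
                Summable.sum_le_tsum _ (fun i _ => by positivity) summable_geometric_two
            _ = 2 := tsum_geometric_two
      _ = 24576 * vol E / mu := by ring
  · intro s hs' hno u hu
    by_contra hcon
    push Not at hcon
    -- maximal element above u
    have huP : u ∈ P := (memP u).2 ⟨hcon, s, hs', hu⟩
    obtain ⟨v, hv, hvmax⟩ := Finset.exists_max_image (P.filter (fun w => TLE u w))
      (fun w => w.k) ⟨u, Finset.mem_filter.2 ⟨huP, subset_refl _, subset_refl _⟩⟩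
    rw [Finset.mem_filter] at hv
    have hvU : v ∈ U := by
      rw [hU, Finset.mem_filter]
      refine ⟨hv.1, fun w hw hvw => ?_⟩
      have h1 := hvmax w (Finset.mem_filter.2 ⟨hw, TLE_trans hv.2 hvw⟩)
      exact TLE_eq hvw h1
    exact hno v hvU (TLE_trans hu hv.2)

end VMASS_

open VMASS_ in
theorem p_VMASS (h1 : T_VBAS) (_ : T_VDNB) : T_VMASS := by
  classical
  refine ⟨24576, by norm_num, fun L p q a E hPQ hAB S mu hmu => ?_⟩
  obtain ⟨-, -, -, b4, -, b6, b7⟩ := h1 L p q a 1 E hPQ hAB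
  set f : Tile → ℝ → ℝ≥0∞ := fun u x => ENNReal.ofReal (vm L p a u.om x) with hf
  have hmeas : ∀ u : Tile, Measurable (vm L p a u.om) := fun u =>
    b6 u.om (Pool.Agent.CAR.MASS.measurableSet_om u)
  have hfm : ∀ u, Measurable (f u) := fun u => (hmeas u).ennreal_ofReal
  have hs : Spl f E := by
    intro I x hI
    have h2 := b7 I (fun s => s.om) univ x hI (fun s _ => subset_univ _)
    simp only [hf]
    rw [← ENNReal.ofReal_sum_of_nonneg fun s _ => (b4 s.om x).1]
    by_cases hx : x ∈ E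
    · rw [indicator_of_mem hx, ← ENNReal.ofReal_one]
      refine ENNReal.ofReal_le_ofReal (h2.trans ?_)
      have h3 := (b4 univ x).2.1
      rwa [Real.one_rpow] at h3
    · rw [(b4 univ x).2.2 hx] at h2
      rw [ENNReal.ofReal_of_nonpos h2]
      exact zero_le
  have hd : ∀ u : Tile, vdn L p a u = dens f u := by
    intro u
    rw [vdn, dens, integral_const_mul, integral_eq_lintegral_of_nonneg_ae]
    · congr 2
      refine lintegral_congr fun x => ?_
      rw [ENNReal.ofReal_mul (Pool.Agent.CAR.MASS.wt_nonneg 8 _)]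
    · exact Filter.Eventually.of_forall fun x =>
        mul_nonneg (Pool.Agent.CAR.MASS.wt_nonneg 8 _) (b4 u.om x).1
    · exact ((Pool.Agent.CAR.MASS.measurable_wt 8 u).mul (hmeas u)).aestronglyMeasurable
  obtain ⟨U, k1, k2⟩ := mass hAB.mE hAB.fE hfm hs (show 0 < 4 * mu by linarith) S
  refine ⟨S.filter (fun s => ∀ u ∈ U, ¬ TLE s u), U, Finset.filter_subset _ _, ?_, ?_, ?_⟩
  · intro s hs' u hu
    rw [Finset.mem_filter] at hs'
    rw [hd]
    have := k2 s hs'.1 hs'.2 u hu
    linarith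
  · intro s hs' hs''
    by_contra hcon
    push Not at hcon
    exact hs'' (Finset.mem_filter.2 ⟨hs', hcon⟩)
  · refine le_trans k1 ?_
    have hvol : 0 ≤ vol E := ENNReal.toReal_nonneg
    apply div_le_div_of_nonneg_left (by positivity) hmu
    linarith

end Pool.Agent.VRC
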