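import Pool.Agent.VRC.Targets
import Pool.Agent.CAR.P_STOP
import Pool.Agent.CAR.P_NEAR
import Pool.Agent.CAR.P_SMB
import Pool.Agent.CAR.P_ONE
import Pool.Agent.CAR.P_SPL
import Pool.Agent.CAR.P_WTS
import Pool.Agent.CAR.P_FXB

set_option autoImplicit false

/-!
# VRC, target VMIN: (-)-trees
-/

namespace Pool.Agent.VRC

namespace VMIN_

open MeasureTheory Set ComplexConjugate
open scoped ENNReal NNReal
open Pool.Agent.CAR

/-- the frequencies of the tiles of the scales at least `k + 2` -/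
def UU (T : Finset Tile) (k : ℤ) : Set ℝ := {f | ∃ s ∈ T, k + 2 ≤ s.k ∧ f ∈ s.om}

theorem mUU (T : Finset Tile) (k : ℤ) : MeasurableSet (UU T k) := by
  have : UU T k = ⋃ s ∈ T.filter (fun s => k + 2 ≤ s.k), s.om := by
    ext f
    simp only [UU, mem_ofPred_eq, mem_iUnion, Finset.mem_filter, exists_prop, and_assoc]
  rw [this]
  exact Finset.measurableSet_biUnion _ fun s _ => measurableSet_dy _ _

theorem act_of_ne {L : ℕ} {p q : ℕ → ℝ → ℝ} {a : ℕ → ℝ → ℂ} {s : Tile} {x : ℝ}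
    (h : vc L p q a s x ≠ 0) : ∃ j < L, x ∈ Act p q s j := by
  unfold vc at h
  obtain ⟨j, hj, hne⟩ := Finset.exists_ne_zero_of_sum_ne_zero h
  exact ⟨j, Finset.mem_range.1 hj, by_contra fun hx => hne (indicator_of_notMem hx _)⟩

theorem vc_le {L : ℕ} {p q : ℕ → ℝ → ℝ} {a : ℕ → ℝ → ℂ} {E : Set ℝ} (h1 : T_VBAS)
    (hPQ : PQ L p q) (hAB : AB L a 1 E) {T : Finset Tile} {s : Tile} (hs : s ∈ T) {k0 : ℤ}
    (hk : k0 + 2 ≤ s.k) (x : ℝ) :
    ‖vc L p q a s x‖ ≤ vm L p a (UU T k0) x ^ (3 / 4 : ℝ) := by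
  obtain ⟨-, b2, b3, -⟩ := h1 L p q a 1 E hPQ hAB
  have e1 : ‖vc L p q a s x‖ ^ (4 / 3 : ℝ) ≤ vm L p a (UU T k0) x :=
    (b2 s x).trans (b3 _ _ x fun f hf => ⟨s, hs, hk, up_sub s hf⟩)
  have e2 : ‖vc L p q a s x‖ = (‖vc L p q a s x‖ ^ (4 / 3 : ℝ)) ^ (3 / 4 : ℝ) := by
    rw [← Real.rpow_mul (norm_nonneg _)]
    norm_num
  rw [e2]
  exact Real.rpow_le_rpow (by positivity) e1 (by norm_num)

open Classical in
theorem pt {φ : ℝ → ℂ} {L : ℕ} {p q : ℕ → ℝ → ℝ} {a : ℕ → ℝ → ℂ} {E : Set ℝ} (h1 : T_VBAS)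
    (h2 : T_VTR) (hPQ : PQ L p q) (hAB : AB L a 1 E) {T : Finset Tile} {K Λ : ℤ} {ξ : ℝ}
    (hT : MTree T K Λ ξ) {w : Tile → ℂ} {B x : ℝ} {k0 : ℤ} (hB : 0 ≤ B)
    (h : ∀ j : ℤ, ∑ s ∈ T.filter (fun s => s.k = j), ‖w s‖ * ‖fx φ s x‖ ≤ B) :
    ‖∑ s ∈ T, if k0 + 2 ≤ s.k then w s * fx φ s x * vc L p q a s x else 0‖ ≤
      vm L p a (UU T k0) x ^ (3 / 4 : ℝ) * B := by
  have hv0 : 0 ≤ vm L p a (UU T k0) x ^ (3 / 4 : ℝ) :=
    Real.rpow_nonneg ((h1 L p q a 1 E hPQ hAB).2.2.2.1 _ x).1 _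
  by_cases hne : ∃ t ∈ T, k0 + 2 ≤ t.k ∧ vc L p q a t x ≠ 0
  · obtain ⟨t, ht, hkt, hvt⟩ := hne
    obtain ⟨j, hj, hxj⟩ := act_of_ne hvt
    refine (norm_sum_le _ _).trans ?_
    have e1 : ∀ s ∈ T, ‖(if k0 + 2 ≤ s.k then w s * fx φ s x * vc L p q a s x else 0)‖ ≤
        vm L p a (UU T k0) x ^ (3 / 4 : ℝ) *
          (if s.k = t.k then ‖w s‖ * ‖fx φ s x‖ else 0) := by
      intro s hs
      by_cases hk : k0 + 2 ≤ s.k
      · rw [if_pos hk]
        by_cases hv : vc L p q a s x = 0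
        · rw [hv, mul_zero, norm_zero]
          refine mul_nonneg hv0 ?_
          split_ifs <;> positivity
        · obtain ⟨i, hi, hxi⟩ := act_of_ne hv
          have e2 := ((h2 L p q hPQ T K Λ ξ).1 hT s hs t ht i hi j hj x hxi hxj).2
          rw [if_pos e2, norm_mul, norm_mul, mul_comm]
          exact mul_le_mul_of_nonneg_right (vc_le h1 hPQ hAB hs hk x) (by positivity)
      · rw [if_neg hk, norm_zero]
        refine mul_nonneg hv0 ?_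
        split_ifs <;> positivity
    refine (Finset.sum_le_sum e1).trans ?_
    rw [← Finset.mul_sum, ← Finset.sum_filter]
    exact mul_le_mul_of_nonneg_left (h t.k) hv0
  · have h0 : ∑ s ∈ T, (if k0 + 2 ≤ s.k then w s * fx φ s x * vc L p q a s x else 0) = 0 := by
      refine Finset.sum_eq_zero fun s hs => ?_
      by_cases hk : k0 + 2 ≤ s.k
      · rw [if_pos hk]
        have : vc L p q a s x = 0 := by
          by_contra hv
          exact hne ⟨s, hs, hk, hv⟩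
        rw [this, mul_zero]
      · rw [if_neg hk]
    rw [h0, norm_zero]
    exact mul_nonneg hv0 hB

theorem meas_vm {L : ℕ} {p q : ℕ → ℝ → ℝ} {a : ℕ → ℝ → ℂ} {E : Set ℝ} (h1 : T_VBAS)
    (hPQ : PQ L p q) (hAB : AB L a 1 E) (T : Finset Tile) {κ : ℝ → ℤ} (hκ : Measurable κ) :
    Measurable (fun x => ENNReal.ofReal (vm L p a (UU T (κ x)) x)) := by
  have e1 : Measurable (fun z : ℤ × ℝ => vm L p a (UU T z.1) z.2) :=
    measurable_from_prod_countable_right fun k =>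
      (h1 L p q a 1 E hPQ hAB).2.2.2.2.2.1 _ (mUU T k)
  exact (e1.comp (hκ.prodMk measurable_id)).ennreal_ofReal

open Classical in
theorem meas_sum {φ : ℝ → ℂ} (hφ : Continuous φ) {L : ℕ} {p q : ℕ → ℝ → ℝ} {a : ℕ → ℝ → ℂ}
    {E : Set ℝ} (h1 : T_VBAS) (hPQ : PQ L p q) (hAB : AB L a 1 E) (T : Finset Tile) {κ : ℝ → ℤ}
    (hκ : Measurable κ) (w : Tile → ℂ) :
    Measurable (fun x => ∑ s ∈ T,
      if κ x + 2 ≤ s.k then w s * fx φ s x * vc L p q a s x else 0) := by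
  refine Finset.measurable_fun_sum _ fun s _ => Measurable.ite ?_ ?_ measurable_const
  · exact measurableSet_le (hκ.add_const 2) measurable_const
  · exact (measurable_const.mul (SPL_.cont_fx hφ s).measurable).mul
      ((h1 L p q a 1 E hPQ hAB).2.2.2.2.1 s)

open Classical in
theorem large {C3 B : ℝ} {φ : ℝ → ℂ} (hφ : Continuous φ) (h1 : T_VBAS) (h2 : T_VTR)
    (h4 : T_VAVG) {L : ℕ} {p q : ℕ → ℝ → ℝ} {a : ℕ → ℝ → ℂ} {E : Set ℝ} (hPQ : PQ L p q)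
    (hAB : AB L a 1 E) {T : Finset Tile} {K Λ : ℤ} {ξ mu : ℝ} (hT : MTree T K Λ ξ) {κ : ℝ → ℤ}
    (hκ : Stop T κ) (hB : 0 ≤ B) (hmu : 0 ≤ mu) (hC3 : 0 < C3) {w : Tile → ℂ}
    (hC : ∀ (j : ℤ) (x : ℝ), ∑ s ∈ T.filter (fun s => s.k = j), ‖w s‖ * ‖fx φ s x‖ ≤ B)
    (hP2 : ∀ x, ∫⁻ y in Jx κ x, ENNReal.ofReal (vm L p a (UU T (κ x)) y) ≤
      ENNReal.ofReal (C3 * mu) * volume (Jx κ x)) :
    ∫⁻ x, ‖∑ s ∈ T, if κ x + 2 ≤ s.k then w s * fx φ s x * vc L p q a s x else 0‖ₑ ≤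
      ENNReal.ofReal (C3 ^ (3 / 4 : ℝ) * mu ^ (3 / 4 : ℝ) * (B * (3 * (2 : ℝ) ^ K))) := by
  set W : Set ℝ := Icc ((2 : ℝ) ^ K * (Λ - 1)) ((2 : ℝ) ^ K * (Λ + 2)) with hWd
  have hK := two_zpow_pos K
  have hvW : volume W = ENNReal.ofReal (3 * (2 : ℝ) ^ K) := by
    rw [hWd, Real.volume_Icc]
    congr 1
    ring
  have hTr : Tree T K Λ ξ := fun s hs => ⟨(hT s hs).1, lo_sub s (hT s hs).2⟩
  have e2 := h4 κ hκ.meas hκ.const W (ENNReal.ofReal (C3 * mu))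
    (fun x => ENNReal.ofReal (vm L p a (UU T (κ x)) x))
    (fun x => ‖∑ s ∈ T, if κ x + 2 ≤ s.k then w s * fx φ s x * vc L p q a s x else 0‖ₑ)
    (fun _ => ENNReal.ofReal B) measurableSet_Icc ENNReal.ofReal_ne_top
    (meas_vm h1 hPQ hAB T hκ.meas) (meas_sum hφ h1 hPQ hAB T hκ.meas w).enorm
    measurable_const (fun x => ?_) (fun x y hy => ?_) (fun x y hxy hy => ?_)
  · refine e2.trans (le_of_eq ?_)
    rw [setLIntegral_const, hvW, ← ENNReal.ofReal_mul hB,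
      ENNReal.ofReal_rpow_of_nonneg (by positivity) (by norm_num),
      Real.mul_rpow hC3.le hmu, ← ENNReal.ofReal_mul (by positivity)]
  · refine le_trans (le_of_eq ?_) (hP2 x)
    refine setLIntegral_congr_fun (measurableSet_dy _ _) fun y hy => ?_
    rw [hκ.const x y hy]
  · have hv0 : 0 ≤ vm L p a (UU T (κ y)) y := ((h1 L p q a 1 E hPQ hAB).2.2.2.1 _ y).1
    rw [ENNReal.ofReal_rpow_of_nonneg hv0 (by norm_num),
      ← ENNReal.ofReal_mul (by positivity), ← ofReal_norm]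
    exact ENNReal.ofReal_le_ofReal (pt h1 h2 hPQ hAB hT hB fun j => hC j y)
  · have hne : vm L p a (UU T (κ y)) y ≠ 0 := by
      intro h0
      exact hy (by simp only [h0, ENNReal.ofReal_zero])
    unfold vm at hne
    obtain ⟨j, -, hj⟩ := Finset.exists_ne_zero_of_sum_ne_zero hne
    have hm : y ∈ p j ⁻¹' UU T (κ y) := by_contra fun hx => hj (indicator_of_notMem hx _)
    obtain ⟨s, hs, hk, -⟩ := hm
    rw [hκ.const x y hxy] at hk
    have h5 : s.k ≤ K := le_of_dy_sub (hT s hs).1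
    exact p_NEAR T K Λ ξ κ hTr hκ x (by omega)

end VMIN_

open MeasureTheory Set ComplexConjugate
open scoped ENNReal NNReal
open Pool.Agent.CAR

/-- **VMIN** -/
theorem p_VMIN (h1 : T_VBAS) (h2 : T_VTR) (h3 : T_VP2) (h4 : T_VAVG) (h5 : T_VSMA)
    (h6 : T_VSPL) : T_VMIN := by
  classical
  intro A
  obtain ⟨C1, hC1, hONE⟩ := p_ONE p_WTS p_FXB A
  obtain ⟨C3, hC3, hP2⟩ := h3
  obtain ⟨C4, hC4, hSMA⟩ := h5 A
  obtain ⟨C5, hC5, hSMB⟩ := p_SMB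
  refine ⟨C4 * C5 + C3 ^ (3 / 4 : ℝ) * (C1 * 3), by positivity, ?_⟩
  intro φ Φ hW L p q a E hPQ hAB c T K Λ ξ eps mu hT heps hmu hc hMs
  have hK := two_zpow_pos K
  rcases T.eq_empty_or_nonempty with rfl | hne
  · rw [Finset.sum_empty]
    positivity
  obtain ⟨κ, hκ⟩ := p_STOP T hne
  obtain ⟨ε, hε, hle⟩ := h6 A φ Φ hW L p q a E hPQ hAB c T κ (fun s hs => (hc s hs).1) hκ.meas
  have hTr : Tree T K Λ ξ := fun s hs => ⟨(hT s hs).1, lo_sub s (hT s hs).2⟩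
  have hsmall : ∑ s ∈ T, c s *
      ∫ x in {x | s.k ≤ κ x + 1}, ‖vc L p q a s x‖ * ‖fx φ s x‖ ≤
      C4 * C5 * (eps * mu ^ (3 / 4 : ℝ) * 2 ^ K) := by
    calc ∑ s ∈ T, c s * ∫ x in {x | s.k ≤ κ x + 1}, ‖vc L p q a s x‖ * ‖fx φ s x‖
        ≤ ∑ s ∈ T, eps * (C4 * mu ^ (3 / 4 : ℝ) *
            ∫ x in {x | s.k ≤ κ x + 1}, wt 10 (s.u x)) := by
          refine Finset.sum_le_sum fun s hs => ?_
          refine le_trans (mul_le_mul_of_nonneg_right (hc s hs).2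
            (integral_nonneg fun x => by positivity)) ?_
          rw [mul_assoc]
          exact mul_le_mul_of_nonneg_left
            (hSMA φ Φ hW L p q a E hPQ hAB T κ mu hκ hMs hmu s hs) heps
      _ = eps * (C4 * mu ^ (3 / 4 : ℝ)) *
            ∑ s ∈ T, ∫ x in {x | s.k ≤ κ x + 1}, wt 10 (s.u x) := by
          rw [Finset.mul_sum]
          exact Finset.sum_congr rfl fun s _ => by ring
      _ ≤ eps * (C4 * mu ^ (3 / 4 : ℝ)) * (C5 * 2 ^ K) :=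
          mul_le_mul_of_nonneg_left (hSMB T K Λ ξ κ hTr hκ) (by positivity)
      _ = _ := by ring
  have hlarge := VMIN_.large (φ := φ) (C3 := C3) (B := C1 * eps) (E := E) (K := K) (Λ := Λ)
    (mu := mu) (w := fun s => ε s * ((c s : ℝ) : ℂ)) hW.cφ h1 h2 h4 hPQ hAB hT hκ
    (by positivity) hmu hC3
    (fun j x => by
      have e1 : ∑ s ∈ T.filter (fun s => s.k = j), ‖ε s * ((c s : ℝ) : ℂ)‖ * ‖fx φ s x‖ =
          ∑ s ∈ T.filter (fun s => s.k = j), c s * ‖fx φ s x‖ := by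
        refine Finset.sum_congr rfl fun s hs => ?_
        rw [norm_mul, hε s, one_mul, Complex.norm_real,
          Real.norm_of_nonneg (hc s (Finset.mem_filter.1 hs).1).1]
      rw [e1]
      exact hONE φ Φ hW T K Λ ξ hTr c eps heps hc j x)
    (hP2 L p q a E hPQ hAB T K Λ ξ mu κ hTr hκ hMs)
  have hfin : ENNReal.ofReal (∑ s ∈ T, c s * ‖vav φ L p q a s‖) ≤
      ENNReal.ofReal ((C4 * C5 + C3 ^ (3 / 4 : ℝ) * (C1 * 3)) * eps * mu ^ (3 / 4 : ℝ) *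
        2 ^ K) := by
    refine hle.trans ((add_le_add (ENNReal.ofReal_le_ofReal hsmall) hlarge).trans ?_)
    rw [← ENNReal.ofReal_add (by positivity) (by positivity)]
    refine ENNReal.ofReal_le_ofReal (le_of_eq ?_)
    ring
  exact (ENNReal.ofReal_le_ofReal_iff (by positivity)).1 hfin

end Pool.Agent.VRC
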