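import Pool.Agent.VRC.Targets7
import Pool.Agent.CRR.P_RCH

set_option autoImplicit false

/-!
# VRC-NVF: radii with few values on the spheres about the origin, the final theorem
-/

namespace Pool.Agent.VRC

open MeasureTheory FourierTransform Set Filter Topology
open scoped ENNReal NNReal ComplexConjugate
open Pool.Agent.MBS (E ex S)
open Pool.Agent.CRN (sg SH S1 Nice T_POLN T_DSN)
open Pool.Agent.CRR (EB pn co)

namespace NVF_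

variable {n : ℕ}

/-- the supremum over the values of the radius -/
noncomputable def G (f : E n → ℂ) (ρ : ℕ → ℝ → ℝ) (M : ℕ) (x : E n) : ℝ≥0∞ :=
  ⨆ (j : ℕ) (_ : j < M), ‖S f (ρ j ‖x‖) x‖ₑ

theorem G_meas {f : E n → ℂ} (hf : Integrable f) {ρ : ℕ → ℝ → ℝ} (hρ : ∀ j, Measurable (ρ j))
    (M : ℕ) : Measurable (G f ρ M) := by
  unfold G
  refine Measurable.iSup fun j => Measurable.iSup fun _ => ?_
  exact (Pool.Agent.CRR.RCH_.S_meas hf ((hρ j).comp measurable_norm)).enorm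

theorem G_polar (f : E n → ℂ) (ρ : ℕ → ℝ → ℝ) (M : ℕ) {r : ℝ} (hr : 0 < r)
    (θ : Metric.sphere (0 : E n) 1) :
    G f ρ M (r • (θ : E n)) = ⨆ (j : ℕ) (_ : j < M), ‖S f (ρ j r) (r • (θ : E n))‖ₑ := by
  have h : ‖r • (θ : E n)‖ = r := by
    have h2 : ‖(θ : E n)‖ = 1 := by simp
    rw [norm_smul, h2, mul_one, Real.norm_of_nonneg hr.le]
  unfold G
  rw [h]

end NVF_

open NVF_ in
theorem p_NVF (h1 : T_RAV) (h2 : T_NVD) (h3 : Pool.Agent.CRR.T_OSC)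
    (h4 : Pool.Agent.CRN.T_POLN) (_h5 : Pool.Agent.CRN.T_DSN) : T_NVF := by
  intro n hn
  obtain ⟨C1, h1⟩ := h1 n hn
  obtain ⟨C2, h2⟩ := h2
  obtain ⟨C3, h3⟩ := h3 n hn
  refine ⟨8 * (C2 * C1) + 2 * C3, fun M A f ρ R hM hA hf hρ hρ0 hR hR0 hosc => ?_⟩
  have : Nonempty (Fin n) := ⟨⟨0, by omega⟩⟩
  -- the first part
  have a1 : ∫⁻ x, G f ρ M x ^ 2 ≤
      C2 * ENNReal.ofReal (Real.sqrt M) * (C1 * ∫⁻ x, ‖f x‖ₑ ^ 2) := by
    rw [(h4 n (by omega)).1 (fun x => G f ρ M x ^ 2) ((G_meas hf.int hρ M).pow_const 2)]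
    have b1 : ∀ r ∈ Ioi (0 : ℝ),
        ∫⁻ ω, ENNReal.ofReal (r ^ (n - 1)) * G f ρ M (r • (ω : E n)) ^ 2 ∂(sg n) ≤
          C2 * ENNReal.ofReal (Real.sqrt M) * (VS f r ^ 2 * ENNReal.ofReal (r ^ (n - 1))) := by
      intro r hr
      rw [lintegral_const_mul' _ _ ENNReal.ofReal_ne_top]
      have b2 := h2 n M f r (fun j => ρ j r) hn hM hf (fun j => hρ0 j r)
      have b3 : ∫⁻ ω, G f ρ M (r • (ω : E n)) ^ 2 ∂(sg n) ≤
          C2 * ENNReal.ofReal (Real.sqrt M) * VS f r ^ 2 := by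
        refine le_trans (le_of_eq (lintegral_congr fun ω => ?_)) b2
        rw [G_polar f ρ M hr ω]
      refine (mul_le_mul_right b3 _).trans (le_of_eq ?_)
      ring
    refine (setLIntegral_mono' measurableSet_Ioi b1).trans ?_
    rw [lintegral_const_mul' _ _ (ENNReal.mul_ne_top ENNReal.coe_ne_top ENNReal.ofReal_ne_top)]
    exact mul_le_mul_right (h1 f hf) _
  have a2 := h3 A f hA hf
  have hpt : ∀ᵐ x : E n, ‖S f (R x) x‖ₑ ^ 2 ≤ 2 * G f ρ M x ^ 2 +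
      2 * (⨆ (R : ℝ) (R' : ℝ) (_ : 0 < R ∧ 0 < R' ∧ |R - R'| ≤ A / ‖x‖),
        ‖S f R x - S f R' x‖ₑ) ^ 2 := by
    have hae : ∀ᵐ x : E n, x ≠ 0 := Measure.ae_ne volume 0
    filter_upwards [hae] with x hx
    obtain ⟨j, hj, hd⟩ := hosc x hx
    have b1 : ‖S f (R x) x - S f (ρ j ‖x‖) x‖ₑ ≤
        ⨆ (R : ℝ) (R' : ℝ) (_ : 0 < R ∧ 0 < R' ∧ |R - R'| ≤ A / ‖x‖),
          ‖S f R x - S f R' x‖ₑ :=
      le_iSup_of_le (R x) (le_iSup_of_le (ρ j ‖x‖)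
        (le_iSup_of_le ⟨hR0 x, hρ0 j ‖x‖, hd⟩ le_rfl))
    have b3 : ‖S f (ρ j ‖x‖) x‖ₑ ≤ G f ρ M x :=
      le_iSup_of_le j (le_iSup_of_le hj le_rfl)
    have b2 : ‖S f (R x) x‖ₑ ≤ ‖S f (ρ j ‖x‖) x‖ₑ + ‖S f (R x) x - S f (ρ j ‖x‖) x‖ₑ := by
      have := enorm_add_le (S f (ρ j ‖x‖) x) (S f (R x) x - S f (ρ j ‖x‖) x)
      rwa [add_sub_cancel] at this
    refine (pow_le_pow_left' (b2.trans (add_le_add b3 b1)) 2).trans ?_
    exact Pool.Agent.CRR.RCH_.sq_add _ _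
  have hm : Measurable (fun x : E n => 2 * G f ρ M x ^ 2) :=
    ((G_meas hf.int hρ M).pow_const 2).const_mul 2
  have h6 : ∫⁻ x, ‖S f (R x) x‖ₑ ^ 2 ≤
      2 * (∫⁻ x, G f ρ M x ^ 2) +
      2 * (∫⁻ x, (⨆ (R : ℝ) (R' : ℝ) (_ : 0 < R ∧ 0 < R' ∧ |R - R'| ≤ A / ‖x‖),
        ‖S f R x - S f R' x‖ₑ) ^ 2) := by
    refine (lintegral_mono_ae hpt).trans ?_
    rw [lintegral_add_left hm, lintegral_const_mul' _ _ (by norm_num),
      lintegral_const_mul' _ _ (by norm_num)]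
  refine h6.trans ?_
  rw [ENNReal.ofReal_mul (Real.sqrt_nonneg _)]
  set L := ENNReal.ofReal (Real.log (2 + A) ^ 2) with hL
  set q := ENNReal.ofReal (Real.sqrt M) with hq
  set N := ∫⁻ x, ‖f x‖ₑ ^ 2 with hN
  have hone : (1 : ℝ≥0∞) ≤ 4 * L := Pool.Agent.CRR.RCH_.one_le_log A hA
  have hq1 : (1 : ℝ≥0∞) ≤ q := by
    rw [hq, ENNReal.one_le_ofReal, Real.one_le_sqrt]
    exact_mod_cast hM
  calc 2 * (∫⁻ x, G f ρ M x ^ 2) +
      2 * (∫⁻ x, (⨆ (R : ℝ) (R' : ℝ) (_ : 0 < R ∧ 0 < R' ∧ |R - R'| ≤ A / ‖x‖),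
        ‖S f R x - S f R' x‖ₑ) ^ 2) ≤ 2 * (C2 * q * (C1 * N)) + 2 * (C3 * L * N) := by gcongr
    _ ≤ 2 * (C2 * q * (C1 * N)) * (4 * L) + 2 * (C3 * L * N) * q :=
        add_le_add (le_mul_of_one_le_right' hone) (le_mul_of_one_le_right' hq1)
    _ = ((8 * (C2 * C1) + 2 * C3 : ℝ≥0) : ℝ≥0∞) * (q * L) * N := by
        push_cast
        ring

end Pool.Agent.VRC
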