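import Pool.Agent.VRC.Targets4
import Pool.Agent.CRR.P_OFD

set_option autoImplicit false

/-!
# VRC, target OFV: far frequencies, variation
-/

namespace Pool.Agent.VRC

open MeasureTheory FourierTransform Set Filter Topology
open scoped ENNReal NNReal
open Pool.Agent.CAR (e1)
open Pool.Agent.CRR (Ph StripD FS FA fh NN HH NSol kap aa de la si ww xc band)
open Pool.Agent.CRR.OFD_ (e1_norm e1_cont e1_deriv plancherel int_e1 fh_cont ms fh_deriv le_root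
  root_sq tsum_lint_le tsum_windows sup_window' enorm_sq NN_le)

namespace OFV_

/-- Cauchy-Schwarz for a general measure -/
theorem csm {α : Type*} [MeasurableSpace α] (μ : Measure α) {f g : α → ℝ≥0∞}
    (hf : AEMeasurable f μ) (hg : AEMeasurable g μ) :
    ∫⁻ x, f x * g x ∂μ ≤ (∫⁻ x, f x ^ 2 ∂μ) ^ (1 / 2 : ℝ) * (∫⁻ x, g x ^ 2 ∂μ) ^ (1 / 2 : ℝ) := by
  have h := ENNReal.lintegral_mul_le_Lp_mul_Lq μ Real.HolderConjugate.two_two hf hg
  simpa using h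

/-- Cauchy-Schwarz for sums -/
theorem cst (f g : ℤ → ℝ≥0∞) :
    ∑' i, f i * g i ≤ (∑' i, f i ^ 2) ^ (1 / 2 : ℝ) * (∑' i, g i ^ 2) ^ (1 / 2 : ℝ) := by
  have h := csm (Measure.count : Measure ℤ) (f := f) (g := g)
    (measurable_of_countable f).aemeasurable (measurable_of_countable g).aemeasurable
  simpa only [lintegral_count] using h

theorem amgm {D : ℝ} (hD : 0 < D) (x y : ℂ) :
    2 * (‖x‖ₑ * ‖y‖ₑ) ≤ ENNReal.ofReal D * ‖x‖ₑ ^ 2 + ENNReal.ofReal D⁻¹ * ‖y‖ₑ ^ 2 := by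
  rw [enorm_sq, enorm_sq, ← ofReal_norm, ← ofReal_norm, ← ENNReal.ofReal_mul (norm_nonneg _),
    ← ENNReal.ofReal_ofNat, ← ENNReal.ofReal_mul (by norm_num), ← ENNReal.ofReal_mul hD.le,
    ← ENNReal.ofReal_mul (by positivity), ← ENNReal.ofReal_add (by positivity) (by positivity)]
  refine ENNReal.ofReal_le_ofReal ?_
  have h1 : 0 ≤ (D * ‖x‖ - ‖y‖) ^ 2 * D⁻¹ := by positivity
  have h2 : (D * ‖x‖ - ‖y‖) ^ 2 * D⁻¹ =
      D * ‖x‖ ^ 2 + D⁻¹ * ‖y‖ ^ 2 - 2 * (‖x‖ * ‖y‖) := by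
    field_simp
    ring
  linarith

/-- one interval -/
theorem one {F F1 : ℝ → ℂ} (hd : ∀ y, HasDerivAt F (F1 y) y) (hc : Continuous F1) {D p q : ℝ}
    (hD : 0 < D) (hpq : p ≤ q) :
    ‖F q - F p‖ₑ ^ 2 ≤ ∫⁻ v in Ioc p q,
      (8 * ENNReal.ofReal D * ‖F v‖ₑ ^ 2 + 4 * ENNReal.ofReal D⁻¹ * ‖F1 v‖ₑ ^ 2) := by
  have hFc : Continuous F := continuous_iff_continuousAt.mpr fun y => (hd y).continuousAt
  have hm1 : Measurable fun v => ‖F v‖ₑ ^ 2 := (hFc.enorm.measurable).pow_const 2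
  have hm2 : Measurable fun v => ‖F1 v‖ₑ ^ 2 := (hc.enorm.measurable).pow_const 2
  have hsplit : ∫⁻ v in Ioc p q,
      (8 * ENNReal.ofReal D * ‖F v‖ₑ ^ 2 + 4 * ENNReal.ofReal D⁻¹ * ‖F1 v‖ₑ ^ 2) =
      8 * ENNReal.ofReal D * (∫⁻ v in Ioc p q, ‖F v‖ₑ ^ 2) +
        4 * ENNReal.ofReal D⁻¹ * ∫⁻ v in Ioc p q, ‖F1 v‖ₑ ^ 2 := by
    rw [lintegral_add_left (hm1.const_mul _), lintegral_const_mul _ hm1, lintegral_const_mul _ hm2]
  rw [hsplit]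
  set a : ℝ≥0∞ := ∫⁻ v in Ioc p q, ‖F v‖ₑ ^ 2 with ha
  set b : ℝ≥0∞ := ∫⁻ v in Ioc p q, ‖F1 v‖ₑ ^ 2 with hb
  rcases le_or_gt (q - p) D⁻¹ with hs | hs
  · -- short interval
    have hftc := intervalIntegral.integral_eq_sub_of_hasDerivAt (fun y _ => hd y)
      (hc.intervalIntegrable p q)
    rw [intervalIntegral.integral_of_le hpq] at hftc
    rw [← hftc]
    have h1 : ‖∫ x in Ioc p q, F1 x‖ₑ ≤ ∫⁻ x in Ioc p q, 1 * ‖F1 x‖ₑ := by
      simp only [one_mul]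
      exact enorm_integral_le_lintegral_enorm _
    have h2 := csm (volume.restrict (Ioc p q)) (f := fun _ => 1) (g := fun x => ‖F1 x‖ₑ)
      aemeasurable_const hc.enorm.measurable.aemeasurable
    have h3 : ∫⁻ _ in Ioc p q, (1 : ℝ≥0∞) ^ 2 = ENNReal.ofReal (q - p) := by
      simp
    rw [h3] at h2
    calc ‖∫ x in Ioc p q, F1 x‖ₑ ^ 2
        ≤ (ENNReal.ofReal (q - p) ^ (1 / 2 : ℝ) * b ^ (1 / 2 : ℝ)) ^ 2 :=
          pow_le_pow_left₀ (zero_le) (h1.trans h2) 2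
      _ = ENNReal.ofReal (q - p) * b := by rw [mul_pow, root_sq, root_sq]
      _ ≤ ENNReal.ofReal D⁻¹ * b := by
          gcongr
      _ ≤ 4 * ENNReal.ofReal D⁻¹ * b := by
          rw [mul_assoc]
          exact le_mul_of_one_le_left (zero_le) (by norm_num)
      _ ≤ _ := le_add_self
  · -- long interval
    have hlt : p < q := by
      have : 0 < D⁻¹ := inv_pos.2 hD
      linarith
    have hinv : (q - p)⁻¹ ≤ D := by
      have := inv_anti₀ (inv_pos.2 hD) hs.le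
      rwa [inv_inv] at this
    have hy : ∀ y ∈ Icc p q, ‖F y‖ₑ ^ 2 ≤
        2 * ENNReal.ofReal D * a + ENNReal.ofReal D⁻¹ * b := by
      intro y hy
      have h1 := sup_window' hd hc hlt hy
      have h2 : 2 * ∫⁻ x in Ioc p q, ‖F x‖ₑ * ‖F1 x‖ₑ ≤
          ENNReal.ofReal D * a + ENNReal.ofReal D⁻¹ * b := by
        have hm3 : Measurable fun x => ‖F x‖ₑ * ‖F1 x‖ₑ :=
          hFc.enorm.measurable.mul hc.enorm.measurable
        rw [← lintegral_const_mul _ hm3, ha, hb, ← lintegral_const_mul _ hm1,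
          ← lintegral_const_mul _ hm2,
          ← lintegral_add_left (hm1.const_mul _)]
        exact lintegral_mono fun x => amgm hD _ _
      have h3 : ENNReal.ofReal (q - p)⁻¹ * a ≤ ENNReal.ofReal D * a := by
        gcongr
      calc ‖F y‖ₑ ^ 2 ≤ ENNReal.ofReal (q - p)⁻¹ * a +
            2 * ∫⁻ x in Ioc p q, ‖F x‖ₑ * ‖F1 x‖ₑ := h1
        _ ≤ ENNReal.ofReal D * a + (ENNReal.ofReal D * a + ENNReal.ofReal D⁻¹ * b) :=
            add_le_add h3 h2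
        _ = _ := by ring
    have h1 := le_root (hy q ⟨hpq, le_rfl⟩)
    have h2 := le_root (hy p ⟨le_rfl, hpq⟩)
    set M : ℝ≥0∞ := 2 * ENNReal.ofReal D * a + ENNReal.ofReal D⁻¹ * b with hM
    calc ‖F q - F p‖ₑ ^ 2 ≤ (M ^ (1 / 2 : ℝ) + M ^ (1 / 2 : ℝ)) ^ 2 :=
          pow_le_pow_left₀ (zero_le) ((enorm_sub_le).trans (add_le_add h1 h2)) 2
      _ = 4 * (M ^ (1 / 2 : ℝ)) ^ 2 := by ring
      _ = 4 * M := by rw [root_sq]
      _ = _ := by rw [hM]; ring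

/-- consecutive intervals -/
theorem many (g : ℝ → ℝ≥0∞) {c : ℕ → ℝ} (hc : Monotone c) (L : ℕ) :
    ∑ j ∈ Finset.range L, ∫⁻ v in Ioc (c j) (c (j + 1)), g v = ∫⁻ v in Ioc (c 0) (c L), g v := by
  induction L with
  | zero => simp
  | succ L ih =>
    rw [Finset.sum_range_succ, ih, ← lintegral_union measurableSet_Ioc]
    · rw [Ioc_union_Ioc_eq_Ioc (hc (Nat.zero_le L)) (hc (Nat.le_succ L))]
    · rw [Set.disjoint_left]
      intro x hx hx'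
      exact absurd hx.2 (not_le.2 hx'.1)

/-- the projection to the window -/
noncomputable def cl (A B v : ℝ) : ℝ := max A (min v B)

theorem cl_mono (A B : ℝ) : Monotone (cl A B) := fun x y h => by
  unfold cl
  gcongr

theorem cl_mem {A B : ℝ} (h : A ≤ B) (v : ℝ) : cl A B v ∈ Icc A B :=
  ⟨le_max_left _ _, max_le h (min_le_right _ _)⟩

theorem cl_Ioc (A B a b : ℝ) : Ioc a b ∩ Ioc A B = Ioc (cl A B a) (cl A B b) := by
  unfold cl
  ext x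
  simp only [mem_inter_iff, mem_Ioc, max_lt_iff, min_lt_iff, le_max_iff, le_min_iff]
  constructor
  · rintro ⟨⟨h1, h2⟩, h3, h4⟩
    exact ⟨⟨h3, Or.inl h1⟩, Or.inr ⟨h2, h4⟩⟩
  · rintro ⟨⟨h1, h2⟩, h3⟩
    rcases h3 with h3 | h3
    · exact absurd h3 (not_le.2 h1)
    · refine ⟨⟨?_, h3.1⟩, h1, h3.2⟩
      rcases h2 with h2 | h2
      · exact h2
      · exact absurd h3.2 (not_le.2 h2)

/-- the variation in one window -/
theorem NV_le {Q Q1 h : ℝ → ℂ} {X w D : ℝ} (hw : 0 < w) (hD : 0 < D)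
    (hd : ∀ y, HasDerivAt Q (Q1 y) y) (hh : Continuous h)
    (heq : ∀ y, 2 * Real.pi * Complex.I * X * Q y + Q1 y = h y) (i : ℤ) :
    NV w h i X ^ 2 ≤ 2 * NN w h i X *
      (∫⁻ v in Ioc ((i : ℝ) * w) (((i : ℝ) + 1) * w),
        (8 * ENNReal.ofReal D * ‖Q v‖ₑ ^ 2 + 4 * ENNReal.ofReal D⁻¹ * ‖h v‖ₑ ^ 2)) ^
          (1 / 2 : ℝ) := by
  set A : ℝ := (i : ℝ) * w with hA
  set B : ℝ := ((i : ℝ) + 1) * w with hB
  have hAB : A ≤ B := by
    rw [hA, hB]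
    linarith
  set F : ℝ → ℂ := fun y => e1 (X * y) * Q y with hF
  set F1 : ℝ → ℂ := fun y => h y * e1 (X * y) with hF1
  have hFd : ∀ y, HasDerivAt F (F1 y) y := by
    intro y
    have h3 := (e1_deriv X y).mul (hd y)
    refine h3.congr_deriv ?_
    rw [hF1]
    simp only []
    rw [← heq y]
    ring
  have hF1c : Continuous F1 := hh.mul (e1_cont.comp (continuous_const.mul continuous_id))
  have en : ∀ z : ℝ, ‖e1 z‖ₑ = 1 := fun z => by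
    rw [← ofReal_norm, e1_norm, ENNReal.ofReal_one]
  have hFn : ∀ y, ‖F y‖ₑ = ‖Q y‖ₑ := fun y => by
    rw [hF]
    simp only []
    rw [enorm_mul, en, one_mul]
  have hF1n : ∀ y, ‖F1 y‖ₑ = ‖h y‖ₑ := fun y => by
    rw [hF1]
    simp only []
    rw [enorm_mul, en, mul_one]
  have hint : ∀ p q : ℝ, p ≤ q → ∫ v in Ioc p q, F1 v = F q - F p := by
    intro p q hpq
    rw [← intervalIntegral.integral_of_le hpq]
    exact intervalIntegral.integral_eq_sub_of_hasDerivAt (fun y _ => hFd y)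
      (hF1c.intervalIntegrable p q)
  have hNF : ∀ a b : ℝ, a ≤ b → NF w h i X a b = F (cl A B b) - F (cl A B a) := by
    intro a b hab
    unfold NF
    rw [← hA, ← hB, cl_Ioc]
    exact hint _ _ (cl_mono A B hab)
  have hNN : ∀ c ∈ Icc A B, ‖F c - F A‖ₑ ≤ NN w h i X := by
    intro c hc
    rw [← hint A c hc.1]
    unfold NN
    refine le_trans (le_of_eq ?_) (le_iSup _ c)
    rw [← hA, ← hB, min_eq_left hc.2]
  have hdel : ∀ a b : ℝ, a ≤ b → ‖NF w h i X a b‖ₑ ≤ 2 * NN w h i X := by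
    intro a b hab
    rw [hNF a b hab]
    have e : F (cl A B b) - F (cl A B a) = (F (cl A B b) - F A) - (F (cl A B a) - F A) := by ring
    rw [e, two_mul]
    exact (enorm_sub_le).trans (add_le_add (hNN _ (cl_mem hAB b)) (hNN _ (cl_mem hAB a)))
  set g : ℝ → ℝ≥0∞ := fun v => 8 * ENNReal.ofReal D * ‖Q v‖ₑ ^ 2 +
    4 * ENNReal.ofReal D⁻¹ * ‖h v‖ₑ ^ 2 with hg
  set J : ℝ≥0∞ := ∫⁻ v in Ioc A B, g v with hJ
  have hsq : ∀ (L : ℕ) (N : ℕ → ℝ), Monotone N →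
      ∑ j ∈ Finset.range L, ‖NF w h i X (N j) (N (j + 1))‖ₑ ^ 2 ≤ J := by
    intro L N hN
    have h1 : ∀ j ∈ Finset.range L, ‖NF w h i X (N j) (N (j + 1))‖ₑ ^ 2 ≤
        ∫⁻ v in Ioc (cl A B (N j)) (cl A B (N (j + 1))), g v := by
      intro j _
      rw [hNF _ _ (hN (Nat.le_succ j))]
      have h2 := one hFd hF1c hD (cl_mono A B (hN (Nat.le_succ j)))
      simp only [hFn, hF1n] at h2
      exact h2
    refine (Finset.sum_le_sum h1).trans ?_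
    rw [many g (c := fun j => cl A B (N j)) (fun x y hxy => cl_mono A B (hN hxy)) L]
    exact lintegral_mono_set (Ioc_subset_Ioc (cl_mem hAB _).1 (cl_mem hAB _).2)
  unfold NV V4o
  refine Pool.Agent.CRR.OFD_.iSup_sq_le _ _ fun L =>
    Pool.Agent.CRR.OFD_.iSup_sq_le _ _ fun N =>
    Pool.Agent.CRR.OFD_.iSup_sq_le _ _ fun hN => ?_
  have h4 : ∑ j ∈ Finset.range L, ‖NF w h i X (N j) (N (j + 1))‖ₑ ^ 4 ≤
      (2 * NN w h i X) ^ 2 * J := by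
    calc ∑ j ∈ Finset.range L, ‖NF w h i X (N j) (N (j + 1))‖ₑ ^ 4
        ≤ ∑ j ∈ Finset.range L, (2 * NN w h i X) ^ 2 *
            ‖NF w h i X (N j) (N (j + 1))‖ₑ ^ 2 := by
          refine Finset.sum_le_sum fun j _ => ?_
          have e : ‖NF w h i X (N j) (N (j + 1))‖ₑ ^ 4 =
              ‖NF w h i X (N j) (N (j + 1))‖ₑ ^ 2 * ‖NF w h i X (N j) (N (j + 1))‖ₑ ^ 2 := by
            ring
          rw [e]
          exact mul_le_mul' (pow_le_pow_left₀ (zero_le) (hdel _ _ (hN (Nat.le_succ j))) 2) le_rfl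
      _ = (2 * NN w h i X) ^ 2 * ∑ j ∈ Finset.range L, ‖NF w h i X (N j) (N (j + 1))‖ₑ ^ 2 := by
          rw [Finset.mul_sum]
      _ ≤ _ := mul_le_mul' le_rfl (hsq L N hN)
  calc ((∑ j ∈ Finset.range L, ‖NF w h i X (N j) (N (j + 1))‖ₑ ^ 4) ^ (1 / 4 : ℝ)) ^ 2
      = (∑ j ∈ Finset.range L, ‖NF w h i X (N j) (N (j + 1))‖ₑ ^ 4) ^ (1 / 2 : ℝ) := by
        rw [← ENNReal.rpow_natCast, ← ENNReal.rpow_mul]
        norm_num
    _ ≤ ((2 * NN w h i X) ^ 2 * J) ^ (1 / 2 : ℝ) := ENNReal.rpow_le_rpow h4 (by norm_num)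
    _ = 2 * NN w h i X * J ^ (1 / 2 : ℝ) := by
        rw [ENNReal.mul_rpow_of_nonneg _ _ (by norm_num)]
        congr 1
        rw [← ENNReal.rpow_natCast, ← ENNReal.rpow_mul]
        norm_num

/-- the division by `s + X` -/
theorem setup {D G X : ℝ} {H : ℝ → ℂ} (hD : 0 < D) (hG : 0 ≤ G) (hH : HH H)
    (hHX : ∀ s, H s ≠ 0 → D ≤ |s + X| ∧ |s| ≤ G * |s + X|) :
    ∃ K : ℝ → ℂ, Integrable K ∧ Integrable (ms K) ∧
      (∀ y, 2 * Real.pi * Complex.I * X * fh K y + fh (ms K) y = fh H y) ∧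
      ∫⁻ x, ‖fh K x‖ₑ ^ 2 ≤ ENNReal.ofReal D⁻¹ ^ 2 * ∫⁻ s, ‖H s‖ₑ ^ 2 ∧
      ∫⁻ x, ‖fh (ms K) x‖ₑ ^ 2 ≤ ENNReal.ofReal G ^ 2 * ∫⁻ s, ‖H s‖ₑ ^ 2 := by
  set N : ℝ≥0∞ := ∫⁻ s, ‖H s‖ₑ ^ 2 with hN
  have hpi : (0 : ℝ) < 2 * Real.pi := by positivity
  set K : ℝ → ℂ := fun s => H s * (2 * Real.pi * Complex.I * ((s : ℂ) + X))⁻¹ with hK
  have hKm : Measurable K := by
    refine hH.meas.mul (Measurable.inv ?_)
    fun_prop
  have hnorm : ∀ s : ℝ, ‖(2 * Real.pi * Complex.I * ((s : ℂ) + X))⁻¹‖ =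
      (2 * Real.pi * |s + X|)⁻¹ := by
    intro s
    rw [norm_inv, norm_mul, norm_mul, Complex.norm_I, mul_one, ← Complex.ofReal_add,
      Complex.norm_real, Real.norm_eq_abs]
    congr 2
    rw [norm_mul, Complex.norm_real, Real.norm_eq_abs, abs_of_pos Real.pi_pos]
    norm_num
  have hKb : ∀ s, ‖K s‖ ≤ D⁻¹ * ‖H s‖ := by
    intro s
    rcases eq_or_ne (H s) 0 with h0 | h0
    · simp [hK, h0]
    · have h1 := (hHX s h0).1
      have hpos : 0 < |s + X| := lt_of_lt_of_le hD h1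
      rw [hK]
      simp only []
      rw [norm_mul, hnorm, mul_comm]
      refine mul_le_mul_of_nonneg_right ?_ (norm_nonneg _)
      refine inv_anti₀ hD ?_
      have h2 : (1 : ℝ) ≤ 2 * Real.pi := by linarith [Real.pi_gt_three]
      calc D ≤ |s + X| := h1
        _ = 1 * |s + X| := (one_mul _).symm
        _ ≤ 2 * Real.pi * |s + X| := mul_le_mul_of_nonneg_right h2 hpos.le
  have hK1b : ∀ s, ‖ms K s‖ ≤ G * ‖H s‖ := by
    intro s
    rcases eq_or_ne (H s) 0 with h0 | h0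
    · have : ms K s = 0 := by simp [ms, hK, h0]
      rw [this, norm_zero]
      positivity
    · have h1 := (hHX s h0).1
      have h2 := (hHX s h0).2
      have hpos : 0 < |s + X| := lt_of_lt_of_le hD h1
      unfold ms
      rw [hK]
      simp only []
      rw [norm_mul, norm_mul (H s), hnorm]
      have e : ‖(2 * Real.pi * Complex.I * (s : ℂ) : ℂ)‖ = 2 * Real.pi * |s| := by
        rw [norm_mul, norm_mul, norm_mul, Complex.norm_I, mul_one, Complex.norm_real,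
          Complex.norm_real, Real.norm_eq_abs, Real.norm_eq_abs, abs_of_pos Real.pi_pos]
        norm_num
      rw [e]
      have e2 : 2 * Real.pi * |s| * (‖H s‖ * (2 * Real.pi * |s + X|)⁻¹) =
          |s| / |s + X| * ‖H s‖ := by
        field_simp
      rw [e2]
      refine mul_le_mul_of_nonneg_right ?_ (norm_nonneg _)
      rw [div_le_iff₀ hpos]
      exact h2
  have hK1m : Measurable (ms K) := by
    unfold ms
    refine Measurable.mul ?_ hKm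
    fun_prop
  have hKi : Integrable K := by
    refine (hH.int.norm.const_mul D⁻¹).mono' hKm.aestronglyMeasurable (ae_of_all _ hKb)
  have hK1i : Integrable (ms K) := by
    refine (hH.int.norm.const_mul G).mono' hK1m.aestronglyMeasurable (ae_of_all _ hK1b)
  have hH2 : MemLp H 2 :=
    (memLp_two_iff_integrable_sq_norm hH.meas.aestronglyMeasurable).mpr hH.sq
  have hK2 : MemLp K 2 := hH2.of_le_mul hKm.aestronglyMeasurable (ae_of_all _ hKb)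
  have hK12 : MemLp (ms K) 2 := hH2.of_le_mul hK1m.aestronglyMeasurable (ae_of_all _ hK1b)
  refine ⟨K, hKi, hK1i, ?_, ?_, ?_⟩
  · intro y
    unfold fh
    rw [← integral_const_mul, ← integral_add ((int_e1 hKi y).const_mul _) (int_e1 hK1i y)]
    refine integral_congr_ae (ae_of_all _ fun s => ?_)
    simp only []
    rcases eq_or_ne (H s) 0 with h0 | h0
    · simp [ms, hK, h0]
    · have hpos : 0 < |s + X| := lt_of_lt_of_le hD (hHX s h0).1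
      have hne : ((s : ℂ) + X) ≠ 0 := by
        rw [← Complex.ofReal_add]
        exact_mod_cast abs_pos.mp hpos
      have hpi' : (Real.pi : ℂ) ≠ 0 := by exact_mod_cast Real.pi_ne_zero
      simp only [ms, hK]
      field_simp
      ring
  · rw [plancherel hKi hK2, hN, ← lintegral_const_mul' _ _ (by simp)]
    refine lintegral_mono fun s => ?_
    rw [← mul_pow]
    refine pow_le_pow_left₀ (zero_le) ?_ 2
    rw [← ofReal_norm, ← ofReal_norm, ← ENNReal.ofReal_mul (by positivity)]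
    exact ENNReal.ofReal_le_ofReal (hKb s)
  · rw [plancherel hK1i hK12, hN, ← lintegral_const_mul' _ _ (by simp)]
    refine lintegral_mono fun s => ?_
    rw [← mul_pow]
    refine pow_le_pow_left₀ (zero_le) ?_ 2
    rw [← ofReal_norm, ← ofReal_norm, ← ENNReal.ofReal_mul hG]
    exact ENNReal.ofReal_le_ofReal (hK1b s)

/-- one frequency `X` -/
theorem key {w D G X : ℝ} {H : ℝ → ℂ} (hw : 0 < w) (hD : 0 < D) (hG : 0 ≤ G) (hH : HH H)
    (hHX : ∀ s, H s ≠ 0 → D ≤ |s + X| ∧ |s| ≤ G * |s + X|) :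
    ∑' i : ℤ, NV w (fh H) i X ^ 2 ≤
      20 * ENNReal.ofReal (Real.sqrt (((w * D ^ 2)⁻¹ + G * D⁻¹) * D⁻¹)) *
        ∫⁻ s, ‖H s‖ₑ ^ 2 := by
  obtain ⟨K, hKi, hK1i, heq, hP1, hP2⟩ := setup hD hG hH hHX
  set N : ℝ≥0∞ := ∫⁻ s, ‖H s‖ₑ ^ 2 with hN
  set c : ℝ≥0∞ := ENNReal.ofReal ((w * D ^ 2)⁻¹ + G * D⁻¹) with hc
  have hr : ∀ x : ℝ≥0∞, (x ^ 2) ^ (1 / 2 : ℝ) = x := fun x => by
    rw [← ENNReal.rpow_natCast, ← ENNReal.rpow_mul]
    norm_num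
  -- the maximal function
  have hbound := fun i => NN_le hw (fh_deriv hKi hK1i) (fh_cont hK1i) (fh_cont hH.int) heq i
  have hsum : ∑' i : ℤ, NN w (fh H) i X ^ 2 ≤ 4 * (ENNReal.ofReal w⁻¹ *
      (∫⁻ x, ‖fh K x‖ₑ ^ 2) + 2 * ∫⁻ x, ‖fh K x‖ₑ * ‖fh (ms K) x‖ₑ) := by
    refine (ENNReal.tsum_le_tsum hbound).trans (le_of_eq ?_)
    rw [ENNReal.tsum_mul_left, ENNReal.tsum_add, ENNReal.tsum_mul_left, ENNReal.tsum_mul_left,
      tsum_windows w hw, tsum_windows w hw]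
  have hcs : ∫⁻ x, ‖fh K x‖ₑ * ‖fh (ms K) x‖ₑ ≤ ENNReal.ofReal (G * D⁻¹) * N := by
    refine (csm volume (fh_cont hKi).enorm.measurable.aemeasurable
      (fh_cont hK1i).enorm.measurable.aemeasurable).trans ?_
    have r1 := ENNReal.rpow_le_rpow hP1 (by norm_num : (0 : ℝ) ≤ 1 / 2)
    have r2 := ENNReal.rpow_le_rpow hP2 (by norm_num : (0 : ℝ) ≤ 1 / 2)
    refine (mul_le_mul' r1 r2).trans (le_of_eq ?_)
    rw [ENNReal.mul_rpow_of_nonneg _ _ (by norm_num), ENNReal.mul_rpow_of_nonneg _ _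
      (by norm_num), hr, hr, ENNReal.ofReal_mul hG]
    have hNN : N ^ (1 / 2 : ℝ) * N ^ (1 / 2 : ℝ) = N := by
      rw [← pow_two, root_sq]
    calc ENNReal.ofReal D⁻¹ * N ^ (1 / 2 : ℝ) * (ENNReal.ofReal G * N ^ (1 / 2 : ℝ))
        = ENNReal.ofReal G * ENNReal.ofReal D⁻¹ * (N ^ (1 / 2 : ℝ) * N ^ (1 / 2 : ℝ)) := by
          ring
      _ = _ := by rw [hNN]
  have hc' : c = ENNReal.ofReal w⁻¹ * ENNReal.ofReal D⁻¹ ^ 2 + ENNReal.ofReal (G * D⁻¹) := by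
    rw [hc, ENNReal.ofReal_add (by positivity) (by positivity), mul_inv,
      ENNReal.ofReal_mul (by positivity), ← ENNReal.ofReal_pow (by positivity), inv_pow]
  have hA : ∑' i : ℤ, NN w (fh H) i X ^ 2 ≤ 8 * c * N := by
    calc ∑' i : ℤ, NN w (fh H) i X ^ 2
        ≤ 4 * (ENNReal.ofReal w⁻¹ * (∫⁻ x, ‖fh K x‖ₑ ^ 2) +
            2 * ∫⁻ x, ‖fh K x‖ₑ * ‖fh (ms K) x‖ₑ) := hsum
      _ ≤ 4 * (ENNReal.ofReal w⁻¹ * (ENNReal.ofReal D⁻¹ ^ 2 * N) +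
            2 * (ENNReal.ofReal (G * D⁻¹) * N)) := by gcongr
      _ ≤ 4 * (2 * (ENNReal.ofReal w⁻¹ * (ENNReal.ofReal D⁻¹ ^ 2 * N)) +
            2 * (ENNReal.ofReal (G * D⁻¹) * N)) := by
          have h12 : ENNReal.ofReal w⁻¹ * (ENNReal.ofReal D⁻¹ ^ 2 * N) ≤
              2 * (ENNReal.ofReal w⁻¹ * (ENNReal.ofReal D⁻¹ ^ 2 * N)) := by
            rw [two_mul]
            exact le_add_right le_rfl
          gcongr
      _ = 8 * c * N := by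
          rw [hc']
          ring
  -- the square function
  set g : ℝ → ℝ≥0∞ := fun v => 8 * ENNReal.ofReal D * ‖fh K v‖ₑ ^ 2 +
    4 * ENNReal.ofReal D⁻¹ * ‖fh H v‖ₑ ^ 2 with hg
  have hH2 : MemLp H 2 :=
    (memLp_two_iff_integrable_sq_norm hH.meas.aestronglyMeasurable).mpr hH.sq
  have hDD : ENNReal.ofReal D * ENNReal.ofReal D⁻¹ ^ 2 = ENNReal.ofReal D⁻¹ := by
    rw [pow_two, ← mul_assoc, ← ENNReal.ofReal_mul hD.le, mul_inv_cancel₀ hD.ne',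
      ENNReal.ofReal_one, one_mul]
  have hB : ∑' i : ℤ, ∫⁻ v in Ioc ((i : ℝ) * w) (((i : ℝ) + 1) * w), g v ≤
      12 * ENNReal.ofReal D⁻¹ * N := by
    rw [tsum_windows w hw]
    have hm1 : Measurable fun v => ‖fh K v‖ₑ ^ 2 := ((fh_cont hKi).enorm.measurable).pow_const 2
    have hm2 : Measurable fun v => ‖fh H v‖ₑ ^ 2 :=
      ((fh_cont hH.int).enorm.measurable).pow_const 2
    have e : ∫⁻ v, g v = 8 * ENNReal.ofReal D * (∫⁻ v, ‖fh K v‖ₑ ^ 2) +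
        4 * ENNReal.ofReal D⁻¹ * ∫⁻ v, ‖fh H v‖ₑ ^ 2 := by
      rw [hg, lintegral_add_left (hm1.const_mul _), lintegral_const_mul _ hm1,
        lintegral_const_mul _ hm2]
    rw [e, plancherel hH.int hH2, ← hN]
    calc 8 * ENNReal.ofReal D * (∫⁻ v, ‖fh K v‖ₑ ^ 2) + 4 * ENNReal.ofReal D⁻¹ * N
        ≤ 8 * ENNReal.ofReal D * (ENNReal.ofReal D⁻¹ ^ 2 * N) +
          4 * ENNReal.ofReal D⁻¹ * N := by gcongr
      _ = 8 * (ENNReal.ofReal D * ENNReal.ofReal D⁻¹ ^ 2) * N +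
          4 * ENNReal.ofReal D⁻¹ * N := by ring
      _ = 12 * ENNReal.ofReal D⁻¹ * N := by
          rw [hDD]
          ring
  -- together
  have hNV := fun i => NV_le (D := D) hw hD (fh_deriv hKi hK1i) (fh_cont hH.int) heq i
  have hN2 : N ^ (1 / 2 : ℝ) * N ^ (1 / 2 : ℝ) = N := by
    rw [← pow_two, root_sq]
  have hcpos : 0 ≤ (w * D ^ 2)⁻¹ + G * D⁻¹ := by positivity
  have hcD : c ^ (1 / 2 : ℝ) * ENNReal.ofReal D⁻¹ ^ (1 / 2 : ℝ) =
      ENNReal.ofReal (Real.sqrt (((w * D ^ 2)⁻¹ + G * D⁻¹) * D⁻¹)) := by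
    rw [← ENNReal.mul_rpow_of_nonneg _ _ (by norm_num), hc, ← ENNReal.ofReal_mul hcpos,
      ENNReal.ofReal_rpow_of_nonneg (mul_nonneg hcpos (by positivity)) (by norm_num),
      Real.sqrt_eq_rpow]
  have h812 : (8 : ℝ≥0∞) ^ (1 / 2 : ℝ) * (12 : ℝ≥0∞) ^ (1 / 2 : ℝ) ≤ 10 := by
    rw [← ENNReal.mul_rpow_of_nonneg _ _ (by norm_num)]
    calc ((8 : ℝ≥0∞) * 12) ^ (1 / 2 : ℝ) ≤ ((10 : ℝ≥0∞) ^ 2) ^ (1 / 2 : ℝ) :=
          ENNReal.rpow_le_rpow (by norm_num) (by norm_num)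
      _ = 10 := hr 10
  calc ∑' i : ℤ, NV w (fh H) i X ^ 2
      ≤ ∑' i : ℤ, 2 * (NN w (fh H) i X *
          (∫⁻ v in Ioc ((i : ℝ) * w) (((i : ℝ) + 1) * w), g v) ^ (1 / 2 : ℝ)) :=
        ENNReal.tsum_le_tsum fun i => (hNV i).trans (le_of_eq (by rw [mul_assoc]))
    _ = 2 * ∑' i : ℤ, NN w (fh H) i X *
          (∫⁻ v in Ioc ((i : ℝ) * w) (((i : ℝ) + 1) * w), g v) ^ (1 / 2 : ℝ) :=
        ENNReal.tsum_mul_left
    _ ≤ 2 * ((∑' i : ℤ, NN w (fh H) i X ^ 2) ^ (1 / 2 : ℝ) *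
          (∑' i : ℤ, ((∫⁻ v in Ioc ((i : ℝ) * w) (((i : ℝ) + 1) * w), g v) ^
            (1 / 2 : ℝ)) ^ 2) ^ (1 / 2 : ℝ)) := mul_le_mul' le_rfl (cst _ _)
    _ = 2 * ((∑' i : ℤ, NN w (fh H) i X ^ 2) ^ (1 / 2 : ℝ) *
          (∑' i : ℤ, ∫⁻ v in Ioc ((i : ℝ) * w) (((i : ℝ) + 1) * w), g v) ^ (1 / 2 : ℝ)) := by
        simp only [root_sq]
    _ ≤ 2 * ((8 * c * N) ^ (1 / 2 : ℝ) * (12 * ENNReal.ofReal D⁻¹ * N) ^ (1 / 2 : ℝ)) := by
        gcongr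
    _ = 2 * ((8 : ℝ≥0∞) ^ (1 / 2 : ℝ) * (12 : ℝ≥0∞) ^ (1 / 2 : ℝ)) *
          (c ^ (1 / 2 : ℝ) * ENNReal.ofReal D⁻¹ ^ (1 / 2 : ℝ)) *
            (N ^ (1 / 2 : ℝ) * N ^ (1 / 2 : ℝ)) := by
        rw [ENNReal.mul_rpow_of_nonneg _ _ (by norm_num), ENNReal.mul_rpow_of_nonneg _ _
          (by norm_num), ENNReal.mul_rpow_of_nonneg _ _ (by norm_num),
          ENNReal.mul_rpow_of_nonneg _ _ (by norm_num)]
        ring
    _ ≤ 2 * 10 * (c ^ (1 / 2 : ℝ) * ENNReal.ofReal D⁻¹ ^ (1 / 2 : ℝ)) *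
            (N ^ (1 / 2 : ℝ) * N ^ (1 / 2 : ℝ)) := by gcongr
    _ = _ := by
        rw [hcD, hN2]
        norm_num

end OFV_

open OFV_

theorem p_OFV (_h1 : Pool.Agent.CRR.T_OFD) : T_OFV := by
  refine ⟨20, fun w D G Om H hw hD hG hOm hH hX => ?_⟩
  calc ∑' i : ℤ, ∫⁻ X in Om, NV w (fh H) i X ^ 2
      ≤ ∫⁻ X in Om, ∑' i : ℤ, NV w (fh H) i X ^ 2 := tsum_lint_le _ _
    _ ≤ ∫⁻ _X in Om, 20 * ENNReal.ofReal (Real.sqrt (((w * D ^ 2)⁻¹ + G * D⁻¹) * D⁻¹)) *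
          ∫⁻ s, ‖H s‖ₑ ^ 2 := setLIntegral_mono' hOm fun X hXO => key hw hD hG hH (hX X hXO)
    _ = 20 * ENNReal.ofReal (Real.sqrt (((w * D ^ 2)⁻¹ + G * D⁻¹) * D⁻¹)) *
          (∫⁻ s, ‖H s‖ₑ ^ 2) * volume Om := by rw [setLIntegral_const]
    _ = _ := by
        push_cast
        ring

end Pool.Agent.VRC
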