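import Pool.Agent.VRC.Targets4
import Pool.Agent.CRR.P_PART

set_option autoImplicit false

/-!
# VRC: PAV, sum over the bands
-/

namespace Pool.Agent.VRC

open MeasureTheory FourierTransform Set Filter Topology
open scoped ENNReal NNReal
open Pool.Agent.CAR (e1)
open Pool.Agent.CRR (Ph StripD FS FA fh NN HH NSol kap aa de la si ww xc band)

namespace PAV_

open Pool.Agent.CRR.PART_

theorem ioc_eq (g : ℝ → ℂ) (V1 V2 : ℝ) : ∫ v in Ioc V1 V2, g v = ∫ v in V1..(max V1 V2), g v := by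
  rw [intervalIntegral.integral_of_le (le_max_left _ _)]
  rcases le_total V1 V2 with h | h
  · rw [max_eq_right h]
  · rw [max_eq_left h, Ioc_eq_empty_of_le h, Ioc_self]

theorem prim_cont (g : ℝ → ℂ) (hg : ∀ a b, IntervalIntegrable g volume a b) :
    Continuous (fun p : ℝ × ℝ => ∫ v in Ioc p.1 p.2, g v) := by
  have h0 : Continuous (fun x => ∫ v in (0 : ℝ)..x, g v) :=
    intervalIntegral.continuous_primitive hg 0
  have e : (fun p : ℝ × ℝ => ∫ v in Ioc p.1 p.2, g v) =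
      fun p => (∫ v in (0 : ℝ)..(max p.1 p.2), g v) - ∫ v in (0 : ℝ)..p.1, g v := by
    funext p
    rw [ioc_eq, intervalIntegral.integral_interval_sub_left (hg _ _) (hg _ _)]
  rw [e]
  exact (h0.comp (continuous_fst.max continuous_snd)).sub (h0.comp continuous_fst)

theorem FS_cont2 {κ h : ℝ → ℂ} (hκ : Continuous κ) (hh : Continuous h) {B : ℝ}
    (hB : ∀ v, ‖h v‖ ≤ B) (a d u : ℝ) : Continuous (fun p : ℝ × ℝ => FS κ a d h u p.1 p.2) := by
  obtain ⟨M, hM0, hM⟩ := ind_bd hκ a (a + d)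
  simp_rw [FS_eq]
  apply prim_cont (fun v => (Ico a (a + d)).indicator κ (u + v) * h v)
  intro x y
  have hb : ∀ v, ‖(Ico a (a + d)).indicator κ (u + v) * h v‖ ≤ M * B := by
    intro v
    rw [norm_mul]
    exact mul_le_mul (hM _) (hB _) (norm_nonneg _) hM0
  constructor
  · exact Integrable.of_bound (meas_int hκ hh a (a + d) u).aestronglyMeasurable _
      (Eventually.of_forall hb)
  · exact Integrable.of_bound (meas_int hκ hh a (a + d) u).aestronglyMeasurable _
      (Eventually.of_forall hb)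

theorem V_meas (h4 : T_VCM) {κ h : ℝ → ℂ} (hκ : Continuous κ) (hh : Continuous h) {B : ℝ}
    (hB : ∀ v, ‖h v‖ ≤ B) (a d : ℝ) : Measurable (fun u => V4o (FS κ a d h u)) :=
  h4.1 ℝ (fun u => FS κ a d h u) (fun V1 V2 => (FS_cont hκ hh hB a d V1 V2).measurable)
    (fun u => FS_cont2 hκ hh hB a d u)

end PAV_

open Pool.Agent.CRR.PART_ in
/-- **PAV**: the partial strips. -/
theorem p_PAV (h1 : Pool.Agent.CRR.T_SEQ) (h2 : T_SDV) (h3 : T_VCO) (h4 : T_VCM) : T_PAV := by
  obtain ⟨C, hC⟩ := h2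
  set K1 : ℝ≥0∞ := 2 * ∑' n : ℕ, ENNReal.ofReal (((39 / 40) ^ 2) ^ n) with hK1
  set K2 : ℝ≥0∞ := 2 * ∑' n : ℕ, ENNReal.ofReal (((40 / 39) ^ 2 * (19 / 20)) ^ n) with hK2
  have hK1t : K1 ≠ ⊤ := ENNReal.mul_ne_top (by norm_num) (geo (by norm_num) (by norm_num))
  have hK2t : K2 ≠ ⊤ := ENNReal.mul_ne_top (by norm_num) (geo (by norm_num) (by norm_num))
  refine ⟨(K1 * K2 * C).toNNReal, ?_⟩
  rw [ENNReal.coe_toNNReal (ENNReal.mul_ne_top (ENNReal.mul_ne_top hK1t hK2t)
    ENNReal.coe_ne_top)]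
  intro ν J J' H hν hJ hH
  have hκ := kap_cont hJ.sol
  set A : ℕ → ℕ → ℝ → ℝ≥0∞ := fun k j u =>
    V4o (FS (kap J) (aa ν k) (de ν k) (fh (Hj ν H j)) u) with hA
  have hAm : ∀ k j, Measurable (A k j) := fun k j =>
    PAV_.V_meas h4 hκ (fh_cont (Hj_HH hH j)) (fh_bd _) _ _
  have hAC : ∀ k j, ∫⁻ u, A k j u ^ 2 ≤
      C * ENNReal.ofReal ((19 / 20) ^ D k j) * ∫⁻ s, ‖Hj ν H j s‖ₑ ^ 2 := by
    intro k j
    apply hC ν J J' k j (Hj ν H j) hν hJ (Hj_HH hH j)
    intro s hs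
    by_contra hcon
    exact hs (indicator_of_notMem hcon _)
  have hSle : ∀ k u, V4o (FS (kap J) (aa ν k) (de ν k) (fh H) u) ≤ ∑' j, A k j u := by
    intro k u
    refine h3.1 _ (fun j => FS (kap J) (aa ν k) (de ν k) (fh (Hj ν H j)) u) ?_
    intro V1 V2 _
    exact FS_sum h1 hν hH hκ _ _ u V1 V2
  have hw : ∀ k j, ENNReal.ofReal ((39 / 40) ^ D k j) * ENNReal.ofReal ((40 / 39) ^ D k j) = 1 := by
    intro k j
    rw [← ENNReal.ofReal_mul (by positivity), ← mul_pow]
    norm_num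
  have hS2 : ∀ k u, V4o (FS (kap J) (aa ν k) (de ν k) (fh H) u) ^ 2 ≤
      K1 * ∑' j, ENNReal.ofReal (((40 / 39) ^ 2) ^ D k j) * A k j u ^ 2 := by
    intro k u
    calc V4o (FS (kap J) (aa ν k) (de ν k) (fh H) u) ^ 2
        ≤ (∑' j, A k j u) ^ 2 := by gcongr; exact hSle k u
      _ = (∑' j, ENNReal.ofReal ((39 / 40) ^ D k j) *
            (ENNReal.ofReal ((40 / 39) ^ D k j) * A k j u)) ^ 2 := by
          congr 2
          funext j
          rw [← mul_assoc, hw, one_mul]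
      _ ≤ _ := cs _ _
      _ ≤ _ := by
          gcongr ?_ * ?_
          · have := sumD (fun n => ENNReal.ofReal (((39 / 40) ^ 2) ^ n)) k
            refine le_trans (le_of_eq ?_) this
            congr 1
            funext j
            rw [← ENNReal.ofReal_pow (by positivity), ← pow_mul, ← pow_mul, mul_comm]
          · apply le_of_eq
            congr 1
            funext j
            rw [mul_pow, ← ENNReal.ofReal_pow (by positivity), ← pow_mul, ← pow_mul,
              mul_comm (D k j) 2]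
  calc ∫⁻ u, ∑' k : ℕ, V4o (FS (kap J) (aa ν k) (de ν k) (fh H) u) ^ 2
      ≤ ∫⁻ u, ∑' k : ℕ, K1 * ∑' j, ENNReal.ofReal (((40 / 39) ^ 2) ^ D k j) * A k j u ^ 2 :=
        lintegral_mono fun u => ENNReal.tsum_le_tsum fun k => hS2 k u
    _ = ∑' k : ℕ, K1 * ∑' j, ENNReal.ofReal (((40 / 39) ^ 2) ^ D k j) * ∫⁻ u, A k j u ^ 2 := by
        rw [lintegral_tsum]
        · congr 1
          funext k
          rw [lintegral_const_mul _ (Measurable.tsum fun j =>
            ((hAm k j).pow_const 2).const_mul _), lintegral_tsum]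
          · congr 2
            funext j
            rw [lintegral_const_mul _ ((hAm k j).pow_const 2)]
          · exact fun j => (((hAm k j).pow_const 2).const_mul _).aemeasurable
        · exact fun k => ((Measurable.tsum fun j =>
            ((hAm k j).pow_const 2).const_mul _).const_mul _).aemeasurable
    _ ≤ ∑' k : ℕ, K1 * ∑' j, ENNReal.ofReal (((40 / 39) ^ 2) ^ D k j) *
          (C * ENNReal.ofReal ((19 / 20) ^ D k j) * ∫⁻ s, ‖Hj ν H j s‖ₑ ^ 2) := by
        gcongr with k j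
        exact hAC k j
    _ = K1 * C * ∑' j, (∫⁻ s, ‖Hj ν H j s‖ₑ ^ 2) *
          ∑' k, ENNReal.ofReal (((40 / 39) ^ 2 * (19 / 20)) ^ D j k) := by
        simp_rw [← ENNReal.tsum_mul_left]
        rw [ENNReal.tsum_comm]
        congr 1
        funext j
        congr 1
        funext k
        rw [D_comm j k, mul_pow, ENNReal.ofReal_mul (by positivity)]
        ring
    _ ≤ K1 * C * ∑' j, (∫⁻ s, ‖Hj ν H j s‖ₑ ^ 2) * K2 := by
        gcongr with j
        exact sumD (fun n => ENNReal.ofReal (((40 / 39) ^ 2 * (19 / 20)) ^ n)) j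
    _ = K1 * K2 * C * ∫⁻ s, ‖H s‖ₑ ^ 2 := by
        rw [ENNReal.tsum_mul_right, n2_sum h1 hν]
        ring

end Pool.Agent.VRC
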