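import Pool.Agent.VRC.Targets
import Pool.Agent.CAR.P_PLU
import Pool.Agent.CAR.P_OSC
import Pool.Agent.CAR.P_CHI2
import Pool.Agent.CAR.P_WTS

set_option autoImplicit false

/-!
# VRC, target VPLU: (+)-trees
-/

namespace Pool.Agent.VRC

open MeasureTheory Set ComplexConjugate Filter Topology
open scoped ENNReal NNReal
open Pool.Agent.CAR

namespace VPLU_

theorem hs_sqrt (s : Tile) : Real.sqrt ((2 : ℝ) ^ s.k) * Pool.Agent.CAR.hs s = 1 := by
  unfold Pool.Agent.CAR.hs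
  exact mul_inv_cancel₀ (Real.sqrt_pos.2 (two_zpow_pos _)).ne'

theorem hs_nonneg (s : Tile) : 0 ≤ Pool.Agent.CAR.hs s := by
  unfold Pool.Agent.CAR.hs
  positivity

/-- the tiles of one scale -/
theorem one_scale {T : Finset Tile} {ξ : ℝ} (hT : ∀ s ∈ T, ξ ∈ s.om) (i : ℤ) (x : ℝ) :
    ∑ s ∈ T.filter (fun s => s.k = i), wt 10 (s.u x) ≤ 8 := by
  have hinj : ∀ s ∈ T.filter (fun s => s.k = i), ∀ t ∈ T.filter (fun s => s.k = i),
      s.l = t.l → s = t := by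
    intro s hs t ht hl
    rw [Finset.mem_filter] at hs ht
    have hk : s.k = t.k := hs.2.trans ht.2.symm
    have hm := m_eq hk (hT s hs.1) (hT t ht.1)
    ext
    · exact hk
    · exact hl
    · exact hm
  have himg : ∑ s ∈ T.filter (fun s => s.k = i), wt 10 (s.u x) =
      ∑ n ∈ (T.filter (fun s => s.k = i)).image Tile.l, wt 10 ((2 : ℝ) ^ (-i) * x - n) := by
    rw [Finset.sum_image (fun s hs t ht h => hinj s hs t ht h)]
    refine Finset.sum_congr rfl fun s hs => ?_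
    rw [Finset.mem_filter] at hs
    rw [Tile.u, hs.2]
  rw [himg]
  have h8 := p_WTS 10 ((2 : ℝ) ^ (-i) * x) 0 ((T.filter (fun s => s.k = i)).image Tile.l)
    (by norm_num) le_rfl (fun n _ => abs_nonneg _)
  have h9 : wt (10 - 2) 0 = 1 := by unfold wt; norm_num
  rwa [h9, mul_one] at h8

/-- geometric sum -/
theorem geo (F : Finset ℤ) (b : ℤ) (hF : ∀ i ∈ F, b ≤ i) :
    ∑ i ∈ F, (2 : ℝ) ^ (-i) ≤ 2 * (2 : ℝ) ^ (-b) := by
  have hinj : Set.InjOn (fun i : ℤ => (i - b).toNat) F := by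
    intro i hi j hj hij
    have h1 := hF i hi
    have h2 := hF j hj
    simp only at hij
    omega
  have e : ∑ i ∈ F, (2 : ℝ) ^ (-i) =
      ∑ n ∈ F.image (fun i : ℤ => (i - b).toNat), (1 / 2 : ℝ) ^ n * (2 : ℝ) ^ (-b) := by
    rw [Finset.sum_image hinj]
    refine Finset.sum_congr rfl fun i hi => ?_
    have h1 := hF i hi
    obtain ⟨n, hn⟩ : ∃ n : ℕ, i = b + n := ⟨(i - b).toNat, by omega⟩
    subst hn
    have e1 : (b + n - b).toNat = n := by omega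
    rw [e1, neg_add, zpow_add₀ (by norm_num), zpow_neg _ (n : ℤ), zpow_natCast, one_div, inv_pow]
    ring
  rw [e, ← Finset.sum_mul]
  refine mul_le_mul_of_nonneg_right ?_ (two_zpow_pos _).le
  exact sum_le_hasSum _ (fun n _ => by positivity) hasSum_geometric_two

/-- the truncated sums of the tree do not oscillate at smaller scales -/
theorem ps_sub {C eps : ℝ} {φ : ℝ → ℂ} {T : Finset Tile} {ξ : ℝ} (hT : ∀ s ∈ T, ξ ∈ s.up)
    (hC : 0 ≤ C) (heps : 0 ≤ eps)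
    (hO : ∀ s ∈ T, ∀ x y : ℝ, |x - y| ≤ (2 : ℝ) ^ s.k →
      ‖fx φ s x * e1 (-(x * ξ)) - fx φ s y * e1 (-(y * ξ))‖ ≤
        C * Pool.Agent.CAR.hs s * ((2 : ℝ) ^ (-s.k) * |x - y|) * wt 10 (s.u x))
    {w : Tile → ℂ} (hw : ∀ s ∈ T, ‖w s‖ ≤ eps * √((2 : ℝ) ^ s.k)) {a b : ℤ} (hab : a ≤ b)
    {x y : ℝ} (hxy : |x - y| ≤ (2 : ℝ) ^ a) :
    ‖ps φ T w ξ b y - ps φ T w ξ b x‖ ≤ 16 * C * eps * (2 : ℝ) ^ (a - b) := by
  have e : ps φ T w ξ b y - ps φ T w ξ b x = ∑ s ∈ T.filter (fun s => b ≤ s.k),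
      w s * (fx φ s y * e1 (-(y * ξ)) - fx φ s x * e1 (-(x * ξ))) := by
    unfold ps
    rw [Finset.sum_mul, Finset.sum_mul, ← Finset.sum_sub_distrib]
    exact Finset.sum_congr rfl fun s _ => by ring
  have h1 : ∀ s ∈ T.filter (fun s => b ≤ s.k),
      ‖w s * (fx φ s y * e1 (-(y * ξ)) - fx φ s x * e1 (-(x * ξ)))‖ ≤
        C * eps * (2 : ℝ) ^ a * ((2 : ℝ) ^ (-s.k) * wt 10 (s.u x)) := by
    intro s hs
    rw [Finset.mem_filter] at hs
    have h2 := hO s hs.1 x y (hxy.trans (two_zpow_le (hab.trans hs.2)))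
    rw [norm_sub_rev] at h2
    have hwt : 0 ≤ wt 10 (s.u x) := by unfold wt; positivity
    have hh := hs_nonneg s
    have hk := two_zpow_pos (-s.k)
    rw [norm_mul]
    calc ‖w s‖ * ‖fx φ s y * e1 (-(y * ξ)) - fx φ s x * e1 (-(x * ξ))‖
        ≤ (eps * √((2 : ℝ) ^ s.k)) *
          (C * Pool.Agent.CAR.hs s * ((2 : ℝ) ^ (-s.k) * (2 : ℝ) ^ a) * wt 10 (s.u x)) := by
          refine mul_le_mul (hw s hs.1) (h2.trans ?_) (norm_nonneg _) (by positivity)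
          gcongr
      _ = C * eps * (2 : ℝ) ^ a * ((2 : ℝ) ^ (-s.k) * wt 10 (s.u x)) *
          (√((2 : ℝ) ^ s.k) * Pool.Agent.CAR.hs s) := by ring
      _ = _ := by rw [hs_sqrt, mul_one]
  rw [e]
  refine (norm_sum_le_of_le _ h1).trans ?_
  rw [← Finset.mul_sum]
  have h3 : ∑ s ∈ T.filter (fun s => b ≤ s.k), (2 : ℝ) ^ (-s.k) * wt 10 (s.u x) ≤
      16 * (2 : ℝ) ^ (-b) := by
    have h4 : ∑ s ∈ T.filter (fun s => b ≤ s.k), (2 : ℝ) ^ (-s.k) * wt 10 (s.u x) =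
        ∑ i ∈ (T.filter (fun s => b ≤ s.k)).image Tile.k,
          ∑ s ∈ (T.filter (fun s => b ≤ s.k)).filter (fun s => s.k = i),
            (2 : ℝ) ^ (-s.k) * wt 10 (s.u x) := by
      rw [Finset.sum_fiberwise_of_maps_to]
      intro s hs
      exact Finset.mem_image_of_mem _ hs
    rw [h4]
    calc ∑ i ∈ (T.filter (fun s => b ≤ s.k)).image Tile.k,
          ∑ s ∈ (T.filter (fun s => b ≤ s.k)).filter (fun s => s.k = i),
            (2 : ℝ) ^ (-s.k) * wt 10 (s.u x)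
        ≤ ∑ i ∈ (T.filter (fun s => b ≤ s.k)).image Tile.k, (2 : ℝ) ^ (-i) * 8 := by
          refine Finset.sum_le_sum fun i _ => ?_
          have e2 : ∑ s ∈ (T.filter (fun s => b ≤ s.k)).filter (fun s => s.k = i),
              (2 : ℝ) ^ (-s.k) * wt 10 (s.u x) = (2 : ℝ) ^ (-i) *
              ∑ s ∈ (T.filter (fun s => b ≤ s.k)).filter (fun s => s.k = i), wt 10 (s.u x) := by
            rw [Finset.mul_sum]
            refine Finset.sum_congr rfl fun s hs => ?_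
            rw [(Finset.mem_filter.1 hs).2]
          rw [e2]
          refine mul_le_mul_of_nonneg_left ?_ (two_zpow_pos _).le
          exact one_scale (fun s hs => up_sub s (hT s (Finset.mem_filter.1 hs).1)) i x
      _ = (∑ i ∈ (T.filter (fun s => b ≤ s.k)).image Tile.k, (2 : ℝ) ^ (-i)) * 8 := by
          rw [Finset.sum_mul]
      _ ≤ (2 * (2 : ℝ) ^ (-b)) * 8 := by
          refine mul_le_mul_of_nonneg_right (geo _ b ?_) (by norm_num)
          intro i hi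
          obtain ⟨s, hs, rfl⟩ := Finset.mem_image.1 hi
          exact (Finset.mem_filter.1 hs).2
      _ = _ := by ring
  have h5 : 0 ≤ C * eps * (2 : ℝ) ^ a := by
    have := two_zpow_pos a
    positivity
  refine (mul_le_mul_of_nonneg_left h3 h5).trans (le_of_eq ?_)
  rw [sub_eq_add_neg, zpow_add₀ (by norm_num)]
  ring

/-- the structure of the large part at one point -/
theorem struct {L : ℕ} {p q : ℕ → ℝ → ℝ} {a : ℕ → ℝ → ℂ} {φ : ℝ → ℂ} {T : Finset Tile} {ξ : ℝ}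
    (hA : ∀ (s : Tile) (i j : ℕ) (x : ℝ), i < L → j < L → x ∈ Act p q s i → x ∈ Act p q s j →
      i = j)
    (hV : ∀ s ∈ T, ∀ t ∈ T, ∀ r ∈ T, s.k ≤ r.k → r.k ≤ t.k → ∀ (j : ℕ) (x : ℝ),
      x ∈ Act p q s j → x ∈ Act p q t j → x ∈ Act p q r j)
    (w : Tile → ℂ) (k0 M : ℤ) (hM : ∀ s ∈ T, s.k + 1 ≤ M) (y : ℝ) :
    ∃ (J : Finset ℕ) (α β : ℕ → ℤ), J ⊆ Finset.range L ∧
      (∀ j ∈ J, k0 ≤ α j ∧ (∃ s ∈ T, s.k = α j) ∧ α j < β j ∧ β j ≤ M) ∧
      (∀ i ∈ J, ∀ j ∈ J, i ≠ j → β i ≤ α j ∨ β j ≤ α i) ∧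
      (∀ j ∈ J, ∃ s ∈ T, k0 ≤ s.k ∧ p j y ∈ s.up) ∧
      (∑ s ∈ T, if k0 ≤ s.k then w s * fx φ s y * vc L p q a s y else 0) =
        e1 (y * ξ) * ∑ j ∈ J, a j y * (ps φ T w ξ (α j) y - ps φ T w ξ (β j) y) := by
  classical
  set S : ℕ → Finset Tile := fun j => T.filter (fun s => k0 ≤ s.k ∧ y ∈ Act p q s j) with hS
  have hmem : ∀ j s, s ∈ S j ↔ s ∈ T ∧ k0 ≤ s.k ∧ y ∈ Act p q s j := by
    intro j s
    rw [hS]
    simp only [Finset.mem_filter]
  set J : Finset ℕ := (Finset.range L).filter (fun j => (S j).Nonempty) with hJ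
  have hex : ∀ j, ∃ αβ : ℤ × ℤ, (S j).Nonempty → (∃ s ∈ S j, s.k = αβ.1) ∧
      (∃ s ∈ S j, s.k + 1 = αβ.2) ∧ ∀ s ∈ S j, αβ.1 ≤ s.k ∧ s.k + 1 ≤ αβ.2 := by
    intro j
    by_cases h : (S j).Nonempty
    · obtain ⟨s, hs, hs'⟩ := Finset.exists_min_image _ (fun s => s.k) h
      obtain ⟨t, ht, ht'⟩ := Finset.exists_max_image _ (fun s => s.k) h
      exact ⟨(s.k, t.k + 1), fun _ => ⟨⟨s, hs, rfl⟩, ⟨t, ht, rfl⟩, fun r hr =>
        ⟨hs' r hr, by have := ht' r hr; simp only at this ⊢; omega⟩⟩⟩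
    · exact ⟨(0, 0), fun h' => absurd h' h⟩
  choose αβ hαβ using hex
  have hJm : ∀ j, j ∈ J ↔ j < L ∧ (S j).Nonempty := by
    intro j
    rw [hJ]
    simp only [Finset.mem_filter, Finset.mem_range]
  have hchar : ∀ j ∈ J, ∀ r ∈ T, (αβ j).1 ≤ r.k → r.k < (αβ j).2 → r ∈ S j := by
    intro j hj r hr h1 h2
    obtain ⟨⟨s, hs, hs1⟩, ⟨t, ht, ht1⟩, -⟩ := hαβ j ((hJm j).1 hj).2
    rw [hmem] at hs ht ⊢
    refine ⟨hr, by omega, hV s hs.1 t ht.1 r hr (by omega) (by omega) j y hs.2.2 ht.2.2⟩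
  refine ⟨J, fun j => (αβ j).1, fun j => (αβ j).2, Finset.filter_subset _ _, ?_, ?_, ?_, ?_⟩
  · intro j hj
    obtain ⟨⟨s, hs, hs1⟩, ⟨t, ht, ht1⟩, h3⟩ := hαβ j ((hJm j).1 hj).2
    have h4 := h3 s hs
    have h5 := hM t ((hmem j t).1 ht).1
    have h6 := ((hmem j s).1 hs).2.1
    exact ⟨by simp only; omega, ⟨s, ((hmem j s).1 hs).1, hs1⟩, by simp only; omega,
      by simp only; omega⟩
  · have key : ∀ i ∈ J, ∀ j ∈ J, i ≠ j → (αβ i).1 ≤ (αβ j).1 → (αβ i).2 ≤ (αβ j).1 := by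
      intro i hi j hj hij h
      by_contra hcon
      push Not at hcon
      obtain ⟨⟨s, hs, hs1⟩, -, -⟩ := hαβ j ((hJm j).1 hj).2
      have h1 := hchar i hi s ((hmem j s).1 hs).1 (by omega) (by omega)
      exact hij (hA s i j y ((hJm i).1 hi).1 ((hJm j).1 hj).1 ((hmem i s).1 h1).2.2
        ((hmem j s).1 hs).2.2)
    intro i hi j hj hij
    rcases le_total (αβ i).1 (αβ j).1 with h | h
    · exact Or.inl (key i hi j hj hij h)
    · exact Or.inr (key j hj i hi hij.symm h)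
  · intro j hj
    obtain ⟨s, hs⟩ := ((hJm j).1 hj).2
    rw [hmem] at hs
    exact ⟨s, hs.1, hs.2.1, hs.2.2.1⟩
  · have e1' : e1 (y * ξ) * e1 (-(y * ξ)) = 1 := by
      rw [← PK.e1_add, add_neg_cancel, PK.e1_zero]
    have h1 : ∀ j ∈ J, ps φ T w ξ (αβ j).1 y - ps φ T w ξ (αβ j).2 y =
        (∑ s ∈ S j, w s * fx φ s y) * e1 (-(y * ξ)) := by
      intro j hj
      unfold ps
      rw [← sub_mul]
      congr 1
      rw [hS]
      simp only
      rw [Finset.sum_filter, Finset.sum_filter, Finset.sum_filter, ← Finset.sum_sub_distrib]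
      refine Finset.sum_congr rfl fun s hs => ?_
      obtain ⟨⟨s1, hs1, hs1'⟩, -, h3⟩ := hαβ j ((hJm j).1 hj).2
      by_cases h4 : (αβ j).2 ≤ s.k
      · have h5 : ¬ (k0 ≤ s.k ∧ y ∈ Act p q s j) := by
          intro h
          have := h3 s ((hmem j s).2 ⟨hs, h⟩)
          omega
        have h6 := h3 s1 hs1
        rw [if_pos h4, if_pos (by omega), if_neg h5, sub_self]
      · push Not at h4
        rw [if_neg (show ¬ (αβ j).2 ≤ s.k by omega), sub_zero]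
        by_cases h5 : (αβ j).1 ≤ s.k
        · have h6 := (hmem j s).1 (hchar j hj s hs h5 h4)
          rw [if_pos h5, if_pos h6.2]
        · have h6 : ¬ (k0 ≤ s.k ∧ y ∈ Act p q s j) := by
            intro h
            have := h3 s ((hmem j s).2 ⟨hs, h⟩)
            omega
          rw [if_neg h5, if_neg h6]
    have h2 : ∑ j ∈ J, a j y * (ps φ T w ξ (αβ j).1 y - ps φ T w ξ (αβ j).2 y) =
        e1 (-(y * ξ)) * ∑ j ∈ Finset.range L, a j y * ∑ s ∈ S j, w s * fx φ s y := by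
      rw [Finset.mul_sum, hJ, Finset.sum_filter]
      refine Finset.sum_congr rfl fun j hj => ?_
      by_cases h3 : (S j).Nonempty
      · rw [if_pos h3, h1 j ((hJm j).2 ⟨Finset.mem_range.1 hj, h3⟩)]
        ring
      · rw [if_neg h3, Finset.not_nonempty_iff_eq_empty.1 h3, Finset.sum_empty, mul_zero, mul_zero]
    rw [h2, ← mul_assoc, e1', one_mul]
    have h4 : ∀ s ∈ T, (if k0 ≤ s.k then w s * fx φ s y * vc L p q a s y else 0) =
        ∑ j ∈ Finset.range L, a j y *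
          (if k0 ≤ s.k ∧ y ∈ Act p q s j then w s * fx φ s y else 0) := by
      intro s hs
      by_cases h5 : k0 ≤ s.k
      · rw [if_pos h5]
        unfold vc
        rw [Finset.mul_sum]
        refine Finset.sum_congr rfl fun j _ => ?_
        by_cases h6 : y ∈ Act p q s j
        · rw [indicator_of_mem h6, if_pos ⟨h5, h6⟩]
          ring
        · rw [indicator_of_notMem h6, if_neg (fun h => h6 h.2), mul_zero, mul_zero]
      · rw [if_neg h5]
        refine (Finset.sum_eq_zero fun j _ => ?_).symm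
        rw [if_neg (fun h => h5 h.1), mul_zero]
    rw [Finset.sum_congr rfl h4, Finset.sum_comm]
    refine Finset.sum_congr rfl fun j _ => ?_
    rw [← Finset.mul_sum, hS]
    simp only
    rw [Finset.sum_filter]

/-- the `ℓ⁴` norm is at most the `ℓ¹` norm -/
theorem l4_le {ι : Type*} (J : Finset ι) (g : ι → ℝ≥0∞) :
    (∑ j ∈ J, g j ^ (4 : ℝ)) ^ (1 / 4 : ℝ) ≤ ∑ j ∈ J, g j := by
  have h1 : ∑ j ∈ J, g j ^ (4 : ℝ) ≤ (∑ j ∈ J, g j) ^ (4 : ℝ) := by
    calc ∑ j ∈ J, g j ^ (4 : ℝ) ≤ ∑ j ∈ J, (∑ i ∈ J, g i) ^ (3 : ℝ) * g j := by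
          refine Finset.sum_le_sum fun j hj => ?_
          have h2 : g j ≤ ∑ i ∈ J, g i := Finset.single_le_sum (fun _ _ => bot_le) hj
          have e : g j ^ (4 : ℝ) = g j ^ (3 : ℝ) * g j := by
            rw [show (4 : ℝ) = 3 + 1 by norm_num,
              ENNReal.rpow_add_of_nonneg _ _ (by norm_num) (by norm_num), ENNReal.rpow_one]
          rw [e]
          gcongr
      _ = (∑ i ∈ J, g i) ^ (3 : ℝ) * ∑ j ∈ J, g j := by rw [Finset.mul_sum]
      _ = (∑ j ∈ J, g j) ^ (4 : ℝ) := by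
          rw [show (4 : ℝ) = 3 + 1 by norm_num,
            ENNReal.rpow_add_of_nonneg _ _ (by norm_num) (by norm_num), ENNReal.rpow_one]
  calc (∑ j ∈ J, g j ^ (4 : ℝ)) ^ (1 / 4 : ℝ) ≤ ((∑ j ∈ J, g j) ^ (4 : ℝ)) ^ (1 / 4 : ℝ) :=
        ENNReal.rpow_le_rpow h1 (by norm_num)
    _ = ∑ j ∈ J, g j := by
        rw [← ENNReal.rpow_mul]
        norm_num

/-- the 4-variation of a choice of intervals -/
theorem le_V4 {z : ℤ → ℂ} {m M : ℤ} {J : Finset ℕ} {α β : ℕ → ℤ}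
    (h1 : ∀ j ∈ J, m ≤ α j ∧ α j < β j ∧ β j ≤ M)
    (h2 : ∀ i ∈ J, ∀ j ∈ J, i ≠ j → β i ≤ α j ∨ β j ≤ α i) :
    (∑ j ∈ J, ‖z (β j) - z (α j)‖ₑ ^ (4 : ℝ)) ^ (1 / 4 : ℝ) ≤ V4 z m M := by
  classical
  have hinj : Set.InjOn (fun j => (α j, β j)) (J : Set ℕ) := by
    intro i hi j hj hij
    by_contra hne
    have h3 := h2 i hi j hj hne
    simp only [Prod.mk.injEq] at hij
    have h4 := h1 i hi
    have h5 := h1 j hj
    omega
  have e : ∑ j ∈ J, ‖z (β j) - z (α j)‖ₑ ^ (4 : ℝ) =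
      ∑ c ∈ J.image (fun j => (α j, β j)), ‖z c.2 - z c.1‖ₑ ^ 4 := by
    rw [Finset.sum_image hinj]
    refine Finset.sum_congr rfl fun j _ => ?_
    rw [← ENNReal.rpow_natCast]
    norm_num
  rw [e]
  unfold V4
  refine le_iSup₂_of_le (J.image (fun j => (α j, β j))) ⟨?_, ?_⟩ le_rfl
  · intro c hc
    obtain ⟨j, hj, rfl⟩ := Finset.mem_image.1 hc
    obtain ⟨h3, h4, h5⟩ := h1 j hj
    exact ⟨h3, h4.le, h5⟩
  · intro c hc d hd hcd
    obtain ⟨i, hi, rfl⟩ := Finset.mem_image.1 hc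
    obtain ⟨j, hj, rfl⟩ := Finset.mem_image.1 hd
    exact h2 i hi j hj (fun h => hcd (by rw [h]))

/-- the pointwise bound of the large part -/
theorem large_pt {C eps : ℝ} {L : ℕ} {p q : ℕ → ℝ → ℝ} {a : ℕ → ℝ → ℂ} {φ : ℝ → ℂ}
    {T : Finset Tile} {ξ : ℝ} (hT : ∀ s ∈ T, ξ ∈ s.up)
    (hA : ∀ (s : Tile) (i j : ℕ) (x : ℝ), i < L → j < L → x ∈ Act p q s i → x ∈ Act p q s j →
      i = j)
    (hV : ∀ s ∈ T, ∀ t ∈ T, ∀ r ∈ T, s.k ≤ r.k → r.k ≤ t.k → ∀ (j : ℕ) (x : ℝ),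
      x ∈ Act p q s j → x ∈ Act p q t j → x ∈ Act p q r j)
    (hC : 0 ≤ C) (heps : 0 ≤ eps)
    (hO : ∀ s ∈ T, ∀ x y : ℝ, |x - y| ≤ (2 : ℝ) ^ s.k →
      ‖fx φ s x * e1 (-(x * ξ)) - fx φ s y * e1 (-(y * ξ))‖ ≤
        C * Pool.Agent.CAR.hs s * ((2 : ℝ) ^ (-s.k) * |x - y|) * wt 10 (s.u x))
    {w : Tile → ℂ} (hw : ∀ s ∈ T, ‖w s‖ ≤ eps * √((2 : ℝ) ^ s.k)) {κ m M : ℤ}
    (hm : ∀ s ∈ T, m ≤ s.k) (hM : ∀ s ∈ T, s.k + 1 ≤ M) {x y : ℝ}
    (hxy : |x - y| ≤ (2 : ℝ) ^ κ) {U : Set ℝ} (hU : ∀ s ∈ T, κ + 2 ≤ s.k → s.up ⊆ U) :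
    ‖∑ s ∈ T, if κ + 2 ≤ s.k then w s * fx φ s y * vc L p q a s y else 0‖ₑ ≤
      ENNReal.ofReal (vm L p a U y) ^ (3 / 4 : ℝ) *
        (V4 (fun b => ps φ T w ξ b x) m M + ENNReal.ofReal (16 * C * eps)) := by
  classical
  obtain ⟨J, α, β, hJL, h1, h2, h3, h4⟩ := struct (φ := φ) (ξ := ξ) (a := a) hA hV w (κ + 2) M hM y
  rw [h4, enorm_mul]
  have e1n : ‖e1 (y * ξ)‖ₑ = 1 := by
    rw [← ofReal_norm, PK.norm_e1, ENNReal.ofReal_one]
  rw [e1n, one_mul]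
  set z : ℝ → ℤ → ℂ := fun x b => ps φ T w ξ b x with hz
  have hH : ‖∑ j ∈ J, a j y * (z y (α j) - z y (β j))‖ₑ ≤
      (∑ j ∈ J, ‖a j y‖ₑ ^ (4 / 3 : ℝ)) ^ (3 / 4 : ℝ) *
        (∑ j ∈ J, ‖z y (β j) - z y (α j)‖ₑ ^ (4 : ℝ)) ^ (1 / 4 : ℝ) := by
    have hpq : (4 / 3 : ℝ).HolderConjugate 4 := by
      rw [Real.holderConjugate_iff]
      norm_num
    have h5 := ENNReal.inner_le_Lp_mul_Lq J (fun j => ‖a j y‖ₑ)
      (fun j => ‖z y (β j) - z y (α j)‖ₑ) hpq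
    refine (enorm_sum_le _ _).trans ?_
    refine le_trans (le_of_eq (Finset.sum_congr rfl fun j _ => ?_)) (h5.trans (le_of_eq ?_))
    · rw [enorm_mul, ← enorm_neg (z y (α j) - z y (β j)), neg_sub]
    · norm_num
  refine hH.trans (mul_le_mul' ?_ ?_)
  · refine ENNReal.rpow_le_rpow ?_ (by norm_num)
    have e2 : ∀ j, ‖a j y‖ₑ ^ (4 / 3 : ℝ) = ENNReal.ofReal (‖a j y‖ ^ (4 / 3 : ℝ)) := by
      intro j
      rw [← ofReal_norm, ENNReal.ofReal_rpow_of_nonneg (norm_nonneg _) (by norm_num)]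
    rw [Finset.sum_congr rfl fun j _ => e2 j, ← ENNReal.ofReal_sum_of_nonneg
      (fun j _ => by positivity)]
    refine ENNReal.ofReal_le_ofReal ?_
    unfold vm
    calc ∑ j ∈ J, ‖a j y‖ ^ (4 / 3 : ℝ)
        = ∑ j ∈ J, (p j ⁻¹' U).indicator (fun y => ‖a j y‖ ^ (4 / 3 : ℝ)) y := by
          refine Finset.sum_congr rfl fun j hj => ?_
          obtain ⟨s, hs, hk, hp⟩ := h3 j hj
          rw [indicator_of_mem]
          exact hU s hs hk hp
      _ ≤ _ := by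
          refine Finset.sum_le_sum_of_subset_of_nonneg hJL fun j _ _ => ?_
          exact indicator_nonneg (fun _ _ => by positivity) _
  · set g : ℕ → ℝ≥0∞ := fun j => ‖z x (β j) - z x (α j)‖ₑ with hg
    set D : ℕ → ℝ≥0∞ := fun j => ENNReal.ofReal (32 * C * eps * (2 : ℝ) ^ (κ - α j)) with hD
    have h6 : ∀ j ∈ J, ‖z y (β j) - z y (α j)‖ₑ ≤ g j + D j := by
      intro j hj
      obtain ⟨h7, -, h8, -⟩ := h1 j hj
      have h9 := ps_sub (φ := φ) hT hC heps hO hw (a := κ) (b := α j) (by omega) hxy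
      have h10 := ps_sub (φ := φ) hT hC heps hO hw (a := κ) (b := β j) (by omega) hxy
      have h11 : (2 : ℝ) ^ (κ - β j) ≤ (2 : ℝ) ^ (κ - α j) := two_zpow_le (by omega)
      have h12 : ‖(z y (β j) - z x (β j)) - (z y (α j) - z x (α j))‖ ≤
          32 * C * eps * (2 : ℝ) ^ (κ - α j) := by
        refine (norm_sub_le _ _).trans ?_
        have h13 : 16 * C * eps * (2 : ℝ) ^ (κ - β j) ≤ 16 * C * eps * (2 : ℝ) ^ (κ - α j) :=
          mul_le_mul_of_nonneg_left h11 (by positivity)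
        have h14 : ‖z y (β j) - z x (β j)‖ ≤ 16 * C * eps * (2 : ℝ) ^ (κ - β j) := h10
        have h15 : ‖z y (α j) - z x (α j)‖ ≤ 16 * C * eps * (2 : ℝ) ^ (κ - α j) := h9
        linarith
      have e3 : z y (β j) - z y (α j) = (z x (β j) - z x (α j)) +
          ((z y (β j) - z x (β j)) - (z y (α j) - z x (α j))) := by ring
      rw [e3]
      refine (enorm_add_le _ _).trans (add_le_add le_rfl ?_)
      rw [← ofReal_norm]
      exact ENNReal.ofReal_le_ofReal h12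
    have h7 : (∑ j ∈ J, ‖z y (β j) - z y (α j)‖ₑ ^ (4 : ℝ)) ^ (1 / 4 : ℝ) ≤
        (∑ j ∈ J, (g j + D j) ^ (4 : ℝ)) ^ (1 / 4 : ℝ) := by
      refine ENNReal.rpow_le_rpow (Finset.sum_le_sum fun j hj => ?_) (by norm_num)
      exact ENNReal.rpow_le_rpow (h6 j hj) (by norm_num)
    have h8 := ENNReal.Lp_add_le J g D (p := 4) (by norm_num)
    refine h7.trans (h8.trans (add_le_add ?_ ?_))
    · exact le_V4 (z := z x) (fun j hj => by
        obtain ⟨-, ⟨s, hs, hs'⟩, h9, h10⟩ := h1 j hj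
        exact ⟨hs' ▸ hm s hs, h9, h10⟩) h2
    · refine (l4_le J D).trans ?_
      rw [hD, ← ENNReal.ofReal_sum_of_nonneg (fun j _ => by
        have := two_zpow_pos (κ - α j)
        positivity)]
      refine ENNReal.ofReal_le_ofReal ?_
      rw [← Finset.mul_sum]
      have hinj : Set.InjOn α (J : Set ℕ) := by
        intro i hi j hj hij
        by_contra hne
        have h3 := h2 i hi j hj hne
        have h4 := h1 i hi
        have h5 := h1 j hj
        omega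
      have h9 : ∑ j ∈ J, (2 : ℝ) ^ (κ - α j) ≤ 1 / 2 := by
        have e4 : ∑ j ∈ J, (2 : ℝ) ^ (κ - α j) =
            (2 : ℝ) ^ κ * ∑ i ∈ J.image α, (2 : ℝ) ^ (-i) := by
          rw [Finset.sum_image hinj, Finset.mul_sum]
          refine Finset.sum_congr rfl fun j _ => ?_
          rw [sub_eq_add_neg, zpow_add₀ (by norm_num)]
        rw [e4]
        have h10 := geo (J.image α) (κ + 2) (by
          intro i hi
          obtain ⟨j, hj, rfl⟩ := Finset.mem_image.1 hi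
          exact (h1 j hj).1)
        calc (2 : ℝ) ^ κ * ∑ i ∈ J.image α, (2 : ℝ) ^ (-i)
            ≤ (2 : ℝ) ^ κ * (2 * (2 : ℝ) ^ (-(κ + 2))) :=
              mul_le_mul_of_nonneg_left h10 (two_zpow_pos _).le
          _ = 2 * (2 : ℝ) ^ (κ + -(κ + 2)) := by
              rw [zpow_add₀ (by norm_num : (2 : ℝ) ≠ 0) κ (-(κ + 2))]
              ring
          _ = 1 / 2 := by
              rw [show κ + -(κ + 2) = -2 by ring]
              norm_num
      calc 32 * C * eps * ∑ j ∈ J, (2 : ℝ) ^ (κ - α j) ≤ 32 * C * eps * (1 / 2) :=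
            mul_le_mul_of_nonneg_left h9 (by positivity)
        _ = 16 * C * eps := by ring

theorem measurable_V4 {z : ℝ → ℤ → ℂ} (hz : ∀ b, Measurable fun x => z x b) (m M : ℤ) :
    Measurable fun x => V4 (z x) m M := by
  unfold V4
  refine Measurable.iSup fun P => ?_
  refine Measurable.iSup_Prop _ ?_
  refine Measurable.pow_const ?_ _
  refine Finset.measurable_fun_sum _ fun c _ => ?_
  exact (((hz c.2).sub (hz c.1)).enorm).pow_const _

theorem measurable_ps {A : ℝ} {φ Φ : ℝ → ℂ} (hW : WPk A φ Φ) (T : Finset Tile) (w : Tile → ℂ)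
    (ξ : ℝ) (b : ℤ) : Measurable fun x => ps φ T w ξ b x := by
  unfold ps
  refine Measurable.mul (Finset.measurable_fun_sum _ fun s _ => ?_) ?_
  · exact measurable_const.mul (PK.continuous_fx hW s).measurable
  · have h1 : Continuous e1 := PK.continuous_e1
    have h2 : Continuous fun x : ℝ => e1 (-(x * ξ)) := by fun_prop
    exact h2.measurable

/-- the frequencies of the large tiles -/
def UU (T : Finset Tile) (k : ℤ) : Set ℝ := {f | ∃ s ∈ T, k + 2 ≤ s.k ∧ f ∈ s.om}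

theorem measurable_w {L : ℕ} {p : ℕ → ℝ → ℝ} {a : ℕ → ℝ → ℂ} (hp : ∀ j, Measurable (p j))
    (ha : ∀ j, Measurable (a j)) {κ : ℝ → ℤ} (hκ : Measurable κ) (T : Finset Tile) :
    Measurable fun y => ENNReal.ofReal (vm L p a (UU T (κ y)) y) := by
  refine Measurable.ennreal_ofReal ?_
  unfold vm
  refine Finset.measurable_fun_sum _ fun j _ => ?_
  have hs : MeasurableSet {y | p j y ∈ UU T (κ y)} := by
    have : {y | p j y ∈ UU T (κ y)} = ⋃ s ∈ T, {y | κ y + 2 ≤ s.k ∧ p j y ∈ s.om} := by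
      ext y
      simp only [UU, mem_ofPred_eq, mem_iUnion, exists_prop]
    rw [this]
    refine Finset.measurableSet_biUnion T fun s _ => ?_
    have h1 : MeasurableSet {y | κ y + 2 ≤ s.k} :=
      measurableSet_le (hκ.add_const 2) measurable_const
    exact h1.inter (hp j (measurableSet_dy _ _))
  have e : (fun y => (p j ⁻¹' UU T (κ y)).indicator (fun y => ‖a j y‖ ^ (4 / 3 : ℝ)) y) =
      {y | p j y ∈ UU T (κ y)}.indicator (fun y => ‖a j y‖ ^ (4 / 3 : ℝ)) := by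
    funext y
    by_cases h : p j y ∈ UU T (κ y)
    · rw [indicator_of_mem (show y ∈ p j ⁻¹' UU T (κ y) from h), indicator_of_mem (by exact h)]
    · rw [indicator_of_notMem (show y ∉ p j ⁻¹' UU T (κ y) from h),
        indicator_of_notMem (by exact h)]
  rw [e]
  exact ((ha j).norm.pow_const _).indicator hs

end VPLU_

open VPLU_ in
theorem p_VPLU (h1 : T_VBAS) (h2 : T_VTR) (h3 : T_VP2) (h4 : T_VAVG) (h5 : T_VSMA) (h6 : T_VSPL)
    (h7 : T_VV4) : T_VPLU := by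
  classical
  intro A
  obtain ⟨C3, hC3, hP2⟩ := h3
  obtain ⟨C4, hC4, hSMA⟩ := h5 A
  obtain ⟨C5, hC5, hSMB⟩ := p_SMB
  obtain ⟨C7, hV4⟩ := h7 A
  obtain ⟨C8, hC8, hOSC⟩ := p_OSC p_CHI2 A
  refine ⟨C4 * C5 + C3 ^ (3 / 4 : ℝ) * (C7 * √3 + 48 * C8), by positivity, ?_⟩
  intro φ Φ hW L p q a E hPQ hAB c T K Λ ξ eps mu hc hT heps hmu hEn hMs
  have hK := two_zpow_pos K
  have hmu34 : 0 ≤ mu ^ (3 / 4 : ℝ) := Real.rpow_nonneg hmu _
  rcases T.eq_empty_or_nonempty with rfl | hne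
  · rw [Finset.sum_empty]
    positivity
  obtain ⟨κ, hκ⟩ := p_STOP T hne
  obtain ⟨ε, hε, hle⟩ := h6 A φ Φ hW L p q a E hPQ hAB c T κ (fun s _ => hc s) hκ.meas
  have hTr : Tree T K Λ ξ := fun s hs => ⟨(hT s hs).1, up_sub s (hT s hs).2⟩
  have hsing : ∀ s ∈ T, c s ≤ eps * √((2 : ℝ) ^ s.k) := fun s hs => PLU_.single heps hEn hs
  have hw : ∀ s, ‖ε s * ((c s : ℝ) : ℂ)‖ = c s := by
    intro s
    rw [norm_mul, hε s, one_mul, Complex.norm_real, Real.norm_of_nonneg (hc s)]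
  have hsmall : ∑ s ∈ T, c s *
      ∫ x in {x | s.k ≤ κ x + 1}, ‖vc L p q a s x‖ * ‖fx φ s x‖ ≤
      C4 * C5 * (eps * mu ^ (3 / 4 : ℝ) * 2 ^ K) := by
    calc ∑ s ∈ T, c s * ∫ x in {x | s.k ≤ κ x + 1}, ‖vc L p q a s x‖ * ‖fx φ s x‖
        ≤ ∑ s ∈ T, eps * (C4 * mu ^ (3 / 4 : ℝ) * ∫ x in {x | s.k ≤ κ x + 1}, wt 10 (s.u x)) := by
          refine Finset.sum_le_sum fun s hs => ?_
          refine le_trans (mul_le_mul_of_nonneg_right (hsing s hs)
            (integral_nonneg fun x => by positivity)) ?_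
          rw [mul_assoc]
          exact mul_le_mul_of_nonneg_left
            (hSMA φ Φ hW L p q a E hPQ hAB T κ mu hκ hMs hmu s hs) heps
      _ = eps * (C4 * mu ^ (3 / 4 : ℝ)) * ∑ s ∈ T, ∫ x in {x | s.k ≤ κ x + 1}, wt 10 (s.u x) := by
          rw [Finset.mul_sum]
          exact Finset.sum_congr rfl fun s _ => by ring
      _ ≤ eps * (C4 * mu ^ (3 / 4 : ℝ)) * (C5 * 2 ^ K) :=
          mul_le_mul_of_nonneg_left (hSMB T K Λ ξ κ hTr hκ) (by positivity)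
      _ = _ := by ring
  obtain ⟨b1, b2, b3, b4, b5, b6, b7⟩ := h1 L p q a 1 E hPQ hAB
  have hVT := (h2 L p q hPQ T K Λ ξ).2 hT
  obtain ⟨m, hm⟩ : ∃ m : ℤ, ∀ s ∈ T, m ≤ s.k := by
    obtain ⟨s, hs, hs'⟩ := Finset.exists_min_image T (fun s => s.k) hne
    exact ⟨s.k, hs'⟩
  obtain ⟨M, hM⟩ : ∃ M : ℤ, ∀ s ∈ T, s.k + 1 ≤ M := by
    obtain ⟨s, hs, hs'⟩ := Finset.exists_max_image T (fun s => s.k) hne
    exact ⟨s.k + 1, fun t ht => by have := hs' t ht; omega⟩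
  set w : Tile → ℂ := fun s => ε s * ((c s : ℝ) : ℂ) with hwd
  set W : Set ℝ := Icc ((2 : ℝ) ^ K * (Λ - 1)) ((2 : ℝ) ^ K * (Λ + 2)) with hWd
  have hvW : volume W = ENNReal.ofReal (3 * (2 : ℝ) ^ K) := by
    rw [hWd, Real.volume_Icc]
    congr 1
    ring
  set H : ℝ → ℝ≥0∞ := fun x =>
    V4 (fun b => ps φ T w ξ b x) m M + ENNReal.ofReal (16 * C8 * eps) with hH
  have hmV : Measurable fun x => V4 (fun b => ps φ T w ξ b x) m M :=
    measurable_V4 (z := fun x b => ps φ T w ξ b x) (fun b => measurable_ps hW T w ξ b) m M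
  have hlarge := h4 κ hκ.meas hκ.const W (ENNReal.ofReal (C3 * mu))
    (fun y => ENNReal.ofReal (vm L p a (UU T (κ y)) y))
    (fun y => ‖∑ s ∈ T, if κ y + 2 ≤ s.k then
      ε s * ((c s : ℝ) : ℂ) * fx φ s y * vc L p q a s y else 0‖ₑ) H measurableSet_Icc
    ENNReal.ofReal_ne_top (measurable_w hPQ.mp hAB.ma hκ.meas T) ?_
    (hmV.add measurable_const) ?_ ?_ ?_
  · have hV := hV4 φ Φ hW T K Λ ξ hT w m M W hm measurableSet_Icc
      (by rw [hvW]; exact ENNReal.ofReal_ne_top)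
    have hsq : (∑ s ∈ T, ‖w s‖ₑ ^ 2) ≤ ENNReal.ofReal (eps ^ 2 * 2 ^ K) := by
      have e1' : ∑ s ∈ T, ‖w s‖ₑ ^ 2 = ENNReal.ofReal (∑ s ∈ T, c s ^ 2) := by
        rw [ENNReal.ofReal_sum_of_nonneg (fun s _ => sq_nonneg _)]
        refine Finset.sum_congr rfl fun s _ => ?_
        rw [← ofReal_norm, hwd, hw s, ENNReal.ofReal_pow (hc s)]
      rw [e1']
      exact ENNReal.ofReal_le_ofReal (hEn T K Λ ξ subset_rfl hT)
    have hHW : ∫⁻ x in W, H x ≤ ENNReal.ofReal ((C7 * √3 + 48 * C8) * (eps * 2 ^ K)) := by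
      rw [hH]
      simp only
      rw [lintegral_add_right _ measurable_const, setLIntegral_const, hvW]
      have e2 : (C7 : ℝ≥0∞) * volume W ^ (1 / 2 : ℝ) * (∑ s ∈ T, ‖w s‖ₑ ^ 2) ^ (1 / 2 : ℝ) ≤
          ENNReal.ofReal (C7 * √3 * (eps * 2 ^ K)) := by
        have e3 : (∑ s ∈ T, ‖w s‖ₑ ^ 2) ^ (1 / 2 : ℝ) ≤ ENNReal.ofReal (eps * √(2 ^ K)) := by
          refine (ENNReal.rpow_le_rpow hsq (by norm_num)).trans (le_of_eq ?_)
          rw [ENNReal.ofReal_rpow_of_nonneg (by positivity) (by norm_num), ← Real.sqrt_eq_rpow,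
            Real.sqrt_mul (by positivity), Real.sqrt_sq heps]
        have e4 : volume W ^ (1 / 2 : ℝ) = ENNReal.ofReal (√3 * √(2 ^ K)) := by
          rw [hvW, ENNReal.ofReal_rpow_of_nonneg (by positivity) (by norm_num),
            ← Real.sqrt_eq_rpow, Real.sqrt_mul (by norm_num)]
        rw [e4]
        refine (mul_le_mul' le_rfl e3).trans ?_
        rw [← ENNReal.ofReal_coe_nnreal, ← ENNReal.ofReal_mul (by positivity),
          ← ENNReal.ofReal_mul (by positivity)]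
        refine ENNReal.ofReal_le_ofReal (le_of_eq ?_)
        have e5 : √((2 : ℝ) ^ K) * √((2 : ℝ) ^ K) = 2 ^ K := Real.mul_self_sqrt hK.le
        calc (C7 : ℝ) * (√3 * √(2 ^ K)) * (eps * √(2 ^ K)) =
            C7 * √3 * (eps * (√(2 ^ K) * √(2 ^ K))) := by ring
          _ = _ := by rw [e5]
      rw [← ENNReal.ofReal_mul (by positivity)]
      refine (add_le_add (hV.trans e2) le_rfl).trans ?_
      rw [← ENNReal.ofReal_add (by positivity) (by positivity)]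
      refine ENNReal.ofReal_le_ofReal (le_of_eq ?_)
      ring
    have hfin : ENNReal.ofReal (∑ s ∈ T, c s * ‖vav φ L p q a s‖) ≤
        ENNReal.ofReal ((C4 * C5 + C3 ^ (3 / 4 : ℝ) * (C7 * √3 + 48 * C8)) * eps *
          mu ^ (3 / 4 : ℝ) * 2 ^ K) := by
      have e6 : ENNReal.ofReal (C3 * mu) ^ (3 / 4 : ℝ) =
          ENNReal.ofReal (C3 ^ (3 / 4 : ℝ) * mu ^ (3 / 4 : ℝ)) := by
        rw [ENNReal.ofReal_rpow_of_nonneg (by positivity) (by norm_num),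
          Real.mul_rpow hC3.le hmu]
      have e7 := hlarge.trans (mul_le_mul' (le_of_eq e6) hHW)
      rw [← ENNReal.ofReal_mul (by positivity)] at e7
      refine hle.trans ((add_le_add (ENNReal.ofReal_le_ofReal hsmall) e7).trans ?_)
      rw [← ENNReal.ofReal_add (by positivity) (by positivity)]
      refine ENNReal.ofReal_le_ofReal (le_of_eq ?_)
      ring
    exact (ENNReal.ofReal_le_ofReal_iff (by positivity)).1 hfin
  · refine Measurable.enorm (Finset.measurable_fun_sum _ fun s _ => ?_)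
    refine Measurable.ite ?_ ?_ measurable_const
    · exact measurableSet_le (hκ.meas.add_const 2) measurable_const
    · exact (measurable_const.mul (PK.continuous_fx hW s).measurable).mul (b5 s)
  · intro x
    refine le_trans (le_of_eq ?_) (hP2 L p q a E hPQ hAB T K Λ ξ mu κ hTr hκ hMs x)
    refine setLIntegral_congr_fun (measurableSet_dy _ _) fun y hy => ?_
    rw [hκ.const x y hy]
    rfl
  · intro x y hy
    have hk := hκ.const x y hy
    rw [hk]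
    exact large_pt (q := q) (fun s hs => (hT s hs).2) b1 hVT hC8.le heps
      (fun s hs x y hxy => hOSC φ Φ hW s ξ (hT s hs).2 x y hxy)
      (fun s hs => by rw [hw s]; exact hsing s hs) hm hM (PLU_.Jx_dist hy)
      (fun s hs hks f hf => ⟨s, hs, hks, up_sub s hf⟩)
  · intro x y hy hne0
    have hk := hκ.const x y hy
    by_contra hx
    apply hne0
    have h8 : UU T (κ y) = ∅ := by
      rw [Set.eq_empty_iff_forall_notMem]
      rintro f ⟨s, hs, hks, -⟩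
      rw [hk] at hks
      have h9 : s.k ≤ K := le_of_dy_sub (hT s hs).1
      exact hx (p_NEAR T K Λ ξ κ hTr hκ x (by omega))
    rw [h8]
    unfold vm
    simp

end Pool.Agent.VRC
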