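import Pool.Agent.VRC.Targets7
import Pool.Agent.CRR.P_RAD

set_option autoImplicit false

/-! VRC-RAV: the main theorem with the 4-variation in the radius. -/

namespace Pool.Agent.VRC

open MeasureTheory FourierTransform Set Filter Topology
open scoped ENNReal NNReal ComplexConjugate
open Pool.Agent.MBS (E ex S)
open Pool.Agent.CRN (sg SH S1 Nice T_POLN T_DSN)
open Pool.Agent.CRR (EB pn co NSol kap nu)
open Pool.Agent.CRR.RAD_ (f_cont S_eq lint_log lint_G inj der enorm_real pow_eq)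

namespace RAV_

variable {n : ℕ}

theorem S_neg (f : E n → ℂ) {R : ℝ} (hR : R < 0) (x : E n) : S f R x = 0 := by
  rw [S, Metric.closedBall_eq_empty.2 hR]
  exact setIntegral_empty

theorem S_max (hn : 2 ≤ n) (f : E n → ℂ) (R : ℝ) (x : E n) : S f R x = S f (max R 0) x := by
  rcases lt_or_ge R 0 with h | h
  · rw [S_neg f h, max_eq_right h.le, Pool.Agent.CRN.RMN_.S_zero (by omega)]
  · rw [max_eq_left h]

theorem S_jc (h5 : T_DSN) (hn : 2 ≤ n) {f : E n → ℂ} (hf : Nice f) :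
    Continuous (fun p : ℝ × E n => S f p.1 p.2) := by
  have h : (fun p : ℝ × E n => S f p.1 p.2) =
      fun p => ∫ r in (0 : ℝ)..(max p.1 0), S1 f r p.2 := by
    funext p
    rw [S_max hn, S_eq h5 hn hf _ (le_max_right _ _)]
  rw [h]
  refine intervalIntegral.continuous_parametric_intervalIntegral_of_continuous
    (f := fun (p : ℝ × E n) (r : ℝ) => S1 f r p.2) (s := fun p : ℝ × E n => max p.1 0) ?_ ?_
  · exact (h5 n f hn hf).1.comp (f := fun q : (ℝ × E n) × ℝ => (q.2, q.1.2)) (by fun_prop)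
  · fun_prop

/-- coefficient of the ball sum on the sphere of radius `r` -/
noncomputable def Q (Y : E n → ℂ) (f : E n → ℂ) (R r : ℝ) : ℂ :=
  ∫ θ, S f R (r • (θ : E n)) * conj (Y (θ : E n)) ∂(sg n)

theorem Q_cont [IsFiniteMeasure (sg n)] (h5 : T_DSN) (hn : 2 ≤ n) {f : E n → ℂ} (hf : Nice f)
    {Y : E n → ℂ} (hY : Continuous Y) : Continuous (fun p : ℝ × ℝ => Q Y f p.1 p.2) := by
  have h : Continuous (Function.uncurry fun (p : ℝ × ℝ) (θ : Metric.sphere (0 : E n) 1) =>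
      S f p.1 (p.2 • (θ : E n)) * conj (Y (θ : E n))) := by
    refine Continuous.mul ((S_jc h5 hn hf).comp
      (f := fun q : (ℝ × ℝ) × Metric.sphere (0 : E n) 1 => (q.1.1, q.1.2 • (q.2 : E n)))
      (by fun_prop)) ?_
    exact Complex.continuous_conj.comp (hY.comp (by fun_prop))
  have h2 := continuous_parametric_integral_of_continuous (μ := sg n) h isCompact_univ
  rw [Measure.restrict_univ] at h2
  exact h2

theorem Q_int [IsFiniteMeasure (sg n)] (h5 : T_DSN) (hn : 2 ≤ n) {f : E n → ℂ} (hf : Nice f)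
    {Y : E n → ℂ} (hY : Continuous Y) (R r : ℝ) :
    Integrable (fun θ : Metric.sphere (0 : E n) 1 => S f R (r • (θ : E n)) *
      conj (Y (θ : E n))) (sg n) := by
  have h : Continuous (fun θ : Metric.sphere (0 : E n) 1 => S f R (r • (θ : E n)) *
      conj (Y (θ : E n))) := by
    refine Continuous.mul ((S_jc h5 hn hf).comp
      (f := fun θ : Metric.sphere (0 : E n) 1 => (R, r • (θ : E n))) (by fun_prop)) ?_
    exact Complex.continuous_conj.comp (hY.comp (by fun_prop))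
  have h2 := h.continuousOn.integrableOn_compact (μ := sg n) isCompact_univ
  rwa [IntegrableOn, Measure.restrict_univ] at h2

theorem Q_sub [IsFiniteMeasure (sg n)] (h5 : T_DSN) (hn : 2 ≤ n) {f : E n → ℂ} (hf : Nice f)
    {Y : E n → ℂ} (hY : Continuous Y) (R1 R2 r : ℝ) :
    ∫ θ, (S f R2 (r • (θ : E n)) - S f R1 (r • (θ : E n))) * conj (Y (θ : E n)) ∂(sg n) =
      Q Y f R2 r - Q Y f R1 r := by
  unfold Q
  rw [← integral_sub (Q_int h5 hn hf hY R2 r) (Q_int h5 hn hf hY R1 r)]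
  refine integral_congr_ae (Eventually.of_forall fun θ => ?_)
  simp only []
  ring

theorem Q_eq [IsFiniteMeasure (sg n)] (h5 : T_DSN) (hn : 2 ≤ n) {f : E n → ℂ} (hf : Nice f)
    {Y : E n → ℂ} (hY : Continuous Y) {R1 R2 : ℝ} (h0 : 0 ≤ R1) (h12 : R1 ≤ R2) (r : ℝ) :
    Q Y f R2 r - Q Y f R1 r = ∫ ρ in Ioc R1 R2, co Y (𝓕 f) ρ r := by
  have e1 : ∀ θ : Metric.sphere (0 : E n) 1,
      (S f R2 (r • (θ : E n)) - S f R1 (r • (θ : E n))) * conj (Y (θ : E n)) =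
      ∫ ρ in Ioc R1 R2, S1 f ρ (r • (θ : E n)) * conj (Y (θ : E n)) := by
    intro θ
    rw [(h5 n f hn hf).2 _ R1 R2 h0 h12, intervalIntegral.integral_of_le h12,
      integral_mul_const, add_sub_cancel_left]
  have h1 : Continuous (fun q : Metric.sphere (0 : E n) 1 × ℝ =>
      S1 f q.2 (r • (q.1 : E n)) * conj (Y (q.1 : E n))) := by
    refine Continuous.mul ?_ (Complex.continuous_conj.comp (hY.comp (by fun_prop)))
    exact (h5 n f hn hf).1.comp (f := fun q : Metric.sphere (0 : E n) 1 × ℝ =>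
      (q.2, r • (q.1 : E n))) (by fun_prop)
  have h2 : IntegrableOn (fun q : Metric.sphere (0 : E n) 1 × ℝ =>
      S1 f q.2 (r • (q.1 : E n)) * conj (Y (q.1 : E n))) (univ ×ˢ Icc R1 R2)
      ((sg n).prod volume) :=
    h1.continuousOn.integrableOn_compact (isCompact_univ.prod isCompact_Icc)
  have h3 : Integrable (fun q : Metric.sphere (0 : E n) 1 × ℝ =>
      S1 f q.2 (r • (q.1 : E n)) * conj (Y (q.1 : E n)))
      ((sg n).prod (volume.restrict (Ioc R1 R2))) := by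
    have h4 := h2.mono_set (prod_mono (subset_refl univ) (Ioc_subset_Icc_self (a := R1)
      (b := R2)))
    rw [IntegrableOn, ← Measure.prod_restrict, Measure.restrict_univ] at h4
    exact h4
  rw [← Q_sub h5 hn hf hY]
  calc ∫ θ, (S f R2 (r • (θ : E n)) - S f R1 (r • (θ : E n))) * conj (Y (θ : E n)) ∂(sg n)
      = ∫ θ, (∫ ρ in Ioc R1 R2, S1 f ρ (r • (θ : E n)) * conj (Y (θ : E n))) ∂(sg n) :=
        integral_congr_ae (Eventually.of_forall e1)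
    _ = ∫ ρ in Ioc R1 R2, ∫ θ, S1 f ρ (r • (θ : E n)) * conj (Y (θ : E n)) ∂(sg n) :=
        integral_integral_swap h3
    _ = ∫ ρ in Ioc R1 R2, co Y (𝓕 f) ρ r := rfl

/-! ### changes of variables -/

theorem image_Ioc (U V : ℝ) : (fun v : ℝ => Real.exp v / (2 * Real.pi)) '' Ioc U V =
    Ioc (Real.exp U / (2 * Real.pi)) (Real.exp V / (2 * Real.pi)) := by
  ext ρ
  constructor
  · rintro ⟨v, hv, rfl⟩
    exact ⟨div_lt_div_of_pos_right (Real.exp_lt_exp.2 hv.1) (by positivity),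
      div_le_div_of_nonneg_right (Real.exp_le_exp.2 hv.2) (by positivity)⟩
  · rintro ⟨h0, h1⟩
    have hρ : 0 < ρ := lt_trans (by positivity) h0
    refine ⟨Real.log (2 * Real.pi * ρ), ⟨?_, ?_⟩, ?_⟩
    · rw [Real.lt_log_iff_exp_lt (by positivity)]
      rw [div_lt_iff₀ (by positivity)] at h0
      linarith
    · rw [Real.log_le_iff_le_exp (by positivity)]
      rw [le_div_iff₀ (by positivity)] at h1
      linarith
    · simp only []
      rw [Real.exp_log (by positivity)]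
      field_simp

/-- the integral in `ρ` in the logarithmic variables -/
theorem int_log2 (G : ℝ → ℂ) (J : ℝ → ℝ) {r R1 R2 : ℝ} (hr : 0 < r) (h1 : 0 < R1)
    (h2 : 0 < R2) :
    ∫ ρ in Ioc R1 R2, G ρ * (J (Real.log (2 * Real.pi * r * ρ)) : ℂ) =
      (((2 * Real.pi * r)⁻¹ : ℝ) : ℂ) *
        ∫ v in Ioc (Real.log (2 * Real.pi * R1)) (Real.log (2 * Real.pi * R2)),
        kap J (Real.log r + v) * G (Real.exp v / (2 * Real.pi)) := by
  have hV : ∀ R : ℝ, 0 < R → Real.exp (Real.log (2 * Real.pi * R)) / (2 * Real.pi) = R := by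
    intro R hR
    rw [Real.exp_log (by positivity)]
    field_simp
  have h := integral_image_eq_integral_abs_deriv_smul
    (s := Ioc (Real.log (2 * Real.pi * R1)) (Real.log (2 * Real.pi * R2)))
    measurableSet_Ioc (fun x _ => (der x).hasDerivWithinAt) inj.injOn
    (fun ρ => G ρ * (J (Real.log (2 * Real.pi * r * ρ)) : ℂ))
  rw [image_Ioc, hV R1 h1, hV R2 h2] at h
  rw [h, ← integral_const_mul]
  refine integral_congr_ae (Eventually.of_forall fun v => ?_)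
  simp only []
  have hp : 0 < Real.exp v / (2 * Real.pi) := by positivity
  have e1 : Real.log (2 * Real.pi * r * (Real.exp v / (2 * Real.pi))) = Real.log r + v := by
    rw [show 2 * Real.pi * r * (Real.exp v / (2 * Real.pi)) = r * Real.exp v by field_simp,
      Real.log_mul hr.ne' (Real.exp_pos v).ne', Real.log_exp]
  rw [e1, abs_of_pos hp, Complex.real_smul]
  unfold kap
  rw [Real.exp_add, Real.exp_log hr]
  have hpi : (Real.pi : ℂ) ≠ 0 := by exact_mod_cast Real.pi_ne_zero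
  have hrc : (r : ℂ) ≠ 0 := by exact_mod_cast hr.ne'
  push_cast
  field_simp

/-- the 4-variation of a Hankel transform -/
noncomputable def HV (J : ℝ → ℝ) (g : ℝ → ℂ) (u : ℝ) : ℝ≥0∞ :=
  V4o (fun V1 V2 => ∫ v in Ioc V1 V2, kap J (u + v) * g v)

theorem pow4 (x : ℝ≥0∞) : (x ^ (1 / 4 : ℝ)) ^ 2 = x ^ (1 / 2 : ℝ) := by
  rw [← ENNReal.rpow_natCast, ← ENNReal.rpow_mul]
  norm_num

theorem pow2 (x : ℝ≥0∞) : (x ^ 2) ^ (1 / 2 : ℝ) = x := by
  rw [← ENNReal.rpow_natCast, ← ENNReal.rpow_mul]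
  norm_num

theorem pow24 (x : ℝ≥0∞) : ((x ^ 2) ^ (1 / 4 : ℝ)) ^ 2 = x := by
  rw [pow4, pow2]

theorem sum_scale (s : Finset ℕ) (c : ℝ≥0∞) (x : ℕ → ℝ≥0∞) :
    c * (∑ j ∈ s, x j ^ 2) ^ (1 / 2 : ℝ) = (∑ j ∈ s, (c * x j) ^ 2) ^ (1 / 2 : ℝ) := by
  simp only [mul_pow]
  rw [← Finset.mul_sum, ENNReal.mul_rpow_of_nonneg _ _ (by norm_num), pow2]

theorem mink2 {M : ℕ} (s : Finset ℕ) (x : ℕ → Fin M → ℝ≥0∞) (t : Finset (Fin M)) :
    (∑ j ∈ s, (∑ m ∈ t, x j m) ^ 2) ^ (1 / 2 : ℝ) ≤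
      ∑ m ∈ t, (∑ j ∈ s, x j m ^ 2) ^ (1 / 2 : ℝ) := by
  classical
  induction t using Finset.induction_on with
  | empty => simp
  | insert a t ha ih =>
    rw [Finset.sum_insert ha]
    simp only [Finset.sum_insert ha]
    have h := ENNReal.Lp_add_le s (fun j => x j a) (fun j => ∑ m ∈ t, x j m)
      (p := 2) (by norm_num)
    simp only [ENNReal.rpow_ofNat] at h
    exact h.trans (add_le_add le_rfl ih)

/-- the key estimate for positive radii -/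
theorem key_pos [IsFiniteMeasure (sg n)] (h5 : T_DSN) (hn : 2 ≤ n) {f : E n → ℂ}
    (hf : Nice f) {Y : E n → ℂ} (hY : Continuous Y) {J : ℝ → ℝ} {G : ℝ → ℂ} {r : ℝ}
    (hr : 0 < r)
    (hG : ∀ ρ, 0 < ρ → ((r ^ (((n : ℝ) - 2) / 2) : ℝ) : ℂ) * co Y (𝓕 f) ρ r =
      G ρ * J (Real.log (2 * Real.pi * r * ρ)))
    (L : ℕ) (N : ℕ → ℝ) (hN : Monotone N) (hp : ∀ j, 0 < N j) :
    ENNReal.ofReal (r ^ (n - 1)) * (∑ j ∈ Finset.range L,
      (‖Q Y f (N (j + 1)) r - Q Y f (N j) r‖ₑ ^ 2) ^ 2) ^ (1 / 2 : ℝ) ≤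
      ENNReal.ofReal r⁻¹ * HV J (fun v => G (Real.exp v / (2 * Real.pi))) (Real.log r) ^ 2 := by
  have hw : 0 ≤ r ^ (((n : ℝ) - 2) / 2) := Real.rpow_nonneg hr.le _
  obtain ⟨V, hV⟩ : ∃ V : ℕ → ℝ, V = fun j => Real.log (2 * Real.pi * N j) := ⟨_, rfl⟩
  obtain ⟨F, hF⟩ : ∃ F : ℝ → ℝ → ℂ, F = fun V1 V2 => ∫ v in Ioc V1 V2,
    kap J (Real.log r + v) * G (Real.exp v / (2 * Real.pi)) := ⟨_, rfl⟩
  have hVm : Monotone V := by
    intro i j hij
    rw [hV]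
    have h1 := hp i
    have h2 := hN hij
    exact Real.log_le_log (by positivity) (by gcongr)
  have e1 : ∀ j, ((r ^ (((n : ℝ) - 2) / 2) : ℝ) : ℂ) *
      (Q Y f (N (j + 1)) r - Q Y f (N j) r) =
      (((2 * Real.pi * r)⁻¹ : ℝ) : ℂ) * F (V j) (V (j + 1)) := by
    intro j
    rw [Q_eq h5 hn hf hY (hp j).le (hN (Nat.le_succ j)), ← integral_const_mul, hF, hV]
    simp only []
    rw [← int_log2 G J hr (hp j) (hp (j + 1))]
    exact setIntegral_congr_fun measurableSet_Ioc fun ρ hρ => hG ρ ((hp j).trans hρ.1)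
  have h1 : r * ((2 * Real.pi * r)⁻¹) ^ 2 ≤ r⁻¹ := by
    have hpi : 1 ≤ 2 * Real.pi := by linarith [Real.pi_gt_three]
    have h2 : r * ((2 * Real.pi * r)⁻¹) ^ 2 = ((2 * Real.pi) ^ 2)⁻¹ * r⁻¹ := by
      field_simp
    rw [h2]
    have h3 : ((2 * Real.pi) ^ 2)⁻¹ ≤ 1 := inv_le_one_of_one_le₀ (one_le_pow₀ hpi)
    calc ((2 * Real.pi) ^ 2)⁻¹ * r⁻¹ ≤ 1 * r⁻¹ := by gcongr
      _ = r⁻¹ := one_mul _
  have h0 : (0 : ℝ) ≤ (2 * Real.pi * r)⁻¹ := by positivity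
  have h2 : ∀ j, ENNReal.ofReal (r ^ (n - 1)) *
      ‖Q Y f (N (j + 1)) r - Q Y f (N j) r‖ₑ ^ 2 ≤
      ENNReal.ofReal r⁻¹ * ‖F (V j) (V (j + 1))‖ₑ ^ 2 := by
    intro j
    calc ENNReal.ofReal (r ^ (n - 1)) * ‖Q Y f (N (j + 1)) r - Q Y f (N j) r‖ₑ ^ 2
        = ENNReal.ofReal r * ‖((r ^ (((n : ℝ) - 2) / 2) : ℝ) : ℂ) *
            (Q Y f (N (j + 1)) r - Q Y f (N j) r)‖ₑ ^ 2 := by
          rw [pow_eq hn hr, ENNReal.ofReal_mul hr.le, ENNReal.ofReal_pow hw, enorm_mul,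
            enorm_real hw]
          ring
      _ = ENNReal.ofReal (r * ((2 * Real.pi * r)⁻¹) ^ 2) * ‖F (V j) (V (j + 1))‖ₑ ^ 2 := by
          rw [e1, ENNReal.ofReal_mul hr.le, ENNReal.ofReal_pow h0, enorm_mul, enorm_real h0]
          ring
      _ ≤ ENNReal.ofReal r⁻¹ * ‖F (V j) (V (j + 1))‖ₑ ^ 2 := by gcongr
  have h3 : (∑ j ∈ Finset.range L, (‖F (V j) (V (j + 1))‖ₑ ^ 2) ^ 2) ^ (1 / 2 : ℝ) ≤
      HV J (fun v => G (Real.exp v / (2 * Real.pi))) (Real.log r) ^ 2 := by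
    have h4 : (∑ j ∈ Finset.range L, ‖F (V j) (V (j + 1))‖ₑ ^ 4) ^ (1 / 4 : ℝ) ≤
        HV J (fun v => G (Real.exp v / (2 * Real.pi))) (Real.log r) := by
      unfold HV V4o
      rw [← hF]
      exact le_iSup_of_le L (le_iSup₂_of_le V hVm le_rfl)
    simp only [← pow_mul]
    rw [← pow4]
    exact pow_le_pow_left' h4 2
  rw [sum_scale]
  calc (∑ j ∈ Finset.range L, (ENNReal.ofReal (r ^ (n - 1)) *
        ‖Q Y f (N (j + 1)) r - Q Y f (N j) r‖ₑ ^ 2) ^ 2) ^ (1 / 2 : ℝ)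
      ≤ (∑ j ∈ Finset.range L, (ENNReal.ofReal r⁻¹ *
        ‖F (V j) (V (j + 1))‖ₑ ^ 2) ^ 2) ^ (1 / 2 : ℝ) := by
        refine ENNReal.rpow_le_rpow ?_ (by norm_num)
        exact Finset.sum_le_sum fun j _ => pow_le_pow_left' (h2 j) 2
    _ = ENNReal.ofReal r⁻¹ *
        (∑ j ∈ Finset.range L, (‖F (V j) (V (j + 1))‖ₑ ^ 2) ^ 2) ^ (1 / 2 : ℝ) :=
        (sum_scale _ _ _).symm
    _ ≤ _ := by gcongr

/-- the key estimate -/
theorem key [IsFiniteMeasure (sg n)] (h5 : T_DSN) (hn : 2 ≤ n) {f : E n → ℂ}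
    (hf : Nice f) {Y : E n → ℂ} (hY : Continuous Y) {J : ℝ → ℝ} {G : ℝ → ℂ} {r : ℝ}
    (hr : 0 < r)
    (hG : ∀ ρ, 0 < ρ → ((r ^ (((n : ℝ) - 2) / 2) : ℝ) : ℂ) * co Y (𝓕 f) ρ r =
      G ρ * J (Real.log (2 * Real.pi * r * ρ)))
    (L : ℕ) (N : ℕ → ℝ) (hN : Monotone N) :
    ENNReal.ofReal (r ^ (n - 1)) * (∑ j ∈ Finset.range L,
      (‖Q Y f (N (j + 1)) r - Q Y f (N j) r‖ₑ ^ 2) ^ 2) ^ (1 / 2 : ℝ) ≤
      ENNReal.ofReal r⁻¹ * HV J (fun v => G (Real.exp v / (2 * Real.pi))) (Real.log r) ^ 2 := by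
  have hQm : ∀ R, Q Y f R r = Q Y f (max R 0) r := by
    intro R
    unfold Q
    refine integral_congr_ae (Eventually.of_forall fun θ => ?_)
    simp only []
    rw [S_max hn]
  have hc : Continuous (fun R : ℝ => Q Y f R r) :=
    (Q_cont h5 hn hf hY).comp (f := fun R : ℝ => (R, r)) (by fun_prop)
  have hT : Tendsto (fun k : ℕ => ENNReal.ofReal (r ^ (n - 1)) * (∑ j ∈ Finset.range L,
      (‖Q Y f (max (N (j + 1)) (1 / ((k : ℝ) + 1))) r -
        Q Y f (max (N j) (1 / ((k : ℝ) + 1))) r‖ₑ ^ 2) ^ 2) ^ (1 / 2 : ℝ)) atTop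
      (𝓝 (ENNReal.ofReal (r ^ (n - 1)) * (∑ j ∈ Finset.range L,
      (‖Q Y f (max (N (j + 1)) 0) r - Q Y f (max (N j) 0) r‖ₑ ^ 2) ^ 2) ^ (1 / 2 : ℝ))) := by
    have h1 : Continuous (fun ε : ℝ => ENNReal.ofReal (r ^ (n - 1)) * (∑ j ∈ Finset.range L,
        (‖Q Y f (max (N (j + 1)) ε) r - Q Y f (max (N j) ε) r‖ₑ ^ 2) ^ 2) ^ (1 / 2 : ℝ)) := by
      refine (ENNReal.continuous_const_mul ENNReal.ofReal_ne_top).comp ?_
      refine ENNReal.continuous_rpow_const.comp ?_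
      refine continuous_finsetSum _ fun j _ => ?_
      refine (ENNReal.continuous_pow 2).comp ((ENNReal.continuous_pow 2).comp ?_)
      exact Continuous.enorm ((hc.comp (by fun_prop)).sub (hc.comp (by fun_prop)))
    exact (h1.tendsto 0).comp tendsto_one_div_add_atTop_nhds_zero_nat
  have e : (∑ j ∈ Finset.range L,
      (‖Q Y f (N (j + 1)) r - Q Y f (N j) r‖ₑ ^ 2) ^ 2) = (∑ j ∈ Finset.range L,
      (‖Q Y f (max (N (j + 1)) 0) r - Q Y f (max (N j) 0) r‖ₑ ^ 2) ^ 2) := by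
    refine Finset.sum_congr rfl fun j _ => ?_
    rw [hQm (N (j + 1)), hQm (N j)]
  rw [e]
  refine le_of_tendsto' hT fun k => ?_
  have hk : (0 : ℝ) < 1 / ((k : ℝ) + 1) := by positivity
  exact key_pos h5 hn hf hY hr hG L (fun j => max (N j) (1 / ((k : ℝ) + 1)))
    (fun i j hij => max_le_max (hN hij) le_rfl) fun j => lt_max_of_lt_right hk

theorem Hv_le {CH : ℝ≥0} (hH : ∀ (ν : ℝ) (J J' : ℝ → ℝ) (g : ℝ → ℂ), 0 ≤ ν →
    NSol ν J J' → Measurable g →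
    ∫⁻ u, V4o (fun V1 V2 => ∫ v in Ioc V1 V2, kap J (u + v) * g v) ^ 2 ≤
      CH * ∫⁻ v, ‖g v‖ₑ ^ 2)
    {l : ℝ} {J J' : ℝ → ℝ} {G : ℝ → ℂ} (hGm : Measurable G)
    (hNS : (∀ ρ, G ρ = 0) ∨ NSol (nu n l) J J') :
    ∫⁻ r in Ioi (0 : ℝ), ENNReal.ofReal r⁻¹ *
      HV J (fun v => G (Real.exp v / (2 * Real.pi))) (Real.log r) ^ 2 ≤
      CH * ∫⁻ ρ in Ioi (0 : ℝ), ‖G ρ‖ₑ ^ 2 * ENNReal.ofReal ρ⁻¹ := by
  rw [lint_log (fun u => HV J (fun v => G (Real.exp v / (2 * Real.pi))) u ^ 2), ← lint_G]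
  rcases hNS with h | h
  · have h0 : ∀ u, HV J (fun v => G (Real.exp v / (2 * Real.pi))) u = 0 := by
      intro u
      unfold HV V4o
      simp only [h, mul_zero, integral_zero, enorm_zero]
      simp
    simp only [h0, ne_eq, OfNat.ofNat_ne_zero, not_false_eq_true, zero_pow, lintegral_zero]
    exact zero_le
  · exact hH (nu n l) J J' _ (Real.sqrt_nonneg _) h (hGm.comp (by fun_prop))

end RAV_

open RAV_ in
theorem p_RAV (h1 : T_HAV) (h2 : Pool.Agent.CRR.T_EIG) (h3 : Pool.Agent.CRR.T_GM)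
    (h4 : Pool.Agent.CRN.T_POLN) (h5 : Pool.Agent.CRN.T_DSN) : T_RAV := by
  intro n hn
  obtain ⟨CH, hH⟩ := h1
  obtain ⟨CG, hG⟩ := h3 n hn
  obtain ⟨M, Y, lam, hEB, hY⟩ := h2 n hn
  have hfin : IsFiniteMeasure (sg n) := (h4 n (by omega)).2.2
  refine ⟨CH * CG, fun f hf => ?_⟩
  have hpl : ∫⁻ ξ, ‖𝓕 f ξ‖ₑ ^ 2 = ∫⁻ x, ‖f x‖ₑ ^ 2 :=
    Pool.Agent.CRN.ENN_.plancherel hf.int hf.sq
  obtain ⟨A, hA⟩ : ∃ A : ℕ → ℝ → ℝ≥0∞, A = fun K r => ⨆ (L : ℕ) (N : ℕ → ℝ) (_ : Monotone N),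
    (∑ j ∈ Finset.range L, (pn (Y K) (fun x => S f (N (j + 1)) (r • x) -
      S f (N j) (r • x))) ^ 2) ^ (1 / 2 : ℝ) := ⟨_, rfl⟩
  have hcS : ∀ R1 R2 r : ℝ, Continuous (fun x : E n => S f R2 (r • x) - S f R1 (r • x)) := by
    intro R1 R2 r
    exact ((S_jc h5 hn hf).comp (f := fun x : E n => (R2, r • x)) (by fun_prop)).sub
      ((S_jc h5 hn hf).comp (f := fun x : E n => (R1, r • x)) (by fun_prop))
  have hpn : ∀ (K : ℕ) (R1 R2 r : ℝ), pn (Y K) (fun x => S f R2 (r • x) - S f R1 (r • x)) =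
      ∑ m, ‖Q (Y K m) f R2 r - Q (Y K m) f R1 r‖ₑ ^ 2 := by
    intro K R1 R2 r
    unfold pn
    refine Finset.sum_congr rfl fun m _ => ?_
    rw [Q_sub h5 hn hf ((hEB K).cont m)]
  have hpnm : ∀ R1 R2 r : ℝ, Monotone (fun K => pn (Y K)
      (fun x => S f R2 (r • x) - S f R1 (r • x))) := fun R1 R2 r =>
    monotone_nat_of_le_succ fun K => (hY _ (hcS R1 R2 r)).1 K
  have hA1 : ∀ r, VS f r ^ 2 ≤ ⨆ K, A K r := by
    intro r
    obtain ⟨T, hT⟩ : ∃ T : ℝ≥0∞, T = ⨆ K, A K r := ⟨_, rfl⟩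
    have h6 : VS f r ≤ (T ^ 2) ^ (1 / 4 : ℝ) := by
      unfold VS
      refine iSup_le fun L => iSup₂_le fun N hN => ?_
      refine ENNReal.rpow_le_rpow ?_ (by norm_num)
      have h7 : Tendsto (fun K : ℕ => ∑ j ∈ Finset.range L, (pn (Y K)
          (fun x => S f (N (j + 1)) (r • x) - S f (N j) (r • x))) ^ 2) atTop
          (𝓝 (∑ j ∈ Finset.range L,
          (∫⁻ θ, ‖S f (N (j + 1)) (r • (θ : E n)) - S f (N j) (r • (θ : E n))‖ₑ ^ 2
            ∂(sg n)) ^ 2)) := by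
        refine tendsto_finsetSum _ fun j _ => ?_
        refine ((ENNReal.continuous_pow 2).tendsto _).comp ?_
        have h8 := tendsto_atTop_iSup (hpnm (N j) (N (j + 1)) r)
        rw [(hY _ (hcS (N j) (N (j + 1)) r)).2] at h8
        exact h8
      refine le_of_tendsto' h7 fun K => ?_
      have h9 : (∑ j ∈ Finset.range L, (pn (Y K)
          (fun x => S f (N (j + 1)) (r • x) - S f (N j) (r • x))) ^ 2) ^ (1 / 2 : ℝ) ≤ T := by
        rw [hT]
        refine le_trans ?_ (le_iSup (fun K => A K r) K)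
        rw [hA]
        exact le_iSup_of_le L (le_iSup₂_of_le N hN le_rfl)
      have h10 := pow_le_pow_left' h9 2
      rwa [← ENNReal.rpow_natCast, ← ENNReal.rpow_mul, show ((1 / 2 : ℝ) * ((2 : ℕ) : ℝ)) = 1 by
        norm_num, ENNReal.rpow_one] at h10
    rw [← hT]
    exact (pow_le_pow_left' h6 2).trans (pow24 T).le
  have hAmono : Monotone A := by
    refine monotone_nat_of_le_succ fun K r => ?_
    rw [hA]
    refine iSup_mono fun L => iSup₂_mono fun N hN => ?_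
    refine ENNReal.rpow_le_rpow ?_ (by norm_num)
    exact Finset.sum_le_sum fun j _ => pow_le_pow_left' ((hY _ (hcS _ _ r)).1 K) 2
  have hQc : ∀ (K : ℕ) (m : Fin (M K)) (R1 R2 : ℝ),
      Continuous (fun r : ℝ => ‖Q (Y K m) f R2 r - Q (Y K m) f R1 r‖ₑ ^ 2) := by
    intro K m R1 R2
    refine (ENNReal.continuous_pow 2).comp (Continuous.enorm (Continuous.sub ?_ ?_))
    · exact (Q_cont h5 hn hf ((hEB K).cont m)).comp (f := fun r : ℝ => (R2, r)) (by fun_prop)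
    · exact (Q_cont h5 hn hf ((hEB K).cont m)).comp (f := fun r : ℝ => (R1, r)) (by fun_prop)
  have hAm : ∀ K, Measurable (A K) := by
    intro K
    have hl : LowerSemicontinuous (A K) := by
      rw [hA]
      refine lowerSemicontinuous_iSup fun L => lowerSemicontinuous_iSup fun N =>
        lowerSemicontinuous_iSup fun hN => ?_
      simp only [hpn]
      refine Continuous.lowerSemicontinuous (ENNReal.continuous_rpow_const.comp ?_)
      refine continuous_finsetSum _ fun j _ => (ENNReal.continuous_pow 2).comp ?_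
      exact continuous_finsetSum _ fun m _ => hQc K m _ _
    exact hl.measurable
  have hpm : Measurable (fun r : ℝ => ENNReal.ofReal (r ^ (n - 1))) := by fun_prop
  have bound : ∀ K, ∫⁻ r in Ioi (0 : ℝ), A K r * ENNReal.ofReal (r ^ (n - 1)) ≤
      ((CH * CG : ℝ≥0) : ℝ≥0∞) * ∫⁻ x, ‖f x‖ₑ ^ 2 := by
    intro K
    obtain ⟨J, J', G, hGm, hNS, hco, hsum⟩ :=
      hG (M K) (Y K) (lam K) (𝓕 f) (hEB K) (f_cont hf)
    obtain ⟨B, hB⟩ : ∃ B : Fin (M K) → ℝ → ℝ≥0∞, B = fun m r =>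
      ⨆ (L : ℕ) (N : ℕ → ℝ) (_ : Monotone N), (∑ j ∈ Finset.range L,
        (‖Q (Y K m) f (N (j + 1)) r - Q (Y K m) f (N j) r‖ₑ ^ 2) ^ 2) ^ (1 / 2 : ℝ) :=
      ⟨_, rfl⟩
    have hBm : ∀ m, Measurable (B m) := by
      intro m
      have hl : LowerSemicontinuous (B m) := by
        rw [hB]
        refine lowerSemicontinuous_iSup fun L => lowerSemicontinuous_iSup fun N =>
          lowerSemicontinuous_iSup fun hN => ?_
        refine Continuous.lowerSemicontinuous (ENNReal.continuous_rpow_const.comp ?_)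
        exact continuous_finsetSum _ fun j _ => (ENNReal.continuous_pow 2).comp (hQc K m _ _)
      exact hl.measurable
    have hAB : ∀ r, A K r ≤ ∑ m, B m r := by
      intro r
      rw [hA]
      refine iSup_le fun L => iSup₂_le fun N hN => ?_
      simp only [hpn]
      refine (mink2 (Finset.range L) (fun j m =>
        ‖Q (Y K m) f (N (j + 1)) r - Q (Y K m) f (N j) r‖ₑ ^ 2) Finset.univ).trans ?_
      refine Finset.sum_le_sum fun m _ => ?_
      rw [hB]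
      exact le_iSup_of_le L (le_iSup₂_of_le N hN le_rfl)
    have hB1 : ∀ m, ∀ r ∈ Ioi (0 : ℝ), B m r * ENNReal.ofReal (r ^ (n - 1)) ≤
        ENNReal.ofReal r⁻¹ *
          HV (J m) (fun v => G m (Real.exp v / (2 * Real.pi))) (Real.log r) ^ 2 := by
      intro m r hr
      rw [hB]
      simp only [ENNReal.iSup_mul]
      refine iSup_le fun L => iSup₂_le fun N hN => ?_
      rw [mul_comm]
      exact key h5 hn hf ((hEB K).cont m) hr (fun ρ hρ => hco m ρ r hρ hr) L N hN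
    calc ∫⁻ r in Ioi (0 : ℝ), A K r * ENNReal.ofReal (r ^ (n - 1))
        ≤ ∫⁻ r in Ioi (0 : ℝ), ∑ m, B m r * ENNReal.ofReal (r ^ (n - 1)) := by
          refine lintegral_mono fun r => ?_
          rw [← Finset.sum_mul]
          exact mul_le_mul_left (hAB r) _
      _ = ∑ m, ∫⁻ r in Ioi (0 : ℝ), B m r * ENNReal.ofReal (r ^ (n - 1)) :=
          lintegral_finsetSum _ fun m _ => (hBm m).mul hpm
      _ ≤ ∑ m, CH * ∫⁻ ρ in Ioi (0 : ℝ), ‖G m ρ‖ₑ ^ 2 * ENNReal.ofReal ρ⁻¹ := by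
          refine Finset.sum_le_sum fun m _ => ?_
          refine le_trans ?_ (Hv_le hH (hGm m) (hNS m))
          exact setLIntegral_mono' measurableSet_Ioi (hB1 m)
      _ = CH * ∑ m, ∫⁻ ρ in Ioi (0 : ℝ), ‖G m ρ‖ₑ ^ 2 * ENNReal.ofReal ρ⁻¹ := by
          rw [Finset.mul_sum]
      _ ≤ CH * (CG * ∫⁻ ξ, ‖𝓕 f ξ‖ₑ ^ 2) := by gcongr
      _ = ((CH * CG : ℝ≥0) : ℝ≥0∞) * ∫⁻ x, ‖f x‖ₑ ^ 2 := by
          rw [hpl]
          push_cast
          ring
  calc ∫⁻ r in Ioi (0 : ℝ), VS f r ^ 2 * ENNReal.ofReal (r ^ (n - 1))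
      ≤ ∫⁻ r in Ioi (0 : ℝ), ⨆ K, A K r * ENNReal.ofReal (r ^ (n - 1)) := by
        refine lintegral_mono fun r => ?_
        rw [← ENNReal.iSup_mul]
        exact mul_le_mul_left (hA1 r) _
    _ = ⨆ K, ∫⁻ r in Ioi (0 : ℝ), A K r * ENNReal.ofReal (r ^ (n - 1)) := by
        refine lintegral_iSup (fun K => (hAm K).mul hpm) fun a b hab r => ?_
        exact mul_le_mul_left (hAmono hab r) _
    _ ≤ _ := iSup_le bound

end Pool.Agent.VRC
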