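import Pool.Agent.VRC.Targets
import Pool.Agent.CAR.P_RB
import Pool.Agent.CAR.P_TRF
import Pool.Agent.CAR.P_EXC
import Pool.Agent.CAR.P_ENB
import Pool.Agent.CAR.P_ENF
import Pool.Agent.CAR.P_TH1
import Pool.Agent.CAR.P_OSC
import Pool.Agent.CAR.P_CHI2
import Pool.Agent.CAR.P_PRJ
import Pool.Agent.CAR.P_ERR
import Pool.Agent.CAR.P_DSQ
import Pool.Agent.CAR.P_FAV

set_option autoImplicit false

/-!
# VRC: restricted estimate, `vol F ≤ vol E` (helper67)
-/

namespace Pool.Agent.VRC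

open MeasureTheory Set ComplexConjugate
open scoped ENNReal NNReal
open Pool.Agent.CAR

namespace VRB_

open Pool.Agent.CAR.RB_ (bf_integrable bf_sq bf_integrable_sq bf_n2 cf_zero X_eq X_mono X_half
  X_ge)

theorem a_le_one {L : ℕ} {a : ℕ → ℝ → ℂ} {E : Set ℝ} (h : AB L a 1 E) {j : ℕ} (hj : j < L)
    (x : ℝ) : ‖a j x‖ ≤ 1 := by
  have h1 := h.bd x
  rw [Real.one_rpow] at h1
  have h2 : ‖a j x‖ ^ (4 / 3 : ℝ) ≤ 1 :=
    (Finset.single_le_sum (f := fun j => ‖a j x‖ ^ (4 / 3 : ℝ))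
      (fun i _ => Real.rpow_nonneg (norm_nonneg _) _) (Finset.mem_range.2 hj)).trans h1
  by_contra h3
  push Not at h3
  exact absurd h2 (not_le.2 (Real.one_lt_rpow h3 (by norm_num)))

theorem ab_ind {L : ℕ} {a : ℕ → ℝ → ℂ} {E G : Set ℝ} (h : AB L a 1 E) (hG : MeasurableSet G) :
    AB L (fun j => G.indicator (a j)) 1 (E ∩ G) := by
  refine ⟨fun j => (h.ma j).indicator hG, h.mE.inter hG, ?_, h.h0, fun x => ?_,
    fun j hj x hx => ?_⟩
  · exact ne_top_of_le_ne_top h.fE (measure_mono inter_subset_left)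
  · by_cases hx : x ∈ G
    · simp only [indicator_of_mem hx]
      exact h.bd x
    · simp only [indicator_of_notMem hx, norm_zero]
      rw [Real.one_rpow, Real.zero_rpow (by norm_num), Finset.sum_const_zero]
      exact zero_le_one
  · show G.indicator (a j) x = 0
    by_cases hxG : x ∈ G
    · rw [indicator_of_mem hxG]
      exact h.z j hj x (fun hxE => hx ⟨hxE, hxG⟩)
    · exact indicator_of_notMem hxG _

theorem meas_act {L : ℕ} {p q : ℕ → ℝ → ℝ} (h : PQ L p q) (s : Tile) (j : ℕ) :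
    MeasurableSet (Act p q s j) := by
  have h1 : MeasurableSet {x | p j x ∈ s.up} := h.mp j (measurableSet_dy _ _)
  have h2 : MeasurableSet {x | 5 / 4 ≤ (2 : ℝ) ^ s.k * (p j x - q j x)} :=
    measurableSet_le measurable_const (measurable_const.mul ((h.mp j).sub (h.mq j)))
  exact h1.inter h2

theorem meas_vc {L : ℕ} {p q : ℕ → ℝ → ℝ} {a : ℕ → ℝ → ℂ} {E : Set ℝ} (h : PQ L p q)
    (ha : AB L a 1 E) (s : Tile) : Measurable (vc L p q a s) := by
  unfold vc
  exact Finset.measurable_fun_sum _ fun j _ => (ha.ma j).indicator (meas_act h s j)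

theorem vc_le {L : ℕ} {p q : ℕ → ℝ → ℝ} {a : ℕ → ℝ → ℂ} {E : Set ℝ}
    (ha : AB L a 1 E) (s : Tile) (x : ℝ) : ‖vc L p q a s x‖ ≤ L := by
  unfold vc
  calc ‖∑ j ∈ Finset.range L, (Act p q s j).indicator (a j) x‖
      ≤ ∑ j ∈ Finset.range L, ‖(Act p q s j).indicator (a j) x‖ := norm_sum_le _ _
    _ ≤ ∑ _j ∈ Finset.range L, (1 : ℝ) := by
        refine Finset.sum_le_sum fun j hj => ?_
        refine (norm_indicator_le_norm_self _ _).trans ?_
        exact a_le_one ha (Finset.mem_range.1 hj) x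
    _ = L := by simp

theorem vc_add (L : ℕ) (p q : ℕ → ℝ → ℝ) (a : ℕ → ℝ → ℂ) (G : Set ℝ) (s : Tile) (x : ℝ) :
    vc L p q a s x = vc L p q (fun j => Gᶜ.indicator (a j)) s x +
      vc L p q (fun j => G.indicator (a j)) s x := by
  unfold vc
  rw [← Finset.sum_add_distrib]
  refine Finset.sum_congr rfl fun j _ => ?_
  by_cases h1 : x ∈ Act p q s j
  · rw [indicator_of_mem h1, indicator_of_mem h1, indicator_of_mem h1]
    show a j x = Gᶜ.indicator (a j) x + G.indicator (a j) x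
    by_cases hx : x ∈ G
    · rw [indicator_of_notMem (by simpa using hx), indicator_of_mem hx, zero_add]
    · rw [indicator_of_mem (by simpa using hx), indicator_of_notMem hx, add_zero]
  · rw [indicator_of_notMem h1, indicator_of_notMem h1, indicator_of_notMem h1, add_zero]

theorem vav_split {A : ℝ} {φ Φ : ℝ → ℂ} {L : ℕ} {p q : ℕ → ℝ → ℝ} {a : ℕ → ℝ → ℂ}
    {E G : Set ℝ} (hW : WPk A φ Φ) (hP : PQ L p q) (h : AB L a 1 E) (hG : MeasurableSet G)
    (s : Tile) : ‖vav φ L p q a s‖ ≤ ‖vav φ L p q (fun j => Gᶜ.indicator (a j)) s‖ +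
      ‖vav φ L p q (fun j => G.indicator (a j)) s‖ := by
  have hfx := (p_FXB A φ Φ hW s).2.2.2.2.2.1
  have h1 := ab_ind h hG
  have h2 := ab_ind h hG.compl
  have i1 : Integrable (fun x => vc L p q (fun j => G.indicator (a j)) s x * fx φ s x) :=
    hfx.bdd_mul (c := L) (meas_vc hP h1 s).aestronglyMeasurable
      (Filter.Eventually.of_forall (vc_le h1 s))
  have i2 : Integrable (fun x => vc L p q (fun j => Gᶜ.indicator (a j)) s x * fx φ s x) :=
    hfx.bdd_mul (c := L) (meas_vc hP h2 s).aestronglyMeasurable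
      (Filter.Eventually.of_forall (vc_le h2 s))
  have e : vav φ L p q a s = vav φ L p q (fun j => Gᶜ.indicator (a j)) s +
      vav φ L p q (fun j => G.indicator (a j)) s := by
    unfold vav
    rw [← integral_add i2 i1]
    refine integral_congr_ae (Filter.Eventually.of_forall fun x => ?_)
    show vc L p q a s x * fx φ s x = vc L p q (fun j => Gᶜ.indicator (a j)) s x * fx φ s x +
      vc L p q (fun j => G.indicator (a j)) s x * fx φ s x
    rw [vc_add L p q a G s x, add_mul]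
  rw [e]
  exact norm_add_le _ _

/-! ### real numbers -/

/-- the bound for the light tiles -/
theorem light {C1 C2 C3 vf ve : ℝ} (h1 : 0 < C1) (h2 : 0 < C2) (h3 : 0 < C3) (hf : 0 < vf)
    (h : vf ≤ ve) :
    C3 * ve * (Real.sqrt C2 * (16 * C1 * vf / ve) +
      Real.sqrt (Real.sqrt (vf / ve) * (Real.sqrt C2 * (16 * C1 * vf / ve)))) ≤
    C3 * (16 * C1 * Real.sqrt C2 + Real.sqrt (16 * C1 * Real.sqrt C2)) *
      Real.sqrt (vf * Real.sqrt (ve * vf)) := by
  have he : 0 < ve := lt_of_lt_of_le hf h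
  have hs2 : 0 < Real.sqrt C2 := Real.sqrt_pos.2 h2
  rw [X_eq hf he]
  set t := Real.sqrt (ve / vf) with ht
  have htpos : 0 < t := Real.sqrt_pos.2 (by positivity)
  have ht1 : 1 ≤ t := by
    rw [ht, Real.one_le_sqrt, one_le_div hf]
    exact h
  have hts : 1 ≤ Real.sqrt t := by
    rw [Real.one_le_sqrt]
    exact ht1
  have e1 : Real.sqrt (vf / ve) = t⁻¹ := by
    rw [ht, ← Real.sqrt_inv, inv_div]
  have e2 : ve / vf = t ^ 2 := by
    rw [ht, Real.sq_sqrt (by positivity)]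
  have e3 : ve = vf * t ^ 2 := by
    rw [← e2]
    field_simp
  have e4 : 16 * C1 * vf / ve = 16 * C1 / t ^ 2 := by
    rw [e3]
    field_simp
  have e5 : Real.sqrt (vf / ve) * (Real.sqrt C2 * (16 * C1 * vf / ve)) =
      16 * C1 * Real.sqrt C2 * t * (t⁻¹ ^ 2) ^ 2 := by
    rw [e1, e4]
    field_simp
  have e6 : Real.sqrt (Real.sqrt (vf / ve) * (Real.sqrt C2 * (16 * C1 * vf / ve))) =
      Real.sqrt (16 * C1 * Real.sqrt C2) * Real.sqrt t * t⁻¹ ^ 2 := by
    rw [e5, Real.sqrt_mul (by positivity), Real.sqrt_sq (by positivity),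
      Real.sqrt_mul (by positivity)]
  rw [e6, e4]
  have e7 : C3 * ve * (Real.sqrt C2 * (16 * C1 / t ^ 2) +
      Real.sqrt (16 * C1 * Real.sqrt C2) * Real.sqrt t * t⁻¹ ^ 2) =
      C3 * vf * (16 * C1 * Real.sqrt C2) +
        C3 * vf * Real.sqrt (16 * C1 * Real.sqrt C2) * Real.sqrt t := by
    rw [e3]
    field_simp
  rw [e7]
  have h8 : C3 * vf * (16 * C1 * Real.sqrt C2) * 1 ≤
      C3 * vf * (16 * C1 * Real.sqrt C2) * Real.sqrt t :=
    mul_le_mul_of_nonneg_left hts (by positivity)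
  calc C3 * vf * (16 * C1 * Real.sqrt C2) +
        C3 * vf * Real.sqrt (16 * C1 * Real.sqrt C2) * Real.sqrt t
      ≤ C3 * vf * (16 * C1 * Real.sqrt C2) * Real.sqrt t +
        C3 * vf * Real.sqrt (16 * C1 * Real.sqrt C2) * Real.sqrt t := by linarith
    _ = _ := by ring

/-- the bound for the heavy tiles outside the exceptional set -/
theorem heavyR {C1 vf ve : ℝ} (h1 : 0 < C1) (hf : 0 < vf) (he : 0 < ve) :
    vf * (16 * C1 * vf / ve) ^ (-(1 / 4) : ℝ) =
      (16 * C1) ^ (-(1 / 4) : ℝ) * Real.sqrt (vf * Real.sqrt (ve * vf)) := by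
  rw [X_eq hf he]
  have e1 : Real.sqrt (Real.sqrt (ve / vf)) = (ve / vf) ^ (1 / 4 : ℝ) := by
    rw [Real.sqrt_eq_rpow, Real.sqrt_eq_rpow, ← Real.rpow_mul (by positivity)]
    norm_num
  have e2 : 16 * C1 * vf / ve = 16 * C1 * (vf / ve) := by ring
  have e3 : (vf / ve) ^ (-(1 / 4) : ℝ) = (ve / vf) ^ (1 / 4 : ℝ) := by
    rw [Real.rpow_neg (by positivity), ← Real.inv_rpow (by positivity), inv_div]
  rw [e1, e2, Real.mul_rpow (by positivity) (by positivity), e3]
  ring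

/-- light tiles -/
theorem lightS {A C1 C2 C3 : ℝ} (h1 : 0 < C1) (h2 : 0 < C2) (h3 : 0 < C3)
    (hENF : ∀ φ Φ : ℝ → ℂ, WPk A φ Φ → ∀ (F : Set ℝ) (f : ℝ → ℂ) (lam : ℝ), BF 1 F f →
      0 < lam → ∀ (T : Finset Tile) (K Λ : ℤ) (ξ : ℝ), PTree T K Λ ξ →
      (∀ s ∈ T, ∀ k l : ℤ, s.I ⊆ dy k l → ¬ heavy lam F k l) →
        ∑ s ∈ T, ‖cf φ f s‖ ^ 2 ≤ C2 * lam ^ 2 * (2 : ℝ) ^ K)
    (hVSUM : ∀ φ Φ g : ℝ → ℂ, WPk A φ Φ → GG2 g →
      ∀ (L : ℕ) (p q : ℕ → ℝ → ℝ) (a : ℕ → ℝ → ℂ) (E : Set ℝ), PQ L p q → AB L a 1 E →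
      ∀ (S : Finset Tile) (r e0 : ℝ), 0 < r → 0 < e0 → n2 g ≤ r * Real.sqrt (vol E) →
      En (cc Φ g) S e0 →
        ∑ s ∈ S, cc Φ g s * ‖vav φ L p q a s‖ ≤ C3 * vol E * (e0 + Real.sqrt (r * e0)))
    {φ Φ : ℝ → ℂ} (hW : WPk A φ Φ) {f : ℝ → ℂ} {F : Set ℝ} {L : ℕ} {p q : ℕ → ℝ → ℝ}
    {a : ℕ → ℝ → ℂ} {E : Set ℝ} (hf : BF 1 F f) (hP : PQ L p q)
    (ha : AB L a 1 E) (hvF : 0 < vol F) (h : vol F ≤ vol E) (S : Finset Tile)
    (hS : ∀ s ∈ S, ∀ k l : ℤ, s.I ⊆ dy k l → ¬ heavy (16 * C1 * vol F / vol E) F k l) :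
    ∑ s ∈ S, ‖cf φ f s‖ * ‖vav φ L p q a s‖ ≤
      C3 * (16 * C1 * Real.sqrt C2 + Real.sqrt (16 * C1 * Real.sqrt C2)) *
        Real.sqrt (vol F * Real.sqrt (vol E * vol F)) := by
  obtain ⟨g, hgm, hgi, hgs, hg2, hgc⟩ :=
    p_TRF A φ Φ hW f hf.m (bf_integrable hf) (bf_integrable_sq hf) S
  have hvE : 0 < vol E := lt_of_lt_of_le hvF h
  have hD : GG2 g := ⟨hgm, hgi, hgs⟩
  have hl : 0 < 16 * C1 * vol F / vol E := by positivity
  have hs2 : 0 < Real.sqrt C2 := Real.sqrt_pos.2 h2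
  have hEn : En (cc Φ g) S (Real.sqrt C2 * (16 * C1 * vol F / vol E)) := by
    intro T K Λ ξ hTS hT
    have h4 := hENF φ Φ hW F f _ hf hl T K Λ ξ hT (fun s hs => hS s (hTS hs))
    calc ∑ s ∈ T, cc Φ g s ^ 2 = ∑ s ∈ T, ‖cf φ f s‖ ^ 2 :=
          Finset.sum_congr rfl fun s hs => by rw [cc, hgc s (hTS hs)]
      _ ≤ _ := h4
      _ = _ := by rw [mul_pow, Real.sq_sqrt h2.le]
  have hr : n2 g ≤ Real.sqrt (vol F / vol E) * Real.sqrt (vol E) := by
    rw [← Real.sqrt_mul (by positivity), div_mul_cancel₀ _ hvE.ne']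
    exact hg2.trans (bf_n2 hf)
  have h5 := hVSUM φ Φ g hW hD L p q a E hP ha S (Real.sqrt (vol F / vol E))
    (Real.sqrt C2 * (16 * C1 * vol F / vol E)) (Real.sqrt_pos.2 (by positivity))
    (by positivity) hr hEn
  calc ∑ s ∈ S, ‖cf φ f s‖ * ‖vav φ L p q a s‖ = ∑ s ∈ S, cc Φ g s * ‖vav φ L p q a s‖ :=
        Finset.sum_congr rfl fun s hs => by rw [cc, hgc s hs]
    _ ≤ _ := h5
    _ ≤ _ := light h1 h2 h3 hvF h

/-- tree estimate for functions without heavy tiles, from the landed blocks -/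
theorem q_ENF' : T_ENF := p_ENF p_FAV (p_ERR (p_TH1 (p_OSC p_CHI2)) p_PRJ) (p_ENB p_DSQ)

end VRB_

open VRB_ in
open Pool.Agent.CAR.RB_ (cf_zero X_mono X_half X_ge) in
open Classical in
theorem p_VRB (h1 : T_VSUM) (h2 : T_VTAI) (h3 : T_VRA) : T_VRB := by
  intro A
  obtain ⟨C1, h1', hEXC⟩ := p_EXC
  obtain ⟨C2, h2', hENF⟩ := q_ENF' A
  obtain ⟨C3, h3', hVSUM⟩ := h1 A
  obtain ⟨C5', h5', hTAI⟩ := h2 A
  obtain ⟨C6, h6, hRA⟩ := h3 A
  obtain ⟨C4, hC4⟩ : ∃ C4, C4 =
    C3 * (16 * C1 * Real.sqrt C2 + Real.sqrt (16 * C1 * Real.sqrt C2)) := ⟨_, rfl⟩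
  obtain ⟨C5, hC5⟩ : ∃ C5, C5 = C5' * (16 * C1) ^ (-(1 / 4) : ℝ) := ⟨_, rfl⟩
  have h4 : 0 < C4 := by
    have : 0 < Real.sqrt C2 := Real.sqrt_pos.2 h2'
    rw [hC4]
    positivity
  have h5 : 0 < C5 := by
    rw [hC5]
    positivity
  refine ⟨2 * (C4 + C5 + C6), by positivity, ?_⟩
  intro φ Φ hW f F L p q a E hf hP ha hFE S
  rcases (ENNReal.toReal_nonneg : 0 ≤ vol F).eq_or_lt with h0 | hvF
  · have : ∑ s ∈ S, ‖cf φ f s‖ * ‖vav φ L p q a s‖ = 0 :=
      Finset.sum_eq_zero fun s _ => by rw [cf_zero hf h0.symm s, norm_zero, zero_mul]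
    rw [this]
    positivity
  change 0 < vol F at hvF
  have key : ∀ n : ℕ, ∀ (a : ℕ → ℝ → ℂ) (E : Set ℝ), AB L a 1 E → vol F ≤ vol E →
      vol E ≤ 16 ^ n * vol F → ∀ S : Finset Tile, ∑ s ∈ S, ‖cf φ f s‖ * ‖vav φ L p q a s‖ ≤
        2 * (C4 + C5 + C6) * Real.sqrt (vol F * Real.sqrt (vol E * vol F)) := by
    intro n
    induction n with
    | zero =>
      intro a E ha hFE hEn S
      rw [pow_zero, one_mul] at hEn
      have e : vol E = vol F := le_antisymm hEn hFE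
      have h7 := hRA φ Φ hW f F L p q a E hf hP ha hEn S
      rw [e] at h7 ⊢
      exact h7.trans (mul_le_mul_of_nonneg_right (by linarith) (Real.sqrt_nonneg _))
    | succ n ih =>
      intro a E ha hFE hEn S
      have hvE : 0 < vol E := lt_of_lt_of_le hvF hFE
      obtain ⟨lam, hlam⟩ : ∃ lam, lam = 16 * C1 * vol F / vol E := ⟨_, rfl⟩
      have hl : 0 < lam := by rw [hlam]; positivity
      obtain ⟨hGm, hGv⟩ := hEXC lam F hf.mF hf.fF hl
      have hGv' : volume (GG lam F) ≤ ENNReal.ofReal (vol E / 16) := by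
        refine hGv.trans (le_of_eq ?_)
        congr 1
        rw [hlam]
        field_simp
      have hhalf := X_half (vf := vol F) (ve := vol E)
      have hXnn : 0 ≤ Real.sqrt (vol F * Real.sqrt (vol E * vol F)) := Real.sqrt_nonneg _
      obtain ⟨P, hPd⟩ : ∃ P : Tile → Prop,
        P = fun s => ∃ k l : ℤ, s.I ⊆ dy k l ∧ heavy lam F k l := ⟨_, rfl⟩
      rw [← Finset.sum_filter_add_sum_filter_not S P]
      have hlight : ∑ s ∈ S.filter (fun s => ¬ P s), ‖cf φ f s‖ * ‖vav φ L p q a s‖ ≤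
          C4 * Real.sqrt (vol F * Real.sqrt (vol E * vol F)) := by
        rw [hC4]
        refine lightS h1' h2' h3' hENF hVSUM hW hf hP ha hvF hFE _ ?_
        intro s hs k l hsub hh
        rw [← hlam] at hh
        apply (Finset.mem_filter.1 hs).2
        rw [hPd]
        exact ⟨k, l, hsub, hh⟩
      have ha1 := ab_ind ha hGm.compl
      have ha2 := ab_ind ha hGm
      have hheavy : ∑ s ∈ S.filter P, ‖cf φ f s‖ * ‖vav φ L p q a s‖ ≤
          ∑ s ∈ S.filter P, ‖cf φ f s‖ *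
            ‖vav φ L p q (fun j => (GG lam F)ᶜ.indicator (a j)) s‖ +
          ∑ s ∈ S.filter P, ‖cf φ f s‖ *
            ‖vav φ L p q (fun j => (GG lam F).indicator (a j)) s‖ := by
        rw [← Finset.sum_add_distrib]
        refine Finset.sum_le_sum fun s _ => ?_
        rw [← mul_add]
        exact mul_le_mul_of_nonneg_left (vav_split hW hP ha hGm s) (norm_nonneg _)
      have hfirst : ∑ s ∈ S.filter P, ‖cf φ f s‖ *
          ‖vav φ L p q (fun j => (GG lam F)ᶜ.indicator (a j)) s‖ ≤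
          C5 * Real.sqrt (vol F * Real.sqrt (vol E * vol F)) := by
        refine (hTAI φ Φ hW f F L p q _ _ lam hf hP ha1 hl (fun x hx => hx.2) _
          (fun s hs => ?_)).trans (le_of_eq ?_)
        · have := (Finset.mem_filter.1 hs).2
          rwa [hPd] at this
        · have h15 := heavyR h1' hvF hvE
          calc C5' * vol F * lam ^ (-(1 / 4) : ℝ) =
              C5' * (vol F * (16 * C1 * vol F / vol E) ^ (-(1 / 4) : ℝ)) := by
                rw [hlam]
                ring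
            _ = _ := by
                rw [h15, hC5]
                ring
      have hvE1 : vol (E ∩ GG lam F) ≤ vol E / 16 := by
        have h8 : volume (E ∩ GG lam F) ≤ ENNReal.ofReal (vol E / 16) :=
          (measure_mono inter_subset_right).trans hGv'
        exact ENNReal.toReal_le_of_le_ofReal (by positivity) h8
      have hsecond : ∑ s ∈ S.filter P, ‖cf φ f s‖ *
          ‖vav φ L p q (fun j => (GG lam F).indicator (a j)) s‖ ≤
          C6 * Real.sqrt (vol F * Real.sqrt (vol E * vol F)) +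
          (C4 + C5 + C6) * Real.sqrt (vol F * Real.sqrt (vol E * vol F)) := by
        rcases le_total (vol (E ∩ GG lam F)) (vol F) with h9 | h9
        · have h10 := hRA φ Φ hW f F L p q _ _ hf hP ha2 h9 (S.filter P)
          have h11 : Real.sqrt (vol (E ∩ GG lam F) * Real.sqrt (vol (E ∩ GG lam F) * vol F)) ≤
              Real.sqrt (vol F * Real.sqrt (vol E * vol F)) :=
            Real.sqrt_le_sqrt (mul_le_mul h9 (Real.sqrt_le_sqrt
              (mul_le_mul_of_nonneg_right (h9.trans hFE) hvF.le)) (Real.sqrt_nonneg _) hvF.le)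
          have h12 := mul_le_mul_of_nonneg_left h11 h6.le
          have h13 : 0 ≤ (C4 + C5 + C6) * Real.sqrt (vol F * Real.sqrt (vol E * vol F)) := by
            positivity
          linarith
        · have h10 := ih _ _ ha2 h9 (by rw [pow_succ] at hEn; linarith) (S.filter P)
          have h11 := X_mono hvF.le hvE1
          rw [hhalf] at h11
          have h12 := mul_le_mul_of_nonneg_left h11
            (show (0 : ℝ) ≤ 2 * (C4 + C5 + C6) by positivity)
          have h13 : 0 ≤ C6 * Real.sqrt (vol F * Real.sqrt (vol E * vol F)) := by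
            positivity
          have h14 : 2 * (C4 + C5 + C6) * (Real.sqrt (vol F * Real.sqrt (vol E * vol F)) / 2) =
            (C4 + C5 + C6) * Real.sqrt (vol F * Real.sqrt (vol E * vol F)) := by ring
          linarith
      linarith
  obtain ⟨n, hn⟩ := pow_unbounded_of_one_lt (vol E / vol F) (by norm_num : (1 : ℝ) < 16)
  refine key n a E ha hFE ?_ S
  rw [div_lt_iff₀ hvF] at hn
  exact hn.le

end Pool.Agent.VRC
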