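import Pool.Agent.VRC.Targets

/-!
# VRC, target VREF: reflection
-/

set_option autoImplicit false

namespace Pool.Agent.VRC

open MeasureTheory Set ComplexConjugate
open scoped ENNReal NNReal
open Pool.Agent.CAR

namespace VREF_

variable {L : ℕ} {p q : ℕ → ℝ → ℝ} {a : ℕ → ℝ → ℂ}

/-- the reflected family -/
def rf {α : Type} (L : ℕ) (f : ℕ → ℝ → α) (j : ℕ) (x : ℝ) : α := f (L - 1 - j) (-x)

lemma pq (h : PQ L p q) : PQ L (fun j x => -rf L q j x) (fun j x => -rf L p j x) where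
  mp j := ((h.mq (L - 1 - j)).comp measurable_neg).neg
  mq j := ((h.mp (L - 1 - j)).comp measurable_neg).neg
  le j hj x := neg_le_neg (h.le (L - 1 - j) (by omega) (-x))
  ord i hi j hj hij x :=
    neg_le_neg (h.ord (L - 1 - j) (by omega) (L - 1 - i) (by omega) (by omega) (-x))

lemma ab {h : ℝ} {E : Set ℝ} (hA : AB L a h E) : AB L (rf L a) h (Neg.neg ⁻¹' E) where
  ma j := (hA.ma (L - 1 - j)).comp measurable_neg
  mE := measurable_neg hA.mE
  fE := by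
    rw [(Measure.measurePreserving_neg (volume : Measure ℝ)).measure_preimage
      hA.mE.nullMeasurableSet]
    exact hA.fE
  h0 := hA.h0
  bd x := by
    have e : ∑ j ∈ Finset.range L, ‖rf L a j x‖ ^ (4 / 3 : ℝ) =
        ∑ j ∈ Finset.range L, ‖a j (-x)‖ ^ (4 / 3 : ℝ) :=
      Finset.sum_range_reflect (fun j => ‖a j (-x)‖ ^ (4 / 3 : ℝ)) L
    rw [e]
    exact hA.bd (-x)
  z j hj x hx := hA.z (L - 1 - j) (by omega) (-x) hx

lemma gg {g : ℝ → ℂ} (hg : GG2 g) : GG2 (fun ξ => g (-ξ)) where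
  mg := hg.mg.comp measurable_neg
  ig := hg.ig.comp_neg
  sg := hg.sg.comp_neg

lemma n2_neg (g : ℝ → ℂ) : n2 (fun ξ => g (-ξ)) = n2 g := by
  unfold n2
  rw [integral_neg_eq_self (fun ξ => ‖g ξ‖ ^ 2)]

lemma amp_rf (L : ℕ) (a : ℕ → ℝ → ℂ) (x : ℝ) : amp L (rf L a) x = amp L a (-x) := by
  unfold amp
  congr 1
  exact Finset.sum_range_reflect (fun j => ‖a j (-x)‖ ^ (4 / 3 : ℝ)) L

lemma na_rf (L : ℕ) (a : ℕ → ℝ → ℂ) : na L (rf L a) = na L a := by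
  unfold na
  have e : (fun x => amp L (rf L a) x ^ 2) = fun x => (fun y => amp L a y ^ 2) (-x) := by
    funext x
    rw [amp_rf]
  rw [e, integral_neg_eq_self (fun y => amp L a y ^ 2)]

/-- the inner integral -/
lemma inner (ρ : ℝ → ℝ) (g : ℝ → ℂ) (P Q x : ℝ) :
    ∫ ξ, g (-ξ) * (Gm ρ ((-Q - ξ) / (-Q - -P)) : ℂ) * e1 (x * ξ) =
      ∫ ξ, g ξ * (Gm ρ ((ξ - Q) / (P - Q)) : ℂ) * e1 (-x * ξ) := by
  rw [← integral_neg_eq_self (fun ξ => g (-ξ) * (Gm ρ ((-Q - ξ) / (-Q - -P)) : ℂ) * e1 (x * ξ))]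
  congr 1
  funext ξ
  have e1' : -Q - -ξ = ξ - Q := by ring
  have e2' : -Q - -P = P - Q := by ring
  have e3' : x * -ξ = -x * ξ := by ring
  rw [neg_neg, e1', e2', e3']

end VREF_

open VREF_ in
theorem p_VREF : T_VREF := by
  intro ρ C hR g L p q a h E hg hpq hA
  have key := hR (fun ξ => g (-ξ)) L (fun j x => -rf L q j x) (fun j x => -rf L p j x) (rf L a) h
    (Neg.neg ⁻¹' E) (gg hg) (pq hpq) (ab hA)
  rw [n2_neg, na_rf] at key
  have e : (∫ x, ∑ j ∈ Finset.range L, rf L a j x *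
      ∫ ξ, g (-ξ) * (Gm ρ ((-rf L q j x - ξ) / (-rf L q j x - -rf L p j x)) : ℂ) *
        e1 (x * ξ)) =
      ∫ x, ∑ j ∈ Finset.range L, a j x *
        ∫ ξ, g ξ * (Gm ρ ((ξ - q j x) / (p j x - q j x)) : ℂ) * e1 (x * ξ) := by
    rw [← integral_neg_eq_self (fun x => ∑ j ∈ Finset.range L, a j x *
        ∫ ξ, g ξ * (Gm ρ ((ξ - q j x) / (p j x - q j x)) : ℂ) * e1 (x * ξ))]
    congr 1
    funext x
    rw [← Finset.sum_range_reflect (fun j => a j (-x) *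
        ∫ ξ, g ξ * (Gm ρ ((ξ - q j (-x)) / (p j (-x) - q j (-x))) : ℂ) * e1 (-x * ξ)) L]
    refine Finset.sum_congr rfl fun j _ => ?_
    rw [inner ρ g (rf L p j x) (rf L q j x) x]
    rfl
  rw [e] at key
  exact key

end Pool.Agent.VRC
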