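import Pool.Agent.VRC.Targets
import Pool.Agent.CAR.P_SCKS

set_option autoImplicit false

/-!
# VSCK: all dilations, by scaling
-/

namespace Pool.Agent.VRC

open MeasureTheory Set ComplexConjugate Filter Topology
open scoped ENNReal NNReal
open Pool.Agent.CAR

namespace VSCK_

theorem gg {g : ℝ → ℂ} (h : GG2 g) {r : ℝ} (hr : 0 < r) : GG2 (fun ξ => g (ξ / r)) :=
  ⟨h.mg.comp (measurable_id.div_const r), h.ig.comp_div hr.ne', h.sg.comp_div hr.ne'⟩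

theorem pq {L : ℕ} {p q : ℕ → ℝ → ℝ} (h : PQ L p q) {r : ℝ} (hr : 0 < r) :
    PQ L (fun j x => r * p j (r * x)) (fun j x => r * q j (r * x)) := by
  have hm : Measurable (fun x : ℝ => r * x) := measurable_const_mul r
  exact ⟨fun j => ((h.mp j).comp hm).const_mul r, fun j => ((h.mq j).comp hm).const_mul r,
    fun j hj x => mul_le_mul_of_nonneg_left (h.le j hj _) hr.le,
    fun i hi j hj hij x => mul_le_mul_of_nonneg_left (h.ord i hi j hj hij _) hr.le⟩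

theorem ab {L : ℕ} {a : ℕ → ℝ → ℂ} {h : ℝ} {E : Set ℝ} (H : AB L a h E) {r : ℝ} (hr : 0 < r) :
    AB L (fun j x => a j (r * x)) h ((fun x => r * x) ⁻¹' E) := by
  have hm : Measurable (fun x : ℝ => r * x) := measurable_const_mul r
  refine ⟨fun j => (H.ma j).comp hm, hm H.mE, ?_, H.h0, fun x => H.bd _, fun j hj x hx =>
    H.z j hj _ hx⟩
  rw [Real.volume_preimage_mul_left hr.ne']
  exact ENNReal.mul_ne_top ENNReal.ofReal_ne_top H.fE

theorem na_eq (L : ℕ) (a : ℕ → ℝ → ℂ) {r : ℝ} (hr : 0 < r) :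
    na L (fun j x => a j (r * x)) = (Real.sqrt r)⁻¹ * na L a := by
  unfold na
  have h1 : (∫ x, amp L (fun j x => a j (r * x)) x ^ 2) = ∫ x, amp L a (r * x) ^ 2 := rfl
  rw [h1, Measure.integral_comp_mul_left (fun x => amp L a x ^ 2) r, abs_of_pos (inv_pos.2 hr),
    smul_eq_mul, Real.sqrt_mul (inv_pos.2 hr).le, Real.sqrt_inv]

/-- the integrand -/
noncomputable def FF (ρ : ℝ → ℝ) (g : ℝ → ℂ) (L : ℕ) (p q : ℕ → ℝ → ℝ) (a : ℕ → ℝ → ℂ)
    (K : ℕ) (r x : ℝ) : ℂ :=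
  ∑ j ∈ Finset.range L, a j x * ∑ k ∈ Finset.Icc (-(K : ℤ)) K,
      {y | 5 / 4 ≤ r * (2 : ℝ) ^ k * (p j y - q j y)}.indicator
        (fun y => ∫ ξ, g ξ * (Bt ρ (r * (2 : ℝ) ^ k) (p j y - ξ) : ℂ) * e1 (y * ξ)) x

/-- the integrand before scaling -/
noncomputable def GGG (ρ : ℝ → ℝ) (g : ℝ → ℂ) (L : ℕ) (p q : ℕ → ℝ → ℝ) (a : ℕ → ℝ → ℂ)
    (K : ℕ) (x : ℝ) : ℂ :=
  ∑ j ∈ Finset.range L, a j x * ∑ k ∈ Finset.Icc (-(K : ℤ)) K,
      {y | 5 / 4 ≤ (2 : ℝ) ^ k * (p j y - q j y)}.indicator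
        (fun y => ∫ ξ, g ξ * (Bt ρ ((2 : ℝ) ^ k) (p j y - ξ) : ℂ) * e1 (y * ξ)) x

theorem scale (ρ : ℝ → ℝ) (g : ℝ → ℂ) (L : ℕ) (p q : ℕ → ℝ → ℝ) (a : ℕ → ℝ → ℂ)
    (K : ℕ) {r : ℝ} (hr : 0 < r) (x : ℝ) :
    GGG ρ (fun ξ => g (ξ / r)) L (fun j x => r * p j (r * x)) (fun j x => r * q j (r * x))
      (fun j x => a j (r * x)) K x = (r : ℂ) * FF ρ g L p q a K r (r * x) := by
  unfold GGG FF
  rw [Finset.mul_sum]
  refine Finset.sum_congr rfl fun j _ => ?_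
  rw [mul_left_comm]
  congr 1
  rw [Finset.mul_sum]
  refine Finset.sum_congr rfl fun k _ => ?_
  have hiff : (5 / 4 ≤ (2 : ℝ) ^ k * (r * p j (r * x) - r * q j (r * x))) ↔
      5 / 4 ≤ r * (2 : ℝ) ^ k * (p j (r * x) - q j (r * x)) := by
    rw [show (2 : ℝ) ^ k * (r * p j (r * x) - r * q j (r * x)) =
      r * (2 : ℝ) ^ k * (p j (r * x) - q j (r * x)) by ring]
  by_cases hc : 5 / 4 ≤ r * (2 : ℝ) ^ k * (p j (r * x) - q j (r * x))
  · have hc' := hiff.2 hc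
    rw [Set.indicator_of_mem (by exact hc'), Set.indicator_of_mem (by exact hc)]
    exact SCKS_.inner ρ g hr ((2 : ℝ) ^ k) (p j (r * x)) x
  · have hc' := fun h => hc (hiff.1 h)
    rw [Set.indicator_of_notMem (by exact hc'), Set.indicator_of_notMem (by exact hc), mul_zero]

end VSCK_

open VSCK_ in
/-- **VSCK** -/
theorem p_VSCK (h1 : T_VAVB) : T_VSCK := by
  intro A ρ hρ
  obtain ⟨C, hC, h⟩ := h1 A ρ hρ
  refine ⟨C, hC, ?_⟩
  intro g L p q a h' E hg hpq hab K r hr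
  have h2 := h _ L _ _ _ h' _ (gg hg hr) (pq hpq hr) (ab hab hr) K
  have e1' : C * n2 (fun ξ => g (ξ / r)) * na L (fun j x => a j (r * x)) =
      C * n2 g * na L a := by
    rw [SCKS_.n2_eq g hr, na_eq L a hr]
    have : Real.sqrt r ≠ 0 := (Real.sqrt_pos.2 hr).ne'
    field_simp
  rw [e1'] at h2
  refine le_trans (le_of_eq ?_) h2
  congr 1
  have e2' : (∫ x, GGG ρ (fun ξ => g (ξ / r)) L (fun j x => r * p j (r * x))
      (fun j x => r * q j (r * x)) (fun j x => a j (r * x)) K x) =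
      ∫ x, FF ρ g L p q a K r x := by
    have e3 := Measure.integral_comp_mul_left (fun x => (r : ℂ) * FF ρ g L p q a K r x) r
    have e4 : (∫ y, (r : ℂ) * FF ρ g L p q a K r y) = (r : ℂ) * ∫ y, FF ρ g L p q a K r y :=
      integral_const_mul _ _
    rw [abs_of_pos (inv_pos.2 hr), Complex.real_smul, e4, ← mul_assoc,
      ← Complex.ofReal_mul, inv_mul_cancel₀ hr.ne', Complex.ofReal_one, one_mul] at e3
    rw [← e3]
    exact integral_congr_ae (Eventually.of_forall fun x => scale ρ g L p q a K hr x)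
  exact e2'.symm

end Pool.Agent.VRC
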