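import Pool.Agent.VRC.Targets
import Pool.Agent.CAR.P_STP2
import Pool.Agent.CAR.P_WTI
import Pool.Agent.CAR.P_FXB
import Pool.Agent.CAR.P_IPB
import Pool.Agent.CAR.P_IPZ
import Pool.Agent.CAR.P_ENER

set_option autoImplicit false

/-!
# The variation norm Carleson theorem on the line: VSTP, one step
-/

namespace Pool.Agent.VRC

open MeasureTheory Set ComplexConjugate
open scoped ENNReal NNReal
open Pool.Agent.CAR

namespace VSTP_

theorem ms_mono {L : ℕ} {p : ℕ → ℝ → ℝ} {a : ℕ → ℝ → ℂ} {S S' : Finset Tile} {mu : ℝ}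
    (h : VMs L p a S mu) (hS : S' ⊆ S) : VMs L p a S' mu := fun s hs u hu => h s (hS hs) u hu

theorem dat {g : ℝ → ℂ} (hg : GG2 g) : Dat g (fun _ => 0) (fun _ => 0) ∅ where
  mg := hg.mg
  ig := hg.ig
  sg := hg.sg
  mb := measurable_const
  bE := fun x hx => absurd hx (Set.notMem_empty x)
  b0 := fun _ _ => rfl
  mN := measurable_const
  mE := MeasurableSet.empty
  fE := by simp

end VSTP_

open VSTP_ in
/-- VSTP -/
theorem p_VSTP (h1 : T_VDNB) (h2 : T_VMASS) (h3 : T_VTREE) : T_VSTP := by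
  classical
  intro A
  obtain ⟨C1, hC1, g1⟩ := (p_ENER (p_IPB p_WTI p_FXB p_PAR) p_IPZ) A
  obtain ⟨C2, hC2, g2⟩ := h2
  obtain ⟨C3, hC3, g3⟩ := h3 A
  refine ⟨C3 * (C1 + 4 * C2), by positivity, ?_⟩
  intro φ Φ g hW hg L p q a E hPQ hAB S eps mu e0 heps hmu he0 hEn0 hEn hMs
  obtain ⟨S1, U, hS1, hMs1, hcov1, hU⟩ := g2 L p q a E hPQ hAB S (mu / 4) (by positivity)
  obtain ⟨n, K, Λ, X, S', hS', hEn', hcov2, hK⟩ := g1 φ Φ g (fun _ => 0) (fun _ => 0) ∅ hW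
    (dat hg) S1 eps heps (STP2_.en_mono hEn hS1)
  refine ⟨S', hS'.trans hS1, hEn', ms_mono hMs1 hS', ?_⟩
  set f : Tile → ℝ := fun s => cc Φ g s * ‖vav φ L p q a s‖ with hf
  have hf0 : ∀ s, 0 ≤ f s := fun s => mul_nonneg (norm_nonneg _) (norm_nonneg _)
  set m : ℝ := min mu 2 with hm
  have hm0 : 0 ≤ m := le_min hmu.le (by norm_num)
  have hMsm : VMs L p a S m := fun s hs u hu =>
    le_min (hMs s hs u hu) (h1 L p q a E hPQ hAB u).2.1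
  set e1 : ℝ := min eps e0 with he1
  have he10 : 0 ≤ e1 := le_min heps.le he0
  have hEn1 : En (cc Φ g) S e1 := STP2_.en_min hEn hEn0
  have hsplit : ∑ s ∈ S \ S', f s ≤ ∑ s ∈ S \ S1, f s + ∑ s ∈ S1 \ S', f s := by
    have hsub : S \ S' ⊆ (S \ S1) ∪ (S1 \ S') := by
      intro s hs
      rw [Finset.mem_sdiff] at hs
      rw [Finset.mem_union, Finset.mem_sdiff, Finset.mem_sdiff]
      by_cases h : s ∈ S1
      · right; exact ⟨h, hs.2⟩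
      · left; exact ⟨hs.1, h⟩
    have hdis : Disjoint (S \ S1) (S1 \ S') := by
      rw [Finset.disjoint_left]
      intro s hs hs'
      exact (Finset.mem_sdiff.1 hs).2 (Finset.mem_sdiff.1 hs').1
    rw [← Finset.sum_union hdis]
    exact Finset.sum_le_sum_of_subset_of_nonneg hsub fun s _ _ => hf0 s
  have htree : ∀ (R : Finset Tile), R ⊆ S → ∀ (P : Tile → Prop) (k l : ℤ) (ξ : ℝ),
      (∀ s, P s → s.I ⊆ dy k l ∧ ξ ∈ s.om) →
        ∑ s ∈ R.filter P, f s ≤ C3 * e1 * m ^ (3 / 4 : ℝ) * (2 : ℝ) ^ k := by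
    intro R hR P k l ξ hP
    have hsub : R.filter P ⊆ S := (Finset.filter_subset _ _).trans hR
    exact g3 φ Φ hW L p q a E hPQ hAB (cc Φ g) (R.filter P) k l ξ e1 m (fun s => norm_nonneg _)
      (fun s hs => hP s (Finset.mem_filter.1 hs).2) he10 hm0 (STP2_.en_mono hEn1 hsub)
      (ms_mono hMsm hsub)
  have hA : ∑ s ∈ S \ S1, f s ≤ C3 * e1 * m ^ (3 / 4 : ℝ) * ∑ u ∈ U, (2 : ℝ) ^ u.k := by
    rw [Finset.mul_sum]
    refine (STP2_.sum_cover (S \ S1) U (fun u s => TLE s u) f hf0 ?_).trans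
      (Finset.sum_le_sum fun u _ => ?_)
    · intro s hs
      rw [Finset.mem_sdiff] at hs
      exact hcov1 s hs.1 hs.2
    · refine htree _ Finset.sdiff_subset _ u.k u.l ((2 : ℝ) ^ (-u.k) * u.m) ?_
      intro s hs
      exact ⟨hs.1, hs.2 (left_mem_dy _ _)⟩
  have hB : ∑ s ∈ S1 \ S', f s ≤
      C3 * e1 * m ^ (3 / 4 : ℝ) * ∑ i ∈ Finset.range n, (2 : ℝ) ^ (K i) := by
    rw [Finset.mul_sum]
    refine (STP2_.sum_cover (S1 \ S') (Finset.range n)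
      (fun i s => s.I ⊆ dy (K i) (Λ i) ∧ X i ∈ s.om) f hf0 ?_).trans
      (Finset.sum_le_sum fun i _ => ?_)
    · intro s hs
      rw [Finset.mem_sdiff] at hs
      obtain ⟨i, hi, h⟩ := hcov2 s hs.1 hs.2
      exact ⟨i, Finset.mem_range.2 hi, h⟩
    · exact htree _ (Finset.sdiff_subset.trans hS1) _ (K i) (Λ i) (X i) fun s hs => hs
  have hm34 : 0 ≤ m ^ (3 / 4 : ℝ) := Real.rpow_nonneg hm0 _
  have hc : 0 ≤ C3 * e1 * m ^ (3 / 4 : ℝ) := by positivity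
  have hv : 0 ≤ vol E / mu := div_nonneg ENNReal.toReal_nonneg hmu.le
  have hgg : 0 ≤ n2 g ^ 2 / eps ^ 2 := by positivity
  have hU' : ∑ u ∈ U, (2 : ℝ) ^ u.k ≤ 4 * C2 * (vol E / mu) := by
    refine hU.trans (le_of_eq ?_)
    field_simp
  have hK' : ∑ i ∈ Finset.range n, (2 : ℝ) ^ (K i) ≤ C1 * (n2 g ^ 2 / eps ^ 2) := by
    refine hK.trans (le_of_eq ?_)
    ring
  calc ∑ s ∈ S \ S', f s ≤ ∑ s ∈ S \ S1, f s + ∑ s ∈ S1 \ S', f s := hsplit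
    _ ≤ C3 * e1 * m ^ (3 / 4 : ℝ) * ∑ u ∈ U, (2 : ℝ) ^ u.k +
        C3 * e1 * m ^ (3 / 4 : ℝ) * ∑ i ∈ Finset.range n, (2 : ℝ) ^ (K i) := add_le_add hA hB
    _ ≤ C3 * e1 * m ^ (3 / 4 : ℝ) * (4 * C2 * (vol E / mu)) +
        C3 * e1 * m ^ (3 / 4 : ℝ) * (C1 * (n2 g ^ 2 / eps ^ 2)) :=
        add_le_add (mul_le_mul_of_nonneg_left hU' hc) (mul_le_mul_of_nonneg_left hK' hc)
    _ ≤ C3 * (C1 + 4 * C2) * e1 * m ^ (3 / 4 : ℝ) * (n2 g ^ 2 / eps ^ 2 + vol E / mu) := by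
        have k1 : 0 ≤ C3 * e1 * m ^ (3 / 4 : ℝ) * (C1 * (vol E / mu)) := by positivity
        have k2 : 0 ≤ C3 * e1 * m ^ (3 / 4 : ℝ) * (4 * C2 * (n2 g ^ 2 / eps ^ 2)) := by
          positivity
        nlinarith

end Pool.Agent.VRC
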