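import Pool.Agent.VRC.Targets
import Pool.Agent.CAR.P_SUM

set_option autoImplicit false

/-!
# VRC: VSUM, the final summation
-/

namespace Pool.Agent.VRC

open MeasureTheory Set ComplexConjugate
open scoped ENNReal NNReal
open Pool.Agent.CAR

namespace VSUM_

open Pool.Agent.CAR.SUM_

/-- `2^(-|n|/2)` -/
noncomputable def hq (n : ℤ) : ℝ := (Real.sqrt 2)⁻¹ ^ n.natAbs

theorem s2pos : 0 < Real.sqrt 2 := Real.sqrt_pos.2 (by norm_num)

theorem s2one : 1 < Real.sqrt 2 := by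
  rw [Real.lt_sqrt (by norm_num)]
  norm_num

theorem s2sq : Real.sqrt 2 * Real.sqrt 2 = 2 := Real.mul_self_sqrt (by norm_num)

theorem hq_nonneg (n : ℤ) : 0 ≤ hq n := by
  unfold hq
  have := s2pos
  positivity

theorem summable_hq : Summable hq := by
  have h1 : Summable (fun n : ℕ => (Real.sqrt 2)⁻¹ ^ n) :=
    summable_geometric_of_lt_one (inv_nonneg.2 s2pos.le) (inv_lt_one_of_one_lt₀ s2one)
  refine Summable.of_nat_of_neg ?_ ?_
  · exact h1.congr fun n => by simp [hq]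
  · exact h1.congr fun n => by simp [hq]

theorem sum_hq_le (n0 : ℤ) (m : ℕ) : ∑ j ∈ Finset.range m, hq (n0 - j) ≤ ∑' z, hq z := by
  classical
  have hinj : Set.InjOn (fun j : ℕ => n0 - (j : ℤ)) (Finset.range m) := by
    intro a _ b _ hab
    simp only at hab
    omega
  rw [← Finset.sum_image (f := hq) hinj]
  exact summable_hq.sum_le_tsum _ fun z _ => hq_nonneg z

theorem tsum_hq_nonneg : 0 ≤ ∑' z, hq z := tsum_nonneg hq_nonneg

theorem hz_nonneg' {n : ℤ} (h : 0 ≤ n) : hz n * (2 : ℝ) ^ n = 1 := by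
  obtain ⟨k, rfl⟩ := Int.eq_ofNat_of_zero_le h
  rw [hz, Int.natAbs_natCast, zpow_natCast, ← mul_pow]
  norm_num

/-- `√(2^n)` -/
theorem sqrt_zpow (n : ℤ) : Real.sqrt ((2 : ℝ) ^ n) = Real.sqrt 2 ^ n := by
  rw [Real.sqrt_eq_iff_mul_self_eq (by positivity) (zpow_nonneg s2pos.le n), ← mul_zpow, s2sq]

theorem hq_nonneg' {n : ℤ} (h : 0 ≤ n) : hq n * Real.sqrt ((2 : ℝ) ^ n) = 1 := by
  rw [sqrt_zpow]
  obtain ⟨k, rfl⟩ := Int.eq_ofNat_of_zero_le h
  rw [hq, Int.natAbs_natCast, zpow_natCast, ← mul_pow, inv_mul_cancel₀ s2pos.ne', one_pow]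

theorem hq_nonpos {n : ℤ} (h : n ≤ 0) : hq n = Real.sqrt ((2 : ℝ) ^ n) := by
  rw [sqrt_zpow]
  obtain ⟨k, rfl⟩ := Int.exists_eq_neg_ofNat h
  rw [hq, Int.natAbs_neg, Int.natAbs_natCast, zpow_neg, zpow_natCast, inv_pow]

/-- `min y 1 / √y` for `2^k ≤ y < 2^(k+1)` -/
theorem min_hq {y : ℝ} {k : ℤ} (h1 : (2 : ℝ) ^ k ≤ y) (h2 : y < (2 : ℝ) ^ (k + 1)) :
    min y 1 ≤ Real.sqrt y * (Real.sqrt 2 * hq k) := by
  have hk0 : (0 : ℝ) < 2 ^ k := zpow_pos (by norm_num) k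
  have hy0 : 0 < y := hk0.trans_le h1
  have h3 : 0 ≤ hq k := hq_nonneg k
  rcases le_or_gt 0 k with hk | hk
  · have h4 : hq k * Real.sqrt ((2 : ℝ) ^ k) = 1 := hq_nonneg' hk
    have h5 : Real.sqrt ((2 : ℝ) ^ k) ≤ Real.sqrt y := Real.sqrt_le_sqrt h1
    calc min y 1 ≤ 1 := min_le_right _ _
      _ = Real.sqrt ((2 : ℝ) ^ k) * (1 * hq k) := by rw [one_mul, mul_comm, h4]
      _ ≤ Real.sqrt y * (Real.sqrt 2 * hq k) := by
          refine mul_le_mul h5 ?_ (by positivity) (Real.sqrt_nonneg _)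
          exact mul_le_mul_of_nonneg_right s2one.le h3
  · have h4 : hq k = Real.sqrt ((2 : ℝ) ^ k) := hq_nonpos hk.le
    have h5 : Real.sqrt y ≤ Real.sqrt 2 * hq k := by
      rw [h4, ← Real.sqrt_mul (by norm_num)]
      refine Real.sqrt_le_sqrt ?_
      rw [zpow_add_one₀ (by norm_num)] at h2
      linarith
    calc min y 1 ≤ y := min_le_left _ _
      _ = Real.sqrt y * Real.sqrt y := (Real.mul_self_sqrt hy0.le).symm
      _ ≤ Real.sqrt y * (Real.sqrt 2 * hq k) := mul_le_mul_of_nonneg_left h5 (Real.sqrt_nonneg _)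

/-- the majorant -/
noncomputable def Q (K : ℤ) (r e0 : ℝ) (n : ℤ) : ℝ :=
  2 * e0 * hz n + Real.sqrt 2 * Real.sqrt (r * e0) * hq (n + K)

theorem rp {t : ℝ} (ht : 0 < t) (ht1 : t ≤ 1) :
    (min (t ^ 2) 2) ^ (3 / 4 : ℝ) / t ^ 2 * Real.sqrt t = 1 := by
  have h1 : min (t ^ 2) 2 = t ^ 2 := min_eq_left (by nlinarith)
  rw [h1, Real.sqrt_eq_rpow, ← Real.rpow_natCast t 2, ← Real.rpow_mul ht.le,
    ← Real.rpow_sub ht, ← Real.rpow_add ht]
  norm_num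

theorem Q_le {r e0 : ℝ} (hr : 0 < r) (he0 : 0 < e0) {K : ℤ} (hK1 : (2 : ℝ) ^ K ≤ r / e0)
    (hK2 : r / e0 < (2 : ℝ) ^ (K + 1)) (n : ℤ) :
    min ((2 : ℝ) ^ n * r) e0 * ((min ((4 : ℝ) ^ n) 2) ^ (3 / 4 : ℝ) / (4 : ℝ) ^ n) ≤
      Q K r e0 n := by
  rw [four_zpow]
  set t : ℝ := (2 : ℝ) ^ n with ht
  have ht0 : 0 < t := zpow_pos (by norm_num) n
  have hm0 : 0 ≤ min (t * r) e0 := by positivity
  have h1 := hz_nonneg n
  have h2 := hq_nonneg (n + K)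
  have hs2 := s2pos
  rcases le_or_gt n 0 with hn | hn
  · have ht1 : t ≤ 1 := by
      rw [ht]
      exact zpow_le_one_of_nonpos₀ (by norm_num) hn
    obtain ⟨y, hy⟩ : ∃ y, y = t * (r / e0) := ⟨_, rfl⟩
    have hy1 : (2 : ℝ) ^ (n + K) ≤ y := by
      rw [hy, zpow_add₀ (by norm_num)]
      exact mul_le_mul_of_nonneg_left hK1 ht0.le
    have hy2 : y < (2 : ℝ) ^ (n + K + 1) := by
      rw [hy, add_assoc, zpow_add₀ (by norm_num)]
      exact mul_lt_mul_of_pos_left hK2 ht0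
    have hy0 : 0 < y := by rw [hy]; positivity
    have h3 := min_hq hy1 hy2
    have h4 : min (t * r) e0 = e0 * min y 1 := by
      rw [mul_min_of_nonneg _ _ he0.le, mul_one, hy]
      congr 1
      field_simp
    have h5 : e0 * Real.sqrt y = Real.sqrt (r * e0) * Real.sqrt t := by
      have h6 : e0 * Real.sqrt y = Real.sqrt (e0 ^ 2 * y) := by
        rw [Real.sqrt_mul (by positivity), Real.sqrt_sq he0.le]
      rw [h6, ← Real.sqrt_mul (by positivity)]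
      congr 1
      rw [hy]
      field_simp
    have h7 := rp ht0 ht1
    obtain ⟨ρ, hρ⟩ : ∃ ρ, ρ = (min (t ^ 2) 2) ^ (3 / 4 : ℝ) / t ^ 2 := ⟨_, rfl⟩
    rw [← hρ] at h7 ⊢
    have hρ0 : 0 ≤ ρ := by rw [hρ]; positivity
    have h8 : 0 ≤ 2 * e0 * hz n := by positivity
    calc min (t * r) e0 * ρ = e0 * min y 1 * ρ := by rw [h4]
      _ ≤ e0 * (Real.sqrt y * (Real.sqrt 2 * hq (n + K))) * ρ := by
          refine mul_le_mul_of_nonneg_right ?_ hρ0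
          exact mul_le_mul_of_nonneg_left h3 he0.le
      _ = (e0 * Real.sqrt y) * (Real.sqrt 2 * hq (n + K)) * ρ := by ring
      _ = Real.sqrt 2 * Real.sqrt (r * e0) * hq (n + K) * (ρ * Real.sqrt t) := by
          rw [h5]
          ring
      _ = Real.sqrt 2 * Real.sqrt (r * e0) * hq (n + K) := by rw [h7, mul_one]
      _ ≤ Q K r e0 n := by
          rw [Q]
          linarith
  · have h4 : hz n * t = 1 := hz_nonneg' hn.le
    have ht1 : 1 ≤ t := by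
      rw [ht]
      exact one_le_zpow₀ (by norm_num) hn.le
    have h6 : (min (t ^ 2) 2) ^ (3 / 4 : ℝ) ≤ 2 := by
      calc (min (t ^ 2) 2) ^ (3 / 4 : ℝ) ≤ (2 : ℝ) ^ (3 / 4 : ℝ) :=
            Real.rpow_le_rpow (by positivity) (min_le_right _ _) (by norm_num)
        _ ≤ (2 : ℝ) ^ (1 : ℝ) := Real.rpow_le_rpow_of_exponent_le (by norm_num) (by norm_num)
        _ = 2 := Real.rpow_one 2
    have h5 : (min (t ^ 2) 2) ^ (3 / 4 : ℝ) / t ^ 2 ≤ 2 * hz n := by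
      rw [div_le_iff₀ (by positivity)]
      calc (min (t ^ 2) 2) ^ (3 / 4 : ℝ) ≤ 2 := h6
        _ = 2 * (hz n * t) := by rw [h4]; ring
        _ ≤ 2 * (hz n * t) * t := le_mul_of_one_le_right (by rw [h4]; norm_num) ht1
        _ = 2 * hz n * t ^ 2 := by ring
    have h7 : 0 ≤ Real.sqrt 2 * Real.sqrt (r * e0) * hq (n + K) := by positivity
    calc min (t * r) e0 * ((min (t ^ 2) 2) ^ (3 / 4 : ℝ) / t ^ 2) ≤ e0 * (2 * hz n) :=
          mul_le_mul (min_le_right _ _) h5 (by positivity) he0.le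
      _ ≤ Q K r e0 n := by
          rw [Q]
          linarith

/-- the cost of one step -/
theorem cost {V r e0 G : ℝ} (hV : 0 ≤ V) (hr : 0 < r) (he0 : 0 < e0) (hG0 : 0 ≤ G)
    (hG : G ≤ r * Real.sqrt V) {K : ℤ} (hK1 : (2 : ℝ) ^ K ≤ r / e0)
    (hK2 : r / e0 < (2 : ℝ) ^ (K + 1)) (n : ℤ) :
    min ((2 : ℝ) ^ n * r) e0 * (min ((4 : ℝ) ^ n) 2) ^ (3 / 4 : ℝ) *
      (G ^ 2 / ((2 : ℝ) ^ n * r) ^ 2 + V / (4 : ℝ) ^ n) ≤ 2 * V * Q K r e0 n := by
  have h1 := Q_le hr he0 hK1 hK2 n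
  have ht0 : (0 : ℝ) < 2 ^ n := zpow_pos (by norm_num) n
  have h40 : (0 : ℝ) < 4 ^ n := zpow_pos (by norm_num) n
  have h2 : G ^ 2 ≤ r ^ 2 * V := by
    calc G ^ 2 ≤ (r * Real.sqrt V) ^ 2 := pow_le_pow_left₀ hG0 hG 2
      _ = r ^ 2 * V := by rw [mul_pow, Real.sq_sqrt hV]
  have h3 : G ^ 2 / ((2 : ℝ) ^ n * r) ^ 2 ≤ V / (4 : ℝ) ^ n := by
    rw [mul_pow, ← four_zpow, div_le_div_iff₀ (by positivity) h40]
    calc G ^ 2 * (4 : ℝ) ^ n ≤ r ^ 2 * V * (4 : ℝ) ^ n := mul_le_mul_of_nonneg_right h2 h40.le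
      _ = V * ((4 : ℝ) ^ n * r ^ 2) := by ring
  have h4 : 0 ≤ min ((2 : ℝ) ^ n * r) e0 * (min ((4 : ℝ) ^ n) 2) ^ (3 / 4 : ℝ) := by positivity
  calc min ((2 : ℝ) ^ n * r) e0 * (min ((4 : ℝ) ^ n) 2) ^ (3 / 4 : ℝ) *
      (G ^ 2 / ((2 : ℝ) ^ n * r) ^ 2 + V / (4 : ℝ) ^ n) ≤
        min ((2 : ℝ) ^ n * r) e0 * (min ((4 : ℝ) ^ n) 2) ^ (3 / 4 : ℝ) *
          (V / (4 : ℝ) ^ n + V / (4 : ℝ) ^ n) :=
        mul_le_mul_of_nonneg_left (by linarith) h4
    _ = 2 * V * (min ((2 : ℝ) ^ n * r) e0 *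
          ((min ((4 : ℝ) ^ n) 2) ^ (3 / 4 : ℝ) / (4 : ℝ) ^ n)) := by
        field_simp
        ring
    _ ≤ 2 * V * Q K r e0 n := mul_le_mul_of_nonneg_left h1 (by positivity)

theorem sum_Q_le {r e0 : ℝ} (he0 : 0 < e0) (K : ℤ) (n0 : ℤ) (m : ℕ) :
    ∑ j ∈ Finset.range m, Q K r e0 (n0 - j) ≤
      2 * e0 * (∑' z, hz z) + Real.sqrt 2 * Real.sqrt (r * e0) * (∑' z, hq z) := by
  have h1 := sum_hz_le n0 m
  have h2 := sum_hq_le (n0 + K) m
  have h6 : ∑ j ∈ Finset.range m, Q K r e0 (n0 - j) =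
      2 * e0 * ∑ j ∈ Finset.range m, hz (n0 - j) +
      Real.sqrt 2 * Real.sqrt (r * e0) * ∑ j ∈ Finset.range m, hq (n0 + K - j) := by
    rw [Finset.mul_sum, Finset.mul_sum, ← Finset.sum_add_distrib]
    refine Finset.sum_congr rfl fun j _ => ?_
    rw [Q, show n0 - (j : ℤ) + K = n0 + K - j by ring]
  rw [h6]
  have h3 : 0 ≤ Real.sqrt 2 * Real.sqrt (r * e0) := by positivity
  have h4 := mul_le_mul_of_nonneg_left h1 (show 0 ≤ 2 * e0 by positivity)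
  have h5 := mul_le_mul_of_nonneg_left h2 h3
  linarith

theorem vav_zero {φ : ℝ → ℂ} {L : ℕ} {p q : ℕ → ℝ → ℝ} {a : ℕ → ℝ → ℂ}
    (ha : ∀ᵐ x, ∀ j < L, a j x = 0) (s : Tile) : vav φ L p q a s = 0 := by
  classical
  unfold vav
  rw [← integral_zero ℝ ℂ]
  refine integral_congr_ae ?_
  filter_upwards [ha] with x h
  have h1 : vc L p q a s x = 0 := by
    unfold vc
    refine Finset.sum_eq_zero fun j hj => ?_
    rw [Set.indicator_apply, h j (Finset.mem_range.1 hj)]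
    simp
  rw [h1, zero_mul]

end VSUM_

open Pool.Agent.CAR.SUM_ VSUM_ in
/-- VSUM -/
theorem p_VSUM (h1 : T_VDNB) (h2 : T_VSTP) : T_VSUM := by
  classical
  intro A
  obtain ⟨C0, hC0, hstep⟩ := h2 A
  obtain ⟨Z, hZ⟩ : ∃ Z : ℝ, Z = ∑' z, hz z := ⟨_, rfl⟩
  obtain ⟨Y, hY⟩ : ∃ Y : ℝ, Y = ∑' z, hq z := ⟨_, rfl⟩
  have hZ0 : 0 ≤ Z := by rw [hZ]; exact tsum_hz_nonneg
  have hY0 : 0 ≤ Y := by rw [hY]; exact tsum_hq_nonneg
  refine ⟨2 * C0 * (2 * Z + Real.sqrt 2 * Y + 1), by positivity, ?_⟩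
  intro φ Φ g hW hg L p q a E hPQ hAB S r e0 hr he0 hgr hEn
  set f : Tile → ℝ := fun s => cc Φ g s * ‖vav φ L p q a s‖ with hf
  have hf0 : ∀ s, 0 ≤ f s := fun s => mul_nonneg (norm_nonneg _) (norm_nonneg _)
  change ∑ s ∈ S, f s ≤ _
  have hV0 : 0 ≤ vol E := ENNReal.toReal_nonneg
  rcases hV0.eq_or_lt with he | he
  · -- `a = 0`
    have h2 : volume E = 0 := by
      rcases (ENNReal.toReal_eq_zero_iff _).1 he.symm with h | h
      · exact h
      · exact absurd h hAB.fE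
    have h4 : ∀ᵐ x, ∀ j < L, a j x = 0 := by
      have h3 : ∀ᵐ x, x ∉ E := measure_eq_zero_iff_ae_notMem.1 h2
      filter_upwards [h3] with x h
      exact fun j hj => hAB.z j hj x h
    have h5 : ∑ s ∈ S, f s = 0 := by
      refine Finset.sum_eq_zero fun s _ => ?_
      simp only [hf, vav_zero h4 s, norm_zero, mul_zero]
    rw [h5, ← he]
    simp
  -- the main case
  obtain ⟨K, hK1, hK2⟩ := exists_mem_Ico_zpow (x := r / e0) (y := 2) (by positivity) (by norm_num)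
  have hc0 : ∀ s, 0 ≤ cc Φ g s := fun s => norm_nonneg _
  have hG0 : 0 ≤ n2 g := Real.sqrt_nonneg _
  obtain ⟨n0, hn0, hEn0⟩ := start (c := cc Φ g) S hr one_pos
  rw [div_one] at hEn0
  have key : ∀ m : ℕ, ∃ S' ⊆ S, En (cc Φ g) S' ((2 : ℝ) ^ ((n0 : ℤ) - m) * r) ∧
      VMs L p a S' ((4 : ℝ) ^ ((n0 : ℤ) - m)) ∧
      ∑ s ∈ S \ S', f s ≤ C0 * (2 * vol E) *
        ∑ j ∈ Finset.range m, Q K r e0 ((n0 : ℤ) - j) := by
    intro m
    induction m with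
    | zero =>
      refine ⟨S, subset_refl _, ?_, ?_, ?_⟩
      · simpa using hEn0
      · intro s hs u hu
        have h3 := (h1 L p q a E hPQ hAB u).2.1
        simp only [Nat.cast_zero, sub_zero, zpow_natCast]
        exact h3.trans hn0.le
      · simp
    | succ m ih =>
      obtain ⟨S', hS', hE', hM', hsum'⟩ := ih
      set n : ℤ := (n0 : ℤ) - m with hn
      have hn1 : (n0 : ℤ) - ((m + 1 : ℕ) : ℤ) = n - 1 := by rw [hn]; push_cast; ring
      have hEnS' : En (cc Φ g) S' e0 := by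
        intro T K' Λ ξ hT hP
        exact hEn T K' Λ ξ (hT.trans hS') hP
      obtain ⟨S'', hS'', hE'', hM'', hsum''⟩ := hstep φ Φ g hW hg L p q a E hPQ hAB S'
        ((2 : ℝ) ^ n * r) ((4 : ℝ) ^ n) e0 (by positivity) (by positivity) he0.le hEnS' hE' hM'
      refine ⟨S'', hS''.trans hS', ?_, ?_, ?_⟩
      · rw [hn1]
        have h3 : (2 : ℝ) ^ (n - 1) * r = (2 : ℝ) ^ n * r / 2 := by
          rw [zpow_sub_one₀ (by norm_num)]
          ring
        rw [h3]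
        exact hE''
      · rw [hn1]
        have h3 : (4 : ℝ) ^ (n - 1) = (4 : ℝ) ^ n / 4 := by
          rw [zpow_sub_one₀ (by norm_num)]
          ring
        rw [h3]
        exact hM''
      · have hsub : S \ S'' ⊆ (S \ S') ∪ (S' \ S'') := by
          intro s hs
          rw [Finset.mem_sdiff] at hs
          rw [Finset.mem_union, Finset.mem_sdiff, Finset.mem_sdiff]
          by_cases h : s ∈ S'
          · right; exact ⟨h, hs.2⟩
          · left; exact ⟨hs.1, h⟩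
        have hdis : Disjoint (S \ S') (S' \ S'') := by
          rw [Finset.disjoint_left]
          intro s hs hs'
          exact (Finset.mem_sdiff.1 hs).2 (Finset.mem_sdiff.1 hs').1
        have h3 : ∑ s ∈ S \ S'', f s ≤ ∑ s ∈ S \ S', f s + ∑ s ∈ S' \ S'', f s := by
          rw [← Finset.sum_union hdis]
          exact Finset.sum_le_sum_of_subset_of_nonneg hsub fun s _ _ => hf0 s
        have h4 := cost hV0 hr he0 hG0 hgr hK1 hK2 n
        have h5 : ∑ s ∈ S' \ S'', f s ≤ C0 * (2 * vol E * Q K r e0 n) := by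
          refine hsum''.trans ?_
          have h6 := mul_le_mul_of_nonneg_left h4 hC0.le
          refine le_trans (le_of_eq ?_) h6
          ring
        rw [Finset.sum_range_succ, mul_add]
        calc ∑ s ∈ S \ S'', f s ≤ ∑ s ∈ S \ S', f s + ∑ s ∈ S' \ S'', f s := h3
          _ ≤ C0 * (2 * vol E) * ∑ j ∈ Finset.range m, Q K r e0 ((n0 : ℤ) - j) +
              C0 * (2 * vol E * Q K r e0 n) := add_le_add hsum' h5
          _ = C0 * (2 * vol E) * ∑ j ∈ Finset.range m, Q K r e0 ((n0 : ℤ) - j) +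
              C0 * (2 * vol E) * Q K r e0 ((n0 : ℤ) - m) := by rw [hn]; ring
  -- the limit
  obtain ⟨B', hB'⟩ : ∃ B' : ℝ,
      B' = ∑ s ∈ S, Real.sqrt ((2 : ℝ) ^ s.k) * ‖vav φ L p q a s‖ := ⟨_, rfl⟩
  obtain ⟨W, hWdef⟩ : ∃ W : ℝ,
      W = 2 * e0 * Z + Real.sqrt 2 * Real.sqrt (r * e0) * Y := ⟨_, rfl⟩
  have hbound : ∀ m : ℕ, ∑ s ∈ S, f s ≤ C0 * (2 * vol E) * W +
      (2 : ℝ) ^ n0 * r * B' * (1 / 2 : ℝ) ^ m := by
    intro m
    obtain ⟨S', hS', hE', -, hsum'⟩ := key m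
    have h3 : ∑ s ∈ S, f s = ∑ s ∈ S \ S', f s + ∑ s ∈ S', f s :=
      (Finset.sum_sdiff hS').symm
    have heps : (2 : ℝ) ^ ((n0 : ℤ) - m) * r = (2 : ℝ) ^ n0 * r * (1 / 2 : ℝ) ^ m := by
      rw [zpow_sub₀ (by norm_num), zpow_natCast, zpow_natCast, one_div, inv_pow]
      ring
    have h4 : ∑ s ∈ S', f s ≤ (2 : ℝ) ^ n0 * r * B' * (1 / 2 : ℝ) ^ m := by
      have h5 : ∀ s ∈ S', f s ≤ (2 : ℝ) ^ ((n0 : ℤ) - m) * r *
          (Real.sqrt ((2 : ℝ) ^ s.k) * ‖vav φ L p q a s‖) := by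
        intro s hs
        have h6 := cc_le hc0 (by positivity) hE' hs
        calc f s = cc Φ g s * ‖vav φ L p q a s‖ := rfl
          _ ≤ ((2 : ℝ) ^ ((n0 : ℤ) - m) * r * Real.sqrt ((2 : ℝ) ^ s.k)) *
              ‖vav φ L p q a s‖ := mul_le_mul_of_nonneg_right h6 (norm_nonneg _)
          _ = _ := by ring
      calc ∑ s ∈ S', f s ≤ ∑ s ∈ S', (2 : ℝ) ^ ((n0 : ℤ) - m) * r *
            (Real.sqrt ((2 : ℝ) ^ s.k) * ‖vav φ L p q a s‖) := Finset.sum_le_sum h5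
        _ = (2 : ℝ) ^ ((n0 : ℤ) - m) * r *
            ∑ s ∈ S', Real.sqrt ((2 : ℝ) ^ s.k) * ‖vav φ L p q a s‖ := by rw [Finset.mul_sum]
        _ ≤ (2 : ℝ) ^ ((n0 : ℤ) - m) * r * B' := by
            refine mul_le_mul_of_nonneg_left ?_ (by positivity)
            rw [hB']
            exact Finset.sum_le_sum_of_subset_of_nonneg hS' fun s _ _ => by positivity
        _ = _ := by rw [heps]; ring
    have h5 : C0 * (2 * vol E) * ∑ j ∈ Finset.range m, Q K r e0 ((n0 : ℤ) - j) ≤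
        C0 * (2 * vol E) * W := by
      refine mul_le_mul_of_nonneg_left ?_ (by positivity)
      rw [hWdef, hZ, hY]
      exact sum_Q_le he0 K n0 m
    rw [h3]
    exact add_le_add (hsum'.trans h5) h4
  have hlim : Filter.Tendsto (fun m : ℕ => C0 * (2 * vol E) * W +
      (2 : ℝ) ^ n0 * r * B' * (1 / 2 : ℝ) ^ m) Filter.atTop
      (nhds (C0 * (2 * vol E) * W + (2 : ℝ) ^ n0 * r * B' * 0)) := by
    refine Filter.Tendsto.const_add _ (Filter.Tendsto.const_mul _ ?_)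
    exact tendsto_pow_atTop_nhds_zero_of_lt_one (by norm_num) (by norm_num)
  have hfin := ge_of_tendsto' hlim hbound
  rw [mul_zero, add_zero] at hfin
  have h7 : W ≤ (2 * Z + Real.sqrt 2 * Y + 1) * (e0 + Real.sqrt (r * e0)) := by
    rw [hWdef]
    have h8 : 0 ≤ Real.sqrt (r * e0) := Real.sqrt_nonneg _
    have h9 : 0 ≤ Real.sqrt 2 * Y := by positivity
    nlinarith [mul_nonneg h8 hZ0, mul_nonneg h9 he0.le, h8, he0.le]
  calc ∑ s ∈ S, f s ≤ C0 * (2 * vol E) * W := hfin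
    _ ≤ C0 * (2 * vol E) * ((2 * Z + Real.sqrt 2 * Y + 1) * (e0 + Real.sqrt (r * e0))) :=
        mul_le_mul_of_nonneg_left h7 (by positivity)
    _ = _ := by ring

end Pool.Agent.VRC
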