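import Pool.Agent.VRC.Targets
import Pool.Agent.CAR.P_TA1
import Pool.Agent.CAR.P_FXB
import Pool.Agent.CAR.P_WTI

set_option autoImplicit false

/-!
# VRC, VTA1: one interval (Bessel, Hoelder)
-/

namespace Pool.Agent.VRC

open MeasureTheory Set ComplexConjugate Filter Topology
open scoped ENNReal NNReal
open Pool.Agent.CAR

namespace VTA1_

/-- trigonometric polynomial -/
noncomputable def tp (S : Finset Tile) (w : Tile → ℂ) (y : ℝ) : ℂ := ∑ s ∈ S, w s * e1 (s.m * y)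

theorem e1_int (n : ℤ) : e1 n = 1 := by
  rw [e1]
  have h := Complex.exp_int_mul_two_pi_mul_I n
  rw [← h]
  congr 1
  push_cast
  ring

theorem int_e1 (n : ℤ) (y : ℝ) :
    ∫ a in (0 : ℝ)..1, e1 (n * (y - a)) = if n = 0 then 1 else 0 := by
  by_cases hn : n = 0
  · simp [hn, PK.e1_zero]
  · rw [if_neg hn]
    have hc : -(2 * Real.pi * Complex.I * (n : ℂ)) ≠ 0 := by
      have h1 := Complex.two_pi_I_ne_zero
      have h2 : (n : ℂ) ≠ 0 := Int.cast_ne_zero.2 hn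
      exact neg_ne_zero.2 (mul_ne_zero h1 h2)
    have e : ∀ a : ℝ, e1 (n * (y - a)) =
        e1 (n * y) * Complex.exp (-(2 * Real.pi * Complex.I * (n : ℂ)) * a) := by
      intro a
      rw [e1, e1, ← Complex.exp_add]
      congr 1
      push_cast
      ring
    simp_rw [e]
    rw [intervalIntegral.integral_const_mul, integral_exp_mul_complex hc]
    have h3 := Complex.exp_int_mul_two_pi_mul_I (-n)
    have h4 : Complex.exp (-(2 * Real.pi * Complex.I * (n : ℂ)) * (1 : ℝ)) = 1 := by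
      rw [← h3]
      congr 1
      push_cast
      ring
    rw [h4]
    simp

theorem int_tp (S : Finset Tile) (w : Tile → ℂ)
    (hS : ∀ s ∈ S, ∀ t ∈ S, s.m = t.m → s = t) (y : ℝ) :
    ∫ a in (0 : ℝ)..1, ‖tp S w (y - a)‖ ^ 2 = ∑ s ∈ S, ‖w s‖ ^ 2 := by
  have h1 : ((∫ a in (0 : ℝ)..1, ‖tp S w (y - a)‖ ^ 2 : ℝ) : ℂ) =
      ((∑ s ∈ S, ‖w s‖ ^ 2 : ℝ) : ℂ) := by
    rw [← intervalIntegral.integral_ofReal]
    have e : ∀ a : ℝ, ((‖tp S w (y - a)‖ ^ 2 : ℝ) : ℂ) =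
        ∑ s ∈ S, ∑ t ∈ S, (w s * conj (w t)) * e1 (((s.m - t.m : ℤ) : ℝ) * (y - a)) := by
      intro a
      push_cast
      rw [← Complex.mul_conj', tp, map_sum, Finset.sum_mul_sum]
      refine Finset.sum_congr rfl fun s _ => Finset.sum_congr rfl fun t _ => ?_
      rw [map_mul, PK.conj_e1, mul_mul_mul_comm, ← PK.e1_add]
      congr 2
      ring
    simp_rw [e]
    have hce : ∀ (c : ℂ) (n : ℤ), Continuous (fun a : ℝ => c * e1 ((n : ℝ) * (y - a))) := by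
      intro c n
      have := PK.continuous_e1
      fun_prop
    rw [intervalIntegral.integral_finsetSum]
    · rw [Complex.ofReal_sum]
      refine Finset.sum_congr rfl fun s hs => ?_
      rw [intervalIntegral.integral_finsetSum]
      · rw [Finset.sum_eq_single s]
        · rw [intervalIntegral.integral_const_mul, int_e1, sub_self, if_pos rfl, mul_one,
            Complex.mul_conj', Complex.ofReal_pow]
        · intro t ht hts
          rw [intervalIntegral.integral_const_mul, int_e1, if_neg, mul_zero]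
          intro h0
          exact hts (hS t ht s hs (by omega))
        · intro h0
          exact absurd hs h0
      · intro t _
        exact (hce _ _).intervalIntegrable _ _
    · intro s _
      exact (continuous_finsetSum _ fun t _ => hce _ _).intervalIntegrable _ _
  exact_mod_cast h1

theorem continuous_tp (S : Finset Tile) (w : Tile → ℂ) : Continuous (tp S w) := by
  have := PK.continuous_e1
  unfold tp
  fun_prop

theorem norm_tp (S : Finset Tile) (w : Tile → ℂ) (y : ℝ) : ‖tp S w y‖ ≤ ∑ s ∈ S, ‖w s‖ := by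
  refine (norm_sum_le _ _).trans (Finset.sum_le_sum fun s _ => ?_)
  rw [norm_mul, PK.norm_e1, mul_one]

theorem lint_tp (S : Finset Tile) (w : Tile → ℂ)
    (hS : ∀ s ∈ S, ∀ t ∈ S, s.m = t.m → s = t) (y : ℝ) :
    ∫⁻ a in Ioc (0 : ℝ) 1, ENNReal.ofReal (‖tp S w (y - a)‖ ^ 2) =
      ENNReal.ofReal (∑ s ∈ S, ‖w s‖ ^ 2) := by
  have hc : Continuous fun a : ℝ => ‖tp S w (y - a)‖ ^ 2 := by
    have := continuous_tp S w
    fun_prop
  rw [← int_tp S w hS y, intervalIntegral.integral_of_le zero_le_one,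
    ofReal_integral_eq_lintegral_ofReal]
  · exact (hc.integrableOn_Icc).mono_set Ioc_subset_Icc_self
  · exact Eventually.of_forall fun a => by positivity

theorem wt_cont (n : ℕ) : Continuous (wt n) := by
  unfold wt
  refine Continuous.inv₀ (by fun_prop) fun x => ?_
  have := abs_nonneg x
  positivity

theorem wt_shift (t a : ℝ) (h0 : 0 ≤ a) (h1 : a ≤ 1) : wt 30 t ≤ 2 ^ 30 * wt 30 (t + a) := by
  unfold wt
  have h2 : 1 + |t + a| ≤ 2 * (1 + |t|) := by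
    have h3 := abs_add_le t a
    rw [abs_of_nonneg h0] at h3
    have := abs_nonneg t
    linarith
  have h3 : 0 < 1 + |t + a| := by positivity
  have h4 : 0 < 1 + |t| := by positivity
  have h5 : (1 + |t + a|) ^ 30 ≤ 2 ^ 30 * (1 + |t|) ^ 30 := by
    rw [← mul_pow]
    exact pow_le_pow_left₀ h3.le h2 30
  have h6 : (2 ^ 30 * (1 + |t|) ^ 30 : ℝ)⁻¹ ≤ ((1 + |t + a|) ^ 30)⁻¹ :=
    inv_anti₀ (by positivity) h5
  rw [mul_inv] at h6
  calc ((1 + |t|) ^ 30)⁻¹ = 2 ^ 30 * ((2 ^ 30 : ℝ)⁻¹ * ((1 + |t|) ^ 30)⁻¹) := by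
        rw [← mul_assoc, mul_inv_cancel₀ (by norm_num), one_mul]
    _ ≤ _ := mul_le_mul_of_nonneg_left h6 (by norm_num)

/-- the weighted integral of a trigonometric polynomial -/
theorem key (S : Finset Tile) (w : Tile → ℂ) (hS : ∀ s ∈ S, ∀ t ∈ S, s.m = t.m → s = t)
    (k l : ℤ) :
    Integrable (fun x : ℝ => wt 30 ((2 : ℝ) ^ (-k) * x - l) * ‖tp S w ((2 : ℝ) ^ (-k) * x)‖ ^ 2) ∧
    ∫ x : ℝ, wt 30 ((2 : ℝ) ^ (-k) * x - l) * ‖tp S w ((2 : ℝ) ^ (-k) * x)‖ ^ 2 ≤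
      2 ^ 31 * (2 : ℝ) ^ k * ∑ s ∈ S, ‖w s‖ ^ 2 := by
  have hw := p_WTI 30 k l (by norm_num)
  have hcw := wt_cont 30
  have hct := continuous_tp S w
  have hW0 : ∀ t : ℝ, 0 ≤ wt 30 t := fun t => TA1_.wt_nonneg 30 t
  have hint : Integrable (fun x : ℝ => wt 30 ((2 : ℝ) ^ (-k) * x - l) *
      ‖tp S w ((2 : ℝ) ^ (-k) * x)‖ ^ 2) := by
    refine (hw.1.mul_const ((∑ s ∈ S, ‖w s‖) ^ 2)).mono'
      (Continuous.aestronglyMeasurable (by fun_prop)) (Eventually.of_forall fun x => ?_)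
    rw [Real.norm_eq_abs, abs_of_nonneg (mul_nonneg (hW0 _) (by positivity))]
    exact mul_le_mul_of_nonneg_left (pow_le_pow_left₀ (norm_nonneg _) (norm_tp S w _) 2) (hW0 _)
  refine ⟨hint, ?_⟩
  set M : ℝ := ∑ s ∈ S, ‖w s‖ ^ 2 with hM
  have hM0 : 0 ≤ M := Finset.sum_nonneg fun s _ => by positivity
  have hk := two_zpow_pos k
  rw [← ENNReal.ofReal_le_ofReal_iff (by positivity), ofReal_integral_eq_lintegral_ofReal hint
    (Eventually.of_forall fun x => mul_nonneg (hW0 _) (by positivity))]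
  calc ∫⁻ x : ℝ, ENNReal.ofReal (wt 30 ((2 : ℝ) ^ (-k) * x - l) *
        ‖tp S w ((2 : ℝ) ^ (-k) * x)‖ ^ 2)
      = ∫⁻ a in Ioc (0 : ℝ) 1, ∫⁻ x : ℝ, ENNReal.ofReal (wt 30 ((2 : ℝ) ^ (-k) * x - l) *
        ‖tp S w ((2 : ℝ) ^ (-k) * x)‖ ^ 2) := by simp
    _ ≤ ∫⁻ a in Ioc (0 : ℝ) 1, ∫⁻ x : ℝ, ENNReal.ofReal (2 ^ 30 * wt 30 ((2 : ℝ) ^ (-k) * x - l) *
        ‖tp S w ((2 : ℝ) ^ (-k) * x - a)‖ ^ 2) := by
        refine setLIntegral_mono' measurableSet_Ioc fun a ha => ?_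
        rw [← lintegral_sub_right_eq_self (fun x : ℝ => ENNReal.ofReal
          (wt 30 ((2 : ℝ) ^ (-k) * x - l) * ‖tp S w ((2 : ℝ) ^ (-k) * x)‖ ^ 2))
          ((2 : ℝ) ^ k * a)]
        refine lintegral_mono fun x => ENNReal.ofReal_le_ofReal ?_
        have e : (2 : ℝ) ^ (-k) * (x - (2 : ℝ) ^ k * a) = (2 : ℝ) ^ (-k) * x - a := by
          rw [mul_sub, ← mul_assoc, two_zpow_neg_mul, one_mul]
        simp only [e]
        refine mul_le_mul_of_nonneg_right ?_ (by positivity)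
        have h5 := wt_shift ((2 : ℝ) ^ (-k) * x - a - l) a ha.1.le ha.2
        rwa [show (2 : ℝ) ^ (-k) * x - a - l + a = (2 : ℝ) ^ (-k) * x - l by ring] at h5
    _ = ∫⁻ x : ℝ, ∫⁻ a in Ioc (0 : ℝ) 1, ENNReal.ofReal (2 ^ 30 *
        wt 30 ((2 : ℝ) ^ (-k) * x - l) * ‖tp S w ((2 : ℝ) ^ (-k) * x - a)‖ ^ 2) := by
        refine lintegral_lintegral_swap ?_
        refine Measurable.aemeasurable (Measurable.ennreal_ofReal ?_)
        refine Continuous.measurable ?_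
        fun_prop
    _ = ∫⁻ x : ℝ, ENNReal.ofReal (2 ^ 30 * M * wt 30 ((2 : ℝ) ^ (-k) * x - l)) := by
        refine lintegral_congr fun x => ?_
        have e : ∀ a : ℝ, ENNReal.ofReal (2 ^ 30 *
            wt 30 ((2 : ℝ) ^ (-k) * x - l) * ‖tp S w ((2 : ℝ) ^ (-k) * x - a)‖ ^ 2) =
            ENNReal.ofReal (2 ^ 30 * wt 30 ((2 : ℝ) ^ (-k) * x - l)) *
              ENNReal.ofReal (‖tp S w ((2 : ℝ) ^ (-k) * x - a)‖ ^ 2) := fun a =>
          ENNReal.ofReal_mul (mul_nonneg (by norm_num) (hW0 _))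
        simp_rw [e]
        rw [lintegral_const_mul _ (by
          refine Measurable.ennreal_ofReal (Continuous.measurable ?_)
          fun_prop), lint_tp S w hS, ← ENNReal.ofReal_mul (mul_nonneg (by norm_num) (hW0 _))]
        congr 1
        ring
    _ = ENNReal.ofReal (∫ x : ℝ, 2 ^ 30 * M * wt 30 ((2 : ℝ) ^ (-k) * x - l)) := by
        rw [ofReal_integral_eq_lintegral_ofReal (hw.1.const_mul _)
          (Eventually.of_forall fun x => mul_nonneg (by positivity) (hW0 _))]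
    _ ≤ ENNReal.ofReal (2 ^ 31 * (2 : ℝ) ^ k * M) := by
        refine ENNReal.ofReal_le_ofReal ?_
        rw [integral_const_mul]
        calc 2 ^ 30 * M * ∫ x : ℝ, wt 30 ((2 : ℝ) ^ (-k) * x - l)
            ≤ 2 ^ 30 * M * (2 * (2 : ℝ) ^ k) :=
              mul_le_mul_of_nonneg_left hw.2 (by positivity)
          _ = 2 ^ 31 * (2 : ℝ) ^ k * M := by ring

/-- Bessel's inequality -/
theorem bes {A : ℝ} {φ Φ : ℝ → ℂ} (h : WPk A φ Φ) {f : ℝ → ℂ} {F : Set ℝ} (hf : BF 1 F f)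
    {k l : ℤ} {S : Finset Tile} (hS : ∀ s ∈ S, s.k = k ∧ s.l = l) :
    ∑ s ∈ S, ‖cf φ f s‖ ^ 2 ≤
      2 ^ 31 * A ^ 2 * ∫ x in F, wt 10 ((2 : ℝ) ^ (-k) * x - l) := by
  have hinj : ∀ s ∈ S, ∀ t ∈ S, s.m = t.m → s = t := by
    intro s hs t ht hm
    obtain ⟨k1, l1⟩ := hS s hs
    obtain ⟨k2, l2⟩ := hS t ht
    exact Tile.ext (k1.trans k2.symm) (l1.trans l2.symm) hm
  set w : Tile → ℂ := fun s => cf φ f s with hw
  obtain ⟨hki, hkb⟩ := key S w hinj k l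
  set M : ℝ := ∑ s ∈ S, ‖w s‖ ^ 2 with hM
  set IF : ℝ := ∫ x in F, wt 10 ((2 : ℝ) ^ (-k) * x - l) with hIF
  have hk := two_zpow_pos k
  set d : ℝ := (Real.sqrt ((2 : ℝ) ^ k))⁻¹ with hd
  have hd0 : 0 ≤ d := by positivity
  have hd2 : d ^ 2 * (2 : ℝ) ^ k = 1 := by
    rw [hd, inv_pow, Real.sq_sqrt hk.le, inv_mul_cancel₀ hk.ne']
  have hA := h.pos
  have hW0 : ∀ (n : ℕ) (t : ℝ), 0 ≤ wt n t := TA1_.wt_nonneg
  -- the function `G`
  have hG : ∀ x : ℝ, ∑ s ∈ S, w s * fx φ s x =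
      (d : ℂ) * φ ((2 : ℝ) ^ (-k) * x - l) * tp S w ((2 : ℝ) ^ (-k) * x) := by
    intro x
    rw [tp, Finset.mul_sum]
    refine Finset.sum_congr rfl fun s hs => ?_
    obtain ⟨k1, l1⟩ := hS s hs
    rw [fx, Tile.u, k1, l1, show (2 : ℝ) ^ (-k) * s.m * x = s.m * ((2 : ℝ) ^ (-k) * x) by ring]
    ring
  have hfi : ∀ s, Integrable (fun x => f x * conj (fx φ s x)) := by
    intro s
    obtain ⟨hc, -, -, -, -, hi, -⟩ := p_FXB A φ Φ h s
    refine hi.norm.mono' ?_ (Eventually.of_forall fun x => ?_)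
    · exact (hf.m.mul (Complex.continuous_conj.measurable.comp hc.measurable)).aestronglyMeasurable
    · rw [norm_mul, Complex.norm_conj]
      exact mul_le_of_le_one_left (norm_nonneg _) (hf.bd x)
  have e1 : ((M : ℝ) : ℂ) = ∫ x, f x * conj (∑ s ∈ S, w s * fx φ s x) := by
    have e2 : ∀ x, f x * conj (∑ s ∈ S, w s * fx φ s x) =
        ∑ s ∈ S, conj (w s) * (f x * conj (fx φ s x)) := by
      intro x
      rw [map_sum, Finset.mul_sum]
      refine Finset.sum_congr rfl fun s _ => ?_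
      rw [map_mul]
      ring
    simp_rw [e2]
    rw [integral_finsetSum _ fun s _ => (hfi s).const_mul _, hM]
    push_cast
    refine Finset.sum_congr rfl fun s _ => ?_
    rw [integral_const_mul, ← Complex.conj_mul']
    rfl
  have hcw10 : Integrable (fun x : ℝ => wt 10 ((2 : ℝ) ^ (-k) * x - l)) :=
    (p_WTI 10 k l (by norm_num)).1
  have hgi : Integrable (fun x => F.indicator (fun x => 2 ^ 30 * A ^ 2 *
      wt 10 ((2 : ℝ) ^ (-k) * x - l)) x + (2 ^ 32 : ℝ)⁻¹ * d ^ 2 *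
      (wt 30 ((2 : ℝ) ^ (-k) * x - l) * ‖tp S w ((2 : ℝ) ^ (-k) * x)‖ ^ 2)) :=
    ((hcw10.const_mul _).indicator hf.mF).add (hki.const_mul _)
  have h1 : ‖((M : ℝ) : ℂ)‖ ≤ ∫ x, (F.indicator (fun x => 2 ^ 30 * A ^ 2 *
      wt 10 ((2 : ℝ) ^ (-k) * x - l)) x + (2 ^ 32 : ℝ)⁻¹ * d ^ 2 *
      (wt 30 ((2 : ℝ) ^ (-k) * x - l) * ‖tp S w ((2 : ℝ) ^ (-k) * x)‖ ^ 2)) := by
    rw [e1]
    refine norm_integral_le_of_norm_le hgi (Eventually.of_forall fun x => ?_)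
    rw [norm_mul, Complex.norm_conj]
    have hpos : 0 ≤ (2 ^ 32 : ℝ)⁻¹ * d ^ 2 *
      (wt 30 ((2 : ℝ) ^ (-k) * x - l) * ‖tp S w ((2 : ℝ) ^ (-k) * x)‖ ^ 2) :=
      mul_nonneg (by positivity) (mul_nonneg (hW0 _ _) (by positivity))
    by_cases hx : x ∈ F
    · rw [indicator_of_mem hx, hG x, norm_mul, norm_mul, Complex.norm_real, Real.norm_eq_abs,
        abs_of_nonneg hd0]
      set t : ℝ := (2 : ℝ) ^ (-k) * x - l with ht
      set P : ℝ := ‖tp S w ((2 : ℝ) ^ (-k) * x)‖ with hP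
      have hP0 : 0 ≤ P := norm_nonneg _
      have hde := h.dec t
      have h5 : wt 20 t = wt 5 t * wt 15 t := by
        unfold wt
        rw [← mul_inv, ← pow_add]
      have h6 : wt 10 t = wt 5 t ^ 2 := by
        unfold wt
        rw [inv_pow, ← pow_mul]
      have h7 : wt 30 t = wt 15 t ^ 2 := by
        unfold wt
        rw [inv_pow, ← pow_mul]
      have h8 : ‖f x‖ * (d * ‖φ t‖ * P) ≤ (A * wt 5 t) * (d * wt 15 t * P) := by
        calc ‖f x‖ * (d * ‖φ t‖ * P) ≤ 1 * (d * (A * wt 20 t) * P) := by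
              refine mul_le_mul (hf.bd x) ?_ (by positivity) zero_le_one
              exact mul_le_mul_of_nonneg_right (mul_le_mul_of_nonneg_left hde hd0) hP0
          _ = (A * wt 5 t) * (d * wt 15 t * P) := by rw [h5]; ring
      refine h8.trans ?_
      rw [h6, h7]
      set a : ℝ := A * wt 5 t with ha
      set b : ℝ := d * wt 15 t * P with hb
      have h9 : a * b ≤ 2 ^ 30 * a ^ 2 + (2 ^ 32 : ℝ)⁻¹ * b ^ 2 := by
        have := sq_nonneg (2 ^ 15 * a - (2 ^ 16 : ℝ)⁻¹ * b)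
        nlinarith
      calc a * b ≤ 2 ^ 30 * a ^ 2 + (2 ^ 32 : ℝ)⁻¹ * b ^ 2 := h9
        _ = _ := by rw [ha, hb]; ring
    · rw [indicator_of_notMem hx, hf.z x hx, norm_zero, zero_mul, zero_add]
      exact hpos
  rw [integral_add ((hcw10.const_mul _).indicator hf.mF) (hki.const_mul _),
    integral_indicator hf.mF, integral_const_mul, integral_const_mul, Complex.norm_real,
    Real.norm_eq_abs] at h1
  have h2 : (2 ^ 32 : ℝ)⁻¹ * d ^ 2 * ∫ x : ℝ, wt 30 ((2 : ℝ) ^ (-k) * x - l) *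
      ‖tp S w ((2 : ℝ) ^ (-k) * x)‖ ^ 2 ≤ M / 2 := by
    calc (2 ^ 32 : ℝ)⁻¹ * d ^ 2 * ∫ x : ℝ, wt 30 ((2 : ℝ) ^ (-k) * x - l) *
          ‖tp S w ((2 : ℝ) ^ (-k) * x)‖ ^ 2
        ≤ (2 ^ 32 : ℝ)⁻¹ * d ^ 2 * (2 ^ 31 * (2 : ℝ) ^ k * M) :=
          mul_le_mul_of_nonneg_left hkb (by positivity)
      _ = (2 ^ 32 : ℝ)⁻¹ * 2 ^ 31 * (d ^ 2 * (2 : ℝ) ^ k) * M := by ring
      _ = M / 2 := by rw [hd2]; norm_num; ring
  have h3 := le_abs_self M
  have h4 : M ≤ 2 ^ 30 * A ^ 2 * IF + M / 2 := by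
    refine h3.trans (h1.trans ?_)
    exact add_le_add le_rfl h2
  have h5 : M ≤ 2 ^ 31 * A ^ 2 * IF := by
    have e : (2 : ℝ) ^ 31 = 2 * 2 ^ 30 := by norm_num
    rw [e]
    linarith
  exact h5

/-- the sum of the fourth powers -/
theorem four {A : ℝ} {φ Φ : ℝ → ℂ} (h : WPk A φ Φ) {f : ℝ → ℂ} {F : Set ℝ} (hf : BF 1 F f)
    {k l : ℤ} {S : Finset Tile} (hS : ∀ s ∈ S, s.k = k ∧ s.l = l) :
    ∑ s ∈ S, ‖cf φ f s‖ ^ 4 ≤ 2 ^ 31 * A ^ 4 * (2 : ℝ) ^ (-k) *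
      (∫ x in F, wt 10 ((2 : ℝ) ^ (-k) * x - l)) ^ 3 := by
  set IF : ℝ := ∫ x in F, wt 10 ((2 : ℝ) ^ (-k) * x - l) with hIF
  have hA := h.pos
  have hIF0 : 0 ≤ IF := integral_nonneg fun x => TA1_.wt_nonneg _ _
  have h0 := two_zpow_pos (-k)
  have h1 : ∀ s ∈ S, ‖cf φ f s‖ ^ 2 ≤ A ^ 2 * (2 : ℝ) ^ (-k) * IF ^ 2 := by
    intro s hsS
    obtain ⟨k1, l1⟩ := hS s hsS
    have h2 := TA1_.cf_le h k1 l1 hf
    have h3 : ∫ x in F, wt 20 ((2 : ℝ) ^ (-k) * x - l) ≤ IF := by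
      refine integral_mono (p_WTI 20 k l (by norm_num)).1.integrableOn
        (p_WTI 10 k l (by norm_num)).1.integrableOn fun x => ?_
      unfold wt
      refine inv_anti₀ (by positivity) (pow_le_pow_right₀ ?_ (by norm_num))
      have := abs_nonneg ((2 : ℝ) ^ (-k) * x - l)
      linarith
    have h4 : ‖cf φ f s‖ ≤ A * hs s * IF :=
      h2.trans (mul_le_mul_of_nonneg_left h3 (mul_nonneg hA.le (TA1_.hs_nonneg s)))
    have h5 := TA1_.hs_sq s
    rw [k1] at h5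
    calc ‖cf φ f s‖ ^ 2 ≤ (A * hs s * IF) ^ 2 := pow_le_pow_left₀ (norm_nonneg _) h4 2
      _ = A ^ 2 * (hs s * hs s) * IF ^ 2 := by ring
      _ = _ := by rw [h5]
  calc ∑ s ∈ S, ‖cf φ f s‖ ^ 4 ≤ ∑ s ∈ S, (A ^ 2 * (2 : ℝ) ^ (-k) * IF ^ 2) * ‖cf φ f s‖ ^ 2 := by
        refine Finset.sum_le_sum fun s hs => ?_
        calc ‖cf φ f s‖ ^ 4 = ‖cf φ f s‖ ^ 2 * ‖cf φ f s‖ ^ 2 := by ring
          _ ≤ _ := mul_le_mul_of_nonneg_right (h1 s hs) (by positivity)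
    _ = (A ^ 2 * (2 : ℝ) ^ (-k) * IF ^ 2) * ∑ s ∈ S, ‖cf φ f s‖ ^ 2 := by rw [Finset.mul_sum]
    _ ≤ (A ^ 2 * (2 : ℝ) ^ (-k) * IF ^ 2) * (2 ^ 31 * A ^ 2 * IF) :=
        mul_le_mul_of_nonneg_left (bes h hf hS) (by positivity)
    _ = _ := by ring

end VTA1_

open VTA1_ in
theorem p_VTA1 (h1 : T_VBAS) : T_VTA1 := by
  intro A
  refine ⟨2 ^ 8 * A ^ 2 + 1, by positivity, ?_⟩
  intro φ Φ h f F L p q a E hf hpq hab k l S hS
  obtain ⟨-, hb2, hb3, hb4, hb5, hb6, hb7⟩ := h1 L p q a 1 E hpq hab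
  set IF : ℝ := ∫ x in F, wt 10 ((2 : ℝ) ^ (-k) * x - l) with hIF
  set IE : ℝ := ∫ x in E, wt 20 ((2 : ℝ) ^ (-k) * x - l) with hIE
  have hA := h.pos
  have hIF0 : 0 ≤ IF := integral_nonneg fun x => TA1_.wt_nonneg _ _
  have hIE0 : 0 ≤ IE := integral_nonneg fun x => TA1_.wt_nonneg _ _
  have hk := two_zpow_pos k
  have hk' := two_zpow_pos (-k)
  set d : ℝ := (Real.sqrt ((2 : ℝ) ^ k))⁻¹ with hd
  have hd0 : 0 ≤ d := by positivity
  -- the fourth root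
  set N4 : ℝ := (∑ s ∈ S, ‖cf φ f s‖ ^ 4) ^ (1 / 4 : ℝ) with hN4
  have hN40 : 0 ≤ N4 := by positivity
  have h4 : ∑ s ∈ S, ‖cf φ f s‖ ^ 4 ≤ 2 ^ 31 * A ^ 4 * (2 : ℝ) ^ (-k) * IF ^ 3 := four h hf hS
  -- pointwise
  have hpt : ∀ x : ℝ, ∑ s ∈ S, ‖cf φ f s‖ * ‖vc L p q a s x‖ ≤
      E.indicator (fun _ => N4) x := by
    intro x
    have hdis : ∀ s ∈ S, ∀ t ∈ S, s ≠ t → Disjoint s.up t.up := by
      intro s hs' t ht hst
      rw [Set.disjoint_left]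
      intro y hx1 hx2
      apply hst
      obtain ⟨k1, l1⟩ := hS s hs'
      obtain ⟨k2, l2⟩ := hS t ht
      rw [Tile.up, k1] at hx1
      rw [Tile.up, k2] at hx2
      have hm := dy_eq_of_mem hx1 hx2
      exact Tile.ext (k1.trans k2.symm) (l1.trans l2.symm) (by omega)
    have h5 : ∑ s ∈ S, ‖vc L p q a s x‖ ^ (4 / 3 : ℝ) ≤ vm L p a univ x :=
      (Finset.sum_le_sum fun s _ => hb2 s x).trans
        (hb7 S (fun s => s.up) univ x hdis fun s _ => subset_univ _)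
    obtain ⟨h6, h7, h8⟩ := hb4 univ x
    have hc : (4 : ℝ).HolderConjugate (4 / 3) := by
      rw [Real.holderConjugate_iff]
      norm_num
    have h9 := Real.inner_le_Lp_mul_Lq_of_nonneg S hc
      (f := fun s => ‖cf φ f s‖) (g := fun s => ‖vc L p q a s x‖)
      (fun s _ => norm_nonneg _) (fun s _ => norm_nonneg _)
    have e4 : ∑ s ∈ S, ‖cf φ f s‖ ^ (4 : ℝ) = ∑ s ∈ S, ‖cf φ f s‖ ^ 4 := by
      refine Finset.sum_congr rfl fun s _ => ?_
      exact_mod_cast Real.rpow_natCast ‖cf φ f s‖ 4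
    rw [e4] at h9
    have h10 : (∑ s ∈ S, ‖vc L p q a s x‖ ^ (4 / 3 : ℝ)) ^ (1 / (4 / 3) : ℝ) ≤
        (vm L p a univ x) ^ (1 / (4 / 3) : ℝ) :=
      Real.rpow_le_rpow (Finset.sum_nonneg fun s _ => by positivity) h5 (by norm_num)
    by_cases hx : x ∈ E
    · rw [indicator_of_mem hx]
      have h11 : (vm L p a univ x) ^ (1 / (4 / 3) : ℝ) ≤ 1 := by
        refine Real.rpow_le_one h6 ?_ (by norm_num)
        rwa [Real.one_rpow] at h7
      calc _ ≤ _ := h9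
        _ ≤ N4 * 1 := mul_le_mul_of_nonneg_left (h10.trans h11) hN40
        _ = N4 := mul_one _
    · rw [indicator_of_notMem hx]
      have h11 : (vm L p a univ x) ^ (1 / (4 / 3) : ℝ) = 0 := by
        rw [h8 hx, Real.zero_rpow (by norm_num)]
      calc _ ≤ _ := h9
        _ ≤ N4 * 0 := mul_le_mul_of_nonneg_left (h10.trans h11.le) hN40
        _ = 0 := mul_zero _
  -- each term
  have hw20 : Integrable (fun x : ℝ => wt 20 ((2 : ℝ) ^ (-k) * x - l)) :=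
    (p_WTI 20 k l (by norm_num)).1
  have hvc1 : ∀ s x, ‖vc L p q a s x‖ ≤ 1 := by
    intro s x
    have h5 := hb2 s x
    have h6 := (hb4 s.up x).2.1
    rw [Real.one_rpow] at h6
    by_contra h7
    push Not at h7
    have h8 := Real.one_lt_rpow h7 (show (0 : ℝ) < 4 / 3 by norm_num)
    linarith
  have hti : ∀ s ∈ S, Integrable (fun x => ‖vc L p q a s x‖ * (A * d *
      wt 20 ((2 : ℝ) ^ (-k) * x - l))) := by
    intro s _
    refine (hw20.const_mul (A * d)).mono' ?_ (Eventually.of_forall fun x => ?_)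
    · exact ((hb5 s).norm.aestronglyMeasurable).mul (hw20.const_mul (A * d)).aestronglyMeasurable
    · have h5 : 0 ≤ A * d * wt 20 ((2 : ℝ) ^ (-k) * x - l) :=
        mul_nonneg (mul_nonneg hA.le hd0) (TA1_.wt_nonneg _ _)
      rw [Real.norm_eq_abs, abs_of_nonneg (mul_nonneg (norm_nonneg _) h5)]
      exact mul_le_of_le_one_left h5 (hvc1 s x)
  have hterm : ∀ s ∈ S, ‖vav φ L p q a s‖ ≤
      ∫ x, ‖vc L p q a s x‖ * (A * d * wt 20 ((2 : ℝ) ^ (-k) * x - l)) := by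
    intro s hsS
    obtain ⟨k1, l1⟩ := hS s hsS
    refine norm_integral_le_of_norm_le (hti s hsS) (Eventually.of_forall fun x => ?_)
    rw [norm_mul]
    refine mul_le_mul_of_nonneg_left ?_ (norm_nonneg _)
    have h5 := TA1_.norm_fx h k1 l1 x
    rw [hs, k1] at h5
    exact h5
  have hsum : ∑ s ∈ S, ‖cf φ f s‖ * ‖vav φ L p q a s‖ ≤ A * d * N4 * IE := by
    calc ∑ s ∈ S, ‖cf φ f s‖ * ‖vav φ L p q a s‖
        ≤ ∑ s ∈ S, ‖cf φ f s‖ * ∫ x, ‖vc L p q a s x‖ * (A * d *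
            wt 20 ((2 : ℝ) ^ (-k) * x - l)) :=
          Finset.sum_le_sum fun s hsS => mul_le_mul_of_nonneg_left (hterm s hsS) (norm_nonneg _)
      _ = ∫ x, ∑ s ∈ S, ‖cf φ f s‖ * (‖vc L p q a s x‖ * (A * d *
            wt 20 ((2 : ℝ) ^ (-k) * x - l))) := by
          rw [integral_finsetSum _ fun s hsS => (hti s hsS).const_mul _]
          refine Finset.sum_congr rfl fun s _ => ?_
          rw [integral_const_mul]
      _ ≤ ∫ x, E.indicator (fun x => A * d * N4 * wt 20 ((2 : ℝ) ^ (-k) * x - l)) x := by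
          refine integral_mono (integrable_finsetSum _ fun s hsS => (hti s hsS).const_mul _)
            ((hw20.const_mul _).indicator hab.mE) fun x => ?_
          have h5 : 0 ≤ A * d * wt 20 ((2 : ℝ) ^ (-k) * x - l) :=
            mul_nonneg (mul_nonneg hA.le hd0) (TA1_.wt_nonneg _ _)
          have h6 : ∑ s ∈ S, ‖cf φ f s‖ * (‖vc L p q a s x‖ * (A * d *
              wt 20 ((2 : ℝ) ^ (-k) * x - l))) = (∑ s ∈ S, ‖cf φ f s‖ * ‖vc L p q a s x‖) *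
              (A * d * wt 20 ((2 : ℝ) ^ (-k) * x - l)) := by
            rw [Finset.sum_mul]
            exact Finset.sum_congr rfl fun s _ => by ring
          have h7 := mul_le_mul_of_nonneg_right (hpt x) h5
          simp only [h6]
          refine h7.trans (le_of_eq ?_)
          by_cases hx : x ∈ E
          · rw [indicator_of_mem hx, indicator_of_mem hx]
            ring
          · rw [indicator_of_notMem hx, indicator_of_notMem hx, zero_mul]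
      _ = A * d * N4 * IE := by
          rw [integral_indicator hab.mE, integral_const_mul]
  refine hsum.trans ?_
  -- constants
  set y : ℝ := (2 : ℝ) ^ k with hy
  have hyi : (2 : ℝ) ^ (-k) = y⁻¹ := by rw [zpow_neg]
  rw [hyi] at h4 ⊢
  have hN4b : N4 ≤ 2 ^ 8 * A * (y ^ (-(1 / 4) : ℝ) * IF ^ (3 / 4 : ℝ)) := by
    have h5 : (∑ s ∈ S, ‖cf φ f s‖ ^ 4) ≤ (2 ^ 8 * A * (y ^ (-(1 / 4) : ℝ) *
        IF ^ (3 / 4 : ℝ))) ^ (4 : ℕ) := by
      have e1 : (y ^ (-(1 / 4) : ℝ)) ^ (4 : ℕ) = y⁻¹ := by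
        rw [← Real.rpow_natCast, ← Real.rpow_mul hk.le]
        norm_num
        exact Real.rpow_neg_one y
      have e2 : (IF ^ (3 / 4 : ℝ)) ^ (4 : ℕ) = IF ^ 3 := by
        rw [← Real.rpow_natCast, ← Real.rpow_mul hIF0]
        norm_num
      rw [mul_pow, mul_pow, mul_pow, e1, e2]
      refine h4.trans ?_
      have h6 : 0 ≤ A ^ 4 * y⁻¹ * IF ^ 3 := by positivity
      have e3 : ((2 : ℝ) ^ 8) ^ 4 = 2 * 2 ^ 31 := by norm_num
      rw [e3]
      nlinarith [h6]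
    have h6 := Real.rpow_le_rpow (Finset.sum_nonneg fun s _ => by positivity) h5
      (show (0 : ℝ) ≤ 1 / 4 by norm_num)
    refine h6.trans (le_of_eq ?_)
    rw [← Real.rpow_natCast, ← Real.rpow_mul (by positivity)]
    norm_num
  have hdy : d = y ^ (-(1 / 2) : ℝ) := by
    rw [hd, Real.sqrt_eq_rpow, Real.rpow_neg hk.le]
  have e5 : (y⁻¹ * IF) ^ (3 / 4 : ℝ) = y ^ (-(3 / 4) : ℝ) * IF ^ (3 / 4 : ℝ) := by
    rw [Real.mul_rpow (by positivity) hIF0, Real.inv_rpow hk.le, Real.rpow_neg hk.le]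
  have e6 : y ^ (-(1 / 2) : ℝ) * y ^ (-(1 / 4) : ℝ) = y ^ (-(3 / 4) : ℝ) := by
    rw [← Real.rpow_add hk]
    norm_num
  rw [e5]
  calc A * d * N4 * IE ≤ A * d * (2 ^ 8 * A * (y ^ (-(1 / 4) : ℝ) * IF ^ (3 / 4 : ℝ))) * IE :=
        mul_le_mul_of_nonneg_right (mul_le_mul_of_nonneg_left hN4b (by positivity)) hIE0
    _ = 2 ^ 8 * A ^ 2 * ((y ^ (-(1 / 2) : ℝ) * y ^ (-(1 / 4) : ℝ)) * IF ^ (3 / 4 : ℝ) * IE) := by
        rw [hdy]
        ring
    _ ≤ (2 ^ 8 * A ^ 2 + 1) * (y ^ (-(3 / 4) : ℝ) * IF ^ (3 / 4 : ℝ) * IE) := by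
        rw [e6]
        have h7 : 0 ≤ y ^ (-(3 / 4) : ℝ) * IF ^ (3 / 4 : ℝ) * IE := by positivity
        nlinarith
    _ = (2 ^ 8 * A ^ 2 + 1) * y * (y ^ (-(3 / 4) : ℝ) * IF ^ (3 / 4 : ℝ)) * (y⁻¹ * IE) := by
        field_simp

end Pool.Agent.VRC
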