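import Pool.Agent.VRC.Targets
import Pool.Agent.CAR.P_TA2
import Pool.Agent.CAR.P_DNW

set_option autoImplicit false

/-!
# VRC: one interval in the exceptional set (target VTA2)
-/

namespace Pool.Agent.VRC

open MeasureTheory Set ComplexConjugate Filter Topology
open scoped ENNReal NNReal
open Pool.Agent.CAR

namespace VTA2_

/-- the part of `F` -/
lemma part_F {lam : ℝ} {F : Set ℝ} {k l : ℤ} (hF : MeasurableSet F)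
    (hfF : volume F ≠ ⊤) (hlam : 0 < lam) {z D : ℝ} (hz : z ∉ GG lam F)
    (hzD : |(2 : ℝ) ^ (-k) * z - l| ≤ D + 1) :
    ∫ x in F, wt 10 ((2 : ℝ) ^ (-k) * x - l) ≤ (3 + D) ^ 4 * (8 * lam * (2 : ℝ) ^ k) := by
  set l' : ℤ := ⌊(2 : ℝ) ^ (-k) * z⌋ with hl'
  have hh : ¬ heavy lam F k l' := fun h => hz ⟨k, l', exists_mem_dy k z, h⟩
  have h1 := p_DNW lam F k l' hF hfF hlam hh
  obtain ⟨i10, -⟩ := p_WTI 10 k l (by norm_num)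
  obtain ⟨i4, -⟩ := p_WTI 4 k l' (by norm_num)
  have h2 : |(l' : ℝ) - l| ≤ D + 2 := by
    have h3 := Int.floor_le ((2 : ℝ) ^ (-k) * z)
    have h4 := Int.lt_floor_add_one ((2 : ℝ) ^ (-k) * z)
    rw [← hl'] at h3 h4
    rw [abs_le] at hzD ⊢
    constructor <;> linarith [hzD.1, hzD.2]
  have hD3 : 0 ≤ 3 + D := by linarith [abs_nonneg ((l' : ℝ) - l)]
  calc ∫ x in F, wt 10 ((2 : ℝ) ^ (-k) * x - l)
      ≤ ∫ x in F, (3 + D) ^ 4 * wt 4 ((2 : ℝ) ^ (-k) * x - l') := by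
        refine setIntegral_mono_on i10.integrableOn (i4.const_mul _).integrableOn hF fun x _ => ?_
        refine (TA2_.wt_mono (by norm_num : 4 ≤ 10) _).trans ?_
        have h5 := TA2_.shift (u := (2 : ℝ) ^ (-k) * x - l) (v := (2 : ℝ) ^ (-k) * x - l')
          (a := D + 2) (by rw [sub_sub_sub_cancel_left]; exact h2)
        rwa [show 1 + (D + 2) = 3 + D by ring] at h5
    _ = (3 + D) ^ 4 * ∫ x in F, wt 4 ((2 : ℝ) ^ (-k) * x - l') := integral_const_mul _ _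
    _ ≤ (3 + D) ^ 4 * (8 * lam * (2 : ℝ) ^ k) := mul_le_mul_of_nonneg_left h1 (by positivity)

end VTA2_

theorem p_VTA2 : T_VTA2 := by
  refine ⟨162 * (8 : ℝ) ^ (3 / 4 : ℝ), by positivity, ?_⟩
  intro lam F E k l hF hfF hE hlam hne hEG
  set W : Set ℝ := {d | ∃ x, x ∉ GG lam F ∧ d = |(2 : ℝ) ^ (-k) * x - l|} with hW
  have hWne : W.Nonempty := by
    obtain ⟨x, hx⟩ := hne
    exact ⟨_, x, hx, rfl⟩
  have hWbd : BddBelow W := ⟨0, by rintro d ⟨x, _, rfl⟩; exact abs_nonneg _⟩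
  have hD0 : 0 ≤ sInf W := le_csInf hWne (by rintro d ⟨x, _, rfl⟩; exact abs_nonneg _)
  obtain ⟨d, ⟨z, hz, rfl⟩, hzd⟩ := exists_lt_of_csInf_lt hWne (lt_add_one (sInf W))
  refine ⟨sInf W, hD0, ⟨z, hz, hzd.le⟩, ?_⟩
  have h1 := TA2_.part_E hE k l hD0 fun x hx => csInf_le hWbd ⟨x, hEG x hx, rfl⟩
  have h2 := VTA2_.part_F hF hfF hlam hz hzd.le
  have h3 := TA2_.fin hD0
  have hp : (0 : ℝ) < (2 : ℝ) ^ k := two_zpow_pos k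
  have hn : (0 : ℝ) < (2 : ℝ) ^ (-k) := two_zpow_pos (-k)
  have hkk : (2 : ℝ) ^ (-k) * (2 : ℝ) ^ k = 1 := two_zpow_neg_mul k
  set D := sInf W with hD
  have hE0 : 0 ≤ ∫ x in E, wt 20 ((2 : ℝ) ^ (-k) * x - l) :=
    integral_nonneg fun x => TA2_.wt_nonneg _ _
  have hF0 : 0 ≤ ∫ x in F, wt 10 ((2 : ℝ) ^ (-k) * x - l) :=
    integral_nonneg fun x => TA2_.wt_nonneg _ _
  have h4 : (2 : ℝ) ^ (-k) * (∫ x in F, wt 10 ((2 : ℝ) ^ (-k) * x - l)) ≤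
      (3 + D) ^ 4 * (8 * lam) := by
    calc (2 : ℝ) ^ (-k) * (∫ x in F, wt 10 ((2 : ℝ) ^ (-k) * x - l))
        ≤ (2 : ℝ) ^ (-k) * ((3 + D) ^ 4 * (8 * lam * (2 : ℝ) ^ k)) :=
          mul_le_mul_of_nonneg_left h2 hn.le
      _ = ((2 : ℝ) ^ (-k) * (2 : ℝ) ^ k) * ((3 + D) ^ 4 * (8 * lam)) := by ring
      _ = (3 + D) ^ 4 * (8 * lam) := by rw [hkk, one_mul]
  have h5 : (2 : ℝ) ^ (-k) * (∫ x in E, wt 20 ((2 : ℝ) ^ (-k) * x - l)) ≤ 2 * wt 18 D := by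
    calc (2 : ℝ) ^ (-k) * (∫ x in E, wt 20 ((2 : ℝ) ^ (-k) * x - l))
        ≤ (2 : ℝ) ^ (-k) * (2 * (2 : ℝ) ^ k * wt 18 D) := mul_le_mul_of_nonneg_left h1 hn.le
      _ = ((2 : ℝ) ^ (-k) * (2 : ℝ) ^ k) * (2 * wt 18 D) := by ring
      _ = 2 * wt 18 D := by rw [hkk, one_mul]
  have h6 : ((3 + D) ^ 4 * (8 * lam)) ^ (3 / 4 : ℝ) =
      (3 + D) ^ 3 * ((8 : ℝ) ^ (3 / 4 : ℝ) * lam ^ (3 / 4 : ℝ)) := by
    rw [Real.mul_rpow (by positivity) (by positivity), Real.mul_rpow (by norm_num) hlam.le]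
    congr 1
    rw [← Real.rpow_natCast (3 + D) 4, ← Real.rpow_mul (by positivity),
      ← Real.rpow_natCast (3 + D) 3]
    norm_num
  have h7 : ((2 : ℝ) ^ (-k) * (∫ x in F, wt 10 ((2 : ℝ) ^ (-k) * x - l))) ^ (3 / 4 : ℝ) ≤
      (3 + D) ^ 3 * ((8 : ℝ) ^ (3 / 4 : ℝ) * lam ^ (3 / 4 : ℝ)) := by
    rw [← h6]
    exact Real.rpow_le_rpow (mul_nonneg hn.le hF0) h4 (by norm_num)
  have h8 : (3 + D) ^ 3 * wt 18 D ≤ 81 * wt 10 D := by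
    refine le_trans ?_ h3
    exact mul_le_mul_of_nonneg_right (pow_le_pow_right₀ (by linarith) (by norm_num))
      (TA2_.wt_nonneg _ _)
  calc ((2 : ℝ) ^ (-k) * (∫ x in F, wt 10 ((2 : ℝ) ^ (-k) * x - l))) ^ (3 / 4 : ℝ) *
        ((2 : ℝ) ^ (-k) * (∫ x in E, wt 20 ((2 : ℝ) ^ (-k) * x - l)))
      ≤ (3 + D) ^ 3 * ((8 : ℝ) ^ (3 / 4 : ℝ) * lam ^ (3 / 4 : ℝ)) * (2 * wt 18 D) :=
        mul_le_mul h7 h5 (mul_nonneg hn.le hE0) (by positivity)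
    _ = 2 * ((8 : ℝ) ^ (3 / 4 : ℝ) * lam ^ (3 / 4 : ℝ)) * ((3 + D) ^ 3 * wt 18 D) := by ring
    _ ≤ 2 * ((8 : ℝ) ^ (3 / 4 : ℝ) * lam ^ (3 / 4 : ℝ)) * (81 * wt 10 D) :=
        mul_le_mul_of_nonneg_left h8 (by positivity)
    _ = 162 * (8 : ℝ) ^ (3 / 4 : ℝ) * lam ^ (3 / 4 : ℝ) * wt 10 D := by ring

end Pool.Agent.VRC
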