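import Pool.Agent.VRC.Targets4
import Pool.Agent.CRR.P_TAIL

set_option autoImplicit false

/-!
# VRC: sums of whole strips (target TAV)

The `V^4` version of `Pool/Agent/CRR/P_TAIL.lean`: the same decomposition
`Σ_{k<n} FA_k = ∫_{|s| < R_n} H m e1(-us) ds + Y_n`. The 4-variation of the main term is bounded by
two variation norms `VC` (positive and negative frequencies), the one of `Y_n` by its square
function.
-/

namespace Pool.Agent.VRC

open MeasureTheory FourierTransform Set Filter Topology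
open scoped ENNReal NNReal
open Pool.Agent.CAR (e1)
open Pool.Agent.CRR (Ph StripD FS FA fh NN HH NSol kap aa de la si ww xc band mk)
open Pool.Agent.CRR.TAIL_ (R seq bands g2 e1_norm e1_cont neg_lint fourier_eq memLp_of
  fourier_cont mul_HH)

namespace TAV_

theorem e1_int {G : ℝ → ℂ} (h : Integrable G) (u : ℝ) :
    Integrable fun s => G s * e1 (u * s) :=
  h.mul_bdd (c := 1) (e1_cont.comp
    (continuous_const.mul continuous_id)).aestronglyMeasurable
    (ae_of_all _ fun _ => (e1_norm _).le)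

/-- the sequence of the truncated integrals over `[0, R_n)` -/
theorem vc_seq (G : ℝ → ℂ) (hG : Integrable G) (u : ℝ) (R : ℕ → ℝ) (h0 : ∀ n, 0 ≤ R n)
    (hR : Monotone R) :
    V4s (fun n => ∫ s in Ico 0 (R n), G s * e1 (u * s)) ≤ VC G u := by
  have hi := e1_int hG u
  have hd : ∀ a b, a ≤ b → (∫ s in Ico 0 (R b), G s * e1 (u * s)) -
      (∫ s in Ico 0 (R a), G s * e1 (u * s)) = ∫ s in Ico (R a) (R b), G s * e1 (u * s) := by
    intro a b hab
    have h3 := setIntegral_union (μ := volume) (f := fun s => G s * e1 (u * s))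
      (s := Ico 0 (R a)) (t := Ico (R a) (R b)) (Set.disjoint_left.2 fun x hx hx2 =>
        absurd hx2.1 (not_le.2 hx.2)) measurableSet_Ico hi.integrableOn hi.integrableOn
    rw [Ico_union_Ico_eq_Ico (h0 a) (hR hab)] at h3
    rw [h3]
    ring
  refine iSup_le fun L => iSup_le fun t => iSup_le fun ht => ?_
  have e : ∀ r ∈ Finset.range L,
      ‖(∫ s in Ico 0 (R (t (r + 1))), G s * e1 (u * s)) -
        (∫ s in Ico 0 (R (t r)), G s * e1 (u * s))‖ₑ ^ 4 =
      ‖∫ s in Ico (R (t r)) (R (t (r + 1))), G s * e1 (u * s)‖ₑ ^ 4 := by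
    intro r _
    rw [hd _ _ (ht (Nat.le_succ r))]
  show (∑ r ∈ Finset.range L, ‖(∫ s in Ico 0 (R (t (r + 1))), G s * e1 (u * s)) -
        (∫ s in Ico 0 (R (t r)), G s * e1 (u * s))‖ₑ ^ 4) ^ (1 / 4 : ℝ) ≤ _
  rw [Finset.sum_congr rfl e]
  exact le_iSup_of_le L (le_iSup_of_le (fun r => R (t r)) (le_iSup_of_le (hR.comp ht) le_rfl))

/-- reflection -/
theorem refl_int (G : ℝ → ℂ) (u r : ℝ) :
    ∫ s in Ioo (-r) 0, G s * e1 (-(u * s)) = ∫ s in Ico 0 r, G (-s) * e1 (u * s) := by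
  have h1 : ∫ s in Ioo (-r) 0, G s * e1 (-(u * s)) =
      ∫ s in Ioo 0 r, G (-s) * e1 (u * s) := by
    rw [← integral_indicator measurableSet_Ioo, ← integral_indicator measurableSet_Ioo,
      ← integral_neg_eq_self]
    refine integral_congr_ae (ae_of_all _ fun s => ?_)
    by_cases hs : s ∈ Ioo 0 r
    · have hs2 : -s ∈ Ioo (-r) 0 := ⟨by linarith [hs.2], by linarith [hs.1]⟩
      show (Ioo (-r) 0).indicator _ (-s) = (Ioo 0 r).indicator _ s
      rw [indicator_of_mem hs2, indicator_of_mem hs]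
      congr 2
      ring
    · have hs2 : -s ∉ Ioo (-r) 0 := fun h => hs ⟨by linarith [h.2], by linarith [h.1]⟩
      show (Ioo (-r) 0).indicator _ (-s) = (Ioo 0 r).indicator _ s
      rw [indicator_of_notMem hs2, indicator_of_notMem hs]
  rw [h1, integral_Ico_eq_integral_Ioo]

theorem split_int (G : ℝ → ℂ) (hG : Integrable G) (u r : ℝ) (hr : 0 ≤ r) :
    ∫ s in {s : ℝ | |s| < r}, G s * e1 (-(u * s)) =
      (∫ s in Ico 0 r, G s * e1 (-u * s)) + ∫ s in Ico 0 r, G (-s) * e1 (u * s) := by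
  have e : {s : ℝ | |s| < r} = Ioo (-r) r := by
    ext s
    rw [Set.mem_ofPred_eq, abs_lt, mem_Ioo]
  have hi : Integrable fun s => G s * e1 (-(u * s)) := by
    have := e1_int hG (-u)
    simpa only [neg_mul] using this
  rw [e, ← refl_int]
  rcases hr.eq_or_lt with h | h
  · subst h
    simp
  · have h3 := setIntegral_union (μ := volume) (f := fun s => G s * e1 (-(u * s)))
      (s := Ioo (-r) 0) (t := Ico 0 r) (Set.disjoint_left.2 fun x hx hx2 =>
        absurd hx2.1 (not_le.2 hx.2)) measurableSet_Ico hi.integrableOn hi.integrableOn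
    rw [Ioo_union_Ico_eq_Ioo (by linarith) h.le] at h3
    rw [h3, add_comm]
    congr 1
    refine setIntegral_congr_fun measurableSet_Ico fun s _ => ?_
    show G s * e1 (-(u * s)) = G s * e1 (-u * s)
    rw [neg_mul]

theorem neg_HH {G : ℝ → ℂ} (h : HH G) : HH fun s => G (-s) :=
  ⟨h.meas.comp measurable_neg, h.int.comp_neg, h.sq.comp_neg⟩

theorem gg2 {G : ℝ → ℂ} (h : HH G) : GG2 G := ⟨h.meas, h.int, h.sq⟩

theorem ico_cont {f : ℝ → ℂ} (hf : Integrable f) :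
    Continuous (fun p : ℝ × ℝ => ∫ ξ in Ico p.1 p.2, f ξ) := by
  have hii : ∀ a b, IntervalIntegrable f volume a b := fun a b => hf.intervalIntegrable
  have hF : Continuous fun x => ∫ ξ in (0 : ℝ)..x, f ξ :=
    intervalIntegral.continuous_primitive hii 0
  have e : (fun p : ℝ × ℝ => ∫ ξ in Ico p.1 p.2, f ξ) = fun p =>
      (∫ ξ in (0 : ℝ)..(max p.1 p.2), f ξ) - ∫ ξ in (0 : ℝ)..p.1, f ξ := by
    funext p
    rw [intervalIntegral.integral_interval_sub_left (hii _ _) (hii _ _),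
      intervalIntegral.integral_of_le (le_max_left _ _), integral_Ico_eq_integral_Ioc]
    rcases le_total p.1 p.2 with h | h
    · rw [max_eq_right h]
    · rw [max_eq_left h, Ioc_self, Ioc_eq_empty (not_lt.2 h)]
  rw [e]
  exact (hF.comp (continuous_fst.max continuous_snd)).sub (hF.comp continuous_fst)

theorem vc_meas (h6 : T_VCM) {G : ℝ → ℂ} (hG : Integrable G) : Measurable fun u => VC G u := by
  refine h6.1 ℝ (fun u a b => ∫ ξ in Ico a b, G ξ * e1 (u * ξ)) (fun a b => ?_)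
    (fun u => ico_cont (e1_int hG u))
  refine (MeasureTheory.continuous_of_dominated (bound := fun ξ => ‖G ξ‖) (fun u =>
    (e1_int hG u).integrableOn.aestronglyMeasurable) (fun u => ae_of_all _ fun ξ => ?_)
    hG.norm.integrableOn (ae_of_all _ fun ξ => ?_)).measurable
  · rw [norm_mul, e1_norm, mul_one]
  · exact continuous_const.mul (e1_cont.comp (continuous_id.mul continuous_const))

theorem three (a b c : ℝ≥0∞) :
    (a + b + 2 * c ^ (1 / 2 : ℝ)) ^ 2 ≤ 4 * a ^ 2 + 4 * b ^ 2 + 8 * c := by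
  calc (a + b + 2 * c ^ (1 / 2 : ℝ)) ^ 2
      ≤ 2 * (a + b) ^ 2 + 2 * (2 * c ^ (1 / 2 : ℝ)) ^ 2 := CRR.HANK_.two _ _
    _ ≤ 2 * (2 * a ^ 2 + 2 * b ^ 2) + 2 * (2 * c ^ (1 / 2 : ℝ)) ^ 2 := by
        gcongr
        exact CRR.HANK_.two _ _
    _ = 4 * a ^ 2 + 4 * b ^ 2 + 8 * (c ^ (1 / 2 : ℝ)) ^ 2 := by ring
    _ = _ := by rw [CRR.HANK_.sqrt_sq]

end TAV_

open TAV_ in
/-- TAV. -/
theorem p_TAV (h0 : Pool.Agent.CRN.T_CARLS) (h1 : Pool.Agent.CRR.T_SEQ)
    (_h2 : Pool.Agent.CRR.T_SD) (h3 : Pool.Agent.CRR.T_MUL) (h4 : T_VC4) (h5 : T_VCS)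
    (h6 : T_VCM) : T_TAV := by
  obtain ⟨C, hC0, hM⟩ := h3 h0
  obtain ⟨CC, hCC⟩ := h4
  obtain ⟨-, -, -, hV4, -, -, -, -, -, hV10⟩ := h5
  obtain ⟨r, hr0, hr1, hr2⟩ : ∃ r : ℝ, 0 ≤ r ∧ r < 1 ∧ r ^ 2 = 9 / 10 := by
    refine ⟨Real.sqrt (9 / 10), Real.sqrt_nonneg _, ?_, Real.sq_sqrt (by norm_num)⟩
    rw [Real.sqrt_lt' one_pos]
    norm_num
  obtain ⟨c, hc0, hc2⟩ : ∃ c : ℝ, 0 ≤ c ∧ c ^ 2 = C :=
    ⟨Real.sqrt C, Real.sqrt_nonneg _, Real.sq_sqrt hC0.le⟩
  have h1r : 0 < 1 - r := by linarith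
  refine ⟨8 * CC * ((2 * c / (1 - r)) ^ 2).toNNReal + 8 * ((c / (1 - r)) ^ 2 * 20).toNNReal,
    fun ν J J' H hν hJ hH => ?_⟩
  obtain ⟨-, -, hS⟩ := h1 ν hν
  have hsi0 : ∀ k, 0 < si ν k := fun k => mul_pos (hS k).2.2.2.2.1 (hS k).2.1
  have hsi1 : ∀ k, 7 / 5 * si ν k ≤ si ν (k + 1) := fun k => (hS k).2.2.2.2.2.2.1
  obtain ⟨j, hj1, hj2⟩ := bands hsi0 hsi1
  have hR0 : ∀ n, 0 ≤ R ν n := by
    intro n
    unfold R
    split_ifs
    · exact le_rfl
    · exact (hsi0 _).le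
  have hRm : Monotone (R ν) := by
    refine monotone_nat_of_le_succ fun n => ?_
    rcases n with _ | n
    · have h := hR0 1
      unfold R at h ⊢
      simpa using h
    · unfold R
      simp only [Nat.succ_ne_zero, if_false, Nat.add_sub_cancel]
      have := hsi0 n
      have := hsi1 n
      linarith
  have hmc : ∀ k, Continuous (mk ν J k) := fun k => (hM ν J J' k hν hJ).1
  have hFA := fun k => (hM ν J J' k hν hJ).2.1
  have hbd : ∀ s k, ‖mk ν J k s‖ ≤ c * r ^ (k - j s + (j s - k)) := by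
    intro s k
    have h := (hM ν J J' k hν hJ).2.2 (j s) s (hj1 s)
    refine abs_le_of_sq_le_sq' ?_ (by positivity) |>.2
    rw [mul_pow, hc2, ← pow_mul, mul_comm _ 2, pow_mul, hr2]
    exact h
  have hbd1 : ∀ s k, ‖mk ν J k s‖ ≤ c := fun s k => (hbd s k).trans
    (mul_le_of_le_one_right hc0 (pow_le_one₀ hr0 hr1.le))
  have hsq := fun s => seq hc0 hr0 hr1 (hbd s)
  -- the full multiplier
  let m : ℝ → ℂ := fun s => ∑' k, mk ν J k s
  have hm : Measurable m := by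
    refine measurable_of_tendsto_metrizable (f := fun n s => ∑ k ∈ Finset.range n, mk ν J k s)
      (fun n => ?_) (tendsto_pi_nhds.2 fun s => (hsq s).1.hasSum.tendsto_sum_nat)
    exact Finset.measurable_fun_sum _ fun k _ => (hmc k).measurable
  have hmb : ∀ s, ‖m s‖ ≤ 2 * c / (1 - r) := fun s => (hsq s).2.1
  have hA : ∀ n, MeasurableSet {s : ℝ | |s| < R ν n} := fun n =>
    measurableSet_lt measurable_norm measurable_const
  -- the differences
  let E : ℕ → ℝ → ℂ := fun n s => ∑ k ∈ Finset.range n, mk ν J k s -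
    {s : ℝ | |s| < R ν n}.indicator m s
  have hE : ∀ n, Measurable (E n) := fun n =>
    (Finset.measurable_fun_sum _ fun k _ => (hmc k).measurable).sub (hm.indicator (hA n))
  have hEb : ∀ n s, ‖E n s‖ ≤ c / (1 - r) * r ^ (n - j s + (j s - n)) := by
    intro n s
    have h := (hsq s).2.2 n
    have e : {s : ℝ | |s| < R ν n}.indicator m s = if j s < n then ∑' k, mk ν J k s else 0 := by
      by_cases hs : |s| < R ν n
      · rw [if_pos ((hj2 s n).2 hs), indicator_of_mem (show s ∈ {s : ℝ | |s| < R ν n} from hs)]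
      · rw [if_neg (fun h0 => hs ((hj2 s n).1 h0)),
          indicator_of_notMem (show s ∉ {s : ℝ | |s| < R ν n} from hs)]
    show ‖∑ k ∈ Finset.range n, mk ν J k s - {s : ℝ | |s| < R ν n}.indicator m s‖ ≤ _
    rw [e]
    exact h
  have hEb1 : ∀ n s, ‖E n s‖ ≤ c / (1 - r) := fun n s => (hEb n s).trans
    (mul_le_of_le_one_right (by positivity) (pow_le_one₀ hr0 hr1.le))
  have hHm : HH fun s => H s * m s := mul_HH hH hm hmb
  have hHE : ∀ n, HH fun s => H s * E n s := fun n => mul_HH hH (hE n) (hEb1 n)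
  -- decomposition
  let Y : ℕ → ℝ → ℂ := fun n u => 𝓕 (fun s => H s * E n s) u
  have hdec : ∀ n u, ∑ k ∈ Finset.range n, FA (kap J) (aa ν k) (de ν k) (fh H) u =
      (∫ s in {s : ℝ | |s| < R ν n}, H s * m s * e1 (-(u * s))) + Y n u := by
    intro n u
    have hi : ∀ {G : ℝ → ℂ}, Integrable G → Integrable fun s => G s * e1 (-(u * s)) := fun hG =>
      hG.mul_bdd (c := 1) (e1_cont.comp
        (continuous_const.mul continuous_id).neg).aestronglyMeasurable
        (ae_of_all _ fun s => (e1_norm _).le)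
    have hik : ∀ k, Integrable fun s => H s * mk ν J k s := fun k =>
      (mul_HH hH (hmc k).measurable fun s => hbd1 s k).int
    show _ = _ + 𝓕 (fun s => H s * E n s) u
    rw [fourier_eq, ← integral_indicator (hA n), ← integral_add
      ((hi hHm.int).indicator (hA n)) (hi (hHE n).int)]
    simp only [hFA _ H u hH]
    rw [← integral_finsetSum _ fun k _ => hi (hik k)]
    refine integral_congr_ae (ae_of_all _ fun s => ?_)
    simp only [E]
    rw [← Finset.sum_mul, ← Finset.mul_sum]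
    by_cases hs : s ∈ {s : ℝ | |s| < R ν n}
    · rw [indicator_of_mem hs, indicator_of_mem hs]
      ring
    · rw [indicator_of_notMem hs, indicator_of_notMem hs]
      ring
  let G1 : ℝ → ℂ := fun s => H s * m s
  have hG1 : HH G1 := hHm
  have hG2 : HH fun s => G1 (-s) := neg_HH hG1
  have hYm : ∀ n, Measurable fun u => ‖Y n u‖ₑ ^ 2 := fun n =>
    ((fourier_cont (hHE n).int).measurable.enorm).pow_const 2
  have hpt : ∀ u, V4s (fun n => ∑ k ∈ Finset.range n,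
      FA (kap J) (aa ν k) (de ν k) (fh H) u) ^ 2 ≤
      4 * VC G1 (-u) ^ 2 + 4 * VC (fun s => G1 (-s)) u ^ 2 + 8 * ∑' n, ‖Y n u‖ₑ ^ 2 := by
    intro u
    let p : ℕ → ℂ := fun n => ∫ s in Ico 0 (R ν n), G1 s * e1 (-u * s)
    let q : ℕ → ℂ := fun n => ∫ s in Ico 0 (R ν n), G1 (-s) * e1 (u * s)
    have hz : ∀ n, ∑ k ∈ Finset.range n, FA (kap J) (aa ν k) (de ν k) (fh H) u =
        p n + q n + Y n u := by
      intro n
      rw [hdec, split_int G1 hG1.int u (R ν n) (hR0 n)]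
    have hp : V4s p ≤ VC G1 (-u) := vc_seq G1 hG1.int (-u) (R ν) hR0 hRm
    have hq : V4s q ≤ VC (fun s => G1 (-s)) u :=
      vc_seq (fun s => G1 (-s)) hG2.int u (R ν) hR0 hRm
    have hY := hV4 (fun n => Y n u)
    have hpq : V4s (fun n => p n + q n) ≤ V4s p + V4s q := by
      refine hV10 _ _ _ fun a b _ => ?_
      rw [add_sub_add_comm]
      exact enorm_add_le _ _
    have hall : V4s (fun n => ∑ k ∈ Finset.range n, FA (kap J) (aa ν k) (de ν k) (fh H) u) ≤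
        V4s (fun n => p n + q n) + V4s (fun n => Y n u) := by
      refine hV10 _ _ _ fun a b _ => ?_
      rw [hz, hz, add_sub_add_comm]
      exact enorm_add_le _ _
    refine le_trans ?_ (three _ _ _)
    gcongr
    refine hall.trans (add_le_add (hpq.trans (add_le_add hp hq)) hY)
  -- the estimates
  have hb : ∫⁻ s, ‖G1 s‖ₑ ^ 2 ≤ ((2 * c / (1 - r)) ^ 2).toNNReal * ∫⁻ s, ‖H s‖ₑ ^ 2 := by
    rw [← lintegral_const_mul' _ _ ENNReal.coe_ne_top]
    refine lintegral_mono fun s => ?_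
    show ‖H s * m s‖ₑ ^ 2 ≤ _
    rw [enorm_mul, mul_pow, mul_comm]
    gcongr
    rw [← ofReal_norm, ← ENNReal.ofReal_pow (norm_nonneg _)]
    exact ENNReal.ofReal_le_ofReal (pow_le_pow_left₀ (norm_nonneg _) (hmb s) 2)
  have hI1 : ∫⁻ u, VC G1 (-u) ^ 2 ≤
      CC * (((2 * c / (1 - r)) ^ 2).toNNReal * ∫⁻ s, ‖H s‖ₑ ^ 2) := by
    rw [neg_lint fun u => VC G1 u ^ 2]
    refine (hCC G1 (gg2 hG1)).trans ?_
    gcongr
  have hI2 : ∫⁻ u, VC (fun s => G1 (-s)) u ^ 2 ≤
      CC * (((2 * c / (1 - r)) ^ 2).toNNReal * ∫⁻ s, ‖H s‖ₑ ^ 2) := by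
    refine (hCC _ (gg2 hG2)).trans ?_
    rw [neg_lint fun s => ‖G1 s‖ₑ ^ 2]
    gcongr
  have hII : ∫⁻ u, ∑' n, ‖Y n u‖ₑ ^ 2 ≤
      ((c / (1 - r)) ^ 2 * 20).toNNReal * ∫⁻ s, ‖H s‖ₑ ^ 2 := by
    rw [lintegral_tsum fun n => (hYm n).aemeasurable]
    have e : ∀ n, ∫⁻ u, ‖Y n u‖ₑ ^ 2 = ∫⁻ s, ‖H s‖ₑ ^ 2 * ‖E n s‖ₑ ^ 2 := by
      intro n
      show ∫⁻ u, ‖𝓕 (fun s => H s * E n s) u‖ₑ ^ 2 = _
      rw [CRR.HANK_.plancherel (hHE n).int (memLp_of (hHE n).int (hHE n).sq)]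
      refine lintegral_congr fun s => ?_
      rw [enorm_mul, mul_pow]
    simp only [e]
    have hme : ∀ n, Measurable fun s => ‖H s‖ₑ ^ 2 * ‖E n s‖ₑ ^ 2 := fun n =>
      (hH.meas.enorm.pow_const 2).mul ((hE n).enorm.pow_const 2)
    rw [← lintegral_tsum fun n => (hme n).aemeasurable,
      ← lintegral_const_mul' _ _ ENNReal.coe_ne_top]
    refine lintegral_mono fun s => ?_
    rw [ENNReal.tsum_mul_left, mul_comm]
    gcongr
    have h5 : ∀ n, ‖E n s‖ₑ ^ 2 ≤ ENNReal.ofReal ((c / (1 - r)) ^ 2 *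
        (9 / 10) ^ (n - j s + (j s - n))) := by
      intro n
      rw [← ofReal_norm, ← ENNReal.ofReal_pow (norm_nonneg _)]
      refine ENNReal.ofReal_le_ofReal ?_
      refine (pow_le_pow_left₀ (norm_nonneg _) (hEb n s) 2).trans (le_of_eq ?_)
      rw [mul_pow, ← pow_mul, mul_comm _ 2, pow_mul, hr2]
    refine (ENNReal.tsum_le_tsum h5).trans ?_
    rw [ENNReal.tsum_eq_iSup_nat]
    refine iSup_le fun N => ?_
    rw [← ENNReal.ofReal_sum_of_nonneg fun n _ => by positivity, ← Finset.mul_sum]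
    refine ENNReal.ofReal_le_ofReal ?_
    gcongr
    refine (g2 (by norm_num) (by norm_num) (j s) N).trans (by norm_num)
  have hYM : Measurable fun u => ∑' n, ‖Y n u‖ₑ ^ 2 := Measurable.tsum hYm
  have hV2 : Measurable fun u => VC (fun s => G1 (-s)) u := vc_meas h6 hG2.int
  calc ∫⁻ u, V4s (fun n => ∑ k ∈ Finset.range n, FA (kap J) (aa ν k) (de ν k) (fh H) u) ^ 2
      ≤ ∫⁻ u, (4 * VC G1 (-u) ^ 2 + 4 * VC (fun s => G1 (-s)) u ^ 2 +
          8 * ∑' n, ‖Y n u‖ₑ ^ 2) := lintegral_mono hpt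
    _ = 4 * (∫⁻ u, VC G1 (-u) ^ 2) + 4 * (∫⁻ u, VC (fun s => G1 (-s)) u ^ 2) +
          8 * ∫⁻ u, ∑' n, ‖Y n u‖ₑ ^ 2 := by
        rw [lintegral_add_right _ (hYM.const_mul 8),
          lintegral_add_right _ ((hV2.pow_const 2).const_mul 4),
          lintegral_const_mul' _ _ (by norm_num), lintegral_const_mul' _ _ (by norm_num),
          lintegral_const_mul' _ _ (by norm_num)]
    _ ≤ 4 * (CC * (((2 * c / (1 - r)) ^ 2).toNNReal * ∫⁻ s, ‖H s‖ₑ ^ 2)) +
          4 * (CC * (((2 * c / (1 - r)) ^ 2).toNNReal * ∫⁻ s, ‖H s‖ₑ ^ 2)) +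
          8 * (((c / (1 - r)) ^ 2 * 20).toNNReal * ∫⁻ s, ‖H s‖ₑ ^ 2) := by
        gcongr
    _ = _ := by
        push_cast
        ring

end Pool.Agent.VRC
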