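import Pool.Agent.VRC.Targets
import Pool.Agent.CAR.P_HL
import Pool.Agent.CAR.P_FXB

set_option autoImplicit false

/-! # VV4: the 4-variation of the partial sums of a (+)-tree -/

namespace Pool.Agent.VRC

open MeasureTheory Set ComplexConjugate
open scoped ENNReal NNReal
open Pool.Agent.CAR

namespace VV4_

/-- `(sum x^4)^(1/4) <= (sum x^2)^(1/2)` -/
theorem four_le_two {ι : Type*} (s : Finset ι) (f : ι → ℝ≥0∞) :
    (∑ i ∈ s, f i ^ (4 : ℝ)) ^ (1 / 4 : ℝ) ≤ (∑ i ∈ s, f i ^ 2) ^ (1 / 2 : ℝ) := by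
  have h1 : ∑ i ∈ s, f i ^ (4 : ℝ) ≤ (∑ i ∈ s, f i ^ 2) ^ (2 : ℝ) := by
    calc ∑ i ∈ s, f i ^ (4 : ℝ) = ∑ i ∈ s, f i ^ 2 * f i ^ 2 := by
          refine Finset.sum_congr rfl fun i _ => ?_
          rw [show (4 : ℝ) = ((4 : ℕ) : ℝ) by norm_num, ENNReal.rpow_natCast]
          ring
      _ ≤ ∑ i ∈ s, f i ^ 2 * ∑ j ∈ s, f j ^ 2 := by
          refine Finset.sum_le_sum fun i hi => ?_
          gcongr
          exact Finset.single_le_sum (f := fun j => f j ^ 2) (fun j _ => zero_le) hi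
      _ = (∑ i ∈ s, f i ^ 2) ^ (2 : ℝ) := by
          rw [← Finset.sum_mul, show (2 : ℝ) = ((2 : ℕ) : ℝ) by norm_num, ENNReal.rpow_natCast,
            sq (∑ i ∈ s, f i ^ 2)]
  calc (∑ i ∈ s, f i ^ (4 : ℝ)) ^ (1 / 4 : ℝ)
      ≤ ((∑ i ∈ s, f i ^ 2) ^ (2 : ℝ)) ^ (1 / 4 : ℝ) :=
        ENNReal.rpow_le_rpow h1 (by norm_num)
    _ = (∑ i ∈ s, f i ^ 2) ^ (1 / 2 : ℝ) := by
        rw [← ENNReal.rpow_mul]
        norm_num

/-- the triangle inequality for the 4-variation -/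
theorem v4_le (z y : ℤ → ℂ) (m M : ℤ) :
    V4 z m M ≤ V4 y m M + 2 * (∑ b ∈ Finset.Icc m M, ‖z b - y b‖ₑ ^ 2) ^ (1 / 2 : ℝ) := by
  classical
  refine iSup₂_le fun P hP => ?_
  obtain ⟨hP1, hP2⟩ := hP
  set P' := P.filter (fun c => c.1 < c.2) with hP'
  set D : ℤ → ℝ≥0∞ := fun b => ‖z b - y b‖ₑ with hD
  -- the degenerate intervals do not contribute
  have h0 : ∑ c ∈ P, ‖z c.2 - z c.1‖ₑ ^ 4 = ∑ c ∈ P', ‖z c.2 - z c.1‖ₑ ^ (4 : ℝ) := by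
    rw [hP', Finset.sum_filter]
    refine Finset.sum_congr rfl fun c hc => ?_
    split_ifs with hlt
    · rw [show (4 : ℝ) = ((4 : ℕ) : ℝ) by norm_num, ENNReal.rpow_natCast]
    · have : c.1 = c.2 := le_antisymm (hP1 c hc).2.1 (not_lt.1 hlt)
      rw [this, sub_self, enorm_zero]
      norm_num
  have hsum2 : ∀ e : ℤ × ℤ → ℤ, (∀ c ∈ P', e c ∈ Finset.Icc m M) →
      (∀ c ∈ P', ∀ d ∈ P', e c = e d → c = d) →
      (∑ c ∈ P', D (e c) ^ (4 : ℝ)) ^ (1 / 4 : ℝ) ≤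
        (∑ b ∈ Finset.Icc m M, D b ^ 2) ^ (1 / 2 : ℝ) := by
    intro e he1 he2
    refine le_trans ?_ (four_le_two (Finset.Icc m M) D)
    refine ENNReal.rpow_le_rpow ?_ (by norm_num)
    rw [← Finset.sum_image (f := fun b => D b ^ (4 : ℝ)) (s := P') (g := e)
      (fun c hc d hd h => he2 c hc d hd h)]
    refine Finset.sum_le_sum_of_subset ?_
    intro b hb
    obtain ⟨c, hc, rfl⟩ := Finset.mem_image.1 hb
    exact he1 c hc
  have hmem : ∀ c ∈ P', c ∈ P ∧ c.1 < c.2 := fun c hc => Finset.mem_filter.1 hc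
  have hA := hsum2 Prod.snd
    (fun c hc => by
      obtain ⟨h1, h2⟩ := hmem c hc
      obtain ⟨h3, h4, h5⟩ := hP1 c h1
      exact Finset.mem_Icc.2 ⟨h3.trans h4, h5⟩)
    (fun c hc d hd h => by
      by_contra hne
      obtain ⟨h1, h2⟩ := hmem c hc
      obtain ⟨h3, h4⟩ := hmem d hd
      rcases hP2 c h1 d h3 hne with h5 | h5
      · omega
      · omega)
  have hB := hsum2 Prod.fst
    (fun c hc => by
      obtain ⟨h1, h2⟩ := hmem c hc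
      obtain ⟨h3, h4, h5⟩ := hP1 c h1
      exact Finset.mem_Icc.2 ⟨h3, h4.trans h5⟩)
    (fun c hc d hd h => by
      by_contra hne
      obtain ⟨h1, h2⟩ := hmem c hc
      obtain ⟨h3, h4⟩ := hmem d hd
      rcases hP2 c h1 d h3 hne with h5 | h5
      · omega
      · omega)
  have hY : (∑ c ∈ P', ‖y c.2 - y c.1‖ₑ ^ (4 : ℝ)) ^ (1 / 4 : ℝ) ≤ V4 y m M := by
    refine le_trans (ENNReal.rpow_le_rpow ?_ (by norm_num))
      (le_iSup₂_of_le (f := fun (P : Finset (ℤ × ℤ)) (_ : (∀ c ∈ P, m ≤ c.1 ∧ c.1 ≤ c.2 ∧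
        c.2 ≤ M) ∧ ∀ c ∈ P, ∀ d ∈ P, c ≠ d → c.2 ≤ d.1 ∨ d.2 ≤ c.1) =>
          (∑ c ∈ P, ‖y c.2 - y c.1‖ₑ ^ 4) ^ (1 / 4 : ℝ)) P ⟨hP1, hP2⟩ le_rfl)
    calc ∑ c ∈ P', ‖y c.2 - y c.1‖ₑ ^ (4 : ℝ) = ∑ c ∈ P', ‖y c.2 - y c.1‖ₑ ^ 4 := by
          refine Finset.sum_congr rfl fun c _ => ?_
          rw [show (4 : ℝ) = ((4 : ℕ) : ℝ) by norm_num, ENNReal.rpow_natCast]
      _ ≤ ∑ c ∈ P, ‖y c.2 - y c.1‖ₑ ^ 4 :=
          Finset.sum_le_sum_of_subset (Finset.filter_subset _ _)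
  have hpt : ∀ c : ℤ × ℤ, ‖z c.2 - z c.1‖ₑ ≤ ‖y c.2 - y c.1‖ₑ + (D c.2 + D c.1) := by
    intro c
    have : z c.2 - z c.1 = (y c.2 - y c.1) + ((z c.2 - y c.2) - (z c.1 - y c.1)) := by ring
    rw [this]
    refine (enorm_add_le _ _).trans ?_
    gcongr
    exact enorm_sub_le
  calc (∑ c ∈ P, ‖z c.2 - z c.1‖ₑ ^ 4) ^ (1 / 4 : ℝ)
      = (∑ c ∈ P', ‖z c.2 - z c.1‖ₑ ^ (4 : ℝ)) ^ (1 / 4 : ℝ) := by rw [h0]
    _ ≤ (∑ c ∈ P', (‖y c.2 - y c.1‖ₑ + (D c.2 + D c.1)) ^ (4 : ℝ)) ^ (1 / 4 : ℝ) := by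
        refine ENNReal.rpow_le_rpow (Finset.sum_le_sum fun c _ => ?_) (by norm_num)
        exact ENNReal.rpow_le_rpow (hpt c) (by norm_num)
    _ ≤ (∑ c ∈ P', ‖y c.2 - y c.1‖ₑ ^ (4 : ℝ)) ^ (1 / 4 : ℝ) +
        (∑ c ∈ P', (D c.2 + D c.1) ^ (4 : ℝ)) ^ (1 / 4 : ℝ) :=
        ENNReal.Lp_add_le P' _ _ (by norm_num)
    _ ≤ (∑ c ∈ P', ‖y c.2 - y c.1‖ₑ ^ (4 : ℝ)) ^ (1 / 4 : ℝ) +
        ((∑ c ∈ P', D c.2 ^ (4 : ℝ)) ^ (1 / 4 : ℝ) +
          (∑ c ∈ P', D c.1 ^ (4 : ℝ)) ^ (1 / 4 : ℝ)) := by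
        gcongr
        exact ENNReal.Lp_add_le P' _ _ (by norm_num)
    _ ≤ V4 y m M + ((∑ b ∈ Finset.Icc m M, D b ^ 2) ^ (1 / 2 : ℝ) +
        (∑ b ∈ Finset.Icc m M, D b ^ 2) ^ (1 / 2 : ℝ)) :=
        add_le_add hY (add_le_add hA hB)
    _ = _ := by rw [← two_mul]

/-- Cauchy-Schwarz for the square root -/
theorem half_le (G : ℝ → ℝ≥0∞) (hG : Measurable G) (W : Set ℝ) :
    ∫⁻ x in W, G x ^ (1 / 2 : ℝ) ≤ volume W ^ (1 / 2 : ℝ) * (∫⁻ x, G x) ^ (1 / 2 : ℝ) := by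
  have h := ENNReal.lintegral_mul_le_Lp_mul_Lq (volume.restrict W)
    Real.HolderConjugate.two_two (f := fun x => G x ^ (1 / 2 : ℝ)) (g := fun _ => 1)
    (hG.pow_const _).aemeasurable aemeasurable_const
  have h2 : ∀ x, (G x ^ (1 / 2 : ℝ)) ^ 2 = G x := by
    intro x
    rw [← ENNReal.rpow_natCast, ← ENNReal.rpow_mul]
    norm_num
  simp only [Pi.mul_apply, mul_one, lintegral_const, ENNReal.rpow_two, one_pow, one_mul,
    Measure.restrict_apply MeasurableSet.univ, univ_inter, h2] at h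
  refine h.trans ?_
  rw [mul_comm]
  exact mul_le_mul_right (ENNReal.rpow_le_rpow (setLIntegral_le_lintegral _ _)
    (by norm_num)) _

theorem meas_da (H : ℝ → ℂ) (b : ℤ) : Measurable (da H b) := by
  unfold da
  have h1 : Measurable (fun x : ℝ => ⌊(2 : ℝ) ^ (-b) * x⌋) :=
    Int.measurable_floor.comp (measurable_const.mul measurable_id)
  have h2 : Measurable (fun l : ℤ => ((2 : ℝ) ^ (-b) : ℝ) * ∫ y in dy b l, H y : ℤ → ℂ) :=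
    measurable_from_top
  exact h2.comp h1

theorem cont_e1 : Continuous e1 := by
  unfold e1
  fun_prop

theorem norm_e1 (x : ℝ) : ‖e1 x‖ = 1 := by
  unfold e1
  rw [show (2 * Real.pi * Complex.I * (x : ℂ) : ℂ) = ((2 * Real.pi * x : ℝ) : ℂ) * Complex.I by
    push_cast; ring]
  exact Complex.norm_exp_ofReal_mul_I _

theorem cont_ps {A : ℝ} {φ Φ : ℝ → ℂ} (hW : WPk A φ Φ) (T : Finset Tile) (w : Tile → ℂ)
    (ξ : ℝ) (b : ℤ) : Continuous (ps φ T w ξ b) := by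
  unfold ps
  have h1 : Continuous fun x : ℝ => e1 (-(x * ξ)) :=
    cont_e1.comp (by fun_prop)
  exact (continuous_finsetSum _ fun s _ =>
    continuous_const.mul (p_FXB A φ Φ hW s).1).mul h1

theorem int_ps {A : ℝ} {φ Φ : ℝ → ℂ} (hW : WPk A φ Φ) (T : Finset Tile) (w : Tile → ℂ)
    (ξ : ℝ) (b : ℤ) : Integrable (ps φ T w ξ b) := by
  unfold ps
  have h1 : Continuous fun x : ℝ => e1 (-(x * ξ)) :=
    cont_e1.comp (by fun_prop)
  refine Integrable.mul_bdd (c := 1) (integrable_finsetSum _ fun s _ =>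
    (p_FXB A φ Φ hW s).2.2.2.2.2.1.const_mul _) h1.aestronglyMeasurable ?_
  exact Filter.Eventually.of_forall fun x => (norm_e1 _).le

end VV4_

open VV4_ in
theorem p_VV4 (h1 : T_VJM) (h2 : T_VJD) : T_VV4 := by
  classical
  intro A
  obtain ⟨CJ, hCJ⟩ := h1
  obtain ⟨CD, hCD⟩ := h2 A
  obtain ⟨C1, hC1, hSQ⟩ := p_SQ A
  refine ⟨CJ * (C1.toNNReal) ^ (1 / 2 : ℝ) + 2 * CD ^ (1 / 2 : ℝ), ?_⟩
  intro φ Φ hW T K Λ ξ hT w m M W hm hWm hWf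
  set H : ℝ → ℂ := fun y => ps φ T w ξ m y with hH
  set S : ℝ≥0∞ := ∑ s ∈ T, ‖w s‖ₑ ^ 2 with hS
  have hHc : Continuous H := cont_ps hW T w ξ m
  have hHi : Integrable H := int_ps hW T w ξ m
  -- the square function bound
  have hH2 : ∫⁻ x, ‖H x‖ₑ ^ 2 ≤ (C1.toNNReal : ℝ≥0∞) * S := by
    have e1' : ∀ x, ‖H x‖ₑ ^ 2 = ‖∑ s ∈ T, w s * fx φ s x‖ₑ ^ 2 := by
      intro x
      have hf : T.filter (fun s => m ≤ s.k) = T := Finset.filter_true_of_mem hm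
      simp only [hH, ps, hf]
      rw [enorm_mul]
      have : ‖e1 (-(x * ξ))‖ₑ = 1 := by
        rw [← ofReal_norm, norm_e1, ENNReal.ofReal_one]
      rw [this, mul_one]
    rw [lintegral_congr e1']
    refine (hSQ φ Φ hW T K Λ ξ hT w).trans (le_of_eq ?_)
    rw [ENNReal.ofReal_mul hC1.le, ENNReal.ofReal_sum_of_nonneg (fun s _ => by positivity), hS]
    congr 1
    refine Finset.sum_congr rfl fun s _ => ?_
    rw [ENNReal.ofReal_pow (norm_nonneg _), ofReal_norm]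
  -- the differences
  set G : ℝ → ℝ≥0∞ := fun x => ∑ b ∈ Finset.Icc m M, ‖ps φ T w ξ b x - da H b x‖ₑ ^ 2 with hG
  have hGm1 : ∀ b, Measurable fun x => ‖ps φ T w ξ b x - da H b x‖ₑ ^ 2 := by
    intro b
    exact ((cont_ps hW T w ξ b).measurable.sub (meas_da H b)).enorm.pow_const 2
  have hGm : Measurable G := Finset.measurable_sum _ fun b _ => hGm1 b
  have hGi : ∫⁻ x, G x ≤ CD * S := by
    rw [hG, lintegral_finsetSum _ fun b _ => hGm1 b]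
    exact hCD φ Φ hW T K Λ ξ hT w m M hm
  have hpt : ∀ x, V4 (fun b => ps φ T w ξ b x) m M ≤
      V4 (fun b => da H b x) m M + 2 * G x ^ (1 / 2 : ℝ) := fun x =>
    v4_le (fun b => ps φ T w ξ b x) (fun b => da H b x) m M
  have hgm2 : Measurable fun x => 2 * G x ^ (1 / 2 : ℝ) :=
    (hGm.pow_const _).const_mul _
  calc ∫⁻ x in W, V4 (fun b => ps φ T w ξ b x) m M
      ≤ ∫⁻ x in W, (V4 (fun b => da H b x) m M + 2 * G x ^ (1 / 2 : ℝ)) :=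
        lintegral_mono fun x => hpt x
    _ = (∫⁻ x in W, V4 (fun b => da H b x) m M) + ∫⁻ x in W, 2 * G x ^ (1 / 2 : ℝ) :=
        lintegral_add_right _ hgm2
    _ ≤ CJ * volume W ^ (1 / 2 : ℝ) * (∫⁻ x, ‖H x‖ₑ ^ 2) ^ (1 / 2 : ℝ) +
        2 * (volume W ^ (1 / 2 : ℝ) * (∫⁻ x, G x) ^ (1 / 2 : ℝ)) := by
        refine add_le_add (hCJ H m M W hHc.measurable hHi hWm hWf) ?_
        rw [lintegral_const_mul _ (hGm.pow_const _)]
        gcongr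
        exact half_le G hGm W
    _ ≤ CJ * volume W ^ (1 / 2 : ℝ) * ((C1.toNNReal : ℝ≥0∞) * S) ^ (1 / 2 : ℝ) +
        2 * (volume W ^ (1 / 2 : ℝ) * (CD * S) ^ (1 / 2 : ℝ)) := by
        gcongr
    _ = _ := by
        rw [ENNReal.mul_rpow_of_nonneg _ _ (by norm_num : (0 : ℝ) ≤ 1 / 2),
          ENNReal.mul_rpow_of_nonneg _ _ (by norm_num : (0 : ℝ) ≤ 1 / 2)]
        push_cast
        rw [ENNReal.coe_rpow_of_nonneg _ (by norm_num : (0 : ℝ) ≤ 1 / 2),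
          ENNReal.coe_rpow_of_nonneg _ (by norm_num : (0 : ℝ) ≤ 1 / 2)]
        ring

end Pool.Agent.VRC
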