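import Pool.Agent.VRC.Targets4
import Pool.Agent.CRR.P_WIN

set_option autoImplicit false

/-!
# VRC, target WIV (helper66): inside a window
-/

namespace Pool.Agent.VRC

open MeasureTheory FourierTransform Set Filter Topology
open scoped ENNReal NNReal
open Pool.Agent.CAR (e1)
open Pool.Agent.CRR (Ph StripD FS FA fh NN HH NSol kap aa de la si ww xc band)

namespace WIV_

open Pool.Agent.CRR.WIN_ (norm_e1 continuous_e1 e1_add deriv_e1 th1 shift shiftC)

/-- the constant -/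
noncomputable def cst (A : ℝ) : ℝ≥0 := (A + 2 * (2 * Real.pi * A ^ 2 + A)).toNNReal

/-- the local estimate -/
theorem local_win (hABL : Pool.Agent.CRL.T_ABL) {A : ℝ} (hA : 1 ≤ A) {lam d w : ℝ}
    {Θ Θ1 Θ2 : ℝ → ℝ} {s u : ℝ} {i : ℤ} {b b' h : ℝ → ℂ} (hPh : Ph A lam d Θ Θ1 Θ2)
    (hlam : 0 < lam) (hw : 0 < w) (hwl : w ^ 2 * lam ≤ 1)
    (hs : s = 1 ∨ s = -1) (hh : Continuous h) {V1 V2 : ℝ} (hV1 : i * w ≤ V1) (hV12 : V1 ≤ V2)
    (hV2 : V2 ≤ (i + 1) * w)
    (hb : ∀ x ∈ Icc (u + V1) (u + V2), HasDerivAt b (b' x) x ∧ ‖b x‖ ≤ A ∧ ‖b' x‖ ≤ A / w)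
    (hb' : ContinuousOn b' (Icc (u + V1) (u + V2))) :
    ‖∫ v in Ioc V1 V2, e1 (s * Θ (u + v)) * b (u + v) * h v‖ₑ ≤
      cst A * ⨆ V ∈ Icc V1 V2, ‖∫ v in Ioc V1 V, h v * e1 (s * Θ1 (u + i * w) * v)‖ₑ := by
  have hpi := Real.pi_pos
  set B : ℝ := 2 * Real.pi * A ^ 2 + A with hB
  have hA0 : 0 < A := by linarith
  have hB0 : 0 < B := by positivity
  set y : ℝ := i * w with hy
  set X : ℝ := s * Θ1 (u + y) with hX
  have hC0 : 0 < A + 2 * B := by positivity
  have hcst : cst A = (A + 2 * B).toNNReal := rfl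
  rw [hcst]
  set SS : ℝ≥0∞ := ⨆ V ∈ Icc V1 V2, ‖∫ v in Ioc V1 V, h v * e1 (X * v)‖ₑ with hSS
  by_cases hN : SS = ⊤
  · rw [hN, ENNReal.mul_top]
    · exact le_top
    · simpa using hC0
  set N : ℝ := SS.toReal with hNdef
  have hs1 : |s| = 1 := by
    rcases hs with rfl | rfl <;> simp
  -- the function `D`
  set D : ℝ → ℂ := fun v => h v * e1 (X * v) with hD
  have hDc : Continuous D := hh.mul (continuous_e1.comp (continuous_const.mul continuous_id))
  have hDi : ∀ a b : ℝ, IntegrableOn D (Ioc a b) := fun a b =>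
    (hDc.integrableOn_Icc).mono_set Ioc_subset_Icc_self
  have hM : ∀ t ∈ Icc V1 V2, ‖∫ v in Ioc V1 t, D v‖ ≤ N := by
    intro t ht
    have h1 : ‖∫ v in Ioc V1 t, D v‖ₑ ≤ SS := le_iSup₂ (f := fun V (_ : V ∈ Icc V1 V2) =>
      ‖∫ v in Ioc V1 V, h v * e1 (X * v)‖ₑ) t ht
    rw [hNdef, ← toReal_enorm]
    exact ENNReal.toReal_mono hN h1
  -- the function `U`
  set Ef : ℝ → ℝ := fun v => Θ (u + v) - Θ (u + y) - (v - y) * Θ1 (u + y) with hEf
  set E' : ℝ → ℝ := fun v => Θ1 (u + v) - Θ1 (u + y) with hE'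
  set U : ℝ → ℂ := fun v => e1 (s * Ef v) * b (u + v) with hU
  set U' : ℝ → ℂ := fun v => 2 * Real.pi * Complex.I * ((s * E' v : ℝ) : ℂ) * e1 (s * Ef v) *
    b (u + v) + e1 (s * Ef v) * b' (u + v) with hU'
  have hEd : ∀ v, HasDerivAt Ef (E' v) v := by
    intro v
    have h1 := shift (hPh.d1 (u + v))
    have h2 : HasDerivAt (fun v => (v - y) * Θ1 (u + y)) (1 * Θ1 (u + y)) v :=
      ((hasDerivAt_id v).sub_const y).mul_const _
    have h3 := (h1.sub_const (Θ (u + y))).sub h2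
    rw [one_mul] at h3
    exact h3
  have hmem : ∀ v ∈ Icc V1 V2, u + v ∈ Icc (u + V1) (u + V2) := fun v hv =>
    ⟨by linarith [hv.1], by linarith [hv.2]⟩
  have hUd : ∀ v ∈ Icc V1 V2, HasDerivAt U (U' v) v := by
    intro v hv
    have h1 := deriv_e1 ((hEd v).const_mul s)
    have h2 := shiftC (hb _ (hmem v hv)).1
    exact h1.mul h2
  have hEc : Continuous Ef := continuous_iff_continuousAt.2 fun v => (hEd v).continuousAt
  have hΘ1c : Continuous Θ1 := continuous_iff_continuousAt.2 fun v => (hPh.d2 v).continuousAt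
  have hE'c : Continuous E' := by
    rw [hE']
    fun_prop
  have hbc : ContinuousOn (fun v => b (u + v)) (Icc V1 V2) := fun v hv =>
    (shiftC (hb _ (hmem v hv)).1).continuousAt.continuousWithinAt
  have hb'c : ContinuousOn (fun v => b' (u + v)) (Icc V1 V2) :=
    hb'.comp (continuous_const.add continuous_id).continuousOn hmem
  have hee : Continuous fun v => e1 (s * Ef v) :=
    continuous_e1.comp (continuous_const.mul hEc)
  have hU'c : ContinuousOn U' (Icc V1 V2) := by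
    have h1 : Continuous fun v => 2 * Real.pi * Complex.I * ((s * E' v : ℝ) : ℂ) * e1 (s * Ef v) :=
      (continuous_const.mul (Complex.continuous_ofReal.comp (continuous_const.mul hE'c))).mul hee
    exact (h1.continuousOn.mul hbc).add (hee.continuousOn.mul hb'c)
  -- bound for `U'`
  have hU'b : ∀ v ∈ Icc V1 V2, ‖U' v‖ ≤ 2 * Real.pi * (A * lam * w) * A + A / w := by
    intro v hv
    have h1 : ‖U' v‖ ≤ 2 * Real.pi * |E' v| * ‖b (u + v)‖ + ‖b' (u + v)‖ := by
      rw [hU']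
      refine (norm_add_le _ _).trans (le_of_eq ?_)
      simp only [norm_mul, norm_e1, Complex.norm_I, Complex.norm_real, Real.norm_eq_abs, hs1]
      rw [abs_of_pos hpi]
      simp
    have h2 : |E' v| ≤ A * lam * w := by
      have h3 := th1 hPh hA hlam (u + v) (u + y)
      refine h3.trans ?_
      have h4 : |u + v - (u + y)| ≤ w := by
        rw [abs_of_nonneg (by linarith [hv.1])]
        have := hv.2
        linarith
      exact mul_le_mul_of_nonneg_left h4 (by positivity)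
    obtain ⟨-, h5, h6⟩ := hb _ (hmem v hv)
    refine h1.trans (add_le_add ?_ h6)
    exact mul_le_mul (mul_le_mul_of_nonneg_left h2 (by positivity)) h5 (norm_nonneg _)
      (by positivity)
  have hUB : (∫ v in Ioc V1 V2, ‖U' v‖) ≤ B := by
    have h1 : ‖∫ v in Ioc V1 V2, ‖U' v‖‖ ≤ (2 * Real.pi * (A * lam * w) * A + A / w) *
        volume.real (Ioc V1 V2) := by
      apply norm_setIntegral_le_of_norm_le_const
      · rw [Real.volume_Ioc]
        exact ENNReal.ofReal_lt_top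
      · intro v hv
        rw [norm_norm]
        exact hU'b v (Ioc_subset_Icc_self hv)
    rw [Real.volume_real_Ioc_of_le hV12] at h1
    refine (le_abs_self _).trans (h1.trans ?_)
    have h2 : V2 - V1 ≤ w := by
      have : (i + 1) * w = y + w := by rw [hy]; ring
      linarith
    calc (2 * Real.pi * (A * lam * w) * A + A / w) * (V2 - V1)
        ≤ (2 * Real.pi * (A * lam * w) * A + A / w) * w :=
          mul_le_mul_of_nonneg_left h2 (by positivity)
      _ = 2 * Real.pi * A ^ 2 * (w ^ 2 * lam) + A := by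
          field_simp
      _ ≤ B := by
          rw [hB]
          have : 2 * Real.pi * A ^ 2 * (w ^ 2 * lam) ≤ 2 * Real.pi * A ^ 2 * 1 :=
            mul_le_mul_of_nonneg_left hwl (by positivity)
          linarith
  have key := hABL D U U' V1 V2 N B hV12 (hDi _ _) hUd hU'c hM hUB
  have hUa : ‖U V1‖ ≤ A := by
    rw [hU]
    simp only [norm_mul, norm_e1, one_mul]
    exact (hb _ (hmem V1 ⟨le_rfl, hV12⟩)).2.1
  have hN0 : 0 ≤ N := ENNReal.toReal_nonneg
  have e : ∫ v in Ioc V1 V2, e1 (s * Θ (u + v)) * b (u + v) * h v =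
      e1 (s * (Θ (u + y) - y * Θ1 (u + y))) * ∫ v in Ioc V1 V2, D v * U v := by
    rw [← integral_const_mul]
    refine setIntegral_congr_fun measurableSet_Ioc fun v _ => ?_
    have h1 : e1 (s * Θ (u + v)) = e1 (s * (Θ (u + y) - y * Θ1 (u + y))) * e1 (X * v) *
        e1 (s * Ef v) := by
      rw [← e1_add, ← e1_add]
      congr 1
      rw [hX, hEf]
      ring
    simp only [hD, hU]
    rw [h1]
    ring
  have hfin : ‖∫ v in Ioc V1 V2, e1 (s * Θ (u + v)) * b (u + v) * h v‖ ≤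
      (A + 2 * B) * N := by
    rw [e, norm_mul, norm_e1, one_mul]
    refine key.trans ?_
    calc N * (‖U V1‖ + 2 * B) ≤ N * (A + 2 * B) :=
          mul_le_mul_of_nonneg_left (by linarith) hN0
      _ = (A + 2 * B) * N := by ring
  rw [← ofReal_norm]
  refine (ENNReal.ofReal_le_ofReal hfin).trans (le_of_eq ?_)
  rw [ENNReal.ofReal_mul hC0.le, hNdef, ENNReal.ofReal_toReal hN]
  rfl

/-- a point at which the partial integral is maximal -/
theorem exists_max {D : ℝ → ℂ} (hD : Continuous D) {a b : ℝ} (hab : a ≤ b) :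
    ∃ V ∈ Icc a b, ∀ t ∈ Icc a b, ‖∫ v in Ioc a t, D v‖ₑ ≤ ‖∫ v in Ioc a V, D v‖ₑ := by
  have hc : Continuous fun t => ‖∫ v in a..t, D v‖ :=
    (intervalIntegral.continuous_primitive (fun x y => hD.intervalIntegrable x y) a).norm
  obtain ⟨V, hV, hmax⟩ := isCompact_Icc.exists_isMaxOn (nonempty_Icc.2 hab) hc.continuousOn
  refine ⟨V, hV, fun t ht => ?_⟩
  have h1 : ‖∫ v in a..t, D v‖ ≤ ‖∫ v in a..V, D v‖ := hmax ht
  rw [intervalIntegral.integral_of_le ht.1, intervalIntegral.integral_of_le hV.1] at h1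
  rw [← ofReal_norm, ← ofReal_norm]
  exact ENNReal.ofReal_le_ofReal h1

/-- `ℓ⁴` norms over disjoint pieces of the window -/
theorem sum_le_NV {w : ℝ} {h : ℝ → ℂ} {i : ℤ} {X : ℝ} (L : ℕ) (N V : ℕ → ℝ)
    (h0 : i * w ≤ N 0) (hL : N L ≤ (i + 1) * w) (hN : Monotone N)
    (hV : ∀ j, N j ≤ V j ∧ V j ≤ N (j + 1)) :
    (∑ j ∈ Finset.range L, ‖∫ v in Ioc (N j) (V j), h v * e1 (X * v)‖ₑ ^ 4) ^ (1 / 4 : ℝ) ≤
      NV w h i X := by
  set t : ℕ → ℝ := fun m => if m % 2 = 0 then N (m / 2) else V (m / 2) with ht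
  have te : ∀ j, t (2 * j) = N j := by
    intro j
    simp only [ht]
    rw [if_pos (by omega), show 2 * j / 2 = j by omega]
  have tod : ∀ j, t (2 * j + 1) = V j := by
    intro j
    simp only [ht]
    rw [if_neg (by omega), show (2 * j + 1) / 2 = j by omega]
  have tm : Monotone t := by
    refine monotone_nat_of_le_succ fun m => ?_
    rcases Nat.even_or_odd' m with ⟨j, rfl | rfl⟩
    · rw [te, tod]
      exact (hV j).1
    · rw [tod, show 2 * j + 1 + 1 = 2 * (j + 1) by ring, te]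
      exact (hV j).2
  have h1 : (∑ m ∈ Finset.range (2 * L), ‖NF w h i X (t m) (t (m + 1))‖ₑ ^ 4) ^ (1 / 4 : ℝ) ≤
      NV w h i X := by
    unfold NV V4o
    exact le_iSup_of_le (2 * L) (le_iSup_of_le t (le_iSup_of_le tm le_rfl))
  refine le_trans (ENNReal.rpow_le_rpow ?_ (by norm_num)) h1
  have h2 : ∀ j ∈ Finset.range L, ‖∫ v in Ioc (N j) (V j), h v * e1 (X * v)‖ₑ ^ 4 =
      ‖NF w h i X (t (2 * j)) (t (2 * j + 1))‖ₑ ^ 4 := by
    intro j hj
    rw [Finset.mem_range] at hj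
    rw [te, tod, NF]
    congr 3
    rw [inter_eq_left.2]
    exact Ioc_subset_Ioc (h0.trans (hN (Nat.zero_le j)))
      (((hV j).2.trans (hN hj)).trans hL)
  rw [Finset.sum_congr rfl h2]
  have h3 : ∑ j ∈ Finset.range L, ‖NF w h i X (t (2 * j)) (t (2 * j + 1))‖ₑ ^ 4 =
      ∑ m ∈ (Finset.range L).image (fun j => 2 * j), ‖NF w h i X (t m) (t (m + 1))‖ₑ ^ 4 := by
    rw [Finset.sum_image]
    intro a _ b _ hab
    simp only at hab
    omega
  rw [h3]
  refine Finset.sum_le_sum_of_subset fun m hm => ?_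
  obtain ⟨j, hj, rfl⟩ := Finset.mem_image.1 hm
  rw [Finset.mem_range] at hj ⊢
  omega

end WIV_

open WIV_ in
theorem p_WIV (h1 : Pool.Agent.CRL.T_ABL) : T_WIV := by
  intro A hA
  refine ⟨cst A, fun lam d w Θ Θ1 Θ2 s u i b b' h hPh hlam hd hw hwd hwl hs hh => ⟨?_, ?_⟩⟩
  · intro V1 V2 hV1 hV12 hV2 hb hb'
    exact local_win h1 hA hPh hlam hw hwl hs hh hV1 hV12 hV2 hb hb'
  · intro L N hN h0 hL hb hb'
    set X : ℝ := s * Θ1 (u + i * w) with hX
    have hDc : Continuous fun v => h v * e1 (X * v) :=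
      hh.mul (Pool.Agent.CRR.WIN_.continuous_e1.comp (continuous_const.mul continuous_id))
    have hex : ∀ j, ∃ V, (N j ≤ V ∧ V ≤ N (j + 1)) ∧ ∀ t ∈ Icc (N j) (N (j + 1)),
        ‖∫ v in Ioc (N j) t, h v * e1 (X * v)‖ₑ ≤ ‖∫ v in Ioc (N j) V, h v * e1 (X * v)‖ₑ := by
      intro j
      obtain ⟨V, hV, h2⟩ := exists_max hDc (hN (Nat.le_succ j))
      exact ⟨V, hV, h2⟩
    choose V hV hmax using hex
    have hterm : ∀ j ∈ Finset.range L,
        ‖∫ v in Ioc (N j) (N (j + 1)), e1 (s * Θ (u + v)) * b (u + v) * h v‖ₑ ^ 4 ≤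
          (cst A : ℝ≥0∞) ^ 4 * ‖∫ v in Ioc (N j) (V j), h v * e1 (X * v)‖ₑ ^ 4 := by
      intro j hj
      rw [Finset.mem_range] at hj
      have hsub : Icc (u + N j) (u + N (j + 1)) ⊆ Icc (u + N 0) (u + N L) :=
        Icc_subset_Icc (by linarith [hN (Nat.zero_le j)]) (by
          have : N (j + 1) ≤ N L := hN hj
          linarith)
      have h2 := local_win h1 hA hPh hlam hw hwl hs hh (V1 := N j) (V2 := N (j + 1))
        (h0.trans (hN (Nat.zero_le j))) (hN (Nat.le_succ j)) ((hN hj).trans hL)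
        (fun x hx => hb x (hsub hx)) (hb'.mono hsub)
      have h3 : (⨆ t ∈ Icc (N j) (N (j + 1)), ‖∫ v in Ioc (N j) t, h v * e1 (X * v)‖ₑ) ≤
          ‖∫ v in Ioc (N j) (V j), h v * e1 (X * v)‖ₑ := iSup₂_le fun t ht => hmax j t ht
      rw [← mul_pow]
      exact pow_le_pow_left' (h2.trans (mul_le_mul_right h3 _)) 4
    calc (∑ j ∈ Finset.range L,
        ‖∫ v in Ioc (N j) (N (j + 1)), e1 (s * Θ (u + v)) * b (u + v) * h v‖ₑ ^ 4) ^ (1 / 4 : ℝ)
        ≤ (∑ j ∈ Finset.range L, (cst A : ℝ≥0∞) ^ 4 *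
            ‖∫ v in Ioc (N j) (V j), h v * e1 (X * v)‖ₑ ^ 4) ^ (1 / 4 : ℝ) :=
          ENNReal.rpow_le_rpow (Finset.sum_le_sum hterm) (by norm_num)
      _ = cst A * (∑ j ∈ Finset.range L,
            ‖∫ v in Ioc (N j) (V j), h v * e1 (X * v)‖ₑ ^ 4) ^ (1 / 4 : ℝ) := by
          rw [← Finset.mul_sum, ENNReal.mul_rpow_of_nonneg _ _ (by norm_num)]
          congr 1
          rw [← ENNReal.rpow_natCast, ← ENNReal.rpow_mul]
          norm_num
      _ ≤ cst A * NV w h i X := mul_le_mul_right (sum_le_NV L N V h0 hL hN hV) _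

end Pool.Agent.VRC
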