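import Pool.Agent.VRC.Targets3
import Pool.Agent.CRF.P_FPN

/-!
# VRC, target AB0: random signs, finitely many functions and radii
-/

set_option autoImplicit false

namespace Pool.Agent.VRC

open MeasureTheory FourierTransform Set Filter Topology
open scoped ENNReal NNReal
open Pool.Agent.MBS (E ex)
open Pool.Agent.CAR (e1)

namespace AB0_

variable {n : ℕ}

theorem sh_sub (a b : ℝ) : {ξ : E n | a < ‖ξ‖ ∧ ‖ξ‖ ≤ b} ⊆ Metric.closedBall 0 b := by
  intro ξ h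
  rw [mem_closedBall_zero_iff]
  exact h.2

theorem ball_sub {F : E n → ℂ} (h : ∀ R : ℝ, IntegrableOn F (Metric.closedBall 0 R)) {a b : ℝ}
    (hab : a ≤ b) :
    (∫ ξ in Metric.closedBall (0 : E n) b, F ξ) - ∫ ξ in Metric.closedBall (0 : E n) a, F ξ =
      ∫ ξ in {ξ : E n | a < ‖ξ‖ ∧ ‖ξ‖ ≤ b}, F ξ := by
  have e : {ξ : E n | a < ‖ξ‖ ∧ ‖ξ‖ ≤ b} = Metric.closedBall 0 b \ Metric.closedBall 0 a := by
    ext ξ
    rw [Set.mem_sdiff, mem_closedBall_zero_iff, mem_closedBall_zero_iff, mem_ofPred_eq, not_le,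
      and_comm]
  rw [e, setIntegral_sdiff measurableSet_closedBall (h b) (Metric.closedBall_subset_closedBall hab)]

/-- the variation is measurable -/
theorem VB_meas {g : E n → ℂ} (h : ∀ R : ℝ, IntegrableOn g (Metric.closedBall (0 : E n) R)) :
    Measurable (VB g) := by
  refine LowerSemicontinuous.measurable ?_
  refine lowerSemicontinuous_iSup fun L => lowerSemicontinuous_iSup fun N =>
    lowerSemicontinuous_iSup fun _ => ?_
  refine Continuous.lowerSemicontinuous ?_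
  refine ENNReal.continuous_rpow_const.comp (continuous_finsetSum _ fun j _ => ?_)
  refine (ENNReal.continuous_pow 4).comp ?_
  exact (Pool.Agent.CRF.FPN_.int_cont ((h (N (j + 1))).mono_set (sh_sub _ _))).enorm

/-- the integrals over the balls, and `0` -/
noncomputable def XX (g : E n → ℂ) (r : ℕ → ℝ) (x : E n) : ℕ → ℂ
  | 0 => 0
  | j + 1 => ∫ ξ in Metric.closedBall (0 : E n) (r j), g ξ * ex x ξ

/-- the radii -/
noncomputable def RR (r : ℕ → ℝ) : ℕ → ℝ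
  | 0 => -1
  | j + 1 => r j

theorem XX_eq (g : E n → ℂ) (r : ℕ → ℝ) (x : E n) (j : ℕ) :
    XX g r x j = ∫ ξ in Metric.closedBall (0 : E n) (RR r j), g ξ * ex x ξ := by
  cases j with
  | zero =>
    have : Metric.closedBall (0 : E n) (-1) = ∅ := Metric.closedBall_eq_empty.2 (by norm_num)
    simp only [XX, RR, this, Measure.restrict_empty, integral_zero_measure]
  | succ j => rfl

theorem RR_mono {r : ℕ → ℝ} (hr : StrictMono r) (h0 : 0 < r 0) : Monotone (RR r) := by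
  refine monotone_nat_of_le_succ fun j => ?_
  cases j with
  | zero =>
    simp only [RR]
    linarith
  | succ j =>
    simp only [RR]
    exact hr.monotone (Nat.le_succ j)

/-- the increments -/
theorem incr {g : E n → ℂ} (h : ∀ R : ℝ, IntegrableOn g (Metric.closedBall (0 : E n) R))
    {r : ℕ → ℝ} (hr : StrictMono r) (h0 : 0 < r 0) (x : E n) (l : ℕ) (t : ℕ → ℕ)
    (ht : Monotone t) :
    ∑ s ∈ Finset.range l, ‖XX g r x (t (s + 1)) - XX g r x (t s)‖ₑ ^ 4 ≤ VB g x ^ 4 := by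
  have e : ∀ s, XX g r x (t (s + 1)) - XX g r x (t s) =
      ∫ ξ in {ξ : E n | RR r (t s) < ‖ξ‖ ∧ ‖ξ‖ ≤ RR r (t (s + 1))}, g ξ * ex x ξ := by
    intro s
    rw [XX_eq, XX_eq]
    exact ball_sub (fun R => Pool.Agent.CRF.FPN_.intEx (h R) x)
      (RR_mono hr h0 (ht (Nat.le_succ s)))
  simp only [e]
  have h1 : (∑ s ∈ Finset.range l,
      ‖∫ ξ in {ξ : E n | RR r (t s) < ‖ξ‖ ∧ ‖ξ‖ ≤ RR r (t (s + 1))}, g ξ * ex x ξ‖ₑ ^ 4) ^
        (1 / 4 : ℝ) ≤ VB g x :=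
    le_iSup_of_le l (le_iSup_of_le (fun s => RR r (t s))
      (le_iSup_of_le ((RR_mono hr h0).comp ht) le_rfl))
  have h2 := pow_le_pow_left' h1 4
  refine le_trans (le_of_eq ?_) h2
  rw [← ENNReal.rpow_natCast, ← ENNReal.rpow_mul]
  norm_num

/-- removing the small frequencies -/
theorem shell_eq {g : E n → ℂ} (ρ R : ℝ) (x : E n) :
    ∫ ξ in {ξ : E n | ρ < ‖ξ‖ ∧ ‖ξ‖ ≤ R}, g ξ * ex x ξ =
      ∫ ξ in Metric.closedBall (0 : E n) R, {ξ : E n | ρ < ‖ξ‖}.indicator g ξ * ex x ξ := by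
  have hm : MeasurableSet {ξ : E n | ρ < ‖ξ‖} := measurableSet_lt measurable_const measurable_norm
  have e1 : (fun ξ : E n => {ξ : E n | ρ < ‖ξ‖}.indicator g ξ * ex x ξ) =
      {ξ : E n | ρ < ‖ξ‖}.indicator (fun ξ => g ξ * ex x ξ) := by
    funext ξ
    by_cases h : ξ ∈ {ξ : E n | ρ < ‖ξ‖}
    · rw [indicator_of_mem h, indicator_of_mem h]
    · rw [indicator_of_notMem h, indicator_of_notMem h, zero_mul]
  rw [e1, setIntegral_indicator hm]
  congr 2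
  ext ξ
  rw [mem_inter_iff, mem_closedBall_zero_iff]
  exact and_comm

end AB0_

open AB0_ in
theorem p_AB0 (h1 : T_CHN) : T_AB0 := by
  obtain ⟨C1, hC1⟩ := h1
  refine ⟨C1, fun n A B g ρ Ω _ P ε m M r hn hG hS hρ hr0 hr => ?_⟩
  have hP := hS.prob
  have hm : MeasurableSet {ξ : E n | ρ < ‖ξ‖} := measurableSet_lt measurable_const measurable_norm
  have hgm : ∀ i, Measurable ({ξ : E n | ρ < ‖ξ‖}.indicator (g i)) := fun i =>
    (hG.meas i).indicator hm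
  have hle : ∀ i ξ, ‖{ξ : E n | ρ < ‖ξ‖}.indicator (g i) ξ‖ₑ ≤ ‖g i ξ‖ₑ := by
    intro i ξ
    by_cases h : ξ ∈ {ξ : E n | ρ < ‖ξ‖}
    · rw [indicator_of_mem h]
    · rw [indicator_of_notMem h]
      simp
  have hgl : ∀ i, ∫⁻ ξ, ‖{ξ : E n | ρ < ‖ξ‖}.indicator (g i) ξ‖ₑ ^ 2 ≠ ⊤ := fun i =>
    ne_top_of_le_ne_top hG.fin ((lintegral_mono fun ξ => pow_le_pow_left' (hle i ξ) 2).trans
      (ENNReal.le_tsum i))
  have hint : ∀ i (R : ℝ), IntegrableOn ({ξ : E n | ρ < ‖ξ‖}.indicator (g i))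
      (Metric.closedBall (0 : E n) R) :=
    fun i R => Pool.Agent.CRF.FPN_.int_ball (hgm i) (hgl i) R
  have hrp : 0 < r 0 := lt_of_le_of_lt hρ hr0
  simp only [shell_eq ρ]
  have hF : Measurable (Function.uncurry fun (ω : Ω) (x : E n) =>
      (⨆ (j : ℕ) (_ : j ≤ M), ‖∑ i ∈ Finset.range m, (ε i ω : ℂ) *
        ∫ ξ in Metric.closedBall (0 : E n) (r j),
          {ξ : E n | ρ < ‖ξ‖}.indicator (g i) ξ * ex x ξ‖ₑ) ^ 2) := by
    refine Measurable.pow_const ?_ 2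
    refine Measurable.iSup fun j => Measurable.iSup_Prop _ ?_
    refine (Finset.measurable_fun_sum _ fun i _ => ?_).enorm
    exact (Complex.measurable_ofReal.comp ((hS.meas i).comp measurable_fst)).mul
      ((Pool.Agent.CRF.FPN_.int_cont (hint i (r j))).measurable.comp measurable_snd)
  rw [lintegral_lintegral_swap hF.aemeasurable]
  have hpt : ∀ x : E n, ∫⁻ ω, (⨆ (j : ℕ) (_ : j ≤ M), ‖∑ i ∈ Finset.range m, (ε i ω : ℂ) *
        ∫ ξ in Metric.closedBall (0 : E n) (r j),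
          {ξ : E n | ρ < ‖ξ‖}.indicator (g i) ξ * ex x ξ‖ₑ) ^ 2 ∂P ≤
      C1 * ∑ i ∈ Finset.range m, VB ({ξ : E n | ρ < ‖ξ‖}.indicator (g i)) x ^ 2 := by
    intro x
    refine le_trans ?_ (hC1 Ω P ε hS m (M + 1)
      (fun i => XX ({ξ : E n | ρ < ‖ξ‖}.indicator (g i)) r x)
      (fun i => VB ({ξ : E n | ρ < ‖ξ‖}.indicator (g i)) x) (fun i => rfl)
      (fun i _ l t ht _ => incr (hint i) hr hrp x l t ht))
    refine lintegral_mono fun ω => pow_le_pow_left' ?_ 2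
    refine iSup₂_le fun j hj => ?_
    exact le_iSup₂_of_le (f := fun (j : ℕ) (_ : j ≤ M + 1) =>
      ‖∑ i ∈ Finset.range m, (ε i ω : ℂ) *
        XX ({ξ : E n | ρ < ‖ξ‖}.indicator (g i)) r x j‖ₑ) (j + 1)
      (Nat.succ_le_succ hj) le_rfl
  have hVm : ∀ i, Measurable fun x => VB ({ξ : E n | ρ < ‖ξ‖}.indicator (g i)) x ^ 2 := fun i =>
    (VB_meas (hint i)).pow_const 2
  calc ∫⁻ x in A, ∫⁻ ω, (⨆ (j : ℕ) (_ : j ≤ M),
        ‖∑ i ∈ Finset.range m, (ε i ω : ℂ) *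
          ∫ ξ in Metric.closedBall (0 : E n) (r j),
            {ξ : E n | ρ < ‖ξ‖}.indicator (g i) ξ * ex x ξ‖ₑ) ^ 2 ∂P
      ≤ ∫⁻ x in A,
          C1 * ∑ i ∈ Finset.range m, VB ({ξ : E n | ρ < ‖ξ‖}.indicator (g i)) x ^ 2 :=
        lintegral_mono hpt
    _ = C1 * ∑ i ∈ Finset.range m,
          ∫⁻ x in A, VB ({ξ : E n | ρ < ‖ξ‖}.indicator (g i)) x ^ 2 := by
        rw [lintegral_const_mul _ (Finset.measurable_fun_sum _ fun i _ => hVm i),
          lintegral_finsetSum _ fun i _ => hVm i]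
    _ ≤ C1 * ∑ i ∈ Finset.range m, (B * ∫⁻ ξ in {ξ : E n | ρ < ‖ξ‖}, ‖g i ξ‖ₑ ^ 2) := by
        refine mul_le_mul_right (Finset.sum_le_sum fun i _ => ?_) _
        exact hG.bd i ρ hρ
    _ = C1 * B * ∑ i ∈ Finset.range m, ∫⁻ ξ in {ξ : E n | ρ < ‖ξ‖}, ‖g i ξ‖ₑ ^ 2 := by
        rw [← Finset.mul_sum, mul_assoc]
    _ ≤ _ := mul_le_mul_right (ENNReal.sum_le_tsum _) _

end Pool.Agent.VRC
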