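import Pool.Agent.VRC.Targets2
import Pool.Agent.CRF.P_FL1

set_option autoImplicit false

/-!
# VRC: random signs, all cells and all radii (helper23)
-/

namespace Pool.Agent.VRC

open MeasureTheory FourierTransform Set Filter Topology
open scoped ENNReal NNReal
open Pool.Agent.MBS (E ex)
open Pool.Agent.CAR (e1)
open Pool.Agent.CRF (jn tl T_FSP T_FRT)

namespace RC1_

open Pool.Agent.CRF.FL1_ (intOn ex_meas intEx)

variable {n : ℕ}

/-- ball integral -/
noncomputable def bi (u : E n → ℂ) (R : ℝ) (x : E n) : ℂ :=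
  ∫ ξ in Metric.closedBall (0 : E n) R, u ξ * ex x ξ

theorem bi_cont {u : E n → ℂ} {R : ℝ} (hu : IntegrableOn u (Metric.closedBall 0 R)) :
    Continuous (bi u R) := by
  unfold bi
  refine continuous_of_dominated (bound := fun ξ => ‖u ξ‖)
    (fun x => (intEx hu x).1) (fun x => ae_of_all _ fun ξ => ?_) hu.norm
    (ae_of_all _ fun ξ => ?_)
  · rw [norm_mul, Pool.Agent.MBS.ex_norm, mul_one]
  · exact continuous_const.mul (Pool.Agent.MBS.ex_continuous.comp (Continuous.prodMk_left ξ))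

/-- continuity from the right in the radius -/
theorem bi_right {u : E n → ℂ} {R : ℝ} (hu : IntegrableOn u (Metric.closedBall 0 (R + 1)))
    (x : E n) {s : ℕ → ℝ} (hs : Tendsto s atTop (𝓝 R)) (h1 : ∀ K, R ≤ s K)
    (h2 : ∀ K, s K ≤ R + 1) : Tendsto (fun K => bi u (s K) x) atTop (𝓝 (bi u R x)) := by
  unfold bi
  simp only [← integral_indicator (measurableSet_closedBall (x := (0 : E n)))]
  refine tendsto_integral_of_dominated_convergence
    ((Metric.closedBall (0 : E n) (R + 1)).indicator fun ξ => ‖u ξ‖) (fun K => ?_) ?_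
    (fun K => ?_) ?_
  · have h3 : IntegrableOn (fun ξ => u ξ * ex x ξ) (Metric.closedBall 0 (s K)) :=
      (intEx hu x).mono_set (Metric.closedBall_subset_closedBall (h2 K))
    exact (h3.integrable_indicator measurableSet_closedBall).1
  · have h3 : IntegrableOn (fun ξ => ‖u ξ‖) (Metric.closedBall 0 (R + 1)) := hu.norm
    exact h3.integrable_indicator measurableSet_closedBall
  · refine ae_of_all _ fun ξ => ?_
    by_cases hξ : ξ ∈ Metric.closedBall (0 : E n) (s K)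
    · rw [indicator_of_mem hξ,
        indicator_of_mem (Metric.closedBall_subset_closedBall (h2 K) hξ), norm_mul,
        Pool.Agent.MBS.ex_norm, mul_one]
    · rw [indicator_of_notMem hξ, norm_zero]
      exact indicator_nonneg (fun _ _ => norm_nonneg _) _
  · refine ae_of_all _ fun ξ => ?_
    rcases le_or_gt ‖ξ‖ R with hξ | hξ
    · have hR : ξ ∈ Metric.closedBall (0 : E n) R := by simpa using hξ
      refine tendsto_const_nhds.congr fun K => ?_
      rw [indicator_of_mem hR,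
        indicator_of_mem (Metric.closedBall_subset_closedBall (h1 K) hR)]
    · have hR : ξ ∉ Metric.closedBall (0 : E n) R := by simpa using hξ
      refine tendsto_const_nhds.congr' ?_
      filter_upwards [hs.eventually_lt_const hξ] with K hK
      have hR' : ξ ∉ Metric.closedBall (0 : E n) (s K) := by simpa using hK
      rw [indicator_of_notMem hR, indicator_of_notMem hR']

theorem sgn_ae {Ω : Type} [MeasurableSpace Ω] {P : Measure Ω} {ε : ℕ → Ω → ℝ}
    (h : Sgn P ε) : ∀ᵐ ω ∂P, ∀ i, ε i ω = 1 ∨ ε i ω = -1 := by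
  rw [ae_all_iff]
  intro i
  have := h.prob
  have h1 : MeasurableSet {ω | ε i ω = 1} := h.meas i (measurableSet_singleton 1)
  have h2 : MeasurableSet {ω | ε i ω = -1} := h.meas i (measurableSet_singleton (-1))
  have hd : Disjoint {ω | ε i ω = 1} {ω | ε i ω = -1} := by
    rw [Set.disjoint_left]
    intro ω h4 h5
    have h4' : ε i ω = 1 := h4
    have h5' : ε i ω = -1 := h5
    rw [h4'] at h5'
    norm_num at h5'
  have h3 : P ({ω | ε i ω = 1} ∪ {ω | ε i ω = -1}) = 1 := by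
    rw [measure_union hd h2, h.pos i, h.neg i, ENNReal.add_halves]
  exact (prob_compl_eq_zero_iff (h1.union h2)).2 h3

/-- finite sums of the multiplier -/
noncomputable def pm (Q : ℕ → Set (E n)) (s : ℕ → ℝ) (m : ℕ) (ξ : E n) : ℂ :=
  ∑ i ∈ Finset.range m, (Q i).indicator (fun _ => (s i : ℂ)) ξ

theorem pm_prop {Q : ℕ → Set (E n)} (hd : ∀ i j, i ≠ j → Disjoint (Q i) (Q j)) {s : ℕ → ℝ}
    (hs : ∀ i, s i = 1 ∨ s i = -1) (ξ : E n) : (∀ m, ‖pm Q s m ξ‖ ≤ 1) ∧
    Tendsto (fun m => pm Q s m ξ) atTop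
      (𝓝 (∑' i, (Q i).indicator (fun _ => (s i : ℂ)) ξ)) := by
  by_cases h : ∃ i, ξ ∈ Q i
  · obtain ⟨i, hi⟩ := h
    have h0 : ∀ j, j ≠ i → (Q j).indicator (fun _ => (s j : ℂ)) ξ = 0 := by
      intro j hj
      exact indicator_of_notMem (fun h1 => Set.disjoint_left.1 (hd j i hj) h1 hi) _
    have hn : ‖(Q i).indicator (fun _ => (s i : ℂ)) ξ‖ = 1 := by
      rw [indicator_of_mem hi, Complex.norm_real, Real.norm_eq_abs]
      rcases hs i with h2 | h2 <;> rw [h2] <;> simp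
    have hm : ∀ m, pm Q s m ξ = if i < m then (Q i).indicator (fun _ => (s i : ℂ)) ξ else 0 := by
      intro m
      unfold pm
      split_ifs with h3
      · exact Finset.sum_eq_single_of_mem i (Finset.mem_range.2 h3) fun j _ hj => h0 j hj
      · refine Finset.sum_eq_zero fun j hj => h0 j ?_
        have := Finset.mem_range.1 hj
        omega
    constructor
    · intro m
      rw [hm]
      split_ifs
      · exact hn.le
      · simp
    · rw [tsum_eq_single i h0]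
      refine tendsto_const_nhds.congr' ?_
      filter_upwards [eventually_gt_atTop i] with m hm2
      rw [hm, if_pos hm2]
  · push Not at h
    have h0 : ∀ j, (Q j).indicator (fun _ => (s j : ℂ)) ξ = 0 := fun j =>
      indicator_of_notMem (h j) _
    have hm : ∀ m, pm Q s m ξ = 0 := fun m => Finset.sum_eq_zero fun j _ => h0 j
    constructor
    · intro m
      rw [hm]
      simp
    · simp only [hm, h0, tsum_zero]
      exact tendsto_const_nhds

theorem pm_meas {Q : ℕ → Set (E n)} (hQ : ∀ i, MeasurableSet (Q i)) (s : ℕ → ℝ) (m : ℕ) :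
    Measurable (pm Q s m) := by
  unfold pm
  exact Finset.measurable_fun_sum _ fun i _ => measurable_const.indicator (hQ i)

theorem sum_eq {Q : ℕ → Set (E n)} (hQ : ∀ i, MeasurableSet (Q i)) (s : ℕ → ℝ) (m : ℕ)
    {g : E n → ℂ} {R : ℝ} (hg : IntegrableOn g (Metric.closedBall 0 R)) (x : E n) :
    ∑ i ∈ Finset.range m, (s i : ℂ) * bi ((Q i).indicator g) R x =
      bi (fun ξ => pm Q s m ξ * g ξ) R x := by
  unfold bi
  have h1 : ∀ i, IntegrableOn (fun ξ => (Q i).indicator g ξ * ex x ξ)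
      (Metric.closedBall (0 : E n) R) := fun i => intEx (hg.indicator (hQ i)) x
  simp only [← integral_const_mul]
  rw [← integral_finsetSum _ fun i _ => (h1 i).const_mul _]
  refine integral_congr_ae (ae_of_all _ fun ξ => ?_)
  simp only [pm]
  rw [Finset.sum_mul, Finset.sum_mul]
  refine Finset.sum_congr rfl fun i _ => ?_
  by_cases h : ξ ∈ Q i
  · rw [indicator_of_mem h, indicator_of_mem h]
    ring
  · rw [indicator_of_notMem h, indicator_of_notMem h]
    ring

theorem tend {Q : ℕ → Set (E n)} (hQ : ∀ i, MeasurableSet (Q i))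
    (hd : ∀ i j, i ≠ j → Disjoint (Q i) (Q j)) {s : ℕ → ℝ} (hs : ∀ i, s i = 1 ∨ s i = -1)
    {g : E n → ℂ} {R : ℝ} (hg : IntegrableOn g (Metric.closedBall 0 R)) (x : E n) :
    Tendsto (fun m => ∑ i ∈ Finset.range m, (s i : ℂ) * bi ((Q i).indicator g) R x) atTop
      (𝓝 (bi (fun ξ => (∑' i, (Q i).indicator (fun _ => (s i : ℂ)) ξ) * g ξ) R x)) := by
  simp only [sum_eq hQ s _ hg x]
  unfold bi
  refine tendsto_integral_of_dominated_convergence (fun ξ => ‖g ξ‖) (fun m => ?_) hg.norm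
    (fun m => ae_of_all _ fun ξ => ?_) (ae_of_all _ fun ξ => ?_)
  · exact ((pm_meas hQ s m).aestronglyMeasurable.mul hg.1).mul
      (ex_meas x).aestronglyMeasurable
  · rw [norm_mul, Pool.Agent.MBS.ex_norm, mul_one, norm_mul]
    exact mul_le_of_le_one_left (norm_nonneg _) ((pm_prop hd hs ξ).1 m)
  · exact ((pm_prop hd hs ξ).2.mul_const _).mul_const _

theorem rm_int {Q : ℕ → Set (E n)} (hQ : ∀ i, MeasurableSet (Q i))
    (hd : ∀ i j, i ≠ j → Disjoint (Q i) (Q j)) {s : ℕ → ℝ} (hs : ∀ i, s i = 1 ∨ s i = -1)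
    {g : E n → ℂ} {R : ℝ} (hg : IntegrableOn g (Metric.closedBall 0 R)) :
    IntegrableOn (fun ξ => (∑' i, (Q i).indicator (fun _ => (s i : ℂ)) ξ) * g ξ)
      (Metric.closedBall 0 R) := by
  have hm : Measurable fun ξ => ∑' i, (Q i).indicator (fun _ => (s i : ℂ)) ξ :=
    measurable_of_tendsto_metrizable (fun m => pm_meas hQ s m)
      (tendsto_pi_nhds.2 fun ξ => (pm_prop hd hs ξ).2)
  refine Integrable.mono hg (hm.aestronglyMeasurable.mul hg.1) (ae_of_all _ fun ξ => ?_)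
  rw [norm_mul]
  refine mul_le_of_le_one_left (norm_nonneg _) ?_
  exact le_of_tendsto (pm_prop hd hs ξ).2.norm
    (Eventually.of_forall fun m => (pm_prop hd hs ξ).1 m)

theorem sq_iSup_le {a : ℝ → ℝ≥0∞} {c : ℝ≥0∞} (h : ∀ R, 0 < R → a R ^ 2 ≤ c) :
    (⨆ (R : ℝ) (_ : 0 < R), a R) ^ 2 ≤ c := by
  have hs : ∀ X : ℝ≥0∞, (X ^ (1 / (2 : ℝ))) ^ 2 = X := fun X => by
    rw [← ENNReal.rpow_natCast, ← ENNReal.rpow_mul]
    norm_num
  have hs2 : ∀ X : ℝ≥0∞, (X ^ 2) ^ (1 / (2 : ℝ)) = X := fun X => by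
    rw [← ENNReal.rpow_natCast, ← ENNReal.rpow_mul]
    norm_num
  have h1 : (⨆ (R : ℝ) (_ : 0 < R), a R) ≤ c ^ (1 / (2 : ℝ)) := by
    refine iSup₂_le fun R hR => ?_
    rw [← hs2 (a R)]
    exact ENNReal.rpow_le_rpow (h R hR) (by norm_num)
  calc (⨆ (R : ℝ) (_ : 0 < R), a R) ^ 2 ≤ (c ^ (1 / (2 : ℝ))) ^ 2 := pow_le_pow_left' h1 2
    _ = c := hs c

/-- the supremum is a limit of suprema over dyadic grids -/
theorem key {a : ℝ → ℝ≥0∞} {am : ℕ → ℝ → ℝ≥0∞}
    (h1 : ∀ R, Tendsto (fun m => am m R) atTop (𝓝 (a R)))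
    (h2 : ∀ R, ∀ s : ℕ → ℝ, Tendsto s atTop (𝓝 R) → (∀ K, R ≤ s K) →
      (∀ K, s K ≤ R + 1) → Tendsto (fun K => a (s K)) atTop (𝓝 (a R))) :
    (⨆ (R : ℝ) (_ : 0 < R), a R) ^ 2 ≤ liminf (fun K : ℕ => liminf (fun m =>
      (⨆ (j : ℕ) (_ : j ≤ 4 ^ K), am m (((j : ℝ) + 1) / 2 ^ K)) ^ 2) atTop) atTop := by
  refine sq_iSup_le fun R hR => ?_
  set s : ℕ → ℝ := fun K => (⌈R * 2 ^ K⌉₊ : ℝ) / 2 ^ K with hs
  have s1 : ∀ K, R ≤ s K := by
    intro K
    rw [hs]
    simp only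
    rw [le_div_iff₀ (by positivity)]
    exact Nat.le_ceil _
  have s2 : ∀ K, s K ≤ R + (1 / 2) ^ K := by
    intro K
    rw [hs]
    simp only
    rw [div_le_iff₀ (by positivity), add_mul, ← mul_pow]
    norm_num
    exact (Nat.ceil_lt_add_one (by positivity)).le
  have s3 : ∀ K, s K ≤ R + 1 := by
    intro K
    have : ((1 : ℝ) / 2) ^ K ≤ 1 := pow_le_one₀ (by norm_num) (by norm_num)
    linarith [s2 K]
  have s4 : Tendsto s atTop (𝓝 R) := by
    have h3 : Tendsto (fun K : ℕ => R + (1 / 2 : ℝ) ^ K) atTop (𝓝 (R + 0)) :=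
      tendsto_const_nhds.add (tendsto_pow_atTop_nhds_zero_of_lt_one (by norm_num) (by norm_num))
    rw [add_zero] at h3
    exact tendsto_of_tendsto_of_tendsto_of_le_of_le tendsto_const_nhds h3 s1 s2
  have h5 : Tendsto (fun K => a (s K) ^ 2) atTop (𝓝 (a R ^ 2)) :=
    ((ENNReal.continuous_pow 2).tendsto _).comp (h2 R s s4 s1 s3)
  rw [← h5.liminf_eq]
  refine liminf_le_liminf ?_
  have h6 : ∀ᶠ K : ℕ in atTop, R ≤ 2 ^ K :=
    (tendsto_pow_atTop_atTop_of_one_lt (by norm_num : (1 : ℝ) < 2)).eventually_ge_atTop R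
  filter_upwards [h6] with K hK
  have h7 : Tendsto (fun m => am m (s K) ^ 2) atTop (𝓝 (a (s K) ^ 2)) :=
    ((ENNReal.continuous_pow 2).tendsto _).comp (h1 (s K))
  rw [← h7.liminf_eq]
  refine liminf_le_liminf (Eventually.of_forall fun m => pow_le_pow_left' ?_ 2)
  have hp : 0 < ⌈R * 2 ^ K⌉₊ := Nat.ceil_pos.2 (by positivity)
  have hj : ⌈R * 2 ^ K⌉₊ - 1 ≤ 4 ^ K := by
    have h8 : ⌈R * 2 ^ K⌉₊ ≤ 4 ^ K := by
      refine Nat.ceil_le.2 ?_
      push_cast
      calc R * 2 ^ K ≤ 2 ^ K * 2 ^ K := by gcongr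
        _ = 4 ^ K := by rw [← mul_pow]; norm_num
    omega
  have e : s K = (((⌈R * 2 ^ K⌉₊ - 1 : ℕ) : ℝ) + 1) / 2 ^ K := by
    rw [hs]
    simp only
    congr 1
    have : ((⌈R * 2 ^ K⌉₊ - 1 : ℕ) : ℝ) + 1 = ((⌈R * 2 ^ K⌉₊ - 1 + 1 : ℕ) : ℝ) := by
      push_cast
      rfl
    rw [this, Nat.sub_add_cancel hp]
  rw [e]
  exact le_iSup₂_of_le (f := fun (j : ℕ) (_ : j ≤ 4 ^ K) => am m (((j : ℝ) + 1) / 2 ^ K))
    (⌈R * 2 ^ K⌉₊ - 1) hj le_rfl

end RC1_

open RC1_ in
open Pool.Agent.CRF.FL1_ (intOn ex_meas intEx) in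
/-- random signs, all cells and all radii -/
theorem p_RC1 (h1 : T_RC0) : T_RC1 := by
  intro n k hn hk
  obtain ⟨C, hC⟩ := h1 n k hn hk
  refine ⟨C, fun Q w g x0 Ω _ P ε hQ hg hfin hε => ?_⟩
  have := hε.prob
  have hgi := intOn hg hfin
  have hci : ∀ i R, IntegrableOn ((Q i).indicator g) (Metric.closedBall 0 R) :=
    fun i R => (hgi R).indicator (hQ.meas i)
  set Ψ : ℕ → ℕ → Ω × E n → ℝ≥0∞ := fun K m z =>
    (⨆ (j : ℕ) (_ : j ≤ 4 ^ K), ‖∑ i ∈ Finset.range m, (ε i z.1 : ℂ) *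
      bi ((Q i).indicator g) (((j : ℝ) + 1) / 2 ^ K) z.2‖ₑ) ^ 2 with hΨd
  have hΨ : ∀ K m, Measurable (Ψ K m) := by
    intro K m
    refine Measurable.pow_const (Measurable.iSup fun j => Measurable.iSup fun _ => ?_) 2
    refine Measurable.enorm (Finset.measurable_fun_sum _ fun i _ => ?_)
    exact (Complex.measurable_ofReal.comp ((hε.meas i).comp measurable_fst)).mul
      ((bi_cont (hci i _)).measurable.comp measurable_snd)
  have hb : ∀ K m, ∫⁻ z, Ψ K m z ∂(P.prod (volume.restrict (Metric.closedBall x0 1))) ≤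
      C * ∫⁻ ξ, ‖g ξ‖ₑ ^ 2 := by
    intro K m
    rw [lintegral_prod _ (hΨ K m).aemeasurable]
    refine hC Q w g x0 Ω P ε m (4 ^ K) (fun j => ((j : ℝ) + 1) / 2 ^ K) hQ hg hfin hε ?_ ?_
    · intro i j hij
      have : (i : ℝ) < j := by exact_mod_cast hij
      change ((i : ℝ) + 1) / 2 ^ K < ((j : ℝ) + 1) / 2 ^ K
      gcongr
    · change (0 : ℝ) < (((0 : ℕ) : ℝ) + 1) / 2 ^ K
      positivity
  calc ∫⁻ ω, (∫⁻ x in Metric.closedBall x0 1, (⨆ (R : ℝ) (_ : 0 < R),
      ‖∫ ξ in Metric.closedBall (0 : E n) R, rm Q ε ω ξ * g ξ * ex x ξ‖ₑ) ^ 2) ∂P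
      ≤ ∫⁻ ω, (∫⁻ x in Metric.closedBall x0 1,
          liminf (fun K => liminf (fun m => Ψ K m (ω, x)) atTop) atTop) ∂P := by
        refine lintegral_mono_ae ?_
        filter_upwards [sgn_ae hε] with ω hω
        refine lintegral_mono fun x => ?_
        refine key (a := fun R => ‖bi (fun ξ => rm Q ε ω ξ * g ξ) R x‖ₑ)
          (am := fun m R => ‖∑ i ∈ Finset.range m, (ε i ω : ℂ) *
            bi ((Q i).indicator g) R x‖ₑ) (fun R => ?_) (fun R s hs h3 h4 => ?_)
        · exact (tend hQ.meas hQ.disj (s := fun i => ε i ω) hω (hgi R) x).enorm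
        · exact (bi_right (rm_int hQ.meas hQ.disj (s := fun i => ε i ω) hω (hgi (R + 1))) x
            hs h3 h4).enorm
    _ = ∫⁻ z, liminf (fun K => liminf (fun m => Ψ K m z) atTop) atTop
          ∂(P.prod (volume.restrict (Metric.closedBall x0 1))) := by
        rw [lintegral_prod]
        exact (Measurable.liminf fun K => Measurable.liminf (hΨ K)).aemeasurable
    _ ≤ liminf (fun K => ∫⁻ z, liminf (fun m => Ψ K m z) atTop
          ∂(P.prod (volume.restrict (Metric.closedBall x0 1)))) atTop :=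
        lintegral_liminf_le fun K => Measurable.liminf (hΨ K)
    _ ≤ liminf (fun K => liminf (fun m => ∫⁻ z, Ψ K m z
          ∂(P.prod (volume.restrict (Metric.closedBall x0 1)))) atTop) atTop :=
        liminf_le_liminf (Eventually.of_forall fun K => lintegral_liminf_le (hΨ K))
    _ ≤ liminf (fun _ : ℕ => liminf (fun _ : ℕ => (C : ℝ≥0∞) * ∫⁻ ξ, ‖g ξ‖ₑ ^ 2) atTop)
          atTop := by
        refine liminf_le_liminf (Eventually.of_forall fun K => ?_)
        exact liminf_le_liminf (Eventually.of_forall fun m => hb K m)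
    _ = C * ∫⁻ ξ, ‖g ξ‖ₑ ^ 2 := by simp only [liminf_const]

end Pool.Agent.VRC
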