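import Pool.Agent.VRC.Targets3
import Pool.Agent.VRC.P_RC1

set_option autoImplicit false

/-!
# VRC: random signs, all functions and all radii (helper23)
-/

namespace Pool.Agent.VRC

open MeasureTheory FourierTransform Set Filter Topology
open scoped ENNReal NNReal
open Pool.Agent.MBS (E ex)

namespace AB1_

open Pool.Agent.CRF.FL1_ (intOn ex_meas intEx)
open RC1_ (bi bi_cont bi_right key)

variable {n : ℕ}

/-- frequencies outside a ball -/
def ou (n : ℕ) (ρ : ℝ) : Set (E n) := {ξ : E n | ρ < ‖ξ‖}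

theorem ou_meas (ρ : ℝ) : MeasurableSet (ou n ρ) := by
  unfold ou
  exact measurableSet_lt measurable_const measurable_norm

theorem si_eq (ρ R : ℝ) (u : E n → ℂ) (x : E n) :
    ∫ ξ in {ξ : E n | ρ < ‖ξ‖ ∧ ‖ξ‖ ≤ R}, u ξ * ex x ξ = bi ((ou n ρ).indicator u) R x := by
  unfold bi
  have h1 : {ξ : E n | ρ < ‖ξ‖ ∧ ‖ξ‖ ≤ R} = Metric.closedBall (0 : E n) R ∩ ou n ρ := by
    ext ξ
    simp only [ou, mem_ofPred_eq, mem_inter_iff, mem_closedBall_zero_iff]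
    tauto
  rw [h1, ← setIntegral_indicator (ou_meas ρ)]
  refine integral_congr_ae (ae_of_all _ fun ξ => ?_)
  by_cases h : ξ ∈ ou n ρ
  · simp only [indicator_of_mem h]
  · simp only [indicator_of_notMem h, zero_mul]

theorem bi_enorm_le {u : E n → ℂ} (hu : Measurable u) (R : ℝ) (x : E n) :
    ‖bi u R x‖ₑ ≤ (∫⁻ ξ, ‖u ξ‖ₑ ^ 2) ^ (1 / 2 : ℝ) *
      (volume (Metric.closedBall (0 : E n) R)) ^ (1 / 2 : ℝ) := by
  unfold bi
  refine (enorm_integral_le_lintegral_enorm _).trans ?_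
  have h1 : ∀ ξ : E n, ‖u ξ * ex x ξ‖ₑ = ‖u ξ‖ₑ * 1 := by
    intro ξ
    have h2 : ‖ex x ξ‖ₑ = 1 := by
      rw [← ofReal_norm, Pool.Agent.MBS.ex_norm, ENNReal.ofReal_one]
    rw [enorm_mul, h2]
  simp only [h1]
  have h3 := ENNReal.lintegral_mul_le_Lp_mul_Lq
    (volume.restrict (Metric.closedBall (0 : E n) R)) Real.HolderConjugate.two_two
    (f := fun ξ => ‖u ξ‖ₑ) (g := fun _ => 1) hu.enorm.aemeasurable aemeasurable_const
  refine h3.trans ?_
  refine mul_le_mul' (ENNReal.rpow_le_rpow ?_ (by norm_num)) (ENNReal.rpow_le_rpow ?_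
    (by norm_num))
  · calc ∫⁻ ξ in Metric.closedBall (0 : E n) R, ‖u ξ‖ₑ ^ (2 : ℝ)
        ≤ ∫⁻ ξ, ‖u ξ‖ₑ ^ (2 : ℝ) := setLIntegral_le_lintegral _ _
      _ = ∫⁻ ξ, ‖u ξ‖ₑ ^ 2 := by
          refine lintegral_congr fun ξ => ?_
          exact_mod_cast ENNReal.rpow_natCast (‖u ξ‖ₑ) 2
  · simp

/-- a finite signed sum is integrable on balls, with finite square -/
theorem sum_fin {g : ℕ → E n → ℂ} (hm : ∀ i, Measurable (g i))
    (hf : ∀ i, ∫⁻ ξ, ‖g i ξ‖ₑ ^ 2 ≠ ⊤) (s : ℕ → ℝ) (m : ℕ) (R : ℝ) :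
    IntegrableOn (fun ξ => ∑ i ∈ Finset.range m, (s i : ℂ) * g i ξ) (Metric.closedBall 0 R) :=
  integrable_finsetSum _ fun i _ => ((intOn (hm i) (hf i)) R).const_mul _

theorem lim_int {g : ℕ → E n → ℂ} (hm : ∀ i, Measurable (g i))
    (hf : ∀ i, ∫⁻ ξ, ‖g i ξ‖ₑ ^ 2 ≠ ⊤) {s : ℕ → ℝ} {G : E n → ℂ} (hG : Measurable G)
    (h : Tendsto (fun m : ℕ => ∫⁻ ξ, ‖G ξ - ∑ i ∈ Finset.range m, (s i : ℂ) * g i ξ‖ₑ ^ 2)
      atTop (𝓝 0)) (R : ℝ) : IntegrableOn G (Metric.closedBall 0 R) := by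
  obtain ⟨m, hm1⟩ := (h.eventually_lt_const ENNReal.zero_lt_top).exists
  have hS : Measurable fun ξ => ∑ i ∈ Finset.range m, (s i : ℂ) * g i ξ :=
    Finset.measurable_fun_sum _ fun i _ => (hm i).const_mul _
  have h1 := (intOn (hG.sub hS) hm1.ne R).add (sum_fin hm hf s m R)
  refine h1.congr (ae_of_all _ fun ξ => ?_)
  simp

theorem tend {g : ℕ → E n → ℂ} (hm : ∀ i, Measurable (g i))
    (hf : ∀ i, ∫⁻ ξ, ‖g i ξ‖ₑ ^ 2 ≠ ⊤) {s : ℕ → ℝ} {G : E n → ℂ} (hG : Measurable G)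
    (h : Tendsto (fun m : ℕ => ∫⁻ ξ, ‖G ξ - ∑ i ∈ Finset.range m, (s i : ℂ) * g i ξ‖ₑ ^ 2)
      atTop (𝓝 0)) (ρ R : ℝ) (x : E n) :
    Tendsto (fun m => ∑ i ∈ Finset.range m, (s i : ℂ) * bi ((ou n ρ).indicator (g i)) R x) atTop
      (𝓝 (bi ((ou n ρ).indicator G) R x)) := by
  rw [tendsto_iff_edist_tendsto_0]
  have hv : (volume (Metric.closedBall (0 : E n) R)) ^ (1 / 2 : ℝ) ≠ ⊤ :=
    ENNReal.rpow_ne_top_of_nonneg (by norm_num) measure_closedBall_lt_top.ne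
  have h2 : Tendsto (fun m : ℕ => (∫⁻ ξ, ‖G ξ - ∑ i ∈ Finset.range m,
      (s i : ℂ) * g i ξ‖ₑ ^ 2) ^ (1 / 2 : ℝ) *
      (volume (Metric.closedBall (0 : E n) R)) ^ (1 / 2 : ℝ)) atTop (𝓝 0) := by
    have h3 := ENNReal.Tendsto.mul_const (b := (volume (Metric.closedBall (0 : E n) R)) ^
      (1 / 2 : ℝ)) (h.ennrpow_const (1 / 2 : ℝ)) (Or.inr hv)
    rwa [ENNReal.zero_rpow_of_pos (by norm_num), zero_mul] at h3
  refine tendsto_of_tendsto_of_tendsto_of_le_of_le tendsto_const_nhds h2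
    (fun _ => zero_le) fun m => ?_
  have hGi : IntegrableOn ((ou n ρ).indicator G) (Metric.closedBall 0 R) :=
    (lim_int hm hf hG h R).indicator (ou_meas ρ)
  have hgi : ∀ i, IntegrableOn ((ou n ρ).indicator (g i)) (Metric.closedBall 0 R) :=
    fun i => ((intOn (hm i) (hf i)) R).indicator (ou_meas ρ)
  have e : (∑ i ∈ Finset.range m, (s i : ℂ) * bi ((ou n ρ).indicator (g i)) R x) -
      bi ((ou n ρ).indicator G) R x = bi (fun ξ => (∑ i ∈ Finset.range m,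
        (s i : ℂ) * (ou n ρ).indicator (g i) ξ) - (ou n ρ).indicator G ξ) R x := by
    unfold bi
    simp only [← integral_const_mul]
    rw [← integral_finsetSum _ fun i _ => (intEx (hgi i) x).const_mul _,
      ← integral_sub (integrable_finsetSum _ fun i _ => (intEx (hgi i) x).const_mul _)
        (intEx hGi x)]
    refine integral_congr_ae (ae_of_all _ fun ξ => ?_)
    simp only
    rw [sub_mul, Finset.sum_mul]
    congr 1
    refine Finset.sum_congr rfl fun i _ => ?_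
    ring
  have hM : Measurable fun ξ => (∑ i ∈ Finset.range m,
      (s i : ℂ) * (ou n ρ).indicator (g i) ξ) - (ou n ρ).indicator G ξ :=
    (Finset.measurable_fun_sum _ fun i _ =>
      ((hm i).indicator (ou_meas ρ)).const_mul _).sub (hG.indicator (ou_meas ρ))
  rw [edist_eq_enorm_sub, e]
  refine (bi_enorm_le hM R x).trans ?_
  refine mul_le_mul' (ENNReal.rpow_le_rpow (lintegral_mono fun ξ => ?_) (by norm_num)) le_rfl
  refine pow_le_pow_left' ?_ 2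
  by_cases hξ : ξ ∈ ou n ρ
  · simp only [indicator_of_mem hξ]
    rw [← enorm_neg]
    refine le_of_eq ?_
    congr 1
    ring
  · simp only [indicator_of_notMem hξ]
    simp

theorem key2 {ρ : ℝ} {a : ℝ → ℝ≥0∞} {am : ℕ → ℝ → ℝ≥0∞}
    (h1 : ∀ R, Tendsto (fun m => am m R) atTop (𝓝 (a R)))
    (h2 : ∀ R, ∀ s : ℕ → ℝ, Tendsto s atTop (𝓝 R) → (∀ K, R ≤ s K) →
      (∀ K, s K ≤ R + 1) → Tendsto (fun K => a (s K)) atTop (𝓝 (a R))) {R : ℝ} (hR : ρ < R) :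
    a R ≤ (liminf (fun K : ℕ => liminf (fun m =>
      (⨆ (j : ℕ) (_ : j ≤ 4 ^ K), am m (ρ + ((j : ℝ) + 1) / 2 ^ K)) ^ 2) atTop) atTop) ^
        (1 / 2 : ℝ) := by
  have h3 := key (a := fun r => a (ρ + r)) (am := fun m r => am m (ρ + r))
    (fun r => h1 (ρ + r)) (fun r s hs h4 h5 => by
      refine h2 (ρ + r) (fun K => ρ + s K) (hs.const_add ρ) (fun K => ?_) (fun K => ?_)
      · linarith [h4 K]
      · linarith [h5 K])
  have h6 : a R ^ 2 ≤ liminf (fun K : ℕ => liminf (fun m =>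
      (⨆ (j : ℕ) (_ : j ≤ 4 ^ K), am m (ρ + ((j : ℝ) + 1) / 2 ^ K)) ^ 2) atTop) atTop := by
    refine le_trans ?_ h3
    refine pow_le_pow_left' ?_ 2
    have h7 := le_iSup₂_of_le (f := fun (r : ℝ) (_ : 0 < r) => a (ρ + r)) (R - ρ)
      (sub_pos.2 hR) le_rfl
    rwa [add_sub_cancel] at h7
  have hs2 : ∀ X : ℝ≥0∞, (X ^ 2) ^ (1 / (2 : ℝ)) = X := fun X => by
    rw [← ENNReal.rpow_natCast, ← ENNReal.rpow_mul]
    norm_num
  rw [← hs2 (a R)]
  exact ENNReal.rpow_le_rpow h6 (by norm_num)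

end AB1_

open AB1_ in
open Pool.Agent.CRF.FL1_ (intOn ex_meas intEx) in
open RC1_ (bi bi_cont bi_right sgn_ae) in
/-- random signs, all functions and all radii -/
theorem p_AB1 (h1 : T_AB0) : T_AB1 := by
  obtain ⟨C, hC⟩ := h1
  refine ⟨C, fun n A B g ρ Ω _ P ε G hn hg hε hρ hG hL => ?_⟩
  have := hε.prob
  have hf : ∀ i, ∫⁻ ξ, ‖g i ξ‖ₑ ^ 2 ≠ ⊤ := ENNReal.ne_top_of_tsum_ne_top hg.fin
  have hci : ∀ i R, IntegrableOn ((ou n ρ).indicator (g i)) (Metric.closedBall 0 R) :=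
    fun i R => (intOn (hg.meas i) (hf i) R).indicator (ou_meas ρ)
  set Ψ : ℕ → ℕ → Ω × E n → ℝ≥0∞ := fun K m z =>
    (⨆ (j : ℕ) (_ : j ≤ 4 ^ K), ‖∑ i ∈ Finset.range m, (ε i z.1 : ℂ) *
      bi ((ou n ρ).indicator (g i)) (ρ + ((j : ℝ) + 1) / 2 ^ K) z.2‖ₑ) ^ 2 with hΨd
  have hΨ : ∀ K m, Measurable (Ψ K m) := by
    intro K m
    refine Measurable.pow_const (Measurable.iSup fun j => Measurable.iSup fun _ => ?_) 2
    refine Measurable.enorm (Finset.measurable_fun_sum _ fun i _ => ?_)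
    exact (Complex.measurable_ofReal.comp ((hε.meas i).comp measurable_fst)).mul
      ((bi_cont (hci i _)).measurable.comp measurable_snd)
  have hH : Measurable fun z : Ω × E n =>
      liminf (fun K => liminf (fun m => Ψ K m z) atTop) atTop :=
    Measurable.liminf fun K => Measurable.liminf (hΨ K)
  have hb : ∀ K m, ∫⁻ z, Ψ K m z ∂(P.prod (volume.restrict A)) ≤
      C * B * ∑' i, ∫⁻ ξ in {ξ : E n | ρ < ‖ξ‖}, ‖g i ξ‖ₑ ^ 2 := by
    intro K m
    rw [lintegral_prod _ (hΨ K m).aemeasurable]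
    have h2 := hC n A B g ρ Ω P ε m (4 ^ K) (fun j => ρ + ((j : ℝ) + 1) / 2 ^ K) hn hg hε hρ
      (by
        have : (0 : ℝ) < (((0 : ℕ) : ℝ) + 1) / 2 ^ K := by positivity
        linarith)
      (by
        intro i j hij
        have : (i : ℝ) < j := by exact_mod_cast hij
        change ρ + ((i : ℝ) + 1) / 2 ^ K < ρ + ((j : ℝ) + 1) / 2 ^ K
        gcongr)
    simp only [si_eq] at h2
    exact h2
  refine ⟨fun z => (liminf (fun K => liminf (fun m => Ψ K m z) atTop) atTop) ^ (1 / 2 : ℝ),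
    hH.pow_const _, ?_, ?_⟩
  · filter_upwards [hL] with ω hω x R hR
    rw [si_eq]
    refine key2 (a := fun R => ‖bi ((ou n ρ).indicator (G ω)) R x‖ₑ)
      (am := fun m R => ‖∑ i ∈ Finset.range m, (ε i ω : ℂ) *
        bi ((ou n ρ).indicator (g i)) R x‖ₑ) (fun R => ?_) (fun R s hs h3 h4 => ?_) hR
    · exact (tend hg.meas hf (s := fun i => ε i ω) (hG ω) hω ρ R x).enorm
    · exact (bi_right ((lim_int hg.meas hf (s := fun i => ε i ω) (hG ω) hω
        (R + 1)).indicator (ou_meas ρ)) x hs h3 h4).enorm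
  · have hs : ∀ X : ℝ≥0∞, (X ^ (1 / (2 : ℝ))) ^ 2 = X := fun X => by
      rw [← ENNReal.rpow_natCast, ← ENNReal.rpow_mul]
      norm_num
    simp only [hs]
    calc ∫⁻ ω, (∫⁻ x in A, liminf (fun K => liminf (fun m => Ψ K m (ω, x)) atTop) atTop) ∂P
        = ∫⁻ z, liminf (fun K => liminf (fun m => Ψ K m z) atTop) atTop
          ∂(P.prod (volume.restrict A)) := by
          rw [lintegral_prod _ hH.aemeasurable]
      _ ≤ liminf (fun K => ∫⁻ z, liminf (fun m => Ψ K m z) atTop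
            ∂(P.prod (volume.restrict A))) atTop :=
          lintegral_liminf_le fun K => Measurable.liminf (hΨ K)
      _ ≤ liminf (fun K => liminf (fun m => ∫⁻ z, Ψ K m z
            ∂(P.prod (volume.restrict A))) atTop) atTop :=
          liminf_le_liminf (Eventually.of_forall fun K => lintegral_liminf_le (hΨ K))
      _ ≤ liminf (fun _ : ℕ => liminf (fun _ : ℕ => C * B *
            ∑' i, ∫⁻ ξ in {ξ : E n | ρ < ‖ξ‖}, ‖g i ξ‖ₑ ^ 2) atTop) atTop := by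
          refine liminf_le_liminf (Eventually.of_forall fun K => ?_)
          exact liminf_le_liminf (Eventually.of_forall fun m => hb K m)
      _ = C * B * ∑' i, ∫⁻ ξ in {ξ : E n | ρ < ‖ξ‖}, ‖g i ξ‖ₑ ^ 2 := by
          simp only [liminf_const]

end Pool.Agent.VRC
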