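import Pool.Agent.VRC.Targets3
import Pool.Agent.VRC.P_RAC

set_option autoImplicit false

/-!
# VRC, target ABC: almost sure almost everywhere convergence, abstract form
-/

namespace Pool.Agent.VRC

open MeasureTheory FourierTransform Set Filter Topology
open scoped ENNReal NNReal
open Pool.Agent.MBS (E ex)
open Pool.Agent.CRN (IN)
open Pool.Agent.CRF (Mx)
open Pool.Agent.CRF.FAE_
open RAC_

namespace ABC_

variable {n : ℕ}

theorem eL_eq (f : E n → ℂ) : eLpNorm f 2 volume = (∫⁻ x, ‖f x‖ₑ ^ 2) ^ (1 / 2 : ℝ) := by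
  rw [eLpNorm_eq_lintegral_rpow_enorm_toReal (by norm_num) (by norm_num)]
  simp only [ENNReal.toReal_ofNat, ENNReal.rpow_ofNat]

theorem tendsto_sqrt {ι : Type*} {l : Filter ι} {a : ι → ℝ≥0∞} (h : Tendsto a l (𝓝 0)) :
    Tendsto (fun i => a i ^ (1 / 2 : ℝ)) l (𝓝 0) := by
  have := (ENNReal.continuous_rpow_const (y := (1 / 2 : ℝ))).tendsto 0
  rw [ENNReal.zero_rpow_of_pos (by norm_num)] at this
  exact this.comp h

/-- the `L²` limit -/
theorem l2lim {G : E n → ℂ} (hG : Measurable G) (h2 : ∫⁻ ξ, ‖G ξ‖ₑ ^ 2 ≠ ⊤) :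
    ∃ F : E n → ℂ, MemLp F 2 ∧
      Tendsto (fun R : ℝ => ∫⁻ x, ‖BI G R x - F x‖ₑ ^ 2) atTop (𝓝 0) ∧
      ∃ ns : ℕ → ℕ, StrictMono ns ∧
        ∀ᵐ x, Tendsto (fun i : ℕ => BI G (ns i) x) atTop (𝓝 (F x)) := by
  have hbc : ∀ R : ℝ, Continuous (fun x => BI G R x) := fun R => BI_cont (intOn hG h2 R)
  have hM : ∀ N : ℕ, MemLp (fun x => BI G N x) 2 volume := by
    intro N
    refine memLp_of_lint (hbc N).aestronglyMeasurable ?_
    have h3 := shell hG h2 (R := -1) (R' := N) (by have := N.cast_nonneg (α := ℝ); linarith)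
    have h4 : ∀ x, BI G (-1) x = 0 := by
      intro x
      unfold BI
      rw [Metric.closedBall_eq_empty.2 (by norm_num : (-1 : ℝ) < 0)]
      simp
    simp only [h4, zero_sub, enorm_neg] at h3
    exact ne_top_of_le_ne_top h2 (h3.trans (lintegral_mono fun ξ => ou_sq G (-1) ξ))
  have htr : Tendsto (fun N : ℕ => ∫⁻ ξ, ‖tr G N ξ‖ₑ ^ 2) atTop (𝓝 0) := by
    have := tr_lim (W := fun _ : E n => (1 : ℝ≥0∞)) measurable_const hG (by simpa using h2)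
    simpa using this
  have hsh : ∀ (N : ℕ) (R R' : ℝ), (N : ℝ) ≤ R → (N : ℝ) ≤ R' →
      ∫⁻ x, ‖BI G R x - BI G R' x‖ₑ ^ 2 ≤ ∫⁻ ξ, ‖tr G N ξ‖ₑ ^ 2 := by
    have key : ∀ (N : ℕ) (R R' : ℝ), (N : ℝ) ≤ R → R ≤ R' →
        ∫⁻ x, ‖BI G R x - BI G R' x‖ₑ ^ 2 ≤ ∫⁻ ξ, ‖tr G N ξ‖ₑ ^ 2 := by
      intro N R R' hR hRR
      refine (shell hG h2 hRR).trans (lintegral_mono fun ξ => ?_)
      unfold ou tr
      by_cases h7 : ξ ∈ {ξ : E n | R < ‖ξ‖}
      · have h8 : ξ ∈ {ξ : E n | (N : ℝ) < ‖ξ‖} := lt_of_le_of_lt hR h7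
        rw [indicator_of_mem h7, indicator_of_mem h8]
      · rw [indicator_of_notMem h7]
        simp
    intro N R R' hR hR'
    rcases le_total R R' with h | h
    · exact key N R R' hR h
    · refine le_trans (le_of_eq ?_) (key N R' R hR' h)
      refine lintegral_congr fun x => ?_
      rw [← enorm_neg, neg_sub]
  have hcs : CauchySeq (fun N : ℕ => (hM N).toLp (fun x => BI G N x)) := by
    rw [EMetric.cauchySeq_iff_le_tendsto_0]
    refine ⟨fun N => (∫⁻ ξ, ‖tr G N ξ‖ₑ ^ 2) ^ (1 / 2 : ℝ), fun a b N ha hb => ?_,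
      tendsto_sqrt htr⟩
    rw [Lp.edist_toLp_toLp, eL_eq]
    refine ENNReal.rpow_le_rpow ?_ (by norm_num)
    exact hsh N a b (by exact_mod_cast ha) (by exact_mod_cast hb)
  obtain ⟨F0, hF0⟩ := cauchySeq_tendsto_of_complete hcs
  set F : E n → ℂ := ⇑F0 with hFd
  have hF : MemLp F 2 volume := Lp.memLp F0
  have hconv : Tendsto (fun N : ℕ => eLpNorm (fun x => BI G N x - F x) 2 volume) atTop (𝓝 0) := by
    have h5 : Tendsto (fun N : ℕ => edist ((hM N).toLp (fun x => BI G N x)) F0) atTop (𝓝 0) := by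
      have := tendsto_iff_edist_tendsto_0.1 hF0
      exact this
    refine h5.congr fun N => ?_
    have e : F0 = hF.toLp F := (Lp.toLp_coeFn F0 hF).symm
    rw [e, Lp.edist_toLp_toLp]
    rfl
  refine ⟨F, hF, ?_, ?_⟩
  · have h6 : Tendsto (fun R : ℝ => eLpNorm (fun x => BI G R x - F x) 2 volume) atTop (𝓝 0) := by
      have h7 : Tendsto (fun R : ℝ => (∫⁻ ξ, ‖tr G ⌊R⌋₊ ξ‖ₑ ^ 2) ^ (1 / 2 : ℝ) +
          eLpNorm (fun x => BI G (⌊R⌋₊ : ℕ) x - F x) 2 volume) atTop (𝓝 0) := by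
        have := ((tendsto_sqrt htr).comp tendsto_nat_floor_atTop).add
          (hconv.comp (tendsto_nat_floor_atTop (α := ℝ)))
        rw [add_zero] at this
        exact this
      refine tendsto_of_tendsto_of_tendsto_of_le_of_le' tendsto_const_nhds h7
        (Eventually.of_forall fun _ => zero_le) ?_
      filter_upwards [eventually_ge_atTop (0 : ℝ)] with R hR
      have h8 : (fun x => BI G R x - F x) = (fun x => BI G R x - BI G (⌊R⌋₊ : ℕ) x) +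
          fun x => BI G (⌊R⌋₊ : ℕ) x - F x := by
        funext x
        simp
      rw [h8]
      refine (eLpNorm_add_le ((hbc R).sub (hbc _)).aestronglyMeasurable
        ((hbc _).aestronglyMeasurable.sub hF.1) (by norm_num)).trans ?_
      refine add_le_add ?_ le_rfl
      rw [eL_eq]
      refine ENNReal.rpow_le_rpow ?_ (by norm_num)
      exact hsh ⌊R⌋₊ R _ (Nat.floor_le hR) le_rfl
    have h9 : Tendsto (fun R : ℝ => eLpNorm (fun x => BI G R x - F x) 2 volume ^ 2) atTop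
        (𝓝 0) := by
      have := ENNReal.Tendsto.pow (n := 2) h6
      simpa using this
    refine h9.congr fun R => ?_
    rw [eL_eq, ← ENNReal.rpow_natCast, ← ENNReal.rpow_mul]
    norm_num
  · have h10 : TendstoInMeasure volume (fun (N : ℕ) x => BI G N x) atTop F :=
      tendstoInMeasure_of_tendsto_eLpNorm (by norm_num)
        (fun N => (hM N).1) hF.1 hconv
    exact h10.exists_seq_tendsto_ae

/-- ball sums of the part outside -/
theorem BI_tr (G : E n → ℂ) (N : ℕ) (R : ℝ) (x : E n) :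
    BI (tr G N) R x = ∫ ξ in {ξ : E n | (N : ℝ) < ‖ξ‖ ∧ ‖ξ‖ ≤ R}, G ξ * ex x ξ := by
  unfold BI
  have e : (fun ξ => tr G N ξ * ex x ξ) =
      {ξ : E n | (N : ℝ) < ‖ξ‖}.indicator (fun ξ => G ξ * ex x ξ) := by
    funext ξ
    unfold tr
    by_cases h : ξ ∈ {ξ : E n | (N : ℝ) < ‖ξ‖}
    · rw [indicator_of_mem h, indicator_of_mem h]
    · rw [indicator_of_notMem h, indicator_of_notMem h, zero_mul]
  rw [e, setIntegral_indicator (tr_set_meas N)]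
  congr 2
  ext ξ
  simp only [mem_inter_iff, mem_closedBall_zero_iff, mem_ofPred_eq]
  exact and_comm

theorem Mx_tr_le {G : E n → ℂ} {N : ℕ} {x : E n} {h : ℝ≥0∞}
    (hh : ∀ R : ℝ, (N : ℝ) < R →
      ‖∫ ξ in {ξ : E n | (N : ℝ) < ‖ξ‖ ∧ ‖ξ‖ ≤ R}, G ξ * ex x ξ‖ₑ ≤ h) :
    Mx (tr G N) x ≤ h := by
  unfold Mx
  refine iSup₂_le fun R _ => ?_
  have e : (∫ ξ in Metric.closedBall (0 : E n) R, tr G N ξ * ex x ξ) = BI (tr G N) R x := rfl
  rw [e, BI_tr]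
  rcases lt_or_ge (N : ℝ) R with h1 | h1
  · exact hh R h1
  · have h2 : {ξ : E n | (N : ℝ) < ‖ξ‖ ∧ ‖ξ‖ ≤ R} = ∅ := by
      ext ξ
      simp only [mem_ofPred_eq, mem_empty_iff_false, iff_false, not_and, not_le]
      intro h3
      linarith
    rw [h2]
    simp

theorem memLp_g {A : Set (E n)} {B : ℝ≥0∞} {g : ℕ → E n → ℂ} (h : GB n A B g) (i : ℕ) :
    MemLp (g i) 2 volume :=
  memLp_of_lint (h.meas i).aestronglyMeasurable
    (ne_top_of_le_ne_top h.fin (ENNReal.le_tsum (f := fun i => ∫⁻ ξ, ‖g i ξ‖ₑ ^ 2) i))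

theorem G_sq {A : Set (E n)} {B : ℝ≥0∞} {g : ℕ → E n → ℂ} (h : GB n A B g) {G : E n → ℂ}
    (hG : Measurable G) (c : ℕ → ℂ)
    (hl : Tendsto (fun m : ℕ => ∫⁻ ξ, ‖G ξ - ∑ i ∈ Finset.range m, c i * g i ξ‖ₑ ^ 2)
      atTop (𝓝 0)) : ∫⁻ ξ, ‖G ξ‖ₑ ^ 2 ≠ ⊤ := by
  obtain ⟨m, hm⟩ := (hl.eventually_lt_const (show (0 : ℝ≥0∞) < 1 from zero_lt_one)).exists
  have h1 : MemLp (fun ξ => ∑ i ∈ Finset.range m, c i * g i ξ) 2 volume :=
    memLp_finsetSum _ fun i _ => (memLp_g h i).const_mul (c i)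
  have h2 : MemLp (fun ξ => G ξ - ∑ i ∈ Finset.range m, c i * g i ξ) 2 volume := by
    refine memLp_of_lint (hG.aestronglyMeasurable.sub h1.1) ?_
    exact (hm.trans ENNReal.one_lt_top).ne
  have h3 : MemLp G 2 volume := by
    have := h2.add h1
    refine (memLp_congr_ae (ae_of_all _ fun ξ => ?_)).1 this
    simp
  rw [int_sq h3]
  exact ENNReal.ofReal_ne_top

/-- the tails tend to `0` -/
theorem tails {A : Set (E n)} {B : ℝ≥0∞} {g : ℕ → E n → ℂ} (h : GB n A B g) :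
    Tendsto (fun N : ℕ => ∑' i, ∫⁻ ξ in {ξ : E n | (N : ℝ) < ‖ξ‖}, ‖g i ξ‖ₑ ^ 2) atTop
      (𝓝 0) := by
  set W : E n → ℝ≥0∞ := fun ξ => ∑' i, ‖g i ξ‖ₑ ^ 2 with hW
  have hWm : Measurable W := Measurable.tsum fun i => ((h.meas i).enorm).pow_const 2
  have hm : ∀ i, Measurable (fun ξ => ‖g i ξ‖ₑ ^ 2) := fun i => ((h.meas i).enorm).pow_const 2
  have e0 : ∫⁻ ξ, W ξ = ∑' i, ∫⁻ ξ, ‖g i ξ‖ₑ ^ 2 := lintegral_tsum fun i => (hm i).aemeasurable
  have h1 := tr_lim (W := W) hWm (g := fun _ => (1 : ℂ)) measurable_const (by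
    simp only [enorm_one, one_pow, one_mul]
    rw [e0]
    exact h.fin)
  refine h1.congr fun N => ?_
  rw [← lintegral_tsum fun i => (hm i).aemeasurable, ← lintegral_indicator (tr_set_meas N)]
  refine lintegral_congr fun ξ => ?_
  unfold tr
  by_cases h3 : ξ ∈ {ξ : E n | (N : ℝ) < ‖ξ‖}
  · rw [indicator_of_mem h3, indicator_of_mem h3]
    simp [hW]
  · rw [indicator_of_notMem h3, indicator_of_notMem h3]
    simp

end ABC_

open ABC_ in
/-- ABC -/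
theorem p_ABC (h1 : T_AB1) : T_ABC := by
  intro n A B g Ω _ P ε G hn hB hGB hS hGm hlim
  have := hS.prob
  obtain ⟨C, hC⟩ := h1
  have hmax : ∀ k : ℕ, ∀ᵐ ω ∂P, ∀ᵐ x ∂(volume.restrict (A k)),
      ∀ m : ℕ, ∃ᶠ N : ℕ in atTop, Mx (tr (G ω) N) x ≤ lv m := by
    intro k
    set μ : Measure (E n) := volume.restrict (A k) with hμ
    have hex : ∀ N : ℕ, ∃ H : Ω × E n → ℝ≥0∞, Measurable H ∧
      (∀ᵐ ω ∂P, ∀ (x : E n) (R : ℝ), (N : ℝ) < R →
        ‖∫ ξ in {ξ : E n | (N : ℝ) < ‖ξ‖ ∧ ‖ξ‖ ≤ R}, G ω ξ * ex x ξ‖ₑ ≤ H (ω, x)) ∧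
      ∫⁻ ω, (∫⁻ x in A k, H (ω, x) ^ 2) ∂P ≤
        C * B * ∑' i, ∫⁻ ξ in {ξ : E n | (N : ℝ) < ‖ξ‖}, ‖g i ξ‖ₑ ^ 2 := fun N =>
      hC n (A k) B g N Ω P ε G hn (hGB k) hS N.cast_nonneg hGm hlim
    choose H hHm hHb hHi using hex
    have hm : ∀ N : ℕ, Measurable (fun p : Ω × E n => H N p ^ 2) := fun N =>
      (hHm N).pow_const 2
    have hJ : ∀ N : ℕ, ∫⁻ p, H N p ^ 2 ∂(P.prod μ) ≤
        C * B * ∑' i, ∫⁻ ξ in {ξ : E n | (N : ℝ) < ‖ξ‖}, ‖g i ξ‖ₑ ^ 2 := by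
      intro N
      rw [lintegral_prod _ (hm N).aemeasurable]
      exact hHi N
    have hl2 : Tendsto (fun N : ℕ => ∫⁻ p, H N p ^ 2 ∂(P.prod μ)) atTop (𝓝 0) := by
      have h6 := ENNReal.Tendsto.const_mul (tails (hGB k))
        (Or.inr (ENNReal.mul_ne_top (ENNReal.coe_ne_top (r := C)) hB))
      rw [mul_zero] at h6
      exact tendsto_of_tendsto_of_tendsto_of_le_of_le tendsto_const_nhds h6
        (fun _ => zero_le) hJ
    have hfat : ∫⁻ p, liminf (fun N : ℕ => H N p ^ 2) atTop ∂(P.prod μ) = 0 := by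
      refine le_antisymm ?_ zero_le
      refine le_trans (lintegral_liminf_le hm) ?_
      rw [hl2.liminf_eq]
    rw [lintegral_eq_zero_iff (Measurable.liminf hm)] at hfat
    have h7 := Measure.ae_ae_of_ae_prod hfat
    filter_upwards [h7, ae_all_iff.2 hHb] with ω hω hb
    filter_upwards [hω] with x hx m
    exact (freq_of_liminf hx m).mono fun N hN =>
      (Mx_tr_le fun R hR => hb N x R hR).trans hN
  filter_upwards [ae_all_iff.2 hmax, hlim] with ω hω hl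
  have hG2 : ∫⁻ ξ, ‖G ω ξ‖ₑ ^ 2 ≠ ⊤ := G_sq (hGB 0) (hGm ω) (fun i => (ε i ω : ℂ)) hl
  obtain ⟨F, hF, hFR, ns, hns, hae⟩ := l2lim (hGm ω) hG2
  refine ⟨F, hF, hFR, ?_⟩
  rw [ae_restrict_iUnion_iff]
  intro k
  filter_upwards [hω k, ae_restrict_of_ae hae] with x hx hx2
  obtain ⟨l, hlx⟩ := conv_of_freq (hGm ω) hG2 hx
  have h11 : Tendsto (fun i : ℕ => BI (G ω) (ns i) x) atTop (𝓝 l) :=
    hlx.comp (tendsto_natCast_atTop_atTop.comp hns.tendsto_atTop)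
  have h12 : l = F x := tendsto_nhds_unique h11 hx2
  rw [← h12]
  exact hlx

end Pool.Agent.VRC
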