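import Pool.Agent.VRC.Targets4
import Pool.Agent.CRR.P_ACR

set_option autoImplicit false

/-!
# VRC: target ACV (across the windows, 4-variation)
-/

namespace Pool.Agent.VRC

open MeasureTheory FourierTransform Set Filter Topology
open scoped ENNReal NNReal ComplexConjugate
open Pool.Agent.CAR (e1)
open Pool.Agent.CRR (Ph StripD FS FA fh NN HH NSol kap aa de la si ww xc band)
open Pool.Agent.CRR.ACR_

namespace ACV_

theorem V4s_conj (y : ℕ → ℂ) : V4s (fun j => conj (y j)) = V4s y := by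
  unfold V4s
  simp only [← map_sub, RCLike.enorm_conj]

/-- multiplication of the terms by slowly varying unimodular numbers -/
theorem mulv (h2 : T_VCS) (b φ : ℕ → ℂ) (N : ℕ) (κ : ℝ) (hκ : 0 ≤ κ) (hφ : ∀ i, ‖φ i‖ₑ ≤ 1)
    (hv : ∀ i, ‖φ (i + 1) - φ i‖ ≤ κ) :
    V4s (fun j => ∑ i ∈ Finset.range (min j N), b i * φ i) ≤
      ENNReal.ofReal (1 + N * κ) * V4s (fun j => ∑ i ∈ Finset.range (min j N), b i) := by
  obtain ⟨-, -, -, -, -, -, h7, -⟩ := h2
  have key := h7 (fun j => ∑ i ∈ Finset.range (min j N), b i * φ i)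
    (fun j => ∑ i ∈ Finset.range (min j N), b i) (fun i => φ (min i N)) 1 (N * κ).toNNReal ?_ ?_ ?_
  · refine key.trans (le_of_eq ?_)
    congr 1
    rw [ENNReal.ofReal_add zero_le_one (by positivity), ENNReal.ofReal_one]
    rfl
  · intro a c hac
    induction c, hac using Nat.le_induction with
    | base => simp
    | succ c hc ih =>
      rw [Finset.sum_Ico_succ_top hc, ← ih]
      rcases lt_or_ge c N with h | h
      · rw [min_eq_left (by omega : c + 1 ≤ N), min_eq_left h.le, Finset.sum_range_succ,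
          Finset.sum_range_succ b]
        ring
      · rw [min_eq_right (by omega : N ≤ c + 1), min_eq_right h]
        ring
  · intro i
    exact_mod_cast hφ _
  · calc ∑' i, ‖φ (min (i + 1) N) - φ (min i N)‖ₑ
        = ∑ i ∈ Finset.range N, ‖φ (min (i + 1) N) - φ (min i N)‖ₑ := by
          apply tsum_eq_sum
          intro i hi
          have h : N ≤ i := by simpa using hi
          rw [min_eq_right h, min_eq_right (by omega : N ≤ i + 1), sub_self, enorm_zero]
      _ ≤ ∑ _i ∈ Finset.range N, ENNReal.ofReal κ := by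
          refine Finset.sum_le_sum fun i hi => ?_
          have h : i < N := Finset.mem_range.mp hi
          rw [min_eq_left (by omega : i + 1 ≤ N), min_eq_left h.le, ← ofReal_norm]
          exact ENNReal.ofReal_le_ofReal (hv i)
      _ = N * ENNReal.ofReal κ := by rw [Finset.sum_const, Finset.card_range, nsmul_eq_mul]
      _ = ENNReal.ofReal (N * κ) := by
          rw [ENNReal.ofReal_mul (by positivity), ENNReal.ofReal_natCast]
      _ ≤ _ := le_rfl

end ACV_

open ACV_ in
theorem p_ACV (h1 : T_DCV) (h2 : T_VCS) : T_ACV := by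
  intro A hA
  have hA0 : 0 < A := by linarith
  have hA2 : 1 ≤ A ^ 2 := one_le_pow₀ hA
  obtain ⟨C, hC⟩ := h1 (A ^ 2) hA2
  set K : ℝ := 1 + 4 * Real.pi * A with hKdef
  have hK0 : 0 ≤ K := by positivity
  refine ⟨(K.toNNReal) ^ 2 * C, ?_⟩
  intro lam d w Θ Θ1 Θ2 s x y N a hPh hlam hd hw hlo hhi hN hs
  set z : ℕ → ℝ := fun i => x + (y + i * w) with hz
  set Er : ℕ → ℝ → ℝ := fun i t => Θ (z i + t) - Θ (z i) - t * Θ1 (z i) with hEr
  have hzs : ∀ i, z (i + 1) = z i + w := fun i => by simp only [hz]; push_cast; ring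
  set κ : ℝ := 2 * Real.pi * (A * lam / d * w * w * w) with hκ
  have hκ0 : 0 ≤ κ := by positivity
  have hNκ : 1 + N * κ ≤ K := by
    have e : N * κ = (2 * Real.pi * A / d) * ((N * w) * (w ^ 2 * lam)) := by
      rw [hκ]; field_simp
    have h3 : (N * w) * (w ^ 2 * lam) ≤ (2 * d) * 1 :=
      mul_le_mul hN hhi (by positivity) (by positivity)
    have h4 : (2 * Real.pi * A / d) * ((N * w) * (w ^ 2 * lam)) ≤
        (2 * Real.pi * A / d) * ((2 * d) * 1) :=
      mul_le_mul_of_nonneg_left h3 (by positivity)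
    have h5 : (2 * Real.pi * A / d) * ((2 * d) * 1) = 4 * Real.pi * A := by
      field_simp; ring
    rw [hKdef, e]
    linarith
  have hlipE : ∀ i t, 0 ≤ t → t ≤ w → |Er (i + 1) t - Er i t| ≤ A * lam / d * w * w * w := by
    intro i t ht htw
    have h2 := dE hPh (by positivity) (z i) (z (i + 1)) t ht
    have h3 : |z (i + 1) - z i| = w := by rw [hzs, add_sub_cancel_left, abs_of_pos hw]
    rw [h3] at h2
    refine h2.trans ?_
    gcongr
  -- the reduction to `DCV`
  have red : ∃ c : ℕ → ℂ, (∀ i, ‖c i‖ₑ = ‖a i‖ₑ) ∧ ∀ t, 0 ≤ t → t ≤ w →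
      V4s (fun j => ∑ i ∈ Finset.range (min j N), a i * e1 (s * Θ (x + t + (y + i * w)))) ≤
      ENNReal.ofReal K *
        V4s (fun j => ∑ i ∈ Finset.range (min j N), c i * e1 (t * Θ1 (z i))) := by
    have harg : ∀ (i : ℕ) (t : ℝ), Θ (x + t + (y + i * w)) = Θ (z i) + t * Θ1 (z i) + Er i t := by
      intro i t
      have : x + t + (y + i * w) = z i + t := by simp only [hz]; ring
      rw [this]; simp only [hEr]; ring
    have step : ∀ σ : ℝ, |σ| = 1 → ∀ t, 0 ≤ t → t ≤ w →
      V4s (fun j => ∑ i ∈ Finset.range (min j N), a i * e1 (σ * Θ (x + t + (y + i * w)))) ≤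
      ENNReal.ofReal K * V4s (fun j => ∑ i ∈ Finset.range (min j N),
        a i * e1 (σ * Θ (z i)) * e1 (σ * (t * Θ1 (z i)))) := by
      intro σ hσ t ht htw
      have hterm : ∀ i : ℕ, a i * e1 (σ * Θ (x + t + (y + i * w))) =
          (a i * e1 (σ * Θ (z i)) * e1 (σ * (t * Θ1 (z i)))) * e1 (σ * Er i t) := by
        intro i
        rw [harg, show σ * (Θ (z i) + t * Θ1 (z i) + Er i t) =
          σ * Θ (z i) + σ * (t * Θ1 (z i)) + σ * Er i t by ring, e1_add, e1_add]
        ring
      simp only [hterm]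
      refine (mulv h2 _ (fun i => e1 (σ * Er i t)) N κ hκ0 (fun i => (enorm_e1 _).le)
        (fun i => ?_)).trans ?_
      · refine (e1_lip _ _).trans ?_
        rw [← mul_sub, abs_mul, hσ, one_mul]
        exact mul_le_mul_of_nonneg_left (hlipE i t ht htw) (by positivity)
      · exact mul_le_mul' (ENNReal.ofReal_le_ofReal hNκ) le_rfl
    rcases hs with rfl | rfl
    · refine ⟨fun i => a i * e1 (1 * Θ (z i)), fun i => ?_, fun t ht htw => ?_⟩
      · rw [enorm_mul, enorm_e1, mul_one]
      · have := step 1 (by simp) t ht htw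
        simpa only [one_mul] using this
    · refine ⟨fun i => conj (a i * e1 ((-1) * Θ (z i))), fun i => ?_, fun t ht htw => ?_⟩
      · rw [RCLike.enorm_conj, enorm_mul, enorm_e1, mul_one]
      · have h3 := step (-1) (by simp) t ht htw
        refine h3.trans (le_of_eq ?_)
        congr 1
        rw [← V4s_conj]
        congr 1
        funext j
        rw [map_sum]
        refine Finset.sum_congr rfl fun i _ => ?_
        rw [map_mul, conj_e1]
        congr 2
        ring
  obtain ⟨c, hc, hred⟩ := red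
  have htr : ∀ F : ℝ → ℝ≥0∞, ∫⁻ u in Icc x (x + w), F u = ∫⁻ t in Icc 0 w, F (x + t) := by
    intro F
    have := (measurePreserving_add_left (volume : Measure ℝ) x).setLIntegral_comp_preimage_emb
      (measurableEmbedding_addLeft x) F (Icc x (x + w))
    rw [← this]
    congr 2
    ext t
    simp
  rw [htr]
  have hgap : ∀ i, Θ1 (z i) + w * lam / A ≤ Θ1 (z (i + 1)) := fun i => by
    rw [hzs]; exact gap hPh (z i) w hw.le
  have hwg : 1 / A ^ 2 ≤ w * (w * lam / A) := by
    have e : w * (w * lam / A) = (w ^ 2 * lam) / A := by ring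
    rw [e, div_le_div_iff₀ (by positivity) hA0]
    have h3 : 1 ≤ w ^ 2 * lam * A := by
      rw [div_le_iff₀ hA0] at hlo
      linarith
    nlinarith
  have hD := hC w (w * lam / A) N (fun i => Θ1 (z i)) c hw (by positivity) hwg hgap
  have hsum : ∑ i ∈ Finset.range N, ‖c i‖ₑ ^ 2 = ∑ i ∈ Finset.range N, ‖a i‖ₑ ^ 2 :=
    Finset.sum_congr rfl fun i _ => by rw [hc i]
  rw [hsum] at hD
  calc ∫⁻ t in Icc 0 w, V4s (fun j =>
        ∑ i ∈ Finset.range (min j N), a i * e1 (s * Θ (x + t + (y + i * w)))) ^ 2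
      ≤ ∫⁻ t in Icc 0 w, (ENNReal.ofReal K) ^ 2 * V4s (fun j =>
        ∑ i ∈ Finset.range (min j N), c i * e1 (t * Θ1 (z i))) ^ 2 := by
        refine setLIntegral_mono' measurableSet_Icc fun t ht => ?_
        rw [← mul_pow]
        exact pow_le_pow_left' (hred t ht.1 ht.2) 2
    _ = (ENNReal.ofReal K) ^ 2 * ∫⁻ t in Icc 0 w, V4s (fun j =>
        ∑ i ∈ Finset.range (min j N), c i * e1 (t * Θ1 (z i))) ^ 2 :=
        lintegral_const_mul' _ _ (by finiteness)
    _ ≤ (ENNReal.ofReal K) ^ 2 * ∫⁻ t in Icc (-w) w, V4s (fun j =>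
        ∑ i ∈ Finset.range (min j N), c i * e1 (t * Θ1 (z i))) ^ 2 := by
        refine mul_le_mul' le_rfl (lintegral_mono_set ?_)
        exact Icc_subset_Icc_left (by linarith)
    _ ≤ (ENNReal.ofReal K) ^ 2 * (C * ENNReal.ofReal w * ∑ i ∈ Finset.range N, ‖a i‖ₑ ^ 2) :=
        mul_le_mul' le_rfl hD
    _ = _ := by
        rw [ENNReal.coe_mul, ENNReal.coe_pow]
        change _ = (ENNReal.ofReal K) ^ 2 * (C : ℝ≥0∞) * ENNReal.ofReal w * _
        ring

end Pool.Agent.VRC
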