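import Pool.Agent.VRC.Targets2
import Pool.Agent.CRF.P_FL0

set_option autoImplicit false

/-!
# CF0: variation norm of the operator with the linearised phase
-/

namespace Pool.Agent.VRC

open MeasureTheory FourierTransform Set Filter Topology
open scoped ENNReal NNReal
open Pool.Agent.MBS (E ex)
open Pool.Agent.CAR (e1)
open Pool.Agent.CRF (jn tl T_FSP T_FRT)

namespace CF0_

open Pool.Agent.CRF.FL0_ (e1_norm e1_continuous ex_norm ex_cont fr fr_pos fr_sq cv_int cv_lint kk HH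
  kk_meas HH_meas jn_norm en_le h_int plancherelIN)

variable {m : ℕ}

/-- the support condition -/
def Sup (K : ℝ) (h : E (m + 1) → ℂ) : Prop :=
  ∀ ξ, h ξ ≠ 0 → 0 < ξ 0 ∧ 2 * ‖tl ξ‖ ≤ ‖ξ‖ ∧ ‖ξ‖ ≤ K

/-- the norm of a point of a product -/
def JN (m : ℕ) : Prop :=
  ∀ (t : ℝ) (y : E m), jn t y 0 = t ∧ tl (jn t y) = y ∧ ‖jn t y‖ ^ 2 = t ^ 2 + ‖y‖ ^ 2

theorem kk_supp {K : ℝ} {h : E (m + 1) → ℂ} (hs : Sup K h) (hn : JN m)
    {ρ : ℝ} {z : E m} (hk : kk h ρ z ≠ 0) : ‖z‖ < ρ ∧ 2 * ‖z‖ ≤ ρ ∧ ρ ≤ K := by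
  unfold kk at hk
  have h1 : ‖z‖ < ρ := mem_of_indicator_ne_zero hk
  rw [indicator_of_mem (show ρ ∈ Ioi ‖z‖ from h1)] at hk
  obtain ⟨-, h3, h4⟩ := hs _ (right_ne_zero_of_mul hk)
  rw [(hn _ _).2.1, jn_norm h1 hn] at h3
  rw [jn_norm h1 hn] at h4
  exact ⟨h1, h3, h4⟩

theorem kk_sq_le {K : ℝ} {h : E (m + 1) → ℂ} (hs : Sup K h) (hn : JN m)
    (ρ : ℝ) (z : E m) : ‖kk h ρ z‖ₑ ^ 2 ≤ (Ioi ‖z‖).indicator (fun r =>
      2 * (ENNReal.ofReal (r / fr z r) * ‖h (jn (fr z r) z)‖ₑ ^ 2)) ρ := by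
  by_cases hk : kk h ρ z = 0
  · rw [hk]; simp
  · obtain ⟨h1, h2, h3⟩ := kk_supp hs hn hk
    have hfr := fr_pos h1
    rw [indicator_of_mem (show ρ ∈ Ioi ‖z‖ from h1)]
    have e1 : kk h ρ z = ((ρ / fr z ρ : ℝ) : ℂ) * h (jn (fr z ρ) z) := by
      unfold kk
      rw [indicator_of_mem (show ρ ∈ Ioi ‖z‖ from h1)]
    have hρ0 : 0 ≤ ρ := (norm_nonneg z).trans h1.le
    have h4 : ρ / fr z ρ ≤ 2 := by
      rw [div_le_iff₀ hfr]
      have h5 := fr_sq h1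
      nlinarith [norm_nonneg z]
    have h0 : 0 ≤ ρ / fr z ρ := div_nonneg hρ0 hfr.le
    rw [e1, enorm_mul, mul_pow]
    have e2 : ‖((ρ / fr z ρ : ℝ) : ℂ)‖ₑ = ENNReal.ofReal (ρ / fr z ρ) := by
      rw [← ofReal_norm, Complex.norm_real, Real.norm_of_nonneg h0]
    rw [e2, sq (ENNReal.ofReal (ρ / fr z ρ)), ← mul_assoc]
    gcongr
    calc ENNReal.ofReal (ρ / fr z ρ) ≤ ENNReal.ofReal 2 := ENNReal.ofReal_le_ofReal h4
      _ = 2 := by norm_num

/-- the total mass of the kernel -/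
theorem total {K : ℝ} {h : E (m + 1) → ℂ} (hm : Measurable h) (hs : Sup K h)
    (hl : ∀ F : E (m + 1) → ℝ≥0∞, Measurable F →
      ∫⁻ x, F x = ∫⁻ t : ℝ, ∫⁻ y : E m, F (jn t y))
    (hj : Continuous (fun p : ℝ × E m => jn p.1 p.2)) (hn : JN m) :
    ∫⁻ ρ : ℝ, ∫⁻ z : E m, ‖kk h ρ z‖ₑ ^ 2 ≤ 2 * ∫⁻ ξ, ‖h ξ‖ₑ ^ 2 := by
  have hkm := kk_meas hm hj
  have hhm : Measurable (fun p : ℝ × E m => ‖h (jn p.1 p.2)‖ₑ ^ 2) :=
    (hm.comp hj.measurable).enorm.pow_const 2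
  have sw1 : ∫⁻ ρ : ℝ, ∫⁻ z : E m, ‖kk h ρ z‖ₑ ^ 2 = ∫⁻ z : E m, ∫⁻ ρ : ℝ, ‖kk h ρ z‖ₑ ^ 2 :=
    lintegral_lintegral_swap (hkm.enorm.pow_const 2).aemeasurable
  have sw2 : ∫⁻ t : ℝ, ∫⁻ z : E m, ‖h (jn t z)‖ₑ ^ 2 =
      ∫⁻ z : E m, ∫⁻ t : ℝ, ‖h (jn t z)‖ₑ ^ 2 :=
    lintegral_lintegral_swap hhm.aemeasurable
  rw [sw1, hl _ (hm.enorm.pow_const 2), sw2, ← lintegral_const_mul _ hhm.lintegral_prod_left']
  refine lintegral_mono fun z => ?_
  calc ∫⁻ ρ : ℝ, ‖kk h ρ z‖ₑ ^ 2 ≤ ∫⁻ ρ : ℝ, (Ioi ‖z‖).indicator (fun r =>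
        2 * (ENNReal.ofReal (r / fr z r) * ‖h (jn (fr z r) z)‖ₑ ^ 2)) ρ :=
        lintegral_mono fun ρ => kk_sq_le hs hn ρ z
    _ = ∫⁻ ρ in Ioi ‖z‖, 2 * (ENNReal.ofReal (ρ / fr z ρ) * ‖h (jn (fr z ρ) z)‖ₑ ^ 2) :=
        lintegral_indicator measurableSet_Ioi _
    _ = 2 * ∫⁻ ρ in Ioi ‖z‖, ENNReal.ofReal (ρ / fr z ρ) * ‖h (jn (fr z ρ) z)‖ₑ ^ 2 :=
        lintegral_const_mul' _ _ (by norm_num)
    _ = 2 * ∫⁻ t in Ioi (0 : ℝ), ‖h (jn t z)‖ₑ ^ 2 := by rw [cv_lint z]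
    _ ≤ 2 * ∫⁻ t : ℝ, ‖h (jn t z)‖ₑ ^ 2 := by
        gcongr
        exact Measure.restrict_le_self

theorem kk_bd {K : ℝ} {h : E (m + 1) → ℂ} (hs : Sup K h) (hn : JN m) (ρ : ℝ) (z : E m) :
    ‖kk h ρ z‖ₑ ≤ (Ioc 0 K).indicator 1 ρ * (Metric.closedBall (0 : E m) K).indicator 1 z +
      ‖kk h ρ z‖ₑ ^ 2 := by
  by_cases hk : kk h ρ z = 0
  · rw [hk]; simp
  · obtain ⟨h1, h2, h3⟩ := kk_supp hs hn hk
    have h4 := norm_nonneg z
    rw [indicator_of_mem (show ρ ∈ Ioc 0 K from ⟨by linarith, h3⟩),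
      indicator_of_mem (show z ∈ Metric.closedBall (0 : E m) K by
        rw [mem_closedBall_zero_iff]; linarith)]
    simpa using en_le ‖kk h ρ z‖ₑ

theorem kk_int {K : ℝ} {h : E (m + 1) → ℂ} (hm : Measurable h) (hs : Sup K h)
    (hl : ∀ F : E (m + 1) → ℝ≥0∞, Measurable F →
      ∫⁻ x, F x = ∫⁻ t : ℝ, ∫⁻ y : E m, F (jn t y))
    (hj : Continuous (fun p : ℝ × E m => jn p.1 p.2)) (hn : JN m)
    (hf : ∫⁻ ξ, ‖h ξ‖ₑ ^ 2 ≠ ⊤) :
    Integrable (fun p : ℝ × E m => kk h p.1 p.2) (volume.prod volume) := by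
  have hkm := kk_meas hm hj
  refine ⟨hkm.aestronglyMeasurable, ?_⟩
  rw [hasFiniteIntegral_iff_enorm, lintegral_prod _ hkm.enorm.aemeasurable]
  calc ∫⁻ ρ : ℝ, ∫⁻ z, ‖kk h ρ z‖ₑ
     ≤ ∫⁻ ρ : ℝ, ((Ioc 0 K).indicator 1 ρ * volume (Metric.closedBall (0 : E m) K) +
        ∫⁻ z, ‖kk h ρ z‖ₑ ^ 2) := by
        refine lintegral_mono fun ρ => ?_
        calc ∫⁻ z, ‖kk h ρ z‖ₑ
            ≤ ∫⁻ z, ((Ioc 0 K).indicator 1 ρ * (Metric.closedBall (0 : E m) K).indicator 1 z +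
                ‖kk h ρ z‖ₑ ^ 2) := lintegral_mono (kk_bd hs hn ρ)
          _ = (Ioc 0 K).indicator 1 ρ * volume (Metric.closedBall (0 : E m) K) +
                ∫⁻ z, ‖kk h ρ z‖ₑ ^ 2 := by
            rw [lintegral_add_left ((measurable_one.indicator
              measurableSet_closedBall).const_mul _),
              lintegral_const_mul _ (measurable_one.indicator measurableSet_closedBall),
              lintegral_indicator_one measurableSet_closedBall]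
    _ = volume (Ioc 0 K) * volume (Metric.closedBall (0 : E m) K) +
        ∫⁻ ρ : ℝ, ∫⁻ z, ‖kk h ρ z‖ₑ ^ 2 := by
        rw [lintegral_add_left ((measurable_one.indicator measurableSet_Ioc).mul_const _),
          lintegral_mul_const _ (measurable_one.indicator measurableSet_Ioc),
          lintegral_indicator_one measurableSet_Ioc]
    _ < ⊤ := by
        refine ENNReal.add_lt_top.2 ⟨ENNReal.mul_lt_top measure_Ioc_lt_top
          measure_closedBall_lt_top, ?_⟩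
        refine (total hm hs hl hj hn).trans_lt ?_
        exact ENNReal.mul_lt_top (by norm_num) (lt_top_iff_ne_top.2 hf)

/-- Fubini back -/
theorem back {K : ℝ} {h : E (m + 1) → ℂ} (hm : Measurable h) (hs : Sup K h)
    (hl : ∀ F : E (m + 1) → ℝ≥0∞, Measurable F →
      ∫⁻ x, F x = ∫⁻ t : ℝ, ∫⁻ y : E m, F (jn t y))
    (hj : Continuous (fun p : ℝ × E m => jn p.1 p.2)) (hn : JN m)
    (hf : ∫⁻ ξ, ‖h ξ‖ₑ ^ 2 ≠ ⊤) {a : ℝ → ℂ} {b : E m → ℂ} (ha : Measurable a)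
    (hb : Measurable b) (ha1 : ∀ r, ‖a r‖ ≤ 1) (hb1 : ∀ z, ‖b z‖ ≤ 1) :
    ∫ z, ∫ ρ : ℝ, kk h ρ z * b z * a ρ = ∫ ρ : ℝ, (∫ z, kk h ρ z * b z) * a ρ := by
  have hi : Integrable (fun p : ℝ × E m => kk h p.1 p.2 * (b p.2 * a p.1))
      (volume.prod volume) := by
    refine (kk_int hm hs hl hj hn hf).mul_bdd (c := 1) ?_ ?_
    · exact ((hb.comp measurable_snd).mul (ha.comp measurable_fst)).aestronglyMeasurable
    · refine Eventually.of_forall fun p => ?_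
      simp only [norm_mul]
      exact mul_le_one₀ (hb1 _) (norm_nonneg _) (ha1 _)
  have sw := integral_integral_swap (μ := (volume : Measure ℝ)) (ν := (volume : Measure (E m)))
    (f := fun ρ z => kk h ρ z * (b z * a ρ)) hi
  calc ∫ z, ∫ ρ : ℝ, kk h ρ z * b z * a ρ
      = ∫ z, ∫ ρ : ℝ, kk h ρ z * (b z * a ρ) := by simp only [mul_assoc]
    _ = ∫ ρ : ℝ, ∫ z, kk h ρ z * (b z * a ρ) := sw.symm
    _ = ∫ ρ : ℝ, (∫ z, kk h ρ z * b z) * a ρ := by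
      refine integral_congr_ae (Eventually.of_forall fun ρ => ?_)
      simp only [← mul_assoc]
      exact integral_mul_const _ _

/-- pointwise form of the substitution -/
theorem point {K : ℝ} {h : E (m + 1) → ℂ} (hs : Sup K h) (hn : JN m)
    (a : ℝ → ℂ) (b : E m → ℂ) (z : E m) :
    ∫ t : ℝ, h (jn t z) * (a ‖jn t z‖ * b (tl (jn t z))) = ∫ ρ : ℝ, kk h ρ z * b z * a ρ := by
  have h1 : ∫ t : ℝ, h (jn t z) * (a ‖jn t z‖ * b (tl (jn t z))) =
      ∫ t in Ioi (0 : ℝ), h (jn t z) * (a ‖jn t z‖ * b (tl (jn t z))) := by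
    refine (setIntegral_eq_integral_of_forall_compl_eq_zero fun t ht => ?_).symm
    by_contra hne
    have h2 : h (jn t z) ≠ 0 := left_ne_zero_of_mul hne
    have h4 := (hs _ h2).1
    rw [(hn t z).1] at h4
    exact ht h4
  rw [h1, cv_int z (fun t => h (jn t z) * (a ‖jn t z‖ * b (tl (jn t z)))),
    ← integral_indicator measurableSet_Ioi]
  refine integral_congr_ae (Eventually.of_forall fun ρ => ?_)
  by_cases hρ : ‖z‖ < ρ
  · have hk : kk h ρ z = ((ρ / fr z ρ : ℝ) : ℂ) * h (jn (fr z ρ) z) := by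
      unfold kk
      rw [indicator_of_mem (show ρ ∈ Ioi ‖z‖ from hρ)]
    show (Ioi ‖z‖).indicator _ ρ = kk h ρ z * b z * a ρ
    rw [indicator_of_mem (show ρ ∈ Ioi ‖z‖ from hρ), jn_norm hρ hn, (hn _ _).2.1, hk]
    ring
  · show (Ioi ‖z‖).indicator _ ρ = kk h ρ z * b z * a ρ
    rw [indicator_of_notMem (show ρ ∉ Ioi ‖z‖ from hρ)]
    have hk : kk h ρ z = 0 := by
      unfold kk
      rw [indicator_of_notMem (show ρ ∉ Ioi ‖z‖ from hρ)]
    simp only [hk, zero_mul]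

theorem h_itg {K : ℝ} {h : E (m + 1) → ℂ} (hm : Measurable h) (hs : Sup K h)
    (hf : ∫⁻ ξ, ‖h ξ‖ₑ ^ 2 ≠ ⊤) : Integrable h := by
  have h1 := h_int hm hf K
  rw [← integrable_indicator_iff measurableSet_closedBall] at h1
  refine h1.congr (Eventually.of_forall fun ξ => ?_)
  by_cases hξ : h ξ = 0
  · show (Metric.closedBall 0 K).indicator h ξ = h ξ
    unfold indicator
    split_ifs
    · rfl
    · exact hξ.symm
  · exact indicator_of_mem (by rw [mem_closedBall_zero_iff]; exact (hs ξ hξ).2.2) _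

/-- integrals of radial times tangential functions -/
theorem forth {K : ℝ} {h : E (m + 1) → ℂ} (hm : Measurable h) (hs : Sup K h)
    (hl : ∀ F : E (m + 1) → ℝ≥0∞, Measurable F →
      ∫⁻ x, F x = ∫⁻ t : ℝ, ∫⁻ y : E m, F (jn t y))
    (hI : ∀ F : E (m + 1) → ℂ, Integrable F → ∫ x, F x = ∫ t : ℝ, ∫ y : E m, F (jn t y))
    (hj : Continuous (fun p : ℝ × E m => jn p.1 p.2)) (ht : Continuous (fun x : E (m + 1) => tl x))
    (hn : JN m) (hf : ∫⁻ ξ, ‖h ξ‖ₑ ^ 2 ≠ ⊤) {a : ℝ → ℂ} {b : E m → ℂ} (ha : Measurable a)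
    (hb : Measurable b) (ha1 : ∀ r, ‖a r‖ ≤ 1) (hb1 : ∀ z, ‖b z‖ ≤ 1) :
    ∫ ξ, h ξ * (a ‖ξ‖ * b (tl ξ)) = ∫ ρ : ℝ, (∫ z, kk h ρ z * b z) * a ρ := by
  have hc : Measurable (fun ξ : E (m + 1) => a ‖ξ‖ * b (tl ξ)) :=
    (ha.comp measurable_norm).mul (hb.comp ht.measurable)
  have hGm : Measurable (fun ξ => h ξ * (a ‖ξ‖ * b (tl ξ))) := hm.mul hc
  have hGi : Integrable (fun ξ => h ξ * (a ‖ξ‖ * b (tl ξ))) := by
    refine (h_itg hm hs hf).mul_bdd (c := 1) hc.aestronglyMeasurable ?_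
    refine Eventually.of_forall fun ξ => ?_
    simp only [norm_mul]
    exact mul_le_one₀ (ha1 _) (norm_nonneg _) (hb1 _)
  have hGi2 : Integrable (fun p : ℝ × E m =>
      h (jn p.1 p.2) * (a ‖jn p.1 p.2‖ * b (tl (jn p.1 p.2)))) (volume.prod volume) := by
    have hcm : Measurable (fun p : ℝ × E m =>
      h (jn p.1 p.2) * (a ‖jn p.1 p.2‖ * b (tl (jn p.1 p.2)))) := hGm.comp hj.measurable
    refine ⟨hcm.aestronglyMeasurable, ?_⟩
    rw [hasFiniteIntegral_iff_enorm, lintegral_prod _ hcm.enorm.aemeasurable]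
    have h1 := hl _ hGm.enorm
    have h2 := hGi.2
    rw [hasFiniteIntegral_iff_enorm, h1] at h2
    exact h2
  rw [hI _ hGi]
  calc ∫ t : ℝ, ∫ y : E m, h (jn t y) * (a ‖jn t y‖ * b (tl (jn t y)))
      = ∫ y : E m, ∫ t : ℝ, h (jn t y) * (a ‖jn t y‖ * b (tl (jn t y))) :=
        integral_integral_swap
          (f := fun t y => h (jn t y) * (a ‖jn t y‖ * b (tl (jn t y)))) hGi2
    _ = ∫ y : E m, ∫ ρ : ℝ, kk h ρ y * b y * a ρ := by
        simp only [point hs hn a b]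
    _ = _ := back hm hs hl hj hn hf ha hb ha1 hb1

/-- the shell integrals -/
theorem shell {K : ℝ} {h : E (m + 1) → ℂ} (hm : Measurable h) (hs : Sup K h)
    (hl : ∀ F : E (m + 1) → ℝ≥0∞, Measurable F →
      ∫⁻ x, F x = ∫⁻ t : ℝ, ∫⁻ y : E m, F (jn t y))
    (hI : ∀ F : E (m + 1) → ℂ, Integrable F → ∫ x, F x = ∫ t : ℝ, ∫ y : E m, F (jn t y))
    (hj : Continuous (fun p : ℝ × E m => jn p.1 p.2)) (ht : Continuous (fun x : E (m + 1) => tl x))
    (hn : JN m) (hf : ∫⁻ ξ, ‖h ξ‖ₑ ^ 2 ≠ ⊤) (A B t : ℝ) (y : E m) :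
    ∫ ξ in {ξ : E (m + 1) | A < ‖ξ‖ ∧ ‖ξ‖ ≤ B},
      h ξ * (e1 (jn t y 0 * ‖ξ‖) * ex (tl (jn t y)) (tl ξ)) =
    ∫ r in Ico A B, HH h r y * e1 (t * r) := by
  have hS : MeasurableSet {ξ : E (m + 1) | A < ‖ξ‖ ∧ ‖ξ‖ ≤ B} :=
    (measurableSet_lt measurable_const measurable_norm).inter
      (measurableSet_le measurable_norm measurable_const)
  rw [(hn t y).1, (hn t y).2.1, ← integral_indicator hS]
  have h1 := forth hm hs hl hI hj ht hn hf
    (a := (Ioc A B).indicator (fun r => e1 (t * r))) (b := fun z => ex y z)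
    ((e1_continuous.measurable.comp (measurable_id.const_mul t)).indicator measurableSet_Ioc)
    (ex_cont.comp (continuous_const.prodMk continuous_id)).measurable
    (fun r => by
      unfold indicator
      split_ifs
      · exact (e1_norm _).le
      · simp)
    (fun z => (ex_norm _ _).le)
  rw [integral_Ico_eq_integral_Ioc, ← integral_indicator measurableSet_Ioc]
  have h2 : ∫ ξ, {ξ : E (m + 1) | A < ‖ξ‖ ∧ ‖ξ‖ ≤ B}.indicator
      (fun ξ => h ξ * (e1 (t * ‖ξ‖) * ex y (tl ξ))) ξ =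
      ∫ ξ, h ξ * ((Ioc A B).indicator (fun r => e1 (t * r)) ‖ξ‖ * ex y (tl ξ)) := by
    refine integral_congr_ae (Eventually.of_forall fun ξ => ?_)
    by_cases hξ : A < ‖ξ‖ ∧ ‖ξ‖ ≤ B
    · show {ξ : E (m + 1) | A < ‖ξ‖ ∧ ‖ξ‖ ≤ B}.indicator _ ξ =
        h ξ * ((Ioc A B).indicator (fun r => e1 (t * r)) ‖ξ‖ * ex y (tl ξ))
      rw [indicator_of_mem (show ξ ∈ {ξ : E (m + 1) | A < ‖ξ‖ ∧ ‖ξ‖ ≤ B} from hξ),
        indicator_of_mem (show ‖ξ‖ ∈ Ioc A B from hξ)]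
    · show {ξ : E (m + 1) | A < ‖ξ‖ ∧ ‖ξ‖ ≤ B}.indicator _ ξ =
        h ξ * ((Ioc A B).indicator (fun r => e1 (t * r)) ‖ξ‖ * ex y (tl ξ))
      rw [indicator_of_notMem (show ξ ∉ {ξ : E (m + 1) | A < ‖ξ‖ ∧ ‖ξ‖ ≤ B} from hξ),
        indicator_of_notMem (show ‖ξ‖ ∉ Ioc A B from hξ)]
      simp
  rw [h2, h1]
  refine integral_congr_ae (Eventually.of_forall fun r => ?_)
  show HH h r y * (Ioc A B).indicator (fun r => e1 (t * r)) r =
    (Ioc A B).indicator (fun r => HH h r y * e1 (t * r)) r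
  unfold indicator
  split_ifs
  · rfl
  · simp

/-- Plancherel for fixed radial variable -/
theorem planch {K : ℝ} {h : E (m + 1) → ℂ} (hm : Measurable h) (hs : Sup K h)
    (hj : Continuous (fun p : ℝ × E m => jn p.1 p.2)) (hn : JN m)
    (r : ℝ) : ∫⁻ y, ‖HH h r y‖ₑ ^ 2 ≤ ∫⁻ z, ‖kk h r z‖ₑ ^ 2 := by
  have hkm : Measurable (kk h r) := by
    have := (kk_meas hm hj).comp (measurable_const (a := r) |>.prodMk measurable_id)
    exact this
  by_cases htop : ∫⁻ z, ‖kk h r z‖ₑ ^ 2 = ⊤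
  · rw [htop]; exact le_top
  · have h1 : ∀ z : E m, ‖kk h r z‖ₑ ≤
        (Metric.closedBall (0 : E m) K).indicator 1 z + ‖kk h r z‖ₑ ^ 2 := by
      intro z
      by_cases hk : kk h r z = 0
      · rw [hk]; simp
      · obtain ⟨h1, h2, h3⟩ := kk_supp hs hn hk
        have h4 := norm_nonneg z
        rw [indicator_of_mem (show z ∈ Metric.closedBall (0 : E m) K by
          rw [mem_closedBall_zero_iff]; linarith)]
        exact en_le _
    have hi : Integrable (kk h r) := by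
      refine ⟨hkm.aestronglyMeasurable, ?_⟩
      rw [hasFiniteIntegral_iff_enorm]
      calc ∫⁻ z, ‖kk h r z‖ₑ
          ≤ ∫⁻ z, ((Metric.closedBall (0 : E m) K).indicator 1 z + ‖kk h r z‖ₑ ^ 2) :=
            lintegral_mono h1
        _ = volume (Metric.closedBall (0 : E m) K) + ∫⁻ z, ‖kk h r z‖ₑ ^ 2 := by
          rw [lintegral_add_left (measurable_one.indicator measurableSet_closedBall),
            lintegral_indicator_one measurableSet_closedBall]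
        _ < ⊤ := ENNReal.add_lt_top.2 ⟨measure_closedBall_lt_top, lt_top_iff_ne_top.2 htop⟩
    have h2 : MemLp (kk h r) 2 := by
      refine ⟨hkm.aestronglyMeasurable, ?_⟩
      rw [eLpNorm_lt_top_iff_lintegral_rpow_enorm_lt_top (by norm_num) (by norm_num)]
      simpa using lt_top_iff_ne_top.2 htop
    exact (plancherelIN hi h2).le

theorem HH_zero {K : ℝ} {h : E (m + 1) → ℂ} (hs : Sup K h) (hn : JN m) {r : ℝ} {y : E m}
    (hr : r ∉ Ioc 0 K) : HH h r y = 0 := by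
  unfold HH
  have h1 : ∀ z, kk h r z = 0 := by
    intro z
    by_contra hk
    obtain ⟨h1, h2, h3⟩ := kk_supp hs hn hk
    exact hr ⟨(norm_nonneg z).trans_lt h1, h3⟩
  simp [h1]

theorem gg2 {K : ℝ} {h : E (m + 1) → ℂ} (hm : Measurable h) (hs : Sup K h)
    (hj : Continuous (fun p : ℝ × E m => jn p.1 p.2)) (hn : JN m) {y : E m}
    (hy : ∫⁻ r : ℝ, ‖HH h r y‖ₑ ^ 2 < ⊤) : GG2 (fun r => HH h r y) := by
  have hBm : Measurable (fun r => HH h r y) := by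
    have := (HH_meas hm hj).comp (measurable_id.prodMk (measurable_const (a := y)))
    exact this
  refine ⟨hBm, ⟨hBm.aestronglyMeasurable, ?_⟩, ⟨(hBm.norm.pow_const 2).aestronglyMeasurable, ?_⟩⟩
  · rw [hasFiniteIntegral_iff_enorm]
    calc ∫⁻ r : ℝ, ‖HH h r y‖ₑ ≤ ∫⁻ r : ℝ, ((Ioc 0 K).indicator 1 r + ‖HH h r y‖ₑ ^ 2) := by
          refine lintegral_mono fun r => ?_
          by_cases hr : r ∈ Ioc 0 K
          · rw [indicator_of_mem hr]
            exact en_le _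
          · rw [HH_zero hs hn hr]; simp
      _ = volume (Ioc 0 K) + ∫⁻ r : ℝ, ‖HH h r y‖ₑ ^ 2 := by
          rw [lintegral_add_left (measurable_one.indicator measurableSet_Ioc),
            lintegral_indicator_one measurableSet_Ioc]
      _ < ⊤ := ENNReal.add_lt_top.2 ⟨measure_Ioc_lt_top, hy⟩
  · rw [hasFiniteIntegral_iff_enorm]
    refine lt_of_le_of_lt (lintegral_mono fun r => le_of_eq ?_) hy
    rw [← ofReal_norm, norm_pow, norm_norm, ENNReal.ofReal_pow (norm_nonneg _), ofReal_norm]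

theorem phase_cont (ht : Continuous (fun x : E (m + 1) => tl x)) (ξ : E (m + 1)) :
    Continuous (fun x : E (m + 1) => e1 (x 0 * ‖ξ‖) * ex (tl x) (tl ξ)) := by
  have h0 : Continuous (fun x : E (m + 1) => x 0) := by fun_prop
  exact (e1_continuous.comp (h0.mul continuous_const)).mul
    (ex_cont.comp (ht.prodMk continuous_const))

theorem phase_meas (ht : Continuous (fun x : E (m + 1) => tl x)) (x : E (m + 1)) :
    Measurable (fun ξ : E (m + 1) => e1 (x 0 * ‖ξ‖) * ex (tl x) (tl ξ)) :=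
  ((e1_continuous.comp (continuous_const.mul continuous_norm)).mul
    (ex_cont.comp (continuous_const.prodMk ht))).measurable

theorem VOp_meas {h : E (m + 1) → ℂ} (hi : Integrable h)
    (ht : Continuous (fun x : E (m + 1) => tl x)) : Measurable (VOp h) := by
  have hc : ∀ S : Set (E (m + 1)), Continuous (fun x : E (m + 1) =>
      ∫ ξ in S, h ξ * (e1 (x 0 * ‖ξ‖) * ex (tl x) (tl ξ))) := by
    intro S
    refine continuous_of_dominated (bound := fun ξ => ‖h ξ‖) ?_ ?_ hi.norm.restrict ?_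
    · intro x
      exact (hi.aestronglyMeasurable.restrict).mul (phase_meas ht x).aestronglyMeasurable
    · intro x
      refine Eventually.of_forall fun ξ => ?_
      rw [norm_mul, norm_mul, e1_norm, ex_norm, mul_one, mul_one]
    · refine Eventually.of_forall fun ξ => ?_
      exact continuous_const.mul (phase_cont ht ξ)
  refine LowerSemicontinuous.measurable ?_
  refine lowerSemicontinuous_iSup fun L => lowerSemicontinuous_iSup fun N =>
    lowerSemicontinuous_iSup fun hN => Continuous.lowerSemicontinuous ?_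
  refine ENNReal.continuous_rpow_const.comp (continuous_finsetSum _ fun j _ => ?_)
  exact (ENNReal.continuous_pow 4).comp (continuous_enorm.comp (hc _))

/-- bounded support -/
theorem bounded {C : ℝ≥0} (hC : ∀ g : ℝ → ℂ, GG2 g →
      ∫⁻ x, VC g x ^ 2 ≤ C * ∫⁻ ξ, ‖g ξ‖ₑ ^ 2)
    {K : ℝ} {h : E (m + 1) → ℂ} (hm : Measurable h) (hs : Sup K h)
    (hl : ∀ F : E (m + 1) → ℝ≥0∞, Measurable F →
      ∫⁻ x, F x = ∫⁻ t : ℝ, ∫⁻ y : E m, F (jn t y))
    (hI : ∀ F : E (m + 1) → ℂ, Integrable F → ∫ x, F x = ∫ t : ℝ, ∫ y : E m, F (jn t y))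
    (hj : Continuous (fun p : ℝ × E m => jn p.1 p.2)) (ht : Continuous (fun x : E (m + 1) => tl x))
    (hn : JN m) (hf : ∫⁻ ξ, ‖h ξ‖ₑ ^ 2 ≠ ⊤) :
    ∫⁻ x, VOp h x ^ 2 ≤ C * (2 * ∫⁻ ξ, ‖h ξ‖ₑ ^ 2) := by
  have hVm : Measurable (fun x => VOp h x ^ 2) :=
    (VOp_meas (h_itg hm hs hf) ht).pow_const 2
  have hVj : Measurable (fun p : ℝ × E m => VOp h (jn p.1 p.2) ^ 2) := hVm.comp hj.measurable
  have sw : ∫⁻ t : ℝ, ∫⁻ y : E m, VOp h (jn t y) ^ 2 = ∫⁻ y : E m, ∫⁻ t : ℝ, VOp h (jn t y) ^ 2 :=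
    lintegral_lintegral_swap hVj.aemeasurable
  have hHm := HH_meas hm hj
  have sw2 : ∫⁻ r : ℝ, ∫⁻ y : E m, ‖HH h r y‖ₑ ^ 2 = ∫⁻ y : E m, ∫⁻ r : ℝ, ‖HH h r y‖ₑ ^ 2 :=
    lintegral_lintegral_swap (hHm.enorm.pow_const 2).aemeasurable
  have tot : ∫⁻ r : ℝ, ∫⁻ y : E m, ‖HH h r y‖ₑ ^ 2 ≤ 2 * ∫⁻ ξ, ‖h ξ‖ₑ ^ 2 :=
    (lintegral_mono fun r => planch hm hs hj hn r).trans (total hm hs hl hj hn)
  have hae : ∀ᵐ y : E m, ∫⁻ r : ℝ, ‖HH h r y‖ₑ ^ 2 < ⊤ := by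
    refine ae_lt_top (hHm.enorm.pow_const 2).lintegral_prod_left' ?_
    rw [← sw2]
    exact (tot.trans_lt (ENNReal.mul_lt_top (by norm_num) (lt_top_iff_ne_top.2 hf))).ne
  calc ∫⁻ x, VOp h x ^ 2 = ∫⁻ t : ℝ, ∫⁻ y : E m, VOp h (jn t y) ^ 2 := hl _ hVm
    _ = ∫⁻ y : E m, ∫⁻ t : ℝ, VOp h (jn t y) ^ 2 := sw
    _ ≤ ∫⁻ y : E m, C * ∫⁻ r : ℝ, ‖HH h r y‖ₑ ^ 2 := by
        refine lintegral_mono_ae ?_
        filter_upwards [hae] with y hy
        refine le_trans (lintegral_mono fun t => ?_) (hC _ (gg2 hm hs hj hn hy))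
        refine pow_le_pow_left' ?_ 2
        unfold VOp VC
        refine iSup_mono fun L => iSup_mono fun N => iSup_mono fun hN => ?_
        refine ENNReal.rpow_le_rpow (Finset.sum_le_sum fun j _ => ?_) (by norm_num)
        rw [shell hm hs hl hI hj ht hn hf]
    _ = C * ∫⁻ y : E m, ∫⁻ r : ℝ, ‖HH h r y‖ₑ ^ 2 := lintegral_const_mul' _ _ (by simp)
    _ = C * ∫⁻ r : ℝ, ∫⁻ y : E m, ‖HH h r y‖ₑ ^ 2 := by rw [sw2]
    _ ≤ C * (2 * ∫⁻ ξ, ‖h ξ‖ₑ ^ 2) := by gcongr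

/-- truncation -/
theorem trunc (h : E (m + 1) → ℂ) (x : E (m + 1)) :
    VOp h x ≤ liminf (fun n : ℕ => VOp ((Metric.closedBall (0 : E (m + 1)) n).indicator h) x)
      atTop := by
  refine iSup_le fun L => iSup_le fun N => iSup_le fun hN => ?_
  refine le_liminf_of_le (by isBoundedDefault) ?_
  obtain ⟨n0, hn0⟩ := exists_nat_ge (N L)
  filter_upwards [eventually_ge_atTop n0] with n hn
  refine le_trans (le_of_eq ?_) (le_iSup_of_le L (le_iSup_of_le N (le_iSup_of_le hN le_rfl)))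
  congr 1
  refine Finset.sum_congr rfl fun j hj => ?_
  congr 2
  refine setIntegral_congr_fun ?_ fun ξ hξ => ?_
  · exact (measurableSet_lt measurable_const measurable_norm).inter
      (measurableSet_le measurable_norm measurable_const)
  · have h1 : ‖ξ‖ ≤ n := by
      have h2 : N (j + 1) ≤ N L := hN (Finset.mem_range.1 hj)
      have h3 : (n0 : ℝ) ≤ n := by exact_mod_cast hn
      have h4 : ‖ξ‖ ≤ N (j + 1) := hξ.2
      linarith
    show h ξ * _ = (Metric.closedBall (0 : E (m + 1)) n).indicator h ξ * _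
    rw [indicator_of_mem (show ξ ∈ Metric.closedBall (0 : E (m + 1)) n by
      rw [mem_closedBall_zero_iff]; exact h1)]

end CF0_

open CF0_ in
/-- **CF0** -/
theorem p_CF0 (h1 : T_VC4) (h2 : T_FSP) : T_CF0 := by
  intro m
  obtain ⟨C, hC⟩ := h1
  obtain ⟨hl, hI, hj, ht, hn, hx⟩ := h2 m
  refine ⟨C * 2 + 1, fun h hm hs => ?_⟩
  by_cases hf : ∫⁻ ξ, ‖h ξ‖ₑ ^ 2 = ⊤
  · rw [hf, ENNReal.mul_top (by simp)]
    exact le_top
  have hmn : ∀ n : ℕ, Measurable ((Metric.closedBall (0 : E (m + 1)) n).indicator h) :=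
    fun n => hm.indicator measurableSet_closedBall
  have hsn : ∀ n : ℕ, Sup (n : ℝ) ((Metric.closedBall (0 : E (m + 1)) n).indicator h) := by
    intro n ξ hξ
    have h3 : ξ ∈ Metric.closedBall (0 : E (m + 1)) n := mem_of_indicator_ne_zero hξ
    rw [indicator_of_mem h3] at hξ
    exact ⟨(hs ξ hξ).1, (hs ξ hξ).2, by simpa using h3⟩
  have hle : ∀ n : ℕ, ∫⁻ ξ, ‖(Metric.closedBall (0 : E (m + 1)) n).indicator h ξ‖ₑ ^ 2 ≤
      ∫⁻ ξ, ‖h ξ‖ₑ ^ 2 := by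
    intro n
    refine lintegral_mono fun ξ => ?_
    refine pow_le_pow_left' ?_ 2
    unfold indicator
    split_ifs
    · exact le_rfl
    · simp
  have hfn : ∀ n : ℕ, ∫⁻ ξ, ‖(Metric.closedBall (0 : E (m + 1)) n).indicator h ξ‖ₑ ^ 2 ≠ ⊤ :=
    fun n => ((hle n).trans_lt (lt_top_iff_ne_top.2 hf)).ne
  have hb : ∀ n : ℕ, ∫⁻ x, VOp ((Metric.closedBall (0 : E (m + 1)) n).indicator h) x ^ 2 ≤
      C * (2 * ∫⁻ ξ, ‖h ξ‖ₑ ^ 2) := by
    intro n
    refine (bounded hC (hmn n) (hsn n) hl hI hj ht hn (hfn n)).trans ?_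
    exact mul_le_mul_right (mul_le_mul_right (hle n) _) _
  calc ∫⁻ x, VOp h x ^ 2
      ≤ ∫⁻ x, liminf (fun n : ℕ =>
          VOp ((Metric.closedBall (0 : E (m + 1)) n).indicator h) x ^ 2) atTop := by
        refine lintegral_mono fun x => ?_
        have h5 := Monotone.map_liminf_of_continuousAt (F := atTop)
          (f := fun a : ℝ≥0∞ => a ^ 2) (fun a b hab => pow_le_pow_left' hab 2)
          (fun n : ℕ => VOp ((Metric.closedBall (0 : E (m + 1)) n).indicator h) x)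
          (ENNReal.continuous_pow 2).continuousAt
        refine le_trans (pow_le_pow_left' (trunc h x) 2) (le_of_eq ?_)
        exact h5
    _ ≤ liminf (fun n : ℕ => ∫⁻ x,
          VOp ((Metric.closedBall (0 : E (m + 1)) n).indicator h) x ^ 2) atTop :=
        lintegral_liminf_le fun n =>
          (VOp_meas (h_itg (hmn n) (hsn n) (hfn n)) ht).pow_const 2
    _ ≤ C * (2 * ∫⁻ ξ, ‖h ξ‖ₑ ^ 2) := by
        refine liminf_le_of_le (by isBoundedDefault) fun b hb' => ?_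
        obtain ⟨n, hn'⟩ := hb'.exists
        exact hn'.trans (hb n)
    _ = (C * 2 : ℝ≥0∞) * ∫⁻ ξ, ‖h ξ‖ₑ ^ 2 := by rw [mul_assoc]
    _ ≤ ((C * 2 + 1 : ℝ≥0) : ℝ≥0∞) * ∫⁻ ξ, ‖h ξ‖ₑ ^ 2 := by
        gcongr
        push_cast
        exact le_self_add

end Pool.Agent.VRC
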