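import Pool.Agent.VRC.Targets2
import Pool.Agent.CRF.P_FL1

set_option autoImplicit false

/-!
# VRC: parabolic regions (target CF1)
-/

namespace Pool.Agent.VRC

open MeasureTheory FourierTransform Set Filter Topology
open scoped ENNReal NNReal
open Pool.Agent.MBS (E ex)
open Pool.Agent.CAR (e1)
open Pool.Agent.CRF (jn tl T_FSP T_FRT)

namespace CF1_

open Pool.Agent.CRF.FL1_

variable {m : ℕ}

/-! ### the norm of `ℓ⁴` -/

/-- the norm of `ℓ⁴` -/
noncomputable def n4 (L : ℕ) (a : ℕ → ℝ≥0∞) : ℝ≥0∞ :=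
  (∑ j ∈ Finset.range L, a j ^ 4) ^ (1 / 4 : ℝ)

theorem n4_mono {L : ℕ} {a b : ℕ → ℝ≥0∞} (h : ∀ j < L, a j ≤ b j) : n4 L a ≤ n4 L b := by
  unfold n4
  refine ENNReal.rpow_le_rpow (Finset.sum_le_sum fun j hj => ?_) (by norm_num)
  exact pow_le_pow_left' (h j (Finset.mem_range.1 hj)) 4

theorem n4_add (L : ℕ) (a b : ℕ → ℝ≥0∞) :
    n4 L (fun j => a j + b j) ≤ n4 L a + n4 L b := by
  have h := ENNReal.Lp_add_le (Finset.range L) a b (p := 4) (by norm_num)
  have e : ∀ x : ℝ≥0∞, x ^ (4 : ℝ) = x ^ 4 := fun x => by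
    rw [← ENNReal.rpow_natCast]
    norm_num
  simp only [e] at h
  exact h

theorem p4 (x : ℝ≥0∞) : (x ^ 4) ^ (1 / 4 : ℝ) = x := by
  rw [← ENNReal.rpow_natCast, ← ENNReal.rpow_mul]
  norm_num

theorem n4_smul (L : ℕ) (c : ℝ≥0∞) (a : ℕ → ℝ≥0∞) : n4 L (fun j => c * a j) = c * n4 L a := by
  unfold n4
  have h : ∑ j ∈ Finset.range L, (c * a j) ^ 4 = c ^ 4 * ∑ j ∈ Finset.range L, a j ^ 4 := by
    rw [Finset.mul_sum]
    exact Finset.sum_congr rfl fun j _ => mul_pow _ _ _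
  rw [h, ENNReal.mul_rpow_of_nonneg _ _ (by norm_num), p4]

theorem n4_le_sum (L : ℕ) (a : ℕ → ℝ≥0∞) : n4 L a ≤ ∑ j ∈ Finset.range L, a j := by
  set T := ∑ j ∈ Finset.range L, a j with hT
  have h : ∑ j ∈ Finset.range L, a j ^ 4 ≤ T ^ 4 := by
    calc ∑ j ∈ Finset.range L, a j ^ 4 ≤ ∑ j ∈ Finset.range L, a j * T ^ 3 := by
          refine Finset.sum_le_sum fun j hj => ?_
          have h1 : a j ≤ T := Finset.single_le_sum (fun _ _ => zero_le) hj
          calc a j ^ 4 = a j * a j ^ 3 := by ring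
            _ ≤ a j * T ^ 3 := by gcongr
      _ = T * T ^ 3 := by rw [← Finset.sum_mul]
      _ = T ^ 4 := by ring
  calc n4 L a ≤ (T ^ 4) ^ (1 / 4 : ℝ) := ENNReal.rpow_le_rpow h (by norm_num)
    _ = T := p4 T

theorem le_n4 {L : ℕ} (a : ℕ → ℝ≥0∞) {j : ℕ} (hj : j < L) : a j ≤ n4 L a := by
  calc a j = (a j ^ 4) ^ (1 / 4 : ℝ) := (p4 _).symm
    _ ≤ n4 L a := by
      refine ENNReal.rpow_le_rpow ?_ (by norm_num)
      exact Finset.single_le_sum (f := fun j => a j ^ 4) (fun _ _ => zero_le)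
        (Finset.mem_range.2 hj)

theorem n4_meas {α : Type*} [MeasurableSpace α] {L : ℕ} {a : ℕ → α → ℝ≥0∞}
    (ha : ∀ j, Measurable (a j)) : Measurable fun s => n4 L (fun j => a j s) := by
  unfold n4
  exact (Finset.measurable_fun_sum _ fun j _ => (ha j).pow_const 4).pow_const _

/-- Minkowski's inequality for integrals -/
theorem n4_int {α : Type*} [MeasurableSpace α] (μ : Measure α) (L : ℕ) {a : ℕ → α → ℝ≥0∞}
    (ha : ∀ j, Measurable (a j)) :
    n4 L (fun j => ∫⁻ s, a j s ∂μ) ≤ ∫⁻ s, n4 L (fun j => a j s) ∂μ := by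
  set b : ℕ → ℝ≥0∞ := fun j => ∫⁻ s, a j s ∂μ with hb
  set T : ℝ≥0∞ := ∑ j ∈ Finset.range L, b j ^ 4 with hT
  have hn : n4 L b = T ^ (1 / 4 : ℝ) := rfl
  rcases eq_or_ne T 0 with h0 | h0
  · rw [hn, h0, ENNReal.zero_rpow_of_pos (by norm_num)]
    exact zero_le
  rcases eq_or_ne T ⊤ with h1 | h1
  · obtain ⟨j, hj, hj2⟩ := ENNReal.sum_eq_top.1 h1
    have hj3 : b j = ⊤ := by
      by_contra hc
      exact ENNReal.pow_ne_top hc hj2
    have h2 : b j ≤ ∫⁻ s, n4 L (fun j => a j s) ∂μ :=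
      lintegral_mono fun s => le_n4 (fun j => a j s) (Finset.mem_range.1 hj)
    rw [hj3, top_le_iff] at h2
    rw [h2]
    exact le_top
  have hpq : (4 / 3 : ℝ).HolderConjugate 4 := by
    rw [Real.holderConjugate_iff]
    norm_num
  have h2 : T ≤ T ^ (3 / 4 : ℝ) * ∫⁻ s, n4 L (fun j => a j s) ∂μ := by
    calc T = ∑ j ∈ Finset.range L, b j ^ 3 * ∫⁻ s, a j s ∂μ :=
          Finset.sum_congr rfl fun j _ => by rw [hb]; ring
      _ = ∫⁻ s, ∑ j ∈ Finset.range L, b j ^ 3 * a j s ∂μ := by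
          rw [lintegral_finsetSum _ fun j _ => (ha j).const_mul _]
          exact Finset.sum_congr rfl fun j _ => (lintegral_const_mul _ (ha j)).symm
      _ ≤ ∫⁻ s, T ^ (3 / 4 : ℝ) * n4 L (fun j => a j s) ∂μ := by
          refine lintegral_mono fun s => ?_
          have h3 := ENNReal.inner_le_Lp_mul_Lq (Finset.range L) (fun j => b j ^ 3)
            (fun j => a j s) hpq
          have e1 : ∀ x : ℝ≥0∞, (x ^ 3) ^ (4 / 3 : ℝ) = x ^ 4 := fun x => by
            rw [← ENNReal.rpow_natCast, ← ENNReal.rpow_mul, ← ENNReal.rpow_natCast]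
            norm_num
          have e2 : ∀ x : ℝ≥0∞, x ^ (4 : ℝ) = x ^ 4 := fun x => by
            rw [← ENNReal.rpow_natCast]
            norm_num
          simp only [e1, e2] at h3
          refine h3.trans (le_of_eq ?_)
          rw [hT, n4]
          norm_num
      _ = _ := lintegral_const_mul _ (n4_meas ha)
  have h3 : T ^ (3 / 4 : ℝ) ≠ 0 := by
    rw [Ne, ENNReal.rpow_eq_zero_iff]
    rintro (⟨h, -⟩ | ⟨h, -⟩)
    · exact h0 h
    · exact h1 h
  have h4 : T ^ (3 / 4 : ℝ) ≠ ⊤ := ENNReal.rpow_ne_top_of_nonneg (by norm_num) h1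
  have h5 : T = T ^ (3 / 4 : ℝ) * T ^ (1 / 4 : ℝ) := by
    rw [← ENNReal.rpow_add _ _ h0 h1]
    norm_num
  rw [hn]
  have h6 : T ^ (3 / 4 : ℝ) * T ^ (1 / 4 : ℝ) ≤
      T ^ (3 / 4 : ℝ) * ∫⁻ s, n4 L (fun j => a j s) ∂μ := h5.symm.le.trans h2
  exact (ENNReal.mul_le_mul_iff_right h3 h4).1 h6

/-! ### shells -/

/-- the shell -/
def Sh (m : ℕ) (a b : ℝ) : Set (E m) := {ξ | a < ‖ξ‖ ∧ ‖ξ‖ ≤ b}

theorem Sh_meas (a b : ℝ) : MeasurableSet (Sh m a b) :=
  (measurableSet_lt measurable_const measurable_norm).inter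
    (measurableSet_le measurable_norm measurable_const)

theorem Sh_sub (a b : ℝ) : Sh m a b ⊆ Metric.closedBall 0 b := fun ξ h => by
  rw [mem_closedBall_zero_iff]
  exact h.2

theorem Sh_disj {N : ℕ → ℝ} (hN : Monotone N) (s : Set ℕ) :
    s.PairwiseDisjoint (fun j => Sh m (N j) (N (j + 1))) := by
  have h : ∀ i j : ℕ, i < j → Disjoint (Sh m (N i) (N (i + 1))) (Sh m (N j) (N (j + 1))) := by
    intro i j hij
    rw [Set.disjoint_left]
    intro ξ h1 h2
    have h3 : N (i + 1) ≤ N j := hN hij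
    exact absurd (h1.2.trans h3) (not_le.2 h2.1)
  intro i _ j _ hij
  rcases lt_or_gt_of_ne hij with h1 | h1
  · exact h i j h1
  · exact (h j i h1).symm

theorem cs2 {α : Type*} [MeasurableSpace α] (μ : Measure α) {F : α → ℝ≥0∞} (hF : Measurable F) :
    (∫⁻ s, F s ∂μ) ^ 2 ≤ μ univ * ∫⁻ s, F s ^ 2 ∂μ := by
  have h := ENNReal.lintegral_mul_le_Lp_mul_Lq μ
    Real.HolderConjugate.two_two (f := F) (g := fun _ => 1) hF.aemeasurable
    measurable_const.aemeasurable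
  have h2 := pow_le_pow_left' h 2
  have hs : ∀ X : ℝ≥0∞, (X ^ (1 / (2 : ℝ))) ^ 2 = X := fun X => by
    rw [← ENNReal.rpow_natCast, ← ENNReal.rpow_mul]
    norm_num
  rw [mul_pow, hs, hs] at h2
  have h3 : ∫⁻ _ : α, (1 : ℝ≥0∞) ^ (2 : ℝ) ∂μ = μ univ := by
    simp only [ENNReal.one_rpow, lintegral_const, one_mul]
  simp only [Pi.mul_apply, mul_one] at h2
  rw [h3, mul_comm] at h2
  simpa using h2

/-! ### the pointwise bound -/

theorem key (hf : T_FSP) {g : E (m + 1) → ℂ} (hg : Measurable g) {S : Set (E (m + 1))}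
    (hgi : IntegrableOn g S) {k : ℝ}
    (hη : ∀ ξ, g ξ ≠ 0 → |eta ξ| ≤ k) (a : ℝ) (x : E (m + 1)) (hx : |x 0 - a| ≤ 1) :
    ‖∫ ξ in S, g ξ * ex x ξ‖ₑ ≤ ‖∫ ξ in S, P g a ξ * kr x ξ‖ₑ +
      8 * ∫⁻ s in Icc (a - 1) (a + 1),
        ‖∫ ξ in S, P (fun ξ => g ξ * (eta ξ : ℂ)) s ξ * kr x ξ‖ₑ := by
  obtain ⟨-, -, -, ht, -, hex⟩ := hf m
  have ht' : Continuous fun x : E (m + 1) => tl x := ht
  set v : E (m + 1) → ℂ := fun ξ => g ξ * (eta ξ : ℂ) with hv
  have hvm : Measurable v := hg.mul (Complex.measurable_ofReal.comp eta_cont.measurable)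
  have hvn : ∀ ξ, ‖v ξ‖ ≤ ‖(k : ℂ) * g ξ‖ := by
    intro ξ
    by_cases h0 : g ξ = 0
    · simp [hv, h0]
    · rw [hv]
      simp only [norm_mul, Complex.norm_real, Real.norm_eq_abs]
      rw [mul_comm]
      exact mul_le_mul_of_nonneg_right ((hη ξ h0).trans (le_abs_self k)) (norm_nonneg _)
  have hkm : Measurable (fun ξ : E (m + 1) => kr x ξ) :=
    ((kr_cont ht').comp (Continuous.prodMk_right x)).measurable
  -- Fubini
  have hint : Integrable (fun p : ℝ × E (m + 1) => P v p.1 p.2 * kr x p.2)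
      ((volume.restrict (Icc (a - 1) (a + 1))).prod (volume.restrict S)) := by
    have hfin : IsFiniteMeasure (volume.restrict (Icc (a - 1) (a + 1))) :=
      ⟨by rw [Measure.restrict_apply_univ]; exact measure_Icc_lt_top⟩
    have h1 : Integrable (fun p : ℝ × E (m + 1) => (k : ℂ) * g p.2)
        ((volume.restrict (Icc (a - 1) (a + 1))).prod (volume.restrict S)) :=
      Integrable.mul_prod (integrable_const (k : ℂ)) hgi
    refine h1.mono ?_ (ae_of_all _ fun p => ?_)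
    · refine (Measurable.mul ?_ (hkm.comp measurable_snd)).aestronglyMeasurable
      unfold P
      refine (hvm.comp measurable_snd).mul ?_
      have := eta_cont (m := m)
      exact (e1_cont.comp (by fun_prop)).measurable
    · rw [norm_mul, kr_norm, mul_one, P_norm]
      exact hvn _
  have hsub : uIoc a (x 0) ⊆ Icc (a - 1) (a + 1) := by
    intro s hs
    rw [abs_le] at hx
    rcases mem_uIoc.1 hs with h | h
    · exact ⟨by linarith [h.1], by linarith [h.2, hx.2]⟩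
    · exact ⟨by linarith [h.1, hx.1], by linarith [h.2]⟩
  have hkey : ∫ ξ in S, g ξ * ex x ξ =
      (∫ ξ in S, P g a ξ * kr x ξ) -
        2 * Real.pi * Complex.I * ∫ s in a..(x 0), ∫ ξ in S, P v s ξ * kr x ξ := by
    have h1 : ∀ ξ, g ξ * ex x ξ = P g a ξ * kr x ξ -
        2 * Real.pi * Complex.I * ∫ s in a..(x 0), P v s ξ * kr x ξ := by
      intro ξ
      have h2 := (hex x ξ).2.1
      have h3 : x 0 * ξ 0 = x 0 * ‖ξ‖ + -(x 0 * eta ξ) := by unfold eta; ring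
      rw [h2, h3, e1_add, e1_ftc a (x 0) (eta ξ), intervalIntegral.integral_mul_const]
      have h4 : ∫ s in a..(x 0), P v s ξ =
          g ξ * ∫ s in a..(x 0), (eta ξ : ℂ) * e1 (-(s * eta ξ)) := by
        rw [← intervalIntegral.integral_const_mul]
        refine intervalIntegral.integral_congr fun s _ => ?_
        simp only [P, hv]
        ring
      rw [h4, P, kr]
      ring
    have hint2 : Integrable (fun ξ => ∫ s in a..(x 0), P v s ξ * kr x ξ)
        (volume.restrict S) := by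
      have h5 := (hint.mono_measure (Measure.prod_mono (Measure.restrict_mono hsub le_rfl)
        le_rfl)).integral_prod_right
      rcases le_total a (x 0) with h | h
      · rw [uIoc_of_le h] at h5
        refine h5.congr (ae_of_all _ fun ξ => ?_)
        simp only [intervalIntegral.integral_of_le h]
      · rw [uIoc_of_ge h] at h5
        refine h5.neg.congr (ae_of_all _ fun ξ => ?_)
        simp only [intervalIntegral.integral_of_ge h, Pi.neg_apply]
    have hint1 : Integrable (fun ξ => P g a ξ * kr x ξ) (volume.restrict S) := by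
      refine Integrable.mono hgi ((P_meas hg a).mul hkm).aestronglyMeasurable
        (ae_of_all _ fun ξ => ?_)
      rw [norm_mul, kr_norm, mul_one, P_norm]
    calc ∫ ξ in S, g ξ * ex x ξ
        = ∫ ξ in S, (P g a ξ * kr x ξ -
            2 * Real.pi * Complex.I * ∫ s in a..(x 0), P v s ξ * kr x ξ) :=
          integral_congr_ae (ae_of_all _ h1)
      _ = (∫ ξ in S, P g a ξ * kr x ξ) -
            2 * Real.pi * Complex.I * ∫ ξ in S, ∫ s in a..(x 0), P v s ξ * kr x ξ := by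
          rw [integral_sub hint1 (hint2.const_mul _), integral_const_mul]
      _ = _ := by
          congr 2
          have h5 := hint.mono_measure
            (Measure.prod_mono (Measure.restrict_mono hsub le_rfl) le_rfl)
          rcases le_total a (x 0) with h | h
          · rw [uIoc_of_le h] at h5
            simp only [intervalIntegral.integral_of_le h]
            rw [← integral_integral_swap (f := fun s ξ => P v s ξ * kr x ξ) h5]
          · rw [uIoc_of_ge h] at h5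
            simp only [intervalIntegral.integral_of_ge h, integral_neg]
            rw [← integral_integral_swap (f := fun s ξ => P v s ξ * kr x ξ) h5]
  rw [hkey]
  have hc : ‖(2 * Real.pi * Complex.I : ℂ)‖ₑ ≤ 8 := by
    rw [← ofReal_norm]
    have : ‖(2 * Real.pi * Complex.I : ℂ)‖ = 2 * Real.pi := by
      rw [norm_mul, Complex.norm_I, mul_one, norm_mul, Complex.norm_real]
      simp [abs_of_pos Real.pi_pos]
    rw [this]
    have h8 : ENNReal.ofReal (2 * Real.pi) ≤ ENNReal.ofReal 8 :=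
      ENNReal.ofReal_le_ofReal (by linarith [Real.pi_lt_four])
    refine h8.trans (le_of_eq ?_)
    norm_num
  refine enorm_sub_le.trans (add_le_add le_rfl ?_)
  rw [enorm_mul]
  refine mul_le_mul' hc ?_
  have h10 : ‖∫ s in a..(x 0), ∫ ξ in S, P v s ξ * kr x ξ‖ₑ =
      ‖∫ s in uIoc a (x 0), ∫ ξ in S, P v s ξ * kr x ξ‖ₑ := by
    rw [← ofReal_norm, ← ofReal_norm, intervalIntegral.norm_intervalIntegral_eq]
  rw [h10]
  exact (enorm_integral_le_lintegral_enorm _).trans (lintegral_mono_set hsub)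

/-- continuity of the integrals over the sets -/
theorem I_cont (ht : Continuous fun x : E (m + 1) => tl x) {u : E (m + 1) → ℂ}
    (hu : Measurable u) {S : Set (E (m + 1))} (hi : IntegrableOn u S) :
    Continuous (fun p : ℝ × E (m + 1) => ∫ ξ in S, P u p.1 ξ * kr p.2 ξ) := by
  refine continuous_of_dominated (bound := fun ξ => ‖u ξ‖) (fun p => ?_)
    (fun p => ae_of_all _ fun ξ => ?_) hi.norm (ae_of_all _ fun ξ => ?_)
  · refine ((P_meas hu p.1).mul ?_).aestronglyMeasurable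
    exact ((kr_cont ht).comp (Continuous.prodMk_right p.2)).measurable
  · rw [norm_mul, kr_norm, mul_one, P_norm]
  · refine ((P_cont ξ u).comp continuous_fst).mul ?_
    exact ((kr_cont ht).comp (Continuous.prodMk_left ξ)).comp continuous_snd

theorem VOp_eq (h : E (m + 1) → ℂ) (x : E (m + 1)) :
    VOp h x = ⨆ (L : ℕ) (N : ℕ → ℝ) (_ : Monotone N),
      n4 L (fun j => ‖∫ ξ in Sh (m + 1) (N j) (N (j + 1)), h ξ * kr x ξ‖ₑ) := rfl

theorem VB_eq {n : ℕ} (g : E n → ℂ) (x : E n) :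
    VB g x = ⨆ (L : ℕ) (N : ℕ → ℝ) (_ : Monotone N),
      n4 L (fun j => ‖∫ ξ in Sh n (N j) (N (j + 1)), g ξ * ex x ξ‖ₑ) := rfl

theorem V_lsc (ht : Continuous fun x : E (m + 1) => tl x) {u : E (m + 1) → ℂ}
    (hu : Measurable u) (hi : ∀ R, IntegrableOn u (Metric.closedBall 0 R)) {α : Type*}
    [TopologicalSpace α] {f : α → ℝ × E (m + 1)} (hf : Continuous f) :
    LowerSemicontinuous (fun p : α => VOp (P u (f p).1) (f p).2) := by
  simp only [VOp_eq]
  refine lowerSemicontinuous_iSup fun L => lowerSemicontinuous_iSup fun N =>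
    lowerSemicontinuous_iSup fun _ => Continuous.lowerSemicontinuous ?_
  unfold n4
  refine ENNReal.continuous_rpow_const.comp (continuous_finsetSum _ fun j _ => ?_)
  refine (ENNReal.continuous_pow 4).comp (Continuous.enorm ?_)
  exact (I_cont ht hu ((hi (N (j + 1))).mono_set (Sh_sub _ _))).comp hf

/-- the pointwise bound -/
theorem pointwise (hf : T_FSP) {g : E (m + 1) → ℂ} (hg : Measurable g)
    (hgi : ∀ R, IntegrableOn g (Metric.closedBall 0 R)) {k : ℝ}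
    (hη : ∀ ξ, g ξ ≠ 0 → |eta ξ| ≤ k) (a : ℝ) (x : E (m + 1)) (hx : |x 0 - a| ≤ 1) :
    VB g x ≤ VOp (P g a) x +
      8 * ∫⁻ s in Icc (a - 1) (a + 1), VOp (P (fun ξ => g ξ * (eta ξ : ℂ)) s) x := by
  obtain ⟨-, -, -, ht, -, hex⟩ := hf m
  have ht' : Continuous fun x : E (m + 1) => tl x := ht
  set v : E (m + 1) → ℂ := fun ξ => g ξ * (eta ξ : ℂ) with hv
  have hvm : Measurable v := hg.mul (Complex.measurable_ofReal.comp eta_cont.measurable)
  have hvi : ∀ R, IntegrableOn v (Metric.closedBall 0 R) := by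
    intro R
    refine Integrable.mono ((hgi R).const_mul (k : ℂ)) hvm.aestronglyMeasurable
      (ae_of_all _ fun ξ => ?_)
    by_cases h0 : g ξ = 0
    · simp [hv, h0]
    · rw [hv]
      simp only [norm_mul, Complex.norm_real, Real.norm_eq_abs]
      rw [mul_comm]
      exact mul_le_mul_of_nonneg_right ((hη ξ h0).trans (le_abs_self k)) (norm_nonneg _)
  rw [VB_eq]
  refine iSup_le fun L => iSup_le fun N => iSup_le fun hN => ?_
  have hm : ∀ j : ℕ, Measurable fun s : ℝ =>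
      ‖∫ ξ in Sh (m + 1) (N j) (N (j + 1)), P v s ξ * kr x ξ‖ₑ := by
    intro j
    have h1 := (I_cont ht' hvm ((hvi (N (j + 1))).mono_set (Sh_sub (N j) _))).comp
      (Continuous.prodMk_left x)
    exact h1.enorm.measurable
  calc n4 L (fun j => ‖∫ ξ in Sh (m + 1) (N j) (N (j + 1)), g ξ * ex x ξ‖ₑ)
      ≤ n4 L (fun j => ‖∫ ξ in Sh (m + 1) (N j) (N (j + 1)), P g a ξ * kr x ξ‖ₑ +
          8 * ∫⁻ s in Icc (a - 1) (a + 1),
            ‖∫ ξ in Sh (m + 1) (N j) (N (j + 1)), P v s ξ * kr x ξ‖ₑ) :=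
        n4_mono fun j _ => key hf hg ((hgi (N (j + 1))).mono_set (Sh_sub _ _)) hη a x hx
    _ ≤ n4 L (fun j => ‖∫ ξ in Sh (m + 1) (N j) (N (j + 1)), P g a ξ * kr x ξ‖ₑ) +
        n4 L (fun j => 8 * ∫⁻ s in Icc (a - 1) (a + 1),
            ‖∫ ξ in Sh (m + 1) (N j) (N (j + 1)), P v s ξ * kr x ξ‖ₑ) := n4_add _ _ _
    _ ≤ VOp (P g a) x + 8 * ∫⁻ s in Icc (a - 1) (a + 1), VOp (P v s) x := by
        refine add_le_add ?_ ?_
        · rw [VOp_eq]
          exact le_iSup_of_le L (le_iSup_of_le N (le_iSup_of_le hN le_rfl))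
        · rw [n4_smul]
          refine mul_le_mul' le_rfl ((n4_int _ L hm).trans (lintegral_mono fun s => ?_))
          rw [VOp_eq]
          exact le_iSup_of_le L (le_iSup_of_le N (le_iSup_of_le hN le_rfl))

/-- the part of low frequency -/
theorem low {g : E m → ℂ} (hg : Measurable g)
    (hgi : ∀ R, IntegrableOn g (Metric.closedBall 0 R)) (K : ℝ) (x : E m) :
    VB g x ≤ (∫⁻ ξ in Metric.closedBall (0 : E m) K, ‖g ξ‖ₑ) +
      VB ((Metric.closedBall (0 : E m) K)ᶜ.indicator g) x := by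
  set B : Set (E m) := Metric.closedBall 0 K with hB
  have hBm : MeasurableSet B := measurableSet_closedBall
  rw [VB_eq]
  refine iSup_le fun L => iSup_le fun N => iSup_le fun hN => ?_
  have h1 : ∀ j : ℕ, ‖∫ ξ in Sh m (N j) (N (j + 1)), g ξ * ex x ξ‖ₑ ≤
      (∫⁻ ξ in Sh m (N j) (N (j + 1)), ‖B.indicator g ξ‖ₑ) +
        ‖∫ ξ in Sh m (N j) (N (j + 1)), Bᶜ.indicator g ξ * ex x ξ‖ₑ := by
    intro j
    have hS : IntegrableOn g (Sh m (N j) (N (j + 1))) :=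
      (hgi (N (j + 1))).mono_set (Sh_sub _ _)
    have h2 : ∫ ξ in Sh m (N j) (N (j + 1)), g ξ * ex x ξ =
        (∫ ξ in Sh m (N j) (N (j + 1)), B.indicator g ξ * ex x ξ) +
          ∫ ξ in Sh m (N j) (N (j + 1)), Bᶜ.indicator g ξ * ex x ξ := by
      rw [← integral_add (intEx (hS.indicator hBm) x) (intEx (hS.indicator hBm.compl) x)]
      refine integral_congr_ae (ae_of_all _ fun ξ => ?_)
      simp only
      rw [← add_mul]
      congr 1
      have := congrFun (Set.indicator_self_add_compl B g) ξ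
      exact this.symm
    rw [h2]
    refine (enorm_add_le _ _).trans (add_le_add ?_ le_rfl)
    refine (enorm_integral_le_lintegral_enorm _).trans (le_of_eq ?_)
    refine lintegral_congr fun ξ => ?_
    rw [enorm_mul]
    have : ‖ex x ξ‖ₑ = 1 := by
      rw [← ofReal_norm, Pool.Agent.MBS.ex_norm, ENNReal.ofReal_one]
    rw [this, mul_one]
  refine (n4_mono fun j _ => h1 j).trans ((n4_add _ _ _).trans (add_le_add ?_ ?_))
  · refine (n4_le_sum _ _).trans ?_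
    rw [← lintegral_biUnion_finset (Sh_disj hN _) fun j _ => Sh_meas _ _]
    refine (setLIntegral_le_lintegral _ _).trans (le_of_eq ?_)
    rw [← lintegral_indicator hBm]
    refine lintegral_congr fun ξ => ?_
    by_cases h : ξ ∈ B
    · simp [h]
    · simp [h]
  · rw [VB_eq]
    exact le_iSup_of_le L (le_iSup_of_le N (le_iSup_of_le hN le_rfl))

/-- the part of high frequency -/
theorem pos (hf : T_FSP) {C : ℝ≥0} (hC : ∀ h : E (m + 1) → ℂ, Measurable h →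
      (∀ ξ, h ξ ≠ 0 → 0 < ξ 0 ∧ 2 * ‖tl ξ‖ ≤ ‖ξ‖) →
      ∫⁻ x, VOp h x ^ 2 ≤ C * ∫⁻ ξ, ‖h ξ‖ₑ ^ 2)
    {k : ℝ} {g : E (m + 1) → ℂ} (x0 : E (m + 1)) (hk : 0 ≤ k) (hg : Measurable g)
    (hs : ∀ ξ, g ξ ≠ 0 → ‖ξ‖ - ξ 0 ≤ k ∧ 8 * k + 1 < ‖ξ‖)
    (hfin : ∫⁻ ξ, ‖g ξ‖ₑ ^ 2 ≠ ⊤) :
    ∫⁻ x in Metric.closedBall x0 1, VB g x ^ 2 ≤
      (4 * C + 1024 * ENNReal.ofReal k ^ 2 * C) * ∫⁻ ξ, ‖g ξ‖ₑ ^ 2 := by
  obtain ⟨-, -, -, ht, -, hex⟩ := hf m
  have ht' : Continuous fun x : E (m + 1) => tl x := ht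
  have hsup : ∀ ξ, g ξ ≠ 0 → 0 ≤ eta ξ ∧ eta ξ ≤ k ∧ 0 < ξ 0 ∧ 2 * ‖tl ξ‖ ≤ ‖ξ‖ := by
    intro ξ hξ
    obtain ⟨h1, h3⟩ := hs ξ hξ
    have h4 := (hex ξ ξ).2.2
    have h5 : 0 ≤ eta ξ := by
      unfold eta
      have : ξ 0 ≤ ‖ξ‖ := abs_le_of_sq_le_sq' (by nlinarith [sq_nonneg ‖tl ξ‖])
        (norm_nonneg ξ) |>.2
      linarith
    have h5' : ξ 0 ≤ ‖ξ‖ := by unfold eta at h5; linarith
    have h6 : ‖tl ξ‖ ^ 2 = (‖ξ‖ - ξ 0) * (‖ξ‖ + ξ 0) := by nlinarith
    have h7 : 0 < ξ 0 := by linarith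
    refine ⟨h5, h1, h7, ?_⟩
    have h8 : ‖tl ξ‖ ^ 2 ≤ k * (2 * ‖ξ‖) := by
      rw [h6]
      exact mul_le_mul h1 (by linarith) (by positivity) hk
    have h9 : (2 * ‖tl ξ‖) ^ 2 ≤ ‖ξ‖ ^ 2 := by
      have h10 : 8 * k * ‖ξ‖ ≤ ‖ξ‖ * ‖ξ‖ :=
        mul_le_mul_of_nonneg_right (by linarith) (norm_nonneg _)
      nlinarith
    exact (pow_le_pow_iff_left₀ (by positivity) (norm_nonneg _) two_ne_zero).1 h9
  have hη : ∀ ξ, g ξ ≠ 0 → |eta ξ| ≤ k := by
    intro ξ hξ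
    obtain ⟨h1, h2, -⟩ := hsup ξ hξ
    rw [abs_of_nonneg h1]
    exact h2
  have hgi := intOn hg hfin
  set v : E (m + 1) → ℂ := fun ξ => g ξ * (eta ξ : ℂ) with hv
  have hvm : Measurable v := hg.mul (Complex.measurable_ofReal.comp eta_cont.measurable)
  have hvn : ∀ ξ, ‖v ξ‖ₑ ≤ ENNReal.ofReal k * ‖g ξ‖ₑ := by
    intro ξ
    by_cases h0 : g ξ = 0
    · simp [hv, h0]
    · rw [hv, ← ofReal_norm, ← ofReal_norm, ← ENNReal.ofReal_mul hk]
      refine ENNReal.ofReal_le_ofReal ?_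
      simp only [norm_mul, Complex.norm_real, Real.norm_eq_abs]
      rw [mul_comm]
      exact mul_le_mul_of_nonneg_right (hη ξ h0) (norm_nonneg _)
  have hv2 : ∫⁻ ξ, ‖v ξ‖ₑ ^ 2 ≤ ENNReal.ofReal k ^ 2 * ∫⁻ ξ, ‖g ξ‖ₑ ^ 2 := by
    rw [← lintegral_const_mul _ (hg.enorm.pow_const 2)]
    refine lintegral_mono fun ξ => ?_
    rw [← mul_pow]
    exact pow_le_pow_left' (hvn ξ) 2
  have hvi := intOn hvm (ne_top_of_le_ne_top (ENNReal.mul_ne_top (by finiteness) hfin) hv2)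
  set a : ℝ := x0 0 with ha
  have hA : ∫⁻ x, VOp (P g a) x ^ 2 ≤ C * ∫⁻ ξ, ‖g ξ‖ₑ ^ 2 := by
    refine (hC (P g a) (P_meas hg a) fun ξ hξ => ?_).trans (le_of_eq ?_)
    · exact (hsup ξ (left_ne_zero_of_mul hξ)).2.2
    · simp only [P_enorm]
  have hBs : ∀ s, ∫⁻ x, VOp (P v s) x ^ 2 ≤
      C * (ENNReal.ofReal k ^ 2 * ∫⁻ ξ, ‖g ξ‖ₑ ^ 2) := by
    intro s
    refine (hC (P v s) (P_meas hvm s) fun ξ hξ => ?_).trans ?_
    · exact (hsup ξ (left_ne_zero_of_mul (left_ne_zero_of_mul hξ))).2.2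
    · simp only [P_enorm]
      exact mul_le_mul_right hv2 _
  have hmS : Measurable (fun p : E (m + 1) × ℝ => VOp (P v p.2) p.1 ^ 2) :=
    ((V_lsc ht' hvm hvi (f := fun p : E (m + 1) × ℝ => (p.2, p.1))
      (by fun_prop)).measurable).pow_const 2
  have hmA : Measurable fun x => VOp (P g a) x :=
    (V_lsc ht' hg hgi (f := fun x : E (m + 1) => (a, x)) (by fun_prop)).measurable
  have hmL : ∀ x : E (m + 1), Measurable fun s => VOp (P v s) x := fun x =>
    (V_lsc ht' hvm hvi (f := fun s : ℝ => (s, x)) (by fun_prop)).measurable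
  have hpt : ∀ x ∈ Metric.closedBall x0 1, VB g x ^ 2 ≤
      4 * VOp (P g a) x ^ 2 + 512 * ∫⁻ s in Icc (a - 1) (a + 1), VOp (P v s) x ^ 2 := by
    intro x hx
    have hx1 : |x 0 - a| ≤ 1 := by
      rw [Metric.mem_closedBall, dist_eq_norm] at hx
      have h1 := PiLp.norm_apply_le (x - x0) 0
      rw [Real.norm_eq_abs] at h1
      exact h1.trans hx
    have h1 := pointwise hf hg hgi hη a x hx1
    calc VB g x ^ 2 ≤ (VOp (P g a) x +
            8 * ∫⁻ s in Icc (a - 1) (a + 1), VOp (P v s) x) ^ 2 := pow_le_pow_left' h1 2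
      _ ≤ 4 * VOp (P g a) x ^ 2 +
            4 * (8 * ∫⁻ s in Icc (a - 1) (a + 1), VOp (P v s) x) ^ 2 := sq_add _ _
      _ = 4 * VOp (P g a) x ^ 2 +
            256 * (∫⁻ s in Icc (a - 1) (a + 1), VOp (P v s) x) ^ 2 := by
          rw [mul_pow]; ring
      _ ≤ 4 * VOp (P g a) x ^ 2 +
            256 * (2 * ∫⁻ s in Icc (a - 1) (a + 1), VOp (P v s) x ^ 2) := by
          gcongr
          exact cs (hmL x) a
      _ = _ := by ring
  calc ∫⁻ x in Metric.closedBall x0 1, VB g x ^ 2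
      ≤ ∫⁻ x in Metric.closedBall x0 1, (4 * VOp (P g a) x ^ 2 +
          512 * ∫⁻ s in Icc (a - 1) (a + 1), VOp (P v s) x ^ 2) :=
        setLIntegral_mono' measurableSet_closedBall hpt
    _ ≤ ∫⁻ x, (4 * VOp (P g a) x ^ 2 +
          512 * ∫⁻ s in Icc (a - 1) (a + 1), VOp (P v s) x ^ 2) :=
        setLIntegral_le_lintegral _ _
    _ = 4 * (∫⁻ x, VOp (P g a) x ^ 2) +
          512 * ∫⁻ x, ∫⁻ s in Icc (a - 1) (a + 1), VOp (P v s) x ^ 2 := by
        rw [lintegral_add_left ((hmA.pow_const 2).const_mul 4),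
          lintegral_const_mul _ (hmA.pow_const 2), lintegral_const_mul]
        exact hmS.lintegral_prod_right'
    _ = 4 * (∫⁻ x, VOp (P g a) x ^ 2) +
          512 * ∫⁻ s in Icc (a - 1) (a + 1), ∫⁻ x, VOp (P v s) x ^ 2 := by
        congr 2
        exact lintegral_lintegral_swap hmS.aemeasurable
    _ ≤ 4 * (C * ∫⁻ ξ, ‖g ξ‖ₑ ^ 2) +
          512 * ∫⁻ s in Icc (a - 1) (a + 1),
            (C * (ENNReal.ofReal k ^ 2 * ∫⁻ ξ, ‖g ξ‖ₑ ^ 2)) := by
        gcongr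
        exact hBs _
    _ = (4 * C + 1024 * ENNReal.ofReal k ^ 2 * C) * ∫⁻ ξ, ‖g ξ‖ₑ ^ 2 := by
        rw [setLIntegral_const, Real.volume_Icc, show a + 1 - (a - 1) = (2 : ℝ) by ring]
        have : ENNReal.ofReal 2 = 2 := by norm_num
        rw [this]
        ring

end CF1_

open CF1_ Pool.Agent.CRF.FL1_ in
theorem p_CF1 (h1 : T_FSP) (h2 : T_CF0) : T_CF1 := by
  intro m k hk
  obtain ⟨C, hC⟩ := h2 m
  set V1 : ℝ≥0∞ := volume (Metric.closedBall (0 : E (m + 1)) 1) with hV1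
  set V2 : ℝ≥0∞ := volume (Metric.closedBall (0 : E (m + 1)) (8 * k + 1)) with hV2
  have hV1f : V1 ≠ ⊤ := measure_closedBall_lt_top.ne
  have hV2f : V2 ≠ ⊤ := measure_closedBall_lt_top.ne
  set D : ℝ≥0∞ := 4 * (V2 * V1) + 4 * (4 * C + 1024 * ENNReal.ofReal k ^ 2 * C) + 1 with hD
  have hDf : D ≠ ⊤ := by
    rw [hD]
    finiteness
  refine ⟨D.toNNReal, fun g x0 hg hs => ?_⟩
  rw [ENNReal.coe_toNNReal hDf]
  by_cases hfin : ∫⁻ ξ, ‖g ξ‖ₑ ^ 2 = ⊤
  · rw [hfin, ENNReal.mul_top]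
    · exact le_top
    · rw [hD]
      simp
  have hgi := intOn hg hfin
  set K : ℝ := 8 * k + 1 with hK
  set u : E (m + 1) → ℂ := (Metric.closedBall (0 : E (m + 1)) K)ᶜ.indicator g with hu
  have hum : Measurable u := hg.indicator measurableSet_closedBall.compl
  have hle : ∫⁻ ξ, ‖u ξ‖ₑ ^ 2 ≤ ∫⁻ ξ, ‖g ξ‖ₑ ^ 2 := by
    refine lintegral_mono fun ξ => pow_le_pow_left' ?_ 2
    by_cases h : ξ ∈ (Metric.closedBall (0 : E (m + 1)) K)ᶜ
    · rw [hu, indicator_of_mem h]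
    · rw [hu, indicator_of_notMem h]
      simp
  have huf : ∫⁻ ξ, ‖u ξ‖ₑ ^ 2 ≠ ⊤ := ne_top_of_le_ne_top hfin hle
  have hP := pos h1 hC x0 hk hum (fun ξ hξ => by
    have h3 : ξ ∈ (Metric.closedBall (0 : E (m + 1)) K)ᶜ := by
      by_contra hc
      exact hξ (indicator_of_notMem hc _)
    rw [hu, indicator_of_mem h3] at hξ
    refine ⟨hs ξ hξ, ?_⟩
    rw [mem_compl_iff, mem_closedBall_zero_iff, not_le] at h3
    exact h3) huf
  set A : ℝ≥0∞ := ∫⁻ ξ in Metric.closedBall (0 : E (m + 1)) K, ‖g ξ‖ₑ with hA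
  have hA2 : A ^ 2 ≤ V2 * ∫⁻ ξ, ‖g ξ‖ₑ ^ 2 := by
    have h3 := cs2 (volume.restrict (Metric.closedBall (0 : E (m + 1)) K)) hg.enorm
    rw [Measure.restrict_apply_univ] at h3
    exact h3.trans (mul_le_mul' le_rfl (setLIntegral_le_lintegral _ _))
  calc ∫⁻ x in Metric.closedBall x0 1, VB g x ^ 2
      ≤ ∫⁻ x in Metric.closedBall x0 1, (4 * A ^ 2 + 4 * VB u x ^ 2) :=
        lintegral_mono fun x => (pow_le_pow_left' (low hg hgi K x) 2).trans (sq_add _ _)
    _ = 4 * A ^ 2 * V1 + 4 * ∫⁻ x in Metric.closedBall x0 1, VB u x ^ 2 := by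
        rw [lintegral_add_left measurable_const, setLIntegral_const,
          lintegral_const_mul' _ _ (by norm_num), Measure.addHaar_closedBall_center]
    _ ≤ 4 * (V2 * ∫⁻ ξ, ‖g ξ‖ₑ ^ 2) * V1 +
          4 * ((4 * C + 1024 * ENNReal.ofReal k ^ 2 * C) * ∫⁻ ξ, ‖g ξ‖ₑ ^ 2) := by
        gcongr
        exact hP.trans (mul_le_mul' le_rfl hle)
    _ = (4 * (V2 * V1) + 4 * (4 * C + 1024 * ENNReal.ofReal k ^ 2 * C)) *
          ∫⁻ ξ, ‖g ξ‖ₑ ^ 2 := by ring
    _ ≤ D * ∫⁻ ξ, ‖g ξ‖ₑ ^ 2 := by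
        gcongr
        rw [hD]
        exact le_self_add

end Pool.Agent.VRC
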