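import Pool.Agent.VRC.Targets2
import Pool.Agent.CRF.P_FRT

set_option autoImplicit false

/-!
# VRC: rotation of the parabolic region (helper23)
-/

namespace Pool.Agent.VRC

open MeasureTheory FourierTransform Set Filter Topology
open scoped ENNReal NNReal
open Pool.Agent.MBS (E ex)
open Pool.Agent.CAR (e1)
open Pool.Agent.CRF (jn tl T_FSP T_FRT)

namespace CF2_

open Pool.Agent.CRF.FRT_ (ex_map emb)

theorem VB_map {n : ℕ} (A : E n ≃ₗᵢ[ℝ] E n) (g : E n → ℂ) (x : E n) :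
    VB (fun ξ => g (A ξ)) x = VB g (A x) := by
  unfold VB
  refine iSup_congr fun L => iSup_congr fun N => iSup_congr fun _ => ?_
  congr 1
  refine Finset.sum_congr rfl fun j _ => ?_
  congr 2
  have h := A.measurePreserving.setIntegral_preimage_emb (emb A)
    (fun ξ => g ξ * ex (A x) ξ) {ξ : E n | N j < ‖ξ‖ ∧ ‖ξ‖ ≤ N (j + 1)}
  have e : (A : E n → E n) ⁻¹' {ξ : E n | N j < ‖ξ‖ ∧ ‖ξ‖ ≤ N (j + 1)} =
      {ξ : E n | N j < ‖ξ‖ ∧ ‖ξ‖ ≤ N (j + 1)} := by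
    ext ξ
    simp
  rw [e] at h
  rw [← h]
  simp only [ex_map]

end CF2_

open Pool.Agent.CRF.FRT_ (emb) in
/-- rotation -/
theorem p_CF2 (h1 : T_CF1) (_h2 : T_FRT) : T_CF2 := by
  intro n k hn hk
  obtain ⟨m, rfl⟩ : ∃ m, n = m + 1 := ⟨n - 1, by omega⟩
  obtain ⟨C, hC⟩ := h1 m k hk
  refine ⟨C, fun w g x0 hw hg hs => ?_⟩
  set v : E (m + 1) := EuclideanSpace.single 0 1 with hv
  have hvn : ‖v‖ = ‖w‖ := by rw [hw, hv]; simp
  set A : E (m + 1) ≃ₗᵢ[ℝ] E (m + 1) := Submodule.reflection (Submodule.span ℝ {v - w})ᗮ with hA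
  have hAv : A v = w := Submodule.reflection_sub hvn
  have hm : Measurable fun ξ => g (A ξ) := hg.comp A.continuous.measurable
  have h3 := hC (fun ξ => g (A ξ)) (A.symm x0) hm (fun ξ hξ => by
    have h4 := hs (A ξ) hξ
    rw [A.norm_map, ← hAv, A.inner_map_map, hv, EuclideanSpace.inner_single_left] at h4
    simpa using h4)
  have h5 : ∫⁻ x in Metric.closedBall x0 1, VB g x ^ 2 =
      ∫⁻ x in Metric.closedBall (A.symm x0) 1, VB (fun ξ => g (A ξ)) x ^ 2 := by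
    have h := A.measurePreserving.setLIntegral_comp_preimage_emb (emb A)
      (fun x => VB g x ^ 2) (Metric.closedBall x0 1)
    rw [A.preimage_closedBall] at h
    rw [← h]
    simp only [CF2_.VB_map]
  have h6 : ∫⁻ ξ, ‖g (A ξ)‖ₑ ^ 2 = ∫⁻ ξ, ‖g ξ‖ₑ ^ 2 :=
    A.measurePreserving.lintegral_comp_emb (emb A) (fun ξ => ‖g ξ‖ₑ ^ 2)
  rw [h5, ← h6]
  exact h3

end Pool.Agent.VRC
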