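import Pool.Agent.VRC.Targets2

set_option autoImplicit false

/-!
# VRC: Khintchine's inequality for the sixth moment (CHK)
-/

namespace Pool.Agent.VRC

open MeasureTheory ProbabilityTheory Set Filter Topology
open scoped ENNReal NNReal

namespace CHK_

variable {Ω : Type} [MeasurableSpace Ω] {P : Measure Ω} {ε : ℕ → Ω → ℝ}

theorem ae_mem (h : Sgn P ε) (i : ℕ) : ∀ᵐ ω ∂P, ε i ω = 1 ∨ ε i ω = -1 := by
  have := h.prob
  have h1 : MeasurableSet {ω | ε i ω = 1} := h.meas i (measurableSet_singleton 1)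
  have h2 : MeasurableSet {ω | ε i ω = -1} := h.meas i (measurableSet_singleton (-1))
  have h3 : Disjoint {ω | ε i ω = 1} {ω | ε i ω = -1} := by
    rw [Set.disjoint_left]
    intro ω h4 h5
    rw [mem_ofPred_eq] at h4 h5
    rw [h4] at h5
    norm_num at h5
  have h4 : P ({ω | ε i ω = 1} ∪ {ω | ε i ω = -1}) = 1 := by
    rw [measure_union h3 h2, h.pos, h.neg, ENNReal.add_halves]
  have h5 := (prob_compl_eq_zero_iff (h1.union h2)).2 h4
  rw [ae_iff]
  refine measure_mono_null ?_ h5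
  intro ω hω
  exact hω

theorem int_eq (h : Sgn P ε) (i : ℕ) : ∫ ω, ε i ω ∂P = 0 := by
  have := h.prob
  have h1 : MeasurableSet {ω | ε i ω = 1} := h.meas i (measurableSet_singleton 1)
  have h2 : MeasurableSet {ω | ε i ω = -1} := h.meas i (measurableSet_singleton (-1))
  have h3 : ε i =ᵐ[P] fun ω => ({ω | ε i ω = 1}.indicator 1 ω : ℝ) -
      ({ω | ε i ω = -1}.indicator 1 ω : ℝ) := by
    filter_upwards [ae_mem h i] with ω hω
    rcases hω with h4 | h4
    · have h5 : ω ∈ {ω | ε i ω = 1} := h4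
      have h6 : ω ∉ {ω | ε i ω = -1} := by
        rw [mem_ofPred_eq, h4]
        norm_num
      rw [indicator_of_mem h5, indicator_of_notMem h6, h4]
      simp
    · have h5 : ω ∉ {ω | ε i ω = 1} := by
        rw [mem_ofPred_eq, h4]
        norm_num
      have h6 : ω ∈ {ω | ε i ω = -1} := h4
      rw [indicator_of_notMem h5, indicator_of_mem h6, h4]
      simp
  have e1 : Integrable (({ω | ε i ω = 1}.indicator 1 : Ω → ℝ)) P :=
    (integrable_const (1 : ℝ)).indicator h1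
  have e2 : Integrable (({ω | ε i ω = -1}.indicator 1 : Ω → ℝ)) P :=
    (integrable_const (1 : ℝ)).indicator h2
  rw [integral_congr_ae h3, integral_sub e1 e2, integral_indicator_one h1,
    integral_indicator_one h2, measureReal_def, measureReal_def, h.pos, h.neg, sub_self]

theorem sub (h : Sgn P ε) (i : ℕ) : HasSubgaussianMGF (ε i) 1 P := by
  have := h.prob
  have h1 : ∀ᵐ ω ∂P, ε i ω ∈ Icc (-1 : ℝ) 1 := by
    filter_upwards [ae_mem h i] with ω hω
    rcases hω with h4 | h4 <;> rw [h4] <;> norm_num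
  have h2 := hasSubgaussianMGF_of_mem_Icc_of_integral_eq_zero (h.meas i).aemeasurable h1
    (int_eq h i)
  have h3 : (‖(1 : ℝ) - (-1)‖₊ / 2) ^ 2 = 1 := by
    have h4 : ‖(1 : ℝ) - (-1)‖₊ = 2 := by
      rw [sub_neg_eq_add, ← NNReal.coe_inj, coe_nnnorm, Real.norm_eq_abs]
      norm_num
    rw [h4]
    norm_num
  rwa [h3] at h2

theorem sum_sub (h : Sgn P ε) (n : ℕ) (a : ℕ → ℝ) (t : ℝ) :
    Integrable (fun ω => Real.exp (t * ∑ i ∈ Finset.range n, a i * ε i ω)) P ∧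
    ∫ ω, Real.exp (t * ∑ i ∈ Finset.range n, a i * ε i ω) ∂P ≤
      Real.exp ((∑ i ∈ Finset.range n, a i ^ 2) * t ^ 2 / 2) := by
  have h1 : iIndepFun (fun i ω => a i * ε i ω) P :=
    h.ind.comp (fun i x => a i * x) (fun i => measurable_const_mul _)
  have h2 := HasSubgaussianMGF.sum_of_iIndepFun h1 (s := Finset.range n)
    (fun i _ => (sub h i).const_mul (a i))
  refine ⟨h2.integrable_exp_mul t, ?_⟩
  have h3 := h2.mgf_le t
  unfold mgf at h3
  refine h3.trans (le_of_eq ?_)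
  congr 3
  rw [NNReal.coe_sum]
  refine Finset.sum_congr rfl (fun i _ => ?_)
  exact congrArg NNReal.toReal (mul_one (⟨a i ^ 2, sq_nonneg (a i)⟩ : ℝ≥0))

theorem six (x : ℝ) : x ^ 6 ≤ 720 * (Real.exp x + Real.exp (-x)) := by
  have h1 := Real.pow_div_factorial_le_exp |x| (abs_nonneg x) 6
  have h2 : |x| ^ 6 = x ^ 6 := by
    rw [show (6 : ℕ) = 2 * 3 by norm_num, pow_mul, pow_mul, sq_abs]
  have h3 : ((Nat.factorial 6 : ℕ) : ℝ) = 720 := by norm_num [Nat.factorial]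
  rw [h2, h3, div_le_iff₀ (by norm_num)] at h1
  have h4 : Real.exp |x| ≤ Real.exp x + Real.exp (-x) := by
    rcases abs_cases x with ⟨h5, _⟩ | ⟨h5, _⟩ <;> rw [h5]
    · linarith [Real.exp_pos (-x)]
    · linarith [Real.exp_pos x]
  linarith

theorem real_bd (h : Sgn P ε) (n : ℕ) (a : ℕ → ℝ) : ∃ G : Ω → ℝ, Integrable G P ∧
    (∀ ω, (∑ i ∈ Finset.range n, a i * ε i ω) ^ 6 ≤ G ω) ∧
    ∫ ω, G ω ∂P ≤ 2400 * (∑ i ∈ Finset.range n, a i ^ 2) ^ 3 := by
  have hs0 : 0 ≤ ∑ i ∈ Finset.range n, a i ^ 2 := Finset.sum_nonneg (fun i _ => sq_nonneg _)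
  rcases hs0.eq_or_lt with hs | hs
  · refine ⟨fun _ => 0, integrable_zero _ _ _, fun ω => ?_, ?_⟩
    · have h1 : ∑ i ∈ Finset.range n, a i * ε i ω = 0 := by
        refine Finset.sum_eq_zero (fun i hi => ?_)
        have h2 := (Finset.sum_eq_zero_iff_of_nonneg (fun i _ => sq_nonneg (a i))).1 hs.symm i hi
        rw [pow_eq_zero_iff (by norm_num)] at h2
        rw [h2, zero_mul]
      rw [h1]
      norm_num
    · rw [integral_zero, ← hs]
      norm_num
  · obtain ⟨v, hv⟩ : ∃ v, v = ∑ i ∈ Finset.range n, a i ^ 2 := ⟨_, rfl⟩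
    rw [← hv] at hs ⊢
    obtain ⟨t, ht⟩ : ∃ t, t = 1 / Real.sqrt v := ⟨_, rfl⟩
    have ht2 : v * t ^ 2 = 1 := by
      rw [ht, div_pow, Real.sq_sqrt hs.le]
      field_simp
    obtain ⟨i1, b1⟩ := sum_sub h n a t
    obtain ⟨i2, b2⟩ := sum_sub h n a (-t)
    rw [← hv] at b1 b2
    have hE : Real.exp (1 / 2) ≤ 5 / 3 := by
      have h1 : Real.exp (1 / 2) ^ 2 ≤ (5 / 3) ^ 2 := by
        rw [← Real.exp_nat_mul]
        have h2 := Real.exp_one_lt_d9
        norm_num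
        linarith
      exact (pow_le_pow_iff_left₀ (Real.exp_pos _).le (by norm_num) two_ne_zero).1 h1
    have hb1 : Real.exp (v * t ^ 2 / 2) ≤ 5 / 3 := by
      rw [ht2]
      exact hE
    have hb2 : Real.exp (v * (-t) ^ 2 / 2) ≤ 5 / 3 := by
      rw [neg_sq, ht2]
      exact hE
    refine ⟨fun ω => v ^ 3 * 720 * (Real.exp (t * ∑ i ∈ Finset.range n, a i * ε i ω) +
      Real.exp (-t * ∑ i ∈ Finset.range n, a i * ε i ω)), (i1.add i2).const_mul _,
      fun ω => ?_, ?_⟩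
    · have h1 := six (t * ∑ i ∈ Finset.range n, a i * ε i ω)
      have h2 : (∑ i ∈ Finset.range n, a i * ε i ω) ^ 6 =
          v ^ 3 * (t * ∑ i ∈ Finset.range n, a i * ε i ω) ^ 6 := by
        have h3 : v ^ 3 * t ^ 6 = 1 := by
          calc v ^ 3 * t ^ 6 = (v * t ^ 2) ^ 3 := by ring
            _ = 1 := by rw [ht2, one_pow]
        rw [mul_pow, ← mul_assoc, h3, one_mul]
      beta_reduce
      rw [h2, neg_mul]
      have h4 : 0 ≤ v ^ 3 := by positivity
      calc _ ≤ v ^ 3 * (720 * (Real.exp (t * ∑ i ∈ Finset.range n, a i * ε i ω) +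
            Real.exp (-(t * ∑ i ∈ Finset.range n, a i * ε i ω)))) :=
            mul_le_mul_of_nonneg_left h1 h4
        _ = _ := by ring
    · rw [integral_const_mul, integral_add i1 i2]
      have h4 : 0 ≤ v ^ 3 * 720 := by positivity
      calc _ ≤ v ^ 3 * 720 * (5 / 3 + 5 / 3) :=
            mul_le_mul_of_nonneg_left (add_le_add (b1.trans hb1) (b2.trans hb2)) h4
        _ = _ := by ring

end CHK_

open CHK_ in
theorem p_CHK : T_CHK := by
  refine ⟨9600, ?_⟩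
  intro Ω _ P ε h n c
  obtain ⟨G1, i1, p1, b1⟩ := real_bd h n (fun i => (c i).re)
  obtain ⟨G2, i2, p2, b2⟩ := real_bd h n (fun i => (c i).im)
  have hn1 : ∀ ω, 0 ≤ G1 ω := fun ω => le_trans (by positivity) (p1 ω)
  have hn2 : ∀ ω, 0 ≤ G2 ω := fun ω => le_trans (by positivity) (p2 ω)
  have key : ∀ ω, ‖∑ i ∈ Finset.range n, (ε i ω : ℂ) * c i‖ₑ ^ 6 ≤
      ENNReal.ofReal (4 * (G1 ω + G2 ω)) := by
    intro ω
    rw [← ofReal_norm, ← ENNReal.ofReal_pow (norm_nonneg _)]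
    apply ENNReal.ofReal_le_ofReal
    have hre : (∑ i ∈ Finset.range n, (ε i ω : ℂ) * c i).re =
        ∑ i ∈ Finset.range n, (c i).re * ε i ω := by
      rw [Complex.re_sum]
      refine Finset.sum_congr rfl (fun i _ => ?_)
      rw [Complex.re_ofReal_mul, mul_comm]
    have him : (∑ i ∈ Finset.range n, (ε i ω : ℂ) * c i).im =
        ∑ i ∈ Finset.range n, (c i).im * ε i ω := by
      rw [Complex.im_sum]
      refine Finset.sum_congr rfl (fun i _ => ?_)
      rw [Complex.im_ofReal_mul, mul_comm]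
    have h1 : ‖∑ i ∈ Finset.range n, (ε i ω : ℂ) * c i‖ ^ 2 =
        (∑ i ∈ Finset.range n, (c i).re * ε i ω) ^ 2 +
        (∑ i ∈ Finset.range n, (c i).im * ε i ω) ^ 2 := by
      rw [Complex.sq_norm, Complex.normSq_apply, hre, him]
      ring
    have h2 := p1 ω
    have h3 := p2 ω
    obtain ⟨A, hA⟩ : ∃ A, A = ∑ i ∈ Finset.range n, (c i).re * ε i ω := ⟨_, rfl⟩
    obtain ⟨B, hB⟩ : ∃ B, B = ∑ i ∈ Finset.range n, (c i).im * ε i ω := ⟨_, rfl⟩
    rw [← hA] at h1 h2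
    rw [← hB] at h1 h3
    have h4 : ‖∑ i ∈ Finset.range n, (ε i ω : ℂ) * c i‖ ^ 6 = (A ^ 2 + B ^ 2) ^ 3 := by
      rw [← h1]
      ring
    rw [h4]
    have h5 : (A ^ 2 + B ^ 2) ^ 3 ≤ 4 * (A ^ 6 + B ^ 6) := by
      have h6 : 4 * (A ^ 6 + B ^ 6) - (A ^ 2 + B ^ 2) ^ 3 =
          3 * ((A ^ 2 + B ^ 2) * (A ^ 2 - B ^ 2) ^ 2) := by ring
      have h7 : 0 ≤ 3 * ((A ^ 2 + B ^ 2) * (A ^ 2 - B ^ 2) ^ 2) := by positivity
      linarith
    linarith
  have hi : Integrable (fun ω => 4 * (G1 ω + G2 ω)) P := (i1.add i2).const_mul 4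
  have hv : ∑ i ∈ Finset.range n, ‖c i‖ₑ ^ 2 = ENNReal.ofReal
      (∑ i ∈ Finset.range n, (c i).re ^ 2 + ∑ i ∈ Finset.range n, (c i).im ^ 2) := by
    rw [← Finset.sum_add_distrib, ENNReal.ofReal_sum_of_nonneg (fun i _ => by positivity)]
    refine Finset.sum_congr rfl (fun i _ => ?_)
    rw [← ofReal_norm, ← ENNReal.ofReal_pow (norm_nonneg _), Complex.sq_norm,
      Complex.normSq_apply, sq, sq]
  have hs1 : 0 ≤ ∑ i ∈ Finset.range n, (c i).re ^ 2 :=
    Finset.sum_nonneg (fun i _ => sq_nonneg _)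
  have hs2 : 0 ≤ ∑ i ∈ Finset.range n, (c i).im ^ 2 :=
    Finset.sum_nonneg (fun i _ => sq_nonneg _)
  calc ∫⁻ ω, ‖∑ i ∈ Finset.range n, (ε i ω : ℂ) * c i‖ₑ ^ 6 ∂P
      ≤ ∫⁻ ω, ENNReal.ofReal (4 * (G1 ω + G2 ω)) ∂P := lintegral_mono key
    _ = ENNReal.ofReal (∫ ω, 4 * (G1 ω + G2 ω) ∂P) := by
        rw [ofReal_integral_eq_lintegral_ofReal hi]
        exact ae_of_all _ (fun ω => mul_nonneg (by norm_num) (add_nonneg (hn1 ω) (hn2 ω)))
    _ ≤ ENNReal.ofReal (9600 * (∑ i ∈ Finset.range n, (c i).re ^ 2 +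
          ∑ i ∈ Finset.range n, (c i).im ^ 2) ^ 3) := by
        apply ENNReal.ofReal_le_ofReal
        rw [integral_const_mul, integral_add i1 i2]
        obtain ⟨p, hp⟩ : ∃ p, p = ∑ i ∈ Finset.range n, (c i).re ^ 2 := ⟨_, rfl⟩
        obtain ⟨q, hq⟩ : ∃ q, q = ∑ i ∈ Finset.range n, (c i).im ^ 2 := ⟨_, rfl⟩
        rw [← hp] at b1 hs1 ⊢
        rw [← hq] at b2 hs2 ⊢
        have h6 : (p + q) ^ 3 = p ^ 3 + q ^ 3 + 3 * (p * q * (p + q)) := by ring
        have h7 : 0 ≤ 3 * (p * q * (p + q)) := by positivity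
        linarith
    _ = _ := by
        rw [ENNReal.ofReal_mul (by norm_num), ENNReal.ofReal_pow (add_nonneg hs1 hs2), ← hv]
        congr 1
        norm_num

end Pool.Agent.VRC
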