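import Pool.Agent.VRC.Targets4
import Pool.Agent.CRR.P_DEC

set_option autoImplicit false

/-!
# VRC, target DEV: decay between strip and band, variation norm
-/

namespace Pool.Agent.VRC

open MeasureTheory FourierTransform Set Filter Topology
open scoped ENNReal NNReal
open Pool.Agent.CAR (e1)
open Pool.Agent.CRR (Ph StripD FS FA fh NN HH NSol kap aa de la si ww xc band)
open Pool.Agent.CRR.DEC_

namespace DEV_

/-- application of OFV -/
theorem far (C : ℝ≥0) (hC : ∀ (w D G : ℝ) (Om : Set ℝ) (H : ℝ → ℂ), 0 < w → 0 < D → 0 ≤ G →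
      MeasurableSet Om → HH H → (∀ X ∈ Om, ∀ s, H s ≠ 0 → D ≤ |s + X| ∧ |s| ≤ G * |s + X|) →
      ∑' i : ℤ, ∫⁻ X in Om, NV w (fh H) i X ^ 2 ≤
        C * volume Om * ENNReal.ofReal (Real.sqrt (((w * D ^ 2)⁻¹ + G * D⁻¹) * D⁻¹)) *
          ∫⁻ s, ‖H s‖ₑ ^ 2)
    (A σ w D G K q : ℝ) (H : ℝ → ℂ) (hw : 0 < w) (hD : 0 < D) (hG : 0 ≤ G)
    (hA : 0 < A) (hσ : 0 < σ) (hH : HH H) (hK : 0 ≤ K)
    (h : ∀ X ∈ Om A σ, ∀ s, H s ≠ 0 → D ≤ |s + X| ∧ |s| ≤ G * |s + X|)
    (hb : 2 * A * σ * Real.sqrt (((w * D ^ 2)⁻¹ + G * D⁻¹) * D⁻¹) ≤ K * q) :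
    ∑' i : ℤ, ∫⁻ X in Om A σ, NV w (fh H) i X ^ 2 ≤
      C * ENNReal.ofReal K * ENNReal.ofReal q * ∫⁻ s, ‖H s‖ₑ ^ 2 := by
  refine (hC w D G (Om A σ) H hw hD hG (meas_Om A σ) hH h).trans ?_
  gcongr ?_ * _
  calc (C : ℝ≥0∞) * volume (Om A σ) *
        ENNReal.ofReal (Real.sqrt (((w * D ^ 2)⁻¹ + G * D⁻¹) * D⁻¹)) ≤
      C * ENNReal.ofReal (2 * A * σ) *
        ENNReal.ofReal (Real.sqrt (((w * D ^ 2)⁻¹ + G * D⁻¹) * D⁻¹)) := by
        gcongr
        exact vol_Om A σ
    _ = C * ENNReal.ofReal (2 * A * σ * Real.sqrt (((w * D ^ 2)⁻¹ + G * D⁻¹) * D⁻¹)) := by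
        rw [mul_assoc, ← ENNReal.ofReal_mul (by positivity)]
    _ ≤ C * ENNReal.ofReal (K * q) := by
        gcongr
    _ = C * ENNReal.ofReal K * ENNReal.ofReal q := by
        rw [ENNReal.ofReal_mul hK, mul_assoc]

/-- from the bound without the square root to the bound with it -/
theorem bdV (A σ D x q : ℝ) (hA : 1 ≤ A) (hσ : 0 < σ) (hx : 0 ≤ x) (hD0 : 0 < D)
    (hD : D⁻¹ ≤ 2 * A / σ) (hq : 0 ≤ q) (h : 2 * A * σ * x ≤ 50 * A ^ 3 * q ^ 2) :
    2 * A * σ * Real.sqrt (x * D⁻¹) ≤ 50 * A ^ 3 * q := by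
  have hA0 : 0 < A := by linarith
  have h1 : x ≤ 25 * A ^ 2 * q ^ 2 / σ := by
    rw [le_div_iff₀ hσ]
    have h2 : 2 * A * (x * σ) ≤ 2 * A * (25 * A ^ 2 * q ^ 2) := by
      calc 2 * A * (x * σ) = 2 * A * σ * x := by ring
        _ ≤ 50 * A ^ 3 * q ^ 2 := h
        _ = _ := by ring
    exact le_of_mul_le_mul_left h2 (by positivity)
  have h3 : x * D⁻¹ ≤ (25 * A ^ 2 * q / σ) ^ 2 := by
    calc x * D⁻¹ ≤ 25 * A ^ 2 * q ^ 2 / σ * (2 * A / σ) :=
          mul_le_mul h1 hD (by positivity) (by positivity)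
      _ = 50 * A ^ 3 * (q / σ) ^ 2 := by
          field_simp
          ring
      _ ≤ 625 * A ^ 4 * (q / σ) ^ 2 := by
          refine mul_le_mul_of_nonneg_right ?_ (sq_nonneg _)
          have : 0 < A ^ 3 := by positivity
          nlinarith
      _ = _ := by
          field_simp
          ring
  have h4 : Real.sqrt (x * D⁻¹) ≤ 25 * A ^ 2 * q / σ := by
    rw [← Real.sqrt_sq (show 0 ≤ 25 * A ^ 2 * q / σ by positivity)]
    exact Real.sqrt_le_sqrt h3
  calc 2 * A * σ * Real.sqrt (x * D⁻¹) ≤ 2 * A * σ * (25 * A ^ 2 * q / σ) :=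
        mul_le_mul_of_nonneg_left h4 (by positivity)
    _ = 50 * A ^ 3 * q := by
        field_simp
        ring

end DEV_

open DEV_ in
/-- DEV -/
theorem p_DEV (h1 : Pool.Agent.CRR.T_SEQ) (h2 : T_OFV) (h3 : T_DIV) : T_DEV := by
  intro A hA
  obtain ⟨C1, hC1⟩ := h2
  obtain ⟨C3, hC3⟩ := h3
  obtain ⟨N, hN⟩ := pow_unbounded_of_one_lt (2 * A) (by norm_num : (1 : ℝ) < 7 / 5)
  have hA0 : 0 < A := by linarith
  refine ⟨C1 * Real.toNNReal (50 * A ^ 3) + C3 * Real.toNNReal ((20 / 19) ^ (N + 1)), ?_⟩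
  intro ν k j H hν hH hb
  obtain ⟨-, -, hs⟩ := h1 ν hν
  have hde : ∀ k, 0 < de ν k := fun k => (hs k).2.1
  have hla : ∀ k, 0 < la ν k := fun k => (hs k).2.2.2.2.1
  have hsg : ∀ k, 7 / 5 * si ν k ≤ si ν (k + 1) := fun k => (hs k).2.2.2.2.2.2.1
  have hM0 : ∀ k, 250 ≤ la ν k * de ν k ^ 2 := fun k => (hs k).2.2.2.2.2.2.2.2.1
  have hMg : ∀ k, 5 / 4 * (la ν k * de ν k ^ 2) ≤ la ν (k + 1) * de ν (k + 1) ^ 2 :=
    fun k => (hs k).2.2.2.2.2.2.2.2.2.1
  have hsi : ∀ k, 0 < si ν k := fun k => mul_pos (hla k) (hde k)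
  have hL : ∀ k, 0 < Real.sqrt (la ν k) := fun k => Real.sqrt_pos.2 (hla k)
  have hLs : ∀ k, Real.sqrt (la ν k) ^ 2 = la ν k := fun k => Real.sq_sqrt (hla k).le
  have hσL : ∀ k, si ν k = Real.sqrt (la ν k) ^ 2 * de ν k := fun k => by rw [hLs]; rfl
  have hw : 0 < ww ν k := by
    have := hL k
    unfold ww
    positivity
  have hC : ((C1 * Real.toNNReal (50 * A ^ 3) + C3 * Real.toNNReal ((20 / 19) ^ (N + 1)) : ℝ≥0) :
      ℝ≥0∞) = C1 * ENNReal.ofReal (50 * A ^ 3) + C3 * ENNReal.ofReal ((20 / 19) ^ (N + 1)) := by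
    push_cast
    rfl
  rw [hC]
  set q : ℝ := (19 / 20) ^ (k - j + (j - k)) with hq
  have hq0 : 0 < q := by positivity
  have first : ∀ x : ℝ≥0∞, x ≤ C1 * ENNReal.ofReal (50 * A ^ 3) * ENNReal.ofReal q *
      ∫⁻ s, ‖H s‖ₑ ^ 2 → x ≤ (C1 * ENNReal.ofReal (50 * A ^ 3) +
        C3 * ENNReal.ofReal ((20 / 19) ^ (N + 1))) * ENNReal.ofReal q * ∫⁻ s, ‖H s‖ₑ ^ 2 := by
    intro x hx
    refine hx.trans ?_
    gcongr
    exact le_self_add
  have third : k - j + (j - k) ≤ N + 1 →
      ∑' i : ℤ, ∫⁻ X in {X : ℝ | si ν k / A ≤ |X| ∧ |X| ≤ A * si ν k},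
        NV (ww ν k) (fh H) i X ^ 2 ≤ (C1 * ENNReal.ofReal (50 * A ^ 3) +
        C3 * ENNReal.ofReal ((20 / 19) ^ (N + 1))) * ENNReal.ofReal q * ∫⁻ s, ‖H s‖ₑ ^ 2 := by
    intro hkj
    have e1 : ∑' i : ℤ, ∫⁻ X in {X : ℝ | si ν k / A ≤ |X| ∧ |X| ≤ A * si ν k},
        NV (ww ν k) (fh H) i X ^ 2 ≤ C3 * ∫⁻ s, ‖H s‖ₑ ^ 2 :=
      (ENNReal.tsum_le_tsum fun i => setLIntegral_le_lintegral _ _).trans
        (hC3 (ww ν k) H hw hH)
    refine e1.trans ?_
    gcongr ?_ * _
    have e2 : (1 : ℝ) ≤ (20 / 19) ^ (N + 1) * q := by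
      have e3 : (19 / 20 : ℝ) ^ (N + 1) ≤ q :=
        pow_le_pow_of_le_one (by norm_num) (by norm_num) hkj
      calc (1 : ℝ) = (20 / 19) ^ (N + 1) * (19 / 20) ^ (N + 1) := by
            rw [← mul_pow]
            norm_num
        _ ≤ (20 / 19) ^ (N + 1) * q := mul_le_mul_of_nonneg_left e3 (by positivity)
    calc (C3 : ℝ≥0∞) = C3 * ENNReal.ofReal 1 := by rw [ENNReal.ofReal_one, mul_one]
      _ ≤ C3 * ENNReal.ofReal ((20 / 19) ^ (N + 1) * q) := by gcongr
      _ = C3 * ENNReal.ofReal ((20 / 19) ^ (N + 1)) * ENNReal.ofReal q := by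
          rw [ENNReal.ofReal_mul (by positivity), mul_assoc]
      _ ≤ _ := by
          gcongr
          exact le_add_self
  rcases lt_trichotomy j k with hjk | hjk | hjk
  · -- low frequencies
    obtain ⟨n, rfl⟩ := Nat.exists_eq_add_of_lt hjk
    have hg := grow (si ν) (7 / 5) (by norm_num) hsg j (n + 1)
    have hgM := grow (fun k => la ν k * de ν k ^ 2) (5 / 4) (by norm_num) hMg j (n + 1)
    rw [← add_assoc] at hg hgM
    have en : j + n + 1 - j + (j - (j + n + 1)) = n + 1 := by omega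
    rw [en] at hq
    by_cases hc : si ν j ≤ si ν (j + n + 1) / (2 * A)
    · apply first
      refine far C1 hC1 A (si ν (j + n + 1)) (ww ν (j + n + 1)) (si ν (j + n + 1) / (2 * A))
        (2 * A * si ν j / si ν (j + n + 1)) (50 * A ^ 3) q H hw ?_ ?_ hA0 (hsi _) hH
        (by positivity) ?_ ?_
      · have := hsi (j + n + 1)
        positivity
      · have := hsi (j + n + 1)
        have := hsi j
        positivity
      · intro X hX s hs0
        have hs1 : |s| < si ν j := (hb s hs0).2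
        have hX1 : si ν (j + n + 1) / A ≤ |X| := hX.1
        have e1 : si ν (j + n + 1) / A = 2 * (si ν (j + n + 1) / (2 * A)) := by
          field_simp
        have e2 : |X| ≤ |s + X| + |s| := by
          calc |X| = |(s + X) - s| := by congr 1; ring
            _ ≤ |s + X| + |s| := abs_sub _ _
        have e3 : si ν (j + n + 1) / (2 * A) ≤ |s + X| := by linarith
        refine ⟨e3, ?_⟩
        have hσ := hsi (j + n + 1)
        calc |s| ≤ si ν j := hs1.le
          _ = 2 * A * si ν j / si ν (j + n + 1) * (si ν (j + n + 1) / (2 * A)) := by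
              field_simp
          _ ≤ _ := mul_le_mul_of_nonneg_left e3 (by have := hsi j; positivity)
      · have hσ := hsi (j + n + 1)
        have hσj := hsi j
        refine bdV A (si ν (j + n + 1)) (si ν (j + n + 1) / (2 * A)) _ q hA hσ (by positivity)
          (by positivity) (by rw [inv_div]) hq0.le ?_
        refine bd1 A (Real.sqrt (la ν (j + n + 1))) (de ν (j + n + 1)) (si ν (j + n + 1))
          (si ν j) (q ^ 2) hA (hL _) (hde _) (hσL _) (hsi j) ?_ ?_
        · have e1 : (5 / 4 : ℝ) ^ (n + 1) ≤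
              (Real.sqrt (la ν (j + n + 1)) * de ν (j + n + 1)) ^ 2 := by
            rw [mul_pow, hLs]
            refine le_trans ?_ hgM
            have := hM0 j
            have h5 : (0 : ℝ) < (5 / 4) ^ (n + 1) := by positivity
            nlinarith
          have e2 : 1 ≤ (q ^ 2 * (Real.sqrt (la ν (j + n + 1)) * de ν (j + n + 1))) ^ 2 := by
            rw [mul_pow, hq]
            calc (1 : ℝ) ≤ (((19 / 20) ^ 2) ^ 2 * (5 / 4)) ^ (n + 1) :=
                  one_le_pow₀ (by norm_num)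
              _ = (((19 / 20) ^ (n + 1)) ^ 2) ^ 2 * (5 / 4) ^ (n + 1) := by
                  rw [mul_pow, ← pow_mul, ← pow_mul, ← pow_mul, ← pow_mul]
                  congr 2
                  ring
              _ ≤ _ := mul_le_mul_of_nonneg_left e1 (by positivity)
          have e3 : 0 ≤ q ^ 2 * (Real.sqrt (la ν (j + n + 1)) * de ν (j + n + 1)) := by
            have := hL (j + n + 1)
            have := hde (j + n + 1)
            positivity
          nlinarith
        · have e1 : (1 : ℝ) ≤ q ^ 2 * (7 / 5) ^ (n + 1) := by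
            rw [hq, ← pow_mul, mul_comm (n + 1) 2, pow_mul, ← mul_pow]
            exact one_le_pow₀ (by norm_num)
          calc si ν j ≤ q ^ 2 * (7 / 5) ^ (n + 1) * si ν j := by
                have := hsi j
                nlinarith
            _ = q ^ 2 * ((7 / 5) ^ (n + 1) * si ν j) := by ring
            _ ≤ q ^ 2 * si ν (j + n + 1) := mul_le_mul_of_nonneg_left hg (by positivity)
    · apply third
      rw [en]
      by_contra hcon
      apply hc
      rw [le_div_iff₀ (by positivity)]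
      have e1 : (7 / 5 : ℝ) ^ N ≤ (7 / 5) ^ (n + 1) :=
        pow_le_pow_right₀ (by norm_num) (by omega)
      have := hsi j
      nlinarith
  · apply third
    subst hjk
    simp
  · -- high frequencies
    obtain ⟨n, rfl⟩ := Nat.exists_eq_add_of_lt hjk
    have hg := grow (si ν) (7 / 5) (by norm_num) hsg k n
    have en : k - (k + n + 1) + (k + n + 1 - k) = n + 1 := by omega
    rw [en] at hq
    have hone : (1 : ℝ) ≤ (7 / 5) ^ n := one_le_pow₀ (by norm_num)
    by_cases hc : 2 * A * si ν k ≤ si ν (k + n)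
    · apply first
      have hσ := hsi k
      have hτ := hsi (k + n)
      refine far C1 hC1 A (si ν k) (ww ν k) (si ν (k + n) / 2)
        2 (50 * A ^ 3) q H hw (by positivity) (by norm_num) hA0 (hsi _) hH (by positivity) ?_ ?_
      · intro X hX s hs0
        have hs1 : si ν (k + n) ≤ |s| := by
          rcases (hb s hs0).1 with h0 | h0
          · omega
          · simpa using h0
        have hX1 : |X| ≤ A * si ν k := hX.2
        have e2 : |s| ≤ |s + X| + |X| := by
          calc |s| = |(s + X) - X| := by congr 1; ring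
            _ ≤ |s + X| + |X| := abs_sub _ _
        constructor
        · linarith
        · linarith
      · refine bdV A (si ν k) (si ν (k + n) / 2) _ q hA hσ (by positivity)
          (by positivity) ?_ hq0.le ?_
        · rw [inv_div, div_le_div_iff₀ hτ hσ]
          nlinarith [mul_pos hA0 hτ]
        have e0 : 40 * A ^ 3 * (5 / 7 : ℝ) ^ n ≤ 50 * A ^ 3 * q ^ 2 := by
          have e1 : (5 / 7 : ℝ) ^ n ≤ (361 / 400) ^ n :=
            pow_le_pow_left₀ (by norm_num) (by norm_num) n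
          have e2 : q ^ 2 = (361 / 400) ^ n * (361 / 400) := by
            rw [hq, ← pow_mul, mul_comm (n + 1) 2, pow_mul, pow_succ]
            norm_num
          have hA3 : 0 < A ^ 3 := by positivity
          have h9 : (0 : ℝ) < (361 / 400) ^ n := by positivity
          rw [e2]
          nlinarith [mul_le_mul_of_nonneg_left e1 hA3.le, mul_pos hA3 h9]
        refine le_trans ?_ e0
        refine bd2 A (Real.sqrt (la ν k)) (de ν k) (si ν k)
          (si ν (k + n)) ((5 / 7) ^ n) hA (hL _) (hde _) (hσL _) (hsi _) ?_ ?_ ?_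
        · have e1 : 1 ≤ (Real.sqrt (la ν k) * de ν k) ^ 2 := by
            rw [mul_pow, hLs]
            have := hM0 k
            linarith
          have e3 : 0 ≤ Real.sqrt (la ν k) * de ν k := by
            have := hL k
            have := hde k
            positivity
          nlinarith
        · calc si ν k = (5 / 7) ^ n * ((7 / 5) ^ n * si ν k) := by
                rw [← mul_assoc, ← mul_pow]
                norm_num
            _ ≤ (5 / 7) ^ n * si ν (k + n) := mul_le_mul_of_nonneg_left hg (by positivity)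
        · have := hsi k
          nlinarith
    · apply third
      rw [en]
      by_contra hcon
      apply hc
      have e1 : (7 / 5 : ℝ) ^ N ≤ (7 / 5) ^ n :=
        pow_le_pow_right₀ (by norm_num) (by omega)
      have := hsi k
      nlinarith

end Pool.Agent.VRC
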