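import Pool.Agent.VRC.Targets5

set_option autoImplicit false

/-!
# VRC: the angular Laplacian of a homogeneous harmonic function (target EUL)
-/

namespace Pool.Agent.VRC

open MeasureTheory Set Filter Topology
open Pool.Agent.MBS (E)
open Pool.Agent.CRN (rt L2 Lam)

namespace EUL_

variable {n : ℕ}

/-- the second derivative along a curve -/
lemma second {p : E n → ℂ} (hp : ContDiff ℝ 2 p) {γ γ1 : ℝ → E n} {γ2 : E n} {s : ℝ}
    (h1 : ∀ φ, HasDerivAt γ (γ1 φ) φ) (h2 : HasDerivAt γ1 γ2 s) :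
    (∀ φ, HasDerivAt (fun φ => p (γ φ)) (fderiv ℝ p (γ φ) (γ1 φ)) φ) ∧
    HasDerivAt (fun φ => fderiv ℝ p (γ φ) (γ1 φ))
      (fderiv ℝ (fderiv ℝ p) (γ s) (γ1 s) (γ1 s) + fderiv ℝ p (γ s) γ2) s := by
  have hd : Differentiable ℝ p := hp.differentiable (by norm_num)
  have hd1 : ContDiff ℝ 1 (fderiv ℝ p) := hp.fderiv_right (by norm_num)
  have hd2 : Differentiable ℝ (fderiv ℝ p) := hd1.differentiable (by norm_num)
  refine ⟨fun φ => (hd (γ φ)).hasFDerivAt.comp_hasDerivAt φ (h1 φ), ?_⟩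
  exact ((hd2 (γ s)).hasFDerivAt.comp_hasDerivAt s (h1 s)).clm_apply h2

lemma second' {p : E n → ℂ} (hp : ContDiff ℝ 2 p) {γ γ1 : ℝ → E n} {γ2 : E n} {s : ℝ}
    (h1 : ∀ φ, HasDerivAt γ (γ1 φ) φ) (h2 : HasDerivAt γ1 γ2 s) :
    deriv (deriv (fun φ => p (γ φ))) s =
      fderiv ℝ (fderiv ℝ p) (γ s) (γ1 s) (γ1 s) + fderiv ℝ p (γ s) γ2 := by
  obtain ⟨h3, h4⟩ := second hp h1 h2
  have h5 : deriv (fun φ => p (γ φ)) = fun φ => fderiv ℝ p (γ φ) (γ1 φ) :=
    funext fun φ => (h3 φ).deriv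
  rw [h5]
  exact h4.deriv

/-- `x_i e_i + x_j e_j` -/
noncomputable def bv (i j : Fin n) (x : E n) : E n :=
  x i • EuclideanSpace.single i (1 : ℝ) + x j • EuclideanSpace.single j (1 : ℝ)

/-- `x_i e_j - x_j e_i` -/
noncomputable def cv (i j : Fin n) (x : E n) : E n :=
  x i • EuclideanSpace.single j (1 : ℝ) - x j • EuclideanSpace.single i (1 : ℝ)

lemma rt_eq {i j : Fin n} (hij : i ≠ j) (φ : ℝ) (x : E n) :
    rt i j φ x = (x - bv i j x) + Real.cos φ • bv i j x + Real.sin φ • cv i j x := by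
  ext k
  unfold rt bv cv
  by_cases hi : k = i
  · subst hi
    simp [hij]
    ring
  · by_cases hj : k = j
    · subst hj
      simp [hi]
      ring
    · simp [hi, hj]

lemma L2_eq {p : E n → ℂ} (hp : ContDiff ℝ 2 p) {i j : Fin n} (hij : i ≠ j) (x : E n) :
    L2 i j p x = fderiv ℝ (fderiv ℝ p) x (cv i j x) (cv i j x) - fderiv ℝ p x (bv i j x) := by
  unfold L2
  have h0 : ∀ φ, HasDerivAt (fun φ => rt i j φ x)
      (-Real.sin φ • bv i j x + Real.cos φ • cv i j x) φ := by
    intro φ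
    have h1 : (fun φ => rt i j φ x) = fun φ =>
        (x - bv i j x) + Real.cos φ • bv i j x + Real.sin φ • cv i j x :=
      funext fun φ => rt_eq hij φ x
    rw [h1]
    have h2 := (((Real.hasDerivAt_cos φ).smul_const (bv i j x)).const_add (x - bv i j x)).add
      ((Real.hasDerivAt_sin φ).smul_const (cv i j x))
    exact h2
  have h3 : HasDerivAt (fun φ : ℝ => -Real.sin φ • bv i j x + Real.cos φ • cv i j x)
      (-bv i j x) 0 := by
    have h4 := ((Real.hasDerivAt_sin 0).neg.smul_const (bv i j x)).add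
      ((Real.hasDerivAt_cos 0).smul_const (cv i j x))
    refine h4.congr_deriv ?_
    simp
  rw [second' hp h0 h3]
  have h5 : rt i j 0 x = x := by
    rw [rt_eq hij]
    simp
  rw [h5]
  simp [sub_eq_add_neg]

/-- Euler's identities -/
lemma euler {p : E n → ℂ} (hp : ContDiff ℝ 2 p) {l : ℕ}
    (hh : ∀ (t : ℝ) (x : E n), 0 ≤ t → p (t • x) = (t : ℂ) ^ l * p x) (x : E n) :
    fderiv ℝ p x x = l * p x ∧ fderiv ℝ (fderiv ℝ p) x x x = l * (l - 1) * p x := by
  have h1 : ∀ t : ℝ, HasDerivAt (fun t : ℝ => t • x) ((fun _ : ℝ => x) t) t := by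
    intro t
    simpa using (hasDerivAt_id t).smul_const x
  have h2 : HasDerivAt (fun _ : ℝ => x) (0 : E n) 1 := hasDerivAt_const _ _
  obtain ⟨h3, h4⟩ := second (s := 1) hp h1 h2
  have h5 : ∀ (m : ℕ) (t : ℝ), HasDerivAt (fun t : ℝ => (t : ℂ) ^ m)
      ((m : ℂ) * (t : ℂ) ^ (m - 1)) t := by
    intro m t
    exact (hasDerivAt_pow m (t : ℂ)).comp_ofReal
  have h6 : ∀ t : ℝ, 0 < t → fderiv ℝ p (t • x) x = (l : ℂ) * (t : ℂ) ^ (l - 1) * p x := by
    intro t ht
    have h7 : (fun t : ℝ => p (t • x)) =ᶠ[𝓝 t] fun t : ℝ => (t : ℂ) ^ l * p x := by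
      filter_upwards [lt_mem_nhds ht] with u hu
      exact hh u x hu.le
    have h8 := ((h5 l t).mul_const (p x)).congr_of_eventuallyEq h7
    exact (h3 t).unique h8
  have h9 : (fun t : ℝ => fderiv ℝ p (t • x) x) =ᶠ[𝓝 1]
      fun t : ℝ => (l : ℂ) * (t : ℂ) ^ (l - 1) * p x := by
    filter_upwards [lt_mem_nhds (zero_lt_one (α := ℝ))] with u hu
    exact h6 u hu
  have h10 := (((h5 (l - 1) 1).const_mul (l : ℂ)).mul_const (p x)).congr_of_eventuallyEq h9
  have h11 := h4.unique h10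
  have h12 := h6 1 one_pos
  simp only [one_smul, map_zero, add_zero, Complex.ofReal_one, one_pow, mul_one] at h11 h12
  refine ⟨h12, ?_⟩
  rw [h11]
  rcases l with _ | l
  · simp
  · push_cast
    ring

/-- half of the sum over all pairs -/
lemma half (f : Fin n → Fin n → ℂ) (hs : ∀ i j, f i j = f j i) :
    ∑ i, ∑ j, (if i < j then f i j else 0) = (∑ i, ∑ j, f i j - ∑ i, f i i) / 2 := by
  have h1 : ∑ i, ∑ j, (if j < i then f i j else 0) = ∑ i, ∑ j, (if i < j then f i j else 0) := by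
    rw [Finset.sum_comm]
    refine Finset.sum_congr rfl fun i _ => Finset.sum_congr rfl fun j _ => ?_
    rw [hs j i]
  have h2 : ∑ i, ∑ j, f i j = ∑ i, ∑ j, (if i < j then f i j else 0) +
      ∑ i, ∑ j, (if j < i then f i j else 0) + ∑ i, f i i := by
    rw [← Finset.sum_add_distrib, ← Finset.sum_add_distrib]
    refine Finset.sum_congr rfl fun i _ => ?_
    have h3 : f i i = ∑ j, (if i = j then f i j else 0) := by
      rw [Finset.sum_ite_eq]
      simp
    rw [h3, ← Finset.sum_add_distrib, ← Finset.sum_add_distrib]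
    refine Finset.sum_congr rfl fun j _ => ?_
    rcases lt_trichotomy i j with h | h | h
    · simp [h, h.not_gt, h.ne]
    · subst h
      simp
    · simp [h, h.not_gt, h.ne']
  rw [h2, h1]
  ring

lemma sum_single (x : E n) : ∑ i, x i • EuclideanSpace.single i (1 : ℝ) = x := by
  ext k
  simp [Finset.sum_apply, Pi.single_apply]

end EUL_

open EUL_ in
/-- EUL. -/
theorem p_EUL : T_EUL := by
  intro n l p hn hp hL hh x
  obtain ⟨e1, e2⟩ := euler hp hh x
  set D := fderiv ℝ p x with hD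
  set B := fderiv ℝ (fderiv ℝ p) x with hB
  have hLx : ∑ i, B (EuclideanSpace.single i (1 : ℝ)) (EuclideanSpace.single i (1 : ℝ)) = 0 := by
    have h1 := hL x
    rw [InnerProductSpace.laplacian_eq_iteratedFDeriv_orthonormalBasis p
      (EuclideanSpace.basisFun (Fin n) ℝ)] at h1
    simpa [iteratedFDeriv_two_apply, hB] using h1
  have h2 : Lam p x =
      ∑ i, ∑ j, (if i < j then (B (cv i j x) (cv i j x) - D (bv i j x)) else 0) := by
    unfold Lam
    refine Finset.sum_congr rfl fun i _ => Finset.sum_congr rfl fun j _ => ?_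
    split_ifs with h
    · rw [L2_eq hp h.ne]
    · rfl
  rw [h2, half]
  swap
  · intro i j
    have h3 : cv i j x = -cv j i x := by
      unfold cv
      abel
    have h4 : bv i j x = bv j i x := by
      unfold bv
      abel
    rw [h3, h4]
    simp
  set e : Fin n → E n := fun i => EuclideanSpace.single i (1 : ℝ) with he
  have hDx : ∑ i, (x i : ℂ) * D (e i) = D x := by
    conv_rhs => rw [← sum_single x, map_sum]
    refine Finset.sum_congr rfl fun i _ => ?_
    rw [map_smul, Complex.real_smul]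
  have hBx : ∑ i, ∑ j, (x i : ℂ) * (x j : ℂ) * B (e i) (e j) = B x x := by
    have h5 : ∀ i, ∑ j, (x i : ℂ) * (x j : ℂ) * B (e i) (e j) = (x i : ℂ) * B (e i) x := by
      intro i
      have h6 : B (e i) x = ∑ j, (x j : ℂ) * B (e i) (e j) := by
        conv_lhs => rw [← sum_single x, map_sum]
        refine Finset.sum_congr rfl fun j _ => ?_
        rw [map_smul, Complex.real_smul]
      rw [h6, Finset.mul_sum]
      exact Finset.sum_congr rfl fun j _ => by ring
    rw [Finset.sum_congr rfl fun i _ => h5 i]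
    have h8 : B x = ∑ i, B (x i • e i) := by
      conv_lhs => rw [← sum_single x, map_sum]
    have h7 : B x x = (∑ i, B (x i • e i)) x := congrArg (fun L => L x) h8
    rw [h7, sum_apply]
    refine Finset.sum_congr rfl fun i _ => ?_
    rw [map_smul, smul_apply, Complex.real_smul]
  have hc : ∀ i j, B (cv i j x) (cv i j x) = (x i : ℂ) ^ 2 * B (e j) (e j) -
      (x j : ℂ) * (x i : ℂ) * B (e j) (e i) - (x i : ℂ) * (x j : ℂ) * B (e i) (e j) +
      (x j : ℂ) ^ 2 * B (e i) (e i) := by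
    intro i j
    unfold cv
    simp only [map_sub, map_smul, sub_apply, smul_apply,
      Complex.real_smul, he]
    ring
  have hb : ∀ i j, D (bv i j x) = (x i : ℂ) * D (e i) + (x j : ℂ) * D (e j) := by
    intro i j
    unfold bv
    simp only [map_add, map_smul, Complex.real_smul, he]
  have s1 : ∑ i, ∑ j, B (cv i j x) (cv i j x) = -2 * B x x := by
    simp only [hc, Finset.sum_add_distrib, Finset.sum_sub_distrib]
    have t1 : ∑ i, ∑ j, (x i : ℂ) ^ 2 * B (e j) (e j) = 0 := by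
      simp only [← Finset.mul_sum]
      rw [hLx]
      simp
    have t2 : ∑ i, ∑ j, (x j : ℂ) ^ 2 * B (e i) (e i) = 0 := by
      rw [Finset.sum_comm]
      exact t1
    have t3 : ∑ i, ∑ j, (x j : ℂ) * (x i : ℂ) * B (e j) (e i) = B x x := by
      rw [Finset.sum_comm]
      exact hBx
    rw [t1, t2, t3, hBx]
    ring
  have s2 : ∑ i, ∑ j, D (bv i j x) = 2 * n * D x := by
    simp only [hb, Finset.sum_add_distrib]
    rw [hDx]
    simp only [Finset.sum_const, Finset.card_univ, Fintype.card_fin, nsmul_eq_mul,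
      ← Finset.mul_sum]
    rw [hDx]
    ring
  have s3 : ∑ i, B (cv i i x) (cv i i x) = 0 := by
    refine Finset.sum_eq_zero fun i _ => ?_
    rw [hc]
    ring
  have s4 : ∑ i, D (bv i i x) = 2 * D x := by
    simp only [hb, Finset.sum_add_distrib]
    rw [hDx]
    ring
  simp only [Finset.sum_sub_distrib]
  rw [s1, s2, s3, s4, e1, e2]
  push_cast
  ring

end Pool.Agent.VRC
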