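import Pool.Agent.VRC.Targets6

set_option autoImplicit false

/-!
# VRC: almost sure `L²` convergence of the random series (helper23)
-/

namespace Pool.Agent.VRC

open MeasureTheory FourierTransform Set Filter Topology
open scoped ENNReal NNReal
open Pool.Agent.MBS (E ex)

namespace KOL_

variable {n : ℕ} {Ω : Type}

/-- finite sums -/
noncomputable def S (ε : ℕ → Ω → ℝ) (g : ℕ → E n → ℂ) (m : ℕ) (z : Ω × E n) : ℂ :=
  ∑ i ∈ Finset.range m, (ε i z.1 : ℂ) * g i z.2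

/-- blocks -/
noncomputable def T (ε : ℕ → Ω → ℝ) (g : ℕ → E n → ℂ) (m j : ℕ) (z : Ω × E n) : ℂ :=
  ∑ i ∈ Finset.Ico m j, (ε i z.1 : ℂ) * g i z.2

/-- finite maximal function -/
noncomputable def A (ε : ℕ → Ω → ℝ) (g : ℕ → E n → ℂ) (m N : ℕ) (z : Ω × E n) : ℝ≥0∞ :=
  ⨆ (j : ℕ) (_ : j ≤ N), ‖T ε g m j z‖ₑ

/-- the square of the maximal function -/
noncomputable def H (ε : ℕ → Ω → ℝ) (g : ℕ → E n → ℂ) (m : ℕ) (z : Ω × E n) : ℝ≥0∞ :=
  ⨆ N : ℕ, A ε g m N z ^ 2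

theorem jump (c : ℂ) (m i : ℕ) (t : ℕ → ℕ) (ht : Monotone t) (l : ℕ) :
    ∑ r ∈ Finset.range l, ‖(if m ≤ i ∧ i < t (r + 1) then c else 0) -
      (if m ≤ i ∧ i < t r then c else 0)‖ₑ ^ 4 ≤
      ‖if m ≤ i ∧ i < t l then c else 0‖ₑ ^ 4 := by
  induction l with
  | zero => simp
  | succ l ih =>
    rw [Finset.sum_range_succ]
    by_cases h : m ≤ i ∧ i < t l
    · have h' : m ≤ i ∧ i < t (l + 1) := ⟨h.1, h.2.trans_le (ht (Nat.le_succ l))⟩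
      rw [if_pos h] at ih
      rw [if_pos h, if_pos h', sub_self, enorm_zero]
      simpa using ih
    · rw [if_neg h] at ih
      rw [if_neg h, sub_zero]
      have h2 : ∑ r ∈ Finset.range l, ‖(if m ≤ i ∧ i < t (r + 1) then c else 0) -
          (if m ≤ i ∧ i < t r then c else 0)‖ₑ ^ 4 = 0 := by
        refine le_antisymm (ih.trans ?_) bot_le
        simp
      rw [h2, zero_add]

theorem T_eq (ε : ℕ → Ω → ℝ) (g : ℕ → E n → ℂ) {m j : ℕ} (h : m ≤ j) (z : Ω × E n) :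
    T ε g m j z = S ε g j z - S ε g m z := by
  unfold T S
  exact Finset.sum_Ico_eq_sub _ h

theorem le_H (ε : ℕ → Ω → ℝ) (g : ℕ → E n → ℂ) {m j : ℕ} (h : m ≤ j) (z : Ω × E n) :
    ‖S ε g j z - S ε g m z‖ₑ ^ 2 ≤ H ε g m z := by
  rw [← T_eq ε g h]
  refine le_trans (pow_le_pow_left' ?_ 2) (le_iSup (fun N => A ε g m N z ^ 2) j)
  exact le_iSup₂_of_le (f := fun (j : ℕ) (_ : j ≤ _) => ‖T ε g m j z‖ₑ) j le_rfl le_rfl

variable [MeasurableSpace Ω] {P : Measure Ω} {ε : ℕ → Ω → ℝ} {g : ℕ → E n → ℂ}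

theorem S_meas (hε : Sgn P ε) (hg : ∀ i, Measurable (g i)) (m : ℕ) :
    Measurable (S ε g m) := by
  unfold S
  exact Finset.measurable_fun_sum _ fun i _ =>
    (Complex.measurable_ofReal.comp ((hε.meas i).comp measurable_fst)).mul
      ((hg i).comp measurable_snd)

theorem A_meas (hε : Sgn P ε) (hg : ∀ i, Measurable (g i)) (m N : ℕ) :
    Measurable (A ε g m N) := by
  unfold A T
  refine Measurable.iSup fun j => Measurable.iSup fun _ => Measurable.enorm ?_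
  exact Finset.measurable_fun_sum _ fun i _ =>
    (Complex.measurable_ofReal.comp ((hε.meas i).comp measurable_fst)).mul
      ((hg i).comp measurable_snd)

theorem H_meas (hε : Sgn P ε) (hg : ∀ i, Measurable (g i)) (m : ℕ) :
    Measurable (H ε g m) := by
  unfold H
  exact Measurable.iSup fun N => (A_meas hε hg m N).pow_const 2

omit [MeasurableSpace Ω] in
theorem A_mono (m : ℕ) (z : Ω × E n) : Monotone fun N => A ε g m N z ^ 2 := by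
  intro N N' h
  refine pow_le_pow_left' ?_ 2
  exact iSup_mono fun j => iSup_mono' fun hj => ⟨hj.trans h, le_rfl⟩

theorem levy {C : ℝ≥0} (hC : ∀ (Ω : Type) [MeasurableSpace Ω] (P : Measure Ω)
    (ε : ℕ → Ω → ℝ), Sgn P ε → ∀ (n M : ℕ) (X : ℕ → ℕ → ℂ) (V : ℕ → ℝ≥0∞), (∀ i, X i 0 = 0) →
    (∀ i < n, ∀ (l : ℕ) (t : ℕ → ℕ), Monotone t → (∀ r, t r ≤ M) →
      ∑ r ∈ Finset.range l, ‖X i (t (r + 1)) - X i (t r)‖ₑ ^ 4 ≤ V i ^ 4) →
    ∫⁻ ω, (⨆ (j : ℕ) (_ : j ≤ M), ‖∑ i ∈ Finset.range n, (ε i ω : ℂ) * X i j‖ₑ) ^ 2 ∂P ≤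
      C * ∑ i ∈ Finset.range n, V i ^ 2) (hε : Sgn P ε) (m N : ℕ) (ξ : E n) :
    ∫⁻ ω, A ε g m N (ω, ξ) ^ 2 ∂P ≤
      C * ∑ i ∈ Finset.range N, ‖if m ≤ i then g i ξ else 0‖ₑ ^ 2 := by
  have h := hC Ω P ε hε N N (fun i j => if m ≤ i ∧ i < j then g i ξ else 0)
    (fun i => ‖if m ≤ i then g i ξ else 0‖ₑ) (fun i => by simp) (by
      intro i _ l t ht _
      refine (jump (g i ξ) m i t ht l).trans (pow_le_pow_left' ?_ 4)
      by_cases h1 : m ≤ i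
      · by_cases h2 : i < t l
        · rw [if_pos ⟨h1, h2⟩, if_pos h1]
        · rw [if_neg (fun h => h2 h.2), enorm_zero]
          exact bot_le
      · rw [if_neg (fun h => h1 h.1), enorm_zero]
        exact bot_le)
  refine le_trans (lintegral_mono fun ω => pow_le_pow_left' ?_ 2) h
  refine iSup₂_mono fun j hj => le_of_eq ?_
  congr 1
  unfold T
  simp only [mul_ite, mul_zero]
  rw [← Finset.sum_filter]
  refine Finset.sum_congr ?_ fun _ _ => rfl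
  ext i
  simp only [Finset.mem_Ico, Finset.mem_filter, Finset.mem_range]
  omega

theorem int_H {C : ℝ≥0} (hC : ∀ (Ω : Type) [MeasurableSpace Ω] (P : Measure Ω)
    (ε : ℕ → Ω → ℝ), Sgn P ε → ∀ (n M : ℕ) (X : ℕ → ℕ → ℂ) (V : ℕ → ℝ≥0∞), (∀ i, X i 0 = 0) →
    (∀ i < n, ∀ (l : ℕ) (t : ℕ → ℕ), Monotone t → (∀ r, t r ≤ M) →
      ∑ r ∈ Finset.range l, ‖X i (t (r + 1)) - X i (t r)‖ₑ ^ 4 ≤ V i ^ 4) →
    ∫⁻ ω, (⨆ (j : ℕ) (_ : j ≤ M), ‖∑ i ∈ Finset.range n, (ε i ω : ℂ) * X i j‖ₑ) ^ 2 ∂P ≤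
      C * ∑ i ∈ Finset.range n, V i ^ 2) (hε : Sgn P ε) (hg : ∀ i, Measurable (g i)) (m : ℕ) :
    ∫⁻ ω, (∫⁻ ξ, H ε g m (ω, ξ)) ∂P ≤
      C * ∑' k, ∫⁻ ξ, ‖g (k + m) ξ‖ₑ ^ 2 := by
  have := hε.prob
  rw [lintegral_lintegral_swap (f := fun ω ξ => H ε g m (ω, ξ)) (H_meas hε hg m).aemeasurable]
  have h1 : ∀ ξ : E n, ∫⁻ ω, H ε g m (ω, ξ) ∂P ≤
      C * ∑' i, ‖if m ≤ i then g i ξ else 0‖ₑ ^ 2 := by
    intro ξ
    unfold H
    have h3 : ∀ N, Measurable fun ω : Ω => A ε g m N (ω, ξ) ^ 2 := fun N =>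
      ((A_meas hε hg m N).comp measurable_prodMk_right).pow_const 2
    rw [lintegral_iSup h3 fun N N' h ω => A_mono m (ω, ξ) h]
    refine iSup_le fun N => (levy hC hε m N ξ).trans ?_
    exact mul_le_mul' le_rfl (ENNReal.sum_le_tsum _)
  refine (lintegral_mono h1).trans ?_
  have hm : ∀ i, Measurable fun ξ : E n => ‖if m ≤ i then g i ξ else 0‖ₑ ^ 2 := by
    intro i
    by_cases h : m ≤ i
    · simp only [if_pos h]
      exact (hg i).enorm.pow_const 2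
    · simp only [if_neg h]
      exact measurable_const
  rw [lintegral_const_mul _ (Measurable.tsum hm),
    lintegral_tsum fun i => (hm i).aemeasurable]
  refine mul_le_mul' le_rfl (le_of_eq ?_)
  rw [← Summable.sum_add_tsum_nat_add' (k := m) ENNReal.summable]
  have h2 : ∑ i ∈ Finset.range m, ∫⁻ ξ, ‖if m ≤ i then g i ξ else 0‖ₑ ^ 2 = 0 := by
    refine Finset.sum_eq_zero fun i hi => ?_
    have h3 : ¬ m ≤ i := by
      have := Finset.mem_range.1 hi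
      omega
    simp only [if_neg h3]
    simp
  rw [h2, zero_add]
  refine tsum_congr fun k => ?_
  simp only [if_pos (Nat.le_add_left m k)]

/-- the limit -/
noncomputable def lim (ε : ℕ → Ω → ℝ) (g : ℕ → E n → ℂ) (ω : Ω) : E n → ℂ :=
  {ξ : E n | ∃ c, Tendsto (fun m => S ε g m (ω, ξ)) atTop (𝓝 c)}.indicator
    fun ξ => limUnder atTop fun m => S ε g m (ω, ξ)

theorem lim_meas (hε : Sgn P ε) (hg : ∀ i, Measurable (g i)) (ω : Ω) :
    Measurable (lim ε g ω) := by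
  have hS : ∀ m, Measurable fun ξ : E n => S ε g m (ω, ξ) := fun m =>
    (S_meas hε hg m).comp measurable_prodMk_left
  have hA : MeasurableSet {ξ : E n | ∃ c, Tendsto (fun m => S ε g m (ω, ξ)) atTop (𝓝 c)} :=
    measurableSet_exists_tendsto hS
  refine measurable_of_tendsto_metrizable (f := fun m => {ξ : E n | ∃ c,
    Tendsto (fun m => S ε g m (ω, ξ)) atTop (𝓝 c)}.indicator fun ξ => S ε g m (ω, ξ))
    (fun m => (hS m).indicator hA) (tendsto_pi_nhds.2 fun ξ => ?_)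
  unfold lim
  by_cases h : ξ ∈ {ξ : E n | ∃ c, Tendsto (fun m => S ε g m (ω, ξ)) atTop (𝓝 c)}
  · simp only [indicator_of_mem h]
    exact tendsto_nhds_limUnder h
  · simp only [indicator_of_notMem h]
    exact tendsto_const_nhds

theorem sq_le {a X : ℝ≥0∞} (h : a ^ 2 ≤ X) : a ≤ X ^ (1 / (2 : ℝ)) := by
  have h1 : (a ^ 2) ^ (1 / (2 : ℝ)) = a := by
    rw [← ENNReal.rpow_natCast, ← ENNReal.rpow_mul]
    norm_num
  rw [← h1]
  exact ENNReal.rpow_le_rpow h (by norm_num)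

theorem sq_add_le {a b X : ℝ≥0∞} (ha : a ^ 2 ≤ X) (hb : b ^ 2 ≤ X) : (a + b) ^ 2 ≤ 4 * X := by
  have h1 : (X ^ (1 / (2 : ℝ))) ^ 2 = X := by
    rw [← ENNReal.rpow_natCast, ← ENNReal.rpow_mul]
    norm_num
  calc (a + b) ^ 2 ≤ (2 * X ^ (1 / (2 : ℝ))) ^ 2 := by
        refine pow_le_pow_left' ?_ 2
        rw [two_mul]
        exact add_le_add (sq_le ha) (sq_le hb)
    _ = 4 * X := by
        rw [mul_pow, h1]
        norm_num

/-- the main step, for fixed `ω` -/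
theorem main (φ : ℕ → ℕ) (hε : Sgn P ε) (hg : ∀ i, Measurable (g i)) (ω : Ω)
    (h : ∑' l, ∫⁻ ξ, H ε g (φ l) (ω, ξ) ≠ ⊤) :
    Tendsto (fun m : ℕ => ∫⁻ ξ, ‖lim ε g ω ξ - S ε g m (ω, ξ)‖ₑ ^ 2) atTop (𝓝 0) := by
  have hH : ∀ l, Measurable fun ξ : E n => H ε g (φ l) (ω, ξ) := fun l =>
    (H_meas hε hg (φ l)).comp measurable_prodMk_left
  have h1 : Tendsto (fun l => ∫⁻ ξ, H ε g (φ l) (ω, ξ)) atTop (𝓝 0) :=
    ENNReal.tendsto_atTop_zero_of_tsum_ne_top h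
  have h2 : ∀ᵐ ξ : E n, Tendsto (fun l => H ε g (φ l) (ω, ξ)) atTop (𝓝 0) := by
    rw [← lintegral_tsum fun l => (hH l).aemeasurable] at h
    have h3 := ae_lt_top (Measurable.tsum hH) h
    filter_upwards [h3] with ξ hξ
    exact ENNReal.tendsto_atTop_zero_of_tsum_ne_top hξ.ne
  have h4 : ∀ᵐ ξ : E n, ∀ l m, φ l ≤ m →
      ‖lim ε g ω ξ - S ε g m (ω, ξ)‖ₑ ^ 2 ≤ 4 * H ε g (φ l) (ω, ξ) := by
    filter_upwards [h2] with ξ hξ l m hlm
    have hc : CauchySeq fun m => S ε g m (ω, ξ) := by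
      rw [EMetric.cauchySeq_iff']
      intro e he
      have he2 : 0 < e ^ 2 := by positivity
      obtain ⟨k, hk⟩ := (hξ.eventually_lt_const he2).exists
      refine ⟨φ k, fun j hj => ?_⟩
      rw [edist_eq_enorm_sub]
      by_contra h5
      push Not at h5
      exact absurd ((pow_le_pow_left' h5 2).trans (le_H ε g hj (ω, ξ))) (not_le.2 hk)
    obtain ⟨c, hc⟩ := cauchySeq_tendsto_of_complete hc
    have hl : lim ε g ω ξ = c := by
      unfold lim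
      have h6 : ξ ∈ {ξ : E n | ∃ c, Tendsto (fun m => S ε g m (ω, ξ)) atTop (𝓝 c)} :=
        ⟨c, hc⟩
      rw [indicator_of_mem h6]
      exact hc.limUnder_eq
    rw [hl]
    have h7 : ‖c - S ε g (φ l) (ω, ξ)‖ₑ ^ 2 ≤ H ε g (φ l) (ω, ξ) := by
      have h8 : Tendsto (fun j => ‖S ε g j (ω, ξ) - S ε g (φ l) (ω, ξ)‖ₑ ^ 2) atTop
          (𝓝 (‖c - S ε g (φ l) (ω, ξ)‖ₑ ^ 2)) :=
        ((ENNReal.continuous_pow 2).tendsto _).comp (hc.sub_const _).enorm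
      refine le_of_tendsto h8 ?_
      filter_upwards [eventually_ge_atTop (φ l)] with j hj
      exact le_H ε g hj (ω, ξ)
    have h9 : ‖c - S ε g m (ω, ξ)‖ₑ ≤ ‖c - S ε g (φ l) (ω, ξ)‖ₑ +
        ‖S ε g m (ω, ξ) - S ε g (φ l) (ω, ξ)‖ₑ := by
      have h10 : c - S ε g m (ω, ξ) = (c - S ε g (φ l) (ω, ξ)) -
          (S ε g m (ω, ξ) - S ε g (φ l) (ω, ξ)) := by ring
      rw [h10]
      exact enorm_sub_le
    exact (pow_le_pow_left' h9 2).trans (sq_add_le h7 (le_H ε g hlm (ω, ξ)))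
  rw [ENNReal.tendsto_atTop_zero]
  intro e he
  have h5 : Tendsto (fun l => 4 * ∫⁻ ξ, H ε g (φ l) (ω, ξ)) atTop (𝓝 0) := by
    have h6 := ENNReal.Tendsto.const_mul (a := 4) h1 (Or.inr (by norm_num))
    rwa [mul_zero] at h6
  obtain ⟨l, hl⟩ := (h5.eventually_lt_const he).exists
  refine ⟨φ l, fun m hm => ?_⟩
  calc ∫⁻ ξ, ‖lim ε g ω ξ - S ε g m (ω, ξ)‖ₑ ^ 2
      ≤ ∫⁻ ξ, 4 * H ε g (φ l) (ω, ξ) := by
        refine lintegral_mono_ae ?_
        filter_upwards [h4] with ξ hξ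
        exact hξ l m hm
    _ = 4 * ∫⁻ ξ, H ε g (φ l) (ω, ξ) := lintegral_const_mul _ (hH l)
    _ ≤ e := hl.le

end KOL_

open KOL_ in
/-- almost sure `L²` convergence of the random series -/
theorem p_KOL (h1 : T_CHN) : T_KOL := by
  obtain ⟨C, hC⟩ := h1
  intro n g Ω _ P ε hg hf hε
  have := hε.prob
  refine ⟨lim ε g, lim_meas hε hg, ?_⟩
  have ht : Tendsto (fun m => ∑' k, ∫⁻ ξ, ‖g (k + m) ξ‖ₑ ^ 2) atTop (𝓝 0) :=
    ENNReal.tendsto_sum_nat_add (fun i => ∫⁻ ξ, ‖g i ξ‖ₑ ^ 2) hf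
  have hφ : ∀ l : ℕ, ∃ m : ℕ, ∑' k, ∫⁻ ξ, ‖g (k + m) ξ‖ₑ ^ 2 ≤ (2⁻¹ : ℝ≥0∞) ^ l := by
    intro l
    have hl : (0 : ℝ≥0∞) < (2⁻¹ : ℝ≥0∞) ^ l := ENNReal.pow_pos (by simp) l
    obtain ⟨m, hm⟩ := (ht.eventually_lt_const hl).exists
    exact ⟨m, hm.le⟩
  choose φ hφ using hφ
  have hH : ∀ l, Measurable fun ω : Ω => ∫⁻ ξ, H ε g (φ l) (ω, ξ) := fun l =>
    (H_meas hε hg (φ l)).lintegral_prod_right'
  have h2 : ∫⁻ ω, ∑' l, (∫⁻ ξ, H ε g (φ l) (ω, ξ)) ∂P ≠ ⊤ := by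
    rw [lintegral_tsum fun l => (hH l).aemeasurable]
    refine ne_top_of_le_ne_top ?_ (ENNReal.tsum_le_tsum fun l =>
      (int_H hC hε hg (φ l)).trans (mul_le_mul' le_rfl (hφ l)))
    rw [ENNReal.tsum_mul_left, ENNReal.tsum_geometric]
    refine ENNReal.mul_ne_top ENNReal.coe_ne_top ?_
    rw [ENNReal.one_sub_inv_two, inv_inv]
    norm_num
  filter_upwards [ae_lt_top (Measurable.tsum hH) h2] with ω hω
  exact main φ hε hg ω hω.ne

end Pool.Agent.VRC
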