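import Pool.Agent.VRC.Targets3

set_option autoImplicit false

/-!
# VRC, target RCA (helper66): cells, from the abstract theorems
-/

namespace Pool.Agent.VRC

open MeasureTheory FourierTransform Set Filter Topology
open scoped ENNReal NNReal
open Pool.Agent.MBS (E ex)

namespace RCA_

variable {n : ℕ} {Q : ℕ → Set (E n)}

lemma not_mem_of {ξ : E n} {i0 j : ℕ} (hd : ∀ i j, i ≠ j → Disjoint (Q i) (Q j))
    (h : ξ ∈ Q i0) (hj : j ≠ i0) : ξ ∉ Q j :=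
  fun h' => Set.disjoint_left.1 (hd j i0 hj) h' h

lemma sum_cell (hd : ∀ i j, i ≠ j → Disjoint (Q i) (Q j)) (c : ℕ → ℂ) {ξ : E n} {i0 : ℕ}
    (h : ξ ∈ Q i0) : ∑' i, (Q i).indicator (fun _ => c i) ξ = c i0 := by
  rw [tsum_eq_single i0]
  · exact indicator_of_mem h _
  · intro j hj
    exact indicator_of_notMem (not_mem_of hd h hj) _

lemma sum_out (c : ℕ → ℂ) {ξ : E n} (h : ∀ i, ξ ∉ Q i) :
    ∑' i, (Q i).indicator (fun _ => c i) ξ = 0 := by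
  have h1 : ∀ i, (Q i).indicator (fun _ => c i) ξ = 0 := fun i => indicator_of_notMem (h i) _
  simp only [h1, tsum_zero]

lemma part_cell (hd : ∀ i j, i ≠ j → Disjoint (Q i) (Q j)) (c : ℕ → ℂ) (g : E n → ℂ)
    {ξ : E n} {i0 : ℕ} (h : ξ ∈ Q i0) (m : ℕ) :
    ∑ i ∈ Finset.range m, c i * (Q i).indicator g ξ = if i0 < m then c i0 * g ξ else 0 := by
  split_ifs with hm
  · rw [Finset.sum_eq_single i0]
    · rw [indicator_of_mem h]
    · intro j _ hj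
      rw [indicator_of_notMem (not_mem_of hd h hj), mul_zero]
    · intro h'
      exact absurd (Finset.mem_range.2 hm) h'
  · refine Finset.sum_eq_zero fun j hj => ?_
    have hj' : j ≠ i0 := by
      rintro rfl
      exact hm (Finset.mem_range.1 hj)
    rw [indicator_of_notMem (not_mem_of hd h hj'), mul_zero]

lemma part_out (c : ℕ → ℂ) (g : E n → ℂ) {ξ : E n} (h : ∀ i, ξ ∉ Q i) (m : ℕ) :
    ∑ i ∈ Finset.range m, c i * (Q i).indicator g ξ = 0 :=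
  Finset.sum_eq_zero fun i _ => by rw [indicator_of_notMem (h i), mul_zero]

lemma diff_facts (hd : ∀ i j, i ≠ j → Disjoint (Q i) (Q j)) (c : ℕ → ℂ)
    (hc : ∀ i, ‖c i‖ ≤ 1) (g : E n → ℂ) (ξ : E n) :
    (∀ m : ℕ, ‖(∑' i, (Q i).indicator (fun _ => c i) ξ) * g ξ -
      ∑ i ∈ Finset.range m, c i * (Q i).indicator g ξ‖ ≤ ‖g ξ‖) ∧
    ∃ m0 : ℕ, ∀ m, m0 ≤ m → (∑' i, (Q i).indicator (fun _ => c i) ξ) * g ξ -
      ∑ i ∈ Finset.range m, c i * (Q i).indicator g ξ = 0 := by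
  by_cases h : ∃ i, ξ ∈ Q i
  · obtain ⟨i0, h0⟩ := h
    refine ⟨fun m => ?_, i0 + 1, fun m hm => ?_⟩
    · rw [sum_cell hd c h0, part_cell hd c g h0]
      split_ifs
      · rw [sub_self, norm_zero]
        exact norm_nonneg _
      · rw [sub_zero, norm_mul]
        exact mul_le_of_le_one_left (norm_nonneg _) (hc i0)
    · rw [sum_cell hd c h0, part_cell hd c g h0, if_pos (by omega), sub_self]
  · push Not at h
    refine ⟨fun m => ?_, 0, fun m _ => ?_⟩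
    · rw [sum_out c h, part_out c g h, zero_mul, sub_zero, norm_zero]
      exact norm_nonneg _
    · rw [sum_out c h, part_out c g h, zero_mul, sub_zero]

lemma meas_sum (hm : ∀ i, MeasurableSet (Q i)) (hd : ∀ i j, i ≠ j → Disjoint (Q i) (Q j))
    (c : ℕ → ℂ) : Measurable (fun ξ : E n => ∑' i, (Q i).indicator (fun _ => c i) ξ) := by
  refine measurable_of_tendsto_metrizable
    (f := fun (m : ℕ) (ξ : E n) => ∑ i ∈ Finset.range m, c i * (Q i).indicator (fun _ => 1) ξ)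
    (fun m => ?_) ?_
  · exact Finset.measurable_fun_sum _ fun i _ =>
      (measurable_const.indicator (hm i)).const_mul (c i)
  · rw [tendsto_pi_nhds]
    intro ξ
    by_cases h : ∃ i, ξ ∈ Q i
    · obtain ⟨i0, h0⟩ := h
      refine tendsto_const_nhds.congr' ?_
      filter_upwards [eventually_gt_atTop i0] with m hm0
      rw [sum_cell hd c h0, part_cell hd c (fun _ => 1) h0, if_pos hm0, mul_one]
    · push Not at h
      refine tendsto_const_nhds.congr' ?_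
      filter_upwards with m
      rw [sum_out c h, part_out c _ h]

lemma l2conv (hm : ∀ i, MeasurableSet (Q i)) (hd : ∀ i j, i ≠ j → Disjoint (Q i) (Q j))
    (c : ℕ → ℂ) (hc : ∀ i, ‖c i‖ ≤ 1) {g : E n → ℂ} (hg : Measurable g)
    (hg2 : (∫⁻ ξ, ‖g ξ‖ₑ ^ 2) ≠ ⊤) :
    Tendsto (fun m : ℕ => ∫⁻ ξ, ‖(∑' i, (Q i).indicator (fun _ => c i) ξ) * g ξ -
      ∑ i ∈ Finset.range m, c i * (Q i).indicator g ξ‖ₑ ^ 2) atTop (𝓝 0) := by
  have h := tendsto_lintegral_of_dominated_convergence (μ := (volume : Measure (E n)))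
    (F := fun (m : ℕ) ξ => ‖(∑' i, (Q i).indicator (fun _ => c i) ξ) * g ξ -
      ∑ i ∈ Finset.range m, c i * (Q i).indicator g ξ‖ₑ ^ 2) (f := fun _ => 0)
    (fun ξ => ‖g ξ‖ₑ ^ 2) (fun m => ?_) (fun m => Eventually.of_forall fun ξ => ?_) hg2
    (Eventually.of_forall fun ξ => ?_)
  · simpa using h
  · refine Measurable.pow_const (Measurable.enorm (((meas_sum hm hd c).mul hg).sub ?_)) 2
    exact Finset.measurable_fun_sum _ fun i _ => (hg.indicator (hm i)).const_mul (c i)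
  · have h1 := (diff_facts hd c hc g ξ).1 m
    show ‖_‖ₑ ^ 2 ≤ ‖g ξ‖ₑ ^ 2
    gcongr
    rw [← ofReal_norm, ← ofReal_norm]
    exact ENNReal.ofReal_le_ofReal h1
  · obtain ⟨m0, h0⟩ := (diff_facts hd c hc g ξ).2
    refine tendsto_const_nhds.congr' ?_
    filter_upwards [eventually_ge_atTop m0] with m hm0
    rw [h0 m hm0]
    simp

lemma sgn_ae {Ω : Type} [MeasurableSpace Ω] {P : Measure Ω} {ε : ℕ → Ω → ℝ} (h : Sgn P ε) :
    ∀ᵐ ω ∂P, ∀ i, ‖((ε i ω : ℝ) : ℂ)‖ ≤ 1 := by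
  have := h.prob
  rw [ae_all_iff]
  intro i
  have hm1 : MeasurableSet {ω | ε i ω = 1} := h.meas i (measurableSet_singleton 1)
  have hm2 : MeasurableSet {ω | ε i ω = -1} := h.meas i (measurableSet_singleton (-1))
  have hdis : Disjoint {ω | ε i ω = 1} {ω | ε i ω = -1} := by
    rw [Set.disjoint_left]
    intro ω h1 h2
    have h3 : (1 : ℝ) = -1 := Eq.trans (Eq.symm h1) h2
    norm_num at h3
  have hu : P ({ω | ε i ω = 1} ∪ {ω | ε i ω = -1}) = 1 := by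
    rw [measure_union hdis hm2, h.pos, h.neg, ENNReal.add_halves]
  have hae : ∀ᵐ ω ∂P, ω ∈ ({ω | ε i ω = 1} ∪ {ω | ε i ω = -1} : Set Ω) :=
    (mem_ae_iff_prob_eq_one (hm1.union hm2)).2 hu
  filter_upwards [hae] with ω hω
  rcases hω with h1 | h1
  · have h2 : ε i ω = 1 := h1
    rw [h2]
    simp
  · have h2 : ε i ω = -1 := h1
    rw [h2]
    simp

lemma sum_sq (hm : ∀ i, MeasurableSet (Q i)) (hd : ∀ i j, i ≠ j → Disjoint (Q i) (Q j))
    {g : E n → ℂ} (hg : Measurable g) (μ : Measure (E n)) :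
    ∑' i, ∫⁻ ξ, ‖(Q i).indicator g ξ‖ₑ ^ 2 ∂μ ≤ ∫⁻ ξ, ‖g ξ‖ₑ ^ 2 ∂μ := by
  rw [← lintegral_tsum fun i => ((hg.indicator (hm i)).enorm.pow_const 2).aemeasurable]
  refine lintegral_mono fun ξ => ?_
  by_cases h : ∃ i, ξ ∈ Q i
  · obtain ⟨i0, h0⟩ := h
    show ∑' i, ‖(Q i).indicator g ξ‖ₑ ^ 2 ≤ ‖g ξ‖ₑ ^ 2
    rw [tsum_eq_single i0]
    · rw [indicator_of_mem h0]
    · intro j hj
      rw [indicator_of_notMem (not_mem_of hd h0 hj)]
      simp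
  · push Not at h
    have h1 : ∀ i, ‖(Q i).indicator g ξ‖ₑ ^ 2 = 0 := fun i => by
      rw [indicator_of_notMem (h i)]
      simp
    simp only [h1, tsum_zero]
    exact zero_le

lemma gb {k : ℝ} {w : ℕ → E n} {g : E n → ℂ} (hC : Cells n k Q w) (hg : Measurable g)
    (hg2 : (∫⁻ ξ, ‖g ξ‖ₑ ^ 2) ≠ ⊤) {C : ℝ≥0}
    (hcf : ∀ (w : E n) (g : E n → ℂ) (x0 : E n), ‖w‖ = 1 → Measurable g →
      (∀ ξ, g ξ ≠ 0 → ‖ξ‖ - inner ℝ w ξ ≤ k) →
        ∫⁻ x in Metric.closedBall x0 1, VB g x ^ 2 ≤ C * ∫⁻ ξ, ‖g ξ‖ₑ ^ 2) (x0 : E n) :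
    GB n (Metric.closedBall x0 1) C (fun i => (Q i).indicator g) := by
  refine ⟨fun i => hg.indicator (hC.meas i), measurableSet_closedBall,
    ne_top_of_le_ne_top hg2 (sum_sq hC.meas hC.disj hg volume), fun i ρ _ => ?_⟩
  have hS : MeasurableSet {ξ : E n | ρ < ‖ξ‖} := measurableSet_lt measurable_const measurable_norm
  have h := hcf (w i) ({ξ : E n | ρ < ‖ξ‖}.indicator ((Q i).indicator g)) x0 (hC.unit i)
    ((hg.indicator (hC.meas i)).indicator hS) (by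
      intro ξ hξ
      apply hC.par i ξ
      by_contra hn
      apply hξ
      rw [indicator_apply]
      split_ifs
      · exact indicator_of_notMem hn _
      · rfl)
  refine h.trans (le_of_eq ?_)
  congr 1
  rw [← lintegral_indicator hS]
  refine lintegral_congr fun ξ => ?_
  by_cases h1 : ξ ∈ {ξ : E n | ρ < ‖ξ‖}
  · rw [indicator_of_mem h1, indicator_of_mem h1]
  · rw [indicator_of_notMem h1, indicator_of_notMem h1]
    simp

lemma shell_eq (hn : 1 ≤ n) (f : E n → ℂ) (R : ℝ) :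
    ∫ ξ in Metric.closedBall (0 : E n) R, f ξ =
      ∫ ξ in {ξ : E n | 0 < ‖ξ‖ ∧ ‖ξ‖ ≤ R}, f ξ := by
  apply setIntegral_congr_set
  have h0 : ∀ᵐ ξ : E n, ξ ≠ 0 := by
    have : Nonempty (Fin n) := ⟨⟨0, hn⟩⟩
    have : Nontrivial (E n) := inferInstance
    exact compl_mem_ae_iff.2 (measure_singleton 0)
  filter_upwards [h0] with ξ hξ
  apply propext
  show ξ ∈ Metric.closedBall (0 : E n) R ↔ ξ ∈ {ξ : E n | 0 < ‖ξ‖ ∧ ‖ξ‖ ≤ R}
  rw [mem_closedBall_zero_iff]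
  exact ⟨fun h => ⟨norm_pos_iff.2 hξ, h⟩, fun h => h.2⟩

lemma conv {Ω : Type} [MeasurableSpace Ω] {P : Measure Ω} {ε : ℕ → Ω → ℝ} (hS : Sgn P ε)
    {k : ℝ} {w : ℕ → E n} {g : E n → ℂ} (hC : Cells n k Q w) (hg : Measurable g)
    (hg2 : (∫⁻ ξ, ‖g ξ‖ₑ ^ 2) ≠ ⊤) :
    ∀ᵐ ω ∂P, Tendsto (fun m : ℕ => ∫⁻ ξ, ‖rm Q ε ω ξ * g ξ -
      ∑ i ∈ Finset.range m, (ε i ω : ℂ) * (Q i).indicator g ξ‖ₑ ^ 2) atTop (𝓝 0) := by
  filter_upwards [sgn_ae hS] with ω hω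
  exact l2conv hC.meas hC.disj (fun i => (ε i ω : ℂ)) hω hg hg2

theorem rc1 (h1 : T_AB1) (h3 : T_CF2) : T_RC1 := by
  obtain ⟨C1, hC1⟩ := h1
  intro n k hn hk
  obtain ⟨C2, hC2⟩ := h3 n k hn hk
  refine ⟨C1 * C2, fun Q w g x0 Ω _ P ε hC hg hg2 hS => ?_⟩
  obtain ⟨H, -, hH, hHi⟩ := hC1 n (Metric.closedBall x0 1) C2 (fun i => (Q i).indicator g) 0 Ω P
    ε (fun ω ξ => rm Q ε ω ξ * g ξ) hn (gb hC hg hg2 hC2 x0) hS le_rfl
    (fun ω => (meas_sum hC.meas hC.disj fun i => (ε i ω : ℂ)).mul hg) (conv hS hC hg hg2)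
  calc ∫⁻ ω, (∫⁻ x in Metric.closedBall x0 1, (⨆ (R : ℝ) (_ : 0 < R),
      ‖∫ ξ in Metric.closedBall (0 : E n) R, rm Q ε ω ξ * g ξ * ex x ξ‖ₑ) ^ 2) ∂P
      ≤ ∫⁻ ω, (∫⁻ x in Metric.closedBall x0 1, H (ω, x) ^ 2) ∂P := by
        refine lintegral_mono_ae ?_
        filter_upwards [hH] with ω hω
        refine lintegral_mono fun x => ?_
        refine pow_le_pow_left' (iSup₂_le fun R hR => ?_) 2
        rw [shell_eq hn]
        exact hω x R hR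
    _ ≤ C1 * C2 * ∑' i, ∫⁻ ξ in {ξ : E n | 0 < ‖ξ‖}, ‖(Q i).indicator g ξ‖ₑ ^ 2 := hHi
    _ ≤ C1 * C2 * ∫⁻ ξ, ‖g ξ‖ₑ ^ 2 := by
        gcongr
        exact (sum_sq hC.meas hC.disj hg _).trans (setLIntegral_le_lintegral _ _)
    _ = ((C1 * C2 : ℝ≥0) : ℝ≥0∞) * ∫⁻ ξ, ‖g ξ‖ₑ ^ 2 := by rw [ENNReal.coe_mul]

theorem rac (h2 : T_ABC) (h3 : T_CF2) : T_RAC := by
  intro n k hn hk Q w g Ω _ P ε hC hg hg2 hS
  obtain ⟨C2, hC2⟩ := h3 n k hn hk
  have h := h2 n (fun j => Metric.closedBall (TopologicalSpace.denseSeq (E n) j) 1) C2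
    (fun i => (Q i).indicator g) Ω P ε (fun ω ξ => rm Q ε ω ξ * g ξ) hn ENNReal.coe_ne_top
    (fun j => gb hC hg hg2 hC2 _) hS
    (fun ω => (meas_sum hC.meas hC.disj fun i => (ε i ω : ℂ)).mul hg) (conv hS hC hg hg2)
  have hU : ⋃ j, Metric.closedBall (TopologicalSpace.denseSeq (E n) j) 1 = univ := by
    rw [eq_univ_iff_forall]
    intro x
    obtain ⟨j, hj⟩ := (TopologicalSpace.denseRange_denseSeq (E n)).exists_dist_lt x one_pos
    rw [mem_iUnion]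
    exact ⟨j, hj.le⟩
  rw [hU, Measure.restrict_univ] at h
  exact h

end RCA_

theorem p_RCA (h1 : T_AB1) (h2 : T_ABC) (h3 : T_CF2) : T_RCA :=
  ⟨RCA_.rc1 h1 h3, RCA_.rac h2 h3⟩

end Pool.Agent.VRC
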