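import Pool.Agent.VRC.Targets5

set_option autoImplicit false

/-!
# VRC, fifth part: `T_RHC` from `T_ABC` and `T_RDV`
-/

namespace Pool.Agent.VRC

open MeasureTheory FourierTransform Set Filter Topology
open scoped ENNReal NNReal
open Pool.Agent.MBS (E ex)

/-- removing the frequencies `‖ξ‖ ≤ r` keeps the pure angular degree -/
theorem RHC_pure {n l : ℕ} {g : E n → ℂ} (hg : Pure n l g) (r : ℝ) :
    Pure n l ({ξ : E n | r < ‖ξ‖}.indicator g) := by
  intro ρ hρ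
  by_cases h : r < ρ
  · obtain ⟨p, h1, h2, h3, h4⟩ := hg ρ hρ
    refine ⟨p, h1, h2, h3, fun θ hθ => ?_⟩
    have hn : ‖ρ • θ‖ = ρ := by rw [norm_smul, hθ, mul_one, Real.norm_of_nonneg hρ.le]
    rw [Set.indicator_of_mem]
    · exact h4 θ hθ
    · simp only [Set.mem_ofPred_eq, hn]; exact h
  · refine ⟨fun _ => 0, contDiff_const, fun x => ?_, fun t x _ => by simp, fun θ hθ => ?_⟩
    · have : Laplacian.laplacian (fun _ : E n => (0 : ℂ)) = 0 := by
        simp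
      rw [this]; rfl
    · have hn : ‖ρ • θ‖ = ρ := by rw [norm_smul, hθ, mul_one, Real.norm_of_nonneg hρ.le]
      rw [Set.indicator_of_notMem]
      simp only [Set.mem_ofPred_eq, hn]; exact h

/-- the uniform variation bound on the whole space -/
theorem RHC_GB {n : ℕ} {C : ℝ≥0} (l : ℕ → ℕ) (g : ℕ → E n → ℂ)
    (hC : ∀ (l : ℕ) (g : E n → ℂ), Measurable g → Pure n l g →
      ∫⁻ x, VB g x ^ 2 ≤ C * ∫⁻ ξ, ‖g ξ‖ₑ ^ 2)
    (hm : ∀ i, Measurable (g i)) (hp : ∀ i, Pure n (l i) (g i))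
    (hf : ∑' i, ∫⁻ ξ, ‖g i ξ‖ₑ ^ 2 ≠ ⊤) : GB n univ (C : ℝ≥0∞) g := by
  refine ⟨hm, MeasurableSet.univ, hf, fun i r _ => ?_⟩
  have hS : MeasurableSet {ξ : E n | r < ‖ξ‖} := measurableSet_lt measurable_const measurable_norm
  have h := hC (l i) ({ξ : E n | r < ‖ξ‖}.indicator (g i)) ((hm i).indicator hS)
    (RHC_pure (hp i) r)
  rw [Measure.restrict_univ]
  refine h.trans (le_of_eq ?_)
  congr 1
  rw [← lintegral_indicator hS]
  refine lintegral_congr fun ξ => ?_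
  by_cases hx : ξ ∈ {ξ : E n | r < ‖ξ‖}
  · rw [Set.indicator_of_mem hx, Set.indicator_of_mem hx]
  · rw [Set.indicator_of_notMem hx, Set.indicator_of_notMem hx]; simp

theorem p_RHC (h1 : T_ABC) (h2 : T_RDV) : T_RHC := by
  intro n l g Ω _ P ε G hn hm hp hf hs hG hL
  obtain ⟨C, hC⟩ := h2 n hn
  have hB := RHC_GB l g hC hm hp hf
  have h := h1 n (fun _ => univ) (C : ℝ≥0∞) g Ω P ε G (by omega) ENNReal.coe_ne_top
    (fun _ => hB) hs hG hL
  filter_upwards [h] with ω hω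
  obtain ⟨F, hF1, hF2, hF3⟩ := hω
  refine ⟨F, hF1, hF2, ?_⟩
  have hU : (⋃ _k : ℕ, (univ : Set (E n))) = univ := iUnion_const _
  rw [hU, Measure.restrict_univ] at hF3
  exact hF3

end Pool.Agent.VRC
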