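import Pool.Agent.VRC.Targets5
import Pool.Agent.VRC.P_RCA
import Pool.Agent.VRC.P_RHC

set_option autoImplicit false

/-!
# VRC: random signs, the final theorem (functions of pure angular degree about arbitrary centres, and functions with
frequencies in a parabolic region)
-/

namespace Pool.Agent.VRC

open MeasureTheory FourierTransform Set Filter Topology
open scoped ENNReal NNReal
open Pool.Agent.MBS (E ex)

/-- pure angular degree about some centre (after translation by `y`) -/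
def Ctr (n : ℕ) (g : E n → ℂ) : Prop := ∃ (y : E n) (l : ℕ), Pure n l (fun ξ => g ξ * ex y ξ)

/-- frequencies in a parabolic region -/
def Par (n : ℕ) (k : ℝ) (g : E n → ℂ) : Prop :=
  ∃ w : E n, ‖w‖ = 1 ∧ ∀ ξ, g ξ ≠ 0 → ‖ξ‖ - inner ℝ w ξ ≤ k

/-- the final theorem -/
def T_MIX : Prop := ∀ (n : ℕ) (k : ℝ), 2 ≤ n → 0 ≤ k → ∃ C : ℝ≥0, ∀ (g : ℕ → E n → ℂ)
  (Ω : Type) [MeasurableSpace Ω] (P : Measure Ω) (ε : ℕ → Ω → ℝ) (G : Ω → E n → ℂ),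
  (∀ i, Measurable (g i)) → ∑' i, ∫⁻ ξ, ‖g i ξ‖ₑ ^ 2 ≠ ⊤ →
  Sgn P ε → (∀ ω, Measurable (G ω)) →
  (∀ᵐ ω ∂P, Tendsto (fun m : ℕ => ∫⁻ ξ, ‖G ω ξ - ∑ i ∈ Finset.range m, (ε i ω : ℂ) * g i ξ‖ₑ ^ 2)
    atTop (𝓝 0)) →
    ((∀ i, Ctr n (g i)) →
      ∫⁻ ω, (∫⁻ x, (⨆ (R : ℝ) (_ : 0 < R),
        ‖∫ ξ in Metric.closedBall (0 : E n) R, G ω ξ * ex x ξ‖ₑ) ^ 2) ∂P ≤
        C * ∑' i, ∫⁻ ξ, ‖g i ξ‖ₑ ^ 2) ∧
    ((∀ i, Ctr n (g i) ∨ Par n k (g i)) →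
      (∀ x0, ∫⁻ ω, (∫⁻ x in Metric.closedBall x0 1, (⨆ (R : ℝ) (_ : 0 < R),
        ‖∫ ξ in Metric.closedBall (0 : E n) R, G ω ξ * ex x ξ‖ₑ) ^ 2) ∂P ≤
        C * ∑' i, ∫⁻ ξ, ‖g i ξ‖ₑ ^ 2) ∧
      ∀ᵐ ω ∂P, ∃ F : E n → ℂ, MemLp F 2 ∧
        Tendsto (fun R : ℝ => ∫⁻ x, ‖(∫ ξ in Metric.closedBall (0 : E n) R,
          G ω ξ * ex x ξ) - F x‖ₑ ^ 2) atTop (𝓝 0) ∧
        ∀ᵐ x, Tendsto (fun R : ℝ => ∫ ξ in Metric.closedBall (0 : E n) R, G ω ξ * ex x ξ) atTop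
          (𝓝 (F x)))

namespace MIX_

lemma ex_norm {n : ℕ} (x ξ : E n) : ‖ex x ξ‖ = 1 := Pool.Agent.MBS.ex_norm x ξ

lemma ex_mul {n : ℕ} (x y ξ : E n) : ex y ξ * ex x ξ = ex (x + y) ξ := by
  unfold ex
  rw [← Complex.exp_add, inner_add_left]
  congr 1
  push_cast
  ring

lemma VB_tr {n : ℕ} (g : E n → ℂ) (y x : E n) : VB (fun ξ => g ξ * ex y ξ) x = VB g (x + y) := by
  unfold VB
  congr 1
  ext L
  congr 1
  ext N
  congr 1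
  ext hN
  congr 1
  refine Finset.sum_congr rfl fun j _ => ?_
  congr 3
  funext ξ
  rw [mul_assoc, ex_mul]

lemma ctr_bd {n : ℕ} {C : ℝ≥0} (hC : ∀ (l : ℕ) (g : E n → ℂ), Measurable g → Pure n l g →
    ∫⁻ x, VB g x ^ 2 ≤ C * ∫⁻ ξ, ‖g ξ‖ₑ ^ 2) {g : E n → ℂ} (hg : Measurable g)
    (hc : Ctr n g) (ρ : ℝ) :
    ∫⁻ x, VB ({ξ : E n | ρ < ‖ξ‖}.indicator g) x ^ 2 ≤
      C * ∫⁻ ξ in {ξ : E n | ρ < ‖ξ‖}, ‖g ξ‖ₑ ^ 2 := by
  obtain ⟨y, l, hp⟩ := hc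
  have hS : MeasurableSet {ξ : E n | ρ < ‖ξ‖} := measurableSet_lt measurable_const measurable_norm
  have hey : Measurable (fun ξ : E n => ex y ξ) :=
    (Pool.Agent.MBS.ex_continuous.comp (Continuous.prodMk_right y)).measurable
  have e1 : (fun ξ => {ξ : E n | ρ < ‖ξ‖}.indicator g ξ * ex y ξ) =
      {ξ : E n | ρ < ‖ξ‖}.indicator (fun ξ => g ξ * ex y ξ) := by
    funext ξ
    by_cases h : ξ ∈ {ξ : E n | ρ < ‖ξ‖}
    · rw [indicator_of_mem h, indicator_of_mem h]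
    · rw [indicator_of_notMem h, indicator_of_notMem h, zero_mul]
  have h := hC l ({ξ : E n | ρ < ‖ξ‖}.indicator (fun ξ => g ξ * ex y ξ))
    ((hg.mul hey).indicator hS) (RHC_pure hp ρ)
  rw [← e1] at h
  have e2 : ∫⁻ x, VB (fun ξ => {ξ : E n | ρ < ‖ξ‖}.indicator g ξ * ex y ξ) x ^ 2 =
      ∫⁻ x, VB ({ξ : E n | ρ < ‖ξ‖}.indicator g) x ^ 2 := by
    simp_rw [VB_tr]
    exact lintegral_add_right_eq_self (fun x => VB ({ξ : E n | ρ < ‖ξ‖}.indicator g) x ^ 2) y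
  rw [e2] at h
  refine h.trans (le_of_eq ?_)
  congr 1
  rw [← lintegral_indicator hS]
  refine lintegral_congr fun ξ => ?_
  beta_reduce
  by_cases h1 : ξ ∈ {ξ : E n | ρ < ‖ξ‖}
  · rw [indicator_of_mem h1, indicator_of_mem h1, enorm_mul]
    have : ‖ex y ξ‖ₑ = 1 := by rw [← ofReal_norm, ex_norm, ENNReal.ofReal_one]
    rw [this, mul_one]
  · rw [indicator_of_notMem h1, indicator_of_notMem h1]
    simp

lemma par_bd {n : ℕ} {k : ℝ} {C : ℝ≥0}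
    (hcf : ∀ (w : E n) (g : E n → ℂ) (x0 : E n), ‖w‖ = 1 → Measurable g →
      (∀ ξ, g ξ ≠ 0 → ‖ξ‖ - inner ℝ w ξ ≤ k) →
        ∫⁻ x in Metric.closedBall x0 1, VB g x ^ 2 ≤ C * ∫⁻ ξ, ‖g ξ‖ₑ ^ 2)
    {g : E n → ℂ} (hg : Measurable g) (hc : Par n k g) (ρ : ℝ) (x0 : E n) :
    ∫⁻ x in Metric.closedBall x0 1, VB ({ξ : E n | ρ < ‖ξ‖}.indicator g) x ^ 2 ≤
      C * ∫⁻ ξ in {ξ : E n | ρ < ‖ξ‖}, ‖g ξ‖ₑ ^ 2 := by
  obtain ⟨w, hw, hk⟩ := hc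
  have hS : MeasurableSet {ξ : E n | ρ < ‖ξ‖} := measurableSet_lt measurable_const measurable_norm
  have h := hcf w ({ξ : E n | ρ < ‖ξ‖}.indicator g) x0 hw (hg.indicator hS) (by
      intro ξ hξ
      apply hk ξ
      intro h0
      apply hξ
      rw [indicator_apply]
      split_ifs
      · exact h0
      · rfl)
  refine h.trans (le_of_eq ?_)
  congr 1
  rw [← lintegral_indicator hS]
  refine lintegral_congr fun ξ => ?_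
  by_cases h1 : ξ ∈ {ξ : E n | ρ < ‖ξ‖}
  · rw [indicator_of_mem h1, indicator_of_mem h1]
  · rw [indicator_of_notMem h1, indicator_of_notMem h1]
    simp

end MIX_

open MIX_ in
theorem p_MIX (h1 : T_AB1) (h2 : T_ABC) (h3 : T_RDV) (h4 : T_CF2) : T_MIX := by
  obtain ⟨C1, hC1⟩ := h1
  intro n k hn hk
  have hn1 : 1 ≤ n := by omega
  obtain ⟨C3, hC3⟩ := h3 n hn
  obtain ⟨C4, hC4⟩ := h4 n k hn1 hk
  refine ⟨C1 * (C3 + C4), fun g Ω _ P ε G hg hs hS hG hL => ⟨fun hc => ?_, fun hc => ?_⟩⟩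
  · have hgb : GB n univ ((C3 + C4 : ℝ≥0) : ℝ≥0∞) g := by
      refine ⟨hg, MeasurableSet.univ, hs, fun i ρ _ => ?_⟩
      rw [Measure.restrict_univ]
      refine (ctr_bd hC3 (hg i) (hc i) ρ).trans ?_
      gcongr
      exact le_self_add
    obtain ⟨H, -, hH, hHi⟩ := hC1 n univ ((C3 + C4 : ℝ≥0) : ℝ≥0∞) g 0 Ω P ε G hn1 hgb hS le_rfl hG hL
    calc ∫⁻ ω, (∫⁻ x, (⨆ (R : ℝ) (_ : 0 < R),
        ‖∫ ξ in Metric.closedBall (0 : E n) R, G ω ξ * ex x ξ‖ₑ) ^ 2) ∂P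
        ≤ ∫⁻ ω, (∫⁻ x in univ, H (ω, x) ^ 2) ∂P := by
          refine lintegral_mono_ae ?_
          filter_upwards [hH] with ω hω
          rw [Measure.restrict_univ]
          refine lintegral_mono fun x => ?_
          refine pow_le_pow_left' (iSup₂_le fun R hR => ?_) 2
          rw [RCA_.shell_eq hn1]
          exact hω x R hR
      _ ≤ C1 * ((C3 + C4 : ℝ≥0) : ℝ≥0∞) * ∑' i, ∫⁻ ξ in {ξ : E n | 0 < ‖ξ‖}, ‖g i ξ‖ₑ ^ 2 := hHi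
      _ ≤ C1 * ((C3 + C4 : ℝ≥0) : ℝ≥0∞) * ∑' i, ∫⁻ ξ, ‖g i ξ‖ₑ ^ 2 := by
          gcongr
          exact Measure.restrict_le_self
      _ = ((C1 * (C3 + C4) : ℝ≥0) : ℝ≥0∞) * ∑' i, ∫⁻ ξ, ‖g i ξ‖ₑ ^ 2 := by
          rw [ENNReal.coe_mul]
  · have hgb : ∀ x0 : E n, GB n (Metric.closedBall x0 1) ((C3 + C4 : ℝ≥0) : ℝ≥0∞) g := by
      intro x0
      refine ⟨hg, measurableSet_closedBall, hs, fun i ρ _ => ?_⟩
      rcases hc i with h | h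
      · refine (setLIntegral_le_lintegral _ _).trans ((ctr_bd hC3 (hg i) h ρ).trans ?_)
        gcongr
        exact le_self_add
      · refine (par_bd hC4 (hg i) h ρ x0).trans ?_
        gcongr
        exact le_add_self
    refine ⟨fun x0 => ?_, ?_⟩
    · obtain ⟨H, -, hH, hHi⟩ := hC1 n (Metric.closedBall x0 1) ((C3 + C4 : ℝ≥0) : ℝ≥0∞) g 0 Ω P ε G
        hn1 (hgb x0) hS le_rfl hG hL
      calc ∫⁻ ω, (∫⁻ x in Metric.closedBall x0 1, (⨆ (R : ℝ) (_ : 0 < R),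
          ‖∫ ξ in Metric.closedBall (0 : E n) R, G ω ξ * ex x ξ‖ₑ) ^ 2) ∂P
          ≤ ∫⁻ ω, (∫⁻ x in Metric.closedBall x0 1, H (ω, x) ^ 2) ∂P := by
            refine lintegral_mono_ae ?_
            filter_upwards [hH] with ω hω
            refine lintegral_mono fun x => ?_
            refine pow_le_pow_left' (iSup₂_le fun R hR => ?_) 2
            rw [RCA_.shell_eq hn1]
            exact hω x R hR
        _ ≤ C1 * ((C3 + C4 : ℝ≥0) : ℝ≥0∞) * ∑' i, ∫⁻ ξ in {ξ : E n | 0 < ‖ξ‖}, ‖g i ξ‖ₑ ^ 2 := hHi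
        _ ≤ C1 * ((C3 + C4 : ℝ≥0) : ℝ≥0∞) * ∑' i, ∫⁻ ξ, ‖g i ξ‖ₑ ^ 2 := by
            gcongr
            exact Measure.restrict_le_self
        _ = ((C1 * (C3 + C4) : ℝ≥0) : ℝ≥0∞) * ∑' i, ∫⁻ ξ, ‖g i ξ‖ₑ ^ 2 := by
            rw [ENNReal.coe_mul]
    · have h := h2 n (fun j => Metric.closedBall (TopologicalSpace.denseSeq (E n) j) 1)
        ((C3 + C4 : ℝ≥0) : ℝ≥0∞) g Ω P ε G hn1 ENNReal.coe_ne_top (fun j => hgb _) hS hG hL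
      have hU : ⋃ j, Metric.closedBall (TopologicalSpace.denseSeq (E n) j) 1 = univ := by
        rw [eq_univ_iff_forall]
        intro x
        obtain ⟨j, hj⟩ := (TopologicalSpace.denseRange_denseSeq (E n)).exists_dist_lt x one_pos
        rw [mem_iUnion]
        exact ⟨j, hj.le⟩
      rw [hU, Measure.restrict_univ] at h
      exact h

end Pool.Agent.VRC
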