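import Pool.Agent.VRC.Targets5
import Pool.Agent.CRR.P_ODEN

set_option autoImplicit false

/-!
# VRC: the Bessel equation for each direction (target ODV)
-/

namespace Pool.Agent.VRC

open MeasureTheory FourierTransform Set Filter Topology
open scoped ENNReal NNReal ComplexConjugate
open Pool.Agent.MBS (E ex)
open Pool.Agent.CRN (sg rt SH Lam L2 T_POLN T_HELN)
open Pool.Agent.CRR (Sol NSol PP)

namespace ODV_

open Pool.Agent.CRN.HELN_ (Sp ee ee_hda cf cl sum_cf inner_rt int_of_cont Lam_eq SH_congr)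
open Pool.Agent.CRR.ODEN_ (Lam_scale SH_cont sr sr_pos pw U U1 U2 U_der U1_der re_der im_der)

variable {n : ℕ}

lemma Lam_conj (p : E n → ℂ) (x : E n) : Lam (fun y => conj (p y)) x = conj (Lam p x) := by
  have h : ∀ i j : Fin n, L2 i j (fun y => conj (p y)) x = conj (L2 i j p x) := by
    intro i j
    unfold L2
    have e1 : deriv (fun φ : ℝ => conj (p (rt i j φ x))) =
        fun t => conj (deriv (fun φ : ℝ => p (rt i j φ x)) t) := by
      funext t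
      exact deriv.star
    rw [e1]
    exact deriv.star
  unfold Lam
  simp only [map_sum]
  refine Finset.sum_congr rfl fun i _ => Finset.sum_congr rfl fun j _ => ?_
  split_ifs
  · exact h i j
  · simp

lemma L2_ex (i j : Fin n) (hij : i ≠ j) (x ξ : E n) :
    L2 i j (ex x) ξ = cf i j x ξ * ex x ξ := by
  unfold L2
  let q : ℝ → ℝ := fun φ => inner ℝ ξ x + (Real.cos φ - 1) * (ξ i * x i + ξ j * x j) +
    Real.sin φ * (ξ i * x j - ξ j * x i)
  let q1 : ℝ → ℝ := fun φ => (-Real.sin φ) * (ξ i * x i + ξ j * x j) +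
    Real.cos φ * (ξ i * x j - ξ j * x i)
  let q2 : ℝ → ℝ := fun φ => (-Real.cos φ) * (ξ i * x i + ξ j * x j) +
    (-Real.sin φ) * (ξ i * x j - ξ j * x i)
  have hq : ∀ φ, HasDerivAt q (q1 φ) φ := by
    intro φ
    have h1 := (((Real.hasDerivAt_cos φ).sub_const 1).mul_const
      (ξ i * x i + ξ j * x j)).const_add (inner ℝ ξ x : ℝ)
    exact h1.add ((Real.hasDerivAt_sin φ).mul_const _)
  have hq1 : ∀ φ, HasDerivAt q1 (q2 φ) φ := by
    intro φ
    exact ((Real.hasDerivAt_sin φ).neg.mul_const _).add ((Real.hasDerivAt_cos φ).mul_const _)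
  have e0 : (fun φ : ℝ => ex x (rt i j φ ξ)) = fun φ => ee (q φ) := by
    funext φ
    unfold ex ee
    rw [real_inner_comm, inner_rt i j hij]
  have d1 : ∀ φ : ℝ, HasDerivAt (fun φ => ee (q φ))
      (2 * Real.pi * Complex.I * ((q1 φ : ℝ) : ℂ) * ee (q φ)) φ := fun φ => ee_hda (hq φ)
  have d2 : HasDerivAt (fun φ => 2 * Real.pi * Complex.I * ((q1 φ : ℝ) : ℂ) * ee (q φ))
      (2 * Real.pi * Complex.I * ((q2 0 : ℝ) : ℂ) * ee (q 0) +
        2 * Real.pi * Complex.I * ((q1 0 : ℝ) : ℂ) *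
          (2 * Real.pi * Complex.I * ((q1 0 : ℝ) : ℂ) * ee (q 0))) 0 :=
    ((hq1 0).ofReal_comp.const_mul (2 * Real.pi * Complex.I)).mul (ee_hda (hq 0))
  rw [e0, show deriv (fun φ => ee (q φ)) = _ from funext fun φ => (d1 φ).deriv, d2.deriv]
  have hx : ee (q 0) = ex x ξ := by
    unfold ee ex
    simp only [q, Real.cos_zero, Real.sin_zero, sub_self, zero_mul, add_zero]
    rw [real_inner_comm]
  have h1 : q1 0 = ξ i * x j - ξ j * x i := by simp [q1]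
  have h2 : q2 0 = -(ξ i * x i + ξ j * x j) := by simp [q2]
  rw [hx, h1, h2, cf]
  push_cast
  linear_combination (4 * Real.pi ^ 2 * ((ξ i : ℂ) * (x j : ℂ) - (ξ j : ℂ) * (x i : ℂ)) ^ 2 *
    ex x ξ) * Complex.I_sq

lemma Lam_ex (x ξ : E n) : Lam (ex x) ξ = cl x ξ * ex x ξ := by
  unfold Lam
  rw [← sum_cf, Finset.sum_mul]
  refine Finset.sum_congr rfl fun i _ => ?_
  rw [Finset.sum_mul]
  refine Finset.sum_congr rfl fun j _ => ?_
  split_ifs with h
  · exact L2_ex i j h.ne x ξ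
  · simp

lemma ex_cd (x : E n) (ρ : ℝ) : ContDiff ℝ 2 (fun ω : E n => ex x (ρ • ω)) := by
  unfold ex
  have h0 : ContDiff ℝ 2 (fun ω : E n => ρ • ω) := by fun_prop
  have h1 : ContDiff ℝ 2 (fun ω : E n => (inner ℝ x (ρ • ω) : ℝ)) := contDiff_const.inner ℝ h0
  have h2 : ContDiff ℝ 2 (fun ω : E n => ((inner ℝ x (ρ • ω) : ℝ) : ℂ)) :=
    Complex.ofRealCLM.contDiff.comp h1
  exact (contDiff_const.mul h2).cexp

/-- the angular Laplacian acts on `SH h ρ` by the scalar `-λ` -/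
lemma eig (h2 : Pool.Agent.CRR.T_SYM) (hn : 2 ≤ n) {p : E n → ℂ} (hp : ContDiff ℝ 2 p)
    {lam : ℝ} (hL : ∀ x, Lam p x = -((lam : ℝ) : ℂ) * p x) {ρ : ℝ} (hρ : 0 < ρ) (x : E n) :
    Lam (SH (fun ξ => p (ρ⁻¹ • ξ)) ρ) x = -((lam : ℝ) : ℂ) * SH (fun ξ => p (ρ⁻¹ • ξ)) ρ x := by
  have hc : Continuous fun ξ : E n => p (ρ⁻¹ • ξ) := hp.continuous.comp (by fun_prop)
  rw [Lam_eq hc]
  have hcp : ContDiff ℝ 2 fun y => conj (p y) := Complex.conjCLE.contDiff.comp hp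
  have h := (h2 n (fun ω => ex x (ρ • ω)) (fun y => conj (p y)) hn (ex_cd x ρ) hcp).1
  have e1 : ∀ θ : Sp n, Lam (fun ω => ex x (ρ • ω)) (θ : E n) =
      cl x (ρ • (θ : E n)) * ex x (ρ • (θ : E n)) := by
    intro θ
    rw [Lam_scale (ex x) ρ, Lam_ex]
  have e2 : ∀ θ : Sp n, conj (Lam (fun y => conj (p y)) (θ : E n)) =
      -((lam : ℝ) : ℂ) * p (θ : E n) := by
    intro θ
    rw [Lam_conj, Complex.conj_conj, hL]
  simp only [e1, e2, Complex.conj_conj] at h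
  have hi : ∀ θ : Sp n, ρ⁻¹ • ρ • (θ : E n) = (θ : E n) := fun θ =>
    inv_smul_smul₀ hρ.ne' _
  unfold SH
  simp only [hi]
  rw [mul_left_comm]
  congr 1
  rw [← integral_const_mul]
  have l1 : ∫ ω : Sp n, cl x (ρ • (ω : E n)) * p (ω : E n) * ex x (ρ • (ω : E n)) ∂(sg n) =
      ∫ θ : Sp n, cl x (ρ • (θ : E n)) * ex x (ρ • (θ : E n)) * p (θ : E n) ∂(sg n) :=
    integral_congr_ae (ae_of_all _ fun θ => by ring)
  have l2 : ∫ ω : Sp n, -((lam : ℝ) : ℂ) * (p (ω : E n) * ex x (ρ • (ω : E n))) ∂(sg n) =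
      ∫ θ : Sp n, ex x (ρ • (θ : E n)) * (-((lam : ℝ) : ℂ) * p (θ : E n)) ∂(sg n) :=
    integral_congr_ae (ae_of_all _ fun θ => by ring)
  rw [l1, l2, h]

lemma bounded {h : E n → ℂ} (hn : 2 ≤ n) (hh : Continuous h) {ρ : ℝ} (hρ : 0 < ρ) (θ : E n) :
    ∃ B : ℝ, ∀ x ≤ 0, ‖U h ρ x θ‖ ≤ B := by
  have hb : (0 : ℝ) ≤ ((n : ℝ) - 2) / 2 := by
    have : (2 : ℝ) ≤ n := by exact_mod_cast hn
    linarith
  have h1 : Continuous fun s : ℝ => ((s ^ (((n : ℝ) - 2) / 2) : ℝ) : ℂ) * SH h ρ (s • θ) := by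
    refine (Complex.continuous_ofReal.comp (Real.continuous_rpow_const hb)).mul ?_
    exact (SH_cont hh ρ).comp (by fun_prop)
  obtain ⟨B, hB⟩ := isCompact_Icc.exists_bound_of_continuousOn (s := Icc 0 (1 / (2 * Real.pi * ρ)))
    h1.continuousOn
  refine ⟨B, fun x hx => hB (sr ρ x) ⟨(sr_pos hρ x).le, ?_⟩⟩
  unfold sr
  gcongr
  exact Real.exp_le_one_iff.2 hx

end ODV_

open ODV_ Pool.Agent.CRR.ODEN_ in
/-- **ODV** -/
theorem p_ODV (h1 : Pool.Agent.CRN.T_HELN) (h2 : Pool.Agent.CRR.T_SYM) (h3 : T_EUL) : T_ODV := by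
  intro n l g ρ θ hn hg hρ hθ
  obtain ⟨p, hp, hΔ, hom, hgp⟩ := hg ρ hρ
  have hL := h3 n l p hn hp hΔ hom
  set h : E n → ℂ := fun ξ => p (ρ⁻¹ • ξ) with hdef
  have hc : Continuous h := hp.continuous.comp (by fun_prop)
  have hSH : ∀ x : E n, SH g ρ x = SH h ρ x := by
    intro x
    refine Pool.Agent.CRN.HELN_.SH_congr ρ x fun ω => ?_
    rw [hgp ω (mem_sphere_zero_iff_norm.1 ω.2), hdef]
    simp only
    rw [inv_smul_smul₀ hρ.ne']
  have hE : ∀ x : E n, Lam (SH h ρ) x = -((l * (l + n - 2) : ℝ) : ℂ) * SH h ρ x :=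
    fun x => eig h2 hn hp hL hρ x
  have hU : ∀ x : ℝ, (((Real.exp x / (2 * Real.pi * ρ)) ^ (((n : ℝ) - 2) / 2) : ℝ) : ℂ) *
      SH g ρ ((Real.exp x / (2 * Real.pi * ρ)) • θ) = U h ρ x θ := by
    intro x
    rw [hSH]
    rfl
  have hU2 : ∀ x : ℝ, U2 h ρ x θ = ((-(PP (od n l) x) : ℝ) : ℂ) * U h ρ x θ := by
    intro x
    unfold U2
    rw [hE]
    unfold U PP od
    push_cast
    ring
  obtain ⟨B, hB⟩ := bounded hn hc hρ θ
  refine ⟨fun x => U1 h ρ x θ, ?_, ?_⟩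
  · refine ⟨fun x => ?_, fun x => ?_, B, fun x hx => ?_⟩
    · simp only [hU]
      exact re_der (U_der h1 hn hc hρ x hθ)
    · simp only [hU]
      have := re_der (U1_der h1 hn hc hρ x hθ)
      rw [hU2, Complex.re_ofReal_mul] at this
      exact this
    · rw [hU]
      exact (Complex.abs_re_le_norm _).trans (hB x hx)
  · refine ⟨fun x => ?_, fun x => ?_, B, fun x hx => ?_⟩
    · simp only [hU]
      exact im_der (U_der h1 hn hc hρ x hθ)
    · simp only [hU]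
      have := im_der (U1_der h1 hn hc hρ x hθ)
      rw [hU2, Complex.im_ofReal_mul] at this
      exact this
    · rw [hU]
      exact (Complex.abs_im_le_norm _).trans (hB x hx)

end Pool.Agent.VRC
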