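import Pool.Agent.VRC.Targets5

set_option autoImplicit false

/-!
# VRC, target RDV: the variation estimate for functions of pure angular degree
-/

namespace Pool.Agent.VRC

open MeasureTheory FourierTransform Set Filter Topology
open scoped ENNReal NNReal
open Pool.Agent.MBS (E ex)
open Pool.Agent.CAR (e1)
open Pool.Agent.CRN (sg SH T_POLN)
open Pool.Agent.CRR (NSol kap)

namespace RDV_

variable {n : ℕ}

theorem ex_meas (x : E n) : Measurable (ex x) :=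
  (Pool.Agent.MBS.ex_continuous.comp (Continuous.prodMk_right x)).measurable

theorem intEx {g : E n → ℂ} {s : Set (E n)} (h : IntegrableOn g s) (x : E n) :
    IntegrableOn (fun ξ => g ξ * ex x ξ) s := by
  refine Integrable.mono h (h.1.mul (ex_meas x).aestronglyMeasurable) (ae_of_all _ fun ξ => ?_)
  rw [norm_mul, Pool.Agent.MBS.ex_norm, mul_one]

theorem int_cont {g : E n → ℂ} {s : Set (E n)} (h : IntegrableOn g s) :
    Continuous (fun x => ∫ ξ in s, g ξ * ex x ξ) := by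
  refine continuous_of_dominated (bound := fun ξ => ‖g ξ‖)
    (fun x => (intEx h x).1) (fun x => ae_of_all _ fun ξ => ?_) h.norm (ae_of_all _ fun ξ => ?_)
  · rw [norm_mul, Pool.Agent.MBS.ex_norm, mul_one]
  · exact continuous_const.mul (Pool.Agent.MBS.ex_continuous.comp (Continuous.prodMk_left ξ))

theorem int_ball {g : E n → ℂ} (hg : Measurable g) (h : ∫⁻ ξ, ‖g ξ‖ₑ ^ 2 ≠ ⊤) (R : ℝ) :
    IntegrableOn g (Metric.closedBall (0 : E n) R) := by
  refine ⟨hg.aestronglyMeasurable, ?_⟩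
  have h1 : ∀ a : ℝ≥0∞, a ≤ 1 + a ^ 2 := by
    intro a
    rcases le_total a 1 with ha | ha
    · exact ha.trans le_self_add
    · calc a = a * 1 := (mul_one a).symm
        _ ≤ a * a := by gcongr
        _ = a ^ 2 := (sq a).symm
        _ ≤ 1 + a ^ 2 := le_add_self
  unfold HasFiniteIntegral
  calc ∫⁻ ξ in Metric.closedBall (0 : E n) R, ‖g ξ‖ₑ
      ≤ ∫⁻ ξ in Metric.closedBall (0 : E n) R, (1 + ‖g ξ‖ₑ ^ 2) := lintegral_mono fun ξ => h1 _
    _ = volume (Metric.closedBall (0 : E n) R) +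
        ∫⁻ ξ in Metric.closedBall (0 : E n) R, ‖g ξ‖ₑ ^ 2 := by
        rw [lintegral_add_left measurable_const, setLIntegral_one]
    _ < ⊤ := by
        refine ENNReal.add_lt_top.2 ⟨measure_closedBall_lt_top, ?_⟩
        exact lt_of_le_of_lt (setLIntegral_le_lintegral _ _) (lt_top_iff_ne_top.2 h)

theorem sh_sub (a b : ℝ) : {ξ : E n | a < ‖ξ‖ ∧ ‖ξ‖ ≤ b} ⊆ Metric.closedBall 0 b := by
  intro ξ h
  rw [mem_closedBall_zero_iff]
  exact h.2

theorem sh_meas (a b : ℝ) : MeasurableSet {ξ : E n | a < ‖ξ‖ ∧ ‖ξ‖ ≤ b} :=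
  (measurableSet_lt measurable_const measurable_norm).inter
    (measurableSet_le measurable_norm measurable_const)

/-- the shell integral -/
noncomputable def sI (g : E n → ℂ) (x : E n) (a b : ℝ) : ℂ :=
  ∫ ξ in {ξ : E n | a < ‖ξ‖ ∧ ‖ξ‖ ≤ b}, g ξ * ex x ξ

theorem VB_meas {g : E n → ℂ} (h : ∀ R : ℝ, IntegrableOn g (Metric.closedBall (0 : E n) R)) :
    Measurable (VB g) := by
  refine LowerSemicontinuous.measurable ?_
  refine lowerSemicontinuous_iSup fun L => lowerSemicontinuous_iSup fun N =>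
    lowerSemicontinuous_iSup fun _ => ?_
  refine Continuous.lowerSemicontinuous ?_
  refine ENNReal.continuous_rpow_const.comp (continuous_finsetSum _ fun j _ => ?_)
  refine (ENNReal.continuous_pow 4).comp ?_
  exact (int_cont ((h (N (j + 1))).mono_set (sh_sub _ _))).enorm

theorem eps_pos (m : ℕ) : (0 : ℝ) < 1 / ((m : ℝ) + 1) := by positivity

theorem lim (hn : 2 ≤ n) {g : E n → ℂ}
    (h : ∀ R : ℝ, IntegrableOn g (Metric.closedBall (0 : E n) R)) (x : E n) (a b : ℝ) :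
    Tendsto (fun m : ℕ => sI g x (max a (1 / ((m : ℝ) + 1))) (max b (1 / ((m : ℝ) + 1))))
      atTop (𝓝 (sI g x a b)) := by
  have : Nonempty (Fin n) := ⟨⟨0, by omega⟩⟩
  have : Nontrivial (E n) := inferInstance
  have e : ∀ a b : ℝ, sI g x a b =
      ∫ ξ, {ξ : E n | a < ‖ξ‖ ∧ ‖ξ‖ ≤ b}.indicator (fun ξ => g ξ * ex x ξ) ξ := fun a b =>
    (integral_indicator (sh_meas a b)).symm
  simp only [e]
  refine tendsto_integral_of_dominated_convergence
    (fun ξ => (Metric.closedBall (0 : E n) (max b 1)).indicator (fun ξ => ‖g ξ‖) ξ) ?_ ?_ ?_ ?_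
  · intro m
    exact ((intEx ((h _).mono_set (sh_sub _ _)) x).integrable_indicator (sh_meas _ _)).1
  · have hI : IntegrableOn (fun ξ => ‖g ξ‖) (Metric.closedBall (0 : E n) (max b 1)) :=
      (h (max b 1)).norm
    exact hI.integrable_indicator measurableSet_closedBall
  · intro m
    refine ae_of_all _ fun ξ => ?_
    by_cases hξ : ξ ∈ {ξ : E n | max a (1 / ((m : ℝ) + 1)) < ‖ξ‖ ∧
        ‖ξ‖ ≤ max b (1 / ((m : ℝ) + 1))}
    · have h1 : (1 : ℝ) / ((m : ℝ) + 1) ≤ 1 := by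
        rw [div_le_one (by positivity)]
        have : (0 : ℝ) ≤ m := Nat.cast_nonneg m
        linarith
      have h2 : ξ ∈ Metric.closedBall (0 : E n) (max b 1) := by
        rw [mem_closedBall_zero_iff]
        exact hξ.2.trans (max_le_max le_rfl h1)
      rw [indicator_of_mem hξ, indicator_of_mem h2, norm_mul, Pool.Agent.MBS.ex_norm, mul_one]
    · rw [indicator_of_notMem hξ, norm_zero]
      exact indicator_nonneg (fun _ _ => norm_nonneg _) _
  · have h0 : ∀ᵐ ξ : E n, ξ ≠ 0 := by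
      have : (volume : Measure (E n)) {(0 : E n)} = 0 := measure_singleton _
      exact compl_mem_ae_iff.2 this
    filter_upwards [h0] with ξ hξ
    have hp : 0 < ‖ξ‖ := norm_pos_iff.2 hξ
    have ht : Tendsto (fun m : ℕ => 1 / ((m : ℝ) + 1)) atTop (𝓝 0) :=
      tendsto_one_div_add_atTop_nhds_zero_nat
    have hev : ∀ᶠ m : ℕ in atTop, 1 / ((m : ℝ) + 1) < ‖ξ‖ := ht.eventually_lt_const hp
    refine tendsto_const_nhds.congr' ?_
    filter_upwards [hev] with m hm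
    have h3 : (ξ ∈ {ξ : E n | a < ‖ξ‖ ∧ ‖ξ‖ ≤ b}) ↔
        (ξ ∈ {ξ : E n | max a (1 / ((m : ℝ) + 1)) < ‖ξ‖ ∧
          ‖ξ‖ ≤ max b (1 / ((m : ℝ) + 1))}) := by
      simp only [mem_ofPred_eq, max_lt_iff, le_max_iff]
      constructor
      · rintro ⟨h4, h5⟩
        exact ⟨⟨h4, hm⟩, Or.inl h5⟩
      · rintro ⟨⟨h4, -⟩, h5⟩
        refine ⟨h4, ?_⟩
        rcases h5 with h5 | h5
        · exact h5
        · exact absurd hm (not_lt.2 h5)
    by_cases h4 : ξ ∈ {ξ : E n | a < ‖ξ‖ ∧ ‖ξ‖ ≤ b}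
    · rw [indicator_of_mem h4, indicator_of_mem (h3.1 h4)]
    · rw [indicator_of_notMem h4, indicator_of_notMem (fun h5 => h4 (h3.2 h5))]

theorem VB_le (hn : 2 ≤ n) {g : E n → ℂ}
    (h : ∀ R : ℝ, IntegrableOn g (Metric.closedBall (0 : E n) R)) {x : E n} {B : ℝ≥0∞}
    (hB : ∀ (L : ℕ) (N : ℕ → ℝ), Monotone N → (∀ j, 0 < N j) →
      (∑ j ∈ Finset.range L, ‖sI g x (N j) (N (j + 1))‖ₑ ^ 4) ^ (1 / 4 : ℝ) ≤ B) :
    VB g x ≤ B := by
  unfold VB
  refine iSup_le fun L => iSup_le fun N => iSup_le fun hN => ?_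
  have hlim : Tendsto (fun m : ℕ => (∑ j ∈ Finset.range L,
      ‖sI g x (max (N j) (1 / ((m : ℝ) + 1))) (max (N (j + 1)) (1 / ((m : ℝ) + 1)))‖ₑ ^ 4) ^
        (1 / 4 : ℝ)) atTop
      (𝓝 ((∑ j ∈ Finset.range L, ‖sI g x (N j) (N (j + 1))‖ₑ ^ 4) ^ (1 / 4 : ℝ))) := by
    refine (ENNReal.continuous_rpow_const.tendsto _).comp ?_
    refine tendsto_finsetSum _ fun j _ => ?_
    refine ((ENNReal.continuous_pow 4).tendsto _).comp ?_
    exact (continuous_enorm.tendsto _).comp (lim hn h x (N j) (N (j + 1)))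
  refine le_of_tendsto' hlim fun m => ?_
  exact hB L (fun j => max (N j) (1 / ((m : ℝ) + 1)))
    (fun i j hij => max_le_max (hN hij) le_rfl) (fun j => lt_max_of_lt_right (eps_pos m))

theorem polar (h4 : T_POLN) (hn : 2 ≤ n) {g : E n → ℂ}
    (h : ∀ R : ℝ, IntegrableOn g (Metric.closedBall (0 : E n) R)) (x : E n) {a b : ℝ}
    (ha : 0 < a) : sI g x a b = ∫ ρ in Ioc a b, SH g ρ x := by
  have hI : Integrable ({ξ : E n | a < ‖ξ‖ ∧ ‖ξ‖ ≤ b}.indicator (fun ξ => g ξ * ex x ξ)) :=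
    (intEx ((h b).mono_set (sh_sub _ _)) x).integrable_indicator (sh_meas _ _)
  have e : ∀ r ∈ Ioi (0 : ℝ), ((r ^ (n - 1) : ℝ) : ℂ) * ∫ ω,
      {ξ : E n | a < ‖ξ‖ ∧ ‖ξ‖ ≤ b}.indicator (fun ξ => g ξ * ex x ξ) (r • (ω : E n)) ∂(sg n) =
      (Ioc a b).indicator (fun ρ => SH g ρ x) r := by
    intro r hr
    have hr0 : (0 : ℝ) < r := hr
    have hnm : ∀ ω : Metric.sphere (0 : E n) 1, ‖r • (ω : E n)‖ = r := by
      intro ω
      rw [norm_smul, Real.norm_of_nonneg hr0.le, mem_sphere_zero_iff_norm.1 ω.2, mul_one]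
    by_cases hrab : r ∈ Ioc a b
    · rw [indicator_of_mem hrab]
      unfold SH
      congr 1
      refine integral_congr_ae (ae_of_all _ fun ω => ?_)
      have : r • (ω : E n) ∈ {ξ : E n | a < ‖ξ‖ ∧ ‖ξ‖ ≤ b} := by
        rw [mem_ofPred_eq, hnm]
        exact hrab
      exact indicator_of_mem this _
    · rw [indicator_of_notMem hrab]
      have : ∀ ω : Metric.sphere (0 : E n) 1,
          {ξ : E n | a < ‖ξ‖ ∧ ‖ξ‖ ≤ b}.indicator (fun ξ => g ξ * ex x ξ) (r • (ω : E n)) = 0 := by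
        intro ω
        refine indicator_of_notMem ?_ _
        rw [mem_ofPred_eq, hnm]
        exact hrab
      simp only [this, integral_zero, mul_zero]
  unfold sI
  rw [← integral_indicator (sh_meas a b), (h4 n (by omega)).2.1 _ hI,
    setIntegral_congr_fun measurableSet_Ioi e, setIntegral_indicator measurableSet_Ioc]
  congr 2
  exact inter_eq_self_of_subset_right fun r hr => ha.trans hr.1

/-! ### changes of variables -/

theorem image_Ioc (V W : ℝ) : (fun v : ℝ => Real.exp v / (2 * Real.pi)) '' Ioc V W =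
    Ioc (Real.exp V / (2 * Real.pi)) (Real.exp W / (2 * Real.pi)) := by
  ext ρ
  constructor
  · rintro ⟨v, hv, rfl⟩
    exact ⟨div_lt_div_of_pos_right (Real.exp_lt_exp.2 hv.1) (by positivity),
      div_le_div_of_nonneg_right (Real.exp_le_exp.2 hv.2) (by positivity)⟩
  · rintro ⟨h0, h1⟩
    have hp : 0 < ρ := lt_trans (by positivity) h0
    refine ⟨Real.log (2 * Real.pi * ρ), ⟨?_, ?_⟩, ?_⟩
    · rw [Real.lt_log_iff_exp_lt (by positivity)]
      rw [div_lt_iff₀ (by positivity)] at h0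
      linarith
    · rw [Real.log_le_iff_le_exp (by positivity)]
      rw [le_div_iff₀ (by positivity)] at h1
      linarith
    · simp only []
      rw [Real.exp_log (by positivity)]
      field_simp

theorem image_univ : (fun v : ℝ => Real.exp v / (2 * Real.pi)) '' univ = Ioi 0 := by
  ext ρ
  constructor
  · rintro ⟨v, hv, rfl⟩
    exact div_pos (Real.exp_pos v) (by positivity)
  · intro h0
    have h0' : 0 < ρ := h0
    refine ⟨Real.log (2 * Real.pi * ρ), mem_univ _, ?_⟩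
    simp only []
    rw [Real.exp_log (by positivity)]
    field_simp

theorem inj : Function.Injective (fun v : ℝ => Real.exp v / (2 * Real.pi)) := by
  intro a b h
  have h2 : Real.exp a / (2 * Real.pi) = Real.exp b / (2 * Real.pi) := h
  rw [div_left_inj' (by positivity)] at h2
  exact Real.exp_injective h2

theorem der (v : ℝ) : HasDerivAt (fun v : ℝ => Real.exp v / (2 * Real.pi))
    (Real.exp v / (2 * Real.pi)) v := (Real.hasDerivAt_exp v).div_const _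

/-- `∫ dr/r = ∫ du` -/
theorem lint_log (φ : ℝ → ℝ≥0∞) :
    ∫⁻ r in Ioi (0 : ℝ), ENNReal.ofReal r⁻¹ * φ (Real.log r) = ∫⁻ u, φ u := by
  have h := lintegral_image_eq_lintegral_abs_deriv_mul (s := univ) MeasurableSet.univ
    (fun x _ => (Real.hasDerivAt_exp x).hasDerivWithinAt) Real.exp_injective.injOn
    (fun r => ENNReal.ofReal r⁻¹ * φ (Real.log r))
  rw [Set.image_univ, Real.range_exp] at h
  rw [h, Measure.restrict_univ]
  refine lintegral_congr fun u => ?_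
  rw [Real.log_exp, abs_of_pos (Real.exp_pos u), ← mul_assoc, ← ENNReal.ofReal_mul
    (Real.exp_pos u).le, mul_inv_cancel₀ (Real.exp_pos u).ne', ENNReal.ofReal_one, one_mul]

theorem lint_G (G : ℝ → ℂ) :
    ∫⁻ v : ℝ, ‖G (Real.exp v / (2 * Real.pi))‖ₑ ^ 2 =
      ∫⁻ ρ in Ioi (0 : ℝ), ‖G ρ‖ₑ ^ 2 * ENNReal.ofReal ρ⁻¹ := by
  have h := lintegral_image_eq_lintegral_abs_deriv_mul (s := univ) MeasurableSet.univ
    (fun x _ => (der x).hasDerivWithinAt) inj.injOn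
    (fun ρ => ‖G ρ‖ₑ ^ 2 * ENNReal.ofReal ρ⁻¹)
  rw [RDV_.image_univ] at h
  rw [h, Measure.restrict_univ]
  refine lintegral_congr fun u => ?_
  have hp : 0 < Real.exp u / (2 * Real.pi) := by positivity
  rw [abs_of_pos hp, mul_comm (‖G (Real.exp u / (2 * Real.pi))‖ₑ ^ 2), ← mul_assoc,
    ← ENNReal.ofReal_mul hp.le, mul_inv_cancel₀ hp.ne', ENNReal.ofReal_one, one_mul]

/-- the integral in `ρ` in the logarithmic variables -/
theorem int_log (G : ℝ → ℂ) (J : ℝ → ℝ) {r a b : ℝ} (hr : 0 < r) (ha : 0 < a) (hb : 0 < b) :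
    ∫ ρ in Ioc a b, G ρ * (J (Real.log (2 * Real.pi * r * ρ)) : ℂ) =
      (((2 * Real.pi * r)⁻¹ : ℝ) : ℂ) *
        ∫ v in Ioc (Real.log (2 * Real.pi * a)) (Real.log (2 * Real.pi * b)),
          kap J (Real.log r + v) * G (Real.exp v / (2 * Real.pi)) := by
  have hV : ∀ R : ℝ, 0 < R → Real.exp (Real.log (2 * Real.pi * R)) / (2 * Real.pi) = R := by
    intro R hR
    rw [Real.exp_log (by positivity)]
    field_simp
  have h := integral_image_eq_integral_abs_deriv_smul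
    (s := Ioc (Real.log (2 * Real.pi * a)) (Real.log (2 * Real.pi * b)))
    measurableSet_Ioc (fun x _ => (der x).hasDerivWithinAt) inj.injOn
    (fun ρ => G ρ * (J (Real.log (2 * Real.pi * r * ρ)) : ℂ))
  rw [image_Ioc, hV a ha, hV b hb] at h
  rw [h, ← integral_const_mul]
  refine integral_congr_ae (Eventually.of_forall fun v => ?_)
  simp only []
  have hp : 0 < Real.exp v / (2 * Real.pi) := by positivity
  have e1 : Real.log (2 * Real.pi * r * (Real.exp v / (2 * Real.pi))) = Real.log r + v := by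
    rw [show 2 * Real.pi * r * (Real.exp v / (2 * Real.pi)) = r * Real.exp v by field_simp,
      Real.log_mul hr.ne' (Real.exp_pos v).ne', Real.log_exp]
  rw [e1, abs_of_pos hp, Complex.real_smul]
  unfold kap
  rw [Real.exp_add, Real.exp_log hr]
  have hpi : (Real.pi : ℂ) ≠ 0 := by exact_mod_cast Real.pi_ne_zero
  have hrc : (r : ℂ) ≠ 0 := by exact_mod_cast hr.ne'
  push_cast
  field_simp

theorem enorm_real {x : ℝ} (hx : 0 ≤ x) : ‖(x : ℂ)‖ₑ = ENNReal.ofReal x := by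
  rw [← ofReal_norm, Complex.norm_real, Real.norm_of_nonneg hx]

theorem pow_eq (hn : 2 ≤ n) {r : ℝ} (hr : 0 < r) :
    r ^ (n - 1) = r * (r ^ (((n : ℝ) - 2) / 2)) ^ 2 := by
  rw [← Real.rpow_natCast (r ^ (((n : ℝ) - 2) / 2)) 2, ← Real.rpow_mul hr.le]
  conv_rhs => rw [← Real.rpow_one r]
  rw [← Real.rpow_mul hr.le, one_mul, ← Real.rpow_add hr, ← Real.rpow_natCast]
  congr 1
  rw [Nat.cast_sub (by omega)]
  push_cast
  ring

/-- the truncated integrals -/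
noncomputable def FF (J : ℝ → ℝ) (h : ℝ → ℂ) (u V W : ℝ) : ℂ :=
  ∫ v in Ioc V W, kap J (u + v) * h v

theorem scale (L : ℕ) (A B : ℕ → ℂ) (c : ℝ≥0∞) (h : ∀ j < L, ‖A j‖ₑ = c * ‖B j‖ₑ) :
    (∑ j ∈ Finset.range L, ‖A j‖ₑ ^ 4) ^ (1 / 4 : ℝ) =
      c * (∑ j ∈ Finset.range L, ‖B j‖ₑ ^ 4) ^ (1 / 4 : ℝ) := by
  have h1 : ∑ j ∈ Finset.range L, ‖A j‖ₑ ^ 4 = c ^ 4 * ∑ j ∈ Finset.range L, ‖B j‖ₑ ^ 4 := by
    rw [Finset.mul_sum]
    refine Finset.sum_congr rfl fun j hj => ?_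
    rw [h j (Finset.mem_range.1 hj), mul_pow]
  rw [h1, ENNReal.mul_rpow_of_nonneg _ _ (by norm_num), ← ENNReal.rpow_natCast c 4,
    ← ENNReal.rpow_mul]
  norm_num

theorem VB_bound (h4 : T_POLN) (hn : 2 ≤ n) {g : E n → ℂ}
    (h : ∀ R : ℝ, IntegrableOn g (Metric.closedBall (0 : E n) R)) {J : ℝ → ℝ}
    {G : ℝ → E n → ℂ} {r : ℝ} {θ : E n} (hr : 0 < r)
    (hG : ∀ ρ : ℝ, 0 < ρ → ((r ^ (((n : ℝ) - 2) / 2) : ℝ) : ℂ) * SH g ρ (r • θ) =
        G ρ θ * J (Real.log (2 * Real.pi * r * ρ))) :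
    ENNReal.ofReal (r ^ (n - 1)) * VB g (r • θ) ^ 2 ≤
      ENNReal.ofReal r⁻¹ *
        V4o (FF J (fun v => G (Real.exp v / (2 * Real.pi)) θ) (Real.log r)) ^ 2 := by
  set w : ℝ := r ^ (((n : ℝ) - 2) / 2) with hw
  have hw0 : 0 < w := Real.rpow_pos_of_pos hr _
  obtain ⟨c, hc⟩ : ∃ c : ℝ, c = w⁻¹ * (2 * Real.pi * r)⁻¹ := ⟨_, rfl⟩
  have hc0 : 0 ≤ c := by rw [hc]; positivity
  set F := FF J (fun v => G (Real.exp v / (2 * Real.pi)) θ) (Real.log r) with hF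
  have key : ∀ a b : ℝ, 0 < a → 0 < b →
      sI g (r • θ) a b = (c : ℂ) * F (Real.log (2 * Real.pi * a)) (Real.log (2 * Real.pi * b)) := by
    intro a b ha hb
    have h1 : (w : ℂ) * sI g (r • θ) a b = (((2 * Real.pi * r)⁻¹ : ℝ) : ℂ) *
        F (Real.log (2 * Real.pi * a)) (Real.log (2 * Real.pi * b)) := by
      rw [polar h4 hn h (r • θ) ha, ← integral_const_mul, hF]
      unfold FF
      rw [← int_log (fun ρ => G ρ θ) J hr ha hb]
      exact setIntegral_congr_fun measurableSet_Ioc fun ρ hρ => hG ρ (ha.trans hρ.1)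
    have hwc : (w : ℂ) ≠ 0 := by exact_mod_cast hw0.ne'
    have h2 : sI g (r • θ) a b = (w : ℂ)⁻¹ * ((w : ℂ) * sI g (r • θ) a b) := by
      rw [← mul_assoc, inv_mul_cancel₀ hwc, one_mul]
    rw [h2, h1, hc]
    push_cast
    ring
  have hVB : VB g (r • θ) ≤ ENNReal.ofReal c * V4o F := by
    refine VB_le hn h fun L N hN hp => ?_
    have hV : Monotone (fun j => Real.log (2 * Real.pi * N j)) := by
      intro i j hij
      have := hp i
      have := hN hij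
      exact Real.log_le_log (by positivity) (by gcongr)
    rw [scale L (fun j => sI g (r • θ) (N j) (N (j + 1)))
      (fun j => F (Real.log (2 * Real.pi * N j)) (Real.log (2 * Real.pi * N (j + 1))))
      (ENNReal.ofReal c) (fun j _ => by
        rw [key _ _ (hp j) (hp (j + 1)), enorm_mul, enorm_real hc0])]
    refine mul_le_mul_right ?_ _
    unfold V4o
    exact le_iSup_of_le L (le_iSup_of_le (fun j => Real.log (2 * Real.pi * N j))
      (le_iSup_of_le hV le_rfl))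
  have h1 : r ^ (n - 1) * c ^ 2 ≤ r⁻¹ := by
    have hpi : 1 ≤ 2 * Real.pi := by linarith [Real.pi_gt_three]
    have h2 : r ^ (n - 1) * c ^ 2 = ((2 * Real.pi) ^ 2)⁻¹ * r⁻¹ := by
      rw [pow_eq hn hr, ← hw, hc]
      field_simp
    rw [h2]
    have h3 : ((2 * Real.pi) ^ 2)⁻¹ ≤ 1 := inv_le_one_of_one_le₀ (one_le_pow₀ hpi)
    calc ((2 * Real.pi) ^ 2)⁻¹ * r⁻¹ ≤ 1 * r⁻¹ := by gcongr
      _ = r⁻¹ := one_mul _
  calc ENNReal.ofReal (r ^ (n - 1)) * VB g (r • θ) ^ 2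
      ≤ ENNReal.ofReal (r ^ (n - 1)) * (ENNReal.ofReal c * V4o F) ^ 2 := by gcongr
    _ = ENNReal.ofReal (r ^ (n - 1) * c ^ 2) * V4o F ^ 2 := by
        rw [ENNReal.ofReal_mul (by positivity), ENNReal.ofReal_pow hc0]
        ring
    _ ≤ ENNReal.ofReal r⁻¹ * V4o F ^ 2 := by gcongr

theorem od_nonneg (hn : 2 ≤ n) (l : ℕ) : 0 ≤ od n l := by
  unfold od
  have h1 : (2 : ℝ) ≤ n := by exact_mod_cast hn
  have h2 : (0 : ℝ) ≤ l := Nat.cast_nonneg l
  linarith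

theorem ray {CH : ℝ≥0} (hH : ∀ (ν : ℝ) (J J' : ℝ → ℝ) (g : ℝ → ℂ), 0 ≤ ν →
    NSol ν J J' → Measurable g →
    ∫⁻ u, V4o (fun V1 V2 => ∫ v in Ioc V1 V2, kap J (u + v) * g v) ^ 2 ≤ CH * ∫⁻ v, ‖g v‖ₑ ^ 2)
    {ν : ℝ} (hν : 0 ≤ ν) {J J' : ℝ → ℝ} {G : ℝ → ℂ} (hGm : Measurable G)
    (hNS : (∀ ρ, G ρ = 0) ∨ NSol ν J J') :
    ∫⁻ r in Ioi (0 : ℝ), ENNReal.ofReal r⁻¹ *
      V4o (FF J (fun v => G (Real.exp v / (2 * Real.pi))) (Real.log r)) ^ 2 ≤
      CH * ∫⁻ ρ in Ioi (0 : ℝ), ‖G ρ‖ₑ ^ 2 * ENNReal.ofReal ρ⁻¹ := by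
  rw [lint_log (fun u => V4o (FF J (fun v => G (Real.exp v / (2 * Real.pi))) u) ^ 2), ← lint_G]
  rcases hNS with h | h
  · have h0 : ∀ u, V4o (FF J (fun v => G (Real.exp v / (2 * Real.pi))) u) = 0 := by
      intro u
      unfold V4o FF
      simp only [h, mul_zero, integral_zero, enorm_zero, ne_eq, OfNat.ofNat_ne_zero,
        not_false_eq_true, zero_pow, Finset.sum_const_zero]
      rw [ENNReal.zero_rpow_of_pos (by norm_num)]
      simp
    simp only [h0, ne_eq, OfNat.ofNat_ne_zero, not_false_eq_true, zero_pow, lintegral_zero]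
    exact zero_le
  · exact hH ν J J' _ hν h (hGm.comp (by fun_prop))

end RDV_

open RDV_ in
theorem p_RDV (h1 : T_HAV) (h2 : T_GMV) (h3 : Pool.Agent.CRN.T_POLN) (_h4 : T_VCM) : T_RDV := by
  intro n hn
  obtain ⟨CH, hH⟩ := h1
  obtain ⟨CG, hG⟩ := h2 n hn
  have hfin : IsFiniteMeasure (sg n) := (h3 n (by omega)).2.2
  refine ⟨CH * CG + 1, fun l g hg hp => ?_⟩
  by_cases hfi : ∫⁻ ξ, ‖g ξ‖ₑ ^ 2 = ⊤
  · rw [hfi, ENNReal.mul_top (by
      push_cast
      exact (lt_of_lt_of_le one_pos le_add_self).ne')]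
    exact le_top
  have hb := int_ball hg hfi
  obtain ⟨J, J', G, hGm, hNS, hco, hsum⟩ := hG l g hg hp
  have hVm : Measurable (fun x => VB g x ^ 2) := (VB_meas hb).pow_const 2
  have hm2 : Measurable (fun q : ℝ × Metric.sphere (0 : E n) 1 =>
      ENNReal.ofReal (q.1 ^ (n - 1)) * VB g (q.1 • (q.2 : E n)) ^ 2) := by
    refine Measurable.mul (by fun_prop) ?_
    exact hVm.comp (by fun_prop)
  calc ∫⁻ x, VB g x ^ 2
      = ∫⁻ r in Ioi (0 : ℝ), ∫⁻ ω, ENNReal.ofReal (r ^ (n - 1)) *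
          VB g (r • (ω : E n)) ^ 2 ∂(sg n) := (h3 n (by omega)).1 _ hVm
    _ = ∫⁻ ω, ∫⁻ r in Ioi (0 : ℝ), ENNReal.ofReal (r ^ (n - 1)) *
          VB g (r • (ω : E n)) ^ 2 ∂(volume : Measure ℝ) ∂(sg n) :=
        lintegral_lintegral_swap hm2.aemeasurable
    _ ≤ ∫⁻ ω, (CH * ∫⁻ ρ in Ioi (0 : ℝ), ‖G ρ (ω : E n)‖ₑ ^ 2 * ENNReal.ofReal ρ⁻¹) ∂(sg n) := by
        refine lintegral_mono fun ω => ?_
        have hω : ‖(ω : E n)‖ = 1 := mem_sphere_zero_iff_norm.1 ω.2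
        have hGω : Measurable (fun ρ => G ρ (ω : E n)) :=
          hGm.comp (measurable_id.prodMk measurable_const)
        refine le_trans ?_ (ray hH (od_nonneg hn l) hGω
          (hNS.imp (fun h ρ => h ρ _) (fun h => h)))
        exact setLIntegral_mono' measurableSet_Ioi fun r hr =>
          VB_bound h3 hn hb hr fun ρ hρ => hco ρ r _ hρ hr hω
    _ = CH * ∫⁻ ω, (∫⁻ ρ in Ioi (0 : ℝ), ‖G ρ (ω : E n)‖ₑ ^ 2 * ENNReal.ofReal ρ⁻¹) ∂(sg n) :=
        lintegral_const_mul' _ _ ENNReal.coe_ne_top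
    _ ≤ CH * (CG * ∫⁻ ξ, ‖g ξ‖ₑ ^ 2) := by gcongr
    _ ≤ ((CH * CG + 1 : ℝ≥0) : ℝ≥0∞) * ∫⁻ ξ, ‖g ξ‖ₑ ^ 2 := by
        rw [← mul_assoc]
        gcongr
        push_cast
        exact le_self_add

end Pool.Agent.VRC
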