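import Pool.Agent.VRC.Targets4

/-!
# VRC: calculus of the 4-variation of interval functions (target VCO)
-/

set_option autoImplicit false

namespace Pool.Agent.VRC

open MeasureTheory FourierTransform Set Filter Topology
open scoped ENNReal NNReal

namespace VCO_

/-- one sum -/
noncomputable def S (F : ℝ → ℝ → ℂ) (L : ℕ) (N : ℕ → ℝ) : ℝ≥0∞ :=
  (∑ j ∈ Finset.range L, ‖F (N j) (N (j + 1))‖ₑ ^ 4) ^ (1 / 4 : ℝ)

lemma S_le (F : ℝ → ℝ → ℂ) (L : ℕ) (N : ℕ → ℝ) (hN : Monotone N) : S F L N ≤ V4o F :=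
  le_iSup_of_le L (le_iSup_of_le N (le_iSup_of_le hN le_rfl))

lemma le_of_S (F : ℝ → ℝ → ℂ) (X : ℝ≥0∞) (h : ∀ L N, Monotone N → S F L N ≤ X) : V4o F ≤ X :=
  iSup_le fun L => iSup_le fun N => iSup_le fun hN => h L N hN

lemma pow_root (x : ℝ≥0∞) : (x ^ 4) ^ (1 / 4 : ℝ) = x := by
  rw [← ENNReal.rpow_natCast, ← ENNReal.rpow_mul]
  norm_num

lemma root_mono {x y : ℝ≥0∞} (h : x ≤ y) : x ^ (1 / 4 : ℝ) ≤ y ^ (1 / 4 : ℝ) :=
  ENNReal.rpow_le_rpow h (by norm_num)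

lemma pow_mono {x y : ℝ≥0∞} (h : x ≤ y) : x ^ 4 ≤ y ^ 4 := by
  gcongr

lemma single_le {s : Finset ℕ} {j : ℕ} (hj : j ∈ s) (x : ℕ → ℝ≥0∞) :
    x j ≤ (∑ i ∈ s, x i ^ 4) ^ (1 / 4 : ℝ) := by
  calc x j = (x j ^ 4) ^ (1 / 4 : ℝ) := (pow_root _).symm
    _ ≤ _ := root_mono (Finset.single_le_sum (f := fun i => x i ^ 4) (fun i _ => zero_le) hj)

/-- Minkowski's inequality in `ℓ⁴`, integral form. -/
lemma mink {α : Type} [MeasurableSpace α] (μ : Measure α) (s : Finset ℕ) (f : ℕ → α → ℝ≥0∞)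
    (hf : ∀ j ∈ s, AEMeasurable (f j) μ) :
    (∑ j ∈ s, (∫⁻ x, f j x ∂μ) ^ 4) ^ (1 / 4 : ℝ) ≤
      ∫⁻ x, (∑ j ∈ s, f j x ^ 4) ^ (1 / 4 : ℝ) ∂μ := by
  set a : ℕ → ℝ≥0∞ := fun j => ∫⁻ x, f j x ∂μ with ha
  set T : ℝ≥0∞ := ∑ j ∈ s, a j ^ 4 with hT
  set I : ℝ≥0∞ := ∫⁻ x, (∑ j ∈ s, f j x ^ 4) ^ (1 / 4 : ℝ) ∂μ with hI
  show T ^ (1 / 4 : ℝ) ≤ I
  by_cases h0 : T = 0
  · rw [h0, ENNReal.zero_rpow_of_pos (by norm_num)]
    exact zero_le
  by_cases h1 : T = ⊤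
  · obtain ⟨j, hj, hj'⟩ := ENNReal.sum_eq_top.mp h1
    have h2 : a j = ⊤ := by
      by_contra hne
      exact (ENNReal.pow_ne_top hne) hj'
    have h3 : a j ≤ I := lintegral_mono fun x => single_le hj (fun i => f i x)
    rw [h2] at h3
    rw [top_le_iff.mp h3]
    exact le_top
  have hpq : (4 / 3 : ℝ).HolderConjugate 4 := by
    rw [Real.holderConjugate_iff]
    norm_num
  have hpt : ∀ x, ∑ j ∈ s, a j ^ 3 * f j x ≤
      T ^ (3 / 4 : ℝ) * (∑ j ∈ s, f j x ^ 4) ^ (1 / 4 : ℝ) := by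
    intro x
    have h2 := ENNReal.inner_le_Lp_mul_Lq s (fun j => a j ^ 3) (fun j => f j x) hpq
    have h3 : ∀ j, (a j ^ 3) ^ (4 / 3 : ℝ) = a j ^ 4 := by
      intro j
      rw [← ENNReal.rpow_natCast, ← ENNReal.rpow_mul, ← ENNReal.rpow_natCast]
      norm_num
    have h4 : ∀ j, (f j x) ^ (4 : ℝ) = f j x ^ 4 := by
      intro j
      rw [← ENNReal.rpow_natCast]
      norm_num
    simp only [h3, h4] at h2
    have h5 : (1 / (4 / 3) : ℝ) = 3 / 4 := by norm_num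
    rw [h5] at h2
    exact h2
  have h6 : T ≤ T ^ (3 / 4 : ℝ) * I := by
    calc T = ∑ j ∈ s, a j ^ 3 * a j := by
          rw [hT]
          exact Finset.sum_congr rfl fun j _ => by ring
      _ = ∑ j ∈ s, ∫⁻ x, a j ^ 3 * f j x ∂μ :=
          Finset.sum_congr rfl fun j hj => (lintegral_const_mul'' _ (hf j hj)).symm
      _ = ∫⁻ x, ∑ j ∈ s, a j ^ 3 * f j x ∂μ :=
          (lintegral_finsetSum' s fun j hj => (hf j hj).const_mul _).symm
      _ ≤ ∫⁻ x, T ^ (3 / 4 : ℝ) * (∑ j ∈ s, f j x ^ 4) ^ (1 / 4 : ℝ) ∂μ := lintegral_mono hpt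
      _ = T ^ (3 / 4 : ℝ) * I :=
          lintegral_const_mul' _ _ (ENNReal.rpow_ne_top_of_nonneg (by norm_num) h1)
  have h7 : T = T ^ (3 / 4 : ℝ) * T ^ (1 / 4 : ℝ) := by
    rw [← ENNReal.rpow_add _ _ h0 h1]
    norm_num
  have h8 : T ^ (3 / 4 : ℝ) ≠ 0 := by
    simp [ENNReal.rpow_eq_zero_iff, h0, h1]
  have h9 : T ^ (3 / 4 : ℝ) ≠ ⊤ := ENNReal.rpow_ne_top_of_nonneg (by norm_num) h1
  by_contra hcon
  push Not at hcon
  have h10 : T ^ (3 / 4 : ℝ) * I < T ^ (3 / 4 : ℝ) * T ^ (1 / 4 : ℝ) :=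
    ENNReal.mul_lt_mul_right h8 h9 hcon
  rw [← h7] at h10
  exact absurd h6 (not_le.mpr h10)

lemma int (α : Type) [MeasurableSpace α] (μ : Measure α) (F : ℝ → ℝ → ℂ) (G : α → ℝ → ℝ → ℂ)
    (hm : ∀ a b, a ≤ b → AEMeasurable (fun s => G s a b) μ)
    (h : ∀ a b, a ≤ b → ‖F a b‖ₑ ≤ ∫⁻ s, ‖G s a b‖ₑ ∂μ) : V4o F ≤ ∫⁻ s, V4o (G s) ∂μ := by
  refine le_of_S F _ fun L N hN => ?_
  have h1 : S F L N ≤
      (∑ j ∈ Finset.range L, (∫⁻ x, ‖G x (N j) (N (j + 1))‖ₑ ∂μ) ^ 4) ^ (1 / 4 : ℝ) :=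
    root_mono (Finset.sum_le_sum fun j _ => pow_mono (h _ _ (hN (Nat.le_succ j))))
  refine h1.trans ((mink μ (Finset.range L) (fun j x => ‖G x (N j) (N (j + 1))‖ₑ)
    (fun j _ => (hm _ _ (hN (Nat.le_succ j))).enorm)).trans ?_)
  exact lintegral_mono fun x => S_le (G x) L N hN

/-- `ℓ⁴ ≤ ℓ¹` -/
lemma l4_le_l1 (s : Finset ℕ) (x : ℕ → ℝ≥0∞) :
    (∑ j ∈ s, x j ^ 4) ^ (1 / 4 : ℝ) ≤ ∑ j ∈ s, x j := by
  have h1 : ∑ j ∈ s, x j ^ 4 ≤ (∑ j ∈ s, x j) ^ 4 := by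
    calc ∑ j ∈ s, x j ^ 4 ≤ ∑ j ∈ s, x j * (∑ i ∈ s, x i) ^ 3 := by
          refine Finset.sum_le_sum fun j hj => ?_
          have h2 : x j ≤ ∑ i ∈ s, x i := Finset.single_le_sum (fun i _ => zero_le) hj
          calc x j ^ 4 = x j * x j ^ 3 := by ring
            _ ≤ _ := by gcongr
      _ = (∑ j ∈ s, x j) ^ 4 := by
          rw [← Finset.sum_mul]
          ring
  calc _ ≤ ((∑ j ∈ s, x j) ^ 4) ^ (1 / 4 : ℝ) := root_mono h1
    _ = _ := pow_root _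

lemma sum_ioc (f : ℝ → ℝ≥0∞) (N : ℕ → ℝ) (hN : Monotone N) (L : ℕ) :
    ∑ j ∈ Finset.range L, ∫⁻ v in Ioc (N j) (N (j + 1)), f v = ∫⁻ v in Ioc (N 0) (N L), f v := by
  induction L with
  | zero => simp
  | succ L ih =>
    rw [Finset.sum_range_succ, ih, ← lintegral_union measurableSet_Ioc,
      Ioc_union_Ioc_eq_Ioc (hN (Nat.zero_le L)) (hN (Nat.le_succ L))]
    exact Ioc_disjoint_Ioc_of_le le_rfl

end VCO_

theorem p_VCO : T_VCO := by
  refine ⟨?_, VCO_.int, ?_, ?_, ?_, ?_, ?_⟩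
  · intro F G h
    have h1 := VCO_.int ℕ Measure.count F G (fun a b _ => (measurable_of_countable _).aemeasurable)
      (fun a b hab => by
        rw [lintegral_count]
        exact h a b hab)
    rw [lintegral_count] at h1
    exact h1
  · intro F a b hab
    have hN : Monotone (fun n : ℕ => if n = 0 then a else b) := by
      intro m n hmn
      show (if m = 0 then a else b) ≤ (if n = 0 then a else b)
      by_cases hm : m = 0
      · by_cases hn : n = 0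
        · rw [if_pos hm, if_pos hn]
        · rw [if_pos hm, if_neg hn]
          exact hab
      · have hn : n ≠ 0 := by omega
        rw [if_neg hm, if_neg hn]
    have h := VCO_.S_le F 1 _ hN
    unfold VCO_.S at h
    rw [Finset.sum_range_one] at h
    have h2 : (if (0 : ℕ) = 0 then a else b) = a := if_pos rfl
    have h3 : (if (0 : ℕ) + 1 = 0 then a else b) = b := if_neg (by norm_num)
    have h4 : (‖F (if (0 : ℕ) = 0 then a else b) (if (0 : ℕ) + 1 = 0 then a else b)‖ₑ ^ 4) ^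
        (1 / 4 : ℝ) ≤ V4o F := h
    rw [h2, h3, VCO_.pow_root] at h4
    exact h4
  · intro F f _ h
    refine VCO_.le_of_S F _ fun L N hN => ?_
    calc VCO_.S F L N ≤ ∑ j ∈ Finset.range L, ‖F (N j) (N (j + 1))‖ₑ :=
          VCO_.l4_le_l1 _ (fun j => ‖F (N j) (N (j + 1))‖ₑ)
      _ ≤ ∑ j ∈ Finset.range L, ∫⁻ v in Ioc (N j) (N (j + 1)), f v :=
          Finset.sum_le_sum fun j _ => h _ _ (hN (Nat.le_succ j))
      _ = ∫⁻ v in Ioc (N 0) (N L), f v := VCO_.sum_ioc f N hN L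
      _ ≤ ∫⁻ v, f v := setLIntegral_le_lintegral _ _
  · intro F G h
    refine VCO_.le_of_S F _ fun L N hN => ?_
    have h1 : Tendsto (fun n => VCO_.S (G n) L N) atTop (𝓝 (VCO_.S F L N)) := by
      unfold VCO_.S
      refine (ENNReal.continuous_rpow_const.tendsto _).comp ?_
      refine tendsto_finsetSum _ fun j _ => ?_
      exact ((ENNReal.continuous_pow 4).tendsto _).comp
        ((continuous_enorm.tendsto _).comp (h _ _ (hN (Nat.le_succ j))))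
    rw [← h1.liminf_eq]
    exact liminf_le_liminf (Eventually.of_forall fun n => VCO_.S_le (G n) L N hN)
  · intro F G c h
    refine VCO_.le_of_S F _ fun L N hN => ?_
    have h1 : VCO_.S F L N ≤
        (∑ j ∈ Finset.range L, (c * ‖G (N j) (N (j + 1))‖ₑ) ^ 4) ^ (1 / 4 : ℝ) :=
      VCO_.root_mono (Finset.sum_le_sum fun j _ => VCO_.pow_mono (h _ _ (hN (Nat.le_succ j))))
    refine h1.trans ?_
    have h2 : ∑ j ∈ Finset.range L, (c * ‖G (N j) (N (j + 1))‖ₑ) ^ 4 =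
        c ^ 4 * ∑ j ∈ Finset.range L, ‖G (N j) (N (j + 1))‖ₑ ^ 4 := by
      rw [Finset.mul_sum]
      exact Finset.sum_congr rfl fun j _ => mul_pow _ _ _
    rw [h2, ENNReal.mul_rpow_of_nonneg _ _ (by norm_num : (0 : ℝ) ≤ 1 / 4), VCO_.pow_root]
    gcongr
    exact VCO_.S_le G L N hN
  · intro F G K h
    have h1 := VCO_.int Bool Measure.count F (fun i => if i then G else K)
      (fun a b _ => (measurable_of_countable _).aemeasurable)
      (fun a b hab => by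
        rw [lintegral_count, tsum_fintype]
        simpa using h a b hab)
    rw [lintegral_count, tsum_fintype] at h1
    simpa using h1

end Pool.Agent.VRC
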