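import Pool.Agent.VRC.Targets4

set_option autoImplicit false

/-!
# VRC: calculus of the 4-variation of sequences (VCS)
-/

namespace Pool.Agent.VRC

open MeasureTheory Set Filter Topology
open scoped ENNReal NNReal

namespace VCS_

/-- finite sums -/
theorem sum_pow_le {ι : Type} (s : Finset ι) (f : ι → ℝ≥0∞) (n : ℕ) :
    ∑ i ∈ s, f i ^ (n + 1) ≤ (∑ i ∈ s, f i) ^ (n + 1) := by
  calc ∑ i ∈ s, f i ^ (n + 1) ≤ ∑ i ∈ s, (∑ j ∈ s, f j) ^ n * f i := by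
        refine Finset.sum_le_sum (fun i hi => ?_)
        rw [pow_succ]
        gcongr
        exact Finset.single_le_sum (fun _ _ => zero_le) hi
    _ = _ := by rw [← Finset.mul_sum, pow_succ]

theorem quart {x : ℝ≥0∞} : (x ^ 4) ^ (1 / 4 : ℝ) = x := by
  rw [← ENNReal.rpow_natCast, ← ENNReal.rpow_mul]
  norm_num

theorem four_le_one {ι : Type} (s : Finset ι) (f : ι → ℝ≥0∞) :
    (∑ i ∈ s, f i ^ 4) ^ (1 / 4 : ℝ) ≤ ∑ i ∈ s, f i := by
  calc _ ≤ ((∑ i ∈ s, f i) ^ 4) ^ (1 / 4 : ℝ) :=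
        ENNReal.rpow_le_rpow (sum_pow_le s f 3) (by norm_num)
    _ = _ := quart

theorem four_le_two {ι : Type} (s : Finset ι) (f : ι → ℝ≥0∞) :
    (∑ i ∈ s, f i ^ 4) ^ (1 / 4 : ℝ) ≤ (∑ i ∈ s, f i ^ 2) ^ (1 / 2 : ℝ) := by
  have h1 : ∑ i ∈ s, f i ^ 4 ≤ (∑ i ∈ s, f i ^ 2) ^ 2 := by
    refine le_trans (le_of_eq ?_) (sum_pow_le s (fun i => f i ^ 2) 1)
    refine Finset.sum_congr rfl (fun i _ => ?_)
    rw [← pow_mul]
  calc _ ≤ ((∑ i ∈ s, f i ^ 2) ^ 2) ^ (1 / 4 : ℝ) := ENNReal.rpow_le_rpow h1 (by norm_num)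
    _ = _ := by
      rw [← ENNReal.rpow_natCast, ← ENNReal.rpow_mul]
      norm_num

theorem four_const (c : ℝ≥0∞) {ι : Type} (s : Finset ι) (f : ι → ℝ≥0∞) :
    (∑ i ∈ s, (c * f i) ^ 4) ^ (1 / 4 : ℝ) = c * (∑ i ∈ s, f i ^ 4) ^ (1 / 4 : ℝ) := by
  have h1 : ∑ i ∈ s, (c * f i) ^ 4 = c ^ 4 * ∑ i ∈ s, f i ^ 4 := by
    rw [Finset.mul_sum]
    exact Finset.sum_congr rfl (fun i _ => mul_pow _ _ _)
  rw [h1, ENNReal.mul_rpow_of_nonneg _ _ (by norm_num), quart]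

theorem four_mono {ι : Type} (s : Finset ι) (f g : ι → ℝ≥0∞) (h : ∀ i ∈ s, f i ≤ g i) :
    (∑ i ∈ s, f i ^ 4) ^ (1 / 4 : ℝ) ≤ (∑ i ∈ s, g i ^ 4) ^ (1 / 4 : ℝ) := by
  refine ENNReal.rpow_le_rpow (Finset.sum_le_sum (fun i hi => ?_)) (by norm_num)
  gcongr
  exact h i hi

theorem four_add {ι : Type} (s : Finset ι) (f g : ι → ℝ≥0∞) :
    (∑ i ∈ s, (f i + g i) ^ 4) ^ (1 / 4 : ℝ) ≤
      (∑ i ∈ s, f i ^ 4) ^ (1 / 4 : ℝ) + (∑ i ∈ s, g i ^ 4) ^ (1 / 4 : ℝ) := by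
  have h1 := ENNReal.Lp_add_le s f g (p := ((4 : ℕ) : ℝ)) (by norm_num)
  simp only [ENNReal.rpow_natCast] at h1
  norm_num at h1 ⊢
  exact h1

/-- Minkowski's inequality for integrals in `ℓ⁴` -/
theorem mink {α : Type} [MeasurableSpace α] (μ : Measure α) {ι : Type} (s : Finset ι)
    (f : ι → α → ℝ≥0∞) (hf : ∀ i, AEMeasurable (f i) μ) :
    (∑ i ∈ s, (∫⁻ x, f i x ∂μ) ^ 4) ^ (1 / 4 : ℝ) ≤
      ∫⁻ x, (∑ i ∈ s, f i x ^ 4) ^ (1 / 4 : ℝ) ∂μ := by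
  obtain ⟨I, hI⟩ : ∃ I : ι → ℝ≥0∞, I = fun i => ∫⁻ x, f i x ∂μ := ⟨_, rfl⟩
  have hI' : ∀ i, ∫⁻ x, f i x ∂μ = I i := fun i => by rw [hI]
  simp only [hI']
  obtain ⟨S, hS⟩ : ∃ S, S = ∑ i ∈ s, I i ^ 4 := ⟨_, rfl⟩
  obtain ⟨R, hR⟩ : ∃ R, R = ∫⁻ x, (∑ i ∈ s, f i x ^ 4) ^ (1 / 4 : ℝ) ∂μ := ⟨_, rfl⟩
  rw [← hS, ← hR]
  have hone : ∀ i ∈ s, I i ≤ R := by
    intro i hi
    rw [← hI', hR]
    refine lintegral_mono (fun x => ?_)
    calc f i x = (f i x ^ 4) ^ (1 / 4 : ℝ) := quart.symm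
      _ ≤ _ := ENNReal.rpow_le_rpow
        (Finset.single_le_sum (f := fun i => f i x ^ 4) (fun _ _ => zero_le) hi) (by norm_num)
  have hmain : S ≤ S ^ (3 / 4 : ℝ) * R := by
    have h1 : S = ∫⁻ x, ∑ i ∈ s, I i ^ 3 * f i x ∂μ := by
      rw [lintegral_finsetSum' s (fun i _ => (hf i).const_mul _), hS]
      refine Finset.sum_congr rfl (fun i _ => ?_)
      rw [lintegral_const_mul'' _ (hf i), hI', ← pow_succ]
    have h2 : ∀ x, ∑ i ∈ s, I i ^ 3 * f i x ≤ S ^ (3 / 4 : ℝ) *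
        (∑ i ∈ s, f i x ^ 4) ^ (1 / 4 : ℝ) := by
      intro x
      have h3 := ENNReal.inner_le_Lp_mul_Lq s (fun i => I i ^ 3) (fun i => f i x)
        (p := 4 / 3) (q := 4) (by
          constructor <;> norm_num)
      refine h3.trans (le_of_eq ?_)
      congr 1
      · have h4 : ∀ i, (I i ^ 3) ^ (4 / 3 : ℝ) = I i ^ 4 := by
          intro i
          rw [← ENNReal.rpow_natCast, ← ENNReal.rpow_mul, ← ENNReal.rpow_natCast]
          norm_num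
        simp only [h4]
        rw [← hS]
        norm_num
      · have h4 : ∀ i, (f i x) ^ (4 : ℝ) = f i x ^ 4 := by
          intro i
          rw [← ENNReal.rpow_natCast]
          norm_num
        simp only [h4]
    calc S = ∫⁻ x, ∑ i ∈ s, I i ^ 3 * f i x ∂μ := h1
      _ ≤ ∫⁻ x, S ^ (3 / 4 : ℝ) * (∑ i ∈ s, f i x ^ 4) ^ (1 / 4 : ℝ) ∂μ := lintegral_mono h2
      _ = S ^ (3 / 4 : ℝ) * R := by
        rw [lintegral_const_mul'', ← hR]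
        exact (Finset.aemeasurable_fun_sum s (fun i _ => (hf i).pow_const 4)).pow_const _
  by_cases h0 : S = 0
  · rw [h0, ENNReal.zero_rpow_of_pos (by norm_num)]
    exact zero_le
  by_cases ht : S = ⊤
  · have h1 : ∃ i ∈ s, I i ^ 4 = ⊤ := by
      rw [hS] at ht
      exact (ENNReal.sum_eq_top).1 ht
    obtain ⟨i, hi, h2⟩ := h1
    have h3 : I i = ⊤ := by
      by_contra h4
      exact (ENNReal.pow_ne_top h4) h2
    have h4 : R = ⊤ := top_unique (h3 ▸ hone i hi)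
    rw [h4]
    exact le_top
  · have hp : S = S ^ (3 / 4 : ℝ) * S ^ (1 / 4 : ℝ) := by
      rw [← ENNReal.rpow_add _ _ h0 ht]
      norm_num
    have h1 : S ^ (3 / 4 : ℝ) ≠ 0 := by
      intro h2
      rw [ENNReal.rpow_eq_zero_iff] at h2
      rcases h2 with h2 | h2
      · exact h0 h2.1
      · exact ht h2.1
    have h2 : S ^ (3 / 4 : ℝ) ≠ ⊤ := ENNReal.rpow_ne_top_of_nonneg (by norm_num) ht
    have h3 : S ^ (3 / 4 : ℝ) * S ^ (1 / 4 : ℝ) ≤ S ^ (3 / 4 : ℝ) * R := by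
      rw [← hp]
      exact hmain
    exact (ENNReal.mul_le_mul_iff_right h1 h2).1 h3

theorem le_V (z : ℕ → ℂ) (L : ℕ) (t : ℕ → ℕ) (ht : Monotone t) :
    (∑ r ∈ Finset.range L, ‖z (t (r + 1)) - z (t r)‖ₑ ^ 4) ^ (1 / 4 : ℝ) ≤ V4s z := by
  unfold V4s
  exact le_iSup_of_le L (le_iSup_of_le t (le_iSup_of_le ht le_rfl))

theorem V_le {z : ℕ → ℂ} {B : ℝ≥0∞} (h : ∀ (L : ℕ) (t : ℕ → ℕ), Monotone t →
    (∑ r ∈ Finset.range L, ‖z (t (r + 1)) - z (t r)‖ₑ ^ 4) ^ (1 / 4 : ℝ) ≤ B) : V4s z ≤ B := by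
  unfold V4s
  exact iSup_le (fun L => iSup_le (fun t => iSup_le (fun ht => h L t ht)))

theorem part2 (α : Type) [MeasurableSpace α] (μ : Measure α) (z : ℕ → ℂ) (y : α → ℕ → ℂ)
    (hy : ∀ a, AEMeasurable (fun s => y s a) μ)
    (h : ∀ a b, a ≤ b → ‖z b - z a‖ₑ ≤ ∫⁻ s, ‖y s b - y s a‖ₑ ∂μ) :
    V4s z ≤ ∫⁻ s, V4s (y s) ∂μ := by
  refine V_le (fun L t ht => ?_)
  calc _ ≤ (∑ r ∈ Finset.range L, (∫⁻ s, ‖y s (t (r + 1)) - y s (t r)‖ₑ ∂μ) ^ 4) ^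
          (1 / 4 : ℝ) := four_mono _ _ _ (fun r _ => h _ _ (ht (Nat.le_succ r)))
    _ ≤ ∫⁻ s, (∑ r ∈ Finset.range L, ‖y s (t (r + 1)) - y s (t r)‖ₑ ^ 4) ^ (1 / 4 : ℝ) ∂μ :=
        mink μ _ (fun r s => ‖y s (t (r + 1)) - y s (t r)‖ₑ)
          (fun r => ((hy _).sub (hy _)).enorm)
    _ ≤ _ := lintegral_mono (fun s => le_V (y s) L t ht)

theorem part1 (z : ℕ → ℂ) (y : ℕ → ℕ → ℂ)
    (h : ∀ a b, a ≤ b → ‖z b - z a‖ₑ ≤ ∑' i, ‖y i b - y i a‖ₑ) : V4s z ≤ ∑' i, V4s (y i) := by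
  have h1 := part2 ℕ Measure.count z y (fun a => (measurable_of_countable _).aemeasurable)
    (fun a b hab => by
      rw [lintegral_count]
      exact h a b hab)
  rwa [lintegral_count] at h1

theorem part3 (z : ℕ → ℂ) (a b : ℕ) (hab : a ≤ b) : ‖z b - z a‖ₑ ≤ V4s z := by
  have h1 := le_V z 1 (fun r => if r = 0 then a else b) (by
    refine monotone_nat_of_le_succ (fun n => ?_)
    by_cases hn : n = 0
    · simp [hn, hab]
    · simp [hn])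
  rw [Finset.sum_range_one, quart] at h1
  simpa using h1

theorem inj1 {t : ℕ → ℕ} (ht : Monotone t) {r r' : ℕ} (h : t r < t (r + 1))
    (h' : t r' < t (r' + 1)) (he : t r = t r') : r = r' := by
  rcases lt_trichotomy r r' with h1 | h1 | h1
  · have h2 : t (r + 1) ≤ t r' := ht h1
    omega
  · exact h1
  · have h2 : t (r' + 1) ≤ t r := ht h1
    omega

theorem inj2 {t : ℕ → ℕ} (ht : Monotone t) {r r' : ℕ} (h : t r < t (r + 1))
    (h' : t r' < t (r' + 1)) (he : t (r + 1) = t (r' + 1)) : r = r' := by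
  rcases lt_trichotomy r r' with h1 | h1 | h1
  · have h2 : t (r + 1) ≤ t r' := ht h1
    omega
  · exact h1
  · have h2 : t (r' + 1) ≤ t r := ht h1
    omega

theorem sq_sub (a b : ℂ) : ‖a - b‖ₑ ^ 2 ≤ 2 * ‖b‖ₑ ^ 2 + 2 * ‖a‖ₑ ^ 2 := by
  have h1 := ENNReal.rpow_add_le_mul_rpow_add_rpow ‖a‖ₑ ‖b‖ₑ (p := ((2 : ℕ) : ℝ)) (by norm_num)
  simp only [ENNReal.rpow_natCast] at h1
  calc ‖a - b‖ₑ ^ 2 ≤ (‖a‖ₑ + ‖b‖ₑ) ^ 2 := by
        gcongr
        exact enorm_sub_le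
    _ ≤ 2 ^ (((2 : ℕ) : ℝ) - 1) * (‖a‖ₑ ^ 2 + ‖b‖ₑ ^ 2) := h1
    _ = _ := by
        norm_num
        ring

theorem part4 (z : ℕ → ℂ) : V4s z ≤ 2 * (∑' n, ‖z n‖ₑ ^ 2) ^ (1 / 2 : ℝ) := by
  classical
  refine V_le (fun L t ht => ?_)
  obtain ⟨S, hS⟩ : ∃ S, S = ∑' n, ‖z n‖ₑ ^ 2 := ⟨_, rfl⟩
  rw [← hS]
  refine (four_le_two _ _).trans ?_
  have h1 : ∑ r ∈ Finset.range L, ‖z (t (r + 1)) - z (t r)‖ₑ ^ 2 ≤ 4 * S := by
    have h2 : ∑ r ∈ Finset.range L, ‖z (t (r + 1)) - z (t r)‖ₑ ^ 2 =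
        ∑ r ∈ (Finset.range L).filter (fun r => t r < t (r + 1)),
          ‖z (t (r + 1)) - z (t r)‖ₑ ^ 2 := by
      symm
      refine Finset.sum_subset (Finset.filter_subset _ _) (fun r hr hr' => ?_)
      have h3 : ¬ t r < t (r + 1) := fun h4 => hr' (Finset.mem_filter.2 ⟨hr, h4⟩)
      have h4 : t (r + 1) = t r := le_antisymm (not_lt.1 h3) (ht (Nat.le_succ r))
      rw [h4, sub_self, enorm_zero]
      norm_num
    have h3 : ∑ r ∈ (Finset.range L).filter (fun r => t r < t (r + 1)), ‖z (t r)‖ₑ ^ 2 ≤ S := by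
      rw [← Finset.sum_image (f := fun n => ‖z n‖ₑ ^ 2) (g := t), hS]
      · exact ENNReal.sum_le_tsum _
      · intro r hr r' hr' he
        exact inj1 ht (Finset.mem_filter.1 hr).2 (Finset.mem_filter.1 hr').2 he
    have h4 : ∑ r ∈ (Finset.range L).filter (fun r => t r < t (r + 1)), ‖z (t (r + 1))‖ₑ ^ 2 ≤
        S := by
      rw [← Finset.sum_image (f := fun n => ‖z n‖ₑ ^ 2) (g := fun r => t (r + 1)), hS]
      · exact ENNReal.sum_le_tsum _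
      · intro r hr r' hr' he
        exact inj2 ht (Finset.mem_filter.1 hr).2 (Finset.mem_filter.1 hr').2 he
    rw [h2]
    calc _ ≤ ∑ r ∈ (Finset.range L).filter (fun r => t r < t (r + 1)),
          (2 * ‖z (t r)‖ₑ ^ 2 + 2 * ‖z (t (r + 1))‖ₑ ^ 2) :=
          Finset.sum_le_sum (fun r _ => sq_sub _ _)
      _ ≤ 2 * S + 2 * S := by
          rw [Finset.sum_add_distrib, ← Finset.mul_sum, ← Finset.mul_sum]
          gcongr
      _ = 4 * S := by ring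
  calc _ ≤ (4 * S) ^ (1 / 2 : ℝ) := ENNReal.rpow_le_rpow h1 (by norm_num)
    _ = _ := by
      rw [ENNReal.mul_rpow_of_nonneg _ _ (by norm_num)]
      congr 1
      have h5 : (4 : ℝ≥0∞) = 2 ^ ((2 : ℕ) : ℝ) := by
        rw [ENNReal.rpow_natCast]
        norm_num
      rw [h5, ← ENNReal.rpow_mul]
      norm_num

theorem part5 (z : ℕ → ℂ) (y : ℕ → ℕ → ℂ)
    (h : ∀ a, Tendsto (fun n => y n a) atTop (𝓝 (z a))) :
    V4s z ≤ liminf (fun n => V4s (y n)) atTop := by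
  refine V_le (fun L t ht => ?_)
  have h1 : Tendsto (fun n => (∑ r ∈ Finset.range L, ‖y n (t (r + 1)) - y n (t r)‖ₑ ^ 4) ^
      (1 / 4 : ℝ)) atTop (𝓝 ((∑ r ∈ Finset.range L, ‖z (t (r + 1)) - z (t r)‖ₑ ^ 4) ^
      (1 / 4 : ℝ))) := by
    refine (ENNReal.continuous_rpow_const.tendsto _).comp ?_
    refine tendsto_finsetSum _ (fun r _ => ?_)
    refine ((ENNReal.continuous_pow 4).tendsto _).comp ?_
    exact ((h _).sub (h _)).enorm
  rw [← h1.liminf_eq]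
  exact liminf_le_liminf (Eventually.of_forall (fun n => le_V (y n) L t ht))

theorem part6 (z y : ℕ → ℂ) (c : ℝ≥0∞)
    (h : ∀ a b, a ≤ b → ‖z b - z a‖ₑ ≤ c * ‖y b - y a‖ₑ) : V4s z ≤ c * V4s y := by
  refine V_le (fun L t ht => ?_)
  calc _ ≤ (∑ r ∈ Finset.range L, (c * ‖y (t (r + 1)) - y (t r)‖ₑ) ^ 4) ^ (1 / 4 : ℝ) :=
        four_mono _ _ _ (fun r _ => h _ _ (ht (Nat.le_succ r)))
    _ = c * (∑ r ∈ Finset.range L, ‖y (t (r + 1)) - y (t r)‖ₑ ^ 4) ^ (1 / 4 : ℝ) :=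
        four_const _ _ _
    _ ≤ _ := by
        gcongr
        exact le_V y L t ht

theorem abel (m y : ℕ → ℂ) (a k : ℕ) :
    ∑ i ∈ Finset.Ico a (a + k + 1), m i * (y (i + 1) - y i) =
      m (a + k) * (y (a + k + 1) - y a) -
        ∑ i ∈ Finset.Ico a (a + k), (m (i + 1) - m i) * (y (i + 1) - y a) := by
  induction k with
  | zero => simp
  | succ k ih =>
    rw [Finset.sum_Ico_succ_top (by omega), ← add_assoc, ih,
      Finset.sum_Ico_succ_top (by omega)]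
    ring

theorem step7 (z y m : ℕ → ℂ) (K K' : ℝ≥0∞)
    (h : ∀ a b, a ≤ b → z b - z a = ∑ i ∈ Finset.Ico a b, m i * (y (i + 1) - y i))
    (hK : ∀ i, ‖m i‖ₑ ≤ K) (hK' : ∑' i, ‖m (i + 1) - m i‖ₑ ≤ K') (a b : ℕ) (hab : a ≤ b) :
    ∃ c, a ≤ c ∧ c ≤ b ∧ ‖z b - z a‖ₑ ≤ (K + K') * ‖y c - y a‖ₑ := by
  rcases hab.eq_or_lt with he | hlt
  · refine ⟨a, le_rfl, hab, ?_⟩
    rw [← he, sub_self, enorm_zero]
    exact zero_le
  · obtain ⟨c, hc, hmax⟩ := Finset.exists_max_image (Finset.Icc a b) (fun i => ‖y i - y a‖ₑ)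
      ⟨a, Finset.mem_Icc.2 ⟨le_rfl, hab⟩⟩
    rw [Finset.mem_Icc] at hc
    refine ⟨c, hc.1, hc.2, ?_⟩
    obtain ⟨k, hk⟩ : ∃ k, b = a + k + 1 := ⟨b - a - 1, by omega⟩
    rw [h a b hab, hk, abel]
    have h1 : ‖y (a + k + 1) - y a‖ₑ ≤ ‖y c - y a‖ₑ :=
      hmax _ (Finset.mem_Icc.2 ⟨by omega, by omega⟩)
    have h2 : ‖∑ i ∈ Finset.Ico a (a + k), (m (i + 1) - m i) * (y (i + 1) - y a)‖ₑ ≤
        K' * ‖y c - y a‖ₑ := by
      calc _ ≤ ∑ i ∈ Finset.Ico a (a + k), ‖(m (i + 1) - m i) * (y (i + 1) - y a)‖ₑ :=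
            enorm_sum_le _ _
        _ ≤ ∑ i ∈ Finset.Ico a (a + k), ‖m (i + 1) - m i‖ₑ * ‖y c - y a‖ₑ := by
            refine Finset.sum_le_sum (fun i hi => ?_)
            rw [Finset.mem_Ico] at hi
            rw [enorm_mul]
            gcongr
            exact hmax _ (Finset.mem_Icc.2 ⟨by omega, by omega⟩)
        _ ≤ _ := by
            rw [← Finset.sum_mul]
            gcongr
            exact (ENNReal.sum_le_tsum _).trans hK'
    calc _ ≤ ‖m (a + k) * (y (a + k + 1) - y a)‖ₑ +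
          ‖∑ i ∈ Finset.Ico a (a + k), (m (i + 1) - m i) * (y (i + 1) - y a)‖ₑ := enorm_sub_le
      _ ≤ K * ‖y c - y a‖ₑ + K' * ‖y c - y a‖ₑ := by
          rw [enorm_mul]
          gcongr
          exact hK _
      _ = _ := by rw [add_mul]

theorem even_le (g : ℕ → ℝ≥0∞) (L : ℕ) :
    ∑ r ∈ Finset.range L, g (2 * r) ≤ ∑ s ∈ Finset.range (2 * L), g s := by
  induction L with
  | zero => simp
  | succ L ih =>
    rw [Finset.sum_range_succ, show 2 * (L + 1) = 2 * L + 1 + 1 by ring,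
      Finset.sum_range_succ, Finset.sum_range_succ]
    calc _ ≤ ∑ s ∈ Finset.range (2 * L), g s + g (2 * L) := by gcongr
      _ ≤ _ := le_self_add

theorem part7 (z y m : ℕ → ℂ) (K K' : ℝ≥0∞)
    (h : ∀ a b, a ≤ b → z b - z a = ∑ i ∈ Finset.Ico a b, m i * (y (i + 1) - y i))
    (hK : ∀ i, ‖m i‖ₑ ≤ K) (hK' : ∑' i, ‖m (i + 1) - m i‖ₑ ≤ K') :
    V4s z ≤ (K + K') * V4s y := by
  refine V_le (fun L t ht => ?_)
  have h1 : ∀ r, ∃ c, t r ≤ c ∧ c ≤ t (r + 1) ∧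
      ‖z (t (r + 1)) - z (t r)‖ₑ ≤ (K + K') * ‖y c - y (t r)‖ₑ :=
    fun r => step7 z y m K K' h hK hK' _ _ (ht (Nat.le_succ r))
  choose c hc1 hc2 hc3 using h1
  obtain ⟨τ, hτ⟩ : ∃ τ : ℕ → ℕ, τ = fun n => if n % 2 = 0 then t (n / 2) else c (n / 2) :=
    ⟨_, rfl⟩
  have hev : ∀ r, τ (2 * r) = t r := by
    intro r
    rw [hτ]
    simp
  have hodd : ∀ r, τ (2 * r + 1) = c r := by
    intro r
    rw [hτ]
    have h2 : (2 * r + 1) % 2 = 1 := by omega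
    have h3 : (2 * r + 1) / 2 = r := by omega
    simp [h2, h3]
  have hmono : Monotone τ := by
    refine monotone_nat_of_le_succ (fun n => ?_)
    rcases Nat.even_or_odd' n with ⟨r, hr | hr⟩
    · rw [hr, hev, hodd]
      exact hc1 r
    · rw [hr, hodd, show 2 * r + 1 + 1 = 2 * (r + 1) by ring, hev]
      exact hc2 r
  calc _ ≤ (∑ r ∈ Finset.range L, ((K + K') * ‖y (c r) - y (t r)‖ₑ) ^ 4) ^ (1 / 4 : ℝ) :=
        four_mono _ _ _ (fun r _ => hc3 r)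
    _ = (K + K') * (∑ r ∈ Finset.range L, ‖y (c r) - y (t r)‖ₑ ^ 4) ^ (1 / 4 : ℝ) :=
        four_const _ _ _
    _ ≤ _ := by
        gcongr
        refine le_trans (ENNReal.rpow_le_rpow ?_ (by norm_num)) (le_V y (2 * L) τ hmono)
        have h4 := even_le (fun s => ‖y (τ (s + 1)) - y (τ s)‖ₑ ^ 4) L
        refine le_trans (le_of_eq ?_) h4
        refine Finset.sum_congr rfl (fun r _ => ?_)
        rw [hodd, hev]

theorem part9 (z : ℕ → ℂ) : V4s z ≤ ∑' n, ‖z (n + 1) - z n‖ₑ := by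
  refine V_le (fun L t ht => ?_)
  refine (four_le_one _ _).trans ?_
  have h1 : ∀ a k, ‖z (a + k) - z a‖ₑ ≤ ∑ i ∈ Finset.Ico a (a + k), ‖z (i + 1) - z i‖ₑ := by
    intro a k
    induction k with
    | zero => simp
    | succ k ih =>
      rw [← add_assoc, Finset.sum_Ico_succ_top (by omega)]
      have h2 : z (a + k + 1) - z a = (z (a + k) - z a) + (z (a + k + 1) - z (a + k)) := by ring
      rw [h2]
      exact (enorm_add_le _ _).trans (add_le_add ih le_rfl)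
  have h2 : ∀ L : ℕ, ∑ r ∈ Finset.range L, ‖z (t (r + 1)) - z (t r)‖ₑ ≤
      ∑ i ∈ Finset.Ico (t 0) (t L), ‖z (i + 1) - z i‖ₑ := by
    intro L
    induction L with
    | zero => simp
    | succ L ih =>
      rw [Finset.sum_range_succ]
      have h3 : t L ≤ t (L + 1) := ht (Nat.le_succ L)
      have h4 := h1 (t L) (t (L + 1) - t L)
      rw [Nat.add_sub_cancel' h3] at h4
      refine (add_le_add ih h4).trans (le_of_eq ?_)
      exact Finset.sum_Ico_consecutive _ (ht (Nat.zero_le L)) h3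
  exact (h2 L).trans (ENNReal.sum_le_tsum _)

theorem part10 (z y x : ℕ → ℂ)
    (h : ∀ a b, a ≤ b → ‖z b - z a‖ₑ ≤ ‖y b - y a‖ₑ + ‖x b - x a‖ₑ) :
    V4s z ≤ V4s y + V4s x := by
  refine V_le (fun L t ht => ?_)
  calc _ ≤ (∑ r ∈ Finset.range L, (‖y (t (r + 1)) - y (t r)‖ₑ +
          ‖x (t (r + 1)) - x (t r)‖ₑ) ^ 4) ^ (1 / 4 : ℝ) :=
        four_mono _ _ _ (fun r _ => h _ _ (ht (Nat.le_succ r)))
    _ ≤ _ := four_add _ _ _
    _ ≤ _ := add_le_add (le_V y L t ht) (le_V x L t ht)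

theorem part8 (z : ℕ → ℂ) (F : ℝ → ℝ → ℂ) (N : ℕ → ℝ) (hN : Monotone N)
    (h : ∀ a b, a ≤ b → z b - z a = F (N a) (N b)) : V4s z ≤ V4o F := by
  refine V_le (fun L t ht => ?_)
  unfold V4o
  refine le_iSup_of_le L (le_iSup_of_le (fun r => N (t r))
    (le_iSup_of_le (hN.comp ht) (le_of_eq ?_)))
  congr 1
  refine Finset.sum_congr rfl (fun r _ => ?_)
  rw [h _ _ (ht (Nat.le_succ r))]

end VCS_

open VCS_ in
theorem p_VCS : T_VCS :=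
  ⟨part1, fun α _ μ z y hy h => part2 α μ z y hy h, part3, part4, part5, part6, part7, part8,
    part9, part10⟩

end Pool.Agent.VRC
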