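import Pool.Agent.VRC.Targets
import Pool.Agent.CAR.P_WTI

set_option autoImplicit false

namespace Pool.Agent.VRC

open MeasureTheory Set ComplexConjugate Filter Topology
open scoped ENNReal NNReal
open Pool.Agent.CAR

namespace VDNB_

theorem wt_nonneg (n : ℕ) (t : ℝ) : 0 ≤ wt n t := by
  unfold wt
  positivity

theorem wt_le_one (n : ℕ) (t : ℝ) : wt n t ≤ 1 := by
  unfold wt
  apply inv_le_one_of_one_le₀
  exact one_le_pow₀ (by linarith [abs_nonneg t])

end VDNB_

open VDNB_ in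
theorem p_VDNB (h1 : T_VBAS) : T_VDNB := by
  intro L p q a E hpq hab u
  obtain ⟨_, _, _, hv, _, _, _⟩ := h1 L p q a 1 E hpq hab
  have hv0 : ∀ x, 0 ≤ vm L p a u.om x := fun x => (hv u.om x).1
  have hv1 : ∀ x, vm L p a u.om x ≤ 1 := fun x => by
    have := (hv u.om x).2.1
    rwa [Real.one_rpow] at this
  have hvE : ∀ x, x ∉ E → vm L p a u.om x = 0 := fun x => (hv u.om x).2.2
  obtain ⟨hint, hle⟩ := p_WTI 8 u.k u.l (by norm_num)
  have hpos : (0 : ℝ) < (2 : ℝ) ^ (-u.k) := two_zpow_pos _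
  have hf : (fun x => (2 : ℝ) ^ (-u.k) * wt 8 (u.u x)) =
      fun x => (2 : ℝ) ^ (-u.k) * wt 8 ((2 : ℝ) ^ (-u.k) * x - u.l) := rfl
  have hint' : Integrable (fun x => (2 : ℝ) ^ (-u.k) * wt 8 (u.u x)) := by
    rw [hf]
    exact hint.const_mul _
  have hnn : ∀ x, 0 ≤ (2 : ℝ) ^ (-u.k) * (wt 8 (u.u x) * vm L p a u.om x) := fun x =>
    mul_nonneg hpos.le (mul_nonneg (wt_nonneg _ _) (hv0 x))
  refine ⟨integral_nonneg hnn, ?_, ?_⟩
  · unfold vdn
    refine (integral_mono_of_nonneg (Filter.Eventually.of_forall hnn) hint'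
      (Filter.Eventually.of_forall fun x => ?_)).trans ?_
    · exact mul_le_mul_of_nonneg_left (mul_le_of_le_one_right (wt_nonneg _ _) (hv1 x)) hpos.le
    rw [hf, integral_const_mul]
    calc (2 : ℝ) ^ (-u.k) * ∫ x, wt 8 ((2 : ℝ) ^ (-u.k) * x - u.l)
        ≤ (2 : ℝ) ^ (-u.k) * (2 * (2 : ℝ) ^ u.k) := mul_le_mul_of_nonneg_left hle hpos.le
      _ = 2 * ((2 : ℝ) ^ (-u.k) * (2 : ℝ) ^ u.k) := by ring
      _ = 2 := by rw [two_zpow_neg_mul, mul_one]
  · unfold vdn
    have hi : Integrable (E.indicator fun _ : ℝ => (2 : ℝ) ^ (-u.k)) :=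
      (integrable_indicator_iff hab.mE).2 (integrableOn_const hab.fE (by simp))
    refine (integral_mono_of_nonneg (Filter.Eventually.of_forall hnn) hi
      (Filter.Eventually.of_forall fun x => ?_)).trans ?_
    · show (2 : ℝ) ^ (-u.k) * (wt 8 (u.u x) * vm L p a u.om x) ≤
        E.indicator (fun _ : ℝ => (2 : ℝ) ^ (-u.k)) x
      by_cases hx : x ∈ E
      · rw [indicator_of_mem hx]
        have h2 : wt 8 (u.u x) * vm L p a u.om x ≤ 1 :=
          mul_le_one₀ (wt_le_one _ _) (hv0 x) (hv1 x)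
        exact mul_le_of_le_one_right hpos.le h2
      · rw [indicator_of_notMem hx, hvE x hx]
        simp
    rw [integral_indicator hab.mE, setIntegral_const, smul_eq_mul, mul_comm]
    exact le_refl _

end Pool.Agent.VRC
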