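import Pool.Agent.VRC.Targets
import Pool.Agent.CAR.P_WPEX

set_option autoImplicit false

/-!
# VRC: the bump and the numerical inequality (helper23)
-/

namespace Pool.Agent.VRC

open MeasureTheory Set ComplexConjugate Filter Topology
open scoped ENNReal NNReal SchwartzMap FourierTransform ContDiff
open Pool.Agent.CAR

namespace VGB_

open Pool.Agent.CAR.WPEX_ (e1_add norm_e1 continuous_e1 wt_shift)

/-! ### the bump -/

/-- the bump, centre `33/256`, radius `1/256` -/
noncomputable def bq : ContDiffBump (33 / 256 : ℝ) := ⟨1 / 512, 1 / 256, by norm_num, by norm_num⟩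

/-- complex valued -/
noncomputable def bc (x : ℝ) : ℂ := ((bq x : ℝ) : ℂ)

theorem bc_smooth : ContDiff ℝ ∞ bc := by
  unfold bc
  exact Complex.ofRealCLM.contDiff.comp bq.contDiff

theorem bc_cpt : HasCompactSupport bc := by
  have h : HasCompactSupport (bq : ℝ → ℝ) := bq.hasCompactSupport
  exact h.comp_left (g := fun r : ℝ => (r : ℂ)) (by simp)

/-- as a Schwartz function -/
noncomputable def bS : 𝓢(ℝ, ℂ) := bc_cpt.toSchwartzMap bc_smooth

theorem bS_apply (x : ℝ) : bS x = ((bq x : ℝ) : ℂ) := rfl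

/-- the inverse Fourier transform -/
noncomputable def ph : 𝓢(ℝ, ℂ) := 𝓕⁻ bS

theorem ph_apply (x : ℝ) : ph x = ∫ ξ, ((bq ξ : ℝ) : ℂ) * e1 (x * ξ) := by
  have h : (ph : ℝ → ℂ) = 𝓕⁻ (bS : ℝ → ℂ) := SchwartzMap.fourierInv_coe bS
  rw [h, Real.fourierInv_eq']
  refine integral_congr_ae (Eventually.of_forall fun ξ => ?_)
  simp only [bS_apply, smul_eq_mul]
  rw [mul_comm]
  congr 1
  unfold e1
  congr 1
  simp only [RCLike.inner_apply, conj_trivial]
  push_cast
  ring

theorem ph_inv (ξ : ℝ) : ((bq ξ : ℝ) : ℂ) = ∫ x, ph x * e1 (-(x * ξ)) := by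
  have h1 : 𝓕 ph = bS := by
    unfold ph
    exact FourierTransform.fourier_fourierInv_eq bS
  have h2 : 𝓕 (ph : ℝ → ℂ) = (bS : ℝ → ℂ) := by
    rw [← SchwartzMap.fourier_coe, h1]
  have h3 := congrFun h2 ξ
  rw [Real.fourier_eq'] at h3
  rw [← bS_apply, ← h3]
  refine integral_congr_ae (Eventually.of_forall fun x => ?_)
  simp only [smul_eq_mul]
  rw [mul_comm]
  congr 1
  unfold e1
  congr 1
  simp only [RCLike.inner_apply, conj_trivial]
  push_cast
  ring

theorem pk_eq (v x : ℝ) : pk (fun ξ => bq ξ) v x = ph (x - v) := by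
  unfold pk
  rw [ph_apply]

theorem ph_dec : ∃ C : ℝ, 0 < C ∧ ∀ x, ‖ph x‖ ≤ C * wt 20 x := by
  have h := SchwartzMap.one_add_le_sup_seminorm_apply (𝕜 := ℂ) (m := (20, 0)) (k := 20) (n := 0)
    le_rfl le_rfl ph
  set C : ℝ := 2 ^ 20 * (Finset.Iic ((20, 0) : ℕ × ℕ)).sup
    (fun m => SchwartzMap.seminorm ℂ m.1 m.2) ph with hC
  have hC0 : 0 ≤ C := by positivity
  refine ⟨C + 1, by linarith, fun x => ?_⟩
  have h1 := h x
  rw [norm_iteratedFDeriv_zero, Real.norm_eq_abs] at h1
  have hp : 0 < (1 + |x|) ^ 20 := by positivity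
  unfold wt
  rw [← div_eq_mul_inv, le_div_iff₀ hp]
  calc ‖ph x‖ * (1 + |x|) ^ 20 = (1 + |x|) ^ 20 * ‖ph x‖ := by ring
    _ ≤ C := h1
    _ ≤ C + 1 := by linarith

theorem bq_supp {ξ : ℝ} (h : bq ξ ≠ 0) : 1 / 8 < ξ ∧ ξ < 17 / 128 := by
  have h1 : ξ ∈ Function.support (bq : ℝ → ℝ) := h
  rw [bq.support_eq, Metric.mem_ball, Real.dist_eq, abs_lt] at h1
  have hr : bq.rOut = 1 / 256 := rfl
  rw [hr] at h1
  constructor <;> linarith [h1.1, h1.2]

theorem bmp : ∃ A : ℝ, Bmp A (fun ξ => bq ξ) := by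
  obtain ⟨C, hC, hdec⟩ := ph_dec
  have hA1 : (1 : ℝ) ≤ 2 ^ 20 * C + 1 := by
    have : 0 < 2 ^ 20 * C := by positivity
    linarith
  have hsupp : ∀ ξ, bq ξ ≠ 0 → ξ ∈ Icc (1 / 8 : ℝ) (3 / 8) := by
    intro ξ h
    have h1 := bq_supp h
    constructor <;> linarith [h1.1, h1.2]
  refine ⟨2 ^ 20 * C + 1, ?_, hsupp, ?_, ?_⟩
  · exact bq.continuous
  · refine ⟨33 / 256, ?_⟩
    have : bq (33 / 256 : ℝ) = 1 := by
      apply bq.one_of_mem_closedBall
      rw [Metric.mem_closedBall, dist_self]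
      exact bq.rIn_pos.le
    rw [this]
    exact one_ne_zero
  · intro v hv
    refine ⟨by linarith, ?_, ?_, ?_, ?_, ?_, ?_, ?_⟩
    · have h : pk (fun ξ => bq ξ) v = fun x => ph (x - v) := funext fun x => pk_eq v x
      rw [h]
      exact ph.continuous.comp (by fun_prop)
    · unfold pkf
      exact (Complex.continuous_ofReal.comp bq.continuous).mul
        (continuous_e1.comp (by fun_prop))
    · intro ξ h
      apply hsupp
      intro h0
      apply h
      unfold pkf
      simp [h0]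
    · intro ξ
      unfold pkf
      rw [norm_mul, norm_e1, mul_one, Complex.norm_real, Real.norm_eq_abs,
        abs_of_nonneg bq.nonneg]
      exact bq.le_one.trans hA1
    · intro x
      rw [pk_eq]
      have hw : 0 ≤ wt 20 x := by unfold wt; positivity
      calc ‖ph (x - v)‖ ≤ C * wt 20 (x - v) := hdec _
        _ ≤ C * (2 ^ 20 * wt 20 x) := mul_le_mul_of_nonneg_left (wt_shift hv) hC.le
        _ ≤ (2 ^ 20 * C + 1) * wt 20 x := by nlinarith
    · intro x
      unfold pk pkf
      refine integral_congr_ae (Eventually.of_forall fun ξ => ?_)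
      simp only
      rw [mul_assoc, ← e1_add]
      congr 2
      ring
    · intro ξ
      unfold pkf
      rw [ph_inv ξ, ← integral_mul_const, ← integral_sub_right_eq_self
        (fun x => ph x * e1 (-(x * ξ)) * e1 (-(v * ξ))) v]
      refine integral_congr_ae (Eventually.of_forall fun x => ?_)
      simp only
      rw [pk_eq, mul_assoc, ← e1_add]
      congr 2
      ring

/-! ### the function `B` -/

/-- `B(w)` -/
noncomputable def B (w : ℝ) : ℝ := Bt (fun ξ => bq ξ) 1 w

/-- the square integral of the bump -/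
noncomputable def nn : ℝ := ∫ u, bq u ^ 2

theorem int_sq : Integrable (fun u : ℝ => bq u ^ 2) := by
  refine Continuous.integrable_of_hasCompactSupport (bq.continuous.pow 2) ?_
  exact bq.hasCompactSupport.comp_left (g := fun r : ℝ => r ^ 2) (by simp)

theorem B_eq (w : ℝ) : B w = ∫ u in Ioc (1 / 2 - w) (1 - w), bq u ^ 2 := by
  unfold B Bt
  simp only [one_mul]
  rw [intervalIntegral.integral_comp_sub_right (fun u => bq u ^ 2) w,
    intervalIntegral.integral_of_le (by linarith)]

theorem B_cont : Continuous B := by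
  unfold B Bt
  refine intervalIntegral.continuous_parametric_intervalIntegral_of_continuous' ?_ _ _
  have := bq.continuous
  fun_prop

theorem B_nonneg (w : ℝ) : 0 ≤ B w := by
  rw [B_eq]
  exact setIntegral_nonneg measurableSet_Ioc fun _ _ => sq_nonneg _

theorem B_le (w : ℝ) : B w ≤ nn := by
  rw [B_eq]
  exact setIntegral_le_integral int_sq (Eventually.of_forall fun _ => sq_nonneg _)

theorem B_mid {w : ℝ} (h1 : 3 / 8 ≤ w) (h2 : w ≤ 111 / 128) : B w = nn := by
  rw [B_eq]
  apply setIntegral_eq_integral_of_forall_compl_eq_zero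
  intro u hu
  by_contra h0
  have h3 : bq u ≠ 0 := fun h => h0 (by rw [h]; norm_num)
  have h4 := bq_supp h3
  apply hu
  constructor <;> linarith [h4.1, h4.2]

theorem B_out {w : ℝ} (h : w ≤ 47 / 128 ∨ 7 / 8 ≤ w) : B w = 0 := by
  rw [B_eq]
  apply setIntegral_eq_zero_of_forall_eq_zero
  intro u hu
  by_contra h0
  have h3 : bq u ≠ 0 := fun h => h0 (by rw [h]; norm_num)
  have h4 := bq_supp h3
  rcases h with h | h
  · linarith [hu.1, h4.2]
  · linarith [hu.2, h4.1]

/-! ### the function `f` -/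

/-- `f(w) = B(5w/4)/w` -/
noncomputable def f (w : ℝ) : ℝ := B (5 / 4 * w) / w

theorem f_out {w : ℝ} (h : w ≤ 47 / 160 ∨ 7 / 10 ≤ w) : f w = 0 := by
  unfold f
  rw [B_out (by rcases h with h | h <;> [left; right] <;> linarith), zero_div]

theorem f_cont : Continuous f := by
  have e : f = fun w => B (5 / 4 * w) / max w (1 / 10) := by
    funext w
    unfold f
    rcases le_total (1 / 10) w with h | h
    · rw [max_eq_left h]
    · rw [B_out (Or.inl (by linarith)), zero_div, zero_div]
  rw [e]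
  refine (B_cont.comp (by fun_prop)).div (by fun_prop) fun w => ?_
  have : (1 / 10 : ℝ) ≤ max w (1 / 10) := le_max_right _ _
  linarith

theorem f_nonneg (w : ℝ) : 0 ≤ f w := by
  rcases le_total w (47 / 160) with h | h
  · rw [f_out (Or.inl h)]
  · unfold f
    have := B_nonneg (5 / 4 * w)
    have h0 : 0 < w := by linarith
    positivity

theorem f_le {w : ℝ} (h : 0 < w) : f w ≤ nn * w⁻¹ := by
  unfold f
  rw [div_eq_mul_inv]
  exact mul_le_mul_of_nonneg_right (B_le _) (inv_nonneg.2 h.le)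

theorem f_mid {w : ℝ} (h1 : 3 / 10 ≤ w) (h2 : w ≤ 111 / 160) : f w = nn / w := by
  unfold f
  rw [B_mid (by linarith) (by linarith)]

theorem nn_pos : 0 < nn := by
  unfold nn
  rw [integral_pos_iff_support_of_nonneg (fun _ => sq_nonneg _) int_sq]
  refine ((bq.continuous.pow 2).isOpen_support).measure_pos volume ⟨33 / 256, ?_⟩
  rw [Function.mem_support]
  have : bq (33 / 256 : ℝ) = 1 := by
    apply bq.one_of_mem_closedBall
    rw [Metric.mem_closedBall, dist_self]
    exact bq.rIn_pos.le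
  change bq (33 / 256) ^ 2 ≠ 0
  rw [this]
  norm_num

theorem ii (a b : ℝ) : IntervalIntegrable f volume a b := f_cont.intervalIntegrable _ _

theorem f1_cont : Continuous fun w => f (1 - w) := f_cont.comp (by fun_prop)

theorem zero_int {a b : ℝ} (hab : a ≤ b) (h : ∀ w ∈ Icc a b, w ≤ 47 / 160 ∨ 7 / 10 ≤ w) :
    ∫ w in a..b, f w = 0 := by
  rw [intervalIntegral.integral_of_le hab]
  exact setIntegral_eq_zero_of_forall_eq_zero fun w hw => f_out (h w ⟨hw.1.le, hw.2⟩)

theorem I_eq : ∫ w in (0 : ℝ)..1, f w = ∫ w in (47 / 160 : ℝ)..(7 / 10), f w := by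
  rw [← intervalIntegral.integral_add_adjacent_intervals (ii 0 (47 / 160)) (ii (47 / 160) 1),
    ← intervalIntegral.integral_add_adjacent_intervals (ii (47 / 160) (7 / 10)) (ii (7 / 10) 1),
    zero_int (by norm_num) (fun w hw => Or.inl hw.2),
    zero_int (by norm_num) (fun w hw => Or.inr hw.1)]
  ring

theorem I_le : ∫ w in (0 : ℝ)..1, f w ≤ nn * (89 / 100) := by
  rw [I_eq]
  have h1 : ∫ w in (47 / 160 : ℝ)..(7 / 10), f w ≤
      ∫ w in (47 / 160 : ℝ)..(7 / 10), nn * w⁻¹ := by
    refine intervalIntegral.integral_mono_on (by norm_num) (ii _ _) ?_ fun w hw => f_le ?_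
    · refine ContinuousOn.intervalIntegrable fun w hw => ?_
      rw [uIcc_of_le (by norm_num)] at hw
      have hw0 : w ≠ 0 := by
        have := hw.1
        intro h0
        rw [h0] at this
        norm_num at this
      exact (continuousAt_const.mul (continuousAt_inv₀ hw0)).continuousWithinAt
    · have := hw.1
      linarith
  refine h1.trans ?_
  rw [intervalIntegral.integral_const_mul, integral_inv_of_pos (by norm_num) (by norm_num)]
  refine mul_le_mul_of_nonneg_left ?_ nn_pos.le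
  have e : (7 / 10 : ℝ) / (47 / 160) = 2 * (56 / 47) := by norm_num
  rw [e, Real.log_mul (by norm_num) (by norm_num)]
  have h2 := Real.log_two_lt_d9
  have h3 : Real.log (56 / 47 : ℝ) ≤ 56 / 47 - 1 := Real.log_le_sub_one_of_pos (by norm_num)
  have h4 : (56 / 47 : ℝ) - 1 ≤ 0.1915 := by norm_num
  linarith

theorem I_refl : ∫ w in (0 : ℝ)..1, f (1 - w) = ∫ w in (0 : ℝ)..1, f w := by
  rw [intervalIntegral.integral_comp_sub_left]
  norm_num

theorem m_ge : nn * (62 / 111) ≤ ∫ w in (0 : ℝ)..1, min (f w) (f (1 - w)) := by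
  have hc : Continuous fun w => min (f w) (f (1 - w)) := f_cont.min f1_cont
  have h1 : ∫ w in (49 / 160 : ℝ)..(111 / 160), min (f w) (f (1 - w)) ≤
      ∫ w in (0 : ℝ)..1, min (f w) (f (1 - w)) := by
    refine intervalIntegral.integral_mono_interval (by norm_num) (by norm_num) (by norm_num)
      (Eventually.of_forall fun w => le_min (f_nonneg _) (f_nonneg _))
      (hc.intervalIntegrable _ _)
  refine le_trans ?_ h1
  have h2 : ∫ w in (49 / 160 : ℝ)..(111 / 160), nn * (160 / 111) ≤
      ∫ w in (49 / 160 : ℝ)..(111 / 160), min (f w) (f (1 - w)) := by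
    refine intervalIntegral.integral_mono_on (by norm_num) (by simp)
      (hc.intervalIntegrable _ _) fun w hw => ?_
    have hn := nn_pos
    have key : ∀ v : ℝ, 49 / 160 ≤ v → v ≤ 111 / 160 → nn * (160 / 111) ≤ f v := by
      intro v h3 h4
      have hv : 0 < v := by linarith
      rw [f_mid (by linarith) h4, le_div_iff₀ hv]
      nlinarith
    exact le_min (key w hw.1 hw.2) (key (1 - w) (by linarith [hw.2]) (by linarith [hw.1]))
  refine le_trans (le_of_eq ?_) h2
  rw [intervalIntegral.integral_const, smul_eq_mul]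
  ring

theorem I_pos : 0 < ∫ w in (0 : ℝ)..1, f w := by
  have h1 := m_ge
  have h2 : ∫ w in (0 : ℝ)..1, min (f w) (f (1 - w)) ≤ ∫ w in (0 : ℝ)..1, f w :=
    intervalIntegral.integral_mono_on (by norm_num)
      ((f_cont.min f1_cont).intervalIntegrable _ _) (ii _ _) fun w _ => min_le_left _ _
  have := nn_pos
  linarith

theorem abs_le : ∫ w in (0 : ℝ)..1, |f w - f (1 - w)| ≤ 3 / 4 * ∫ w in (0 : ℝ)..1, f w := by
  have e : ∀ w : ℝ, |f w - f (1 - w)| = f w + f (1 - w) - 2 * min (f w) (f (1 - w)) := by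
    intro w
    rcases le_total (f w) (f (1 - w)) with h | h
    · rw [min_eq_left h, abs_of_nonpos (by linarith)]
      ring
    · rw [min_eq_right h, abs_of_nonneg (by linarith)]
      ring
  simp only [e]
  rw [intervalIntegral.integral_sub, intervalIntegral.integral_add,
    intervalIntegral.integral_const_mul, I_refl]
  · have h1 := m_ge
    have h2 := I_le
    have := nn_pos
    linarith
  · exact ii _ _
  · exact f1_cont.intervalIntegrable _ _
  · exact (f_cont.add f1_cont).intervalIntegrable _ _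
  · exact ((f_cont.min f1_cont).const_mul 2).intervalIntegrable _ _

/-! ### the symbols -/

theorem bp_eq (w : ℝ) : bp (fun ξ => bq ξ) w = (f w - f (1 - w)) / Real.log 2 := rfl

theorem bp_cont : Continuous (bp fun ξ => bq ξ) := by
  have e : bp (fun ξ => bq ξ) = fun w => (f w - f (1 - w)) / Real.log 2 := funext bp_eq
  rw [e]
  exact (f_cont.sub f1_cont).div_const _

theorem tail_eq (z : ℝ) : ∫ w in Ioi (5 / 4 * z), Bt (fun ξ => bq ξ) 1 w / w =
    ∫ w in Ioi z, f w := by
  have h := integral_comp_mul_left_Ioi (fun w => Bt (fun ξ => bq ξ) 1 w / w) z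
    (by norm_num : (0 : ℝ) < 5 / 4)
  have e : ∀ w : ℝ, Bt (fun ξ => bq ξ) 1 (5 / 4 * w) / (5 / 4 * w) = 4 / 5 * f w := by
    intro w
    change B (5 / 4 * w) / (5 / 4 * w) = 4 / 5 * (B (5 / 4 * w) / w)
    rcases eq_or_ne w 0 with h0 | h0
    · rw [h0]; simp
    · field_simp
  simp only [e] at h
  rw [integral_const_mul, smul_eq_mul] at h
  have h2 : (5 / 4 : ℝ)⁻¹ = 4 / 5 := by norm_num
  rw [h2] at h
  linarith

theorem tail_int {z : ℝ} (hz : z ≤ 1) : ∫ w in Ioi z, f w = ∫ w in z..1, f w := by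
  rw [intervalIntegral.integral_of_le hz]
  refine setIntegral_eq_of_subset_of_forall_diff_eq_zero measurableSet_Ioi Ioc_subset_Ioi_self
    fun w hw => f_out (Or.inr ?_)
  have h1 : 1 < w := by
    by_contra h0
    exact hw.2 ⟨hw.1, not_lt.1 h0⟩
  linarith

theorem tail_zero {z : ℝ} (hz : 1 ≤ z) : ∫ w in Ioi z, f w = 0 := by
  refine setIntegral_eq_zero_of_forall_eq_zero fun w hw => f_out (Or.inr ?_)
  have h1 : z < w := hw
  linarith

theorem Gm_pos {z : ℝ} (h0 : 0 < z) (h1 : z ≤ 1) :
    Gm (fun ξ => bq ξ) z = (∫ w in z..1, f w) / Real.log 2 := by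
  unfold Gm
  rw [if_pos h0, tail_eq, tail_int h1]

theorem Gm_neg {z : ℝ} (h0 : z ≤ 0) : Gm (fun ξ => bq ξ) z = 0 := by
  unfold Gm
  rw [if_neg (not_lt.2 h0)]

theorem Gm_one {z : ℝ} (h0 : 1 ≤ z) : Gm (fun ξ => bq ξ) z = 0 := by
  unfold Gm
  rw [if_pos (by linarith), tail_eq, tail_zero h0, zero_div]

theorem int_bp {z : ℝ} (h0 : 0 ≤ z) : ∫ w in Ioo (0 : ℝ) z, bp (fun ξ => bq ξ) w =
    ((∫ w in (0 : ℝ)..z, f w) - ∫ w in (1 - z)..1, f w) / Real.log 2 := by
  rw [← integral_Ioc_eq_integral_Ioo, ← intervalIntegral.integral_of_le h0]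
  simp only [bp_eq]
  rw [intervalIntegral.integral_div, intervalIntegral.integral_sub (ii _ _)
    (f1_cont.intervalIntegrable _ _), intervalIntegral.integral_comp_sub_left]
  simp

theorem int_bp_one : ∫ w in Ioo (0 : ℝ) 1, bp (fun ξ => bq ξ) w = 0 := by
  rw [int_bp (by norm_num)]
  simp

end VGB_

open VGB_ in
/-- the bump and the numerical inequality -/
theorem p_VGB : T_VGB := by
  obtain ⟨A, hA⟩ := bmp
  have hl : 0 < Real.log 2 := Real.log_pos (by norm_num)
  refine ⟨A, fun ξ => bq ξ, (∫ w in (0 : ℝ)..1, f w) / Real.log 2, hA, div_pos I_pos hl,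
    (bp_cont.integrableOn_Icc).mono_set Ioo_subset_Icc_self, ?_, int_bp_one, ?_⟩
  · rw [← integral_Ioc_eq_integral_Ioo, ← intervalIntegral.integral_of_le (by norm_num)]
    have e : ∀ w : ℝ, |bp (fun ξ => bq ξ) w| = |f w - f (1 - w)| / Real.log 2 := by
      intro w
      rw [bp_eq, abs_div, abs_of_pos hl]
    simp only [e]
    rw [intervalIntegral.integral_div, ← mul_div_assoc]
    exact div_le_div_of_nonneg_right VGB_.abs_le hl.le
  · intro z
    rcases le_or_gt z 0 with h0 | h0
    · have h1 : Ioo (0 : ℝ) 1 ∩ Iio z = ∅ := by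
        ext w
        simp only [mem_inter_iff, mem_Ioo, mem_Iio, mem_empty_iff_false, iff_false]
        rintro ⟨⟨h2, h3⟩, h4⟩
        linarith
      rw [h1, setIntegral_empty, Gm_neg h0, Gm_one (by linarith),
        indicator_of_notMem (fun h => by linarith [h.1])]
      ring
    · rcases lt_or_ge z 1 with h1 | h1
      · have h2 : Ioo (0 : ℝ) 1 ∩ Iio z = Ioo 0 z := by
          ext w
          simp only [mem_inter_iff, mem_Ioo, mem_Iio]
          constructor
          · rintro ⟨⟨h2, h3⟩, h4⟩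
            exact ⟨h2, h4⟩
          · rintro ⟨h2, h3⟩
            exact ⟨⟨h2, h3.trans h1⟩, h3⟩
        rw [h2, int_bp h0.le, Gm_pos h0 h1.le, Gm_pos (by linarith) (by linarith),
          indicator_of_mem (show z ∈ Ioo (0 : ℝ) 1 from ⟨h0, h1⟩),
          ← intervalIntegral.integral_add_adjacent_intervals (ii 0 z) (ii z 1)]
        ring
      · have h2 : Ioo (0 : ℝ) 1 ∩ Iio z = Ioo 0 1 := by
          ext w
          simp only [mem_inter_iff, mem_Ioo, mem_Iio]
          constructor
          · exact fun h => h.1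
          · exact fun h => ⟨h, h.2.trans_le h1⟩
        rw [h2, int_bp_one, Gm_one h1, Gm_neg (by linarith),
          indicator_of_notMem (fun h => by linarith [h.2])]
        ring

end Pool.Agent.VRC
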