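import Pool.Agent.VRC.Targets

set_option autoImplicit false

/-!
# VRC: target VJ1 (jump inequality for dyadic averages)

Greedy count of the jumps from the largest scale downwards.
-/

namespace Pool.Agent.VRC

open MeasureTheory Set ComplexConjugate Filter Topology
open scoped ENNReal NNReal
open Pool.Agent.CAR

namespace VJ1_

/-- the greedy count of the jumps of size `r / 2`, from the scale `m + n` to `m`, with reference
value `c` -/
noncomputable def G (z : ℤ → ℂ) (m : ℤ) (r : ℝ) : ℕ → ℂ → ℕ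
  | 0, c => if r / 2 ≤ ‖z m - c‖ then 1 else 0
  | n + 1, c => if r / 2 ≤ ‖z (m + ((n + 1 : ℕ) : ℤ)) - c‖ then
      1 + G z m r n (z (m + ((n + 1 : ℕ) : ℤ))) else G z m r n c

/-- admissible families in `[m, a]` -/
def Ad (z : ℤ → ℂ) (m a : ℤ) (r : ℝ) (P : Finset (ℤ × ℤ)) : Prop :=
  (∀ c ∈ P, m ≤ c.1 ∧ c.1 ≤ c.2 ∧ c.2 ≤ a ∧ r ≤ ‖z c.2 - z c.1‖) ∧
    ∀ c ∈ P, ∀ d ∈ P, c ≠ d → c.2 ≤ d.1 ∨ d.2 ≤ c.1

theorem ad_lt {z : ℤ → ℂ} {m a : ℤ} {r : ℝ} (hr : 0 < r) {P : Finset (ℤ × ℤ)} (h : Ad z m a r P)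
    {c : ℤ × ℤ} (hc : c ∈ P) : c.1 < c.2 := by
  obtain ⟨_, h2, _, h4⟩ := h.1 c hc
  rcases h2.lt_or_eq with h5 | h5
  · exact h5
  · rw [h5, sub_self, norm_zero] at h4
    exact absurd h4 (not_le.2 hr)

theorem ad_empty {z : ℤ → ℂ} {m : ℤ} {r : ℝ} (hr : 0 < r) {P : Finset (ℤ × ℤ)}
    (h : Ad z m m r P) : P = ∅ := by
  rw [Finset.eq_empty_iff_forall_notMem]
  intro c hc
  have h1 := ad_lt hr h hc
  obtain ⟨h2, _, h3, _⟩ := h.1 c hc
  omega

/-- the step common to both claims -/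
theorem step (z : ℤ → ℂ) (m : ℤ) (r : ℝ) (hr : 0 < r) (n : ℕ)
    (C1 : ∀ (c : ℂ) (P : Finset (ℤ × ℤ)), Ad z m (m + n) r P → P.card ≤ G z m r n c)
    (C2 : ∀ (c : ℂ) (P : Finset (ℤ × ℤ)) (a : ℤ), m ≤ a → a ≤ m + n → Ad z m a r P →
      r / 2 ≤ ‖z a - c‖ → P.card + 1 ≤ G z m r n c)
    (c : ℂ) (P : Finset (ℤ × ℤ)) (hP : Ad z m (m + ((n + 1 : ℕ) : ℤ)) r P)
    (hc : ‖z (m + ((n + 1 : ℕ) : ℤ)) - c‖ < r / 2) : P.card ≤ G z m r n c := by
  classical
  by_cases h : ∃ p ∈ P, p.2 = m + ((n + 1 : ℕ) : ℤ)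
  · obtain ⟨p, hp, hp2⟩ := h
    have h1 := ad_lt hr hP hp
    obtain ⟨h2, _, _, h4⟩ := hP.1 p hp
    have h5 : r / 2 ≤ ‖z p.1 - c‖ := by
      rw [hp2] at h4
      have e : z (m + ((n + 1 : ℕ) : ℤ)) - z p.1 =
          (z (m + ((n + 1 : ℕ) : ℤ)) - c) - (z p.1 - c) := by ring
      rw [e] at h4
      have := norm_sub_le (z (m + ((n + 1 : ℕ) : ℤ)) - c) (z p.1 - c)
      linarith
    have h6 : Ad z m p.1 r (P.erase p) := by
      refine ⟨fun d hd => ?_, fun d hd e he => ?_⟩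
      · have hd' := Finset.mem_of_mem_erase hd
        have hne := Finset.ne_of_mem_erase hd
        obtain ⟨g1, g2, g3, g4⟩ := hP.1 d hd'
        have g5 := ad_lt hr hP hd'
        refine ⟨g1, g2, ?_, g4⟩
        rcases hP.2 d hd' p hp hne with g | g
        · exact g
        · omega
      · exact hP.2 d (Finset.mem_of_mem_erase hd) e (Finset.mem_of_mem_erase he)
    have h7 := C2 c (P.erase p) p.1 h2 (by push_cast at hp2; omega) h6 h5
    have h8 := Finset.card_erase_add_one hp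
    omega
  · push Not at h
    refine C1 c P ⟨fun d hd => ?_, hP.2⟩
    obtain ⟨g1, g2, g3, g4⟩ := hP.1 d hd
    have := h d hd
    refine ⟨g1, g2, ?_, g4⟩
    push_cast at g3 this
    omega

theorem claims (z : ℤ → ℂ) (m : ℤ) (r : ℝ) (hr : 0 < r) (n : ℕ) :
    (∀ (c : ℂ) (P : Finset (ℤ × ℤ)), Ad z m (m + n) r P → P.card ≤ G z m r n c) ∧
    (∀ (c : ℂ) (P : Finset (ℤ × ℤ)) (a : ℤ), m ≤ a → a ≤ m + n → Ad z m a r P →
      r / 2 ≤ ‖z a - c‖ → P.card + 1 ≤ G z m r n c) := by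
  induction n with
  | zero =>
    refine ⟨fun c P hP => ?_, fun c P a h1 h2 hP h3 => ?_⟩
    · have : P = ∅ := ad_empty (z := z) (m := m) hr (by simpa using hP)
      rw [this]; simp
    · have ha : a = m := by push_cast at h2; omega
      subst ha
      rw [ad_empty hr hP, G, if_pos h3]; simp
  | succ n ih =>
    obtain ⟨C1, C2⟩ := ih
    have hz : ‖z (m + ((n + 1 : ℕ) : ℤ)) - z (m + ((n + 1 : ℕ) : ℤ))‖ < r / 2 := by
      rw [sub_self, norm_zero]; linarith
    refine ⟨fun c P hP => ?_, fun c P a h1 h2 hP h3 => ?_⟩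
    · rw [G]
      split_ifs with hj
      · have := step z m r hr n C1 C2 _ P hP hz
        omega
      · exact step z m r hr n C1 C2 c P hP (not_le.1 hj)
    · rw [G]
      split_ifs with hj
      · have hP' : Ad z m (m + ((n + 1 : ℕ) : ℤ)) r P :=
          ⟨fun d hd => by
            obtain ⟨g1, g2, g3, g4⟩ := hP.1 d hd
            exact ⟨g1, g2, g3.trans h2, g4⟩, hP.2⟩
        have := step z m r hr n C1 C2 _ P hP' hz
        omega
      · have ha : a ≠ m + ((n + 1 : ℕ) : ℤ) := by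
          rintro rfl
          exact hj h3
        exact C2 c P a h1 (by push_cast at h2 ha ⊢; omega) hP h3

/-- `NJ` is at most the greedy count -/
theorem nj_le (z : ℤ → ℂ) (m : ℤ) (n : ℕ) (r : ℝ) (hr : 0 < r) (c : ℂ) :
    NJ z m (m + n) (ENNReal.ofReal r) ≤ (G z m r n c : ℝ≥0∞) := by
  rw [NJ]
  refine iSup₂_le fun P hP => ?_
  have h : Ad z m (m + n) r P := by
    refine ⟨fun d hd => ?_, hP.2⟩
    obtain ⟨g1, g2, g3, g4⟩ := hP.1 d hd
    refine ⟨g1, g2, g3, ?_⟩
    rw [← ofReal_norm] at g4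
    exact (ENNReal.ofReal_le_ofReal_iff (norm_nonneg _)).1 g4
  exact_mod_cast (claims z m r hr n).1 c P h

/-! ### the energy -/

/-- the average -/
noncomputable def A (H : ℝ → ℂ) (k l : ℤ) : ℂ := ((2 : ℝ) ^ (-k) : ℝ) * ∫ y in dy k l, H y

theorem da_eq (H : ℝ → ℂ) {k l : ℤ} {x : ℝ} (hx : x ∈ dy k l) : da H k x = A H k l := by
  rw [da, A, mem_dy.1 hx]

theorem vol_ne (k l : ℤ) : volume (dy k l) ≠ ⊤ := by
  rw [volume_dy]; exact ENNReal.ofReal_ne_top

theorem real_vol (k l : ℤ) : volume.real (dy k l) = (2 : ℝ) ^ k := by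
  rw [Measure.real, volume_dy, ENNReal.toReal_ofReal (two_zpow_pos k).le]

theorem int_sq {H : ℝ → ℂ} (h2 : MemLp H 2 volume) (k l : ℤ) (c : ℂ) :
    IntegrableOn (fun x => ‖H x - c‖ ^ 2) (dy k l) := by
  have : IsFiniteMeasure (volume.restrict (dy k l)) := by
    constructor
    rw [Measure.restrict_apply_univ]
    exact (vol_ne k l).lt_top
  have h3 : MemLp (fun x => H x - c) 2 (volume.restrict (dy k l)) :=
    (h2.restrict _).sub (memLp_const c)
  have h4 := h3.integrable_norm_pow (by norm_num)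
  rw [IntegrableOn]
  convert h4 using 3

/-- the energy -/
noncomputable def E (H : ℝ → ℂ) (k l : ℤ) (c : ℂ) : ℝ := ∫ x in dy k l, ‖H x - c‖ ^ 2

theorem E_nonneg (H : ℝ → ℂ) (k l : ℤ) (c : ℂ) : 0 ≤ E H k l c :=
  integral_nonneg fun x => by positivity

theorem E_split {H : ℝ → ℂ} (h2 : MemLp H 2 volume) (k l : ℤ) (c : ℂ) :
    E H k l c = E H (k - 1) (2 * l) c + E H (k - 1) (2 * l + 1) c := by
  rw [E, E, E, dy_split k l]
  exact setIntegral_union (dy_half_disj _ _) (measurableSet_dy _ _) (int_sq h2 _ _ _)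
    (int_sq h2 _ _ _)

theorem E_var {H : ℝ → ℂ} (h1 : Integrable H) (h2 : MemLp H 2 volume) (k l : ℤ) (c : ℂ) :
    E H k l c = E H k l (A H k l) + (2 : ℝ) ^ k * ‖A H k l - c‖ ^ 2 := by
  have : IsFiniteMeasure (volume.restrict (dy k l)) := by
    constructor
    rw [Measure.restrict_apply_univ]
    exact (vol_ne k l).lt_top
  have e : ∀ x, ‖H x - c‖ ^ 2 = ‖H x - A H k l‖ ^ 2 +
      (2 * inner ℝ (A H k l - c) (H x - A H k l) + ‖A H k l - c‖ ^ 2) := by
    intro x
    have e1 : H x - c = (A H k l - c) + (H x - A H k l) := by ring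
    rw [e1, norm_add_sq_real]
    ring
  have hi : Integrable (fun x => H x - A H k l) (volume.restrict (dy k l)) :=
    h1.integrableOn.sub (integrable_const _)
  have hin : Integrable (fun x => inner ℝ (A H k l - c) (H x - A H k l))
      (volume.restrict (dy k l)) := hi.const_inner _
  have h0 : ∫ x in dy k l, (H x - A H k l) = 0 := by
    rw [integral_sub h1.integrableOn (integrable_const _), setIntegral_const, real_vol, A,
      Complex.real_smul]
    have := two_zpow_mul_neg k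
    rw [← mul_assoc, ← Complex.ofReal_mul, this]
    simp
  rw [E, E]
  simp_rw [e]
  have a1 : ∫ x in dy k l, (‖H x - A H k l‖ ^ 2 +
      (2 * inner ℝ (A H k l - c) (H x - A H k l) + ‖A H k l - c‖ ^ 2)) =
      (∫ x in dy k l, ‖H x - A H k l‖ ^ 2) +
        ∫ x in dy k l, (2 * inner ℝ (A H k l - c) (H x - A H k l) + ‖A H k l - c‖ ^ 2) :=
    integral_add (int_sq h2 k l _) ((hin.const_mul 2).add (integrable_const _))
  have a2 : ∫ x in dy k l, (2 * inner ℝ (A H k l - c) (H x - A H k l) + ‖A H k l - c‖ ^ 2) =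
      (∫ x in dy k l, 2 * inner ℝ (A H k l - c) (H x - A H k l)) +
        ∫ _ in dy k l, ‖A H k l - c‖ ^ 2 :=
    integral_add (hin.const_mul 2) (integrable_const _)
  rw [a1, a2, integral_const_mul, integral_inner hi, h0, inner_zero_right, setIntegral_const,
    real_vol]
  simp

/-- the claim of the docstring -/
theorem main {H : ℝ → ℂ} (h1 : Integrable H) (h2 : MemLp H 2 volume) (m : ℤ) (r : ℝ)
    (hr : 0 < r) (n : ℕ) : ∀ (l : ℤ) (c : ℂ),
    ENNReal.ofReal (r ^ 2 / 4) *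
      ∫⁻ x in dy (m + n) l, (G (fun k => da H k x) m r n c : ℝ≥0∞) ≤
        ENNReal.ofReal (E H (m + n) l c) := by
  have key : ∀ (k l : ℤ) (c : ℂ), r / 2 ≤ ‖A H k l - c‖ →
      ENNReal.ofReal (r ^ 2 / 4) * volume (dy k l) ≤
        ENNReal.ofReal ((2 : ℝ) ^ k * ‖A H k l - c‖ ^ 2) := by
    intro k l c hj
    rw [volume_dy, ← ENNReal.ofReal_mul (by positivity)]
    apply ENNReal.ofReal_le_ofReal
    have h3 : r ^ 2 / 4 ≤ ‖A H k l - c‖ ^ 2 := by
      have := pow_le_pow_left₀ (by positivity) hj 2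
      calc r ^ 2 / 4 = (r / 2) ^ 2 := by ring
        _ ≤ _ := this
    have := two_zpow_pos k
    nlinarith
  induction n with
  | zero =>
    intro l c
    have hk : m + ((0 : ℕ) : ℤ) = m := by simp
    rw [hk]
    have e : ∫⁻ x in dy m l, (G (fun k => da H k x) m r 0 c : ℝ≥0∞) =
        ∫⁻ x in dy m l, (if r / 2 ≤ ‖A H m l - c‖ then 1 else 0) := by
      refine setLIntegral_congr_fun (measurableSet_dy _ _) fun x hx => ?_
      simp only [G, da_eq H hx]
      split_ifs <;> simp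
    rw [e]
    split_ifs with hj
    · rw [setLIntegral_one]
      refine (key m l c hj).trans (ENNReal.ofReal_le_ofReal ?_)
      rw [E_var h1 h2 m l c]
      have := E_nonneg H m l (A H m l)
      linarith
    · simp
  | succ n ih =>
    intro l c
    set k : ℤ := m + ((n + 1 : ℕ) : ℤ) with hk
    have hk1 : k - 1 = m + n := by rw [hk]; push_cast; ring
    have hs : ∀ f : ℝ → ℝ≥0∞, ∫⁻ x in dy k l, f x =
        (∫⁻ x in dy (m + n) (2 * l), f x) + ∫⁻ x in dy (m + n) (2 * l + 1), f x := by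
      intro f
      rw [dy_split k l, hk1]
      exact lintegral_union (measurableSet_dy _ _) (dy_half_disj _ _)
    have hE : ∀ c, ENNReal.ofReal (E H (m + n) (2 * l) c) +
        ENNReal.ofReal (E H (m + n) (2 * l + 1) c) = ENNReal.ofReal (E H k l c) := by
      intro c
      rw [E_split h2 k l c, hk1, ENNReal.ofReal_add (E_nonneg _ _ _ _) (E_nonneg _ _ _ _)]
    have hI : ∀ c, ENNReal.ofReal (r ^ 2 / 4) *
        ∫⁻ x in dy k l, (G (fun k => da H k x) m r n c : ℝ≥0∞) ≤ ENNReal.ofReal (E H k l c) := by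
      intro c
      rw [hs, mul_add, ← hE c]
      exact add_le_add (ih (2 * l) c) (ih (2 * l + 1) c)
    by_cases hj : r / 2 ≤ ‖A H k l - c‖
    · have e : ∫⁻ x in dy k l, (G (fun k => da H k x) m r (n + 1) c : ℝ≥0∞) =
          ∫⁻ x in dy k l, (1 + (G (fun k => da H k x) m r n (A H k l) : ℝ≥0∞)) := by
        refine setLIntegral_congr_fun (measurableSet_dy _ _) fun x hx => ?_
        simp only [G, ← hk, da_eq H hx, if_pos hj]
        push_cast
        rfl
      rw [e, lintegral_add_left measurable_const, setLIntegral_one, mul_add, E_var h1 h2 k l c,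
        add_comm (E H k l (A H k l)), ENNReal.ofReal_add (by positivity) (E_nonneg _ _ _ _)]
      exact add_le_add (key k l c hj) (hI _)
    · have e : ∫⁻ x in dy k l, (G (fun k => da H k x) m r (n + 1) c : ℝ≥0∞) =
          ∫⁻ x in dy k l, (G (fun k => da H k x) m r n c : ℝ≥0∞) := by
        refine setLIntegral_congr_fun (measurableSet_dy _ _) fun x hx => ?_
        simp only [G, ← hk, da_eq H hx, if_neg hj]
      rw [e]
      exact hI c

theorem iUnion_dy (k : ℤ) : (⋃ l, dy k l) = univ := by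
  rw [eq_univ_iff_forall]
  intro x
  exact mem_iUnion.2 ⟨_, exists_mem_dy k x⟩

theorem disj_dy (k : ℤ) : Pairwise (Function.onFun Disjoint (fun l => dy k l)) := by
  intro l l' h
  rw [Function.onFun, Set.disjoint_left]
  intro x h1 h2
  exact h (dy_eq_of_mem h1 h2)

theorem sum_dy (k : ℤ) (f : ℝ → ℝ≥0∞) : ∫⁻ x, f x = ∑' l, ∫⁻ x in dy k l, f x := by
  rw [← lintegral_iUnion (fun l => measurableSet_dy k l) (disj_dy k), iUnion_dy,
    Measure.restrict_univ]

theorem fin {H : ℝ → ℂ} (h1 : Integrable H) (h2 : MemLp H 2 volume) (m : ℤ) (r : ℝ)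
    (hr : 0 < r) (n : ℕ) :
    ENNReal.ofReal (r ^ 2 / 4) *
      ∫⁻ x, NJ (fun k => da H k x) m (m + n) (ENNReal.ofReal r) ≤ ∫⁻ x, ‖H x‖ₑ ^ 2 := by
  rw [sum_dy (m + n), sum_dy (m + n), ← ENNReal.tsum_mul_left]
  refine ENNReal.tsum_le_tsum fun l => ?_
  calc ENNReal.ofReal (r ^ 2 / 4) *
      ∫⁻ x in dy (m + n) l, NJ (fun k => da H k x) m (m + n) (ENNReal.ofReal r)
      ≤ ENNReal.ofReal (r ^ 2 / 4) * ∫⁻ x in dy (m + n) l,
        (G (fun k => da H k x) m r n (A H (m + n) l) : ℝ≥0∞) :=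
        mul_le_mul_right (lintegral_mono fun x => nj_le _ m n r hr _) _
    _ ≤ ENNReal.ofReal (E H (m + n) l (A H (m + n) l)) := main h1 h2 m r hr n l _
    _ ≤ ENNReal.ofReal (E H (m + n) l 0) := by
        apply ENNReal.ofReal_le_ofReal
        rw [E_var h1 h2 (m + n) l 0]
        have : 0 ≤ (2 : ℝ) ^ (m + (n : ℤ)) * ‖A H (m + n) l - 0‖ ^ 2 := by positivity
        linarith
    _ = ∫⁻ x in dy (m + n) l, ‖H x‖ₑ ^ 2 := by
        rw [E, ofReal_integral_eq_lintegral_ofReal (int_sq h2 _ _ _)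
          (ae_of_all _ fun x => by positivity)]
        refine lintegral_congr fun x => ?_
        rw [sub_zero, ENNReal.ofReal_pow (norm_nonneg _), ofReal_norm]

end VJ1_

open VJ1_ in
theorem p_VJ1 : T_VJ1 := by
  intro H m M lam hm h1 h0 hlam
  by_cases hf : ∫⁻ x, ‖H x‖ₑ ^ 2 = ⊤
  · rw [hf, ENNReal.mul_top (by norm_num)]
    exact le_top
  have h2 : MemLp H 2 volume := by
    refine ⟨h1.1, ?_⟩
    rw [eLpNorm_lt_top_iff_lintegral_rpow_enorm_lt_top (by norm_num) (by norm_num)]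
    refine lt_of_eq_of_lt ?_ (Ne.lt_top hf)
    refine lintegral_congr fun x => ?_
    simp
  set r : ℝ := lam.toReal with hr
  have hr0 : 0 < r := ENNReal.toReal_pos h0.ne' hlam
  have hl : lam = ENNReal.ofReal r := by rw [hr, ENNReal.ofReal_toReal hlam]
  by_cases hmM : m ≤ M
  · obtain ⟨n, rfl⟩ : ∃ n : ℕ, M = m + n := ⟨(M - m).toNat, by omega⟩
    have h3 := fin h1 h2 m r hr0 n
    have e : lam ^ 2 = 4 * ENNReal.ofReal (r ^ 2 / 4) := by
      rw [hl, ← ENNReal.ofReal_pow hr0.le]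
      have : (4 : ℝ≥0∞) = ENNReal.ofReal 4 := by simp
      rw [this, ← ENNReal.ofReal_mul (by norm_num)]
      congr 1
      ring
    rw [e, mul_assoc]
    rw [← hl] at h3
    exact mul_le_mul_right h3 _
  · have : ∀ x, NJ (fun k => da H k x) m M lam = 0 := by
      intro x
      rw [NJ]
      refine le_antisymm (iSup₂_le fun P hP => ?_) zero_le
      have : P = ∅ := by
        rw [Finset.eq_empty_iff_forall_notMem]
        intro c hc
        obtain ⟨g1, g2, g3, _⟩ := hP.1 c hc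
        omega
      rw [this]
      simp
    simp_rw [this]
    simp

end Pool.Agent.VRC
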