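import Pool.Agent.VRC.Targets
import Pool.Agent.CAR.P_FXB
import Pool.Agent.CAR.P_WTS
import Pool.Agent.CAR.P_WTI

set_option autoImplicit false

/-!
# VRC, target VJD: the partial sums are close to the dyadic averages
-/

namespace Pool.Agent.VRC

open MeasureTheory Set ComplexConjugate
open scoped ENNReal NNReal
open Pool.Agent.CAR

namespace VJD_

/-- two-sided geometric sum over a finite set of integers -/
theorem geo {r : ℝ} (h0 : 0 ≤ r) (h1 : r < 1) (k : ℤ) (A : Finset ℤ) :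
    ∑ b ∈ A, r ^ (b - k).natAbs ≤ 2 / (1 - r) := by
  have key : ∀ B : Finset ℤ, Set.InjOn (fun b : ℤ => (b - k).natAbs) B →
      ∑ b ∈ B, r ^ (b - k).natAbs ≤ 1 / (1 - r) := by
    intro B hB
    have e : ∑ b ∈ B, r ^ (b - k).natAbs =
        ∑ n ∈ B.image (fun b : ℤ => (b - k).natAbs), r ^ n := by
      rw [Finset.sum_image hB]
    have h := (summable_geometric_of_lt_one h0 h1).sum_le_tsum
      (B.image (fun b : ℤ => (b - k).natAbs)) (fun n _ => pow_nonneg h0 n)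
    rw [tsum_geometric_of_lt_one h0 h1] at h
    rw [e, one_div]
    exact h
  rw [← Finset.sum_filter_add_sum_filter_not A (fun b => k ≤ b)]
  have a1 := key (A.filter (fun b => k ≤ b)) (by
    intro x hx y hy hxy
    simp only [Finset.coe_filter, Set.mem_ofPred_eq] at hx hy hxy
    omega)
  have a2 := key (A.filter (fun b => ¬ k ≤ b)) (by
    intro x hx y hy hxy
    simp only [Finset.coe_filter, Set.mem_ofPred_eq] at hx hy hxy
    omega)
  have e2 : 2 / (1 - r) = 1 / (1 - r) + 1 / (1 - r) := by ring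
  linarith

/-- the tail factor of VJP -/
noncomputable def V (b : ℤ) (s : Tile) (x : ℝ) : ℝ :=
  if b ≤ s.k then wt 10 (s.u x) else
    wt 10 (s.u ((2 : ℝ) ^ b * ⌊(2 : ℝ) ^ (-b) * x⌋)) +
      wt 10 (s.u ((2 : ℝ) ^ b * (⌊(2 : ℝ) ^ (-b) * x⌋ + 1)))

/-- its majorant -/
noncomputable def U (b : ℤ) (s : Tile) (x : ℝ) : ℝ :=
  if b ≤ s.k then wt 10 ((2 : ℝ) ^ (-s.k) * x - s.l) else
    8 * wt 2 ((2 : ℝ) ^ (-b) * x - (2 : ℝ) ^ (s.k - b) * s.l)

theorem wt_nonneg (n : ℕ) (t : ℝ) : 0 ≤ wt n t := by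
  unfold wt
  positivity

theorem V_nonneg (b : ℤ) (s : Tile) (x : ℝ) : 0 ≤ V b s x := by
  unfold V
  split_ifs
  · exact wt_nonneg _ _
  · exact add_nonneg (wt_nonneg _ _) (wt_nonneg _ _)

theorem half {R n t c : ℝ} (hR : 1 ≤ R) (h : |n - t| ≤ 1) :
    wt 10 (R * (n - c)) ≤ 4 * wt 2 (t - c) := by
  refine (WTI_.wt_le (n := 10) (by norm_num) _).trans ?_
  unfold wt
  have h1 : |R * (n - c)| = R * |n - c| := by rw [abs_mul, abs_of_pos (by linarith)]
  have h2 : |n - c| ≤ R * |n - c| := by nlinarith [abs_nonneg (n - c)]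
  have h3 : |t - c| ≤ |n - t| + |n - c| := by
    have := abs_sub_le t n c
    rw [abs_sub_comm t n] at this
    exact this
  have h4 : 1 + |t - c| ≤ 2 * (1 + |R * (n - c)|) := by
    rw [h1]
    linarith [abs_nonneg (n - c)]
  have h5 : 0 < 1 + |t - c| := by linarith [abs_nonneg (t - c)]
  have h6 : (1 + |t - c|) ^ 2 ≤ 4 * (1 + |R * (n - c)|) ^ 2 := by
    have := pow_le_pow_left₀ h5.le h4 2
    nlinarith
  have h7 : 0 < (1 + |R * (n - c)|) ^ 2 := by
    have := abs_nonneg (R * (n - c))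
    positivity
  rw [← div_eq_mul_inv, inv_le_comm₀ h7 (by positivity), inv_div, div_le_iff₀ (by norm_num)]
  linarith

theorem V_le (b : ℤ) (s : Tile) (x : ℝ) : V b s x ≤ U b s x := by
  unfold V U
  split_ifs with h
  · exact le_rfl
  · have hb : s.k < b := not_le.1 h
    have hR : (1 : ℝ) ≤ (2 : ℝ) ^ (b - s.k) := by
      apply one_le_zpow₀ (by norm_num)
      omega
    have hu : ∀ n : ℝ, s.u ((2 : ℝ) ^ b * n) =
        (2 : ℝ) ^ (b - s.k) * (n - (2 : ℝ) ^ (s.k - b) * s.l) := by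
      intro n
      unfold Tile.u
      have e1 : (2 : ℝ) ^ (b - s.k) = (2 : ℝ) ^ (-s.k) * (2 : ℝ) ^ b := by
        rw [← zpow_add₀ (by norm_num)]
        congr 1
        ring
      have e2 : (2 : ℝ) ^ (b - s.k) * (2 : ℝ) ^ (s.k - b) = 1 := by
        rw [← zpow_add₀ (by norm_num)]
        simp
      rw [mul_sub, ← mul_assoc ((2 : ℝ) ^ (b - s.k)), e2, one_mul, e1]
      ring
    have f1 : |((⌊(2 : ℝ) ^ (-b) * x⌋ : ℤ) : ℝ) - (2 : ℝ) ^ (-b) * x| ≤ 1 := by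
      have a1 := Int.floor_le ((2 : ℝ) ^ (-b) * x)
      have a2 := Int.lt_floor_add_one ((2 : ℝ) ^ (-b) * x)
      rw [abs_le]
      constructor <;> linarith
    have f2 : |(((⌊(2 : ℝ) ^ (-b) * x⌋ : ℤ) : ℝ) + 1) - (2 : ℝ) ^ (-b) * x| ≤ 1 := by
      have a1 := Int.floor_le ((2 : ℝ) ^ (-b) * x)
      have a2 := Int.lt_floor_add_one ((2 : ℝ) ^ (-b) * x)
      rw [abs_le]
      constructor <;> linarith
    have g1 := half (c := (2 : ℝ) ^ (s.k - b) * s.l) hR f1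
    have g2 := half (c := (2 : ℝ) ^ (s.k - b) * s.l) hR f2
    rw [← hu] at g1 g2
    linarith

theorem U_int (b : ℤ) (s : Tile) : Integrable (U b s) ∧
    ∫ x, U b s x ≤ 16 * (2 : ℝ) ^ s.k * 2 ^ (s.k - b).natAbs := by
  unfold U
  split_ifs with h
  · obtain ⟨h1, h2⟩ := p_WTI 10 s.k s.l (by norm_num)
    refine ⟨h1, h2.trans ?_⟩
    have h3 : (1 : ℝ) ≤ 2 ^ (s.k - b).natAbs := one_le_pow₀ (by norm_num)
    have h4 := two_zpow_pos s.k
    nlinarith
  · have hb : s.k < b := not_le.1 h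
    obtain ⟨h1, h2⟩ := p_WTI 2 b ((2 : ℝ) ^ (s.k - b) * s.l) (by norm_num)
    refine ⟨h1.const_mul 8, ?_⟩
    rw [integral_const_mul]
    have e : (2 : ℝ) ^ b = (2 : ℝ) ^ s.k * 2 ^ (s.k - b).natAbs := by
      rw [← zpow_natCast, ← zpow_add₀ (by norm_num)]
      congr 1
      omega
    rw [e] at h2
    nlinarith

theorem scale {T : Finset Tile} {K Λ : ℤ} {ξ : ℝ} (hT : PTree T K Λ ξ) (b k : ℤ) (x : ℝ) :
    ∑ s ∈ T.filter (fun s => s.k = k), V b s x ≤ 16 := by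
  have inj : Set.InjOn (fun s : Tile => s.l) (T.filter (fun s => s.k = k)) := by
    intro s hs t ht hst
    simp only [Finset.coe_filter, Set.mem_ofPred_eq] at hs ht
    have hk : s.k = t.k := hs.2.trans ht.2.symm
    exact Tile.ext hk hst (m_eq hk (up_sub s (hT s hs.1).2) (up_sub t (hT t ht.1).2))
  have key : ∀ y : ℝ, ∑ s ∈ T.filter (fun s => s.k = k), wt 10 (y - s.l) ≤ 8 := by
    intro y
    have h := p_WTS 10 y 0 ((T.filter (fun s => s.k = k)).image (fun s => s.l)) (by norm_num)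
      le_rfl (fun n _ => abs_nonneg _)
    rw [Finset.sum_image inj] at h
    have e : wt (10 - 2) 0 = 1 := by simp [wt]
    rw [e, mul_one] at h
    exact h
  by_cases hb : b ≤ k
  · have e : ∀ s ∈ T.filter (fun s => s.k = k), V b s x = wt 10 ((2 : ℝ) ^ (-k) * x - s.l) := by
      intro s hs
      have hk := (Finset.mem_filter.1 hs).2
      unfold V Tile.u
      rw [hk, if_pos hb]
    rw [Finset.sum_congr rfl e]
    linarith [key ((2 : ℝ) ^ (-k) * x)]
  · have e : ∀ s ∈ T.filter (fun s => s.k = k), V b s x =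
        wt 10 ((2 : ℝ) ^ (-k) * ((2 : ℝ) ^ b * ⌊(2 : ℝ) ^ (-b) * x⌋) - s.l) +
        wt 10 ((2 : ℝ) ^ (-k) * ((2 : ℝ) ^ b * (⌊(2 : ℝ) ^ (-b) * x⌋ + 1)) - s.l) := by
      intro s hs
      have hk := (Finset.mem_filter.1 hs).2
      unfold V Tile.u
      rw [hk, if_neg hb]
    rw [Finset.sum_congr rfl e, Finset.sum_add_distrib]
    linarith [key ((2 : ℝ) ^ (-k) * ((2 : ℝ) ^ b * ⌊(2 : ℝ) ^ (-b) * x⌋)),
      key ((2 : ℝ) ^ (-k) * ((2 : ℝ) ^ b * (⌊(2 : ℝ) ^ (-b) * x⌋ + 1)))]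

theorem total {T : Finset Tile} {K Λ : ℤ} {ξ : ℝ} (hT : PTree T K Λ ξ) (b : ℤ) (x : ℝ) :
    ∑ s ∈ T, (3 / 4 : ℝ) ^ (s.k - b).natAbs * V b s x ≤ 128 := by
  rw [← Finset.sum_fiberwise_of_maps_to (t := T.image (fun s => s.k)) (g := fun s => s.k)
    (fun s hs => Finset.mem_image_of_mem _ hs)]
  calc ∑ k ∈ T.image (fun s => s.k), ∑ s ∈ T with s.k = k,
        (3 / 4 : ℝ) ^ (s.k - b).natAbs * V b s x
      ≤ ∑ k ∈ T.image (fun s => s.k), (3 / 4 : ℝ) ^ (k - b).natAbs * 16 := by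
        refine Finset.sum_le_sum fun k _ => ?_
        have e : ∀ s ∈ T.filter (fun s => s.k = k), (3 / 4 : ℝ) ^ (s.k - b).natAbs * V b s x =
            (3 / 4 : ℝ) ^ (k - b).natAbs * V b s x := by
          intro s hs
          rw [(Finset.mem_filter.1 hs).2]
        rw [Finset.sum_congr rfl e, ← Finset.mul_sum]
        exact mul_le_mul_of_nonneg_left (scale hT b k x) (by positivity)
    _ ≤ 128 := by
        rw [← Finset.sum_mul]
        have h := geo (r := 3 / 4) (by norm_num) (by norm_num) b (T.image (fun s => s.k))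
        norm_num at h
        linarith

theorem psi_int {A : ℝ} {φ Φ : ℝ → ℂ} (h : WPk A φ Φ) (s : Tile) (ξ : ℝ) :
    Integrable (fun y => fx φ s y * e1 (-(y * ξ))) := by
  have h1 : Integrable (fx φ s) := PK.integrable_fx h s
  have h2 : Continuous (fx φ s) := PK.continuous_fx h s
  have h3 := PK.continuous_e1
  refine h1.norm.mono' (by fun_prop) ?_
  refine Filter.Eventually.of_forall fun y => ?_
  rw [norm_mul, PK.norm_e1, mul_one]

/-- decomposition of the difference -/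
theorem dec {A : ℝ} {φ Φ : ℝ → ℂ} (h : WPk A φ Φ) (T : Finset Tile) (w : Tile → ℂ) (ξ : ℝ)
    (m b : ℤ) (hm : ∀ s ∈ T, m ≤ s.k) (x : ℝ) :
    ps φ T w ξ b x - da (fun y => ps φ T w ξ m y) b x = ∑ s ∈ T, w s *
      (if b ≤ s.k then fx φ s x * e1 (-(x * ξ)) - da (fun y => fx φ s y * e1 (-(y * ξ))) b x
        else - da (fun y => fx φ s y * e1 (-(y * ξ))) b x) := by
  have e1' : ps φ T w ξ b x = ∑ s ∈ T, w s *
      (if b ≤ s.k then fx φ s x * e1 (-(x * ξ)) else 0) := by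
    unfold ps
    rw [Finset.sum_filter, Finset.sum_mul]
    refine Finset.sum_congr rfl fun s _ => ?_
    split_ifs
    · ring
    · ring
  have e2 : ∀ y, ps φ T w ξ m y = ∑ s ∈ T, w s * (fx φ s y * e1 (-(y * ξ))) := by
    intro y
    unfold ps
    rw [Finset.filter_true_of_mem hm, Finset.sum_mul]
    refine Finset.sum_congr rfl fun s _ => ?_
    ring
  have e3 : da (fun y => ps φ T w ξ m y) b x =
      ∑ s ∈ T, w s * da (fun y => fx φ s y * e1 (-(y * ξ))) b x := by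
    unfold da
    simp only [e2]
    rw [integral_finsetSum]
    · rw [Finset.mul_sum]
      refine Finset.sum_congr rfl fun s _ => ?_
      rw [integral_const_mul]
      ring
    · intro s _
      exact ((psi_int h s ξ).const_mul (w s)).integrableOn
  rw [e1', e3, ← Finset.sum_sub_distrib]
  refine Finset.sum_congr rfl fun s _ => ?_
  split_ifs
  · ring
  · ring

/-- pointwise bound -/
theorem ptw {A C : ℝ} {φ Φ : ℝ → ℂ} (h : WPk A φ Φ)
    (hC : ∀ (s : Tile) (ξ : ℝ), ξ ∈ s.up → ∀ (b : ℤ) (x : ℝ),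
      (b ≤ s.k → ‖fx φ s x * e1 (-(x * ξ)) - da (fun y => fx φ s y * e1 (-(y * ξ))) b x‖ ≤
        C * hs s * (2 : ℝ) ^ (b - s.k) * wt 10 (s.u x)) ∧
      (s.k < b → ‖da (fun y => fx φ s y * e1 (-(y * ξ))) b x‖ ≤ C * hs s * (2 : ℝ) ^ (s.k - b) *
        (wt 10 (s.u ((2 : ℝ) ^ b * ⌊(2 : ℝ) ^ (-b) * x⌋)) +
          wt 10 (s.u ((2 : ℝ) ^ b * (⌊(2 : ℝ) ^ (-b) * x⌋ + 1))))))
    {T : Finset Tile} {K Λ : ℤ} {ξ : ℝ} (hT : PTree T K Λ ξ) (w : Tile → ℂ)
    (m b : ℤ) (hm : ∀ s ∈ T, m ≤ s.k) (x : ℝ) :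
    ‖ps φ T w ξ b x - da (fun y => ps φ T w ξ m y) b x‖ ≤
      C * ∑ s ∈ T, ‖w s‖ * hs s * (1 / 2 : ℝ) ^ (s.k - b).natAbs * V b s x := by
  rw [dec h T w ξ m b hm x, Finset.mul_sum]
  refine norm_sum_le_of_le _ fun s hs' => ?_
  obtain ⟨a1, a2⟩ := hC s ξ (hT s hs').2 b x
  rw [norm_mul]
  by_cases hb : b ≤ s.k
  · rw [if_pos hb]
    have e : (2 : ℝ) ^ (b - s.k) = (1 / 2 : ℝ) ^ (s.k - b).natAbs := by
      rw [one_div, inv_pow, ← zpow_natCast, ← zpow_neg]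
      congr 1
      omega
    have h1 := a1 hb
    rw [e] at h1
    have e2 : V b s x = wt 10 (s.u x) := by
      unfold V
      rw [if_pos hb]
    rw [e2]
    calc ‖w s‖ * ‖fx φ s x * e1 (-(x * ξ)) - da (fun y => fx φ s y * e1 (-(y * ξ))) b x‖
        ≤ ‖w s‖ * (C * hs s * (1 / 2 : ℝ) ^ (s.k - b).natAbs * wt 10 (s.u x)) :=
          mul_le_mul_of_nonneg_left h1 (norm_nonneg _)
      _ = _ := by ring
  · rw [if_neg hb, norm_neg]
    have hb' : s.k < b := not_le.1 hb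
    have e : (2 : ℝ) ^ (s.k - b) = (1 / 2 : ℝ) ^ (s.k - b).natAbs := by
      rw [one_div, inv_pow, ← zpow_natCast, ← zpow_neg]
      congr 1
      omega
    have h1 := a2 hb'
    rw [e] at h1
    have e2 : V b s x = wt 10 (s.u ((2 : ℝ) ^ b * ⌊(2 : ℝ) ^ (-b) * x⌋)) +
          wt 10 (s.u ((2 : ℝ) ^ b * (⌊(2 : ℝ) ^ (-b) * x⌋ + 1))) := by
      unfold V
      rw [if_neg hb]
    rw [e2]
    calc ‖w s‖ * ‖da (fun y => fx φ s y * e1 (-(y * ξ))) b x‖
        ≤ ‖w s‖ * (C * hs s * (1 / 2 : ℝ) ^ (s.k - b).natAbs *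
          (wt 10 (s.u ((2 : ℝ) ^ b * ⌊(2 : ℝ) ^ (-b) * x⌋)) +
          wt 10 (s.u ((2 : ℝ) ^ b * (⌊(2 : ℝ) ^ (-b) * x⌋ + 1))))) :=
          mul_le_mul_of_nonneg_left h1 (norm_nonneg _)
      _ = _ := by ring

theorem hs_sq (s : Tile) : hs s ^ 2 * (2 : ℝ) ^ s.k = 1 := by
  have h := two_zpow_pos s.k
  unfold hs
  rw [inv_pow, Real.sq_sqrt h.le, inv_mul_cancel₀ h.ne']

/-- Cauchy-Schwarz -/
theorem cs {T : Finset Tile} {K Λ : ℤ} {ξ : ℝ} (hT : PTree T K Λ ξ) (w : Tile → ℂ)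
    (b : ℤ) (x : ℝ) :
    (∑ s ∈ T, ‖w s‖ * hs s * (1 / 2 : ℝ) ^ (s.k - b).natAbs * V b s x) ^ 2 ≤
      128 * ∑ s ∈ T, ‖w s‖ ^ 2 * hs s ^ 2 * (1 / 3 : ℝ) ^ (s.k - b).natAbs * U b s x := by
  have h1 := Finset.sum_sq_le_sum_mul_sum_of_sq_le_mul T
    (r := fun s => ‖w s‖ * hs s * (1 / 2 : ℝ) ^ (s.k - b).natAbs * V b s x)
    (f := fun s => (3 / 4 : ℝ) ^ (s.k - b).natAbs * V b s x)
    (g := fun s => ‖w s‖ ^ 2 * hs s ^ 2 * (1 / 3 : ℝ) ^ (s.k - b).natAbs * V b s x)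
    (fun s _ => mul_nonneg (by positivity) (V_nonneg b s x))
    (fun s _ => mul_nonneg (by positivity) (V_nonneg b s x))
    (fun s _ => by
      have e : ((1 / 2 : ℝ) ^ (s.k - b).natAbs) ^ 2 =
          (3 / 4 : ℝ) ^ (s.k - b).natAbs * (1 / 3 : ℝ) ^ (s.k - b).natAbs := by
        rw [← pow_mul, mul_comm, pow_mul, ← mul_pow]
        norm_num
      calc (‖w s‖ * hs s * (1 / 2 : ℝ) ^ (s.k - b).natAbs * V b s x) ^ 2
          = ‖w s‖ ^ 2 * hs s ^ 2 * ((1 / 2 : ℝ) ^ (s.k - b).natAbs) ^ 2 * V b s x ^ 2 := by ring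
        _ = (3 / 4 : ℝ) ^ (s.k - b).natAbs * V b s x *
            (‖w s‖ ^ 2 * hs s ^ 2 * (1 / 3 : ℝ) ^ (s.k - b).natAbs * V b s x) := by
          rw [e]
          ring
        _ ≤ _ := le_rfl)
  refine h1.trans ?_
  apply mul_le_mul (total hT b x) _ _ (by norm_num)
  · refine Finset.sum_le_sum fun s _ => ?_
    exact mul_le_mul_of_nonneg_left (V_le b s x) (by positivity)
  · exact Finset.sum_nonneg fun s _ => mul_nonneg (by positivity) (V_nonneg b s x)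

end VJD_

open VJD_ in
/-- VJD: the partial sums are close to the dyadic averages -/
theorem p_VJD (h1 : T_VJP) : T_VJD := by
  intro A
  obtain ⟨C, hC0, hC⟩ := h1 A
  refine ⟨⟨C ^ 2 * 128 * 96, by positivity⟩, ?_⟩
  intro φ Φ hW T K Λ ξ hT w m M hm
  have key : ∀ b : ℤ, ∫⁻ x, ‖ps φ T w ξ b x - da (fun y => ps φ T w ξ m y) b x‖ₑ ^ 2 ≤
      ENNReal.ofReal (C ^ 2 * 128 *
        ∑ s ∈ T, ‖w s‖ ^ 2 * (16 * (2 / 3 : ℝ) ^ (b - s.k).natAbs)) := by
    intro b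
    have hint : Integrable (fun x => C ^ 2 * (128 * ∑ s ∈ T,
        ‖w s‖ ^ 2 * hs s ^ 2 * (1 / 3 : ℝ) ^ (s.k - b).natAbs * U b s x)) := by
      refine Integrable.const_mul (Integrable.const_mul ?_ _) _
      exact integrable_finsetSum _ fun s _ => (U_int b s).1.const_mul _
    have hU0 : ∀ s x, 0 ≤ U b s x := fun s x => (V_nonneg b s x).trans (V_le b s x)
    have hnn : ∀ x, 0 ≤ C ^ 2 * (128 * ∑ s ∈ T,
        ‖w s‖ ^ 2 * hs s ^ 2 * (1 / 3 : ℝ) ^ (s.k - b).natAbs * U b s x) := by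
      intro x
      have := Finset.sum_nonneg (s := T) (f := fun s =>
        ‖w s‖ ^ 2 * hs s ^ 2 * (1 / 3 : ℝ) ^ (s.k - b).natAbs * U b s x)
        fun s _ => mul_nonneg (by positivity) (hU0 s x)
      positivity
    calc ∫⁻ x, ‖ps φ T w ξ b x - da (fun y => ps φ T w ξ m y) b x‖ₑ ^ 2
        ≤ ∫⁻ x, ENNReal.ofReal (C ^ 2 * (128 * ∑ s ∈ T,
          ‖w s‖ ^ 2 * hs s ^ 2 * (1 / 3 : ℝ) ^ (s.k - b).natAbs * U b s x)) := by
          refine lintegral_mono fun x => ?_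
          have a1 := ptw hW (hC φ Φ hW) hT w m b hm x
          have a2 := cs hT w b x
          have a3 : ‖ps φ T w ξ b x - da (fun y => ps φ T w ξ m y) b x‖ ^ 2 ≤
              C ^ 2 * (128 * ∑ s ∈ T,
                ‖w s‖ ^ 2 * hs s ^ 2 * (1 / 3 : ℝ) ^ (s.k - b).natAbs * U b s x) := by
            calc ‖ps φ T w ξ b x - da (fun y => ps φ T w ξ m y) b x‖ ^ 2
                ≤ (C * ∑ s ∈ T, ‖w s‖ * hs s * (1 / 2 : ℝ) ^ (s.k - b).natAbs * V b s x) ^ 2 :=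
                  pow_le_pow_left₀ (norm_nonneg _) a1 2
              _ ≤ _ := by
                  rw [mul_pow]
                  exact mul_le_mul_of_nonneg_left a2 (sq_nonneg C)
          rw [← ofReal_norm, ← ENNReal.ofReal_pow (norm_nonneg _)]
          exact ENNReal.ofReal_le_ofReal a3
      _ = ENNReal.ofReal (∫ x, C ^ 2 * (128 * ∑ s ∈ T,
          ‖w s‖ ^ 2 * hs s ^ 2 * (1 / 3 : ℝ) ^ (s.k - b).natAbs * U b s x)) :=
          (ofReal_integral_eq_lintegral_ofReal hint (Filter.Eventually.of_forall hnn)).symm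
      _ ≤ _ := by
          apply ENNReal.ofReal_le_ofReal
          rw [integral_const_mul, integral_const_mul, integral_finsetSum _
            fun s _ => (U_int b s).1.const_mul _, mul_assoc]
          apply mul_le_mul_of_nonneg_left _ (sq_nonneg C)
          apply mul_le_mul_of_nonneg_left _ (by norm_num)
          refine Finset.sum_le_sum fun s _ => ?_
          rw [integral_const_mul]
          have b1 := (U_int b s).2
          have b2 := hs_sq s
          have b3 : (b - s.k).natAbs = (s.k - b).natAbs := by omega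
          have b4 : (2 / 3 : ℝ) ^ (s.k - b).natAbs =
              (1 / 3 : ℝ) ^ (s.k - b).natAbs * 2 ^ (s.k - b).natAbs := by
            rw [← mul_pow]
            norm_num
          calc ‖w s‖ ^ 2 * hs s ^ 2 * (1 / 3 : ℝ) ^ (s.k - b).natAbs * ∫ x, U b s x
              ≤ ‖w s‖ ^ 2 * hs s ^ 2 * (1 / 3 : ℝ) ^ (s.k - b).natAbs *
                (16 * (2 : ℝ) ^ s.k * 2 ^ (s.k - b).natAbs) :=
                mul_le_mul_of_nonneg_left b1 (by positivity)
            _ = ‖w s‖ ^ 2 * (hs s ^ 2 * (2 : ℝ) ^ s.k) *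
                (16 * ((1 / 3 : ℝ) ^ (s.k - b).natAbs * 2 ^ (s.k - b).natAbs)) := by ring
            _ = ‖w s‖ ^ 2 * (16 * (2 / 3 : ℝ) ^ (b - s.k).natAbs) := by
                rw [b2, b3, b4, mul_one]
  calc ∑ b ∈ Finset.Icc m M, ∫⁻ x, ‖ps φ T w ξ b x - da (fun y => ps φ T w ξ m y) b x‖ₑ ^ 2
      ≤ ∑ b ∈ Finset.Icc m M, ENNReal.ofReal (C ^ 2 * 128 *
        ∑ s ∈ T, ‖w s‖ ^ 2 * (16 * (2 / 3 : ℝ) ^ (b - s.k).natAbs)) :=
        Finset.sum_le_sum fun b _ => key b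
    _ = ENNReal.ofReal (∑ b ∈ Finset.Icc m M, C ^ 2 * 128 *
        ∑ s ∈ T, ‖w s‖ ^ 2 * (16 * (2 / 3 : ℝ) ^ (b - s.k).natAbs)) := by
        rw [ENNReal.ofReal_sum_of_nonneg]
        intro b _
        have := Finset.sum_nonneg (s := T) (f := fun s =>
          ‖w s‖ ^ 2 * (16 * (2 / 3 : ℝ) ^ (b - s.k).natAbs)) fun s _ => by positivity
        positivity
    _ ≤ ENNReal.ofReal (C ^ 2 * 128 * 96 * ∑ s ∈ T, ‖w s‖ ^ 2) := by
        apply ENNReal.ofReal_le_ofReal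
        rw [← Finset.mul_sum, Finset.sum_comm, mul_assoc (C ^ 2 * 128)]
        apply mul_le_mul_of_nonneg_left _ (by positivity)
        rw [Finset.mul_sum]
        refine Finset.sum_le_sum fun s _ => ?_
        rw [← Finset.mul_sum, ← Finset.mul_sum]
        have g := geo (r := 2 / 3) (by norm_num) (by norm_num) s.k (Finset.Icc m M)
        have g2 : (2 : ℝ) / (1 - 2 / 3) = 6 := by norm_num
        rw [g2] at g
        have g3 : 0 ≤ ‖w s‖ ^ 2 := sq_nonneg _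
        nlinarith
    _ = _ := by
        rw [ENNReal.ofReal_mul (by positivity), ENNReal.ofReal_sum_of_nonneg
          (fun s _ => by positivity)]
        congr 1
        · rw [ENNReal.ofReal, Real.toNNReal_of_nonneg (by positivity)]
          rfl
        · refine Finset.sum_congr rfl fun s _ => ?_
          rw [ENNReal.ofReal_pow (norm_nonneg _), ofReal_norm]

end Pool.Agent.VRC
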