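import Pool.Agent.VRC.Targets
import Pool.Agent.CAR.P_OSC
import Pool.Agent.CAR.P_CHI2
import Pool.Agent.CAR.P_FXB
import Pool.Agent.CAR.P_WTI

set_option autoImplicit false

/-!
# VRC: pointwise bounds for the dyadic averages of a demodulated packet
-/

namespace Pool.Agent.VRC

open MeasureTheory Set ComplexConjugate
open scoped ENNReal NNReal
open Pool.Agent.CAR

namespace VJP_

/-- the demodulated packet -/
noncomputable def psi (φ : ℝ → ℂ) (s : Tile) (ξ y : ℝ) : ℂ := fx φ s y * e1 (-(y * ξ))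

theorem wt_anti (n : ℕ) {a b : ℝ} (h : |a| ≤ |b|) : wt n b ≤ wt n a := by
  unfold wt
  have := abs_nonneg a
  exact inv_anti₀ (by positivity) (pow_le_pow_left₀ (by positivity) (by linarith) n)

variable {A : ℝ} {φ Φ : ℝ → ℂ}

theorem norm_psi (s : Tile) (ξ y : ℝ) : ‖psi φ s ξ y‖ = ‖fx φ s y‖ := by
  unfold psi
  rw [norm_mul, PK.norm_e1, mul_one]

theorem cont_psi (h : WPk A φ Φ) (s : Tile) (ξ : ℝ) : Continuous (psi φ s ξ) := by
  have h1 := (p_FXB A φ Φ h s).1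
  have h2 := PK.continuous_e1
  unfold psi
  exact h1.mul (h2.comp ((continuous_id.mul continuous_const).neg))

theorem int_psi (h : WPk A φ Φ) (s : Tile) (ξ : ℝ) : Integrable (psi φ s ξ) := by
  have h1 := (p_FXB A φ Φ h s).2.2.2.2.2.1
  exact h1.mono (cont_psi h s ξ).aestronglyMeasurable
    (Filter.Eventually.of_forall fun y => (norm_psi s ξ y).le)

theorem zero_psi (h : WPk A φ Φ) {s : Tile} {ξ : ℝ} (hs : ξ ∈ s.up) :
    ∫ y, psi φ s ξ y = 0 := by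
  have h1 := (p_FXR A φ Φ h s).2 ξ
  unfold psi
  rw [← h1]
  by_contra h2
  exact Set.disjoint_left.1 (lo_disj_up s) ((p_FXB A φ Φ h s).2.2.2.2.1 ξ h2) hs

theorem bd_psi (h : WPk A φ Φ) (s : Tile) (ξ y : ℝ) {w : ℝ} (hw : wt 10 (s.u y) ≤ w) :
    ‖psi φ s ξ y‖ ≤ A * hs s * w * wt 10 (s.u y) := by
  rw [norm_psi]
  have h1 := (p_FXB A φ Φ h s).2.2.1 y
  rw [show (20 : ℕ) = 10 + 10 from rfl, OSC_.wt_add] at h1
  refine h1.trans ?_
  rw [mul_assoc (A * hs s)]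
  exact mul_le_mul_of_nonneg_left
    (mul_le_mul_of_nonneg_right hw (OSC_.wt_pos 10 _).le)
    (mul_nonneg h.pos.le (OSC_.hs_pos s).le)

theorem tail (h : WPk A φ Φ) (s : Tile) (ξ : ℝ) {S : Set ℝ} (hS : MeasurableSet S) {w : ℝ}
    (hw : ∀ y ∈ S, wt 10 (s.u y) ≤ w) (hw0 : 0 ≤ w) :
    ∫ y in S, ‖psi φ s ξ y‖ ≤ 2 * A * hs s * (2 : ℝ) ^ s.k * w := by
  obtain ⟨i1, i2⟩ := p_WTI 10 s.k (s.l : ℝ) (by norm_num)
  have i1' : Integrable fun y => wt 10 (s.u y) := i1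
  have i2' : ∫ y, wt 10 (s.u y) ≤ 2 * (2 : ℝ) ^ s.k := i2
  have hA : 0 ≤ A * hs s * w := mul_nonneg (mul_nonneg h.pos.le (OSC_.hs_pos s).le) hw0
  calc ∫ y in S, ‖psi φ s ξ y‖ ≤ ∫ y in S, A * hs s * w * wt 10 (s.u y) := by
        refine setIntegral_mono_on (int_psi h s ξ).norm.integrableOn
          (i1'.const_mul _).integrableOn hS fun y hy => bd_psi h s ξ y (hw y hy)
    _ ≤ ∫ y, A * hs s * w * wt 10 (s.u y) :=
        setIntegral_le_integral (i1'.const_mul _)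
          (Filter.Eventually.of_forall fun y => mul_nonneg hA (OSC_.wt_pos 10 _).le)
    _ = A * hs s * w * ∫ y, wt 10 (s.u y) := integral_const_mul _ _
    _ ≤ A * hs s * w * (2 * (2 : ℝ) ^ s.k) := mul_le_mul_of_nonneg_left i2' hA
    _ = _ := by ring

theorem u_mono (s : Tile) {x y : ℝ} (h : x ≤ y) : s.u x ≤ s.u y := by
  unfold Tile.u
  have := mul_le_mul_of_nonneg_left h (two_zpow_pos (-s.k)).le
  linarith

theorem tail_right (h : WPk A φ Φ) (s : Tile) (ξ : ℝ) {e : ℝ} (he : 0 ≤ s.u e) :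
    ∫ y in Ici e, ‖psi φ s ξ y‖ ≤ 2 * A * hs s * (2 : ℝ) ^ s.k * wt 10 (s.u e) := by
  refine tail h s ξ measurableSet_Ici (fun y hy => ?_) (OSC_.wt_pos 10 _).le
  have h1 := u_mono s (mem_Ici.1 hy)
  exact wt_anti 10 (by rw [abs_of_nonneg he, abs_of_nonneg (he.trans h1)]; exact h1)

theorem tail_left (h : WPk A φ Φ) (s : Tile) (ξ : ℝ) {e : ℝ} (he : s.u e ≤ 0) :
    ∫ y in Iio e, ‖psi φ s ξ y‖ ≤ 2 * A * hs s * (2 : ℝ) ^ s.k * wt 10 (s.u e) := by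
  refine tail h s ξ measurableSet_Iio (fun y hy => ?_) (OSC_.wt_pos 10 _).le
  have h1 := u_mono s (mem_Iio.1 hy).le
  exact wt_anti 10 (by
    rw [abs_of_nonpos he, abs_of_nonpos (h1.trans he)]
    linarith)

theorem sub_le (h : WPk A φ Φ) (s : Tile) (ξ : ℝ) {S T : Set ℝ} (hST : S ⊆ T) :
    ‖∫ y in S, psi φ s ξ y‖ ≤ ∫ y in T, ‖psi φ s ξ y‖ := by
  refine (norm_integral_le_integral_norm _).trans ?_
  exact setIntegral_mono_set (int_psi h s ξ).norm.integrableOn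
    (Filter.Eventually.of_forall fun y => norm_nonneg _) (Filter.Eventually.of_forall hST)

theorem int_Ico (h : WPk A φ Φ) {s : Tile} {ξ : ℝ} (hs' : ξ ∈ s.up) {a b : ℝ} (hab : a ≤ b) :
    ‖∫ y in Ico a b, psi φ s ξ y‖ ≤
      2 * A * hs s * (2 : ℝ) ^ s.k * (wt 10 (s.u a) + wt 10 (s.u b)) := by
  have hT : 0 ≤ 2 * A * hs s * (2 : ℝ) ^ s.k := by
    have h1 := h.pos
    have h2 := OSC_.hs_pos s
    have h3 := two_zpow_pos s.k
    positivity
  have ha := OSC_.wt_pos 10 (s.u a)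
  have hb := OSC_.wt_pos 10 (s.u b)
  rcases le_or_gt 0 (s.u a) with h1 | h1
  · refine (sub_le h s ξ (T := Ici a) fun y hy => hy.1).trans ((tail_right h s ξ h1).trans ?_)
    exact mul_le_mul_of_nonneg_left (by linarith) hT
  rcases le_or_gt (s.u b) 0 with h2 | h2
  · refine (sub_le h s ξ (T := Iio b) fun y hy => hy.2).trans ((tail_left h s ξ h2).trans ?_)
    exact mul_le_mul_of_nonneg_left (by linarith) hT
  have h3 := integral_add_compl (measurableSet_Ico (a := a) (b := b)) (int_psi h s ξ)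
  rw [zero_psi h hs'] at h3
  have h4 : ∫ y in Ico a b, psi φ s ξ y = -∫ y in (Ico a b)ᶜ, psi φ s ξ y :=
    eq_neg_of_add_eq_zero_left h3
  rw [h4, norm_neg]
  have h5 : (Ico a b)ᶜ ⊆ Iio a ∪ Ici b := by
    intro y hy
    rcases lt_or_ge y a with h6 | h6
    · exact Or.inl h6
    rcases lt_or_ge y b with h7 | h7
    · exact absurd ⟨h6, h7⟩ hy
    · exact Or.inr h7
  refine (sub_le h s ξ h5).trans ?_
  rw [setIntegral_union (Set.disjoint_left.2 fun y h6 h7 => absurd (mem_Iio.1 h6)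
    (not_lt.2 (hab.trans (mem_Ici.1 h7)))) measurableSet_Ici (int_psi h s ξ).norm.integrableOn
    (int_psi h s ξ).norm.integrableOn, mul_add]
  exact add_le_add (tail_left h s ξ h1.le) (tail_right h s ξ h2.le)

end VJP_

open VJP_ in
theorem p_VJP : T_VJP := by
  intro A
  obtain ⟨C₀, hC₀, hosc⟩ := p_OSC p_CHI2 A
  refine ⟨C₀ + 2 * |A|, by positivity, fun φ Φ h s ξ hξ b x => ⟨fun hb => ?_, fun hb => ?_⟩⟩
  · have hv : volume.real (dy b ⌊(2 : ℝ) ^ (-b) * x⌋) = (2 : ℝ) ^ b := by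
      rw [Measure.real, volume_dy, ENNReal.toReal_ofReal (two_zpow_pos b).le]
    have hvt : volume (dy b ⌊(2 : ℝ) ^ (-b) * x⌋) < ⊤ := by
      rw [volume_dy]
      exact ENNReal.ofReal_lt_top
    have hx := exists_mem_dy b x
    have e1' : psi φ s ξ x = ((2 : ℝ) ^ (-b) : ℝ) *
        ∫ _y in dy b ⌊(2 : ℝ) ^ (-b) * x⌋, psi φ s ξ x := by
      rw [setIntegral_const, hv, Complex.real_smul, ← mul_assoc, ← Complex.ofReal_mul,
        two_zpow_neg_mul, Complex.ofReal_one, one_mul]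
    have e2 : psi φ s ξ x - da (psi φ s ξ) b x = ((2 : ℝ) ^ (-b) : ℝ) *
        ∫ y in dy b ⌊(2 : ℝ) ^ (-b) * x⌋, (psi φ s ξ x - psi φ s ξ y) := by
      have hci : IntegrableOn (fun _ : ℝ => psi φ s ξ x) (dy b ⌊(2 : ℝ) ^ (-b) * x⌋) := by
        unfold dy
        exact continuous_const.integrableOn_Icc.mono_set Ico_subset_Icc_self
      rw [integral_sub hci (int_psi h s ξ).integrableOn, mul_sub, ← e1', da]
    show ‖psi φ s ξ x - da (psi φ s ξ) b x‖ ≤ _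
    rw [e2, norm_mul, Complex.norm_real, Real.norm_of_nonneg (two_zpow_pos (-b)).le]
    have h3 : ‖∫ y in dy b ⌊(2 : ℝ) ^ (-b) * x⌋, (psi φ s ξ x - psi φ s ξ y)‖ ≤
        C₀ * hs s * (2 : ℝ) ^ (b - s.k) * wt 10 (s.u x) *
          volume.real (dy b ⌊(2 : ℝ) ^ (-b) * x⌋) := by
      refine norm_setIntegral_le_of_norm_le_const hvt fun y hy => ?_
      have hxy : |x - y| ≤ (2 : ℝ) ^ b := by
        simp only [dy, mem_Ico] at hx hy
        rw [abs_le]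
        constructor <;> nlinarith [hx.1, hx.2, hy.1, hy.2]
      refine (hosc φ Φ h s ξ hξ x y (hxy.trans (two_zpow_le hb))).trans ?_
      have h4 : (2 : ℝ) ^ (-s.k) * |x - y| ≤ (2 : ℝ) ^ (b - s.k) := by
        rw [show b - s.k = -s.k + b by ring, zpow_add₀ (by norm_num)]
        exact mul_le_mul_of_nonneg_left hxy (two_zpow_pos (-s.k)).le
      exact mul_le_mul_of_nonneg_right
        (mul_le_mul_of_nonneg_left h4 (mul_nonneg hC₀.le (OSC_.hs_pos s).le))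
        (OSC_.wt_pos 10 _).le
    rw [hv] at h3
    have h5 : 0 ≤ hs s * (2 : ℝ) ^ (b - s.k) * wt 10 (s.u x) :=
      mul_nonneg (mul_nonneg (OSC_.hs_pos s).le (two_zpow_pos _).le) (OSC_.wt_pos 10 _).le
    calc (2 : ℝ) ^ (-b) * ‖∫ y in dy b ⌊(2 : ℝ) ^ (-b) * x⌋, (psi φ s ξ x - psi φ s ξ y)‖
        ≤ (2 : ℝ) ^ (-b) *
          (C₀ * hs s * (2 : ℝ) ^ (b - s.k) * wt 10 (s.u x) * (2 : ℝ) ^ b) :=
        mul_le_mul_of_nonneg_left h3 (two_zpow_pos (-b)).le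
      _ = ((2 : ℝ) ^ (-b) * (2 : ℝ) ^ b) *
          (C₀ * (hs s * (2 : ℝ) ^ (b - s.k) * wt 10 (s.u x))) := by ring
      _ = C₀ * (hs s * (2 : ℝ) ^ (b - s.k) * wt 10 (s.u x)) := by
        rw [two_zpow_neg_mul, one_mul]
      _ ≤ (C₀ + 2 * |A|) * (hs s * (2 : ℝ) ^ (b - s.k) * wt 10 (s.u x)) :=
        mul_le_mul_of_nonneg_right (by linarith [abs_nonneg A]) h5
      _ = _ := by ring
  · have hA : |A| = A := abs_of_pos h.pos
    have h1 : (2 : ℝ) ^ b * (⌊(2 : ℝ) ^ (-b) * x⌋ : ℝ) ≤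
        (2 : ℝ) ^ b * ((⌊(2 : ℝ) ^ (-b) * x⌋ : ℝ) + 1) :=
      mul_le_mul_of_nonneg_left (by linarith) (two_zpow_pos b).le
    have h2 := int_Ico h hξ h1
    show ‖da (psi φ s ξ) b x‖ ≤ _
    rw [da, norm_mul, Complex.norm_real, Real.norm_of_nonneg (two_zpow_pos (-b)).le]
    set w : ℝ := wt 10 (s.u ((2 : ℝ) ^ b * (⌊(2 : ℝ) ^ (-b) * x⌋ : ℝ))) +
      wt 10 (s.u ((2 : ℝ) ^ b * ((⌊(2 : ℝ) ^ (-b) * x⌋ : ℝ) + 1))) with hw
    have hw0 : 0 ≤ w := add_nonneg (OSC_.wt_pos 10 _).le (OSC_.wt_pos 10 _).le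
    have h5 : 0 ≤ hs s * (2 : ℝ) ^ (s.k - b) * w :=
      mul_nonneg (mul_nonneg (OSC_.hs_pos s).le (two_zpow_pos _).le) hw0
    calc (2 : ℝ) ^ (-b) * ‖∫ y in dy b ⌊(2 : ℝ) ^ (-b) * x⌋, psi φ s ξ y‖
        ≤ (2 : ℝ) ^ (-b) * (2 * A * hs s * (2 : ℝ) ^ s.k * w) :=
        mul_le_mul_of_nonneg_left h2 (two_zpow_pos (-b)).le
      _ = 2 * A * (hs s * (2 : ℝ) ^ (s.k - b) * w) := by
        rw [show s.k - b = s.k + -b by ring, zpow_add₀ (by norm_num)]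
        ring
      _ ≤ (C₀ + 2 * |A|) * (hs s * (2 : ℝ) ^ (s.k - b) * w) := by
        refine mul_le_mul_of_nonneg_right ?_ h5
        rw [hA]
        linarith
      _ = _ := by ring

end Pool.Agent.VRC
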