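import Pool.Agent.VRC.Targets
import Pool.Agent.CAR.P_LIM
import Pool.Agent.CAR.P_BT

set_option autoImplicit false

/-!
# VRC: the limit operator (target VLIM)
-/

namespace Pool.Agent.VRC

open MeasureTheory Set ComplexConjugate Filter Topology
open scoped ENNReal NNReal
open Pool.Agent.CAR

namespace VLIM_

open Pool.Agent.CAR.LIM_ (norm_e1 cont_e1 cont_Bt bd_rho abs_Bt cont_S abs_S S)
open Pool.Agent.CAR.BT_ (be Bt_eq be_cont be_nonneg be_supp ga ga_cont ga_int)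

/-- the truncated sum over the scales -/
noncomputable def SS (ρ : ℝ → ℝ) (K : ℕ) (κ d a : ℝ) : ℝ :=
  ∑ k ∈ Finset.Icc (-(K : ℤ)) K,
    if 5 / 4 ≤ (2 : ℝ) ^ κ * (2 : ℝ) ^ k * d then Bt ρ ((2 : ℝ) ^ κ * (2 : ℝ) ^ k) a else 0

/-- its average -/
noncomputable def MM (ρ : ℝ → ℝ) (K : ℕ) (d a : ℝ) : ℝ := ∫ κ in (0 : ℝ)..1, SS ρ K κ d a

theorem Bt_nonneg (ρ : ℝ → ℝ) (t a : ℝ) : 0 ≤ Bt ρ t a := by
  rw [Bt_eq]
  exact be_nonneg _ _

theorem SS_nonneg (ρ : ℝ → ℝ) (K : ℕ) (κ d a : ℝ) : 0 ≤ SS ρ K κ d a := by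
  refine Finset.sum_nonneg fun k _ => ?_
  split_ifs
  · exact Bt_nonneg _ _ _
  · exact le_rfl

theorem SS_le (ρ : ℝ → ℝ) (K : ℕ) (κ d a : ℝ) : SS ρ K κ d a ≤ S ρ K κ a := by
  refine Finset.sum_le_sum fun k _ => ?_
  split_ifs
  · exact le_rfl
  · exact Bt_nonneg _ _ _

theorem abs_SS {ρ : ℝ → ℝ} {M : ℝ} (hM : ∀ x, ρ x ^ 2 ≤ M) (K : ℕ) (κ d a : ℝ) :
    |SS ρ K κ d a| ≤ (Finset.Icc (-(K : ℤ)) K).card * M := by
  rw [abs_of_nonneg (SS_nonneg _ _ _ _ _)]
  exact (SS_le _ _ _ _ _).trans ((le_abs_self _).trans (abs_S hM _ _ _))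

theorem meas_pow : Measurable (fun κ : ℝ => (2 : ℝ) ^ κ) :=
  (Real.continuous_const_rpow (by norm_num)).measurable

theorem meas_SS {ρ : ℝ → ℝ} (h : Continuous ρ) (K : ℕ) :
    Measurable (fun q : ℝ × ℝ × ℝ => SS ρ K q.1 q.2.1 q.2.2) := by
  unfold SS
  refine Finset.measurable_fun_sum _ fun k _ => ?_
  have h1 : Measurable (fun q : ℝ × ℝ × ℝ => (2 : ℝ) ^ q.1 * (2 : ℝ) ^ k) :=
    (meas_pow.comp measurable_fst).mul_const _
  have h2 : Measurable (fun q : ℝ × ℝ × ℝ => (2 : ℝ) ^ q.1 * (2 : ℝ) ^ k * q.2.1) :=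
    h1.mul (measurable_fst.comp measurable_snd)
  refine Measurable.ite (measurableSet_le measurable_const h2) ?_ measurable_const
  exact (cont_Bt h).measurable.comp (h1.prodMk (measurable_snd.comp measurable_snd))

theorem MM_def (ρ : ℝ → ℝ) (K : ℕ) (d a : ℝ) :
    MM ρ K d a = ∫ κ in (0 : ℝ)..1, SS ρ K κ d a := rfl

theorem mK_eq (ρ : ℝ → ℝ) (K : ℕ) (a : ℝ) : mK ρ K a = ∫ κ in (0 : ℝ)..1, S ρ K κ a := rfl

section

attribute [local irreducible] SS Pool.Agent.CAR.LIM_.S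

theorem int_SS {ρ : ℝ → ℝ} (h : Continuous ρ) {M : ℝ} (hM : ∀ x, ρ x ^ 2 ≤ M) (K : ℕ)
    (d a : ℝ) : IntervalIntegrable (fun κ => SS ρ K κ d a) volume 0 1 := by
  rw [intervalIntegrable_iff_integrableOn_Ioc_of_le zero_le_one]
  have h1 : Measurable (fun κ => SS ρ K κ d a) :=
    (meas_SS h K).comp (measurable_id.prodMk (measurable_const (a := (d, a))))
  refine Integrable.of_bound h1.aestronglyMeasurable
    ((Finset.Icc (-(K : ℤ)) K).card * M) (Eventually.of_forall fun κ => ?_)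
  rw [Real.norm_eq_abs]
  exact abs_SS hM _ _ _ _

theorem MM_nonneg (ρ : ℝ → ℝ) (K : ℕ) (d a : ℝ) : 0 ≤ MM ρ K d a :=
  intervalIntegral.integral_nonneg zero_le_one fun _ _ => SS_nonneg _ _ _ _ _

theorem MM_le {ρ : ℝ → ℝ} (h : Continuous ρ) {M : ℝ} (hM : ∀ x, ρ x ^ 2 ≤ M) (K : ℕ)
    (d a : ℝ) : MM ρ K d a ≤ mK ρ K a := by
  have h1 : IntervalIntegrable (fun κ => S ρ K κ a) volume 0 1 :=
    ((cont_S h K).comp (Continuous.prodMk_left a)).intervalIntegrable _ _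
  rw [MM_def, mK_eq]
  exact intervalIntegral.integral_mono_on zero_le_one (int_SS h hM K d a) h1
    fun κ _ => SS_le _ _ _ _ _

theorem abs_MM {ρ : ℝ → ℝ} (h : Continuous ρ) {M : ℝ} (hM : ∀ x, ρ x ^ 2 ≤ M) {M' : ℝ}
    (hM' : ∀ (K : ℕ) (a : ℝ), |mK ρ K a| ≤ M') (K : ℕ) (d a : ℝ) : |MM ρ K d a| ≤ M' := by
  rw [abs_of_nonneg (MM_nonneg _ _ _ _)]
  exact (MM_le h hM K d a).trans ((le_abs_self _).trans (hM' K a))

theorem meas_MM {ρ : ℝ → ℝ} (h : Continuous ρ) (K : ℕ) :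
    Measurable (fun q : ℝ × ℝ => MM ρ K q.1 q.2) := by
  have h1 : Measurable (fun q : (ℝ × ℝ) × ℝ => SS ρ K q.2 q.1.1 q.1.2) :=
    (meas_SS h K).comp (measurable_snd.prodMk measurable_fst)
  have h2 := (h1.stronglyMeasurable.integral_prod_right'
    (ν := volume.restrict (Ioc (0 : ℝ) 1))).measurable
  have h3 : (fun q : ℝ × ℝ => MM ρ K q.1 q.2) =
      fun q : ℝ × ℝ => ∫ κ in Ioc (0 : ℝ) 1, SS ρ K κ q.1 q.2 := by
    funext q
    unfold MM
    rw [intervalIntegral.integral_of_le zero_le_one]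
  rw [h3]
  exact h2

end

/-! ### the limit -/

theorem sum_int {f : ℝ → ℝ} (hf : Integrable f) (K : ℕ) :
    ∑ k ∈ Finset.Icc (-(K : ℤ)) K, ∫ κ in (0 : ℝ)..1, f (κ + k) =
      ∫ τ in (-(K : ℝ))..(K + 1), f τ := by
  induction K with
  | zero =>
    simp
  | succ n ih =>
    have e : Finset.Icc (-((n + 1 : ℕ) : ℤ)) ((n + 1 : ℕ) : ℤ) =
        insert (-((n : ℤ) + 1)) (insert ((n : ℤ) + 1) (Finset.Icc (-(n : ℤ)) n)) := by
      ext x
      simp only [Finset.mem_Icc, Finset.mem_insert]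
      push_cast
      omega
    rw [e, Finset.sum_insert, Finset.sum_insert, ih]
    · have hi : ∀ a b : ℝ, IntervalIntegrable f volume a b := fun a b => hf.intervalIntegrable
      rw [intervalIntegral.integral_comp_add_right, intervalIntegral.integral_comp_add_right]
      push_cast
      rw [show (0 : ℝ) + -(n + 1 : ℝ) = -(n + 1) by ring,
        show (1 : ℝ) + -(n + 1 : ℝ) = -n by ring,
        show (0 : ℝ) + ((n : ℝ) + 1) = n + 1 by ring,
        show (1 : ℝ) + ((n : ℝ) + 1) = n + 1 + 1 by ring]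
      have a1 := intervalIntegral.integral_add_adjacent_intervals (hi (-(n + 1)) (-n))
        (hi (-n) (n + 1))
      have a2 := intervalIntegral.integral_add_adjacent_intervals (hi (-(n + 1)) (n + 1))
        (hi (n + 1) (n + 1 + 1))
      linarith
    · simp only [Finset.mem_Icc]
      omega
    · simp only [Finset.mem_Icc, Finset.mem_insert]
      omega

/-- the summand -/
noncomputable def ff (ρ : ℝ → ℝ) (d a τ : ℝ) : ℝ :=
  if 5 / 4 ≤ (2 : ℝ) ^ τ * d then be ρ ((2 : ℝ) ^ τ * a) else 0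

theorem ff_int {A : ℝ} {ρ : ℝ → ℝ} (hρ : Bmp A ρ) (d : ℝ) {a : ℝ} (ha : 0 < a) :
    Integrable (ff ρ d a) := by
  have h1 := (ga_int hρ.cont hρ.supp).comp_add_right (Real.logb 2 a)
  have h2 : (fun τ => ga ρ (τ + Real.logb 2 a)) = fun τ => be ρ ((2 : ℝ) ^ τ * a) := by
    funext τ
    unfold ga
    rw [Real.rpow_add (by norm_num), Real.rpow_logb (by norm_num) (by norm_num) ha]
  rw [h2] at h1
  have hs : MeasurableSet {τ : ℝ | 5 / 4 ≤ (2 : ℝ) ^ τ * d} :=
    measurableSet_le measurable_const (meas_pow.mul_const _)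
  have h3 := h1.indicator hs
  refine h3.congr (Eventually.of_forall fun τ => ?_)
  simp only [ff, indicator, mem_ofPred_eq]

theorem MM_eq {A : ℝ} {ρ : ℝ → ℝ} (hρ : Bmp A ρ) {M : ℝ} (hM : ∀ x, ρ x ^ 2 ≤ M) (K : ℕ)
    (d : ℝ) {a : ℝ} (ha : 0 < a) :
    MM ρ K d a = ∫ τ in (-(K : ℝ))..(K + 1), ff ρ d a τ := by
  rw [← sum_int (ff_int hρ d ha)]
  unfold MM SS
  rw [intervalIntegral.integral_finsetSum]
  · refine Finset.sum_congr rfl fun k _ => intervalIntegral.integral_congr fun κ _ => ?_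
    have h1 : (2 : ℝ) ^ (κ + (k : ℝ)) = (2 : ℝ) ^ κ * (2 : ℝ) ^ k := by
      rw [Real.rpow_add (by norm_num), Real.rpow_intCast]
    simp only [ff, h1, Bt_eq]
  · intro k _
    rw [intervalIntegrable_iff_integrableOn_Ioc_of_le zero_le_one]
    have h1 : Measurable (fun κ : ℝ => (2 : ℝ) ^ κ * (2 : ℝ) ^ k) := meas_pow.mul_const _
    have h2 : Measurable (fun κ : ℝ => if 5 / 4 ≤ (2 : ℝ) ^ κ * (2 : ℝ) ^ k * d then
        Bt ρ ((2 : ℝ) ^ κ * (2 : ℝ) ^ k) a else 0) := by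
      refine Measurable.ite (measurableSet_le measurable_const (h1.mul_const _)) ?_
        measurable_const
      exact (cont_Bt hρ.cont).measurable.comp (h1.prodMk measurable_const)
    refine Integrable.of_bound h2.aestronglyMeasurable M (Eventually.of_forall fun κ => ?_)
    rw [Real.norm_eq_abs]
    split_ifs
    · exact abs_Bt hM _ _
    · rw [abs_zero]
      exact (sq_nonneg _).trans (hM 0)

theorem Bt_zero {A : ℝ} {ρ : ℝ → ℝ} (hρ : Bmp A ρ) {t a : ℝ} (ht : 0 < t) (ha : a ≤ 0) :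
    Bt ρ t a = 0 := by
  rw [Bt_eq]
  by_contra h1
  have h2 := be_supp hρ.supp h1
  have h3 : t * a ≤ 0 := mul_nonpos_of_nonneg_of_nonpos ht.le ha
  linarith [h2.1]

/-- change of variables -/
theorem ff_Gm (ρ : ℝ → ℝ) {d a : ℝ} (hd : 0 < d) (ha : 0 < a) :
    ∫ τ, ff ρ d a τ = Gm ρ (a / d) := by
  have hl : 0 < Real.log 2 := Real.log_pos (by norm_num)
  have hs : MeasurableSet {τ : ℝ | 5 / 4 ≤ (2 : ℝ) ^ τ * d} :=
    measurableSet_le measurable_const (meas_pow.mul_const _)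
  have h1 : ∫ τ, ff ρ d a τ = ∫ τ in {τ : ℝ | 5 / 4 ≤ (2 : ℝ) ^ τ * d},
      be ρ ((2 : ℝ) ^ τ * a) := by
    rw [← integral_indicator hs]
    refine integral_congr_ae (Eventually.of_forall fun τ => ?_)
    simp only [ff, indicator, mem_ofPred_eq]
  have hder : ∀ τ ∈ {τ : ℝ | 5 / 4 ≤ (2 : ℝ) ^ τ * d}, HasDerivWithinAt
      (fun τ : ℝ => (2 : ℝ) ^ τ * a) (Real.log 2 * (2 : ℝ) ^ τ * a)
      {τ : ℝ | 5 / 4 ≤ (2 : ℝ) ^ τ * d} τ := by
    intro τ _
    have h2 := ((hasDerivAt_id τ).const_rpow (a := (2 : ℝ)) (by norm_num)).mul_const a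
    refine h2.hasDerivWithinAt.congr_deriv ?_
    simp
  have hinj : InjOn (fun τ : ℝ => (2 : ℝ) ^ τ * a) {τ : ℝ | 5 / 4 ≤ (2 : ℝ) ^ τ * d} := by
    intro x _ y _ hxy
    have h3 : (2 : ℝ) ^ x = (2 : ℝ) ^ y := mul_right_cancel₀ ha.ne' hxy
    have h4 := congrArg (Real.logb 2) h3
    rwa [Real.logb_rpow (by norm_num) (by norm_num),
      Real.logb_rpow (by norm_num) (by norm_num)] at h4
  have himg : (fun τ : ℝ => (2 : ℝ) ^ τ * a) '' {τ : ℝ | 5 / 4 ≤ (2 : ℝ) ^ τ * d} =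
      Ici (5 / 4 * (a / d)) := by
    ext w
    simp only [mem_image, mem_ofPred_eq, mem_Ici]
    constructor
    · rintro ⟨τ, h5, rfl⟩
      rw [← mul_div_assoc, div_le_iff₀ hd]
      nlinarith
    · intro h5
      rw [← mul_div_assoc, div_le_iff₀ hd] at h5
      have hw : 0 < w := by
        by_contra h6
        have : w * d ≤ 0 := mul_nonpos_of_nonpos_of_nonneg (not_lt.1 h6) hd.le
        have : 0 < 5 / 4 * a := by positivity
        linarith
      refine ⟨Real.logb 2 (w / a), ?_, ?_⟩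
      · rw [Real.rpow_logb (by norm_num) (by norm_num) (by positivity), div_mul_eq_mul_div,
          le_div_iff₀ ha]
        exact h5
      · rw [Real.rpow_logb (by norm_num) (by norm_num) (by positivity)]
        field_simp
  have h7 := integral_image_eq_integral_abs_deriv_smul hs hder hinj
    (fun w => be ρ w / w)
  rw [himg] at h7
  have h8 : ∀ τ : ℝ, |Real.log 2 * (2 : ℝ) ^ τ * a| • (be ρ ((2 : ℝ) ^ τ * a) /
      ((2 : ℝ) ^ τ * a)) = Real.log 2 * be ρ ((2 : ℝ) ^ τ * a) := by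
    intro τ
    have h9 : 0 < (2 : ℝ) ^ τ := Real.rpow_pos_of_pos (by norm_num) _
    rw [abs_of_pos (by positivity), smul_eq_mul]
    field_simp
  simp only [h8] at h7
  rw [integral_const_mul, ← h1] at h7
  unfold Gm
  rw [if_pos (div_pos ha hd), eq_div_iff hl.ne', mul_comm, ← h7]
  rw [integral_Ici_eq_integral_Ioi]
  refine setIntegral_congr_fun measurableSet_Ioi fun w _ => ?_
  simp only [Bt_eq, one_mul]

theorem lim_MM {A : ℝ} {ρ : ℝ → ℝ} (hρ : Bmp A ρ) {M : ℝ} (hM : ∀ x, ρ x ^ 2 ≤ M) {d : ℝ}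
    (hd : 0 ≤ d) (a : ℝ) : Tendsto (fun K => MM ρ K d a) atTop (𝓝 (Gm ρ (a / d))) := by
  have hp : ∀ (κ : ℝ) (k : ℤ), 0 < (2 : ℝ) ^ κ * (2 : ℝ) ^ k := fun κ k => by positivity
  rcases le_or_gt a 0 with ha | ha
  · have h1 : ∀ K, MM ρ K d a = 0 := by
      intro K
      unfold MM SS
      have h2 : ∀ κ : ℝ, ∑ k ∈ Finset.Icc (-(K : ℤ)) K,
          (if 5 / 4 ≤ (2 : ℝ) ^ κ * (2 : ℝ) ^ k * d then
            Bt ρ ((2 : ℝ) ^ κ * (2 : ℝ) ^ k) a else 0) = 0 := by
        intro κ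
        refine Finset.sum_eq_zero fun k _ => ?_
        rw [Bt_zero hρ (hp κ k) ha, ite_self]
      simp only [h2]
      simp
    have h3 : Gm ρ (a / d) = 0 := by
      unfold Gm
      rw [if_neg (not_lt.2 (div_nonpos_of_nonpos_of_nonneg ha hd))]
    simp only [h1, h3]
    exact tendsto_const_nhds
  · rcases hd.eq_or_lt with h0 | h0
    · have h1 : ∀ K, MM ρ K d a = 0 := by
        intro K
        unfold MM SS
        have h2 : ∀ κ : ℝ, ∑ k ∈ Finset.Icc (-(K : ℤ)) K,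
            (if 5 / 4 ≤ (2 : ℝ) ^ κ * (2 : ℝ) ^ k * d then
              Bt ρ ((2 : ℝ) ^ κ * (2 : ℝ) ^ k) a else 0) = 0 := by
          intro κ
          refine Finset.sum_eq_zero fun k _ => ?_
          rw [← h0, mul_zero, if_neg (by norm_num)]
        simp only [h2]
        simp
      have h3 : Gm ρ (a / d) = 0 := by
        unfold Gm
        rw [← h0, div_zero, if_neg (lt_irrefl _)]
      simp only [h1, h3]
      exact tendsto_const_nhds
    · rw [← ff_Gm ρ h0 ha]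
      have h1 : Tendsto (fun K : ℕ => ∫ τ in (-(K : ℝ))..(K + 1), ff ρ d a τ) atTop
          (𝓝 (∫ τ, ff ρ d a τ)) := by
        refine intervalIntegral_tendsto_integral (ff_int hρ d ha) ?_ ?_
        · exact tendsto_neg_atTop_atBot.comp tendsto_natCast_atTop_atTop
        · exact tendsto_atTop_add_const_right _ _ tendsto_natCast_atTop_atTop
      exact h1.congr fun K => (MM_eq hρ hM K d ha).symm

/-! ### Fubini -/

section

variable {g : ℝ → ℂ} {b : ℝ → ℂ}

theorem int_w (hb : Integrable b) (hg : Integrable g) {f : ℝ × ℝ → ℝ} (hf : Measurable f)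
    {M : ℝ} (hM : ∀ p, |f p| ≤ M) :
    Integrable (fun p : ℝ × ℝ => b p.1 * (g p.2 * ((f p : ℂ) * e1 (p.1 * p.2))))
      (volume.prod volume) := by
  have hw : Measurable (fun p : ℝ × ℝ => (f p : ℂ) * e1 (p.1 * p.2)) :=
    (Complex.measurable_ofReal.comp hf).mul
      (cont_e1.measurable.comp (measurable_fst.mul measurable_snd))
  have h1 := (hb.mul_prod hg).bdd_mul (c := M) hw.aestronglyMeasurable
    (Eventually.of_forall fun p => by
      rw [norm_mul, norm_e1, mul_one, Complex.norm_real]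
      exact hM _)
  refine h1.congr (Eventually.of_forall fun p => ?_)
  simp only
  ring

theorem in_x (f : ℝ × ℝ → ℝ) (x : ℝ) :
    ∫ ξ, b x * (g ξ * ((f (x, ξ) : ℂ) * e1 (x * ξ))) =
      b x * ∫ ξ, g ξ * (f (x, ξ) : ℂ) * e1 (x * ξ) := by
  rw [← integral_const_mul]
  refine integral_congr_ae (Eventually.of_forall fun ξ => ?_)
  simp only
  ring

theorem int_x (hb : Integrable b) (hg : Integrable g) {f : ℝ × ℝ → ℝ} (hf : Measurable f)
    {M : ℝ} (hM : ∀ p, |f p| ≤ M) :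
    Integrable (fun x => b x * ∫ ξ, g ξ * (f (x, ξ) : ℂ) * e1 (x * ξ)) := by
  have h1 := (int_w hb hg hf hM).integral_prod_left
  refine h1.congr (Eventually.of_forall fun x => ?_)
  exact in_x f x

theorem int2 (hb : Integrable b) (hg : Integrable g) {f : ℝ × ℝ → ℝ} (hf : Measurable f)
    {M : ℝ} (hM : ∀ p, |f p| ≤ M) :
    ∫ p : ℝ × ℝ, b p.1 * (g p.2 * ((f p : ℂ) * e1 (p.1 * p.2))) ∂(volume.prod volume) =
      ∫ x, b x * ∫ ξ, g ξ * (f (x, ξ) : ℂ) * e1 (x * ξ) := by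
  rw [integral_prod _ (int_w hb hg hf hM)]
  refine integral_congr_ae (Eventually.of_forall fun x => ?_)
  exact in_x f x

variable {L : ℕ} {a : ℕ → ℝ → ℂ}

/-- the sum over `j` -/
theorem sum2 (ha : ∀ j < L, Integrable (a j)) (hg : Integrable g) {f : ℕ → ℝ × ℝ → ℝ}
    (hf : ∀ j < L, Measurable (f j)) {M : ℝ} (hM : ∀ j < L, ∀ p, |f j p| ≤ M) :
    ∫ x, ∑ j ∈ Finset.range L, a j x * ∫ ξ, g ξ * (f j (x, ξ) : ℂ) * e1 (x * ξ) =
      ∫ p : ℝ × ℝ, ∑ j ∈ Finset.range L, a j p.1 * (g p.2 * ((f j p : ℂ) * e1 (p.1 * p.2)))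
        ∂(volume.prod volume) := by
  rw [integral_finsetSum _ fun j hj => int_x (ha j (Finset.mem_range.1 hj)) hg
      (hf j (Finset.mem_range.1 hj)) (hM j (Finset.mem_range.1 hj)),
    integral_finsetSum _ fun j hj => int_w (ha j (Finset.mem_range.1 hj)) hg
      (hf j (Finset.mem_range.1 hj)) (hM j (Finset.mem_range.1 hj))]
  refine Finset.sum_congr rfl fun j hj => ?_
  exact (int2 (ha j (Finset.mem_range.1 hj)) hg
      (hf j (Finset.mem_range.1 hj)) (hM j (Finset.mem_range.1 hj))).symm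

/-- the average over the dilations -/
theorem avg (ha : ∀ j < L, Integrable (a j)) (hg : Integrable g)
    {F : ℕ → ℝ → ℝ × ℝ → ℝ} (hF : ∀ j < L, Measurable (fun q : ℝ × (ℝ × ℝ) => F j q.1 q.2))
    {M : ℝ} (hM : ∀ j < L, ∀ κ p, |F j κ p| ≤ M) :
    ∫ p : ℝ × ℝ, ∑ j ∈ Finset.range L, a j p.1 * (g p.2 *
        (((∫ κ in (0 : ℝ)..1, F j κ p : ℝ) : ℂ) * e1 (p.1 * p.2))) ∂(volume.prod volume) =
      ∫ κ in (0 : ℝ)..1, ∫ p : ℝ × ℝ, ∑ j ∈ Finset.range L, a j p.1 * (g p.2 *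
        ((F j κ p : ℂ) * e1 (p.1 * p.2))) ∂(volume.prod volume) := by
  have hI : ∀ j < L, Integrable (fun q : ℝ × (ℝ × ℝ) => a j q.2.1 * (g q.2.2 *
      ((F j q.1 q.2 : ℂ) * e1 (q.2.1 * q.2.2))))
      ((volume.restrict (Ioc (0 : ℝ) 1)).prod (volume.prod volume)) := by
    intro j hj
    have h1 : Integrable (fun q : ℝ × (ℝ × ℝ) => (1 : ℂ) * (a j q.2.1 * g q.2.2))
        ((volume.restrict (Ioc (0 : ℝ) 1)).prod (volume.prod volume)) :=
      (integrable_const (1 : ℂ)).mul_prod ((ha j hj).mul_prod hg)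
    have hw : Measurable (fun q : ℝ × (ℝ × ℝ) => (F j q.1 q.2 : ℂ) * e1 (q.2.1 * q.2.2)) :=
      (Complex.measurable_ofReal.comp (hF j hj)).mul (cont_e1.measurable.comp
        ((measurable_fst.comp measurable_snd).mul (measurable_snd.comp measurable_snd)))
    have h4 := h1.bdd_mul (c := M) hw.aestronglyMeasurable
      (Eventually.of_forall fun q => by
        rw [norm_mul, norm_e1, mul_one, Complex.norm_real]
        exact hM j hj _ _)
    refine h4.congr (Eventually.of_forall fun q => ?_)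
    simp only
    ring
  rw [intervalIntegral.integral_of_le zero_le_one, integral_integral_swap]
  · refine integral_congr_ae ?_
    have hae : ∀ j ∈ Finset.range L, ∀ᵐ p : ℝ × ℝ ∂(volume.prod volume),
        Integrable (fun κ => a j p.1 * (g p.2 * ((F j κ p : ℂ) * e1 (p.1 * p.2))))
          (volume.restrict (Ioc (0 : ℝ) 1)) := by
      intro j hj
      exact (hI j (Finset.mem_range.1 hj)).prod_left_ae
    have hall := (Finset.range L).eventually_all.2 hae
    filter_upwards [hall] with p hp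
    rw [integral_finsetSum _ hp]
    refine Finset.sum_congr rfl fun j _ => ?_
    rw [integral_const_mul, integral_const_mul, integral_mul_const, integral_complex_ofReal,
      intervalIntegral.integral_of_le zero_le_one]
  · have h5 := integrable_finsetSum (Finset.range L) fun j hj =>
      hI j (Finset.mem_range.1 hj)
    exact h5

end

/-- the integrability of the weights -/
theorem int_a {L : ℕ} {a : ℕ → ℝ → ℂ} {h : ℝ} {E : Set ℝ} (hA : AB L a h E) :
    ∀ j < L, Integrable (a j) := by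
  intro j hj
  have h1 : Integrable (E.indicator fun _ => h) :=
    (integrable_indicator_iff hA.mE).2 (integrableOn_const hA.fE)
  refine h1.mono' (hA.ma j).aestronglyMeasurable (Eventually.of_forall fun x => ?_)
  by_cases hx : x ∈ E
  · rw [indicator_of_mem hx]
    have h2 : ‖a j x‖ ^ (4 / 3 : ℝ) ≤ h ^ (4 / 3 : ℝ) :=
      (Finset.single_le_sum (f := fun j => ‖a j x‖ ^ (4 / 3 : ℝ))
        (fun i _ => Real.rpow_nonneg (norm_nonneg _) _) (Finset.mem_range.2 hj)).trans (hA.bd x)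
    exact (Real.rpow_le_rpow_iff (norm_nonneg _) hA.h0 (by norm_num)).1 h2
  · rw [indicator_of_notMem hx, hA.z j hj x hx, norm_zero]

/-- one scale integral, with the sum inside -/
theorem sum_in {g : ℝ → ℂ} (hg : Integrable g) {ρ : ℝ → ℝ} (hρ : Continuous ρ) {M : ℝ}
    (hM : ∀ x, ρ x ^ 2 ≤ M) (K : ℕ) (κ x : ℝ) (p q : ℝ → ℝ) :
    ∑ k ∈ Finset.Icc (-(K : ℤ)) K,
      {y | 5 / 4 ≤ (2 : ℝ) ^ κ * (2 : ℝ) ^ k * (p y - q y)}.indicator
        (fun y => ∫ ξ, g ξ * (Bt ρ ((2 : ℝ) ^ κ * (2 : ℝ) ^ k) (p y - ξ) : ℂ) *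
          e1 (y * ξ)) x =
      ∫ ξ, g ξ * (SS ρ K κ (p x - q x) (p x - ξ) : ℂ) * e1 (x * ξ) := by
  have h0 : ∀ k : ℤ, {y | 5 / 4 ≤ (2 : ℝ) ^ κ * (2 : ℝ) ^ k * (p y - q y)}.indicator
      (fun y => ∫ ξ, g ξ * (Bt ρ ((2 : ℝ) ^ κ * (2 : ℝ) ^ k) (p y - ξ) : ℂ) *
          e1 (y * ξ)) x = ∫ ξ, g ξ * (((if 5 / 4 ≤ (2 : ℝ) ^ κ * (2 : ℝ) ^ k * (p x - q x) then
            Bt ρ ((2 : ℝ) ^ κ * (2 : ℝ) ^ k) (p x - ξ) else 0 : ℝ)) : ℂ) * e1 (x * ξ) := by
    intro k
    by_cases hk : 5 / 4 ≤ (2 : ℝ) ^ κ * (2 : ℝ) ^ k * (p x - q x)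
    · rw [indicator_of_mem (show x ∈ {y | 5 / 4 ≤ (2 : ℝ) ^ κ * (2 : ℝ) ^ k * (p y - q y)}
        from hk)]
      simp only [if_pos hk]
    · rw [indicator_of_notMem (show x ∉ {y | 5 / 4 ≤ (2 : ℝ) ^ κ * (2 : ℝ) ^ k * (p y - q y)}
        from hk)]
      simp only [if_neg hk]
      simp
  simp only [h0]
  rw [← integral_finsetSum]
  · refine integral_congr_ae (Eventually.of_forall fun ξ => ?_)
    simp only
    unfold SS
    rw [Complex.ofReal_sum, Finset.mul_sum, Finset.sum_mul]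
  · intro k _
    have hm : Measurable (fun ξ : ℝ =>
        (((if 5 / 4 ≤ (2 : ℝ) ^ κ * (2 : ℝ) ^ k * (p x - q x) then
            Bt ρ ((2 : ℝ) ^ κ * (2 : ℝ) ^ k) (p x - ξ) else 0 : ℝ)) : ℂ) * e1 (x * ξ)) := by
      refine Measurable.mul (Complex.measurable_ofReal.comp ?_)
        (cont_e1.measurable.comp (measurable_const.mul measurable_id))
      split_ifs
      · have h2 : Measurable (fun ξ : ℝ => (((2 : ℝ) ^ κ * (2 : ℝ) ^ k, p x - ξ) : ℝ × ℝ)) :=
          measurable_const.prodMk (measurable_const.sub measurable_id)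
        exact (cont_Bt hρ).measurable.comp h2
      · exact measurable_const
    have h1 := hg.bdd_mul (c := M) hm.aestronglyMeasurable (Eventually.of_forall fun ξ => by
      rw [norm_mul, norm_e1, mul_one, Complex.norm_real, Real.norm_eq_abs]
      split_ifs
      · exact abs_Bt hM _ _
      · rw [abs_zero]
        exact (sq_nonneg _).trans (hM 0))
    refine h1.congr (Eventually.of_forall fun ξ => ?_)
    simp only
    ring

end VLIM_

attribute [local irreducible] VLIM_.SS VLIM_.MM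

open VLIM_ in
/-- **VLIM** -/
theorem p_VLIM (h1 : T_VSCK) : T_VLIM := by
  intro A ρ hρ
  obtain ⟨C, hC0, hC⟩ := h1 A ρ hρ
  obtain ⟨c, M', -, hM', -⟩ := p_BT A ρ hρ
  obtain ⟨M, hM0, hM⟩ := LIM_.bd_rho hρ
  refine ⟨C, hC0, ?_⟩
  intro g L p q a h E hg hpq hab
  have ha := int_a hab
  have hgi := hg.ig
  have hdm : ∀ j, Measurable (fun P : ℝ × ℝ => (p j P.1 - q j P.1, p j P.1 - P.2)) := by
    intro j
    exact (((hpq.mp j).comp measurable_fst).sub ((hpq.mq j).comp measurable_fst)).prodMk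
      (((hpq.mp j).comp measurable_fst).sub measurable_snd)
  -- the bound for finite `K`
  have hK : ∀ K : ℕ, ‖∫ P : ℝ × ℝ, ∑ j ∈ Finset.range L, a j P.1 * (g P.2 *
      ((MM ρ K (p j P.1 - q j P.1) (p j P.1 - P.2) : ℂ) * e1 (P.1 * P.2)))
      ∂(volume.prod volume)‖ ≤ C * n2 g * na L a := by
    intro K
    have hF : ∀ j < L, Measurable (fun Q : ℝ × (ℝ × ℝ) =>
        SS ρ K Q.1 (p j Q.2.1 - q j Q.2.1) (p j Q.2.1 - Q.2.2)) := by
      intro j _
      exact (meas_SS hρ.cont K).comp (measurable_fst.prodMk ((hdm j).comp measurable_snd))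
    have e := avg (F := fun j κ P => SS ρ K κ (p j P.1 - q j P.1) (p j P.1 - P.2)) ha hgi hF
      (M := (Finset.Icc (-(K : ℤ)) K).card * M) (fun j _ κ P => abs_SS hM K κ _ _)
    have e' : ∫ P : ℝ × ℝ, ∑ j ∈ Finset.range L, a j P.1 * (g P.2 *
      ((MM ρ K (p j P.1 - q j P.1) (p j P.1 - P.2) : ℂ) * e1 (P.1 * P.2)))
      ∂(volume.prod volume) = ∫ κ in (0 : ℝ)..1, ∫ P : ℝ × ℝ, ∑ j ∈ Finset.range L,
        a j P.1 * (g P.2 * ((SS ρ K κ (p j P.1 - q j P.1) (p j P.1 - P.2) : ℂ) *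
          e1 (P.1 * P.2))) ∂(volume.prod volume) := by
      simp only [MM_def]
      exact e
    rw [e']
    have h2 := intervalIntegral.norm_integral_le_of_norm_le_const (a := (0 : ℝ)) (b := 1)
      (f := fun κ => ∫ P : ℝ × ℝ, ∑ j ∈ Finset.range L,
        a j P.1 * (g P.2 * ((SS ρ K κ (p j P.1 - q j P.1) (p j P.1 - P.2) : ℂ) *
          e1 (P.1 * P.2))) ∂(volume.prod volume))
      (C := C * n2 g * na L a) (fun κ _ => by
        have hm : ∀ j < L, Measurable (fun P : ℝ × ℝ =>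
            SS ρ K κ (p j P.1 - q j P.1) (p j P.1 - P.2)) := fun j _ =>
          (meas_SS hρ.cont K).comp (measurable_const.prodMk (hdm j))
        have e2 := sum2 (f := fun j P => SS ρ K κ (p j P.1 - q j P.1) (p j P.1 - P.2)) ha hgi hm
          (M := (Finset.Icc (-(K : ℤ)) K).card * M) (fun j _ P => abs_SS hM K κ _ _)
        rw [← e2]
        have h3 := hC g L p q a h E hg hpq hab K ((2 : ℝ) ^ κ)
          (Real.rpow_pos_of_pos (by norm_num) _)
        have h4 : ∀ x, ∑ j ∈ Finset.range L, a j x * ∑ k ∈ Finset.Icc (-(K : ℤ)) K,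
            {y | 5 / 4 ≤ (2 : ℝ) ^ κ * (2 : ℝ) ^ k * (p j y - q j y)}.indicator
              (fun y => ∫ ξ, g ξ * (Bt ρ ((2 : ℝ) ^ κ * (2 : ℝ) ^ k) (p j y - ξ) : ℂ) *
                e1 (y * ξ)) x = ∑ j ∈ Finset.range L, a j x *
            ∫ ξ, g ξ * (SS ρ K κ (p j x - q j x) (p j x - ξ) : ℂ) * e1 (x * ξ) := by
          intro x
          refine Finset.sum_congr rfl fun j _ => ?_
          rw [sum_in hgi hρ.cont hM K κ x (p j) (q j)]
        simp only [h4] at h3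
        exact h3)
    simpa using h2
  -- the limit
  have hGb : ∀ j < L, ∀ P : ℝ × ℝ, |Gm ρ ((p j P.1 - P.2) / (p j P.1 - q j P.1))| ≤ M' := by
    intro j hj P
    have h3 := lim_MM hρ hM (sub_nonneg.2 (hpq.le j hj P.1)) (p j P.1 - P.2)
    exact le_of_tendsto h3.abs (Eventually.of_forall fun K => abs_MM hρ.cont hM hM' K _ _)
  have hGm : ∀ j < L, Measurable (fun P : ℝ × ℝ =>
      Gm ρ ((p j P.1 - P.2) / (p j P.1 - q j P.1))) := by
    intro j hj
    refine measurable_of_tendsto_metrizable (f := fun (K : ℕ) (P : ℝ × ℝ) =>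
      MM ρ K (p j P.1 - q j P.1) (p j P.1 - P.2))
      (fun K => (meas_MM hρ.cont K).comp (hdm j)) ?_
    rw [tendsto_pi_nhds]
    intro P
    exact lim_MM hρ hM (sub_nonneg.2 (hpq.le j hj P.1)) (p j P.1 - P.2)
  have hT := tendsto_integral_of_dominated_convergence (μ := (volume.prod volume : Measure (ℝ × ℝ)))
    (F := fun K : ℕ => fun P : ℝ × ℝ => ∑ j ∈ Finset.range L, a j P.1 * (g P.2 *
      ((MM ρ K (p j P.1 - q j P.1) (p j P.1 - P.2) : ℂ) * e1 (P.1 * P.2))))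
    (f := fun P : ℝ × ℝ => ∑ j ∈ Finset.range L, a j P.1 * (g P.2 *
      ((Gm ρ ((p j P.1 - P.2) / (p j P.1 - q j P.1)) : ℂ) * e1 (P.1 * P.2))))
    (fun P => ∑ j ∈ Finset.range L, ‖a j P.1 * g P.2‖ * M')
    (fun K => (integrable_finsetSum (Finset.range L) fun j hj =>
      int_w (ha j (Finset.mem_range.1 hj)) hgi ((meas_MM hρ.cont K).comp (hdm j))
        (fun P => abs_MM hρ.cont hM hM' K _ _)).aestronglyMeasurable)
    (integrable_finsetSum (Finset.range L) fun j hj =>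
      (((ha j (Finset.mem_range.1 hj)).mul_prod hgi).norm.mul_const M'))
    (fun K => Eventually.of_forall fun P => by
      refine (norm_sum_le _ _).trans (Finset.sum_le_sum fun j _ => ?_)
      rw [norm_mul, norm_mul, norm_mul, LIM_.norm_e1, mul_one, Complex.norm_real, norm_mul,
        mul_assoc]
      have h5 := abs_MM hρ.cont hM hM' K (p j P.1 - q j P.1) (p j P.1 - P.2)
      rw [← Real.norm_eq_abs] at h5
      gcongr)
    (Eventually.of_forall fun P => by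
      refine tendsto_finsetSum _ fun j hj => ?_
      refine Tendsto.const_mul _ (Tendsto.const_mul _ (Tendsto.mul_const _ ?_))
      exact (Complex.continuous_ofReal.tendsto _).comp
        (lim_MM hρ hM (sub_nonneg.2 (hpq.le j (Finset.mem_range.1 hj) P.1)) (p j P.1 - P.2)))
  have hbd := le_of_tendsto hT.norm (Eventually.of_forall hK)
  have e3 := sum2 (f := fun j P => Gm ρ ((p j P.1 - P.2) / (p j P.1 - q j P.1))) ha hgi hGm hGb
  rw [← e3] at hbd
  exact hbd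

end Pool.Agent.VRC
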