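import Pool.Agent.VRC.Targets

set_option autoImplicit false

/-!
# VRC-VP2: density on stopping intervals
-/

namespace Pool.Agent.VRC.VP2_

open MeasureTheory Set Pool.Agent.CAR
open scoped ENNReal NNReal

theorem wt_pos (n : ℕ) (t : ℝ) : 0 < wt n t := by unfold wt; positivity

theorem wt_le_one (n : ℕ) (t : ℝ) : wt n t ≤ 1 := by
  unfold wt
  have h : (1 : ℝ) ≤ (1 + |t|) ^ n := one_le_pow₀ (by linarith [abs_nonneg t])
  exact inv_le_one_of_one_le₀ h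

theorem continuous_u (u : Tile) : Continuous u.u := by
  unfold Tile.u; fun_prop

theorem measurable_w (u : Tile) : Measurable (fun x => wt 8 (u.u x)) := by
  have h : Measurable u.u := (continuous_u u).measurable
  unfold wt
  fun_prop

theorem wt_ge {t : ℝ} (h : |t| ≤ 3) : ((4 : ℝ) ^ 8)⁻¹ ≤ wt 8 t := by
  unfold wt
  apply inv_anti₀
  · positivity
  · exact pow_le_pow_left₀ (by positivity) (by linarith) 8

theorem main (h1 : T_VBAS) {L : ℕ} {p q : ℕ → ℝ → ℝ} {a : ℕ → ℝ → ℂ} {E : Set ℝ}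
    (hPQ : PQ L p q) (hAB : AB L a 1 E) {T : Finset Tile} {K Λ : ℤ} {ξ mu : ℝ} {κ : ℝ → ℤ}
    (hT : Tree T K Λ ξ) (hS : Stop T κ) (hM : VMs L p a T mu) (x : ℝ) :
    ∫⁻ y in Jx κ x, ENNReal.ofReal (vm L p a {f | ∃ s ∈ T, κ x + 2 ≤ s.k ∧ f ∈ s.om} y) ≤
      ENNReal.ofReal (4 ^ 9 * mu) * volume (Jx κ x) := by
  obtain ⟨-, -, hmono, hbd, -, hmeas, -⟩ := h1 L p q a 1 E hPQ hAB
  obtain ⟨s0, hs0, hk0, hn0⟩ := hS.near x
  set b : ℤ := κ x + 2 with hb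
  set u : Tile := ⟨b, s0.l / 2 ^ (b - s0.k).toNat, ⌊(2 : ℝ) ^ (-(-b)) * ξ⌋⟩ with hu
  have hI : s0.I ⊆ u.I := dy_sub_anc hk0
  have hxi : ξ ∈ u.om := exists_mem_dy (-b) ξ
  have hTLE : TLE s0 u := ⟨hI, om_sub hk0 (hT s0 hs0).2 hxi⟩
  have hdn : vdn L p a u ≤ mu := hM s0 hs0 u hTLE
  have hsub : {f | ∃ s ∈ T, κ x + 2 ≤ s.k ∧ f ∈ s.om} ⊆ u.om := by
    rintro f ⟨s, hs, hk, hf⟩
    exact om_sub hk hxi (hT s hs).2 hf
  have hfJ : volume (Jx κ x) = ENNReal.ofReal ((2 : ℝ) ^ κ x) := volume_dy _ _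
  have hap := two_zpow_pos (-u.k)
  have hv0 : ∀ y, 0 ≤ vm L p a u.om y := fun y => (hbd u.om y).1
  have hv1 : ∀ y, vm L p a u.om y ≤ 1 := fun y => by
    have h := (hbd u.om y).2.1
    rwa [Real.one_rpow] at h
  have hg0 : ∀ y, 0 ≤ (2 : ℝ) ^ (-u.k) * (wt 8 (u.u y) * vm L p a u.om y) := fun y =>
    mul_nonneg hap.le (mul_nonneg (wt_pos 8 _).le (hv0 y))
  have hgm : Measurable fun y => (2 : ℝ) ^ (-u.k) * (wt 8 (u.u y) * vm L p a u.om y) :=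
    ((measurable_w u).mul (hmeas u.om (measurableSet_dy _ _))).const_mul _
  have hgi : Integrable fun y => (2 : ℝ) ^ (-u.k) * (wt 8 (u.u y) * vm L p a u.om y) := by
    have hon : IntegrableOn
        (fun y => (2 : ℝ) ^ (-u.k) * (wt 8 (u.u y) * vm L p a u.om y)) E := by
      refine Measure.integrableOn_of_bounded (M := (2 : ℝ) ^ (-u.k)) hAB.fE
        hgm.aestronglyMeasurable ?_
      refine Filter.Eventually.of_forall fun y => ?_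
      rw [Real.norm_eq_abs, abs_of_nonneg (hg0 y)]
      exact mul_le_of_le_one_right hap.le (mul_le_one₀ (wt_le_one 8 _) (hv0 y) (hv1 y))
    refine hon.integrable_of_forall_notMem_eq_zero fun y hy => ?_
    rw [(hbd u.om y).2.2 hy, mul_zero, mul_zero]
  -- the weight is large on the stopping interval
  obtain ⟨z, hz⟩ := dy_nonempty s0.k s0.l
  have hz' : z ∈ s0.I := hz
  have hzu := mem_I.1 (hI hz')
  have hxz := hn0 z hz'
  have hap2 : (2 : ℝ) ^ (-u.k) * (2 : ℝ) ^ (κ x + 2) = 1 := two_zpow_neg_mul b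
  have hJ : ∀ y ∈ Jx κ x, |y - x| ≤ (2 : ℝ) ^ (κ x + 2) := by
    intro y hy
    have hx : x ∈ Jx κ x := exists_mem_dy _ _
    simp only [Jx, dy, mem_Ico] at hy hx
    have h4 : (2 : ℝ) ^ κ x ≤ (2 : ℝ) ^ (κ x + 2) := two_zpow_le (by omega)
    rw [abs_le]
    constructor <;> nlinarith [hy.1, hy.2, hx.1, hx.2]
  have hwt : ∀ y ∈ Jx κ x, ((4 : ℝ) ^ 8)⁻¹ ≤ wt 8 (u.u y) := by
    intro y hy
    refine wt_ge ?_
    have h1 := hJ y hy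
    have e : u.u y = u.u z + ((2 : ℝ) ^ (-u.k) * (y - x) + (2 : ℝ) ^ (-u.k) * (x - z)) := by
      unfold Tile.u; ring
    have h2 : |(2 : ℝ) ^ (-u.k) * (y - x)| ≤ 1 := by
      rw [abs_mul, abs_of_pos hap, ← hap2]
      exact mul_le_mul_of_nonneg_left h1 hap.le
    have h3 : |(2 : ℝ) ^ (-u.k) * (x - z)| ≤ 1 := by
      rw [abs_mul, abs_of_pos hap, ← hap2]
      exact mul_le_mul_of_nonneg_left hxz hap.le
    have h4 : |u.u z| ≤ 1 := by rw [abs_le]; constructor <;> linarith [hzu.1, hzu.2]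
    rw [e]
    calc |u.u z + ((2 : ℝ) ^ (-u.k) * (y - x) + (2 : ℝ) ^ (-u.k) * (x - z))|
        ≤ |u.u z| + |(2 : ℝ) ^ (-u.k) * (y - x) + (2 : ℝ) ^ (-u.k) * (x - z)| := abs_add_le _ _
      _ ≤ |u.u z| + (|(2 : ℝ) ^ (-u.k) * (y - x)| + |(2 : ℝ) ^ (-u.k) * (x - z)|) := by
          gcongr; exact abs_add_le _ _
      _ ≤ 3 := by linarith
  have h5 := two_zpow_pos (κ x + 2)
  have hpt : ∀ y ∈ Jx κ x, vm L p a {f | ∃ s ∈ T, κ x + 2 ≤ s.k ∧ f ∈ s.om} y ≤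
      4 ^ 8 * (2 : ℝ) ^ (κ x + 2) *
        ((2 : ℝ) ^ (-u.k) * (wt 8 (u.u y) * vm L p a u.om y)) := by
    intro y hy
    refine (hmono _ _ y hsub).trans ?_
    have e : 4 ^ 8 * (2 : ℝ) ^ (κ x + 2) *
        ((2 : ℝ) ^ (-u.k) * (wt 8 (u.u y) * vm L p a u.om y)) =
        ((2 : ℝ) ^ (-u.k) * (2 : ℝ) ^ (κ x + 2)) *
          ((4 ^ 8 * wt 8 (u.u y)) * vm L p a u.om y) := by ring
    rw [e, hap2, one_mul]
    refine le_mul_of_one_le_left (hv0 y) ?_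
    have h6 := mul_le_mul_of_nonneg_left (hwt y hy) (by positivity : (0 : ℝ) ≤ 4 ^ 8)
    rwa [mul_inv_cancel₀ (by positivity)] at h6
  have h2 : (2 : ℝ) ^ (κ x + 2) = 4 * (2 : ℝ) ^ κ x := by
    rw [zpow_add₀ (by norm_num)]; norm_num; ring
  have hc0 : (0 : ℝ) ≤ 4 ^ 8 * (2 : ℝ) ^ (κ x + 2) := by positivity
  calc ∫⁻ y in Jx κ x, ENNReal.ofReal (vm L p a {f | ∃ s ∈ T, κ x + 2 ≤ s.k ∧ f ∈ s.om} y)
      ≤ ∫⁻ y in Jx κ x, ENNReal.ofReal (4 ^ 8 * (2 : ℝ) ^ (κ x + 2) *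
        ((2 : ℝ) ^ (-u.k) * (wt 8 (u.u y) * vm L p a u.om y))) :=
        setLIntegral_mono' (measurableSet_dy _ _) fun y hy =>
          ENNReal.ofReal_le_ofReal (hpt y hy)
    _ ≤ ∫⁻ y, ENNReal.ofReal (4 ^ 8 * (2 : ℝ) ^ (κ x + 2) *
        ((2 : ℝ) ^ (-u.k) * (wt 8 (u.u y) * vm L p a u.om y))) := setLIntegral_le_lintegral _ _
    _ = ENNReal.ofReal (∫ y, 4 ^ 8 * (2 : ℝ) ^ (κ x + 2) *
        ((2 : ℝ) ^ (-u.k) * (wt 8 (u.u y) * vm L p a u.om y))) :=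
        (ofReal_integral_eq_lintegral_ofReal (hgi.const_mul _)
          (Filter.Eventually.of_forall fun y => mul_nonneg hc0 (hg0 y))).symm
    _ = ENNReal.ofReal (4 ^ 8 * (2 : ℝ) ^ (κ x + 2) * vdn L p a u) := by
        rw [integral_const_mul]; rfl
    _ ≤ ENNReal.ofReal (4 ^ 9 * mu * (2 : ℝ) ^ κ x) := by
        refine ENNReal.ofReal_le_ofReal ?_
        calc 4 ^ 8 * (2 : ℝ) ^ (κ x + 2) * vdn L p a u
            ≤ 4 ^ 8 * (2 : ℝ) ^ (κ x + 2) * mu := mul_le_mul_of_nonneg_left hdn hc0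
          _ = 4 ^ 9 * mu * (2 : ℝ) ^ κ x := by rw [h2]; ring
    _ = ENNReal.ofReal (4 ^ 9 * mu) * volume (Jx κ x) := by
        rw [hfJ, ENNReal.ofReal_mul' (two_zpow_pos _).le]

end Pool.Agent.VRC.VP2_

namespace Pool.Agent.VRC

theorem p_VP2 (h1 : T_VBAS) : T_VP2 :=
  ⟨4 ^ 9, by positivity, fun _ _ _ _ _ hPQ hAB _ _ _ _ _ _ hT hS hM x =>
    VP2_.main h1 hPQ hAB hT hS hM x⟩

end Pool.Agent.VRC
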