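import Pool.Agent.VRC.Targets
import Pool.Agent.CAR.P_RA
import Pool.Agent.CAR.P_TRF
import Pool.Agent.CAR.P_ENB
import Pool.Agent.CAR.P_DSQ

set_option autoImplicit false

/-!
# VRC: VRA, restricted estimate for `|E| ≤ |F|`
-/

namespace Pool.Agent.VRC

open MeasureTheory Set ComplexConjugate
open scoped ENNReal NNReal
open Pool.Agent.CAR

namespace VRA_

theorem vav_zero {L : ℕ} {p q : ℕ → ℝ → ℝ} {a : ℕ → ℝ → ℂ} {E : Set ℝ} (h : AB L a 1 E)
    (hE : vol E = 0) (φ : ℝ → ℂ) (s : Tile) : vav φ L p q a s = 0 := by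
  have h0 : volume E = 0 := by
    have h1 : volume E = 0 ∨ volume E = ⊤ := (ENNReal.toReal_eq_zero_iff _).1 hE
    rcases h1 with h1 | h1
    · exact h1
    · exact absurd h1 h.fE
  have h2 : ∀ᵐ x, x ∉ E := by
    rw [ae_iff]
    simpa using h0
  unfold vav
  rw [integral_eq_zero_of_ae]
  filter_upwards [h2] with x hx
  show vc L p q a s x * fx φ s x = 0
  have h3 : vc L p q a s x = 0 := by
    unfold vc
    refine Finset.sum_eq_zero fun j hj => ?_
    by_cases hx2 : x ∈ Act p q s j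
    · rw [indicator_of_mem hx2]
      exact h.z j (Finset.mem_range.1 hj) x hx
    · rw [indicator_of_notMem hx2]
  rw [h3, zero_mul]

theorem sum_bound {r e0 : ℝ} (hr : 1 ≤ r) (he : 1 ≤ e0) :
    e0 + Real.sqrt (r * e0) ≤ 2 * e0 * Real.sqrt r := by
  have h1 : 1 ≤ Real.sqrt r := by
    rw [Real.one_le_sqrt]
    exact hr
  have h2 : Real.sqrt (r * e0) = Real.sqrt r * Real.sqrt e0 :=
    Real.sqrt_mul (by linarith) e0
  have h3 : Real.sqrt e0 ≤ e0 := by
    rw [Real.sqrt_le_left (by linarith)]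
    nlinarith
  rw [h2]
  nlinarith [mul_le_mul_of_nonneg_left h3 (Real.sqrt_nonneg r),
    mul_le_mul_of_nonneg_left h1 (by linarith : (0 : ℝ) ≤ e0)]

end VRA_

open VRA_ in
theorem p_VRA (h1 : T_VSUM) : T_VRA := by
  intro A
  obtain ⟨C1, hC1, hE1⟩ := (p_ENB p_DSQ) A
  obtain ⟨C2, hC2, hS2⟩ := h1 A
  have hs1 : 0 ≤ Real.sqrt C1 := Real.sqrt_nonneg _
  set e0 : ℝ := Real.sqrt C1 + 1 with he0
  have he1 : 1 ≤ e0 := by linarith
  refine ⟨C2 * (2 * e0), by positivity, ?_⟩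
  intro φ Φ hW f F L p q a E hf hpq hab hEF S
  have hVE : 0 ≤ vol E := ENNReal.toReal_nonneg
  rcases hVE.eq_or_lt with hV | hV
  · have h1 : ∑ s ∈ S, ‖cf φ f s‖ * ‖vav φ L p q a s‖ = 0 := by
      refine Finset.sum_eq_zero fun s _ => ?_
      rw [vav_zero hab hV.symm, norm_zero, mul_zero]
    rw [h1]
    positivity
  have hFp : 0 < vol F := lt_of_lt_of_le hV hEF
  obtain ⟨hfs, hfv⟩ := RA_.bf_sq hf
  obtain ⟨g, hmg, hig, hsg, hn, hco⟩ := p_TRF A φ Φ hW f hf.m (RA_.bf_int hf) hfs S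
  have hD : GG2 g := { mg := hmg, ig := hig, sg := hsg }
  set r : ℝ := Real.sqrt (vol F / vol E) with hr
  have hr1 : 1 ≤ r := by
    rw [hr, Real.one_le_sqrt, le_div_iff₀ hV, one_mul]
    exact hEF
  have hn2 : n2 g ≤ r * Real.sqrt (vol E) := by
    have h1 : n2 f ≤ Real.sqrt (vol F) := Real.sqrt_le_sqrt hfv
    have h2 : r * Real.sqrt (vol E) = Real.sqrt (vol F) := by
      rw [hr, ← Real.sqrt_mul (by positivity), div_mul_cancel₀ _ hV.ne']
    rw [h2]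
    exact hn.trans h1
  have hcc : ∀ s ∈ S, cc Φ g s = ‖cf φ f s‖ := by
    intro s hs
    unfold cc
    rw [hco s hs]
  have hEn : En (cc Φ g) S e0 := by
    intro T K Λ ξ hT hP
    have h1 := hE1 φ Φ hW f 1 hf.m zero_le_one hf.bd T K Λ ξ hP
    have h2 : ∑ s ∈ T, cc Φ g s ^ 2 = ∑ s ∈ T, ‖cf φ f s‖ ^ 2 :=
      Finset.sum_congr rfl fun s hs => by rw [hcc s (hT hs)]
    rw [h2]
    refine h1.trans ?_
    rw [one_pow, mul_one]
    refine mul_le_mul_of_nonneg_right ?_ (two_zpow_pos K).le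
    have h3 : C1 = Real.sqrt C1 ^ 2 := (Real.sq_sqrt hC1.le).symm
    rw [h3]
    exact pow_le_pow_left₀ hs1 (by linarith) 2
  have hmain := hS2 φ Φ g hW hD L p q a E hpq hab S r e0 (by linarith) (by linarith) hn2 hEn
  have hl := sum_bound hr1 he1
  have h3 : ∑ s ∈ S, ‖cf φ f s‖ * ‖vav φ L p q a s‖ =
      ∑ s ∈ S, cc Φ g s * ‖vav φ L p q a s‖ :=
    Finset.sum_congr rfl fun s hs => by rw [hcc s hs]
  rw [h3]
  refine hmain.trans ?_
  have h4 : C2 * vol E * (e0 + Real.sqrt (r * e0)) ≤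
      C2 * vol E * (2 * e0 * Real.sqrt r) :=
    mul_le_mul_of_nonneg_left hl (by positivity)
  refine h4.trans (le_of_eq ?_)
  rw [← RA_.final_eq hV]
  ring

end Pool.Agent.VRC
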