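import Pool.Agent.VRC.Targets
import Pool.Agent.CAR.P_SMA

set_option autoImplicit false

/-!
# VRC: small tiles (target VSMA)
-/

namespace Pool.Agent.VRC

open MeasureTheory Set
open scoped ENNReal NNReal
open Pool.Agent.CAR

namespace VSMA_

theorem wt6 (t : ℝ) : wt 6 t ^ (4 / 3 : ℝ) = wt 8 t := by
  have h : (0 : ℝ) < 1 + |t| := by positivity
  unfold wt
  rw [Real.inv_rpow (by positivity), ← Real.rpow_natCast, ← Real.rpow_mul h.le,
    ← Real.rpow_natCast]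
  norm_num

theorem wt14 (t : ℝ) : wt 14 t ^ (4 : ℝ) = wt 56 t := by
  rw [show (4 : ℝ) = ((4 : ℕ) : ℝ) by norm_num, Real.rpow_natCast]
  unfold wt
  rw [inv_pow, ← pow_mul]

theorem wt56 (t : ℝ) : wt 56 t ≤ wt 10 t ^ 3 * wt 10 t := by
  have h : wt 10 t ^ 3 * wt 10 t = wt 40 t := by
    unfold wt
    rw [inv_pow, ← pow_mul, ← mul_inv, ← pow_add]
  rw [h]
  exact wt_anti (by norm_num) t

/-- the final computation -/
theorem fin {A k2 kn mu V : ℝ} (hA : 0 < A) (hk : 0 < k2) (hkn : 0 < kn) (e : k2 * kn = 1)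
    (hmu : 0 ≤ mu) (hV : 0 ≤ V) :
    A * ((k2 * mu) ^ (3 / 4 : ℝ) * ((2048 * kn * V) ^ 3 * V) ^ (1 / 4 : ℝ)) ≤
      2048 * A * mu ^ (3 / 4 : ℝ) * V := by
  have hB : 0 ≤ 2048 * kn * V := by positivity
  have e1 : ((2048 * kn * V) ^ 3 * V) ^ (1 / 4 : ℝ) =
      (2048 * kn * V) ^ (3 / 4 : ℝ) * V ^ (1 / 4 : ℝ) := by
    rw [Real.mul_rpow (by positivity) hV, ← Real.rpow_natCast, ← Real.rpow_mul hB]
    norm_num
  have e2 : (k2 * mu) ^ (3 / 4 : ℝ) * (2048 * kn * V) ^ (3 / 4 : ℝ) =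
      (2048 : ℝ) ^ (3 / 4 : ℝ) * mu ^ (3 / 4 : ℝ) * V ^ (3 / 4 : ℝ) := by
    rw [← Real.mul_rpow (by positivity) hB, ← Real.mul_rpow (by norm_num) hmu,
      ← Real.mul_rpow (by positivity) hV]
    congr 1
    calc k2 * mu * (2048 * kn * V) = (k2 * kn) * (2048 * mu * V) := by ring
      _ = _ := by rw [e, one_mul]
  have e3 : V ^ (3 / 4 : ℝ) * V ^ (1 / 4 : ℝ) = V := by
    rw [← Real.rpow_add_of_nonneg hV (by norm_num) (by norm_num)]
    norm_num
  have e4 : (2048 : ℝ) ^ (3 / 4 : ℝ) ≤ 2048 := by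
    have := Real.rpow_le_rpow_of_exponent_le (show (1 : ℝ) ≤ 2048 by norm_num)
      (show (3 / 4 : ℝ) ≤ 1 by norm_num)
    rwa [Real.rpow_one] at this
  have h0 : 0 ≤ mu ^ (3 / 4 : ℝ) := Real.rpow_nonneg hmu _
  calc A * ((k2 * mu) ^ (3 / 4 : ℝ) * ((2048 * kn * V) ^ 3 * V) ^ (1 / 4 : ℝ))
      = A * (((k2 * mu) ^ (3 / 4 : ℝ) * (2048 * kn * V) ^ (3 / 4 : ℝ)) * V ^ (1 / 4 : ℝ)) := by
        rw [e1]; ring
    _ = A * ((2048 : ℝ) ^ (3 / 4 : ℝ) * mu ^ (3 / 4 : ℝ) *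
          (V ^ (3 / 4 : ℝ) * V ^ (1 / 4 : ℝ))) := by rw [e2]; ring
    _ = (2048 : ℝ) ^ (3 / 4 : ℝ) * (A * mu ^ (3 / 4 : ℝ) * V) := by rw [e3]; ring
    _ ≤ 2048 * (A * mu ^ (3 / 4 : ℝ) * V) :=
        mul_le_mul_of_nonneg_right e4 (by positivity)
    _ = _ := by ring

end VSMA_

open VSMA_ in
/-- **VSMA** -/
theorem p_VSMA (h1 : T_VBAS) : T_VSMA := by
  intro A
  by_cases hA : 0 < A
  swap
  · exact ⟨1, one_pos, fun φ Φ hW => absurd hW.pos hA⟩
  refine ⟨2048 * A, by positivity, ?_⟩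
  intro φ Φ hW L p q a E hPQ hAB T κ mu hS hM hmu s hs
  obtain ⟨-, b2, b3, b4, b5, b6, -⟩ := h1 L p q a 1 E hPQ hAB
  have hk := two_zpow_pos s.k
  have hkn := two_zpow_pos (-s.k)
  have hr : 0 < Real.sqrt ((2 : ℝ) ^ s.k) := Real.sqrt_pos.2 hk
  have hi : ∀ n, 2 ≤ n → Integrable fun x => wt n (s.u x) := fun n hn => integrable_wt_u hn s
  have mwt : ∀ n, Measurable fun x => wt n (s.u x) := by
    intro n
    have hu : Continuous s.u := by unfold Tile.u; fun_prop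
    exact ((continuous_wt n).comp hu).measurable
  set R : Set ℝ := {x | s.k ≤ κ x + 1} with hR
  have mR : MeasurableSet R := SMB_.meas_R hS.meas s.k
  set V : ℝ := ∫ x in R, wt 10 (s.u x) with hV
  have hV0 : 0 ≤ V := setIntegral_nonneg mR fun x _ => wt_nonneg _ _
  have hvc1 : ∀ x, ‖vc L p q a s x‖ ^ (4 / 3 : ℝ) ≤ 1 := by
    intro x
    have h := (b2 s x).trans (b4 s.up x).2.1
    rwa [Real.one_rpow] at h
  -- the two factors
  set f : ℝ → ℝ := fun x => ‖vc L p q a s x‖ * wt 6 (s.u x) with hf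
  set g : ℝ → ℝ := fun x => wt 14 (s.u x) with hg
  have f0 : ∀ x, 0 ≤ f x := fun x => mul_nonneg (norm_nonneg _) (wt_nonneg _ _)
  have g0 : ∀ x, 0 ≤ g x := fun x => wt_nonneg _ _
  have mf : Measurable f := (b5 s).norm.mul (mwt 6)
  have mg : Measurable g := mwt 14
  have fp : ∀ x, f x ^ (4 / 3 : ℝ) = ‖vc L p q a s x‖ ^ (4 / 3 : ℝ) * wt 8 (s.u x) := by
    intro x
    simp only [hf]
    rw [Real.mul_rpow (norm_nonneg _) (wt_nonneg _ _), wt6]
  have gp : ∀ x, g x ^ (4 : ℝ) = wt 56 (s.u x) := fun x => wt14 _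
  have if1 : Integrable (fun x => f x ^ (4 / 3 : ℝ)) := by
    refine (hi 8 (by norm_num)).mono' (mf.pow_const _).aestronglyMeasurable
      (ae_of_all _ fun x => ?_)
    rw [Real.norm_of_nonneg (Real.rpow_nonneg (f0 x) _), fp x]
    exact mul_le_of_le_one_left (wt_nonneg _ _) (hvc1 x)
  have ig1 : Integrable (fun x => g x ^ (4 : ℝ)) := by
    simp only [gp]
    exact hi 56 (by norm_num)
  have Mf : MemLp f (ENNReal.ofReal (4 / 3)) (volume.restrict R) := by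
    refine (integrable_norm_rpow_iff mf.aestronglyMeasurable ?_ ENNReal.ofReal_ne_top).1 ?_
    · rw [Ne, ENNReal.ofReal_eq_zero]; norm_num
    · rw [ENNReal.toReal_ofReal (by norm_num)]
      simp only [Real.norm_of_nonneg (f0 _)]
      exact if1.integrableOn
  have Mg : MemLp g (ENNReal.ofReal 4) (volume.restrict R) := by
    refine (integrable_norm_rpow_iff mg.aestronglyMeasurable ?_ ENNReal.ofReal_ne_top).1 ?_
    · rw [Ne, ENNReal.ofReal_eq_zero]; norm_num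
    · rw [ENNReal.toReal_ofReal (by norm_num)]
      simp only [Real.norm_of_nonneg (g0 _)]
      exact ig1.integrableOn
  have hpq : (4 / 3 : ℝ).HolderConjugate 4 := by
    rw [Real.holderConjugate_iff]
    constructor <;> norm_num
  have hH := integral_mul_le_Lp_mul_Lq_of_nonneg hpq (μ := volume.restrict R)
    (ae_of_all _ f0) (ae_of_all _ g0) Mf Mg
  -- first factor
  have F1 : ∫ x in R, f x ^ (4 / 3 : ℝ) ≤ (2 : ℝ) ^ s.k * mu := by
    have c1 : ∫ x in R, f x ^ (4 / 3 : ℝ) ≤ ∫ x, f x ^ (4 / 3 : ℝ) :=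
      setIntegral_le_integral if1 (ae_of_all _ fun x => Real.rpow_nonneg (f0 x) _)
    have iv : Integrable fun x => wt 8 (s.u x) * vm L p a s.om x := by
      refine (hi 8 (by norm_num)).mono'
        ((mwt 8).mul (b6 s.om (measurableSet_dy _ _))).aestronglyMeasurable
        (ae_of_all _ fun x => ?_)
      rw [Real.norm_of_nonneg (mul_nonneg (wt_nonneg _ _) (b4 _ _).1)]
      have h := (b4 s.om x).2.1
      rw [Real.one_rpow] at h
      exact mul_le_of_le_one_right (wt_nonneg _ _) h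
    have c2 : ∫ x, f x ^ (4 / 3 : ℝ) ≤ ∫ x, wt 8 (s.u x) * vm L p a s.om x := by
      refine integral_mono if1 iv fun x => ?_
      dsimp only
      rw [fp x, mul_comm]
      exact mul_le_mul_of_nonneg_left ((b2 s x).trans (b3 _ _ x (up_sub s))) (wt_nonneg _ _)
    have c3 : vdn L p a s ≤ mu := hM s hs s ⟨subset_rfl, subset_rfl⟩
    have c4 : ∫ x, wt 8 (s.u x) * vm L p a s.om x = (2 : ℝ) ^ s.k * vdn L p a s := by
      rw [vdn, integral_const_mul, ← mul_assoc, two_zpow_mul_neg, one_mul]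
    rw [c4] at c2
    exact (c1.trans c2).trans (mul_le_mul_of_nonneg_left c3 hk.le)
  -- second factor
  have F2 : ∫ x in R, g x ^ (4 : ℝ) ≤ (2048 * (2 : ℝ) ^ (-s.k) * V) ^ 3 * V := by
    rw [hV, ← integral_const_mul]
    refine setIntegral_mono_on ig1.integrableOn ((hi 10 (by norm_num)).integrableOn.const_mul _)
      mR fun x hx => ?_
    rw [gp x]
    refine (wt56 _).trans ?_
    refine mul_le_mul_of_nonneg_right ?_ (wt_nonneg _ _)
    exact pow_le_pow_left₀ (wt_nonneg _ _) (SMA_.av hS s hx) 3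
  -- the integrand
  have ifg : Integrable (fun x => f x * g x) := by
    refine (hi 14 (by norm_num)).mono' (mf.mul mg).aestronglyMeasurable
      (ae_of_all _ fun x => ?_)
    rw [Real.norm_of_nonneg (mul_nonneg (f0 x) (g0 x))]
    refine mul_le_of_le_one_left (g0 x) ?_
    have hn : ‖vc L p q a s x‖ ≤ 1 := by
      by_contra hc
      push Not at hc
      have := Real.one_lt_rpow hc (show (0 : ℝ) < 4 / 3 by norm_num)
      linarith [hvc1 x]
    exact mul_le_one₀ hn (wt_nonneg _ _) (wt_le_one _ _)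
  have G1 : ∫ x in R, ‖vc L p q a s x‖ * ‖fx φ s x‖ ≤
      ∫ x in R, (Real.sqrt ((2 : ℝ) ^ s.k))⁻¹ * A * (f x * g x) := by
    refine integral_mono_of_nonneg
      (ae_of_all _ fun x => mul_nonneg (norm_nonneg _) (norm_nonneg _))
      (ifg.integrableOn.const_mul _) (ae_of_all _ fun x => ?_)
    dsimp only
    have e0 : ‖fx φ s x‖ = (Real.sqrt ((2 : ℝ) ^ s.k))⁻¹ * ‖φ (s.u x)‖ := by
      unfold fx
      rw [norm_mul, norm_mul, Complex.norm_real, Real.norm_of_nonneg (by positivity)]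
      have e2 : ‖e1 ((2 : ℝ) ^ (-s.k) * s.m * x)‖ = 1 := by
        unfold e1
        rw [show (2 * Real.pi * Complex.I * (((2 : ℝ) ^ (-s.k) * s.m * x : ℝ) : ℂ)) =
          ((2 * Real.pi * ((2 : ℝ) ^ (-s.k) * s.m * x) : ℝ) : ℂ) * Complex.I by push_cast; ring]
        exact Complex.norm_exp_ofReal_mul_I _
      rw [e2, mul_one]
    have h3 : wt 20 (s.u x) = wt 6 (s.u x) * wt 14 (s.u x) := by rw [← wt_mul]
    have h4 := hW.dec (s.u x)
    rw [h3] at h4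
    rw [e0]
    calc ‖vc L p q a s x‖ * ((Real.sqrt ((2 : ℝ) ^ s.k))⁻¹ * ‖φ (s.u x)‖)
        ≤ ‖vc L p q a s x‖ * ((Real.sqrt ((2 : ℝ) ^ s.k))⁻¹ *
            (A * (wt 6 (s.u x) * wt 14 (s.u x)))) := by
          refine mul_le_mul_of_nonneg_left ?_ (norm_nonneg _)
          exact mul_le_mul_of_nonneg_left h4 (by positivity)
      _ = _ := by simp only [hf, hg]; ring
  rw [integral_const_mul] at G1
  have G2 : ∫ x in R, f x * g x ≤ ((2 : ℝ) ^ s.k * mu) ^ (3 / 4 : ℝ) *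
      ((2048 * (2 : ℝ) ^ (-s.k) * V) ^ 3 * V) ^ (1 / 4 : ℝ) := by
    refine hH.trans ?_
    rw [show (1 : ℝ) / (4 / 3) = 3 / 4 by norm_num]
    refine mul_le_mul ?_ ?_ (Real.rpow_nonneg ?_ _) (Real.rpow_nonneg (by positivity) _)
    · exact Real.rpow_le_rpow (setIntegral_nonneg mR fun x _ => Real.rpow_nonneg (f0 x) _) F1
        (by norm_num)
    · exact Real.rpow_le_rpow (setIntegral_nonneg mR fun x _ => Real.rpow_nonneg (g0 x) _) F2
        (by norm_num)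
    · exact setIntegral_nonneg mR fun x _ => Real.rpow_nonneg (g0 x) _
  have hc0 : 0 ≤ (Real.sqrt ((2 : ℝ) ^ s.k))⁻¹ * A := by positivity
  have e3 : Real.sqrt ((2 : ℝ) ^ s.k) * (Real.sqrt ((2 : ℝ) ^ s.k))⁻¹ = 1 :=
    mul_inv_cancel₀ hr.ne'
  calc Real.sqrt ((2 : ℝ) ^ s.k) * ∫ x in R, ‖vc L p q a s x‖ * ‖fx φ s x‖
      ≤ Real.sqrt ((2 : ℝ) ^ s.k) * ((Real.sqrt ((2 : ℝ) ^ s.k))⁻¹ * A *
          (((2 : ℝ) ^ s.k * mu) ^ (3 / 4 : ℝ) *
            ((2048 * (2 : ℝ) ^ (-s.k) * V) ^ 3 * V) ^ (1 / 4 : ℝ))) :=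
        mul_le_mul_of_nonneg_left (G1.trans (mul_le_mul_of_nonneg_left G2 hc0)) hr.le
    _ = (Real.sqrt ((2 : ℝ) ^ s.k) * (Real.sqrt ((2 : ℝ) ^ s.k))⁻¹) *
          (A * (((2 : ℝ) ^ s.k * mu) ^ (3 / 4 : ℝ) *
            ((2048 * (2 : ℝ) ^ (-s.k) * V) ^ 3 * V) ^ (1 / 4 : ℝ))) := by ring
    _ = A * (((2 : ℝ) ^ s.k * mu) ^ (3 / 4 : ℝ) *
            ((2048 * (2 : ℝ) ^ (-s.k) * V) ^ 3 * V) ^ (1 / 4 : ℝ)) := by rw [e3, one_mul]
    _ ≤ 2048 * A * mu ^ (3 / 4 : ℝ) * V := fin hA hk hkn (two_zpow_mul_neg s.k) hmu hV0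

end Pool.Agent.VRC
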