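import Pool.Agent.VRC.Targets

set_option autoImplicit false

/-!
# VRC: activity in trees (VTR)
-/

namespace Pool.Agent.VRC

open MeasureTheory Set
open Pool.Agent.CAR

namespace VTR_

theorem between {p q : ℕ → ℝ → ℝ} {s : Tile} {i : ℕ} {x ξ : ℝ} (hξ : ξ ∈ s.lo)
    (h : x ∈ Act p q s i) : q i x < ξ ∧ ξ < p i x := by
  obtain ⟨h1, h2⟩ := h
  refine ⟨?_, lo_lt_up hξ h1⟩
  have h3 := up_sub s h1
  have h4 := lo_sub s hξ
  simp only [Tile.om, dy, mem_Ico] at h3 h4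
  have h5 := two_zpow_pos (-s.k)
  have h6 := mul_le_mul_of_nonneg_left h2 h5.le
  rw [← mul_assoc, two_zpow_neg_mul, one_mul] at h6
  nlinarith [h3.2, h4.1]

theorem eq_of {L : ℕ} {p q : ℕ → ℝ → ℝ} (hpq : PQ L p q) {x ξ : ℝ} {i j : ℕ} (hi : i < L)
    (hj : j < L) (h1 : q i x < ξ ∧ ξ < p i x) (h2 : q j x < ξ ∧ ξ < p j x) : i = j := by
  rcases lt_trichotomy i j with h | h | h
  · have := hpq.ord i hi j hj h x
    linarith [h1.2, h2.1]
  · exact h
  · have := hpq.ord j hj i hi h x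
    linarith [h2.2, h1.1]

theorem kle {p q : ℕ → ℝ → ℝ} {s t : Tile} {i : ℕ} {x ξ : ℝ} (hs : ξ ∈ s.lo) (ht : ξ ∈ t.lo)
    (h1 : x ∈ Act p q s i) (h2 : x ∈ Act p q t i) : ¬ s.k < t.k := by
  intro h
  have h3 := om_sub_lo h hs (lo_sub t ht)
  exact Set.disjoint_left.1 (lo_disj_up s) (h3 (up_sub t h2.1)) h1.1

end VTR_

theorem p_VTR : T_VTR := by
  intro L p q hpq T K Λ ξ
  constructor
  · intro hT s hs t ht i hi j hj x h1 h2
    have h3 := (hT s hs).2
    have h4 := (hT t ht).2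
    have e : i = j := VTR_.eq_of hpq hi hj (VTR_.between h3 h1) (VTR_.between h4 h2)
    subst e
    refine ⟨rfl, le_antisymm ?_ ?_⟩
    · exact not_lt.1 (VTR_.kle h4 h3 h2 h1)
    · exact not_lt.1 (VTR_.kle h3 h4 h1 h2)
  · intro hT s hs t ht r hr hsr hrt j x h1 h2
    refine ⟨up_sub_up hrt (hT r hr).2 (hT t ht).2 h2.1, ?_⟩
    have h3 := h1.2
    have h4 : 0 < p j x - q j x := by
      by_contra h5
      have := mul_nonpos_of_nonneg_of_nonpos (two_zpow_pos s.k).le (not_lt.1 h5)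
      linarith
    exact h3.trans (mul_le_mul_of_nonneg_right (two_zpow_le hsr) h4.le)

end Pool.Agent.VRC
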