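import Pool.Agent.VRC.Targets
import Pool.Agent.CAR.P_TREE

set_option autoImplicit false

/-!
# VRC: the tree lemma (VTREE)
-/

namespace Pool.Agent.VRC

open MeasureTheory Set ComplexConjugate
open scoped ENNReal NNReal
open Pool.Agent.CAR

theorem p_VTREE (h1 : T_VMIN) (h2 : T_VPLU) : T_VTREE := by
  classical
  intro A
  obtain ⟨C1, hC1, h1⟩ := h1 A
  obtain ⟨C2, hC2, h2⟩ := h2 A
  refine ⟨C1 + C2, add_pos hC1 hC2, ?_⟩
  intro φ Φ hW L p q a E hPQ hAB c T K Λ ξ eps mu hc hT heps hmu hEn hMs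
  have hp := h2 φ Φ hW L p q a E hPQ hAB c (T.filter (fun s => ξ ∈ s.up)) K Λ ξ eps mu hc
    (fun s hs => ⟨(hT s (Finset.mem_filter.1 hs).1).1, (Finset.mem_filter.1 hs).2⟩) heps hmu
    (fun T' K' Λ' ξ' hT' => hEn T' K' Λ' ξ' (hT'.trans (Finset.filter_subset _ _)))
    (fun s hs => hMs s (Finset.mem_filter.1 hs).1)
  have hm := h1 φ Φ hW L p q a E hPQ hAB c (T.filter (fun s => ¬ ξ ∈ s.up)) K Λ ξ eps mu
    (fun s hs => by
      have h3 := Finset.mem_filter.1 hs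
      refine ⟨(hT s h3.1).1, ?_⟩
      have h4 := (hT s h3.1).2
      rw [om_eq] at h4
      exact h4.resolve_right h3.2) heps hmu
    (fun s hs => ⟨hc s, TREE_.single heps hEn hc (Finset.mem_filter.1 hs).1⟩)
    (fun s hs => hMs s (Finset.mem_filter.1 hs).1)
  rw [← Finset.sum_filter_add_sum_filter_not T (fun s => ξ ∈ s.up)]
  calc _ ≤ C2 * eps * mu ^ (3 / 4 : ℝ) * (2 : ℝ) ^ K + C1 * eps * mu ^ (3 / 4 : ℝ) * (2 : ℝ) ^ K :=
        add_le_add hp hm
    _ = _ := by ring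

end Pool.Agent.VRC
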