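import Pool.Agent.CRF.All
import Pool.Agent.CRR.All
import Pool.Agent.VRC.P_AB0
import Pool.Agent.VRC.P_AB1
import Pool.Agent.VRC.P_ABC
import Pool.Agent.VRC.P_ACV
import Pool.Agent.VRC.P_CF0
import Pool.Agent.VRC.P_CF1
import Pool.Agent.VRC.P_CF2
import Pool.Agent.VRC.P_CHK
import Pool.Agent.VRC.P_CHN
import Pool.Agent.VRC.P_DCV
import Pool.Agent.VRC.P_DEV
import Pool.Agent.VRC.P_DIV
import Pool.Agent.VRC.P_EUL
import Pool.Agent.VRC.P_GMV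
import Pool.Agent.VRC.P_HAV
import Pool.Agent.VRC.P_HIV
import Pool.Agent.VRC.P_KOL
import Pool.Agent.VRC.P_MIX
import Pool.Agent.VRC.P_ODV
import Pool.Agent.VRC.P_OFV
import Pool.Agent.VRC.P_PAV
import Pool.Agent.VRC.P_RDV
import Pool.Agent.VRC.P_SDV
import Pool.Agent.VRC.P_TAV
import Pool.Agent.VRC.P_VAVB
import Pool.Agent.VRC.P_VAVG
import Pool.Agent.VRC.P_VBAS
import Pool.Agent.VRC.P_VC4
import Pool.Agent.VRC.P_VCAR
import Pool.Agent.VRC.P_VCM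
import Pool.Agent.VRC.P_VCO
import Pool.Agent.VRC.P_VCS
import Pool.Agent.VRC.P_VCV
import Pool.Agent.VRC.P_VDNB
import Pool.Agent.VRC.P_VGB
import Pool.Agent.VRC.P_VINT
import Pool.Agent.VRC.P_VJ1
import Pool.Agent.VRC.P_VJD
import Pool.Agent.VRC.P_VJM
import Pool.Agent.VRC.P_VJP
import Pool.Agent.VRC.P_VLIM
import Pool.Agent.VRC.P_VMASS
import Pool.Agent.VRC.P_VMIN
import Pool.Agent.VRC.P_VMODS
import Pool.Agent.VRC.P_VP2
import Pool.Agent.VRC.P_VPLU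
import Pool.Agent.VRC.P_VRA
import Pool.Agent.VRC.P_VRB
import Pool.Agent.VRC.P_VREF
import Pool.Agent.VRC.P_VSCK
import Pool.Agent.VRC.P_VSMA
import Pool.Agent.VRC.P_VSPL
import Pool.Agent.VRC.P_VSTP
import Pool.Agent.VRC.P_VSUM
import Pool.Agent.VRC.P_VTA1
import Pool.Agent.VRC.P_VTA2
import Pool.Agent.VRC.P_VTAI
import Pool.Agent.VRC.P_VTR
import Pool.Agent.VRC.P_VTREE
import Pool.Agent.VRC.P_VV4
import Pool.Agent.VRC.P_VYN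
import Pool.Agent.VRC.P_WIV

set_option autoImplicit false

/-!
# VRC: assembly (MP_ee701d_an): variation norm Carleson theorem (line, Hankel transform), random signs
-/

namespace Pool.Agent.VRC

/-! ### the variation norm Carleson theorem on the line -/

theorem q_VDNB : T_VDNB := p_VDNB p_VBAS

theorem q_VMASS : T_VMASS := p_VMASS p_VBAS q_VDNB

theorem q_VP2 : T_VP2 := p_VP2 p_VBAS

theorem q_VSMA : T_VSMA := p_VSMA p_VBAS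

theorem q_VSPL : T_VSPL := p_VSPL p_VBAS

theorem q_VMIN : T_VMIN := p_VMIN p_VBAS p_VTR q_VP2 p_VAVG q_VSMA q_VSPL

theorem q_VJM : T_VJM := p_VJM p_VJ1

theorem q_VJD : T_VJD := p_VJD p_VJP

theorem q_VV4 : T_VV4 := p_VV4 q_VJM q_VJD

theorem q_VPLU : T_VPLU := p_VPLU p_VBAS p_VTR q_VP2 p_VAVG q_VSMA q_VSPL q_VV4

theorem q_VTREE : T_VTREE := p_VTREE q_VMIN q_VPLU

theorem q_VSTP : T_VSTP := p_VSTP q_VDNB q_VMASS q_VTREE

theorem q_VSUM : T_VSUM := p_VSUM q_VDNB q_VSTP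

theorem q_VTA1 : T_VTA1 := p_VTA1 p_VBAS

theorem q_VTAI : T_VTAI := p_VTAI q_VTA1 p_VTA2

theorem q_VRA : T_VRA := p_VRA q_VSUM

theorem q_VRB : T_VRB := p_VRB q_VSUM q_VTAI q_VRA

theorem q_VINT : T_VINT := p_VINT q_VRA q_VRB

theorem q_VMODS : T_VMODS := p_VMODS q_VINT

theorem q_VAVB : T_VAVB := p_VAVB q_VMODS p_VYN

theorem q_VSCK : T_VSCK := p_VSCK q_VAVB

theorem q_VLIM : T_VLIM := p_VLIM q_VSCK

theorem q_VCAR : T_VCAR := p_VCAR q_VLIM p_VREF p_VGB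

theorem q_VC4 : T_VC4 := p_VC4 q_VCAR

/-! ### random signs -/

theorem q_CHN : T_CHN := p_CHN p_CHK

theorem q_AB0 : T_AB0 := p_AB0 q_CHN

theorem q_AB1 : T_AB1 := p_AB1 q_AB0

theorem q_ABC : T_ABC := p_ABC q_AB1

theorem q_KOL : T_KOL := p_KOL q_CHN

/-! ### parabolic regions -/

theorem q_CF0 : T_CF0 := p_CF0 q_VC4 Pool.Agent.CRF.p_FSP

theorem q_CF1 : T_CF1 := p_CF1 Pool.Agent.CRF.p_FSP q_CF0

theorem q_CF2 : T_CF2 := p_CF2 q_CF1 Pool.Agent.CRF.p_FRT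

/-! ### the Hankel transform -/

theorem q_DCV : T_DCV := p_DCV q_VC4 p_VCS

theorem q_ACV : T_ACV := p_ACV q_DCV p_VCS

theorem q_WIV : T_WIV := p_WIV Pool.Agent.CRL.p_ABL

theorem q_VCV : T_VCV := p_VCV q_WIV q_ACV p_VCO p_VCS p_VCM

theorem q_OFV : T_OFV := p_OFV Pool.Agent.CRR.p_OFD

theorem q_DIV : T_DIV := p_DIV q_VC4

theorem q_DEV : T_DEV := p_DEV Pool.Agent.CRR.p_SEQ q_OFV q_DIV

theorem q_SDV : T_SDV := p_SDV Pool.Agent.CRR.p_SEQ Pool.Agent.CRR.q_PHS q_VCV q_DEV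

theorem q_PAV : T_PAV := p_PAV Pool.Agent.CRR.p_SEQ q_SDV p_VCO p_VCM

theorem q_TAV : T_TAV := p_TAV Pool.Agent.CRR.q_CARLS Pool.Agent.CRR.p_SEQ Pool.Agent.CRR.q_SD
  Pool.Agent.CRR.q_MUL q_VC4 p_VCS p_VCM

theorem q_HIV : T_HIV := p_HIV Pool.Agent.CRR.p_SEQ q_PAV q_TAV

theorem q_HAV : T_HAV := p_HAV Pool.Agent.CRR.q_LOW q_HIV p_VCO p_VCM

/-! ### pure angular degree -/

theorem q_ODV : T_ODV := p_ODV Pool.Agent.CRN.p_HELN Pool.Agent.CRR.p_SYM p_EUL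

theorem q_GMV : T_GMV := p_GMV Pool.Agent.CRR.p_SEQ Pool.Agent.CRR.q_UNI Pool.Agent.CRR.p_NRM
  Pool.Agent.CRR.q_QID Pool.Agent.CRR.q_ENR Pool.Agent.CRR.q_AHT Pool.Agent.CRN.p_POLN q_ODV

theorem q_RDV : T_RDV := p_RDV q_HAV q_GMV Pool.Agent.CRN.p_POLN p_VCM

theorem q_MIX : T_MIX := p_MIX q_AB1 q_ABC q_RDV q_CF2

end Pool.Agent.VRC
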