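import Pool.Agent.CAR.SDefs
import Pool.Agent.CAR.ITargets

set_option autoImplicit false

/-!
# VRC: the variation norm Carleson theorem on the line (`V^4`, strong type (2,2)): definitions

Modification of the Carleson theorem of `Pool/Agent/CAR`: instead of one frequency `N(x)` there are
`L` pairs `q j x ≤ p j x ≤ q (j+1) x ≤ ...` with weights `a j x`, and the bounds do not depend on `L`.
The pair `j` is active at `x` for the tile `s` if `p j x ∈ s.up` and `p j x - q j x ≥ (5/4) |ω_s|`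
(so `q j x` is to the left of `s.om`).
-/

namespace Pool.Agent.VRC

open MeasureTheory Set ComplexConjugate
open scoped ENNReal NNReal
open Pool.Agent.CAR

/-- ordered disjoint intervals `[q j x, p j x]`, `j < L` -/
structure PQ (L : ℕ) (p q : ℕ → ℝ → ℝ) : Prop where
  mp : ∀ j, Measurable (p j)
  mq : ∀ j, Measurable (q j)
  le : ∀ j < L, ∀ x, q j x ≤ p j x
  ord : ∀ i < L, ∀ j < L, i < j → ∀ x, p i x ≤ q j x

/-- weights: `(∑_{j<L} |a j x|^(4/3))^(3/4) ≤ h 1_E(x)` -/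
structure AB (L : ℕ) (a : ℕ → ℝ → ℂ) (h : ℝ) (E : Set ℝ) : Prop where
  ma : ∀ j, Measurable (a j)
  mE : MeasurableSet E
  fE : volume E ≠ ⊤
  h0 : 0 ≤ h
  bd : ∀ x, ∑ j ∈ Finset.range L, ‖a j x‖ ^ (4 / 3 : ℝ) ≤ h ^ (4 / 3 : ℝ)
  z : ∀ j < L, ∀ x, x ∉ E → a j x = 0

/-- the set of the `x` at which the pair `j` is active for the tile `s` -/
def Act (p q : ℕ → ℝ → ℝ) (s : Tile) (j : ℕ) : Set ℝ :=
  {x | p j x ∈ s.up ∧ 5 / 4 ≤ (2 : ℝ) ^ s.k * (p j x - q j x)}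

/-- the coefficient of the tile `s` at `x` (at most one term is not zero) -/
noncomputable def vc (L : ℕ) (p q : ℕ → ℝ → ℝ) (a : ℕ → ℝ → ℂ) (s : Tile) (x : ℝ) : ℂ :=
  ∑ j ∈ Finset.range L, (Act p q s j).indicator (a j) x

/-- replaces `av` -/
noncomputable def vav (φ : ℝ → ℂ) (L : ℕ) (p q : ℕ → ℝ → ℝ) (a : ℕ → ℝ → ℂ) (s : Tile) : ℂ :=
  ∫ x, vc L p q a s x * fx φ s x

/-- the weight of the frequencies in `U` at `x` -/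
noncomputable def vm (L : ℕ) (p : ℕ → ℝ → ℝ) (a : ℕ → ℝ → ℂ) (U : Set ℝ) (x : ℝ) : ℝ :=
  ∑ j ∈ Finset.range L, (p j ⁻¹' U).indicator (fun y => ‖a j y‖ ^ (4 / 3 : ℝ)) x

/-- the density of a tile; replaces `dn` -/
noncomputable def vdn (L : ℕ) (p : ℕ → ℝ → ℝ) (a : ℕ → ℝ → ℂ) (u : Tile) : ℝ :=
  ∫ x, (2 : ℝ) ^ (-u.k) * (wt 8 (u.u x) * vm L p a u.om x)

/-- the mass of `S` is at most `mu`; replaces `Ms` -/
def VMs (L : ℕ) (p : ℕ → ℝ → ℝ) (a : ℕ → ℝ → ℂ) (S : Finset Tile) (mu : ℝ) : Prop :=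
  ∀ s ∈ S, ∀ u : Tile, TLE s u → vdn L p a u ≤ mu

/-- `(∑_{j<L} |a j x|^(4/3))^(3/4)` -/
noncomputable def amp (L : ℕ) (a : ℕ → ℝ → ℂ) (x : ℝ) : ℝ :=
  (∑ j ∈ Finset.range L, ‖a j x‖ ^ (4 / 3 : ℝ)) ^ (3 / 4 : ℝ)

/-- `‖amp‖₂` -/
noncomputable def na (L : ℕ) (a : ℕ → ℝ → ℂ) : ℝ := Real.sqrt (∫ x, amp L a x ^ 2)

/-- `g ∈ L¹ ∩ L²` -/
structure GG2 (g : ℝ → ℂ) : Prop where
  mg : Measurable g
  ig : Integrable g
  sg : Integrable (fun ξ => ‖g ξ‖ ^ 2)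

/-! ### variation -/

/-- the 4-variation of `z` on `[m, M]`: supremum over finite sets of non-overlapping intervals
`[c.1, c.2]` of integers -/
noncomputable def V4 (z : ℤ → ℂ) (m M : ℤ) : ℝ≥0∞ :=
  ⨆ (P : Finset (ℤ × ℤ)) (_ : (∀ c ∈ P, m ≤ c.1 ∧ c.1 ≤ c.2 ∧ c.2 ≤ M) ∧
    ∀ c ∈ P, ∀ d ∈ P, c ≠ d → c.2 ≤ d.1 ∨ d.2 ≤ c.1),
    (∑ c ∈ P, ‖z c.2 - z c.1‖ₑ ^ 4) ^ (1 / 4 : ℝ)

/-- average over the dyadic interval of scale `k` containing `x` -/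
noncomputable def da (H : ℝ → ℂ) (k : ℤ) (x : ℝ) : ℂ :=
  ((2 : ℝ) ^ (-k) : ℝ) * ∫ y in dy k ⌊(2 : ℝ) ^ (-k) * x⌋, H y

/-- the demodulated partial sum over the scales `≥ b` of a tree -/
noncomputable def ps (φ : ℝ → ℂ) (T : Finset Tile) (w : Tile → ℂ) (ξ : ℝ) (b : ℤ) (x : ℝ) : ℂ :=
  (∑ s ∈ T.filter (fun s => b ≤ s.k), w s * fx φ s x) * e1 (-(x * ξ))

/-! ### from the model to the operator -/

/-- the multiplier of the right model operator at `z = (p - ξ)/(p - q)`: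
`(log 2)⁻¹ ∫_{w > 5z/4} B(w) dw/w`, `B(w) = Bt ρ 1 w` -/
noncomputable def Gm (ρ : ℝ → ℝ) (z : ℝ) : ℝ :=
  if 0 < z then (∫ w in Ioi (5 / 4 * z), Bt ρ 1 w / w) / Real.log 2 else 0

/-- minus the derivative of `Gm ρ z + Gm ρ (1 - z)` -/
noncomputable def bp (ρ : ℝ → ℝ) (w : ℝ) : ℝ :=
  (Bt ρ 1 (5 / 4 * w) / w - Bt ρ 1 (5 / 4 * (1 - w)) / (1 - w)) / Real.log 2

/-- the 4-variation in `N` of `∫_{ξ < N} g(ξ) e^{2 π i x ξ} dξ` -/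
noncomputable def VC (g : ℝ → ℂ) (x : ℝ) : ℝ≥0∞ :=
  ⨆ (L : ℕ) (N : ℕ → ℝ) (_ : Monotone N),
    (∑ j ∈ Finset.range L, ‖∫ ξ in Ico (N j) (N (j + 1)), g ξ * e1 (x * ξ)‖ₑ ^ 4) ^ (1 / 4 : ℝ)

end Pool.Agent.VRC
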