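import Pool.Agent.VRC.Targets5
import Pool.Agent.CRR.P_GM

set_option autoImplicit false

/-!
# VRC: separation of variables for functions of pure angular degree (target GMV)
-/

namespace Pool.Agent.VRC

open MeasureTheory FourierTransform Set Filter Topology
open scoped ENNReal NNReal
open Pool.Agent.MBS (E ex)
open Pool.Agent.CRN (sg SH Lam T_POLN T_HELN)
open Pool.Agent.CRR (Sol NSol xc T_SEQ T_UNI T_NRM T_QID T_ENR T_AHT)
open Pool.Agent.CRN.HELN_ (Sp fin_sg)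

namespace GMV_

variable {n : ℕ}

/-- joint measurability of `SH` -/
lemma SH_meas {g : E n → ℂ} (hg : Measurable g) :
    Measurable (fun p : ℝ × E n => SH g p.1 p.2) := by
  unfold SH
  have hA : Measurable fun p : ℝ × E n => ((p.1 ^ (n - 1) : ℝ) : ℂ) :=
    (Complex.continuous_ofReal.comp (continuous_fst.pow _)).measurable
  refine hA.mul ?_
  · have hw : Measurable fun q : (ℝ × E n) × Sp n => q.1.1 • (q.2 : E n) := by fun_prop
    have hF1 : Measurable (fun q : (ℝ × E n) × Sp n => g (q.1.1 • (q.2 : E n))) := hg.comp hw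
    have hw' : Continuous fun q : (ℝ × E n) × Sp n => q.1.1 • (q.2 : E n) := by fun_prop
    have hx' : Continuous fun q : (ℝ × E n) × Sp n => q.1.2 := by fun_prop
    have hFc : Continuous (fun q : (ℝ × E n) × Sp n => ex q.1.2 (q.1.1 • (q.2 : E n))) :=
      Pool.Agent.MBS.ex_continuous.comp (hx'.prodMk hw')
    have hF2 : Measurable (fun q : (ℝ × E n) × Sp n => ex q.1.2 (q.1.1 • (q.2 : E n))) :=
      hFc.measurable
    have hF : Measurable (fun q : (ℝ × E n) × Sp n =>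
        g (q.1.1 • (q.2 : E n)) * ex q.1.2 (q.1.1 • (q.2 : E n))) := hF1.mul hF2
    have h := MeasureTheory.StronglyMeasurable.integral_prod_right (ν := sg n)
      (f := fun (p : ℝ × E n) (ω : Sp n) => g (p.1 • (ω : E n)) * ex p.2 (p.1 • (ω : E n)))
      hF.stronglyMeasurable
    exact h.measurable

/-- `r^{(n-2)/2} SH g ρ (rθ)` at `2πρr = e^x` -/
noncomputable def ZV (g : E n → ℂ) (ρ : ℝ) (θ : E n) (x : ℝ) : ℂ :=
  (((Real.exp x / (2 * Real.pi * ρ)) ^ (((n : ℝ) - 2) / 2) : ℝ) : ℂ) *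
    SH g ρ ((Real.exp x / (2 * Real.pi * ρ)) • θ)

lemma ZV_log {g : E n → ℂ} {ρ r : ℝ} {θ : E n} (hρ : 0 < ρ) (hr : 0 < r) :
    ZV g ρ θ (Real.log (2 * Real.pi * r * ρ)) =
      ((r ^ (((n : ℝ) - 2) / 2) : ℝ) : ℂ) * SH g ρ (r • θ) := by
  unfold ZV
  have : Real.exp (Real.log (2 * Real.pi * r * ρ)) / (2 * Real.pi * ρ) = r := by
    rw [Real.exp_log (by positivity)]
    field_simp
  rw [this]

lemma ZV_meas {g : E n → ℂ} (hg : Measurable g) (x : ℝ) :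
    Measurable (fun q : ℝ × E n => ZV g q.1 q.2 x) := by
  unfold ZV
  have h1 : Measurable (fun q : ℝ × E n => Real.exp x / (2 * Real.pi * q.1)) := by fun_prop
  refine Measurable.mul ?_ ?_
  · exact Complex.measurable_ofReal.comp (h1.pow_const _)
  · exact (SH_meas hg).comp (measurable_fst.prodMk (h1.smul measurable_snd))

lemma od_nonneg (hn : 2 ≤ n) (l : ℕ) : 0 ≤ od n l := by
  unfold od
  have : (2 : ℝ) ≤ n := by exact_mod_cast hn
  have h2 : (0 : ℝ) ≤ l := Nat.cast_nonneg l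
  linarith

lemma single (h1 : T_SEQ) (h2 : T_UNI) (h3 : T_NRM) (h8 : T_ODV) (hn : 2 ≤ n) {l : ℕ}
    {g : E n → ℂ} (hg : Measurable g) (hP : Pure n l g) :
    ∃ (J J' : ℝ → ℝ) (G : ℝ → E n → ℂ), Measurable (fun q : ℝ × E n => G q.1 q.2) ∧
      ((∀ ρ θ, G ρ θ = 0) ∨ NSol (od n l) J J') ∧
      ∀ (ρ r : ℝ) (θ : E n), 0 < ρ → 0 < r → ‖θ‖ = 1 →
        ((r ^ (((n : ℝ) - 2) / 2) : ℝ) : ℂ) * SH g ρ (r • θ) =
          G ρ θ * J (Real.log (2 * Real.pi * r * ρ)) := by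
  by_cases hz : ∀ (ρ : ℝ) (θ : E n), 0 < ρ → ‖θ‖ = 1 → ∀ x, ZV g ρ θ x = 0
  · refine ⟨0, 0, 0, measurable_const, Or.inl fun _ _ => rfl, fun ρ r θ hρ hr hθ => ?_⟩
    rw [← ZV_log hρ hr, hz ρ θ hρ hθ]
    simp
  · push Not at hz
    obtain ⟨ρ₀, θ₀, hρ₀, hθ₀, x₀, hx₀⟩ := hz
    have hν : 0 ≤ od n l := od_nonneg hn l
    obtain ⟨J0, J0', hS0, hJ0⟩ : ∃ J0 J0' : ℝ → ℝ, Sol (od n l) J0 J0' ∧ J0 x₀ ≠ 0 := by
      obtain ⟨Z1, hre, him⟩ := h8 n l g ρ₀ θ₀ hn hP hρ₀ hθ₀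
      by_cases hr : (ZV g ρ₀ θ₀ x₀).re = 0
      · refine ⟨_, _, him, ?_⟩
        intro hi
        exact hx₀ (Complex.ext hr hi)
      · exact ⟨_, _, hre, hr⟩
    obtain ⟨c, hc, hN⟩ := h3 h1 _ J0 J0' hν hS0 ⟨x₀, hJ0⟩
    set J : ℝ → ℝ := fun x => c * J0 x with hJd
    set J' : ℝ → ℝ := fun x => c * J0' x with hJ'd
    have hJx : J x₀ ≠ 0 := mul_ne_zero hc hJ0
    refine ⟨J, J', fun ρ θ => if 0 < ρ then ZV g ρ θ x₀ / (J x₀ : ℂ) else 0, ?_,
      Or.inr hN, ?_⟩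
    · exact Measurable.ite (measurableSet_Ioi.preimage measurable_fst)
        ((ZV_meas hg x₀).div_const _) measurable_const
    · intro ρ r θ hρ hr hθ
      simp only [if_pos hρ]
      obtain ⟨Z1, hre, him⟩ := h8 n l g ρ θ hn hP hρ hθ
      obtain ⟨c1, hc1⟩ := h2 _ _ _ J J' hν hre hN.sol ⟨x₀, hJx⟩
      obtain ⟨c2, hc2⟩ := h2 _ _ _ J J' hν him hN.sol ⟨x₀, hJx⟩
      have key : ∀ x, ZV g ρ θ x = ((c1 : ℂ) + c2 * Complex.I) * (J x : ℂ) := by
        intro x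
        have e1 : (ZV g ρ θ x).re = c1 * J x := (hc1 x).1
        have e2 : (ZV g ρ θ x).im = c2 * J x := (hc2 x).1
        apply Complex.ext
        · simp only [Complex.mul_re, Complex.add_re, Complex.ofReal_re, Complex.ofReal_im,
            Complex.mul_im, Complex.I_re, Complex.I_im, Complex.add_im]
          rw [e1]
          ring
        · simp only [Complex.mul_re, Complex.add_re, Complex.ofReal_re, Complex.ofReal_im,
            Complex.mul_im, Complex.I_re, Complex.I_im, Complex.add_im]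
          rw [e2]
          ring
      rw [← ZV_log hρ hr, key, key x₀]
      have : (J x₀ : ℂ) ≠ 0 := by exact_mod_cast hJx
      field_simp

/-- energy in one direction -/
lemma energy (h1 : T_SEQ) (h4 : T_QID) (h5 : T_ENR) (hn : 2 ≤ n) {S : ℝ → ℝ → ℂ} {ν : ℝ}
    (hν : 0 ≤ ν) {J J' : ℝ → ℝ} {G : ℝ → ℂ} (hN : (∀ ρ, G ρ = 0) ∨ NSol ν J J')
    (hG : ∀ ρ r, 0 < ρ → 0 < r → ((r ^ (((n : ℝ) - 2) / 2) : ℝ) : ℂ) * S ρ r =
      G ρ * J (Real.log (2 * Real.pi * r * ρ))) {T : ℝ} (hT : 0 < T) :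
    (∫⁻ ρ in Ici (Real.exp (xc ν + 1) / (2 * Real.pi) / T), ‖G ρ‖ₑ ^ 2 *
        ENNReal.ofReal ρ⁻¹) * ENNReal.ofReal (T / (16 * Real.pi)) ≤
      ∫⁻ ρ in Ioi (0 : ℝ), ∫⁻ r in Ioc 0 T,
        ENNReal.ofReal (r ^ (n - 1)) * ‖S ρ r‖ₑ ^ 2 := by
  rcases hN with h0 | hN
  · simp [h0]
  have hsub : Ici (Real.exp (xc ν + 1) / (2 * Real.pi) / T) ⊆ Ioi (0 : ℝ) := by
    intro ρ hρ
    exact lt_of_lt_of_le (by positivity) (mem_Ici.mp hρ)
  rw [← lintegral_mul_const' _ _ ENNReal.ofReal_ne_top]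
  refine le_trans ?_ (lintegral_mono_set hsub)
  refine setLIntegral_mono' measurableSet_Ici fun ρ hρ => ?_
  have hρ0 : 0 < ρ := hsub hρ
  have hX : xc ν + 1 ≤ Real.log (2 * Real.pi * T * ρ) := by
    rw [Real.le_log_iff_exp_le (by positivity)]
    rw [mem_Ici, div_div, div_le_iff₀ (by positivity)] at hρ
    calc Real.exp (xc ν + 1) ≤ _ := hρ
      _ = _ := by ring
  have hlow := Pool.Agent.CRR.GM_.lower h1 h4 h5 hν hN hρ0 hT hX
  have e1 : ∫⁻ r in Ioc 0 T, ENNReal.ofReal (r ^ (n - 1)) * ‖S ρ r‖ₑ ^ 2 =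
      ‖G ρ‖ₑ ^ 2 *
        ∫⁻ r in Ioc 0 T, ENNReal.ofReal (r * J (Real.log (2 * Real.pi * r * ρ)) ^ 2) := by
    rw [← lintegral_const_mul' _ _ (by finiteness)]
    refine setLIntegral_congr_fun measurableSet_Ioc fun r hr => ?_
    have hr0 : 0 < r := hr.1
    have h7 := hG ρ r hρ0 hr0
    have h8 : ‖((r ^ (((n : ℝ) - 2) / 2) : ℝ) : ℂ) * S ρ r‖ₑ ^ 2 =
        ENNReal.ofReal (r ^ (n - 2)) * ‖S ρ r‖ₑ ^ 2 := by
      rw [enorm_mul, mul_pow]
      congr 1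
      rw [← ofReal_norm, Complex.norm_real, Real.norm_of_nonneg (by positivity),
        ← ENNReal.ofReal_pow (by positivity)]
      congr 1
      rw [← Real.rpow_natCast, ← Real.rpow_mul hr0.le, ← Real.rpow_natCast]
      congr 1
      rw [Nat.cast_sub hn]
      push_cast
      ring
    have h9 : ENNReal.ofReal (r ^ (n - 1)) = ENNReal.ofReal r * ENNReal.ofReal (r ^ (n - 2)) := by
      rw [← ENNReal.ofReal_mul hr0.le, ← pow_succ']
      congr 2
      omega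
    rw [h9, mul_assoc, ← h8, h7, enorm_mul, mul_pow, ENNReal.ofReal_mul hr0.le]
    have h10 : ‖((J (Real.log (2 * Real.pi * r * ρ)) : ℝ) : ℂ)‖ₑ ^ 2 =
        ENNReal.ofReal (J (Real.log (2 * Real.pi * r * ρ)) ^ 2) := by
      rw [← ofReal_norm, Complex.norm_real, ← ENNReal.ofReal_pow (norm_nonneg _),
        Real.norm_eq_abs, sq_abs]
    rw [h10]
    ring
  rw [e1, mul_assoc]
  gcongr
  refine le_trans (le_of_eq ?_) hlow
  rw [← ENNReal.ofReal_mul (by positivity)]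
  congr 1
  field_simp

lemma norm_sp (θ : Sp n) : ‖(θ : E n)‖ = 1 := by
  have := θ.2
  rwa [mem_sphere_zero_iff_norm] at this

/-- polar coordinates and Tonelli -/
lemma tonelli (h7 : T_POLN) (hn : 2 ≤ n) {g : E n → ℂ} (hg : Measurable g) (T : ℝ) :
    ∫⁻ θ : Sp n, (∫⁻ ρ in Ioi (0 : ℝ), ∫⁻ r in Ioc 0 T,
        ENNReal.ofReal (r ^ (n - 1)) * ‖SH g ρ (r • (θ : E n))‖ₑ ^ 2) ∂(sg n) ≤
      ∫⁻ ρ in Ioi (0 : ℝ), ∫⁻ x in Metric.closedBall (0 : E n) T, ‖SH g ρ x‖ₑ ^ 2 := by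
  have hS := SH_meas hg
  have hF3 : Measurable (fun q : (Sp n × ℝ) × ℝ =>
      ENNReal.ofReal (q.2 ^ (n - 1)) * ‖SH g q.1.2 (q.2 • (q.1.1 : E n))‖ₑ ^ 2) := by
    have hA : Measurable (fun q : (Sp n × ℝ) × ℝ => ENNReal.ofReal (q.2 ^ (n - 1))) := by
      fun_prop
    have hB : Measurable (fun q : (Sp n × ℝ) × ℝ => SH g q.1.2 (q.2 • (q.1.1 : E n))) :=
      hS.comp ((measurable_snd.comp measurable_fst).prodMk
        (measurable_snd.smul (measurable_subtype_coe.comp (measurable_fst.comp measurable_fst))))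
    exact hA.mul (hB.enorm.pow_const 2)
  rw [lintegral_lintegral_swap
    (f := fun (θ : Sp n) (ρ : ℝ) => ∫⁻ r in Ioc 0 T,
        ENNReal.ofReal (r ^ (n - 1)) * ‖SH g ρ (r • (θ : E n))‖ₑ ^ 2)
    (hF3.lintegral_prod_right' (ν := volume.restrict (Ioc 0 T))).aemeasurable]
  refine lintegral_mono fun ρ => ?_
  have hSρ : Measurable (fun x : E n => SH g ρ x) := hS.comp (measurable_const.prodMk measurable_id)
  have hF2 : Measurable (fun q : Sp n × ℝ =>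
      ENNReal.ofReal (q.2 ^ (n - 1)) * ‖SH g ρ (q.2 • (q.1 : E n))‖ₑ ^ 2) := by
    have hA : Measurable (fun q : Sp n × ℝ => ENNReal.ofReal (q.2 ^ (n - 1))) := by
      fun_prop
    have hB : Measurable (fun q : Sp n × ℝ => SH g ρ (q.2 • (q.1 : E n))) :=
      hSρ.comp (measurable_snd.smul (measurable_subtype_coe.comp measurable_fst))
    exact hA.mul (hB.enorm.pow_const 2)
  simp only
  rw [lintegral_lintegral_swap
    (f := fun (θ : Sp n) (r : ℝ) =>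
        ENNReal.ofReal (r ^ (n - 1)) * ‖SH g ρ (r • (θ : E n))‖ₑ ^ 2) hF2.aemeasurable]
  have hF : Measurable ((Metric.closedBall (0 : E n) T).indicator
      (fun x => ‖SH g ρ x‖ₑ ^ 2)) :=
    (hSρ.enorm.pow_const 2).indicator measurableSet_closedBall
  rw [← lintegral_indicator measurableSet_closedBall, (h7 n (by omega)).1 _ hF]
  refine le_trans ?_ (lintegral_mono_set (fun x hx => hx.1 : Ioc (0 : ℝ) T ⊆ Ioi 0))
  refine setLIntegral_mono' measurableSet_Ioc fun r hr => ?_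
  refine lintegral_mono fun θ => ?_
  simp only
  rw [indicator_of_mem]
  rw [mem_closedBall_zero_iff, norm_smul, Real.norm_of_nonneg hr.1.le, norm_sp, mul_one]
  exact hr.2

end GMV_

open GMV_ in
theorem p_GMV (h1 : T_SEQ) (h2 : T_UNI) (h3 : T_NRM) (h4 : T_QID) (h5 : T_ENR) (h6 : T_AHT)
    (h7 : T_POLN) (h8 : T_ODV) : T_GMV := by
  intro n hn
  obtain ⟨CA, hCA⟩ := h6 n hn
  refine ⟨CA * Real.toNNReal (16 * Real.pi), ?_⟩
  intro l g hg hP
  obtain ⟨J, J', G, hGm, hN, hG⟩ := single h1 h2 h3 h8 hn hg hP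
  refine ⟨J, J', G, hGm, hN, hG, ?_⟩
  set a : ℝ := Real.exp (xc (od n l) + 1) / (2 * Real.pi) with ha
  have hapos : 0 < a := by
    simp only [ha]
    positivity
  have hT : ∀ T : ℝ, 0 < T →
      ∫⁻ θ : Sp n, (∫⁻ ρ in Ici (a / T), ‖G ρ (θ : E n)‖ₑ ^ 2 * ENNReal.ofReal ρ⁻¹) ∂(sg n) ≤
      ((CA * Real.toNNReal (16 * Real.pi) : ℝ≥0) : ℝ≥0∞) * ∫⁻ ξ, ‖g ξ‖ₑ ^ 2 := by
    intro T hT
    have hb : ENNReal.ofReal (T / (16 * Real.pi)) ≠ 0 := by
      rw [Ne, ENNReal.ofReal_eq_zero, not_le]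
      positivity
    have e1 : (∫⁻ θ : Sp n, (∫⁻ ρ in Ici (a / T),
          ‖G ρ (θ : E n)‖ₑ ^ 2 * ENNReal.ofReal ρ⁻¹) ∂(sg n)) *
        ENNReal.ofReal (T / (16 * Real.pi)) ≤ CA * ENNReal.ofReal T * ∫⁻ ξ, ‖g ξ‖ₑ ^ 2 := by
      rw [← lintegral_mul_const' _ _ ENNReal.ofReal_ne_top]
      calc _ ≤ ∫⁻ θ : Sp n, (∫⁻ ρ in Ioi (0 : ℝ), ∫⁻ r in Ioc 0 T,
            ENNReal.ofReal (r ^ (n - 1)) * ‖SH g ρ (r • (θ : E n))‖ₑ ^ 2) ∂(sg n) := by
            refine lintegral_mono fun θ => ?_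
            refine energy h1 h4 h5 hn (S := fun ρ r => SH g ρ (r • (θ : E n)))
              (od_nonneg hn l) (J' := J') (G := fun ρ => G ρ (θ : E n)) ?_
              (fun ρ r hρ hr => hG ρ r _ hρ hr (norm_sp θ)) hT
            rcases hN with h0 | hN
            · exact Or.inl fun ρ => h0 ρ _
            · exact Or.inr hN
        _ ≤ ∫⁻ ρ in Ioi (0 : ℝ), ∫⁻ x in Metric.closedBall (0 : E n) T, ‖SH g ρ x‖ₑ ^ 2 :=
            tonelli h7 hn hg T
        _ ≤ _ := hCA T g hT hg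
    have e2 : ENNReal.ofReal T =
        (Real.toNNReal (16 * Real.pi) : ℝ≥0∞) * ENNReal.ofReal (T / (16 * Real.pi)) := by
      rw [← ENNReal.ofReal, ← ENNReal.ofReal_mul (by positivity)]
      congr 1
      field_simp
    rw [← ENNReal.mul_le_mul_iff_left hb ENNReal.ofReal_ne_top]
    refine e1.trans (le_of_eq ?_)
    rw [e2]
    push_cast
    ring
  have hmono : Monotone (fun k : ℕ => Ici (a / ((k : ℝ) + 1))) := by
    intro i j hij
    apply Ici_subset_Ici.mpr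
    have hij' : (i : ℝ) ≤ j := by exact_mod_cast hij
    gcongr
  have hU : Ioi (0 : ℝ) = ⋃ k : ℕ, Ici (a / ((k : ℝ) + 1)) := by
    ext ρ
    simp only [mem_Ioi, mem_iUnion, mem_Ici]
    constructor
    · intro hρ
      obtain ⟨k, hk⟩ := exists_nat_gt (a / ρ)
      refine ⟨k, ?_⟩
      rw [div_le_iff₀ (by positivity)]
      rw [div_lt_iff₀ hρ] at hk
      nlinarith
    · rintro ⟨k, hk⟩
      exact lt_of_lt_of_le (div_pos hapos (by positivity)) hk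
  have hsup : ∀ θ : Sp n, ∫⁻ ρ in Ioi (0 : ℝ), ‖G ρ (θ : E n)‖ₑ ^ 2 * ENNReal.ofReal ρ⁻¹ =
      ⨆ k : ℕ, ∫⁻ ρ in Ici (a / ((k : ℝ) + 1)),
        ‖G ρ (θ : E n)‖ₑ ^ 2 * ENNReal.ofReal ρ⁻¹ := by
    intro θ
    conv_lhs => rw [hU]
    exact setLIntegral_iUnion_of_directed _ hmono.directed_le
  simp only [hsup]
  rw [lintegral_iSup]
  · exact iSup_le fun k => hT _ (by positivity)
  · intro k
    have hm : Measurable (fun q : Sp n × ℝ =>
        ‖G q.2 (q.1 : E n)‖ₑ ^ 2 * ENNReal.ofReal q.2⁻¹) := by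
      refine Measurable.mul ((Measurable.enorm ?_).pow_const 2) (by fun_prop)
      exact hGm.comp (measurable_snd.prodMk (measurable_subtype_coe.comp measurable_fst))
    exact hm.lintegral_prod_right' (ν := volume.restrict (Ici (a / ((k : ℝ) + 1))))
  · intro i j hij θ
    exact lintegral_mono_set (hmono hij)

end Pool.Agent.VRC
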