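import Pool.Agent.VRC.Targets7
import Pool.Agent.CRN.P_RMN

set_option autoImplicit false

/-!
# VRC, NVD: Rademacher-Menshov with the 4-variation
-/

namespace Pool.Agent.VRC

open MeasureTheory FourierTransform Set Filter Topology
open scoped ENNReal NNReal ComplexConjugate
open Pool.Agent.MBS (E ex S)
open Pool.Agent.CRN (sg SH S1 Nice T_POLN T_DSN IN)

namespace NVD_

open Pool.Agent.CRN.RMN_ (rd rd_zero rd_top rd_step chain_sum sup_sq_le IN_cont An An_int S_sub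
  S_zero fourier_cont enorm_sq)

/-! ### the number `q = 2^(1/4)` -/

/-- `2^(1/4)` -/
noncomputable def q : ℝ := Real.sqrt (Real.sqrt 2)

theorem q_sq : q ^ 2 = Real.sqrt 2 := Real.sq_sqrt (Real.sqrt_nonneg _)

theorem q_ge : 7 / 6 ≤ q := by
  unfold q
  refine Real.le_sqrt_of_sq_le (Real.le_sqrt_of_sq_le ?_)
  norm_num

theorem q_pos : 0 < q := lt_of_lt_of_le (by norm_num) q_ge

theorem geo (J : ℕ) : ∑ l ∈ Finset.range (J + 1), q ^ (J - l) ≤ 7 * q ^ J := by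
  have h1 : ∑ l ∈ Finset.range (J + 1), q ^ (J - l) = ∑ l ∈ Finset.range (J + 1), q ^ l := by
    rw [← Finset.sum_range_reflect]
    refine Finset.sum_congr rfl fun l hl => ?_
    have h2 := Finset.mem_range.1 hl
    congr 1
    omega
  rw [h1]
  clear h1
  induction J with
  | zero => norm_num
  | succ J ih =>
    rw [Finset.sum_range_succ]
    have h2 : 0 < q ^ J := pow_pos q_pos J
    have h3 : q ^ (J + 1) = q ^ J * q := pow_succ _ _
    have h4 : q ^ J * (7 / 6) ≤ q ^ J * q := by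
      gcongr
      exact q_ge
    rw [h3] at *
    linarith

/-! ### chaining with weights -/

theorem step_enorm (P : ℕ → ℂ) {N J : ℕ} (h : N ≤ 2 ^ J) {l : ℕ} (hl : l ≤ J) :
    ‖P (rd N l) - P (rd N (l + 1))‖ₑ ^ 2 ≤
      ∑ i ∈ Finset.range (2 ^ (J - l)), ‖P ((i + 1) * 2 ^ l) - P (i * 2 ^ l)‖ₑ ^ 2 := by
  rcases rd_step N l with h1 | ⟨h1, h2⟩
  · rw [h1, sub_self]
    simp
  · set i := 2 * (N / 2 ^ (l + 1)) with hi
    have h3 : (i + 1) * 2 ^ l ≤ 2 ^ J := by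
      rw [← h2]
      exact (Nat.div_mul_le_self N (2 ^ l)).trans h
    have h4 : i < 2 ^ (J - l) := by
      have h5 : 2 ^ J = 2 ^ (J - l) * 2 ^ l := by
        rw [← pow_add]
        congr 1
        omega
      rw [h5] at h3
      exact Nat.le_of_mul_le_mul_right h3 (pow_pos two_pos l)
    rw [h1, h2]
    exact Finset.single_le_sum (f := fun i => ‖P ((i + 1) * 2 ^ l) - P (i * 2 ^ l)‖ₑ ^ 2)
      (fun i _ => zero_le) (Finset.mem_range.2 h4)

theorem chain_w (P : ℕ → ℂ) (h0 : P 0 = 0) {N J : ℕ} (h : N ≤ 2 ^ J) :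
    ‖P N‖ₑ ^ 2 ≤ ENNReal.ofReal (7 * q ^ J) * ∑ l ∈ Finset.range (J + 1),
      ENNReal.ofReal ((q ^ (J - l))⁻¹) * ‖P (rd N l) - P (rd N (l + 1))‖ₑ ^ 2 := by
  have h1 := chain_sum P N (J + 1)
  rw [rd_top h, h0, zero_add] at h1
  have hq : ∀ l, 0 < q ^ (J - l) := fun l => pow_pos q_pos _
  have h2 : ‖P N‖ ^ 2 ≤ 7 * q ^ J * ∑ l ∈ Finset.range (J + 1),
      (q ^ (J - l))⁻¹ * ‖P (rd N l) - P (rd N (l + 1))‖ ^ 2 := by
    rw [h1]
    calc ‖∑ l ∈ Finset.range (J + 1), (P (rd N l) - P (rd N (l + 1)))‖ ^ 2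
        ≤ (∑ l ∈ Finset.range (J + 1), ‖P (rd N l) - P (rd N (l + 1))‖) ^ 2 := by
          gcongr
          exact norm_sum_le _ _
      _ ≤ (∑ l ∈ Finset.range (J + 1), q ^ (J - l)) * ∑ l ∈ Finset.range (J + 1),
          (q ^ (J - l))⁻¹ * ‖P (rd N l) - P (rd N (l + 1))‖ ^ 2 := by
          refine Finset.sum_sq_le_sum_mul_sum_of_sq_eq_mul _ (fun l _ => (hq l).le)
            (fun l _ => by have := hq l; positivity) (fun l _ => ?_)
          rw [← mul_assoc, mul_inv_cancel₀ (hq l).ne', one_mul]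
      _ ≤ _ := by
          refine mul_le_mul_of_nonneg_right (geo J) ?_
          exact Finset.sum_nonneg fun l _ => by have := hq l; positivity
  have h3 := ENNReal.ofReal_le_ofReal h2
  rw [← enorm_sq, ENNReal.ofReal_mul (by have := pow_pos q_pos J; positivity),
    ENNReal.ofReal_sum_of_nonneg (fun l _ => by have := hq l; positivity)] at h3
  refine h3.trans (le_of_eq ?_)
  congr 1
  refine Finset.sum_congr rfl fun l _ => ?_
  rw [ENNReal.ofReal_mul (by have := hq l; positivity), enorm_sq]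

/-! ### Cauchy-Schwarz -/

theorem half_pow (k : ℕ) : (((2 ^ k : ℕ) : ℝ≥0∞)) ^ (1 / 2 : ℝ) = ENNReal.ofReal ((q ^ 2) ^ k) := by
  have h1 : (((2 ^ k : ℕ) : ℝ≥0∞)) = ENNReal.ofReal ((2 : ℝ) ^ k) := by
    rw [← ENNReal.ofReal_natCast]
    push_cast
    rfl
  rw [h1, ENNReal.ofReal_rpow_of_pos (by positivity), q_sq]
  congr 1
  rw [← Real.sqrt_eq_rpow, Real.sqrt_eq_iff_mul_self_eq (by positivity) (by positivity),
    ← mul_pow, Real.mul_self_sqrt (by norm_num)]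

theorem cs (a : ℕ → ℝ≥0∞) (k : ℕ) {V : ℝ≥0∞}
    (h : (∑ i ∈ Finset.range (2 ^ k), a i ^ 2) ^ (1 / 4 : ℝ) ≤ V) :
    ∑ i ∈ Finset.range (2 ^ k), a i ≤ ENNReal.ofReal ((q ^ 2) ^ k) * V ^ 2 := by
  have h1 := ENNReal.inner_le_Lp_mul_Lq (Finset.range (2 ^ k)) (fun _ => (1 : ℝ≥0∞)) a
    (p := 2) (q := 2) (Real.HolderConjugate.two_two)
  simp only [one_mul, one_pow, Finset.sum_const, Finset.card_range, nsmul_eq_mul,
    mul_one, ENNReal.rpow_ofNat] at h1
  rw [half_pow] at h1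
  refine h1.trans ?_
  gcongr
  calc (∑ i ∈ Finset.range (2 ^ k), a i ^ 2) ^ (1 / 2 : ℝ)
      = ((∑ i ∈ Finset.range (2 ^ k), a i ^ 2) ^ (1 / 4 : ℝ)) ^ 2 := by
        rw [← ENNReal.rpow_natCast, ← ENNReal.rpow_mul]
        norm_num
    _ ≤ V ^ 2 := by gcongr

/-! ### the sorted radii -/

theorem sorted (M : ℕ) (R : ℕ → ℝ) (hM : 1 ≤ M) (hR : ∀ j, 0 < R j) :
    ∃ t : ℕ → ℝ, Monotone t ∧ t 0 = 0 ∧ ∀ j < M, ∃ i ≤ M, t i = R j := by
  set f : Fin M → ℝ := fun j => R j with hf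
  have hs := Tuple.monotone_sort f
  set σ := Tuple.sort f with hσ
  have hlt : ∀ i : ℕ, min (i - 1) (M - 1) < M := by
    intro i
    omega
  refine ⟨fun i => if i = 0 then 0 else f (σ ⟨min (i - 1) (M - 1), hlt i⟩), ?_, ?_, ?_⟩
  · intro i j hij
    simp only
    by_cases hi : i = 0
    · rw [if_pos hi]
      by_cases hj : j = 0
      · rw [if_pos hj]
      · rw [if_neg hj]
        exact (hR _).le
    · have hj : j ≠ 0 := by omega
      rw [if_neg hi, if_neg hj]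
      refine hs ?_
      rw [Fin.mk_le_mk]
      omega
  · simp
  · intro j hj
    refine ⟨(σ.symm ⟨j, hj⟩ : ℕ) + 1, (σ.symm ⟨j, hj⟩).isLt, ?_⟩
    simp only
    rw [if_neg (Nat.succ_ne_zero _)]
    have h1 : (⟨min ((σ.symm ⟨j, hj⟩ : ℕ) + 1 - 1) (M - 1), hlt _⟩ : Fin M) =
        σ.symm ⟨j, hj⟩ := by
      have := (σ.symm ⟨j, hj⟩).isLt
      ext
      simp only [Nat.add_sub_cancel]
      omega
    rw [h1, Equiv.apply_symm_apply]

end NVD_

open NVD_ Pool.Agent.CRN.RMN_ in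
/-- NVD -/
theorem p_NVD (_h1 : Pool.Agent.CRN.T_DSN) : T_NVD := by
  refine ⟨98, ?_⟩
  intro n M f r R hn hM hf hR
  obtain ⟨t, htm, ht0, htR⟩ := sorted M R hM hR
  obtain ⟨J, hJ1, hJ2⟩ : ∃ J : ℕ, M ≤ 2 ^ J ∧ 2 ^ J ≤ 2 * M := by
    refine ⟨Nat.log 2 M + 1, (Nat.lt_pow_succ_log_self one_lt_two M).le, ?_⟩
    rw [pow_succ]
    have := Nat.pow_log_le_self 2 (show M ≠ 0 by omega)
    omega
  have hg : Continuous (𝓕 f) := fourier_cont hf.int
  set P : ℕ → E n → ℂ := fun i x => S f (t i) x with hP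
  set A : ℝ≥0∞ := ENNReal.ofReal (7 * q ^ J) with hA
  have hm : ∀ l i : ℕ, Measurable fun θ : Metric.sphere (0 : E n) 1 =>
      ‖P ((i + 1) * 2 ^ l) (r • (θ : E n)) - P (i * 2 ^ l) (r • (θ : E n))‖ₑ ^ 2 := by
    intro l i
    have h1 : (fun θ : Metric.sphere (0 : E n) 1 =>
        ‖P ((i + 1) * 2 ^ l) (r • (θ : E n)) - P (i * 2 ^ l) (r • (θ : E n))‖ₑ ^ 2) =
        fun θ : Metric.sphere (0 : E n) 1 => ‖IN ((An n (t (i * 2 ^ l))
          (t ((i + 1) * 2 ^ l))).indicator (𝓕 f)) (r • (θ : E n))‖ₑ ^ 2 := by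
      funext θ
      rw [hP]
      simp only
      rw [S_sub hg (htm (Nat.mul_le_mul_right _ (Nat.le_succ i)))]
    rw [h1]
    have h2 : Continuous fun θ : Metric.sphere (0 : E n) 1 => r • (θ : E n) :=
      continuous_subtype_val.const_smul r
    exact (((IN_cont (An_int hg _ _)).comp h2).measurable.enorm).pow_const 2
  have hpt : ∀ θ : Metric.sphere (0 : E n) 1,
      (⨆ (j : ℕ) (_ : j < M), ‖S f (R j) (r • (θ : E n))‖ₑ) ^ 2 ≤
      A * ∑ l ∈ Finset.range (J + 1), ENNReal.ofReal ((q ^ (J - l))⁻¹) *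
        ∑ i ∈ Finset.range (2 ^ (J - l)),
        ‖P ((i + 1) * 2 ^ l) (r • (θ : E n)) - P (i * 2 ^ l) (r • (θ : E n))‖ₑ ^ 2 := by
    intro θ
    refine sup_sq_le fun j hj => ?_
    obtain ⟨i, hi, hti⟩ := htR j hj
    have h0 : P 0 (r • (θ : E n)) = 0 := by
      rw [hP]
      simp only
      rw [ht0]
      exact S_zero (by omega) f _
    have h1 := chain_w (fun i => P i (r • (θ : E n))) h0 (hi.trans hJ1)
    have h2 : S f (R j) (r • (θ : E n)) = P i (r • (θ : E n)) := by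
      rw [hP]
      simp only
      rw [hti]
    rw [h2]
    refine h1.trans ?_
    refine mul_le_mul_right (Finset.sum_le_sum fun l hl => ?_) _
    refine mul_le_mul_right ?_ _
    have hl' : l ≤ J := by
      have := Finset.mem_range.1 hl
      omega
    exact step_enorm (fun i => P i (r • (θ : E n))) (hi.trans hJ1) hl'
  have hlev : ∀ l : ℕ, ∑ i ∈ Finset.range (2 ^ (J - l)), ∫⁻ θ,
      ‖P ((i + 1) * 2 ^ l) (r • (θ : E n)) - P (i * 2 ^ l) (r • (θ : E n))‖ₑ ^ 2 ∂(sg n) ≤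
      ENNReal.ofReal ((q ^ 2) ^ (J - l)) * VS f r ^ 2 := by
    intro l
    refine cs _ _ ?_
    have h1 : Monotone (fun i : ℕ => t (i * 2 ^ l)) := fun i j hij =>
      htm (Nat.mul_le_mul_right _ hij)
    exact le_iSup_of_le (2 ^ (J - l)) (le_iSup₂_of_le (fun i : ℕ => t (i * 2 ^ l)) h1 le_rfl)
  have hqq : ∀ l, ENNReal.ofReal ((q ^ (J - l))⁻¹) * (ENNReal.ofReal ((q ^ 2) ^ (J - l)) *
      VS f r ^ 2) = ENNReal.ofReal (q ^ (J - l)) * VS f r ^ 2 := by
    intro l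
    have h1 : 0 < q ^ (J - l) := pow_pos q_pos _
    rw [← mul_assoc, ← ENNReal.ofReal_mul (by positivity)]
    congr 2
    rw [← pow_mul, mul_comm 2 (J - l), pow_mul, sq, ← mul_assoc, inv_mul_cancel₀ h1.ne', one_mul]
  calc ∫⁻ θ, (⨆ (j : ℕ) (_ : j < M), ‖S f (R j) (r • (θ : E n))‖ₑ) ^ 2 ∂(sg n)
      ≤ ∫⁻ θ, A * ∑ l ∈ Finset.range (J + 1), ENNReal.ofReal ((q ^ (J - l))⁻¹) *
        ∑ i ∈ Finset.range (2 ^ (J - l)),
        ‖P ((i + 1) * 2 ^ l) (r • (θ : E n)) - P (i * 2 ^ l) (r • (θ : E n))‖ₑ ^ 2 ∂(sg n) :=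
        lintegral_mono hpt
    _ = A * ∑ l ∈ Finset.range (J + 1), ENNReal.ofReal ((q ^ (J - l))⁻¹) *
        ∑ i ∈ Finset.range (2 ^ (J - l)), ∫⁻ θ,
        ‖P ((i + 1) * 2 ^ l) (r • (θ : E n)) - P (i * 2 ^ l) (r • (θ : E n))‖ₑ ^ 2 ∂(sg n) := by
        rw [lintegral_const_mul _ (Finset.measurable_sum _ fun l _ =>
          (Finset.measurable_sum _ fun i _ => hm l i).const_mul _),
          lintegral_finsetSum _ fun l _ =>
            (Finset.measurable_sum _ fun i _ => hm l i).const_mul _]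
        congr 1
        refine Finset.sum_congr rfl fun l _ => ?_
        rw [lintegral_const_mul _ (Finset.measurable_sum _ fun i _ => hm l i),
          lintegral_finsetSum _ fun i _ => hm l i]
    _ ≤ A * ∑ l ∈ Finset.range (J + 1), ENNReal.ofReal (q ^ (J - l)) * VS f r ^ 2 := by
        refine mul_le_mul_right (Finset.sum_le_sum fun l _ => ?_) _
        rw [← hqq l]
        exact mul_le_mul_right (hlev l) _
    _ ≤ A * (A * VS f r ^ 2) := by
        rw [← Finset.sum_mul, ← ENNReal.ofReal_sum_of_nonneg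
          (fun l _ => (pow_pos q_pos (J - l)).le)]
        refine mul_le_mul_right (mul_le_mul_left (ENNReal.ofReal_le_ofReal (geo J)) _) _
    _ ≤ ((98 : ℝ≥0) : ℝ≥0∞) * ENNReal.ofReal (Real.sqrt M) * VS f r ^ 2 := by
        rw [← mul_assoc]
        refine mul_le_mul_left ?_ _
        have h1 : 0 < q ^ J := pow_pos q_pos _
        rw [hA, ← ENNReal.ofReal_mul (by positivity)]
        have h2 : ((98 : ℝ≥0) : ℝ≥0∞) = ENNReal.ofReal 98 := by
          rw [ENNReal.ofReal_ofNat]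
          rfl
        rw [h2, ← ENNReal.ofReal_mul (by norm_num)]
        refine ENNReal.ofReal_le_ofReal ?_
        have h3 : q ^ J * q ^ J = Real.sqrt (2 ^ J) := by
          rw [← mul_pow, ← sq, q_sq, eq_comm, Real.sqrt_eq_iff_mul_self_eq (by positivity)
            (by positivity), ← mul_pow, Real.mul_self_sqrt (by norm_num)]
        have h4 : Real.sqrt (2 ^ J) ≤ 2 * Real.sqrt M := by
          have h5 : (2 : ℝ) ^ J ≤ 2 * M := by exact_mod_cast hJ2
          rw [Real.sqrt_le_left (by positivity), mul_pow, Real.sq_sqrt (by positivity)]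
          have h6 : (0 : ℝ) ≤ M := by positivity
          linarith
        nlinarith

end Pool.Agent.VRC
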