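import Pool.Agent.VRC.Targets5
import Pool.Agent.VRC.P_RCA

set_option autoImplicit false

/-!
# VRC, target RHM (helper66): random signs of the components, the maximal inequality
-/

namespace Pool.Agent.VRC

open MeasureTheory FourierTransform Set Filter Topology
open scoped ENNReal NNReal
open Pool.Agent.MBS (E ex)
open Pool.Agent.CRN (sg SH Lam T_POLN T_HELN)
open Pool.Agent.CRR (Sol NSol)

namespace RHM_

/-- cutting off the small frequencies keeps the pure degree -/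
lemma pure_ind {n l : ℕ} {g : E n → ℂ} (h : Pure n l g) (ρ0 : ℝ) :
    Pure n l ({ξ : E n | ρ0 < ‖ξ‖}.indicator g) := by
  intro ρ hρ
  have hn : ∀ θ : E n, ‖θ‖ = 1 → ‖ρ • θ‖ = ρ := by
    intro θ hθ
    rw [norm_smul, hθ, mul_one, Real.norm_of_nonneg hρ.le]
  by_cases h0 : ρ0 < ρ
  · obtain ⟨p, h1, h2, h3, h4⟩ := h ρ hρ
    refine ⟨p, h1, h2, h3, fun θ hθ => ?_⟩
    have hm : ρ • θ ∈ {ξ : E n | ρ0 < ‖ξ‖} := by
      show ρ0 < ‖ρ • θ‖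
      rw [hn θ hθ]
      exact h0
    rw [indicator_of_mem hm, h4 θ hθ]
  · refine ⟨fun _ => 0, contDiff_const, fun x => ?_, fun t x _ => (mul_zero _).symm,
      fun θ hθ => ?_⟩
    · rw [InnerProductSpace.laplacian_const]
      rfl
    · have hm : ρ • θ ∉ {ξ : E n | ρ0 < ‖ξ‖} := by
        intro hm
        have h1 : ρ0 < ‖ρ • θ‖ := hm
        rw [hn θ hθ] at h1
        exact h0 h1
      rw [indicator_of_notMem hm]

lemma gbv {n : ℕ} {C : ℝ≥0} (hC : ∀ (l : ℕ) (g : E n → ℂ), Measurable g → Pure n l g →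
      ∫⁻ x, VB g x ^ 2 ≤ C * ∫⁻ ξ, ‖g ξ‖ₑ ^ 2) {l : ℕ → ℕ} {g : ℕ → E n → ℂ}
    (hg : ∀ i, Measurable (g i)) (hp : ∀ i, Pure n (l i) (g i))
    (hs : ∑' i, ∫⁻ ξ, ‖g i ξ‖ₑ ^ 2 ≠ ⊤) : GB n univ C g := by
  refine ⟨hg, MeasurableSet.univ, hs, fun i ρ _ => ?_⟩
  have hS : MeasurableSet {ξ : E n | ρ < ‖ξ‖} := measurableSet_lt measurable_const measurable_norm
  have h := hC (l i) ({ξ : E n | ρ < ‖ξ‖}.indicator (g i)) ((hg i).indicator hS)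
    (pure_ind (hp i) ρ)
  rw [Measure.restrict_univ]
  refine h.trans (le_of_eq ?_)
  congr 1
  rw [← lintegral_indicator hS]
  refine lintegral_congr fun ξ => ?_
  by_cases h1 : ξ ∈ {ξ : E n | ρ < ‖ξ‖}
  · rw [indicator_of_mem h1, indicator_of_mem h1]
  · rw [indicator_of_notMem h1, indicator_of_notMem h1]
    simp

end RHM_

open RHM_ in
theorem p_RHM (h1 : T_AB1) (h2 : T_RDV) : T_RHM := by
  obtain ⟨C1, hC1⟩ := h1
  intro n hn
  obtain ⟨C2, hC2⟩ := h2 n hn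
  refine ⟨C1 * C2, fun l g Ω _ P ε G hg hp hs hS hG hconv => ?_⟩
  have hn1 : 1 ≤ n := by omega
  obtain ⟨H, -, hH, hHi⟩ := hC1 n univ C2 g 0 Ω P ε G hn1 (gbv hC2 hg hp hs) hS le_rfl hG hconv
  calc ∫⁻ ω, (∫⁻ x, (⨆ (R : ℝ) (_ : 0 < R),
      ‖∫ ξ in Metric.closedBall (0 : E n) R, G ω ξ * ex x ξ‖ₑ) ^ 2) ∂P
      ≤ ∫⁻ ω, (∫⁻ x in univ, H (ω, x) ^ 2) ∂P := by
        refine lintegral_mono_ae ?_
        filter_upwards [hH] with ω hω
        rw [Measure.restrict_univ]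
        refine lintegral_mono fun x => ?_
        refine pow_le_pow_left' (iSup₂_le fun R hR => ?_) 2
        rw [RCA_.shell_eq hn1]
        exact hω x R hR
    _ ≤ C1 * C2 * ∑' i, ∫⁻ ξ in {ξ : E n | 0 < ‖ξ‖}, ‖g i ξ‖ₑ ^ 2 := hHi
    _ ≤ C1 * C2 * ∑' i, ∫⁻ ξ, ‖g i ξ‖ₑ ^ 2 := by
        gcongr
        exact Measure.restrict_le_self
    _ = ((C1 * C2 : ℝ≥0) : ℝ≥0∞) * ∑' i, ∫⁻ ξ, ‖g i ξ‖ₑ ^ 2 := by rw [ENNReal.coe_mul]

end Pool.Agent.VRC
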