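import Pool.Agent.VRC.Targets4

set_option autoImplicit false

namespace Pool.Agent.VRC

open MeasureTheory Set Filter Topology
open scoped ENNReal NNReal

namespace VCM_

/-- extension of a finite sequence by its last value -/
def ext {X : Type} (L : ℕ) (q : Fin (L + 1) → X) (j : ℕ) : X :=
  q ⟨min j L, by omega⟩

lemma ext_mono {X : Type} [Preorder X] (L : ℕ) (q : Fin (L + 1) → X) (hq : Monotone q) :
    Monotone (ext L q) := by
  intro i j hij
  apply hq
  show min i L ≤ min j L
  exact min_le_min_right L hij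

lemma ext_eq {X : Type} (L : ℕ) (N : ℕ → X) (j : ℕ) (hj : j ≤ L) :
    ext L (fun i : Fin (L + 1) => N i) j = N j := by
  show N (min j L) = N j
  rw [min_eq_left hj]

/-- the value on a sequence -/
noncomputable def val (F : ℝ → ℝ → ℂ) (L : ℕ) (N : ℕ → ℝ) : ℝ≥0∞ :=
  (∑ j ∈ Finset.range L, ‖F (N j) (N (j + 1))‖ₑ ^ 4) ^ (1 / 4 : ℝ)

lemma val_congr (F : ℝ → ℝ → ℂ) (L : ℕ) (N M : ℕ → ℝ) (h : ∀ j, j ≤ L → N j = M j) :
    val F L N = val F L M := by
  unfold val
  congr 1
  apply Finset.sum_congr rfl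
  intro j hj
  have hj' := Finset.mem_range.mp hj
  rw [h j hj'.le, h (j + 1) hj']

lemma val_le (F : ℝ → ℝ → ℂ) (L : ℕ) (N : ℕ → ℝ) (hN : Monotone N) : val F L N ≤ V4o F := by
  unfold V4o
  exact le_iSup_of_le L (le_iSup_of_le N (le_iSup_of_le hN le_rfl))

/-- rational approximation -/
noncomputable def app (n : ℕ) (x : ℝ) : ℚ := (⌊((n : ℝ) + 1) * x⌋ : ℚ) / ((n : ℚ) + 1)

lemma app_mono (n : ℕ) : Monotone (app n) := by
  intro x y hxy
  unfold app
  have h0 : (0 : ℚ) < (n : ℚ) + 1 := by positivity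
  apply div_le_div_of_nonneg_right _ h0.le
  have h1 : ⌊((n : ℝ) + 1) * x⌋ ≤ ⌊((n : ℝ) + 1) * y⌋ := by
    apply Int.floor_le_floor
    apply mul_le_mul_of_nonneg_left hxy
    positivity
  exact_mod_cast h1

lemma app_tendsto (x : ℝ) : Tendsto (fun n : ℕ => ((app n x : ℚ) : ℝ)) atTop (𝓝 x) := by
  have h : ∀ n : ℕ, x - 1 / ((n : ℝ) + 1) ≤ ((app n x : ℚ) : ℝ) ∧ ((app n x : ℚ) : ℝ) ≤ x := by
    intro n
    have h0 : (0 : ℝ) < (n : ℝ) + 1 := by positivity
    have e : ((app n x : ℚ) : ℝ) = (⌊((n : ℝ) + 1) * x⌋ : ℝ) / ((n : ℝ) + 1) := by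
      unfold app
      push_cast
      rfl
    rw [e]
    constructor
    · rw [le_div_iff₀ h0]
      have := Int.lt_floor_add_one (((n : ℝ) + 1) * x)
      have e2 : (x - 1 / ((n : ℝ) + 1)) * ((n : ℝ) + 1) = ((n : ℝ) + 1) * x - 1 := by
        field_simp
      rw [e2]
      linarith
    · rw [div_le_iff₀ h0]
      have := Int.floor_le (((n : ℝ) + 1) * x)
      linarith
  have h1 : Tendsto (fun n : ℕ => x - 1 / ((n : ℝ) + 1)) atTop (𝓝 x) := by
    have := tendsto_one_div_add_atTop_nhds_zero_nat (𝕜 := ℝ)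
    simpa using (tendsto_const_nhds (x := x)).sub this
  exact tendsto_of_tendsto_of_tendsto_of_le_of_le h1 tendsto_const_nhds
    (fun n => (h n).1) (fun n => (h n).2)

lemma val_tendsto (F : ℝ → ℝ → ℂ) (hF : Continuous (fun p : ℝ × ℝ => F p.1 p.2)) (L : ℕ)
    (N : ℕ → ℝ) (M : ℕ → ℕ → ℝ) (hM : ∀ j, Tendsto (fun n => M n j) atTop (𝓝 (N j))) :
    Tendsto (fun n => val F L (M n)) atTop (𝓝 (val F L N)) := by
  unfold val
  apply Tendsto.ennrpow_const
  apply tendsto_finsetSum
  intro j _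
  have h1 : Tendsto (fun n => (M n j, M n (j + 1))) atTop (𝓝 (N j, N (j + 1))) :=
    (hM j).prodMk_nhds (hM (j + 1))
  have h2 := (hF.tendsto (N j, N (j + 1))).comp h1
  have h3 : Tendsto (fun n => ‖F (M n j) (M n (j + 1))‖ₑ) atTop (𝓝 ‖F (N j) (N (j + 1))‖ₑ) :=
    (continuous_enorm.tendsto _).comp h2
  exact ((ENNReal.continuous_pow 4).tendsto _).comp h3

lemma V4o_eq (F : ℝ → ℝ → ℂ) (hF : Continuous (fun p : ℝ × ℝ => F p.1 p.2)) :
    V4o F = ⨆ (L : ℕ) (q : Fin (L + 1) → ℚ) (_ : Monotone q),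
      val F L (fun j => ((ext L q j : ℚ) : ℝ)) := by
  apply le_antisymm
  · unfold V4o
    apply iSup_le
    intro L
    apply iSup_le
    intro N
    apply iSup_le
    intro hN
    change val F L N ≤ _
    have hlim : Tendsto (fun n => val F L (fun j => ((app n (N j) : ℚ) : ℝ))) atTop
        (𝓝 (val F L N)) := val_tendsto F hF L N _ (fun j => app_tendsto (N j))
    apply le_of_tendsto' hlim
    intro n
    have hm : Monotone (fun i : Fin (L + 1) => app n (N i)) := by
      intro i j hij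
      exact app_mono n (hN hij)
    refine le_iSup_of_le L (le_iSup_of_le (fun i : Fin (L + 1) => app n (N i))
      (le_iSup_of_le hm ?_))
    apply le_of_eq
    apply val_congr
    intro j hj
    rw [ext_eq L (fun i => app n (N i)) j hj]
  · apply iSup_le
    intro L
    apply iSup_le
    intro q
    apply iSup_le
    intro hq
    apply val_le
    intro i j hij
    have h := ext_mono L q hq hij
    show ((ext L q i : ℚ) : ℝ) ≤ ((ext L q j : ℚ) : ℝ)
    exact_mod_cast h

lemma V4s_eq (z : ℕ → ℂ) :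
    V4s z = ⨆ (L : ℕ) (q : Fin (L + 1) → ℕ) (_ : Monotone q),
      (∑ r ∈ Finset.range L, ‖z (ext L q (r + 1)) - z (ext L q r)‖ₑ ^ 4) ^ (1 / 4 : ℝ) := by
  apply le_antisymm
  · unfold V4s
    apply iSup_le
    intro L
    apply iSup_le
    intro t
    apply iSup_le
    intro ht
    have hm : Monotone (fun i : Fin (L + 1) => t i) := by
      intro i j hij
      exact ht hij
    refine le_iSup_of_le L (le_iSup_of_le (fun i : Fin (L + 1) => t i)
      (le_iSup_of_le hm ?_))
    apply le_of_eq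
    congr 1
    apply Finset.sum_congr rfl
    intro r hr
    have hr' := Finset.mem_range.mp hr
    rw [ext_eq L t r hr'.le, ext_eq L t (r + 1) hr']
  · apply iSup_le
    intro L
    apply iSup_le
    intro q
    apply iSup_le
    intro hq
    unfold V4s
    exact le_iSup_of_le L (le_iSup_of_le (ext L q) (le_iSup_of_le (ext_mono L q hq) le_rfl))

end VCM_

open VCM_

theorem p_VCM : T_VCM := by
  refine ⟨?_, ?_⟩
  · intro α _ F hF hc
    have e : (fun u => V4o (F u)) = fun u => ⨆ (L : ℕ) (q : Fin (L + 1) → ℚ) (_ : Monotone q),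
        val (F u) L (fun j => ((ext L q j : ℚ) : ℝ)) := by
      funext u
      exact V4o_eq (F u) (hc u)
    rw [e]
    refine Measurable.iSup (fun L => Measurable.iSup (fun q => Measurable.iSup (fun _ => ?_)))
    unfold val
    apply Measurable.pow_const
    apply Finset.measurable_fun_sum
    intro j _
    exact (hF _ _).enorm.pow_const 4
  · intro α _ z hz
    have e : (fun u => V4s (z u)) = fun u => ⨆ (L : ℕ) (q : Fin (L + 1) → ℕ) (_ : Monotone q),
        (∑ r ∈ Finset.range L, ‖z u (ext L q (r + 1)) - z u (ext L q r)‖ₑ ^ 4) ^ (1 / 4 : ℝ) := by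
      funext u
      exact V4s_eq (z u)
    rw [e]
    refine Measurable.iSup (fun L => Measurable.iSup (fun q => Measurable.iSup (fun _ => ?_)))
    apply Measurable.pow_const
    apply Finset.measurable_fun_sum
    intro j _
    exact ((hz _).sub (hz _)).enorm.pow_const 4

end Pool.Agent.VRC
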