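import Pool.Agent.VRC.Targets
import Pool.Agent.CAR.P_YN
import Pool.Agent.CAR.P_LV
import Pool.Agent.CAR.P_TH

set_option autoImplicit false

/-!
# VRC: bound and limit of the finite averages at one scale (block VYN)
-/

namespace Pool.Agent.VRC

open MeasureTheory Set ComplexConjugate Filter Topology
open scoped ENNReal NNReal
open Pool.Agent.CAR

/-- **VYN**: bound and limit of the finite averages at the scale `k`. -/
theorem p_VYN : T_VYN := by
  intro A ρ h g hg hi K k hk1 _
  obtain ⟨S, hS0, hS1, hS⟩ := YN_.wt_sum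
  have e : ∀ (n : ℕ) (N x : ℝ), Yk ρ g K n k N x =
      ∫ θ in (0 : ℝ)..1, ∫ v in (0 : ℝ)..1, YN_.T ρ g K N x k n θ v := fun n N x => rfl
  refine ⟨(A ^ 2 * ∫ ξ, ‖g ξ‖) * S, fun n N x => ?_, fun N x => ?_⟩
  · rw [e]
    exact YN_.int_bound (fun θ _ => YN_.int_bound
      (fun v hv => YN_.T_bound h hi K hS0 hS N x k n θ hv))
  · simp only [e]
    exact YN_.scale_lim p_LV p_TH h hg hi K N x k hk1

end Pool.Agent.VRC
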