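import Pool.Agent.VRC.Defs
import Pool.Agent.CAR.STargets

set_option autoImplicit false

/-!
# VRC: the variation norm Carleson theorem on the line: targets

Every target `T_X` is to be proved as `theorem p_X : T_X` (targets named in brackets, and the landed
theorems of `Pool/Agent/CAR`, may be used; other VRC targets are taken as hypotheses of `p_X`) in a
NEW file `Pool/Agent/VRC/P_X.lean`, namespace `Pool.Agent.VRC`, helper lemmas in `X_`. Most targets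
are modifications of a landed target of `CAR` (named in the docstring): take that file
(`Pool/Agent/CAR/P_....lean`) as the template. In all of them the indicator of `x ∈ E, N x ∈ U` is
replaced by `vm L p a U x` and the power `mu` of the mass by `mu ^ (3/4)`.
-/

namespace Pool.Agent.VRC

open MeasureTheory Set ComplexConjugate Filter Topology
open scoped ENNReal NNReal
open Pool.Agent.CAR

/-! ### basic facts -/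

/-- **VBAS** (45 min). (1) If `i < j`: `p i x, p j x ∈ s.up` gives `p j x - p i x < 2^(-k-1)`, but
`p i x ≤ q j x ≤ p j x - (5/4) 2^(-k)`. (2) by (1) at most one term of `vc` is not `0`, and
`x ∈ Act p q s j` gives `p j x ∈ s.up`. The others: definitions (`0 ^ (4/3) = 0`). (7): for fixed `j`
at most one of the disjoint sets `U s` contains `p j x`. -/
def T_VBAS : Prop := ∀ (L : ℕ) (p q : ℕ → ℝ → ℝ) (a : ℕ → ℝ → ℂ) (h : ℝ) (E : Set ℝ),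
  PQ L p q → AB L a h E →
  (∀ (s : Tile) (i j : ℕ) (x : ℝ), i < L → j < L → x ∈ Act p q s i → x ∈ Act p q s j → i = j) ∧
  (∀ (s : Tile) (x : ℝ), ‖vc L p q a s x‖ ^ (4 / 3 : ℝ) ≤ vm L p a s.up x) ∧
  (∀ (U V : Set ℝ) (x : ℝ), U ⊆ V → vm L p a U x ≤ vm L p a V x) ∧
  (∀ (U : Set ℝ) (x : ℝ), 0 ≤ vm L p a U x ∧ vm L p a U x ≤ h ^ (4 / 3 : ℝ) ∧
    (x ∉ E → vm L p a U x = 0)) ∧
  (∀ s : Tile, Measurable (vc L p q a s)) ∧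
  (∀ U : Set ℝ, MeasurableSet U → Measurable (vm L p a U)) ∧
  (∀ (I : Finset Tile) (U : Tile → Set ℝ) (V : Set ℝ) (x : ℝ),
    (∀ s ∈ I, ∀ t ∈ I, s ≠ t → Disjoint (U s) (U t)) → (∀ s ∈ I, U s ⊆ V) →
      ∑ s ∈ I, vm L p a (U s) x ≤ vm L p a V x)

/-- **VTR** (30 min). Activity in trees. (-)-trees: `ξ ∈ s.lo`, `p i x ∈ s.up`, so `ξ < p i x`, and
`q i x ≤ p i x - (5/4) |s.om|` is to the left of `s.om`, so `q i x < ξ`; in the same way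
`q j x < ξ < p j x`; if `i < j` then `p i x ≤ q j x < ξ`. If `s.k < t.k` then `t.om ⊆ s.lo`
(`om_sub_lo`), but `p i x ∈ s.up ∩ t.up`. (+)-trees: `t.up ⊆ r.up` (`up_sub_up` at `ξ`), and
`2^(r.k) ≥ 2^(s.k)`. -/
def T_VTR : Prop := ∀ (L : ℕ) (p q : ℕ → ℝ → ℝ), PQ L p q →
  ∀ (T : Finset Tile) (K Λ : ℤ) (ξ : ℝ),
  (MTree T K Λ ξ → ∀ s ∈ T, ∀ t ∈ T, ∀ i < L, ∀ j < L, ∀ x, x ∈ Act p q s i → x ∈ Act p q t j →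
    i = j ∧ s.k = t.k) ∧
  (PTree T K Λ ξ → ∀ s ∈ T, ∀ t ∈ T, ∀ r ∈ T, s.k ≤ r.k → r.k ≤ t.k → ∀ (j : ℕ) (x : ℝ),
    x ∈ Act p q s j → x ∈ Act p q t j → x ∈ Act p q r j)

/-! ### mass -/

/-- **VDNB** (30 min; from VBAS, `p_WTI`). As `T_DNB` (P_DNB.lean): `vm ≤ 1`, `vm = 0` outside `E`. -/
def T_VDNB : Prop := ∀ (L : ℕ) (p q : ℕ → ℝ → ℝ) (a : ℕ → ℝ → ℂ) (E : Set ℝ),
  PQ L p q → AB L a 1 E → ∀ u : Tile,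
    0 ≤ vdn L p a u ∧ vdn L p a u ≤ 2 ∧ vdn L p a u ≤ (2 : ℝ) ^ (-u.k) * vol E

/-- **VMASS** (75 min; from VBAS, VDNB). Mass lemma: as `T_MASS` (MASS.lean, P_MASS.lean; there also
PIG, GRE, CNT, FINT; GRE and FINT are unchanged). In PIG the measure of
`{x ∈ E, N x ∈ u.om, |u.u x| ≤ 2^j}` becomes `∫ x in {|u.u x| ≤ 2^j}, vm L p a u.om x`; in CNT the
sets of the `v ∈ V` were disjoint: now for every `x` the sets `v.om` of the `v ∈ V` with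
`|v.u x| ≤ 2^j` are disjoint, so `∑_v vm L p a v.om x ≤ vm L p a univ x ≤ 1_E(x)` (VBAS (7), (4)). -/
def T_VMASS : Prop := ∃ C : ℝ, 0 < C ∧ ∀ (L : ℕ) (p q : ℕ → ℝ → ℝ) (a : ℕ → ℝ → ℂ) (E : Set ℝ),
  PQ L p q → AB L a 1 E → ∀ (S : Finset Tile) (mu : ℝ), 0 < mu →
  ∃ (S' U : Finset Tile), S' ⊆ S ∧ VMs L p a S' mu ∧ (∀ s ∈ S, s ∉ S' → ∃ u ∈ U, TLE s u) ∧
    ∑ u ∈ U, (2 : ℝ) ^ u.k ≤ C * vol E / mu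

/-- **VP2** (45 min; from VBAS). As `T_P2` (P_P2.lean): `u` the tile of scale `κ x + 2` with
`s0.I ⊆ u.I`, `ξ ∈ u.om`; all the `s.om` with `κ x + 2 ≤ s.k` lie in `u.om`, `wt 8 (u.u y) ≥ 4^(-8)`
for `y ∈ Jx κ x`, so `∫_J vm ≤ 4^8 ∫ wt 8 (u.u y) vm L p a u.om y ≤ 4^8 2^(u.k) mu`. -/
def T_VP2 : Prop := ∃ C : ℝ, 0 < C ∧ ∀ (L : ℕ) (p q : ℕ → ℝ → ℝ) (a : ℕ → ℝ → ℂ) (E : Set ℝ),
  PQ L p q → AB L a 1 E → ∀ (T : Finset Tile) (K Λ : ℤ) (ξ mu : ℝ) (κ : ℝ → ℤ),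
  Tree T K Λ ξ → Stop T κ → VMs L p a T mu → ∀ x : ℝ,
    ∫⁻ y in Jx κ x, ENNReal.ofReal (vm L p a {f | ∃ s ∈ T, κ x + 2 ≤ s.k ∧ f ∈ s.om} y) ≤
      ENNReal.ofReal (C * mu) * volume (Jx κ x)

/-- **VAVG** (45 min). As `T_AVG` (P_AVG.lean). On one of the (countably many) intervals `J`: for every
`x ∈ J`, by Hölder `∫⁻_J h ≤ H x * ∫⁻_J w^(3/4) ≤ H x * |J|^(1/4) (∫⁻_J w)^(3/4) ≤ Q^(3/4) |J| H x`, and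
if `w` is not `0` on `J` then `J ⊆ W`; integrate over `x ∈ J`, divide by `|J|`, sum over `J`. If `w = 0`
on `J` then `h = 0` on `J`. -/
def T_VAVG : Prop := ∀ κ : ℝ → ℤ, Measurable κ → (∀ x y, y ∈ Jx κ x → κ y = κ x) →
  ∀ (W : Set ℝ) (Q : ℝ≥0∞) (w h H : ℝ → ℝ≥0∞), MeasurableSet W → Q ≠ ⊤ → Measurable w →
  Measurable h → Measurable H → (∀ x, ∫⁻ y in Jx κ x, w y ≤ Q * volume (Jx κ x)) →
  (∀ x y, y ∈ Jx κ x → h y ≤ w y ^ (3 / 4 : ℝ) * H x) →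
  (∀ x y, y ∈ Jx κ x → w y ≠ 0 → x ∈ W) →
    ∫⁻ x, h x ≤ Q ^ (3 / 4 : ℝ) * ∫⁻ x in W, H x

/-! ### trees: small tiles, (-)-trees -/

/-- **VSMA** (60 min; from VBAS, `p_WTI`, `p_FXB`). As `T_SMA` (P_SMA.lean). Let `R = {s.k ≤ κ x + 1}`,
`k = s.k`, `Y = 2^(-k) ∫_R wt 10 (s.u x)`. (1) of SMA: `wt 10 (s.u x) ≤ 2 (3/2)^10 Y` for `x ∈ R`. (2)
`√(2^k) ‖fx φ s x‖ ≤ A wt 20 (s.u x) = A wt 6 * wt 14`; Hölder with `4/3`, `4`: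
`∫_R ‖vc‖ wt 6 wt 14 ≤ (∫ ‖vc‖^(4/3) wt 8)^(3/4) (∫_R wt 56)^(1/4)`; the first factor is at most
`(2^k mu)^(3/4)` (VBAS (2), (3): `‖vc‖^(4/3) ≤ vm s.up ≤ vm s.om`; `TLE s s`), and
`wt 56 = (wt 10)^3 wt 26 ≤ (C Y)^3 wt 10` on `R`, so `∫_R wt 56 ≤ (C Y)^3 2^k Y`. The product is
`C' 2^k mu^(3/4) Y`. -/
def T_VSMA : Prop := ∀ A : ℝ, ∃ C : ℝ, 0 < C ∧ ∀ φ Φ : ℝ → ℂ, WPk A φ Φ →
  ∀ (L : ℕ) (p q : ℕ → ℝ → ℝ) (a : ℕ → ℝ → ℂ) (E : Set ℝ), PQ L p q → AB L a 1 E →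
  ∀ (T : Finset Tile) (κ : ℝ → ℤ) (mu : ℝ), Stop T κ → VMs L p a T mu → 0 ≤ mu → ∀ s ∈ T,
    Real.sqrt ((2 : ℝ) ^ s.k) * ∫ x in {x | s.k ≤ κ x + 1}, ‖vc L p q a s x‖ * ‖fx φ s x‖ ≤
      C * mu ^ (3 / 4 : ℝ) * ∫ x in {x | s.k ≤ κ x + 1}, wt 10 (s.u x)

open Classical in
/-- **VSPL** (45 min; from VBAS, `p_FXB`). As `T_SPL` (P_SPL.lean). -/
def T_VSPL : Prop := ∀ (A : ℝ) (φ Φ : ℝ → ℂ), WPk A φ Φ →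
  ∀ (L : ℕ) (p q : ℕ → ℝ → ℝ) (a : ℕ → ℝ → ℂ) (E : Set ℝ), PQ L p q → AB L a 1 E →
  ∀ (c : Tile → ℝ) (T : Finset Tile) (κ : ℝ → ℤ), (∀ s ∈ T, 0 ≤ c s) → Measurable κ →
  ∃ ε : Tile → ℂ, (∀ s, ‖ε s‖ = 1) ∧
    ENNReal.ofReal (∑ s ∈ T, c s * ‖vav φ L p q a s‖) ≤
      ENNReal.ofReal (∑ s ∈ T, c s *
        ∫ x in {x | s.k ≤ κ x + 1}, ‖vc L p q a s x‖ * ‖fx φ s x‖) +
      ∫⁻ x, ‖∑ s ∈ T, if κ x + 2 ≤ s.k then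
        ε s * ((c s : ℝ) : ℂ) * fx φ s x * vc L p q a s x else 0‖ₑ

/-- **VMIN** (75 min; from VBAS, VTR, VP2, VAVG, VSMA, VSPL, `p_STOP`, `p_NEAR`, `p_SMB`, `p_ONE`).
(-)-trees. As `T_MIN` (P_MIN.lean). Small part: `c s ≤ eps √(2^(s.k))`, VSMA, SMB. Large part: by VTR at
every `x` only tiles of one scale and one index `j` contribute, so the sum is at most
`‖a j x‖ * C eps ≤ w(x)^(3/4) C eps` (ONE), `w(x) = vm L p a {f | ∃ s ∈ T, κ x + 2 ≤ s.k ∧ f ∈ s.om} x`.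
VAVG with `H = C eps`, `Q = C mu` (VP2; `κ y = κ x` on `Jx κ x`), `W` = the interval of NEAR. -/
def T_VMIN : Prop := ∀ A : ℝ, ∃ C : ℝ, 0 < C ∧ ∀ φ Φ : ℝ → ℂ, WPk A φ Φ →
  ∀ (L : ℕ) (p q : ℕ → ℝ → ℝ) (a : ℕ → ℝ → ℂ) (E : Set ℝ), PQ L p q → AB L a 1 E →
  ∀ (c : Tile → ℝ) (T : Finset Tile) (K Λ : ℤ) (ξ eps mu : ℝ), MTree T K Λ ξ → 0 ≤ eps →
  0 ≤ mu → (∀ s ∈ T, 0 ≤ c s ∧ c s ≤ eps * Real.sqrt ((2 : ℝ) ^ s.k)) → VMs L p a T mu →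
    ∑ s ∈ T, c s * ‖vav φ L p q a s‖ ≤ C * eps * mu ^ (3 / 4 : ℝ) * (2 : ℝ) ^ K

/-! ### the 4-variation of the dyadic averages and of the partial sums of a (+)-tree -/

/-- the number of jumps of size `≥ lam` -/
noncomputable def NJ (z : ℤ → ℂ) (m M : ℤ) (lam : ℝ≥0∞) : ℝ≥0∞ :=
  ⨆ (P : Finset (ℤ × ℤ)) (_ : (∀ c ∈ P, m ≤ c.1 ∧ c.1 ≤ c.2 ∧ c.2 ≤ M ∧
      lam ≤ ‖z c.2 - z c.1‖ₑ) ∧ ∀ c ∈ P, ∀ d ∈ P, c ≠ d → c.2 ≤ d.1 ∨ d.2 ≤ c.1),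
    (P.card : ℝ≥0∞)

/-- **VJ1** (75 min). Jump inequality for dyadic averages. For a reference value `c : ℂ` and a dyadic
interval `I` of scale `k` let `G(k, I, c, x)`, `x ∈ I`, be the greedy count, by recursion on `k - m`: if
`|A_I - c| ≥ lam/2` (`A_I` the average of `H` over `I`) it is `1 + G(k-1, I', A_I, x)`, otherwise
`G(k-1, I', c, x)`, `I'` the half of `I` containing `x` (for `k = m` the second summand is `0`). Claim: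
`(lam²/4) ∫_I G ≤ ∫_I |H - c|²`, by induction on `k - m`: `∫_I |H-c|² = ∫_I |H-A_I|² + |I| |A_I-c|²`, and
the halves. For `x` take the interval `I` of scale `M` and `c = A_I`: `∫_I |H - A_I|² ≤ ∫_I |H|²`. If
`P` is as in `NJ`, every `c ∈ P` has a greedy jump at a scale in `[c.1, c.2)`: after the scale `c.2` the
reference value `r` satisfies `|A_(c.2) - r| < lam/2`, and without a jump also `|A_(c.1) - r| < lam/2`. So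
`NJ ≤ G`. -/
def T_VJ1 : Prop := ∀ (H : ℝ → ℂ) (m M : ℤ) (lam : ℝ≥0∞), Measurable H → Integrable H →
  0 < lam → lam ≠ ⊤ → lam ^ 2 * ∫⁻ x, NJ (fun k => da H k x) m M lam ≤ 4 * ∫⁻ x, ‖H x‖ₑ ^ 2

/-- **VJM** (60 min; from VJ1). Let `h = ‖H‖₂`, `0 < h`, `0 < |W|`, `e0 = h / |W|^(1/2)`. Sorting the
jumps by size, `V4 z ≤ ∑_{i : ℤ} 2^(i+1) e0 (NJ z (2^i e0))^(1/4)`. For `i < 0`:
`∫_W NJ^(1/4) ≤ |W|^(3/4) (∫ NJ)^(1/4) ≤ |W|^(3/4) (4 h² / (4^i e0²))^(1/4)`; for `i ≥ 0`: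
`NJ^(1/4) ≤ NJ`, `∫ NJ ≤ 4 h² / (4^i e0²)`. Sum: `C (e0^(1/2) |W|^(3/4) h^(1/2) + h²/e0) = 2 C |W|^(1/2) h`.
(Measurability: countable suprema.) -/
def T_VJM : Prop := ∃ C : ℝ≥0, ∀ (H : ℝ → ℂ) (m M : ℤ) (W : Set ℝ), Measurable H →
  Integrable H → MeasurableSet W → volume W ≠ ⊤ →
    ∫⁻ x in W, V4 (fun k => da H k x) m M ≤
      C * volume W ^ (1 / 2 : ℝ) * (∫⁻ x, ‖H x‖ₑ ^ 2) ^ (1 / 2 : ℝ)

/-- **VJP** (60 min; from `p_OSC`, `p_CHI2`, `p_FXB`, `p_FXR`, `p_WTI`). Pointwise bounds,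
`ψ(y) = fx φ s y e1(-(y ξ))`, `ξ ∈ s.up`. (1) `b ≤ s.k`: `x` and `y` in the same dyadic interval of scale
`b` have `|x - y| ≤ 2^b ≤ 2^(s.k)`; T_OSC. (2) `s.k < b`: `∫ ψ = fr Φ s ξ = 0` (FXR; FXB: `fr Φ s ξ ≠ 0`
only for `ξ ∈ s.lo`). Let `I = [α, α + 2^b)` be the dyadic interval containing `x`, `k = s.k`, and `2^k l`
the left end point of `s.I`. If `α ≤ 2^k l < α + 2^b` then `|∫_I ψ| = |∫_{Iᶜ} ψ|`; in all cases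
`|∫_I ψ|` is at most the sum of the integrals of `|ψ|` over the half lines `y < α`, `y ≥ α + 2^b` which
do not contain `2^k l`, or over the half line beyond the end point of `I` which separates; each of them
is at most `A hs s 2^k * 2 * wt 18 (2^(-k) α' - l)`, `α'` the end point (`wt 20 ≤ wt 18 * wt 2`). -/
def T_VJP : Prop := ∀ A : ℝ, ∃ C : ℝ, 0 < C ∧ ∀ φ Φ : ℝ → ℂ, WPk A φ Φ →
  ∀ (s : Tile) (ξ : ℝ), ξ ∈ s.up → ∀ (b : ℤ) (x : ℝ),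
  (b ≤ s.k → ‖fx φ s x * e1 (-(x * ξ)) - da (fun y => fx φ s y * e1 (-(y * ξ))) b x‖ ≤
    C * hs s * (2 : ℝ) ^ (b - s.k) * wt 10 (s.u x)) ∧
  (s.k < b → ‖da (fun y => fx φ s y * e1 (-(y * ξ))) b x‖ ≤ C * hs s * (2 : ℝ) ^ (s.k - b) *
    (wt 10 (s.u ((2 : ℝ) ^ b * ⌊(2 : ℝ) ^ (-b) * x⌋)) +
      wt 10 (s.u ((2 : ℝ) ^ b * (⌊(2 : ℝ) ^ (-b) * x⌋ + 1)))))

/-- **VJD** (75 min; from VJP, `p_WTS`, `p_WTI`). The partial sums are close to the dyadic averages.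
`ps b x - da (ps m) b x = ∑_{s.k ≥ b} w s (ψ_s(x) - da ψ_s b x) - ∑_{s.k < b} w s da ψ_s b x`. The `s ∈ T`
of one scale have different `s.l` (`m_eq` at `ξ`). First part: at most `C ∑_{i ≥ b} 2^(b-i) G_i(x)`,
`G_i(x) = ∑_{s.k = i} |w s| hs s wt 10 (s.u x)`, `∫ G_i² ≤ C W_i²`, `W_i² = ∑_{s.k = i} |w s|²`
(Cauchy-Schwarz, WTS, WTI). Second part: `C ∑_{i < b} 2^(i-b) Y_{i,b}(x)`, where
`Y_{i,b} = ∑_{s.k=i} |w s| hs s (wt 10 (..) + wt 10 (..))` is constant on the dyadic intervals of scale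
`b`, `∫ Y_{i,b}² ≤ C 2^b ∑_{s.k=i} |w s|² 2^(-i) ∑_{n : ℤ} wt 10 (2^(b-i) n - s.l) ≤ C 2^(b-i) W_i²`
(Cauchy-Schwarz in `s`, WTS). So the `L²` norm is at most
`C ∑_{i ≥ b} 2^(b-i) W_i + C ∑_{i < b} 2^((i-b)/2) W_i`, and the sum over `b` of the squares is at most
`C ∑_i W_i²` (Young, or Cauchy-Schwarz with the geometric weights). -/
def T_VJD : Prop := ∀ A : ℝ, ∃ C : ℝ≥0, ∀ φ Φ : ℝ → ℂ, WPk A φ Φ →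
  ∀ (T : Finset Tile) (K Λ : ℤ) (ξ : ℝ), PTree T K Λ ξ → ∀ (w : Tile → ℂ) (m M : ℤ),
  (∀ s ∈ T, m ≤ s.k) →
    ∑ b ∈ Finset.Icc m M,
      ∫⁻ x, ‖ps φ T w ξ b x - da (fun y => ps φ T w ξ m y) b x‖ₑ ^ 2 ≤
      C * ∑ s ∈ T, ‖w s‖ₑ ^ 2

/-- **VV4** (45 min; from VJM, VJD, `p_SQ`, `p_FXB`). With `D_b = ps b - da (ps m) b`:
`V4 (ps) ≤ V4 (da (ps m)) + 2 (∑_b |D_b|^4)^(1/4)` (triangle inequality in `ℓ⁴`; an integer is an end point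
of at most two non-degenerate intervals of `P`), `(∑_b |D_b|^4)^(1/4) ≤ (∑_b |D_b|²)^(1/2)`, and
`∫_W (..)^(1/2) ≤ |W|^(1/2) (∫ ..)^(1/2)`. `∫ |ps m|² ≤ C ∑ |w s|²` (SQ, `|e1| = 1`). -/
def T_VV4 : Prop := ∀ A : ℝ, ∃ C : ℝ≥0, ∀ φ Φ : ℝ → ℂ, WPk A φ Φ →
  ∀ (T : Finset Tile) (K Λ : ℤ) (ξ : ℝ), PTree T K Λ ξ →
  ∀ (w : Tile → ℂ) (m M : ℤ) (W : Set ℝ), (∀ s ∈ T, m ≤ s.k) → MeasurableSet W →
  volume W ≠ ⊤ →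
    ∫⁻ x in W, V4 (fun b => ps φ T w ξ b x) m M ≤
      C * volume W ^ (1 / 2 : ℝ) * (∑ s ∈ T, ‖w s‖ₑ ^ 2) ^ (1 / 2 : ℝ)

/-- **VPLU** (90 min; from VBAS, VTR, VP2, VAVG, VSMA, VSPL, VV4, `p_STOP`, `p_NEAR`, `p_SMB`, `p_ONE`,
`p_TH1` or `p_OSC`). (+)-trees. As `T_PLU` (P_PLU.lean). `T` not empty, `κ` from STOP, `ε` from VSPL,
`w s = ε s * c s`; `c s ≤ eps √(2^(s.k))` (En for `{s}`). Small part as in VMIN. Large part: let `m` be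
smaller than all scales of `T`, `M` larger. For `y` and `j < L` the set of the scales `≥ κ y + 2` of tiles
`s ∈ T` with `y ∈ Act p q s j` is (VTR) the set of all scales of tiles of `T` in an interval
`[α_j, β_j]`; for different `j` these sets are disjoint (VBAS (1); tiles of `T` of the same scale have the
same `up`), so the intervals `[α_j, β_j + 1]` are non-overlapping, and the sum is
`e1(y ξ) ∑_j a j y (ps α_j y - ps (β_j+1) y)`, at most `w(y)^(3/4) V4 (ps · y) (κ y + 2) M` (Hölder with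
`4/3`, `4`; `w(y)` as in VMIN, as `p j y ∈ s.up ⊆ s.om`). For `y ∈ Jx κ x`, `b ≥ κ x + 2`:
`|ps b y - ps b x| ≤ ∑_{i ≥ b} ∑_{s.k=i} |w s| C hs s 2^(κ x - i) wt 10 (s.u x) ≤ C' eps 2^(κ x - b)` (OSC,
WTS), so `V4 (ps · y) ≤ V4 (ps · x) m M + C eps =: H x`. VAVG, `Q = C mu` (VP2), `W` = the interval of NEAR,
VV4 and En for `T` (`∑ |w s|² ≤ eps² 2^K`): `(C mu)^(3/4) (C |W|^(1/2) eps 2^(K/2) + C eps |W|)`. -/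
def T_VPLU : Prop := ∀ A : ℝ, ∃ C : ℝ, 0 < C ∧ ∀ φ Φ : ℝ → ℂ, WPk A φ Φ →
  ∀ (L : ℕ) (p q : ℕ → ℝ → ℝ) (a : ℕ → ℝ → ℂ) (E : Set ℝ), PQ L p q → AB L a 1 E →
  ∀ (c : Tile → ℝ) (T : Finset Tile) (K Λ : ℤ) (ξ eps mu : ℝ), (∀ s, 0 ≤ c s) →
  PTree T K Λ ξ → 0 ≤ eps → 0 ≤ mu → En c T eps → VMs L p a T mu →
    ∑ s ∈ T, c s * ‖vav φ L p q a s‖ ≤ C * eps * mu ^ (3 / 4 : ℝ) * (2 : ℝ) ^ K

/-- **VTREE** (20 min; from VMIN, VPLU). As `T_TREE` (P_TREE.lean). -/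
def T_VTREE : Prop := ∀ A : ℝ, ∃ C : ℝ, 0 < C ∧ ∀ φ Φ : ℝ → ℂ, WPk A φ Φ →
  ∀ (L : ℕ) (p q : ℕ → ℝ → ℝ) (a : ℕ → ℝ → ℂ) (E : Set ℝ), PQ L p q → AB L a 1 E →
  ∀ (c : Tile → ℝ) (T : Finset Tile) (K Λ : ℤ) (ξ eps mu : ℝ), (∀ s, 0 ≤ c s) →
  Tree T K Λ ξ → 0 ≤ eps → 0 ≤ mu → En c T eps → VMs L p a T mu →
    ∑ s ∈ T, c s * ‖vav φ L p q a s‖ ≤ C * eps * mu ^ (3 / 4 : ℝ) * (2 : ℝ) ^ K

/-! ### summation -/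

/-- **VSTP** (45 min; from VDNB, VMASS, VTREE, `p_ENER`). As `T_STP2` (P_STP2.lean). ENER is applied with
the data `b = 0`, `N = 0`, `E = ∅` (`Dat g 0 0 ∅` from `GG2 g`). -/
def T_VSTP : Prop := ∀ A : ℝ, ∃ C : ℝ, 0 < C ∧ ∀ φ Φ g : ℝ → ℂ, WPk A φ Φ → GG2 g →
  ∀ (L : ℕ) (p q : ℕ → ℝ → ℝ) (a : ℕ → ℝ → ℂ) (E : Set ℝ), PQ L p q → AB L a 1 E →
  ∀ (S : Finset Tile) (eps mu e0 : ℝ), 0 < eps → 0 < mu → 0 ≤ e0 →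
  En (cc Φ g) S e0 → En (cc Φ g) S eps → VMs L p a S mu →
  ∃ S' ⊆ S, En (cc Φ g) S' (eps / 2) ∧ VMs L p a S' (mu / 4) ∧
    ∑ s ∈ S \ S', cc Φ g s * ‖vav φ L p q a s‖ ≤
      C * min eps e0 * (min mu 2) ^ (3 / 4 : ℝ) * (n2 g ^ 2 / eps ^ 2 + vol E / mu)

/-- **VSUM** (60 min; from VDNB, VSTP). As `T_SUM2` (P_SUM2.lean): `V = vol E > 0` (otherwise all `vav`
vanish), `eps_n = 2^n r`, `mu_n = 4^n`. VSTP from `n` to `n - 1` costs at most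
`C min (2^n r) e0 * (min (4^n) 2)^(3/4) * 2 V / 4^n`. Sum over `n ≥ 1`: `≤ C V e0`. For `n = -m ≤ 0` the term
is at most `2 C V min (2^(-m) r) e0 * 2^(m/2)`; the sum over `m ≥ 0` of `min (2^(-m) r) e0 * 2^(m/2)` is at
most `C √(r e0)` (`min x y ≤ x`, `≤ y`; geometric series on both sides of `2^m = r/e0`). The start and the
rest (limit `0`) as in SUM2. -/
def T_VSUM : Prop := ∀ A : ℝ, ∃ C : ℝ, 0 < C ∧ ∀ φ Φ g : ℝ → ℂ, WPk A φ Φ → GG2 g →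
  ∀ (L : ℕ) (p q : ℕ → ℝ → ℝ) (a : ℕ → ℝ → ℂ) (E : Set ℝ), PQ L p q → AB L a 1 E →
  ∀ (S : Finset Tile) (r e0 : ℝ), 0 < r → 0 < e0 → n2 g ≤ r * Real.sqrt (vol E) →
  En (cc Φ g) S e0 →
    ∑ s ∈ S, cc Φ g s * ‖vav φ L p q a s‖ ≤ C * vol E * (e0 + Real.sqrt (r * e0))

/-! ### the exceptional set -/

/-- **VTA1** (75 min; from VBAS, `p_FXB`). One interval. (1) Bessel: `Σ_s ‖cf φ f s‖² ≤ C ∫_F wt 10 (u x)`,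
`u x = 2^(-k) x - l` (the `s ∈ S` have different `m`): with `h(x) = f(x) conj(φ(u x))`,
`‖cf φ f s‖² = 2^(-k) |∫ h(x) e1(-2^(-k) m x) dx|²`, and Bessel's inequality for the Fourier coefficients
of the periodisation `∑_i h(x + 2^k i)` gives `Σ_m ≤ ∫_0^(2^k) |∑_i h(x + 2^k i)|² dx`, at most
`C ∫ |h|² (1+|u|)² ≤ C A² ∫_F wt 10` (Cauchy-Schwarz in `i`). (2) `‖cf φ f s‖ ≤ A 2^(-k/2) ∫_F wt 20`, so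
`(Σ ‖cf‖^4)^(1/4) ≤ C 2^(-k/4) (∫_F wt 10)^(3/4)`. (3) Minkowski:
`(Σ ‖vav‖^(4/3))^(3/4) ≤ ∫ (Σ ‖vc s x‖^(4/3))^(3/4) A 2^(-k/2) wt 20 (u x) ≤ A 2^(-k/2) ∫_E wt 20`
(VBAS (2), (7), (4): the `s.up` are disjoint). Hölder with `4`, `4/3`. -/
def T_VTA1 : Prop := ∀ A : ℝ, ∃ C : ℝ, 0 < C ∧ ∀ φ Φ : ℝ → ℂ, WPk A φ Φ →
  ∀ (f : ℝ → ℂ) (F : Set ℝ) (L : ℕ) (p q : ℕ → ℝ → ℝ) (a : ℕ → ℝ → ℂ) (E : Set ℝ), BF 1 F f →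
  PQ L p q → AB L a 1 E → ∀ (k l : ℤ) (S : Finset Tile), (∀ s ∈ S, s.k = k ∧ s.l = l) →
    ∑ s ∈ S, ‖cf φ f s‖ * ‖vav φ L p q a s‖ ≤ C * (2 : ℝ) ^ k *
      ((2 : ℝ) ^ (-k) * ∫ x in F, wt 10 ((2 : ℝ) ^ (-k) * x - l)) ^ (3 / 4 : ℝ) *
        ((2 : ℝ) ^ (-k) * ∫ x in E, wt 20 ((2 : ℝ) ^ (-k) * x - l))

/-- **VTA2** (45 min; from `p_DNW`, `p_WTI`). As `T_TA2` (P_TA2.lean):
`2^(-k) ∫_E wt 20 ≤ 2 wt 18 D`, `∫_F wt 4 (u x) ≤ (3 + D)^4 8 lam 2^k`, so the product is at most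
`(8 lam)^(3/4) (3 + D)^3 2 wt 18 D ≤ C lam^(3/4) wt 10 D`. -/
def T_VTA2 : Prop := ∃ C : ℝ, 0 < C ∧ ∀ (lam : ℝ) (F E : Set ℝ) (k l : ℤ), MeasurableSet F →
  volume F ≠ ⊤ → MeasurableSet E → 0 < lam → (∃ x, x ∉ GG lam F) → (∀ x ∈ E, x ∉ GG lam F) →
  ∃ D : ℝ, 0 ≤ D ∧ (∃ x, x ∉ GG lam F ∧ |(2 : ℝ) ^ (-k) * x - l| ≤ D + 1) ∧
    ((2 : ℝ) ^ (-k) * ∫ x in F, wt 10 ((2 : ℝ) ^ (-k) * x - l)) ^ (3 / 4 : ℝ) *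
      ((2 : ℝ) ^ (-k) * ∫ x in E, wt 20 ((2 : ℝ) ^ (-k) * x - l)) ≤
        C * lam ^ (3 / 4 : ℝ) * wt 10 D

/-- **VTAI** (60 min; from `p_EXC`, VTA1, VTA2, `p_TA3`). As `T_TAI` (P_TAI.lean): the sum is at most
`C lam^(3/4) ∑_p 2^(p.1) wt 10 (D p) ≤ C lam^(3/4) vol (GG lam F) ≤ C lam^(-1/4) vol F`. -/
def T_VTAI : Prop := ∀ A : ℝ, ∃ C : ℝ, 0 < C ∧ ∀ φ Φ : ℝ → ℂ, WPk A φ Φ →
  ∀ (f : ℝ → ℂ) (F : Set ℝ) (L : ℕ) (p q : ℕ → ℝ → ℝ) (a : ℕ → ℝ → ℂ) (E : Set ℝ) (lam : ℝ),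
  BF 1 F f → PQ L p q → AB L a 1 E → 0 < lam → (∀ x ∈ E, x ∉ GG lam F) → ∀ S : Finset Tile,
  (∀ s ∈ S, ∃ k l : ℤ, s.I ⊆ dy k l ∧ heavy lam F k l) →
    ∑ s ∈ S, ‖cf φ f s‖ * ‖vav φ L p q a s‖ ≤ C * vol F * lam ^ (-(1 / 4) : ℝ)

/-- **VRA** (45 min; from `p_TRF`, `p_ENB`, VSUM). As `T_RA` (P_RA.lean): `r = √(vol F / vol E) ≥ 1`,
`e0 = √C1 + 1`; `vol E * (e0 + √(r e0)) ≤ C vol E √r = C √(vol E * √(vol E * vol F))`. -/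
def T_VRA : Prop := ∀ A : ℝ, ∃ C : ℝ, 0 < C ∧ ∀ φ Φ : ℝ → ℂ, WPk A φ Φ →
  ∀ (f : ℝ → ℂ) (F : Set ℝ) (L : ℕ) (p q : ℕ → ℝ → ℝ) (a : ℕ → ℝ → ℂ) (E : Set ℝ), BF 1 F f →
  PQ L p q → AB L a 1 E → vol E ≤ vol F → ∀ S : Finset Tile,
    ∑ s ∈ S, ‖cf φ f s‖ * ‖vav φ L p q a s‖ ≤
      C * Real.sqrt (vol E * Real.sqrt (vol E * vol F))

/-- **VRB** (75 min; from `p_TRF`, `p_ENF`, VSUM, `p_EXC`, VTAI, VRA). As `T_RB` (P_RB.lean), with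
`X = √(vol F * √(vol E * vol F)) = (vol F)^(3/4) (vol E)^(1/4)`, `lam = 16 C1 vol F / vol E`. `S1`: VSUM with
`e0 = √C2 lam`, `r = √(vol F / vol E)`: `vol E * e0 = C vol F ≤ C X`,
`vol E * √(r e0) = C vol E (vol F / vol E)^(3/4) = C X`. `S2`, part `E \ GG`: VTAI,
`C vol F lam^(-1/4) ≤ C' vol F (vol E / vol F)^(1/4) = C' X`; part `E ∩ GG` (the weights `a j 1_(E ∩ GG)`):
VRA or the induction hypothesis, as in RB. -/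
def T_VRB : Prop := ∀ A : ℝ, ∃ C : ℝ, 0 < C ∧ ∀ φ Φ : ℝ → ℂ, WPk A φ Φ →
  ∀ (f : ℝ → ℂ) (F : Set ℝ) (L : ℕ) (p q : ℕ → ℝ → ℝ) (a : ℕ → ℝ → ℂ) (E : Set ℝ), BF 1 F f →
  PQ L p q → AB L a 1 E → vol F ≤ vol E → ∀ S : Finset Tile,
    ∑ s ∈ S, ‖cf φ f s‖ * ‖vav φ L p q a s‖ ≤
      C * Real.sqrt (vol F * Real.sqrt (vol E * vol F))

/-- **VINT** (60 min; from `p_FXB`, VRA, VRB, `p_MAR`). As `T_INT` (P_INT.lean), with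
`E_l = {x | 2^l < amp L a x ≤ 2^(l+1)}` and the weights `a j 1_(E_l)`
(`AB L (a j 1_(E_l) / 2^(l+1)) 1 E_l`; `amp` is homogeneous). -/
def T_VINT : Prop := ∀ A : ℝ, ∃ C : ℝ, 0 < C ∧ ∀ φ Φ : ℝ → ℂ, WPk A φ Φ →
  ∀ (f : ℝ → ℂ) (F : Set ℝ) (h h' : ℝ) (L : ℕ) (p q : ℕ → ℝ → ℝ) (a : ℕ → ℝ → ℂ) (E : Set ℝ),
  BF h F f → PQ L p q → AB L a h' E → ∀ S : Finset Tile,
    ∑ s ∈ S, ‖cf φ f s‖ * ‖vav φ L p q a s‖ ≤ C * n2 f * na L a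

/-- **VMODS** (45 min; from `p_FXB`, `p_FXR`, VINT). As `T_MODS` (P_MODS.lean). -/
def T_VMODS : Prop := ∀ A : ℝ, ∃ C : ℝ, 0 < C ∧ ∀ φ Φ g : ℝ → ℂ, WPk A φ Φ → GG2 g →
  ∀ (L : ℕ) (p q : ℕ → ℝ → ℝ) (a : ℕ → ℝ → ℂ) (h : ℝ) (E : Set ℝ), PQ L p q → AB L a h E →
  ∀ S : Finset Tile,
    ∑ s ∈ S, ‖co Φ g s‖ * ‖vav φ L p q a s‖ ≤ C * n2 g * na L a

/-! ### from the model to the operator -/

/-- the part of `Yn` (ITargets.lean) at the scale `k` -/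
noncomputable def Yk (ρ : ℝ → ℝ) (g : ℝ → ℂ) (K n : ℕ) (k : ℤ) (N x : ℝ) : ℂ :=
  ∫ θ in (0 : ℝ)..1, ∫ v in (0 : ℝ)..1,
    ∑ l ∈ Finset.Icc (-(n : ℤ)) n, ∑ m ∈ Finset.Icc (-(n : ℤ)) n,
      co (pkf ρ v) (fun ξ => g (ξ + 2 ^ K * θ)) ⟨k, l, m⟩ * (e1 (2 ^ K * θ * x) *
        fx (pk ρ v) ⟨k, l, m⟩ x) *
        (Tile.up ⟨k, l, m⟩).indicator (fun _ => (1 : ℂ)) (N - 2 ^ K * θ)

/-- **VYN** (45 min; from `p_LV`, `p_TH`). `T_YN` (P_YN.lean) for one scale `k`: the same proof. -/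
def T_VYN : Prop := ∀ (A : ℝ) (ρ : ℝ → ℝ), Bmp A ρ → ∀ g : ℝ → ℂ, Measurable g → Integrable g →
  ∀ (K : ℕ) (k : ℤ), -(K : ℤ) ≤ k → k ≤ K → ∃ C : ℝ, (∀ (n : ℕ) (N x : ℝ),
    ‖Yk ρ g K n k N x‖ ≤ C) ∧ ∀ N x : ℝ, Tendsto (fun n => Yk ρ g K n k N x) atTop
      (𝓝 (∫ ξ, g ξ * (Bt ρ ((2 : ℝ) ^ k) (N - ξ) : ℂ) * e1 (x * ξ)))

/-- **VAVB** (75 min; from VMODS, VYN). As `T_AVBS` (P_AVBS.lean): the model estimate for the data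
`g(· + 2^K θ)`, `a j x * e1 (2^K θ x)`, `p j - 2^K θ`, `q j - 2^K θ` and the tiles `|k| ≤ K`, `|l|, |m| ≤ n`;
integrate over `θ, v ∈ [0,1]`. The condition `5/4 ≤ 2^k (p j x - q j x)` does not depend on `θ`, `l`, `m`, so
the integral is `∫ x, ∑ j, a j x * ∑ k, 1[..] Yk ρ g K n k (p j x) x`; `n → ∞`. -/
def T_VAVB : Prop := ∀ (A : ℝ) (ρ : ℝ → ℝ), Bmp A ρ → ∃ C : ℝ, 0 < C ∧
  ∀ (g : ℝ → ℂ) (L : ℕ) (p q : ℕ → ℝ → ℝ) (a : ℕ → ℝ → ℂ) (h : ℝ) (E : Set ℝ), GG2 g →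
  PQ L p q → AB L a h E → ∀ K : ℕ,
    ‖∫ x, ∑ j ∈ Finset.range L, a j x * ∑ k ∈ Finset.Icc (-(K : ℤ)) K,
      {y | 5 / 4 ≤ (2 : ℝ) ^ k * (p j y - q j y)}.indicator
        (fun y => ∫ ξ, g ξ * (Bt ρ ((2 : ℝ) ^ k) (p j y - ξ) : ℂ) * e1 (y * ξ)) x‖ ≤
      C * n2 g * na L a

/-- **VSCK** (45 min; from VAVB). As `T_SCKS` (P_SCKS.lean), by scaling; `a' j x = a j (λ x)`,
`p' j x = λ p j (λ x)`, `q'` in the same way, `na' = λ^(-1/2) na`. -/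
def T_VSCK : Prop := ∀ (A : ℝ) (ρ : ℝ → ℝ), Bmp A ρ → ∃ C : ℝ, 0 < C ∧
  ∀ (g : ℝ → ℂ) (L : ℕ) (p q : ℕ → ℝ → ℝ) (a : ℕ → ℝ → ℂ) (h : ℝ) (E : Set ℝ), GG2 g →
  PQ L p q → AB L a h E → ∀ (K : ℕ) (r : ℝ), 0 < r →
    ‖∫ x, ∑ j ∈ Finset.range L, a j x * ∑ k ∈ Finset.Icc (-(K : ℤ)) K,
      {y | 5 / 4 ≤ r * (2 : ℝ) ^ k * (p j y - q j y)}.indicator
        (fun y => ∫ ξ, g ξ * (Bt ρ (r * (2 : ℝ) ^ k) (p j y - ξ) : ℂ) * e1 (y * ξ)) x‖ ≤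
      C * n2 g * na L a

/-- the bound for the right model operator -/
def RB1 (ρ : ℝ → ℝ) (C : ℝ) : Prop := ∀ (g : ℝ → ℂ) (L : ℕ) (p q : ℕ → ℝ → ℝ)
  (a : ℕ → ℝ → ℂ) (h : ℝ) (E : Set ℝ), GG2 g → PQ L p q → AB L a h E →
    ‖∫ x, ∑ j ∈ Finset.range L, a j x *
      ∫ ξ, g ξ * (Gm ρ ((p j x - ξ) / (p j x - q j x)) : ℂ) * e1 (x * ξ)‖ ≤ C * n2 g * na L a

/-- the bound for the left model operator -/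
def RB2 (ρ : ℝ → ℝ) (C : ℝ) : Prop := ∀ (g : ℝ → ℂ) (L : ℕ) (p q : ℕ → ℝ → ℝ)
  (a : ℕ → ℝ → ℂ) (h : ℝ) (E : Set ℝ), GG2 g → PQ L p q → AB L a h E →
    ‖∫ x, ∑ j ∈ Finset.range L, a j x *
      ∫ ξ, g ξ * (Gm ρ ((ξ - q j x) / (p j x - q j x)) : ℂ) * e1 (x * ξ)‖ ≤ C * n2 g * na L a

/-- **VLIM** (75 min; from VSCK, `p_BT` as template). As `T_LIMS` (P_LIMS.lean, P_BT.lean). Integrate VSCK
with `r = 2^κ` over `κ ∈ [0,1]`. `Bt ρ t a = Bt ρ 1 (t a)`. For `d = p - q > 0`, `a = p - ξ > 0`: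
`∫_0^1 ∑_{|k| ≤ K} 1[5/4 ≤ 2^(κ+k) d] Bt ρ (2^(κ+k)) a dκ = ∫_{-K}^{K+1} 1[5/4 ≤ 2^τ d] Bt ρ 1 (2^τ a) dτ`,
`w = 2^τ a`, `dτ = dw/(w log 2)`: constant for large `K`, equal to `Gm ρ (a / d)`
(`Bt ρ 1 w ≠ 0` only for `1/8 ≤ w ≤ 7/8`). For `a ≤ 0` everything is `0` (`ρ(u - ta) = 0` for `u ≥ 1/2`). For
`d = 0` both sides are `0` (`x / 0 = 0`, `Gm ρ 0 = 0`). Uniform bound as in BT, dominated convergence. -/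
def T_VLIM : Prop := ∀ (A : ℝ) (ρ : ℝ → ℝ), Bmp A ρ → ∃ C : ℝ, 0 < C ∧ RB1 ρ C

/-- **VREF** (45 min). Reflection. Apply RB1 to `g(-ξ)`, `a' j x = a (L-1-j) (-x)`,
`p' j x = -q (L-1-j) (-x)`, `q' j x = -p (L-1-j) (-x)` (for `j < L`; e.g. `0` for `j ≥ L`), substitute
`x → -x`, `ξ → -ξ`, `Finset.sum_range_reflect`. -/
def T_VREF : Prop := ∀ (ρ : ℝ → ℝ) (C : ℝ), RB1 ρ C → RB2 ρ C

/-- **VGB** (90 min; `p_WPEX` as template). The bump. `ρ ≥ 0` a smooth bump as in P_WPEX.lean with support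
in `[1/8, 1/8 + 1/128]`, `n = ∫ ρ²`, `B(w) = Bt ρ 1 w = ∫_{1/2}^1 ρ(u-w)² du ∈ [0, n]`: `B(w) = n` for
`3/8 ≤ w ≤ 111/128`, `B(w) = 0` for `w ≤ 3/8 - 1/128` and for `w ≥ 7/8`. `c = (log 2)⁻¹ ∫_{w>0} B(w)/w dw`,
which is `Gm ρ z` for small `z > 0`. The identity: both sides vanish for `z ≤ 0` (`Gm ρ t = 0` for `t ≤ 0` and
for `t ≥ 7/10`) and for `z ≥ 1`; on `(0,1)` both are absolutely continuous with the same derivative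
(`d/dz Gm ρ z = -(B(5z/4)/z)/log 2`), or write `Gm` as an integral. `∫_0^1 bp = 0`: substitute
`w → 1 - w`. With `f(w) = B(5w/4)/w`: `∫_0^1 |f(w) - f(1-w)| = 2 ∫_0^1 f - 2 ∫_0^1 min (f(w)) (f(1-w))`;
`∫_0^1 f = c log 2 ≤ n log((7/8)/(3/8-1/128)) ≤ n 0.885`; for `w ∈ [0.31, 0.69]` both are
`≥ n/0.7`, so the last integral is `≥ 0.38 n/0.7 ≥ 0.542 n`; more precisely on `[0.3063, 0.6937]` both
are `≥ n / 0.6937`, `≥ 0.558 n`; so the total is at most `(2 - 1.116/0.885) c log 2 ≤ 0.74 c log 2`. -/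
def T_VGB : Prop := ∃ (A : ℝ) (ρ : ℝ → ℝ) (c : ℝ), Bmp A ρ ∧ 0 < c ∧
  IntegrableOn (bp ρ) (Ioo 0 1) ∧ ∫ w in Ioo (0 : ℝ) 1, |bp ρ w| ≤ 3 / 4 * c ∧
  ∫ w in Ioo (0 : ℝ) 1, bp ρ w = 0 ∧
  ∀ z : ℝ, (Ioo (0 : ℝ) 1).indicator (fun _ => c) z - Gm ρ z - Gm ρ (1 - z) =
    ∫ w in Ioo (0 : ℝ) 1 ∩ Iio z, bp ρ w

/-- **VCAR** (90 min; from VLIM, VREF, VGB, `p_CARLS`). The linearised theorem, by absorption. Fix `L` and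
let `Θ` be the infimum of the constants `C ≥ 0` for which the estimate holds for all `g, p, q, a, h, E`
(this `L`); it is finite, as `|∑ a j (..)| ≤ 2 (sup_N |∫_{ξ<N} g e1|) ∑ |a j x| ≤ 2 L^(1/4) amp (..)` and
`p_CARLS`; the estimate holds with `Θ`. For `p j x > q j x` and `z = (p j x - ξ)/(p j x - q j x)`: `z ∈ (0,1)`
iff `q j x < ξ < p j x`, `1 - z = (ξ - q j x)/(p j x - q j x)`; so by the identity of VGB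
`c ∫_{Ico (q j x) (p j x)} g e1 = ∫ g Gm(z) e1 + ∫ g Gm(1-z) e1 + ∫_{w ∈ (0,1)} bp ρ w ∫_{ξ < p^w} g e1 dw`,
`p^w = p j x - w (p j x - q j x)` (`w < z` iff `ξ < p^w`; Fubini), and as `∫ bp = 0` the last term is
`∫ bp ρ w ∫_{Ico (q j x) (p^w)} g e1 dw`. `PQ L p^w q`. So `c Θ ≤ 2 C1 + (3/4) c Θ`, `Θ ≤ 8 C1 / c`. -/
def T_VCAR : Prop := ∃ C : ℝ, 0 < C ∧ ∀ (g : ℝ → ℂ) (L : ℕ) (p q : ℕ → ℝ → ℝ)
  (a : ℕ → ℝ → ℂ) (h : ℝ) (E : Set ℝ), GG2 g → PQ L p q → AB L a h E →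
    ‖∫ x, ∑ j ∈ Finset.range L, a j x * ∫ ξ in Ico (q j x) (p j x), g ξ * e1 (x * ξ)‖ ≤
      C * n2 g * na L a

/-- **VC4** (75 min; from VCAR). The variation norm Carleson theorem. As `T_CARS` (P_CARS.lean). The
functions `N ↦ ∫_{Iio N} g e1` are continuous, so it is enough to take `N j ∈ {r_0, ..., r_n}` (rational
numbers) and `L ≤ n + 1`; finitely many (monotone) sequences; choose a measurable maximiser `N · x`,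
`Δ_j(x)` the increments, `v(x) = (∑ |Δ_j|^4)^(1/4) ≤ M`. On `E = [-R, R]` let
`a j x = M⁻¹ conj(Δ_j) |Δ_j|² v(x)^(-2)` (`0` if `v(x) = 0`), `p j = N (j+1)`, `q j = N j`:
`∑ a j Δ_j = M⁻¹ v²`, `amp = M⁻¹ v`. So `∫_E v² ≤ C n2 g (∫_E v²)^(1/2)`; `R, n → ∞`. -/
def T_VC4 : Prop := ∃ C : ℝ≥0, ∀ g : ℝ → ℂ, GG2 g →
  ∫⁻ x, VC g x ^ 2 ≤ C * ∫⁻ ξ, ‖g ξ‖ₑ ^ 2

end Pool.Agent.VRC
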