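import Pool.Agent.VRC.Targets
import Pool.Agent.CRF.Targets

set_option autoImplicit false

/-!
# VRC, second part: random signs (chaining) and parabolic cells

`T_RC1`: for every `g ∈ L²(ℝⁿ)` (`g = f^`), every countable family of disjoint cells `Q i`, each of them
contained in a parabolic region `{|ξ| - ξ·w ≤ k}`, and independent random signs `ε i`: the maximal ball
partial sums of `∑ ε i 1_{Q i} g` are bounded in `L²` of every unit ball, without loss. `T_RAC`: a.e.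
convergence. For `|ξ| ~ N` a cell may be a sector of aperture `c N^(-1/2)` of the shell `|ξ| ~ N`.
-/

namespace Pool.Agent.VRC

open MeasureTheory FourierTransform Set Filter Topology
open scoped ENNReal NNReal
open Pool.Agent.MBS (E ex)
open Pool.Agent.CAR (e1)
open Pool.Agent.CRF (jn tl T_FSP T_FRT)

/-- independent random signs -/
structure Sgn {Ω : Type} [MeasurableSpace Ω] (P : Measure Ω) (ε : ℕ → Ω → ℝ) : Prop where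
  prob : IsProbabilityMeasure P
  meas : ∀ i, Measurable (ε i)
  ind : ProbabilityTheory.iIndepFun ε P
  pos : ∀ i, P {ω | ε i ω = 1} = 1 / 2
  neg : ∀ i, P {ω | ε i ω = -1} = 1 / 2

/-- **CHK** (60 min). Khintchine's inequality for the sixth moment. Real `c`, `σ² = ∑ c i² > 0` (`σ = 0`:
trivial); by homogeneity `σ = 1`. `x^6 ≤ 720 cosh x`; `E exp (± ∑ ε i c i) = ∏ cosh (c i) ≤
exp (∑ c i² / 2) = e^(1/2)` (independence: `iIndepFun.integral_...`/`mgf_sum`; `Real.cosh_le_exp_half_sq`).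
So `E |∑|^6 ≤ 1200`. Complex `c`: `|a + b i|^6 ≤ 4 (a^6 + b^6)`. -/
def T_CHK : Prop := ∃ C : ℝ≥0, ∀ (Ω : Type) [MeasurableSpace Ω] (P : Measure Ω)
  (ε : ℕ → Ω → ℝ), Sgn P ε → ∀ (n : ℕ) (c : ℕ → ℂ),
    ∫⁻ ω, ‖∑ i ∈ Finset.range n, (ε i ω : ℂ) * c i‖ₑ ^ 6 ∂P ≤
      C * (∑ i ∈ Finset.range n, ‖c i‖ₑ ^ 2) ^ 3

/-- **CHN** (90 min; from CHK). Chaining. Put `d(j,k)² = ∑_{i<n} |X i j - X i k|²`, `W = (∑ V i²)^(1/2)`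
(we may assume `0 < W < ∞`; if `W = 0` all `X i j = 0`, `j ≤ M`, `i < n`). By Minkowski (`ℓ²` in `r` of sums
over `i`) every monotone `t` with values `≤ M` satisfies `∑_r d(t (r+1), t r)^4 ≤ W^4`. Net `T_k`: `t_0 = 0`,
`t_(r+1)` = the first `j > t_r`, `j ≤ M`, with `d(t_r, j) > 2^(-k) W`. So `|T_k| ≤ 16^k + 1`, `T_0 = {0}`, and
every `j ≤ M` has `π_k j ∈ T_k`, `π_k j ≤ j`, `d(j, π_k j) ≤ 2^(-k) W`. For large `k1` (finitely many values of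
`d`) `d(j, π_(k1) j) = 0`, so `X i j = X i (π_(k1) j)` for all `i < n`. Chain `j_(k1) = π_(k1) j`,
`j_k = π_k j_(k+1)`, `j_0 = 0`: `∑ ε i X i j = ∑_{k<k1} ∑_i ε i (X i j_(k+1) - X i j_k)`, so the supremum is at most
`∑_k max_{t ∈ T_(k+1)} |∑_i ε i (X i t - X i (π_k t))|`; the `L^6(P)` norm of the maximum is at most
`(∑_{t ∈ T_(k+1)} C (2^(-k) W)^6)^(1/6) ≤ C (16^(k+1) + 1)^(1/6) 2^(-k) W ≤ C' 2^(-k/3) W` (CHK). Sum over `k`;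
`‖·‖_{L²(P)} ≤ ‖·‖_{L^6(P)}`. -/
def T_CHN : Prop := ∃ C : ℝ≥0, ∀ (Ω : Type) [MeasurableSpace Ω] (P : Measure Ω)
  (ε : ℕ → Ω → ℝ), Sgn P ε → ∀ (n M : ℕ) (X : ℕ → ℕ → ℂ) (V : ℕ → ℝ≥0∞), (∀ i, X i 0 = 0) →
  (∀ i < n, ∀ (l : ℕ) (t : ℕ → ℕ), Monotone t → (∀ r, t r ≤ M) →
    ∑ r ∈ Finset.range l, ‖X i (t (r + 1)) - X i (t r)‖ₑ ^ 4 ≤ V i ^ 4) →
    ∫⁻ ω, (⨆ (j : ℕ) (_ : j ≤ M), ‖∑ i ∈ Finset.range n, (ε i ω : ℂ) * X i j‖ₑ) ^ 2 ∂P ≤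
      C * ∑ i ∈ Finset.range n, V i ^ 2

/-! ### cells -/

/-- the 4-variation in the radius of the ball integrals of `g` -/
noncomputable def VB {n : ℕ} (g : E n → ℂ) (x : E n) : ℝ≥0∞ :=
  ⨆ (L : ℕ) (N : ℕ → ℝ) (_ : Monotone N),
    (∑ j ∈ Finset.range L, ‖∫ ξ in {ξ : E n | N j < ‖ξ‖ ∧ ‖ξ‖ ≤ N (j + 1)}, g ξ * ex x ξ‖ₑ ^ 4) ^
      (1 / 4 : ℝ)

/-- the same with the linearised phase -/
noncomputable def VOp {m : ℕ} (h : E (m + 1) → ℂ) (x : E (m + 1)) : ℝ≥0∞ :=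
  ⨆ (L : ℕ) (N : ℕ → ℝ) (_ : Monotone N),
    (∑ j ∈ Finset.range L, ‖∫ ξ in {ξ : E (m + 1) | N j < ‖ξ‖ ∧ ‖ξ‖ ≤ N (j + 1)},
      h ξ * (e1 (x 0 * ‖ξ‖) * ex (tl x) (tl ξ))‖ₑ ^ 4) ^ (1 / 4 : ℝ)

/-- **CF0** (75 min; from VC4, FSP (landed `CRF/P_FSP.lean`)). As `T_FL0` (CRF/P_FL0.lean by helper7; its
helpers `Op_eq`, `planch`, `total`, `cv_int`, `cv_lint` can be reused). We may assume `∫ |h|² < ∞`. First let `h`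
vanish for large `‖ξ‖`. With `H(ρ,y)` as in FL0 the integral over the shell is
`∫_{Ioc (N j) (N (j+1))} H(ρ, tl x) e1(ρ x₀) dρ` (`Ioc` and `Ico` agree a.e.), so `VOp h x` is at most
`VC (H(·, tl x)) (x 0)`; VC4 in `x 0` for a.e. fixed `tl x = y` (`H(·,y) ∈ L¹ ∩ L²`: bounded support in `ρ`), Plancherel
in `y`. Here the support condition is `2 ‖tl ξ‖ ≤ ‖ξ‖`, `0 < ξ 0`: `ρ/t ≤ 2/√3`, and for fixed `ρ` the support in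
`z` is bounded. General `h`: `VOp h x = sup_n VOp (h 1_{‖ξ‖ ≤ n}) x` (for a given finite sequence take
`n ≥ N L`). -/
def T_CF0 : Prop := ∀ m : ℕ, ∃ C : ℝ≥0, ∀ h : E (m + 1) → ℂ, Measurable h →
  (∀ ξ, h ξ ≠ 0 → 0 < ξ 0 ∧ 2 * ‖tl ξ‖ ≤ ‖ξ‖) →
    ∫⁻ x, VOp h x ^ 2 ≤ C * ∫⁻ ξ, ‖h ξ‖ₑ ^ 2

/-- **CF1** (75 min; from FSP, CF0). As `T_FL1` (CRF/P_FL1.lean). `x0 = 0` after multiplying `g` by `ex x0 ξ`. The part
`‖ξ‖ ≤ 8 k + 1` of `g` contributes at most `∫_{‖ξ‖ ≤ 8k+1} |g| ≤ C ‖g‖₂` pointwise (`ℓ⁴ ≤ ℓ¹`). For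
`‖ξ‖ > 8 k + 1`: `‖tl ξ‖² = (‖ξ‖ - ξ 0)(‖ξ‖ + ξ 0) ≤ 2 k ‖ξ‖ ≤ ‖ξ‖²/4`, `ξ 0 ≥ ‖ξ‖ - k > 0`. With `η = ‖ξ‖ - ξ 0 ∈ [0, k]`:
`e1(x₀ ξ₀) = e1(x₀ ‖ξ‖) (1 - 2πi ∫_0^{x₀} η e1(-sη) ds)`, so for `|x₀| ≤ 1` (Minkowski in `ℓ⁴`)
`VB g x ≤ VOp g x + 2π ∫_{-1}^{1} VOp h_s x ds`, `h_s = η e1(-sη) g`, `|h_s| ≤ k |g|`; CF0, Cauchy–Schwarz in `s`,
Tonelli (the suprema over countable families: rational `N`, continuity; or Minkowski for a fixed sequence).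
If `k = 0` the support is a half line (measure `0`), nothing special is needed. -/
def T_CF1 : Prop := ∀ (m : ℕ) (k : ℝ), 0 ≤ k → ∃ C : ℝ≥0, ∀ (g : E (m + 1) → ℂ) (x0 : E (m + 1)),
  Measurable g → (∀ ξ, g ξ ≠ 0 → ‖ξ‖ - ξ 0 ≤ k) →
    ∫⁻ x in Metric.closedBall x0 1, VB g x ^ 2 ≤ C * ∫⁻ ξ, ‖g ξ‖ₑ ^ 2

/-- **CF2** (45 min; from CF1, FRT (landed `CRF/P_FRT.lean`) or directly). Rotation: a linear isometry `A` with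
`A e₀ = w`, `e₀` the first basis vector; `VB (g ∘ A) x = VB g (A x)`, `⟪w, A ξ⟫ = ξ 0`. -/
def T_CF2 : Prop := ∀ (n : ℕ) (k : ℝ), 1 ≤ n → 0 ≤ k → ∃ C : ℝ≥0,
  ∀ (w : E n) (g : E n → ℂ) (x0 : E n), ‖w‖ = 1 → Measurable g →
  (∀ ξ, g ξ ≠ 0 → ‖ξ‖ - inner ℝ w ξ ≤ k) →
    ∫⁻ x in Metric.closedBall x0 1, VB g x ^ 2 ≤ C * ∫⁻ ξ, ‖g ξ‖ₑ ^ 2

/-! ### random signs -/

/-- the random multiplier: `ε i` on the cell `Q i` -/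
noncomputable def rm {n : ℕ} {Ω : Type} (Q : ℕ → Set (E n)) (ε : ℕ → Ω → ℝ) (ω : Ω) (ξ : E n) :
    ℂ := ∑' i, (Q i).indicator (fun _ => (ε i ω : ℂ)) ξ

/-- disjoint measurable cells in parabolic regions -/
structure Cells (n : ℕ) (k : ℝ) (Q : ℕ → Set (E n)) (w : ℕ → E n) : Prop where
  meas : ∀ i, MeasurableSet (Q i)
  disj : ∀ i j, i ≠ j → Disjoint (Q i) (Q j)
  unit : ∀ i, ‖w i‖ = 1
  par : ∀ i, ∀ ξ ∈ Q i, ‖ξ‖ - inner ℝ (w i) ξ ≤ k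

/-- **RC0** (75 min; from CHN, CF2). Finitely many cells and radii. For fixed `x` apply CHN to
`X i j = ∫_{‖ξ‖ ≤ r j} 1_{Q i} g ex x ξ` for `1 ≤ j ≤ M` (`r` increasing, `0 < r 1`), `X i 0 = 0`, and
`V i = VB (1_{Q i} g) x` (the increments of `X i` are integrals over shells; for the step from `0` take `N` negative);
integrate over `x` in the ball (Tonelli: everything is a finite supremum of functions measurable in `(ω, x)`,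
continuous in `x`), CF2 for `1_{Q i} g`, `∑_i ∫ |1_{Q i} g|² ≤ ∫ |g|²`. -/
def T_RC0 : Prop := ∀ (n : ℕ) (k : ℝ), 1 ≤ n → 0 ≤ k → ∃ C : ℝ≥0,
  ∀ (Q : ℕ → Set (E n)) (w : ℕ → E n) (g : E n → ℂ) (x0 : E n) (Ω : Type) [MeasurableSpace Ω]
  (P : Measure Ω) (ε : ℕ → Ω → ℝ) (m M : ℕ) (r : ℕ → ℝ), Cells n k Q w → Measurable g →
  (∫⁻ ξ, ‖g ξ‖ₑ ^ 2) ≠ ⊤ → Sgn P ε → StrictMono r → 0 < r 0 →
    ∫⁻ ω, (∫⁻ x in Metric.closedBall x0 1, (⨆ (j : ℕ) (_ : j ≤ M),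
      ‖∑ i ∈ Finset.range m, (ε i ω : ℂ) *
        ∫ ξ in Metric.closedBall (0 : E n) (r j), (Q i).indicator g ξ * ex x ξ‖ₑ) ^ 2) ∂P ≤
      C * ∫⁻ ξ, ‖g ξ‖ₑ ^ 2

/-- **RC1** (75 min; from RC0). All cells and all radii. For a finite set of rational radii: `m → ∞` (for `ω` with all
`ε i ω = ±1`, which is a.s.; `∑_{i<m} ε i ω ∫ 1_{Q i} g ex → ∫ rm g ex` on balls by dominated convergence, `g` is
integrable on balls), Fatou; then monotone convergence over the finite sets of rational radii, and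
`R ↦ ∫_{‖ξ‖ ≤ R}` is continuous, so the supremum over `R > 0` is the one over the rationals. -/
def T_RC1 : Prop := ∀ (n : ℕ) (k : ℝ), 1 ≤ n → 0 ≤ k → ∃ C : ℝ≥0,
  ∀ (Q : ℕ → Set (E n)) (w : ℕ → E n) (g : E n → ℂ) (x0 : E n) (Ω : Type) [MeasurableSpace Ω]
  (P : Measure Ω) (ε : ℕ → Ω → ℝ), Cells n k Q w → Measurable g →
  (∫⁻ ξ, ‖g ξ‖ₑ ^ 2) ≠ ⊤ → Sgn P ε →
    ∫⁻ ω, (∫⁻ x in Metric.closedBall x0 1, (⨆ (R : ℝ) (_ : 0 < R),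
      ‖∫ ξ in Metric.closedBall (0 : E n) R, rm Q ε ω ξ * g ξ * ex x ξ‖ₑ) ^ 2) ∂P ≤
      C * ∫⁻ ξ, ‖g ξ‖ₑ ^ 2

/-- **RAC** (90 min; from RC1, Plancherel). Almost sure a.e. convergence. For `ω` with all `ε i ω = ±1` the function
`g_ω = rm Q ε ω · g` is in `L²` (`|g_ω| ≤ |g|`), and `S_R = ∫_{‖ξ‖ ≤ R} g_ω ex x ξ` converges in `L²(dx)` to some `F`
(Plancherel on `L²`, Cauchy; `Pool/Agent/H25` Plancherel or `T_AHN`-type files). RC1 for `g 1_{‖ξ‖ > m}`: its maximal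
function `M_m(ω, x)` satisfies `∫∫_{B} M_m² → 0`, and `sup_{R,R' ≥ m} |S_R - S_R'| ≤ 2 M_m`; `M_m` is decreasing up to a
factor `2`, so for a subsequence `M_m → 0` a.e. in `Ω × B`, hence `S_R(x)` is Cauchy as `R → ∞` for a.e. `(ω, x)`, for every
ball `B` (countably many cover), and the limit is `F` a.e. (a subsequence of an `L²` convergent sequence). Fubini
(`Measure.ae_ae_of_ae_prod`; the Cauchy set is measurable: rational `R`). -/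
def T_RAC : Prop := ∀ (n : ℕ) (k : ℝ), 1 ≤ n → 0 ≤ k →
  ∀ (Q : ℕ → Set (E n)) (w : ℕ → E n) (g : E n → ℂ) (Ω : Type) [MeasurableSpace Ω]
  (P : Measure Ω) (ε : ℕ → Ω → ℝ), Cells n k Q w → Measurable g →
  (∫⁻ ξ, ‖g ξ‖ₑ ^ 2) ≠ ⊤ → Sgn P ε →
    ∀ᵐ ω ∂P, ∃ F : E n → ℂ, MemLp F 2 ∧
      Tendsto (fun R : ℝ => ∫⁻ x, ‖(∫ ξ in Metric.closedBall (0 : E n) R,
        rm Q ε ω ξ * g ξ * ex x ξ) - F x‖ₑ ^ 2) atTop (𝓝 0) ∧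
      ∀ᵐ x, Tendsto (fun R : ℝ => ∫ ξ in Metric.closedBall (0 : E n) R,
        rm Q ε ω ξ * g ξ * ex x ξ) atTop (𝓝 (F x))

end Pool.Agent.VRC
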