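import Pool.Agent.VRC.Targets2

set_option autoImplicit false

/-!
# VRC, third part: random signs for any family with a uniform variation bound

`T_AB0`, `T_AB1`, `T_ABC` replace `T_RC0` and the main parts of `T_RC1`, `T_RAC`; they are used for cells and for
spherical harmonic components.
-/

namespace Pool.Agent.VRC

open MeasureTheory FourierTransform Set Filter Topology
open scoped ENNReal NNReal
open Pool.Agent.MBS (E ex)

/-- uniform variation bound for the `g i` on `A`, after removing the frequencies `‖ξ‖ ≤ ρ` -/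
structure GB (n : ℕ) (A : Set (E n)) (B : ℝ≥0∞) (g : ℕ → E n → ℂ) : Prop where
  meas : ∀ i, Measurable (g i)
  mA : MeasurableSet A
  fin : ∑' i, ∫⁻ ξ, ‖g i ξ‖ₑ ^ 2 ≠ ⊤
  bd : ∀ (i : ℕ) (ρ : ℝ), 0 ≤ ρ →
    ∫⁻ x in A, VB ({ξ : E n | ρ < ‖ξ‖}.indicator (g i)) x ^ 2 ≤
      B * ∫⁻ ξ in {ξ : E n | ρ < ‖ξ‖}, ‖g i ξ‖ₑ ^ 2

/-- **AB0** (75 min; from CHN). Finitely many functions and radii. For fixed `x` apply CHN (with `M + 1`) to
`X i (j+1) = ∫_{ρ < ‖ξ‖ ≤ r j} g i ex x ξ` (`j ≤ M`; constant for larger `j`), `X i 0 = 0`, and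
`V i = VB (1_{ρ < ‖ξ‖} g i) x` (the increments of `X i` are integrals over shells `N j < ‖ξ‖ ≤ N (j+1)`, `N 0 = ρ`);
integrate over `x` in `A` (Tonelli: the left sides are finite suprema of functions which are measurable in `(ω, x)`,
continuous in `x`), `GB.bd`, `∑_{i<m} ≤ ∑'`. Here the order of the two integrals on the left is `ω`, `x`; swap them with
Tonelli. (`VB` of a function is measurable in `x`: countable suprema, or avoid it by a lower integral and a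
measurable finite supremum: only the finitely many sequences `N` with values in `{ρ, r 0, ..., r M}` are needed.) -/
def T_AB0 : Prop := ∃ C : ℝ≥0, ∀ (n : ℕ) (A : Set (E n)) (B : ℝ≥0∞) (g : ℕ → E n → ℂ) (ρ : ℝ)
  (Ω : Type) [MeasurableSpace Ω] (P : Measure Ω) (ε : ℕ → Ω → ℝ) (m M : ℕ) (r : ℕ → ℝ),
  1 ≤ n → GB n A B g → Sgn P ε → 0 ≤ ρ → ρ < r 0 → StrictMono r →
    ∫⁻ ω, (∫⁻ x in A, (⨆ (j : ℕ) (_ : j ≤ M), ‖∑ i ∈ Finset.range m, (ε i ω : ℂ) *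
        ∫ ξ in {ξ : E n | ρ < ‖ξ‖ ∧ ‖ξ‖ ≤ r j}, g i ξ * ex x ξ‖ₑ) ^ 2) ∂P ≤
      C * B * ∑' i, ∫⁻ ξ in {ξ : E n | ρ < ‖ξ‖}, ‖g i ξ‖ₑ ^ 2

/-- **AB1** (75 min; from AB0). All functions and all radii. Let `F k` (`k ∈ ℕ`) be increasing finite sets which exhaust the
rationals `> ρ`, `f_{m,k}(ω, x) = max_{R ∈ F k} |∑_{i<m} ε i ω ∫_{ρ<‖ξ‖≤R} g i ex|` (measurable),
`H = sup_k liminf_m f_{m,k}`: AB0, Fatou (`lintegral_liminf_le`; first in the product, Tonelli) and monotone convergence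
(`H_k = liminf_m f_{m,k}` is increasing in `k`). If `G ω` is the `L²` limit then the integrals over the bounded
sets `ρ < ‖ξ‖ ≤ R` converge (Cauchy–Schwarz), so the bound holds for rational `R`, and by right continuity in `R` for all
`R > ρ` (dominated convergence, `G ω` is in `L²`, so integrable on balls). -/
def T_AB1 : Prop := ∃ C : ℝ≥0, ∀ (n : ℕ) (A : Set (E n)) (B : ℝ≥0∞) (g : ℕ → E n → ℂ) (ρ : ℝ)
  (Ω : Type) [MeasurableSpace Ω] (P : Measure Ω) (ε : ℕ → Ω → ℝ) (G : Ω → E n → ℂ),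
  1 ≤ n → GB n A B g → Sgn P ε → 0 ≤ ρ → (∀ ω, Measurable (G ω)) →
  (∀ᵐ ω ∂P, Tendsto (fun m : ℕ => ∫⁻ ξ, ‖G ω ξ - ∑ i ∈ Finset.range m, (ε i ω : ℂ) * g i ξ‖ₑ ^ 2)
    atTop (𝓝 0)) →
    ∃ H : Ω × E n → ℝ≥0∞, Measurable H ∧
      (∀ᵐ ω ∂P, ∀ (x : E n) (R : ℝ), ρ < R →
        ‖∫ ξ in {ξ : E n | ρ < ‖ξ‖ ∧ ‖ξ‖ ≤ R}, G ω ξ * ex x ξ‖ₑ ≤ H (ω, x)) ∧
      ∫⁻ ω, (∫⁻ x in A, H (ω, x) ^ 2) ∂P ≤ C * B * ∑' i, ∫⁻ ξ in {ξ : E n | ρ < ‖ξ‖}, ‖g i ξ‖ₑ ^ 2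

/-- **ABC** (90 min; from AB1, Plancherel). Almost sure a.e. convergence. For a.e. `ω` `G ω ∈ L²`, so
`S_R = ∫_{‖ξ‖ ≤ R} (G ω) ex x ξ` converges in `L²(dx)` to some `F` (Plancherel on `L²`, Cauchy). Choose `ρ_l → ∞` with
`∑_l ∑'_i ∫_{‖ξ‖>ρ_l} |g i|² < ∞` (dominated convergence for the sum) and `H_l` from AB1 for `A k`, `ρ_l`: `∑_l H_l²` is
integrable over `Ω × A k`, so for a.e. `ω` `H_l(ω, x) → 0` for a.e. `x ∈ A k`; for `R, R' > ρ_l`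
`|S_R x - S_R' x| ≤ 2 H_l(ω, x)`: `S_R x` is Cauchy, and its limit is `F x` for a.e. `x` (a subsequence of an `L²`
convergent sequence converges a.e.). Countably many `k`. -/
def T_ABC : Prop := ∀ (n : ℕ) (A : ℕ → Set (E n)) (B : ℝ≥0∞) (g : ℕ → E n → ℂ)
  (Ω : Type) [MeasurableSpace Ω] (P : Measure Ω) (ε : ℕ → Ω → ℝ) (G : Ω → E n → ℂ),
  1 ≤ n → B ≠ ⊤ → (∀ k, GB n (A k) B g) → Sgn P ε → (∀ ω, Measurable (G ω)) →
  (∀ᵐ ω ∂P, Tendsto (fun m : ℕ => ∫⁻ ξ, ‖G ω ξ - ∑ i ∈ Finset.range m, (ε i ω : ℂ) * g i ξ‖ₑ ^ 2)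
    atTop (𝓝 0)) →
    ∀ᵐ ω ∂P, ∃ F : E n → ℂ, MemLp F 2 ∧
      Tendsto (fun R : ℝ => ∫⁻ x, ‖(∫ ξ in Metric.closedBall (0 : E n) R,
        G ω ξ * ex x ξ) - F x‖ₑ ^ 2) atTop (𝓝 0) ∧
      ∀ᵐ x ∂(volume.restrict (⋃ k, A k)), Tendsto (fun R : ℝ =>
        ∫ ξ in Metric.closedBall (0 : E n) R, G ω ξ * ex x ξ) atTop (𝓝 (F x))

/-- **RCA** (60 min; from AB1, ABC, CF2): `T_RC1` and `T_RAC` (they stay as stated) with `g i := 1_{Q i} g`,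
`G ω := rm Q ε ω · g`; for `ω` with all `ε i ω = ±1` (a.s.) the `L²` convergence holds by dominated convergence; CF2 for
`1_{‖ξ‖>ρ} 1_{Q i} g` gives `GB` for every unit ball, countably many unit balls cover. -/
def T_RCA : Prop := T_RC1 ∧ T_RAC

end Pool.Agent.VRC
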