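import Pool.Agent.VRC.Targets4
import Mathlib.Analysis.InnerProductSpace.Laplacian

set_option autoImplicit false

/-!
# VRC, fifth part: random signs of the spherical harmonic components, global
-/

namespace Pool.Agent.VRC

open MeasureTheory FourierTransform Set Filter Topology
open scoped ENNReal NNReal
open Pool.Agent.MBS (E ex)
open Pool.Agent.CRN (sg SH Lam T_POLN T_HELN)
open Pool.Agent.CRR (Sol NSol)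

/-- `g` has pure angular degree `l`: on every sphere about the origin it is a spherical harmonic of degree `l`, i.e. the
restriction of a harmonic function on `ℝⁿ` which is homogeneous of degree `l` -/
def Pure (n l : ℕ) (g : E n → ℂ) : Prop := ∀ ρ : ℝ, 0 < ρ → ∃ p : E n → ℂ, ContDiff ℝ 2 p ∧
  (∀ x, Laplacian.laplacian p x = 0) ∧
  (∀ (t : ℝ) (x : E n), 0 ≤ t → p (t • x) = (t : ℂ) ^ l * p x) ∧
  ∀ θ : E n, ‖θ‖ = 1 → g (ρ • θ) = p θ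

/-- the order of the Bessel function -/
noncomputable def od (n l : ℕ) : ℝ := l + ((n : ℝ) - 2) / 2

/-- **EUL** (75 min): the angular Laplacian. `L2 i j p x = D²p(x)[Jx, Jx] + Dp(x)[J²x]`, `Jx = x_i e_j - x_j e_i`
(second derivative of `φ ↦ p (rt i j φ x)` at `0`), `Σ_{i<j} D²p[J_ij x, J_ij x] = |x|² Δp - D²p[x,x]`,
`Σ_{i<j} J_ij² x = -(n-1) x`; homogeneity: `Dp[x] = l p`, `D²p[x,x] = l (l-1) p`. -/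
def T_EUL : Prop := ∀ (n l : ℕ) (p : E n → ℂ), 2 ≤ n → ContDiff ℝ 2 p →
  (∀ x, Laplacian.laplacian p x = 0) →
  (∀ (t : ℝ) (x : E n), 0 ≤ t → p (t • x) = (t : ℂ) ^ l * p x) →
  ∀ x, Lam p x = -((l * (l + n - 2) : ℝ) : ℂ) * p x

/-- **ODV** (90 min; from HELN, CRR.SYM, EUL): Bessel's equation for each direction. On the sphere of radius `ρ` replace `g` by the
continuous function `h(ξ) = p(ρ⁻¹ ξ)` (`SH g ρ` depends only on the values of `g` on this sphere). `Lam (SH h ρ) x =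
-λ SH h ρ x`, `λ = l (l+n-2)`: differentiate under the integral, `ex (rt φ x) (ρω) = ex x (ρ rt (-φ) ω)`, so
`Lam (SH h ρ) x = ρ^{n-1} ∫ p(ω) Lam (fun ω' => ex x (ρ ω')) ω dσ`, and SYM with `F = ex x (ρ ·)`, `G = conj p`, EUL. Then
HELN: `w(s) = s^a SH h ρ (sθ)`, `a = (n-1)/2`: `w'' = -4π²ρ² w + s^{-2} ((n-1)(n-3)/4 + λ) w`; and `Z(x) = s^{-1/2} w(s)`,
`s = e^x/(2πρ)`, as in `CRR/P_ODEN.lean`: `Z'' = -(e^{2x} - ν²) Z`, `ν² = ((n-2)/2)² + λ = (od n l)²`; bounded for `x ≤ 0`. -/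
def T_ODV : Prop := ∀ (n l : ℕ) (g : E n → ℂ) (ρ : ℝ) (θ : E n), 2 ≤ n → Pure n l g → 0 < ρ →
  ‖θ‖ = 1 → ∃ Z1 : ℝ → ℂ,
    Sol (od n l) (fun x => ((((Real.exp x / (2 * Real.pi * ρ)) ^ (((n : ℝ) - 2) / 2) : ℝ) : ℂ) *
      SH g ρ ((Real.exp x / (2 * Real.pi * ρ)) • θ)).re) (fun x => (Z1 x).re) ∧
    Sol (od n l) (fun x => ((((Real.exp x / (2 * Real.pi * ρ)) ^ (((n : ℝ) - 2) / 2) : ℝ) : ℂ) *
      SH g ρ ((Real.exp x / (2 * Real.pi * ρ)) • θ)).im) (fun x => (Z1 x).im)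

/-- **GMV** (120 min; from CRR.SEQ, UNI, NRM, QID, ENR, AHT, CRN.POLN, ODV): separation of variables, see
`CRR/P_GM.lean`. If all `SH g ρ (rθ)` vanish take `G = 0`; otherwise `J` = the normalisation of some nonzero
`Re Z_{ρ₀,θ₀}` or `Im`, UNI: `Z_{ρ,θ} = G(ρ,θ) J`, `G(ρ,θ) = Z_{ρ,θ}(x*)/J(x*)` for `ρ > 0` (measurable in `(ρ, θ)`: parametric
integral), `0` for `ρ ≤ 0`. Energy: POLN in `x` and AHT:
`∫_ρ ∫_θ ∫_0^T r^{n-1} |SH g ρ (rθ)|² ≤ C T ∫|g|²`, `r^{n-1}|SH|² = r |G|² J(log 2πrρ)²`, then as in GM. -/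
def T_GMV : Prop := ∀ n : ℕ, 2 ≤ n → ∃ C : ℝ≥0, ∀ (l : ℕ) (g : E n → ℂ), Measurable g →
  Pure n l g → ∃ (J J' : ℝ → ℝ) (G : ℝ → E n → ℂ), Measurable (fun q : ℝ × E n => G q.1 q.2) ∧
    ((∀ ρ θ, G ρ θ = 0) ∨ NSol (od n l) J J') ∧
    (∀ (ρ r : ℝ) (θ : E n), 0 < ρ → 0 < r → ‖θ‖ = 1 →
      ((r ^ (((n : ℝ) - 2) / 2) : ℝ) : ℂ) * SH g ρ (r • θ) =
        G ρ θ * J (Real.log (2 * Real.pi * r * ρ))) ∧
    ∫⁻ θ, (∫⁻ ρ in Ioi (0 : ℝ), ‖G ρ (θ : E n)‖ₑ ^ 2 * ENNReal.ofReal ρ⁻¹) ∂(sg n) ≤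
      C * ∫⁻ ξ, ‖g ξ‖ₑ ^ 2

/-- **RDV** (120 min; from HAV, GMV, CRN.POLN, VCM): the variation norm estimate for functions of pure angular degree,
uniformly in the degree. We may assume `∫|g|² < ∞`. `x = rθ`, `r = e^u`: the shell integral is
`∫_{N_j}^{N_{j+1}} SH g ρ (rθ) dρ = r^{-(n-2)/2} ∫ G(ρ,θ) J(log 2πrρ) dρ`; with `ρ = e^v/(2π)`, `g_θ(v) = G(e^v/(2π), θ)` it is
`r^{-(n-2)/2} (2πr)^{-1} ∫_{(V_j,V_{j+1}]} κ(u+v) g_θ(v) dv` (`N_j ≤ 0`: `V_j → -∞`), so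
`r^{n-1} VB g (rθ)² ≤ r^{-1} (2π)^{-2} V4o(..)²`, `dr/r = du`: HAV for each `θ`, integrate over the sphere, GMV. See
`CRR/P_RAD.lean`. -/
def T_RDV : Prop := ∀ n : ℕ, 2 ≤ n → ∃ C : ℝ≥0, ∀ (l : ℕ) (g : E n → ℂ), Measurable g →
  Pure n l g → ∫⁻ x, VB g x ^ 2 ≤ C * ∫⁻ ξ, ‖g ξ‖ₑ ^ 2

/-- **RHM** (45 min; from AB1, RDV): random signs, the maximal inequality. `GB n univ C g` from RDV (`1_{‖ξ‖>ρ} g i` is again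
of pure degree: `p = 0` for the radii `≤ ρ`); AB1 with `ρ = 0` (a point is a null set). -/
def T_RHM : Prop := ∀ n : ℕ, 2 ≤ n → ∃ C : ℝ≥0, ∀ (l : ℕ → ℕ) (g : ℕ → E n → ℂ)
  (Ω : Type) [MeasurableSpace Ω] (P : Measure Ω) (ε : ℕ → Ω → ℝ) (G : Ω → E n → ℂ),
  (∀ i, Measurable (g i)) → (∀ i, Pure n (l i) (g i)) → ∑' i, ∫⁻ ξ, ‖g i ξ‖ₑ ^ 2 ≠ ⊤ →
  Sgn P ε → (∀ ω, Measurable (G ω)) →
  (∀ᵐ ω ∂P, Tendsto (fun m : ℕ => ∫⁻ ξ, ‖G ω ξ - ∑ i ∈ Finset.range m, (ε i ω : ℂ) * g i ξ‖ₑ ^ 2)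
    atTop (𝓝 0)) →
    ∫⁻ ω, (∫⁻ x, (⨆ (R : ℝ) (_ : 0 < R),
      ‖∫ ξ in Metric.closedBall (0 : E n) R, G ω ξ * ex x ξ‖ₑ) ^ 2) ∂P ≤
      C * ∑' i, ∫⁻ ξ, ‖g i ξ‖ₑ ^ 2

/-- **RHC** (30 min; from ABC, RDV): almost sure a.e. convergence, `A k = univ`. -/
def T_RHC : Prop := ∀ (n : ℕ) (l : ℕ → ℕ) (g : ℕ → E n → ℂ)
  (Ω : Type) [MeasurableSpace Ω] (P : Measure Ω) (ε : ℕ → Ω → ℝ) (G : Ω → E n → ℂ), 2 ≤ n →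
  (∀ i, Measurable (g i)) → (∀ i, Pure n (l i) (g i)) → ∑' i, ∫⁻ ξ, ‖g i ξ‖ₑ ^ 2 ≠ ⊤ →
  Sgn P ε → (∀ ω, Measurable (G ω)) →
  (∀ᵐ ω ∂P, Tendsto (fun m : ℕ => ∫⁻ ξ, ‖G ω ξ - ∑ i ∈ Finset.range m, (ε i ω : ℂ) * g i ξ‖ₑ ^ 2)
    atTop (𝓝 0)) →
    ∀ᵐ ω ∂P, ∃ F : E n → ℂ, MemLp F 2 ∧
      Tendsto (fun R : ℝ => ∫⁻ x, ‖(∫ ξ in Metric.closedBall (0 : E n) R,
        G ω ξ * ex x ξ) - F x‖ₑ ^ 2) atTop (𝓝 0) ∧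
      ∀ᵐ x, Tendsto (fun R : ℝ => ∫ ξ in Metric.closedBall (0 : E n) R, G ω ξ * ex x ξ) atTop
        (𝓝 (F x))

end Pool.Agent.VRC
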