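import Pool.Agent.VRC.Targets3

set_option autoImplicit false

/-!
# VRC, sixth part: almost sure `L²` convergence of the random series
-/

namespace Pool.Agent.VRC

open MeasureTheory FourierTransform Set Filter Topology
open scoped ENNReal NNReal
open Pool.Agent.MBS (E ex)

/-- **KOL** (60 min; from CHN). CHN with `X i j = c i` if `i < j`, `0` otherwise (`i < n`, `j ≤ n`; `X i 0 = 0`), `V i = ‖c i‖`
(a monotone `t` sees at most one jump) is Lévy's inequality `E sup_{j ≤ n} |∑_{i<j} ε i c i|² ≤ C ∑_{i<n} |c i|²`; applied to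
`c i = g i ξ` for `m ≤ i` and `0` for `i < m`, integrated over `ξ` (Tonelli; finite suprema of measurable functions),
`n → ∞` (monotone convergence): `E ∫ sup_{j ≥ m} |∑_{m ≤ i < j} ε i g i ξ|² dξ ≤ C ∑_{i ≥ m} ∫ |g i|² → 0`. So (a subsequence
of `m`; the suprema decrease up to a factor) for a.e. `ω` the partial sums are Cauchy in `L²(dξ)`: completeness of `L²` gives
`G ω` (measurable version: `AEStronglyMeasurable.mk`); for the other `ω` put `G ω = 0`. -/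
def T_KOL : Prop := ∀ (n : ℕ) (g : ℕ → E n → ℂ) (Ω : Type) [MeasurableSpace Ω] (P : Measure Ω)
  (ε : ℕ → Ω → ℝ), (∀ i, Measurable (g i)) → ∑' i, ∫⁻ ξ, ‖g i ξ‖ₑ ^ 2 ≠ ⊤ → Sgn P ε →
    ∃ G : Ω → E n → ℂ, (∀ ω, Measurable (G ω)) ∧
      ∀ᵐ ω ∂P, Tendsto (fun m : ℕ =>
        ∫⁻ ξ, ‖G ω ξ - ∑ i ∈ Finset.range m, (ε i ω : ℂ) * g i ξ‖ₑ ^ 2) atTop (𝓝 0)

end Pool.Agent.VRC
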